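import Pool.Agent.MP_e6539c_co.C5.Defs

/-! Statements of the modules of the five-cycle double cover theorem. -/

set_option autoImplicit false

namespace Pool.Agent.MP_e6539c_co.C5

open Finset
open Pool.Agent.MP_7be75d_co (R Conn comp)
open Pool.Agent.MP_e6539c_co.TW (MG)
open scoped Classical

/-! ### Trees, survival, moves -/

def TreeStmt : Prop := ∀ (V : Type) [Fintype V] (G : SimpleGraph V) (Y X : Finset V)
  (S : Fin 4 → Set V) (l k N : ℕ),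
  (l, k, N) ∈ [(3, 1, 2), (2, 3, 5), (1, 5, 5), (0, 7, 5)] → Gi G → Pc G Y →
  (∀ i, Cls G Y (S i)) → (∀ i : Fin 4, l ≤ i.1 → S i = ∅) → X.card ≤ k →
  Cov G Y {x | (∃ i, x ∈ S i) ∨ x ∈ X} → Y.card ≤ N

def GeoStmt : Prop := ∀ (V : Type) [Fintype V] (G : SimpleGraph V) (C : Finset V) (a b : V),
  Gi G → Conn G C → a ≠ b → a ∉ C → b ∉ C → Act G C a → Act G C b →
  ∃ m d, Geo G C m d ∧ d 0 = a ∧ d (m + 1) = b ∧ ¬ Cyc G (inner m d) ∧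
    Cls G (C \ inner m d) {x | ∃ i ≤ m + 1, x = d i} ∧
    ∀ i j w w' r, i ≤ j → j ≤ m + 1 → G.Adj (d i) w → G.Adj (d j) w' → (i = j → w ≠ w') →
      Wk G (C \ inner m d) w w' r → 9 + i ≤ r + j

/-- A cyclic set stays cyclic when an acyclic part with few edges to the trees is removed. -/
def Surv0Stmt : Prop := ∀ (V : Type) [Fintype V] (G : SimpleGraph V) (C D : Finset V),
  Cyc G C → ¬ Cyc G D → ¬ Cyc G (C \ D) →
  (∀ y ∈ C \ D, (mks G (comp G (C \ D) y) ↑D).card ≤ 1) → False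

def SurvStmt : Prop := ∀ (V : Type) [Fintype V] (G : SimpleGraph V) (C : Finset V) (m : ℕ)
  (d : ℕ → V), Gi G → Deg3 G C → Cyc G C → Geo G C m d → ¬ Cyc G (inner m d) →
  Cls G (C \ inner m d) {x | ∃ i ≤ m + 1, x = d i} →
  (∀ i j w w' r, i ≤ j → j ≤ m + 1 → G.Adj (d i) w → G.Adj (d j) w' → (i = j → w ≠ w') →
      Wk G (C \ inner m d) w w' r → 9 + i ≤ r + j) →
  (Sys G C {d 0, d (m + 1)} ∨ Tiny G C (d 0) (d (m + 1))) → Cyc G (C \ inner m d)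

def MoveStmt : Prop := ∀ (V : Type) [Fintype V] (G Γ : SimpleGraph V) (C : Finset V) (a b : V),
  Ctx G Γ C → a ≠ b → a ∉ C → b ∉ C → Act G C a → Act G C b →
  (Sys G C {a, b} ∨ Tiny G C a b) →
  ∃ (D : List V) (C' : Finset V), D ≠ [] ∧ D.Nodup ∧ (∀ x ∈ D, x ∈ C ∧ x ∉ C') ∧
    (a :: (D ++ [b])).IsChain Γ.Adj ∧ C' ⊆ C ∧ C'.card < C.card ∧ Ctx G Γ C' ∧
    Cls G C' {x | x ∈ a :: (D ++ [b])} ∧
    ∀ S : Set V, Cov G C S → Cov G C' (S ∪ {x | x ∈ D})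

def Move0Stmt : Prop := ∀ (V : Type) [Fintype V] (G Γ : SimpleGraph V) (C : Finset V) (x w : V),
  Ctx G Γ C → w ∈ C → Cov G C {x} →
  ∃ C' ⊆ C, w ∉ C' ∧ C'.card < C.card ∧ Ctx G Γ C' ∧
    ∀ S : Set V, Cov G C S → Cov G C' (S ∪ {w})

/-! ### The game -/

def CyStmt : Prop := ∀ (V : Type) [Fintype V] (G : SimpleGraph V) (C : Finset V),
  NoSt G C.card → ∀ Γ L, ¬ CYs G Γ C L

def PsStmt : Prop := ∀ (V : Type) [Fintype V] (G : SimpleGraph V) (C : Finset V),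
  NoSt G C.card → (∀ Γ L, ¬ CYs G Γ C L) → ∀ Γ p A q B s, ¬ Ps G Γ C p A q B s

def KfinStmt : Prop := ∀ (V : Type) [Fintype V] (G Γ : SimpleGraph V) (C : Finset V)
  (c : Fin 4 → V) (A : Fin 4 → List V), NoSt G C.card → Ks G Γ C c A →
  (∀ i, ∃ a ∈ A i, Act G C a) → False

def KsStmt : Prop := ∀ (V : Type) [Fintype V] (G : SimpleGraph V) (C : Finset V),
  NoSt G C.card → (∀ Γ L, ¬ CYs G Γ C L) → (∀ Γ p A q B s, ¬ Ps G Γ C p A q B s) →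
  ∀ Γ c A, ¬ Ks G Γ C c A

/-- No state of the game exists. -/
def NoAllStmt : Prop := ∀ (V : Type) [Fintype V] (G : SimpleGraph V) (n : ℕ), NoSt G n

/-- Girth eleven and minimum degree three force a Petersen minor. -/
def AStmt : Prop := ∀ (V : Type) [Fintype V] (G : SimpleGraph V), Gi G →
  (∀ u v, G.Adj u v → 3 ≤ dg G univ u) → (∃ u v, G.Adj u v) → Pet G

/-- A tree whose neighbours lie on four closed arcs has a cross or at most two vertices. -/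
def QtreeStmt : Prop := ∀ (V : Type) [Fintype V] (G : SimpleGraph V) (Y : Finset V)
  (O : Fin 4 → Set V) (c : Fin 4 → V), Pc G Y → Function.Injective c → (∀ i j, c j ∉ O i) →
  (∀ i, Cls G Y (O i ∪ {c i, c (i + 1)})) → Cov G Y {x | ∃ i, x = c i ∨ x ∈ O i} →
  (∀ U ⊆ Y, ∀ U' ⊆ Y, Disjoint U U' → Conn G U → Conn G U' → (∃ a ∈ O 0, Act G U a) →
    (∃ a ∈ O 2, Act G U a) → (∃ a ∈ O 1, Act G U' a) → (∃ a ∈ O 3, Act G U' a) → False) →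
  Y.card ≤ 2

/-- The Petersen minor made of a frame and two connected sets in a connected set `Y`. -/
def XcoreStmt : Prop := ∀ (V : Type) [Fintype V] (G Γ : SimpleGraph V) (Y U U' : Finset V)
  (c : Fin 4 → V) (A : Fin 4 → List V), Conn G Y → (∀ w ∈ Y, ∀ x, G.Adj w x → Γ.Adj w x) →
  Function.Injective c → (∀ i j, i ≠ j → ∀ x ∈ A i, x ∉ A j) → (∀ i j, c i ∉ A j) →
  (∀ i, c i ∉ Y) → (∀ i, ∀ x ∈ A i, x ∉ Y) →
  (∀ i, (c i :: (A i ++ [c (i + 1)])).IsChain Γ.Adj) → (∀ i, Γ.Adj (c i) (c (i + 2))) →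
  U ⊆ Y → U' ⊆ Y → Disjoint U U' → Conn G U → Conn G U' → (∃ a ∈ A 0, Act G U a) →
  (∃ a ∈ A 2, Act G U a) → (∃ a ∈ A 1, Act G U' a) → (∃ a ∈ A 3, Act G U' a) → Pet Γ

/-- A move across an empty arc when the other three closed arcs are classes. -/
def QuadStmt : Prop := ∀ (V : Type) [Fintype V] (G Γ : SimpleGraph V) (C : Finset V)
  (c : Fin 4 → V) (A : Fin 4 → List V), Ks G Γ C c A → A 0 = [] →
  (∀ i, i ≠ 0 → Cls G C {x | x ∈ c i :: (A i ++ [c (i + 1)])}) → Tiny G C (c 0) (c 1)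

/-! ### The final state -/

def XpetStmt : Prop := ∀ (V : Type) [Fintype V] (G Γ : SimpleGraph V) (C : Finset V)
  (c : Fin 4 → V) (A : Fin 4 → List V) (t : Fin 4 → V), Ks G Γ C c A → (∀ i, t i ∈ A i) →
  ¬ Cross (HK G C A t) [t 0, t 1, t 2, t 3]

def ZredStmt : Prop := ∀ (V : Type) [Fintype V] (G Γ : SimpleGraph V) (C : Finset V)
  (c : Fin 4 → V) (A : Fin 4 → List V) (t : Fin 4 → V), Ks G Γ C c A → (∀ i, t i ∈ A i) →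
  (∀ i, ∃ a ∈ A i, Act G C a) → ∀ Z ⊆ C, Cyc G Z → ∀ y₁ y₂ y₃, Bd3 (HK G C A t) Z y₁ y₂ y₃ →
  ∃ (Γ' : SimpleGraph V) (C' : Finset V) (A' : Fin 4 → List V),
    C'.card < C.card ∧ Ks G Γ' C' c A'

/-- A cycle behind a three-cut runs through two or three pieces. -/
def PatStmt : Prop := ∀ (V : Type) [Fintype V] (H : SimpleGraph V) (Z : Finset V) (y₁ y₂ y₃ : V),
  Bd3 H Z y₁ y₂ y₃ → ¬ Cyc H Z →
  (∀ z ∈ Z, ∀ y ∉ Z, ∀ w ∈ comp H Z z, ∀ w' ∈ comp H Z z, H.Adj y w → H.Adj y w' → w = w') →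
  ∀ x, Ev H x → (∀ u v, x s(u, v) ≠ 0 → u ∈ Z ∨ v ∈ Z) → x ≠ 0 →
  (∃ z₁ ∈ Z, ∃ z₂ ∈ Z, ∃ a ∉ Z, ∃ b ∉ Z, Disjoint (comp H Z z₁) (comp H Z z₂) ∧ a ≠ b ∧
    Act H (comp H Z z₁) a ∧ Act H (comp H Z z₁) b ∧ Act H (comp H Z z₂) a ∧
    Act H (comp H Z z₂) b) ∨
  (∃ z₁ ∈ Z, ∃ z₂ ∈ Z, ∃ z₃ ∈ Z, ∃ a ∉ Z, ∃ b ∉ Z, ∃ e ∉ Z,
    Disjoint (comp H Z z₁) (comp H Z z₂) ∧ Disjoint (comp H Z z₁) (comp H Z z₃) ∧
    Disjoint (comp H Z z₂) (comp H Z z₃) ∧ a ≠ b ∧ a ≠ e ∧ b ≠ e ∧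
    Act H (comp H Z z₁) a ∧ Act H (comp H Z z₁) b ∧ Act H (comp H Z z₂) a ∧
    Act H (comp H Z z₂) e ∧ Act H (comp H Z z₃) b ∧ Act H (comp H Z z₃) e)

/-- Pieces with seven single neighbours. -/
def Fc0Stmt : Prop := ∀ (V : Type) [Fintype V] (G : SimpleGraph V), Gi G →
  (∀ (Y₁ Y₂ X : Finset V) (a b : V), Pc G Y₁ → Pc G Y₂ → Disjoint Y₁ Y₂ → X.card ≤ 7 →
    Disjoint X Y₁ → Disjoint X Y₂ → Cov G Y₁ ↑X → Cov G Y₂ ↑X → a ∈ X → b ∈ X → a ≠ b →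
    Act G Y₁ a → Act G Y₁ b → Act G Y₂ a → Act G Y₂ b → False) ∧
  ∀ (Y₁ Y₂ Y₃ X X₀ : Finset V) (a b e : V), Pc G Y₁ → Pc G Y₂ → Pc G Y₃ → Disjoint Y₁ Y₂ →
    Disjoint Y₁ Y₃ → Disjoint Y₂ Y₃ → X₀.card ≤ 4 → X = insert a (insert b (insert e X₀)) →
    Disjoint X Y₁ → Disjoint X Y₂ → Disjoint X Y₃ → Cov G Y₁ ↑X → Cov G Y₂ ↑X → Cov G Y₃ ↑X →
    a ≠ b → a ≠ e → b ≠ e → Act G Y₁ a → Act G Y₁ b → Act G Y₂ a → Act G Y₂ e → Act G Y₃ b →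
    Act G Y₃ e → False

/-- Pieces with one class and four single neighbours. -/
def Fc1Stmt : Prop := ∀ (V : Type) [Fintype V] (G : SimpleGraph V) (C X : Finset V) (S : Set V),
  Gi G → Cls G C S → X.card ≤ 4 →
  (∀ Y ⊆ C, Pc G Y → Cov G Y (S ∪ ↑X) → Y.card ≤ 3) ∧
  (∀ Y₁ ⊆ C, ∀ Y₂ ⊆ C, ∀ y ∈ X, Pc G Y₁ → Pc G Y₂ → Disjoint Y₁ Y₂ → Disjoint X Y₁ →
    Disjoint X Y₂ → Cov G Y₁ (S ∪ ↑X) → Cov G Y₂ (S ∪ ↑X) → y ∈ C → Act G Y₁ y → Act G Y₂ y →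
    (∃ a ∈ S, Act G Y₁ a) → (∃ a ∈ S, Act G Y₂ a) → False) ∧
  ∀ Y₁ ⊆ C, ∀ Y₂ ⊆ C, ∀ Y₃ ⊆ C, ∀ y ∈ X, ∀ y' ∈ X, Pc G Y₁ → Pc G Y₂ → Pc G Y₃ →
    Disjoint Y₁ Y₂ → Disjoint Y₁ Y₃ → Disjoint Y₂ Y₃ → Disjoint X Y₁ → Disjoint X Y₂ →
    Disjoint X Y₃ → Cov G Y₁ (S ∪ ↑X) → Cov G Y₂ (S ∪ ↑X) → Cov G Y₃ (S ∪ ↑X) → y ≠ y' →
    y ∈ C → y' ∈ C → Act G Y₁ y → Act G Y₂ y' → Act G Y₃ y → Act G Y₃ y' →
    (∃ a ∈ S, Act G Y₁ a) → (∃ a ∈ S, Act G Y₂ a) → False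

/-- Pieces with two classes and two single neighbours. -/
def Fc2Stmt : Prop := ∀ (V : Type) [Fintype V] (G : SimpleGraph V) (C : Finset V) (y e : V)
  (S₁ S₂ : Set V), Gi G → Cls G C S₁ → Cls G C S₂ →
  (∀ Y ⊆ C, Pc G Y → Cov G Y (S₁ ∪ S₂ ∪ {y, e}) → Y.card ≤ 2) ∧
  ∀ Y₁ ⊆ C, ∀ Y₂ ⊆ C, Pc G Y₁ → Pc G Y₂ → Disjoint Y₁ Y₂ → y ∉ Y₁ → y ∉ Y₂ → e ∉ Y₁ → e ∉ Y₂ →
    Cov G Y₁ (S₁ ∪ S₂ ∪ {y, e}) → Cov G Y₂ (S₁ ∪ S₂ ∪ {y, e}) → y ∈ C → Act G Y₁ y →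
    Act G Y₂ y → (∃ a ∈ S₁, Act G Y₁ a) → (∃ a ∈ S₁, Act G Y₂ a) → False

def FcaStmt : Prop := ∀ (V : Type) [Fintype V] (G Γ : SimpleGraph V) (C : Finset V)
  (c : Fin 4 → V) (A : Fin 4 → List V) (t : Fin 4 → V), Ks G Γ C c A → (∀ i, t i ∈ A i) →
  ∀ Z ⊆ C, ¬ Cyc G Z → ∀ y₁ y₂ y₃, Bd3 (HK G C A t) Z y₁ y₂ y₃ →
  ∀ x, Ev (HK G C A t) x → (∀ u v, x s(u, v) ≠ 0 → u ∈ Z ∨ v ∈ Z) → x = 0

/-- Every nonempty even set is heavy. -/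
def WeightStmt : Prop := ∀ (V : Type) [Fintype V] (G Γ : SimpleGraph V) (C : Finset V)
  (c : Fin 4 → V) (A : Fin 4 → List V) (t : Fin 4 → V), Ks G Γ C c A → (∀ i, t i ∈ A i) →
  ∀ ω : Sym2 V → ℕ, (∀ u ∈ C, ∀ v ∈ C, 2 ≤ ω s(u, v)) → (∀ i, 6 ≤ ω s(t i, t (i + 1))) →
  (∀ u ∈ C, ∀ i, (if kk G A u ≤ 1 then 7 else 8) ≤ ω s(u, t i)) →
  ∀ x, Ev (HK G C A t) x → x ≠ 0 → 22 ≤ ∑ e ∈ univ.filter (fun e => x e ≠ 0), ω e

def IneqStmt : Prop := ∀ (V : Type) [Fintype V] (G Γ : SimpleGraph V) (C : Finset V)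
  (c : Fin 4 → V) (A : Fin 4 → List V) (t : Fin 4 → V), Ks G Γ C c A → (∀ i, t i ∈ A i) →
  ∀ F, Basis (HK G C A t) [t 0, t 1, t 2, t 3] F →
  ∀ S ⊆ C, ∑ v ∈ S, (9 * dg G S v + 4 * min 3 (2 * kk G A v)) ≤ 22 * S.card + 2

/-- Balls around far apart vertices of a core. -/
def BallStmt : Prop := ∀ (V : Type) [Fintype V] (G : SimpleGraph V) (W : Finset V) (D : V → ℕ),
  Gi G → (∀ v ∈ W, 2 ≤ dg G W v) →
  (∀ u ∈ W, ∀ v ∈ W, u ≠ v → ∀ r, Wk G W u v r → 9 ≤ D u + D v + r) →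
  ∑ v ∈ W, (9 - 2 * D v) ≤ W.card

def PruneStmt : Prop := ∀ (V : Type) [Fintype V] (G : SimpleGraph V) (C X : Finset V)
  (k : V → ℕ), Gi G → Cyc G C → Disjoint X C → X.card ≤ 4 →
  (∀ v ∈ C, 3 ≤ dg G C v + k v + dg G X v) →
  (∀ S ⊆ C, ∑ v ∈ S, (9 * dg G S v + 4 * min 3 (2 * k v)) ≤ 22 * S.card + 2) → False

/-! ### The two paths theorem -/

def MergeStmt : Prop := ∀ (V : Type) (F : Finset (Vec V)) (e : Sym2 V), cov F e ≤ 2 →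
  ∃ F' : Finset (Vec V), (∀ f ∈ F', f e = 0 ∧ (f ∈ F ∨ ∃ g ∈ F, ∃ h ∈ F, f = g + h)) ∧
    (∀ e', cov F' e' ≤ cov F e') ∧
    ∀ x ∈ Submodule.span (ZMod 2) (F : Set (Vec V)), x e = 0 →
      x ∈ Submodule.span (ZMod 2) (F' : Set (Vec V))

def DimStmt : Prop := ∀ (V : Type) [Fintype V] (E : Finset (Sym2 V)) (W : Finset V)
  (F : Finset (Vec V)), W.Nonempty → (∀ u v, s(u, v) ∈ E → u ≠ v ∧ u ∈ W ∧ v ∈ W) →
  (∀ x : Vec V, (∀ e, x e ≠ 0 → e ∈ E) → (∀ v, par x v = 0) →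
    x ∈ Submodule.span (ZMod 2) (F : Set (Vec V))) →
  E.card + 1 ≤ F.card + W.card

/-- From a vertex of odd degree a path in the edge set leads to another one. -/
def HandStmt : Prop := ∀ (V : Type) [Fintype V] (x : Vec V) (a : V), (∀ v, x s(v, v) = 0) →
  par x a ≠ 0 → ∃ (L : ℕ) (f : ℕ → V), f 0 = a ∧ f L ≠ a ∧ par x (f L) ≠ 0 ∧
    (∀ j < L, x s(f j, f (j + 1)) ≠ 0) ∧ ∀ i ≤ L, ∀ j ≤ L, f i = f j → i = j

def SplitStmt : Prop := ∀ (V : Type) [Fintype V] (H : SimpleGraph V) (x y : V) (I J : List V),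
  Frame H (x :: (I ++ y :: J)) → ¬ Cross H (x :: (I ++ y :: J)) → FC H (x :: (I ++ y :: J)) →
  I ≠ [] → J ≠ [] → (∀ u ∈ I, ∀ v ∈ J, ¬ R H (univ \ {x, y}) u v) → TPih H →
  ∃ F, Basis H (x :: (I ++ y :: J)) F

/-- Either the graph is the frame, or there is a pendant edge, or one can peel, or split. -/
def LinkStmt : Prop := ∀ (V : Type) [Fintype V] (H : SimpleGraph V) (L : List V),
  Frame H L → ¬ Cross H L → FC H L →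
  (∀ u v, H.Adj u v → Fr L u v ∨ Fr L v u) ∨
  (∃ v ∉ L, ∃ p, ∀ w, H.Adj v w ↔ w = p) ∨
  (∃ (a b : V) (M : List V) (U : Finset V), L ~r b :: (M ++ [a]) ∧ Conn H U ∧ (∀ u ∈ U, u ∉ L) ∧
    Act H U a ∧ Act H U b) ∨
  ∃ (x y : V) (I J : List V), L ~r x :: (I ++ y :: J) ∧ I ≠ [] ∧ J ≠ [] ∧
    ∀ u ∈ I, ∀ v ∈ J, ¬ R H (univ \ {x, y}) u v

def ExtqStmt : Prop := ∀ (V : Type) [Fintype V] (H : SimpleGraph V) (a b : V) (M : List V)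
  (U : Finset V), Frame H (b :: (M ++ [a])) → Conn H U → (∀ u ∈ U, u ∉ b :: (M ++ [a])) →
  Act H U a → Act H U b →
  ∃ k q, q 0 = a ∧ q k = b ∧ PQ H M k q ∧ RR H M k q ∧ NC H k q

def XlStmt : Prop := ∀ (V : Type) [Fintype V] (H : SimpleGraph V) (M : List V) (k : ℕ)
  (q : ℕ → V), PQ H M k q → ¬ Cross H (q k :: (M ++ [q 0])) → XL H M k q

def LensStmt : Prop := ∀ (V : Type) [Fintype V] (H : SimpleGraph V) (M : List V) (k : ℕ)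
  (q : ℕ → V), PQ H M k q → FC H (q k :: (M ++ [q 0])) → NC H k q → LL H M k q

def GoodStmt : Prop := ∀ (V : Type) [Fintype V] (H : SimpleGraph V) (M : List V) (k : ℕ)
  (q : ℕ → V), PQ H M k q → RR H M k q → XL H M k q → LL H M k q →
  (∀ U, ¬ Good H M k q U) ∧
    ∀ U i l, Disjoint U (qs k q) → Disjoint U (KK H M k q) → i + 2 ≤ l → l ≤ k → ¬ Span H q U i l

def PcrossStmt : Prop := ∀ (V : Type) [Fintype V] (H : SimpleGraph V) (M : List V) (k : ℕ)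
  (q : ℕ → V), PQ H M k q → ¬ Cross H (q k :: (M ++ [q 0])) → NC H k q →
  (∀ U, ¬ Good H M k q U) →
  (∀ U i l, Disjoint U (qs k q) → Disjoint U (KK H M k q) → i + 2 ≤ l → l ≤ k →
    ¬ Span H q U i l) →
  ¬ Cross (H.deleteEdges {s(q 0, q k)}) (q k :: (M ++ (List.range k).map q))

def PeelStmt : Prop := ∀ (V : Type) [Fintype V] (H : SimpleGraph V) (M : List V) (k : ℕ)
  (q : ℕ → V), PQ H M k q → FC H (q k :: (M ++ [q 0])) →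
  ¬ Cross (H.deleteEdges {s(q 0, q k)}) (q k :: (M ++ (List.range k).map q)) → TPih H →
  ∃ F, Basis H (q k :: (M ++ [q 0])) F

/-- The base case and the pendant edge. -/
def BaseStmt : Prop := ∀ (V : Type) [Fintype V] (H : SimpleGraph V) (L : List V), Frame H L →
  ((∀ u v, H.Adj u v → Fr L u v ∨ Fr L v u) → ∃ F, Basis H L F) ∧
  ∀ v ∉ L, ∀ p, (∀ w, H.Adj v w ↔ w = p) → ¬ Cross H L → FC H L → TPih H → ∃ F, Basis H L F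

def TPStmt : Prop := ∀ (V : Type) [Fintype V] (H : SimpleGraph V) (L : List V),
  Frame H L → ¬ Cross H L → FC H L → ∃ F, Basis H L F

/-! ### Double covers -/

/-- The certificate: a state with five equal pairs reaches an extendable state. -/
def KempeStmt : Prop := ∀ (X : KSys) (s : X.S) (x : Fin 5 → V5), (∀ k, Q (x k)) →
  (∀ i, X.b s i = x (half i)) → X.Goal

/-- A boundary of five equal pairs can be replaced by an extendable one. -/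
def CycStmt : Prop := ∀ (V E : Type) [Fintype V] (G : MG V E) (B : Finset E) (τ : Fin 10 → V)
  (ψ : E → V5) (x : Fin 5 → V5), (∀ e ∈ B, Q (ψ e)) → (∀ k, Q (x k)) →
  (∀ v, bd G B ψ v = push τ (fun i => x (half i)) v) →
  ∃ (ψ' : E → V5) (b' : Fin 10 → V5), (∀ e ∈ B, Q (ψ' e)) ∧ (∀ v, bd G B ψ' v = push τ b' v) ∧
    Ext b'

/-- Loops, degrees and small cuts of a smallest counterexample. -/
def CutStmt : Prop := ∀ (V E : Type) [Fintype V] (G : MG V E), MinC G →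
  (∀ e ∈ G.A, G.l e ≠ G.r e) ∧
  (∀ v, (∃ e ∈ G.A, G.Inc e v) → 3 ≤ (G.A.filter fun e => G.Inc e v).card) ∧
  ∀ Y : Set V, (G.cut G.A Y).card ≤ 3 →
    (∀ e ∈ G.A, ¬ (G.l e ∈ Y ∧ G.r e ∈ Y)) ∨ (∀ e ∈ G.A, ¬ (G.l e ∉ Y ∧ G.r e ∉ Y))

/-- At most five edges of a circuit are kept and the rest of the graph has no bridge. -/
def RingStmt : Prop := ∀ (V E : Type) [Fintype V] (G : MG V E), MinC G →
  ∀ n v e, Circ G n v e → ∀ D ⊆ range n, D.Nonempty → n ≤ D.card + 5 →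
  (∀ Y : Set V, (G.cut (G.A \ D.image e) Y).card ≠ 1) → False

/-- A bridge after the deletion of a matching of the circuit. -/
def BridgeStmt : Prop := ∀ (V E : Type) [Fintype V] (G : MG V E), MinC G →
  ∀ n v e, Circ G n v e → RC0 G n v e → ∀ D ⊆ range n,
  (∀ i ∈ D, ∀ j ∈ D, ∀ u, G.Inc (e i) u → G.Inc (e j) u → i = j) →
  ∀ Y : Set V, (G.cut (G.A \ D.image e) Y).card = 1 →
  (G.cut (off G n e) Y).card = 1 ∧ (∀ i < n, i ∉ D → (v i ∈ Y ↔ v (i + 1) ∈ Y)) ∧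
    4 ≤ (D.filter fun i => ¬ (v i ∈ Y ↔ v (i + 1) ∈ Y)).card

/-- No short circuit has its vertices in one component of the rest. -/
def ShortStmt : Prop := ∀ (V E : Type) [Fintype V] (G : MG V E), MinC G →
  ∀ n v e, Circ G n v e → n ≤ 10 → ¬ RC0 G n v e

/-- The extremal short circuit and the extremal component `K` of the rest. -/
def KmaxStmt : Prop := ∀ (V E : Type) [Fintype V] (G : MG V E), MinC G →
  ∀ n₀ v₀ e₀, Circ G n₀ v₀ e₀ → n₀ ≤ 10 →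
  ∃ (n : ℕ) (v : ℕ → V) (e : ℕ → E) (K : Set V), Circ G n v e ∧ 4 ≤ n ∧ n ≤ 10 ∧
    G.cut (off G n e) K = ∅ ∧ v (n - 1) ∈ K ∧ v 0 ∉ K ∧
    ∀ n' v' e', Circ G n' v' e' → n' ≤ 10 →
      (∀ i < n', e' i ∈ off G n e → ¬ (G.l (e' i) ∈ K ∧ G.r (e' i) ∈ K)) →
      n ≤ n' ∧ ∃ i < n', e' i = e (n - 1)

/-- A cycle whose vertices form a class gives a state of the game. -/
def CystStmt : Prop := ∀ (V : Type) [Fintype V] (G Γ : SimpleGraph V) (W : Finset V) (n : ℕ)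
  (v : ℕ → V), Gi G → ¬ Pet Γ → 3 ≤ n → (∀ i < n, ∀ j < n, v i = v j → i = j) →
  (∀ i, i + 1 < n → G.Adj (v i) (v (i + 1))) → G ≤ Γ → Γ.Adj (v (n - 1)) (v 0) →
  (∀ w ∈ W, ∀ x, Γ.Adj w x ↔ G.Adj w x) → Deg3 G W → W.Nonempty → (∀ i < n, v i ∉ W) →
  Cov G W {x | ∃ i < n, x = v i} →
  (∀ i j w w' r, j < n → G.Adj (v i) w → G.Adj (v j) w' → Wk G W w w' r → j ≤ i + r + 2) →
  False

/-- A smallest counterexample has no circuit with at most ten edges. -/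
def GirthStmt : Prop := ∀ (V E : Type) [Fintype V] (G : MG V E), MinC G →
  ∀ n v e, Circ G n v e → 11 ≤ n

def CdcStmt : Prop := ∀ (V E : Type) [Fintype V] (G : MG V E), G.Bridgeless → ¬ G.HasP → Cdc G

end Pool.Agent.MP_e6539c_co.C5
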