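import Mathlib.Algebra.BigOperators.Intervals
import Mathlib.Data.Fin.VecNotation
import Mathlib.Algebra.BigOperators.Pi
import Mathlib.Tactic.IntervalCases
import Mathlib.Tactic.Monotonicity.Lemmas
import Pool.Agent.MP_e6539c_co.C5.Spec

section Part0

/-! Walks, degrees, forests, classes, marks. -/

set_option autoImplicit false

namespace Pool.Agent.MP_e6539c_co.C5

open Finset
open Pool.Agent.MP_7be75d_co (R Conn comp)
open Pool.Agent.MP_7be75d_co
open scoped Classical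

variable {V : Type} {G : SimpleGraph V}

namespace Wk

variable {W W' : Finset V} {a b c : V} {r s : ℕ}

theorem left (h : Wk G W a b r) : a ∈ W := by
  induction h with
  | refl h => exact h
  | tail _ _ _ ih => exact ih

theorem right (h : Wk G W a b r) : b ∈ W := by
  cases h with
  | refl h => exact h
  | tail _ _ h => exact h

theorem mono' {G' : SimpleGraph V} (h : Wk G W a b r)
    (hG : ∀ x y, G.Adj x y → x ∈ W → y ∈ W → G'.Adj x y) (hW : W ⊆ W') : Wk G' W' a b r := by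
  induction h with
  | refl h => exact refl (hW h)
  | tail h1 h2 h3 ih => exact tail ih (hG _ _ h2 h1.right h3) (hW h3)

theorem mono (h : Wk G W a b r) (hW : W ⊆ W') : Wk G W' a b r := h.mono' (fun _ _ h _ _ => h) hW

theorem succ (h : Wk G W a b r) : Wk G W a b (r + 1) := by
  induction h with
  | refl h => exact refl h
  | tail _ h2 h3 ih => exact tail ih h2 h3

theorem le (h : Wk G W a b r) (hr : r ≤ s) : Wk G W a b s := by
  induction hr with
  | refl => exact h
  | step _ ih => exact ih.succ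

theorem trans (h : Wk G W a b r) (h' : Wk G W b c s) : Wk G W a c (r + s) := by
  induction h' with
  | refl _ => exact h.le (Nat.le_add_right _ _)
  | tail _ h2 h3 ih => exact tail ih h2 h3

theorem single (h : G.Adj a b) (ha : a ∈ W) (hb : b ∈ W) : Wk G W a b 1 := tail (refl ha) h hb

theorem head (h : G.Adj a b) (ha : a ∈ W) (h' : Wk G W b c r) : Wk G W a c (r + 1) := by
  have := (single h ha h'.left).trans h'
  rwa [Nat.add_comm] at this

theorem symm (h : Wk G W a b r) : Wk G W b a r := by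
  induction h with
  | refl h => exact refl h
  | tail _ h2 h3 ih => exact head h2.symm h3 ih

theorem toR (h : Wk G W a b r) : R G W a b := by
  induction h with
  | refl _ => exact R.refl
  | tail h1 h2 h3 ih => exact ih.tail h2 h1.right h3

theorem eq_of_zero (h : Wk G W a b 0) : a = b := by
  cases h with
  | refl _ => rfl

/-- Two walks joined through a vertex `y`. -/
theorem via {y d : V} (h : Wk G W a b r) (h1 : G.Adj y b) (hy : y ∈ W) (h2 : G.Adj y c)
    (h' : Wk G W c d s) : Wk G W a d (r + s + 2) := by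
  have := ((h.tail h1.symm hy).tail h2 h'.left).trans h'
  exact this.le (by omega)

theorem of_fun {f : ℕ → V} {i j : ℕ} (hij : i ≤ j) (hW : ∀ t, i ≤ t → t ≤ j → f t ∈ W)
    (hA : ∀ t, i ≤ t → t < j → G.Adj (f t) (f (t + 1))) : Wk G W (f i) (f j) (j - i) := by
  induction hij with
  | refl => exact refl (hW _ le_rfl le_rfl)
  | @step j h ih =>
    have h : i ≤ j := h
    have := (ih (fun t a b => hW t a (by omega)) (fun t a b => hA t a (by omega))).tail
      (hA j h (by omega)) (hW (j + 1) (by omega) le_rfl)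
    exact this.le (by simp only [Nat.succ_eq_add_one]; omega)

theorem exists_path (h : Wk G W a b r) : ∃ (L : ℕ) (f : ℕ → V), L ≤ r ∧ f 0 = a ∧ f L = b ∧
    (∀ j ≤ L, f j ∈ W) ∧ (∀ j < L, G.Adj (f j) (f (j + 1))) ∧
    ∀ i ≤ L, ∀ j ≤ L, f i = f j → i = j := by
  induction h with
  | refl h => exact ⟨0, fun _ => a, Nat.zero_le _, rfl, rfl, fun _ _ => h, by simp, by omega⟩
  | @tail b c r _ h2 h3 ih =>
    obtain ⟨L, f, h0, f0, f1, f2, f3, f4⟩ := ih
    by_cases hc : ∃ i ≤ L, f i = c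
    · obtain ⟨i, hi, rfl⟩ := hc
      exact ⟨i, f, by omega, f0, rfl, fun j hj => f2 j (by omega), fun j hj => f3 j (by omega),
        fun s hs t ht => f4 s (by omega) t (by omega)⟩
    · push Not at hc
      refine ⟨L + 1, fun j => if j ≤ L then f j else c, by omega, by simp [f0], by simp,
        fun j hj => ?_, fun j hj => ?_, fun s hs t ht => ?_⟩
      · by_cases h : j ≤ L <;> simp [h, f2, h3]
      · by_cases h : j + 1 ≤ L
        · simp only [h, show j ≤ L by omega, if_true]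
          exact f3 j (by omega)
        · have : j = L := by omega
          subst this
          simp [f1, h2]
      · by_cases h1 : s ≤ L <;> by_cases h2 : t ≤ L <;> simp only [h1, h2, if_true, if_false]
        · exact f4 s h1 t h2
        · exact fun h => absurd h (hc s h1)
        · exact fun h => absurd h.symm (hc t h2)
        · omega

end Wk

theorem card_of_path {W : Finset V} {L : ℕ} {f : ℕ → V} (h1 : ∀ j ≤ L, f j ∈ W)
    (h2 : ∀ i ≤ L, ∀ j ≤ L, f i = f j → i = j) : L + 1 ≤ W.card := by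
  rw [← card_range (L + 1)]
  exact card_le_card_of_injOn f (fun j hj => h1 j (by simpa [Nat.lt_succ_iff] using hj))
    (fun i hi j hj => h2 i (by simpa [Nat.lt_succ_iff] using hi) j
      (by simpa [Nat.lt_succ_iff] using hj))

theorem wk_of_R {W : Finset V} {a b : V} (h : R G W a b) (ha : a ∈ W) :
    Wk G W a b (W.card - 1) := by
  obtain ⟨L, f, rfl, rfl, f2, f3, f4⟩ := h.exists_path ha
  have := card_of_path f2 f4
  exact (Wk.of_fun (Nat.zero_le L) (fun t _ h => f2 t h) (fun t _ h => f3 t h)).le (by omega)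

theorem conn_wk {W : Finset V} {a b : V} (h : Conn G W) (ha : a ∈ W) (hb : b ∈ W) :
    Wk G W a b (W.card - 1) := wk_of_R (h.2 a ha b hb) ha

/-- The first vertex of `A` on a walk. -/
theorem first_hit {W A : Finset V} {s t : V} (h : R G W s t) (ht : t ∈ A) :
    ∃ a ∈ A, R G (insert a (W \ A)) s a ∧ R G W s a := by
  by_cases hs : s ∈ A
  · exact ⟨s, hs, R.refl, R.refl⟩
  have hst : s ≠ t := fun e => hs (e ▸ ht)
  obtain ⟨-, -, hsW, -⟩ := h.exists_adj hst
  obtain ⟨x, y, hx, hy, hxW, hyW, hxy, hr⟩ := h.exit (S := W \ A) (mem_sdiff.2 ⟨hsW, hs⟩)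
    (fun h => (mem_sdiff.1 h).2 ht)
  have hyA : y ∈ A := by
    by_contra hc
    exact hy (mem_sdiff.2 ⟨hyW, hc⟩)
  exact ⟨y, hyA, (hr.mono (inter_subset_right.trans (subset_insert _ _))).tail hxy
    (mem_insert_of_mem hx) (mem_insert_self _ _), (hr.mono inter_subset_left).tail hxy hxW hyW⟩

/-- Two vertices of a connected set are adjacent or joined by a connected set. -/
theorem conn_open {X : Finset V} {x y : V} (h : Conn G X) (hx : x ∈ X) (hy : y ∈ X)
    (hxy : x ≠ y) : G.Adj x y ∨ ∃ U ⊆ X \ {x, y}, Conn G U ∧ Act G U x ∧ Act G U y := by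
  obtain ⟨L, f, rfl, rfl, f2, f3, f4⟩ := (h.2 x hx y hy).exists_path hx
  rcases Nat.lt_or_ge L 2 with hL | hL
  · have : L = 1 := by
      rcases Nat.eq_zero_or_pos L with h | h
      · subst h; exact absurd rfl hxy
      · omega
    subst this
    exact Or.inl (f3 0 (by omega))
  · obtain ⟨L, rfl⟩ : ∃ M, L = M + 1 := ⟨L - 1, by omega⟩
    refine Or.inr ⟨(Icc 1 L).image f, fun z hz => ?_,
      conn_segment (by omega) (fun j _ h => f3 j (by omega)),
      ⟨f 1, mem_image_of_mem _ (mem_Icc.2 ⟨le_rfl, by omega⟩), f3 0 (by omega)⟩,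
      ⟨f L, mem_image_of_mem _ (mem_Icc.2 ⟨by omega, le_rfl⟩), (f3 L (by omega)).symm⟩⟩
    obtain ⟨j, hj, rfl⟩ := mem_image.1 hz
    rw [mem_Icc] at hj
    simp only [mem_sdiff, mem_insert, mem_singleton, not_or]
    exact ⟨f2 j (by omega), fun h => by have := f4 j (by omega) 0 (by omega) h; omega,
      fun h => by have := f4 j (by omega) (L + 1) le_rfl h; omega⟩

theorem conn_of_chain : ∀ {l : List V}, l ≠ [] → l.IsChain G.Adj → Conn G l.toFinset
  | [], h, _ => absurd rfl h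
  | [a], _, _ => by simpa using Conn.singleton a
  | a :: b :: l, _, h => by
    rw [List.isChain_cons_cons] at h
    rw [List.toFinset_cons]
    exact (conn_of_chain (by simp) h.2).insert (a := b) (by simp) h.1.symm

theorem Act.mono {C C' : Finset V} {x : V} (h : Act G C x) (hC : C ⊆ C') : Act G C' x := by
  obtain ⟨w, hw, h⟩ := h
  exact ⟨w, hC hw, h⟩

theorem Cov.mono {C : Finset V} {S S' : Set V} (h : Cov G C S) (hS : S ⊆ S') : Cov G C S' :=
  fun w hw x hx a => hS (h w hw x hx a)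

/-- A cover may be cut down to its active vertices. -/
theorem Cov.of_act {C : Finset V} {S S' : Set V} (h : Cov G C S)
    (hS : ∀ x ∈ S, x ∉ C → Act G C x → x ∈ S') : Cov G C S' :=
  fun w hw x hx a => hS x (h w hw x hx a) hx ⟨w, hw, a⟩

/-! ### Degrees and forests -/

theorem dg_mono {W W' : Finset V} (h : W ⊆ W') (v : V) : dg G W v ≤ dg G W' v :=
  card_le_card (filter_subset_filter _ h)

theorem two_le_dg {W : Finset V} {v : V} :
    2 ≤ dg G W v ↔ ∃ a ∈ W, ∃ b ∈ W, a ≠ b ∧ G.Adj v a ∧ G.Adj v b := by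
  unfold dg
  rw [show (2 ≤ (W.filter (G.Adj v)).card) = (1 < (W.filter (G.Adj v)).card) from rfl,
    one_lt_card]
  simp only [mem_filter]
  constructor
  · rintro ⟨a, ⟨a1, a2⟩, b, ⟨b1, b2⟩, h⟩
    exact ⟨a, a1, b, b1, h, a2, b2⟩
  · rintro ⟨a, a1, b, b1, h, a2, b2⟩
    exact ⟨a, ⟨a1, a2⟩, b, ⟨b1, b2⟩, h⟩

/-- A vertex with more than `A.card` neighbours in `W` has one outside `A`. -/
theorem exists_nbr {W A : Finset V} {v : V} (h : A.card < dg G W v) :
    ∃ w ∈ W, w ∉ A ∧ G.Adj v w := by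
  obtain ⟨w, hw, hA⟩ := exists_mem_notMem_of_card_lt_card h
  exact ⟨w, (mem_filter.1 hw).1, hA, (mem_filter.1 hw).2⟩

theorem dg_union_le (W W' : Finset V) (v : V) : dg G (W ∪ W') v ≤ dg G W v + dg G W' v := by
  unfold dg
  rw [filter_union]
  exact card_union_le _ _

theorem dg_erase {W : Finset V} {u v : V} (hu : u ∈ W) :
    dg G W v = dg G (W.erase u) v + if G.Adj v u then 1 else 0 := by
  unfold dg
  conv_lhs => rw [← insert_erase hu, filter_insert]
  split_ifs
  · rw [card_insert_of_notMem (by simp)]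
  · rfl

theorem dg_congr {G' : SimpleGraph V} {W : Finset V} {v : V}
    (h : ∀ w ∈ W, G.Adj v w ↔ G'.Adj v w) : dg G W v = dg G' W v := by
  unfold dg
  rw [filter_congr h]

theorem Cyc.mono {C C' : Finset V} (h : Cyc G C) (hC : C ⊆ C') : Cyc G C' := by
  obtain ⟨W, h1, h2, h3⟩ := h
  exact ⟨W, h1.trans hC, h2, h3⟩

theorem Cyc.mono' {G' : SimpleGraph V} {C : Finset V} (h : Cyc G C)
    (hG : ∀ x y, G.Adj x y → x ∈ C → y ∈ C → G'.Adj x y) : Cyc G' C := by
  obtain ⟨W, h1, h2, h3⟩ := h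
  refine ⟨W, h1, h2, fun v hv => (h3 v hv).trans (card_le_card fun w hw => ?_)⟩
  rw [mem_filter] at hw ⊢
  exact ⟨hw.1, hG _ _ hw.2 (h1 hv) (h1 hw.1)⟩

theorem Cyc.exists_comp {C : Finset V} (h : Cyc G C) : ∃ y ∈ C, Cyc G (comp G C y) := by
  obtain ⟨W, h1, ⟨y, hy⟩, h3⟩ := h
  refine ⟨y, h1 hy, W ∩ comp G C y, inter_subset_right,
    ⟨y, mem_inter.2 ⟨hy, self_mem_comp (h1 hy)⟩⟩, fun v hv => ?_⟩
  rw [mem_inter] at hv
  refine (h3 v hv.1).trans (card_le_card fun w hw => ?_)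
  rw [mem_filter] at hw ⊢
  exact ⟨mem_inter.2 ⟨hw.1, comp_closed hv.2 (h1 hw.1) hw.2⟩, hw.2⟩

/-- Removing a vertex with at most one neighbour keeps a cycle. -/
theorem Cyc.erase {C : Finset V} {u : V} (h : Cyc G C) (hu : dg G C u ≤ 1) :
    Cyc G (C.erase u) := by
  obtain ⟨W, h1, h2, h3⟩ := h
  refine ⟨W, fun w hw => mem_erase.2 ⟨?_, h1 hw⟩, h2, h3⟩
  rintro rfl
  have := (h3 w hw).trans (dg_mono h1 w)
  omega

theorem exists_leaf {Y : Finset V} (h : ¬ Cyc G Y) (hY : Y.Nonempty) : ∃ u ∈ Y, dg G Y u ≤ 1 := by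
  by_contra hc
  push Not at hc
  exact h ⟨Y, subset_rfl, hY, hc⟩

theorem forest_count : ∀ (n : ℕ) (Y : Finset V), Y.card = n + 1 → ¬ Cyc G Y →
    ∑ v ∈ Y, dg G Y v ≤ 2 * n := by
  intro n
  induction n with
  | zero =>
    intro Y h _
    obtain ⟨a, rfl⟩ := card_eq_one.1 h
    simp [dg, filter_singleton]
  | succ n ih =>
    intro Y h hY
    obtain ⟨u, hu, hd⟩ := exists_leaf hY (card_pos.1 (by omega))
    have h1 := ih (Y.erase u) (by rw [card_erase_of_mem hu, h]; rfl)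
      (fun c => hY (c.mono (erase_subset _ _)))
    rw [← add_sum_erase _ _ hu, sum_congr rfl (fun v _ => dg_erase (G := G) (v := v) hu),
      sum_add_distrib]
    have h2 : ∑ v ∈ Y.erase u, (if G.Adj v u then 1 else 0) ≤ dg G Y u := by
      rw [← card_filter]
      refine card_le_card fun w hw => ?_
      rw [mem_filter] at hw ⊢
      exact ⟨mem_of_mem_erase hw.1, hw.2.symm⟩
    omega

theorem forest_count' {Y : Finset V} (hY : Y.Nonempty) (h : ¬ Cyc G Y) :
    ∑ v ∈ Y, dg G Y v + 2 ≤ 2 * Y.card := by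
  have := card_pos.2 hY
  have h1 := forest_count (Y.card - 1) Y (by omega) h
  omega

/-- Removing a vertex with at most one neighbour keeps a set connected. -/
theorem conn_erase {W : Finset V} {u : V} (h : Conn G W) (hu : dg G W u ≤ 1)
    (hne : (W.erase u).Nonempty) : Conn G (W.erase u) := by
  refine ⟨hne, fun a ha b hb => ?_⟩
  rw [mem_erase] at ha hb
  obtain ⟨L, f, rfl, rfl, f2, f3, f4⟩ := (h.2 a ha.2 b hb.2).exists_path ha.2
  refine (Wk.of_fun (Nat.zero_le L) (fun t _ ht => mem_erase.2 ⟨?_, f2 t ht⟩)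
    (fun t _ h => f3 t h)).toR
  rintro rfl
  have t0 : t ≠ 0 := fun e => ha.1 (by rw [e])
  have t1 : t ≠ L := fun e => hb.1 (by rw [e])
  obtain ⟨s, rfl⟩ : ∃ s, t = s + 1 := ⟨t - 1, by omega⟩
  have := two_le_dg.2 ⟨f s, f2 s (by omega), f (s + 1 + 1), f2 _ (by omega),
    fun e => by have := f4 s (by omega) _ (by omega) e; omega, (f3 s (by omega)).symm,
    f3 _ (by omega)⟩
  omega

/-! ### Classes -/

theorem Cls.mono {W W' : Finset V} {S S' : Set V} (h : Cls G W S) (hW : W' ⊆ W) (hS : S' ⊆ S) :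
    Cls G W' S' := by
  have m : ∀ p, Mark G W' S' p → Mark G W S p := fun p h => ⟨hS h.1, hW h.2.1, h.2.2⟩
  exact ⟨fun x hx c => h.out x (hS hx) (hW c),
    fun p q r a b c d => h.two p q r (m p a) (m q b) c (d.mono hW),
    fun p q s r₁ r₂ r₃ a b c d e f g i j => h.three p q s r₁ r₂ r₃ (m p a) (m q b) (m s c) d e f
      (g.mono hW) (i.mono hW) (j.mono hW)⟩

theorem cls_sub (hG : Gi G) {W : Finset V} {S : Set V} (hS : S.Subsingleton)
    (h : ∀ x ∈ S, x ∉ W) : Cls G W S := by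
  have k : ∀ p q r, Mark G W S p → Mark G W S q → p ≠ q → Wk G W p.2 q.2 r → 9 ≤ r := by
    intro p q r a b c d
    have e : q.1 = p.1 := hS b.1 a.1
    exact hG W p.1 p.2 q.2 r (h _ a.1) a.2.2 (e ▸ b.2.2) (fun t => c (Prod.ext e.symm t)) d
  refine ⟨h, fun p q r a b c d => ?_, fun p q s r₁ r₂ r₃ a b c d e f g i _ => ?_⟩
  · have := k p q r a b c d; omega
  · have := k p q _ a b d g
    have := k p s _ a c e i
    omega

theorem cls_empty (W : Finset V) : Cls G W ∅ :=
  ⟨fun _ h => h.elim, fun _ _ _ h => h.1.elim, fun _ _ _ _ _ _ h => h.1.elim⟩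

theorem cls_single (hG : Gi G) {W : Finset V} {x : V} (h : x ∉ W) : Cls G W {x} :=
  cls_sub hG Set.subsingleton_singleton (by simpa using h)

theorem cls_short (hG : Gi G) {W : Finset V} {l : List V} (hl : l.length ≤ 1)
    (h : ∀ x ∈ l, x ∉ W) : Cls G W {x | x ∈ l} := by
  refine cls_sub hG ?_ h
  match l, hl with
  | [], _ => simp
  | [a], _ => simp

/-- Two small connected sets do not have two common neighbours. -/
theorem share2 (hG : Gi G) {Y₁ Y₂ : Finset V} {a b : V} (c1 : Conn G Y₁) (c2 : Conn G Y₂)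
    (hd : Disjoint Y₁ Y₂) (hab : a ≠ b) (ha1 : a ∉ Y₁) (ha2 : a ∉ Y₂) (h1 : Act G Y₁ a)
    (h2 : Act G Y₁ b) (h3 : Act G Y₂ a) (h4 : Act G Y₂ b) : 9 ≤ Y₁.card + Y₂.card := by
  obtain ⟨w1, m1, a1⟩ := h1
  obtain ⟨w2, m2, a2⟩ := h2
  obtain ⟨w3, m3, a3⟩ := h3
  obtain ⟨w4, m4, a4⟩ := h4
  have := hG (insert b (Y₁ ∪ Y₂)) a w1 w3 _ (by simp [hab, ha1, ha2]) a1 a3
    (fun e => disjoint_left.1 hd m1 (e ▸ m3))
    (((conn_wk c1 m1 m2).mono (subset_union_left.trans (subset_insert _ _))).via a2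
      (mem_insert_self _ _) a4
      ((conn_wk c2 m4 m3).mono (subset_union_right.trans (subset_insert _ _))))
  have := card_pos.2 c1.1
  have := card_pos.2 c2.1
  omega

/-! ### Counting marks -/

variable [Fintype V]

theorem mem_mks {Y : Finset V} {S : Set V} {p : V × V} :
    p ∈ mks G Y S ↔ p.1 ∉ Y ∧ p.1 ∈ S ∧ p.2 ∈ Y ∧ G.Adj p.1 p.2 := by
  simp [mks, Mark]

theorem mks_mono {Y : Finset V} {S S' : Set V} (h : S ⊆ S') : mks G Y S ⊆ mks G Y S' :=
  fun _ hp => by
    rw [mem_mks] at hp ⊢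
    exact ⟨hp.1, h hp.2.1, hp.2.2⟩

theorem mks_union_le (Y : Finset V) (S S' : Set V) :
    (mks G Y (S ∪ S')).card ≤ (mks G Y S).card + (mks G Y S').card := by
  refine le_trans (card_le_card fun p hp => ?_) (card_union_le _ _)
  simp only [mem_union, mem_mks, Set.mem_union] at hp ⊢
  tauto

/-- The degrees into `W` are paid by the edges inside `Y` and the marks. -/
theorem sum_dg_le {Y W : Finset V} {S : Set V}
    (h : ∀ w ∈ Y, ∀ x ∈ W, x ∉ Y → G.Adj x w → x ∈ S) :
    ∑ v ∈ Y, dg G W v ≤ ∑ v ∈ Y, dg G Y v + (mks G Y S).card := by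
  rw [card_eq_sum_card_fiberwise (f := Prod.snd) (t := Y) (fun p hp => (mem_mks.1 hp).2.2.1),
    ← sum_add_distrib]
  refine sum_le_sum fun v hv => ?_
  have : W.filter (G.Adj v) ⊆ Y.filter (G.Adj v) ∪
      ((mks G Y S).filter (fun p => p.2 = v)).image Prod.fst := by
    intro x hx
    rw [mem_filter] at hx
    by_cases hY : x ∈ Y
    · exact mem_union_left _ (mem_filter.2 ⟨hY, hx.2⟩)
    · exact mem_union_right _ (mem_image.2 ⟨(x, v), mem_filter.2
        ⟨mem_mks.2 ⟨hY, h v hv x hx.1 hY hx.2.symm, hv, hx.2.symm⟩, rfl⟩, rfl⟩)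
  exact (card_le_card this).trans ((card_union_le _ _).trans
    (Nat.add_le_add_left card_image_le _))

/-- A piece with `n` vertices sends out at least `n + 2` edges. -/
theorem Pc.count {Y : Finset V} {S : Set V} (h : Pc G Y) (hS : Cov G Y S) :
    Y.card + 2 ≤ (mks G Y S).card := by
  have h1 := forest_count' h.conn.1 h.acyc
  have h2 := sum_dg_le (G := G) (W := univ) (fun w hw x _ => hS w hw x)
  have h3 : Y.card * 3 ≤ ∑ v ∈ Y, dg G univ v := card_nsmul_le_sum Y _ 3 h.deg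
  omega

theorem mks_cls_one {Y : Finset V} {S : Set V} (h : Conn G Y) (hS : Cls G Y S)
    (hY : Y.card ≤ 4) : (mks G Y S).card ≤ 1 := by
  refine card_le_one.2 fun p hp q hq => ?_
  by_contra hc
  rw [mem_mks] at hp hq
  have := hS.two p q _ hp.2 hq.2 hc (conn_wk h hp.2.2.1 hq.2.2.1)
  omega

theorem mks_cls_two {Y : Finset V} {S : Set V} (h : Conn G Y) (hS : Cls G Y S)
    (hY : Y.card ≤ 6) : (mks G Y S).card ≤ 2 := by
  by_contra hc
  obtain ⟨p, q, s, hp, hq, hs, a, b, c⟩ := two_lt_card_iff.1 (not_le.1 hc)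
  rw [mem_mks] at hp hq hs
  have := hS.three p q s _ _ _ hp.2 hq.2 hs.2 a b c (conn_wk h hp.2.2.1 hq.2.2.1)
    (conn_wk h hp.2.2.1 hs.2.2.1) (conn_wk h hq.2.2.1 hs.2.2.1)
  omega

omit [Fintype V] in
/-- An outside vertex has at most one neighbour in a small connected set. -/
theorem nbr_unique (hG : Gi G) {Y : Finset V} (h : Conn G Y) (hY : Y.card ≤ 9) {x w w' : V}
    (hx : x ∉ Y) (hw : w ∈ Y) (hw' : w' ∈ Y) (a : G.Adj x w) (a' : G.Adj x w') : w = w' := by
  by_contra hc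
  have := hG Y x w w' _ hx a a' hc (conn_wk h hw hw')
  omega

theorem mks_fin (hG : Gi G) {Y : Finset V} (X : Finset V) (h : Conn G Y) (hY : Y.card ≤ 9) :
    (mks G Y ↑X).card ≤ (X.filter fun x => x ∉ Y ∧ Act G Y x).card := by
  refine card_le_card_of_injOn Prod.fst (fun p hp => ?_) (fun p hp q hq e => ?_)
  · rw [mem_coe, mem_mks] at hp
    exact mem_coe.2 (mem_filter.2 ⟨hp.2.1, hp.1, p.2, hp.2.2⟩)
  · rw [mem_coe, mem_mks] at hp hq
    exact Prod.ext e (nbr_unique hG h hY hp.1 hp.2.2.1 hq.2.2.1 hp.2.2.2 (e ▸ hq.2.2.2))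

theorem pc_comp {C U : Finset V} {y : V} (hd : Deg3 G C) (hU : U ⊆ C) (h : ¬ Cyc G U)
    (hy : y ∈ U) : Pc G (comp G U y) :=
  ⟨comp_conn hy, fun c => h (c.mono comp_subset), fun v hv => hd v (hU (comp_subset hv))⟩

end Pool.Agent.MP_e6539c_co.C5

end Part0

section Part1

/-! Contractions, the terminal graph, lists of single marks. -/

set_option autoImplicit false

namespace Pool.Agent.MP_e6539c_co.C5

open Finset
open Pool.Agent.MP_7be75d_co (R Conn comp)
open Pool.Agent.MP_7be75d_co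
open Pool.Agent.MP_e6539c_co.TW (MG)
open scoped Classical

variable {V : Type} {G Γ : SimpleGraph V}

theorem gmap_adj {ρ : V → V} {p q : V} :
    (gmap Γ ρ).Adj p q ↔ p ≠ q ∧ ∃ u v, ρ u = p ∧ ρ v = q ∧ Γ.Adj u v := Iff.rfl

theorem gmap_of {ρ : V → V} {u v : V} (h : Γ.Adj u v) (hne : ρ u ≠ ρ v) :
    (gmap Γ ρ).Adj (ρ u) (ρ v) := ⟨hne, u, v, rfl, rfl, h⟩

theorem gmap_fix {ρ : V → V} {u v : V} (h : Γ.Adj u v) (hu : ρ u = u) (hv : ρ v = v) :
    (gmap Γ ρ).Adj u v := ⟨h.ne, u, v, hu, hv, h⟩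

theorem gmap_chain {ρ : V → V} {l : List V} (h : l.IsChain Γ.Adj) (hl : ∀ x ∈ l, ρ x = x) :
    l.IsChain (gmap Γ ρ).Adj := by
  induction l with
  | nil => simp
  | cons a l ih =>
    cases l with
    | nil => simp
    | cons b l =>
      rw [List.isChain_cons_cons] at h ⊢
      exact ⟨gmap_fix h.1 (hl a (by simp)) (hl b (by simp)),
        ih h.2 (fun x hx => hl x (List.mem_cons_of_mem _ hx))⟩

theorem petE_all : ∀ i < 10, ∃ p ∈ MG.petE, p.1 = i ∨ p.2 = i := by decide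

/-- A Petersen minor of a contraction lifts. -/
theorem pet_gmap [Fintype V] {ρ : V → V}
    (hρ : ∀ u v, ρ u = ρ v → R Γ (univ.filter fun w => ρ w = ρ u) u v)
    (h : Pet (gmap Γ ρ)) : Pet Γ := by
  obtain ⟨B, b1, b2, b3⟩ := h
  have ne : ∀ i < 10, ∃ u, ρ u ∈ B i := by
    intro i hi
    obtain ⟨p, hp, h⟩ := petE_all i hi
    obtain ⟨u, hu, v, hv, -, u', v', rfl, rfl, -⟩ := b3 p hp
    rcases h with rfl | rfl
    · exact ⟨u', hu⟩
    · exact ⟨v', hv⟩
  refine ⟨fun i => univ.filter fun w => ρ w ∈ B i, fun i hi => ?_, fun i hi j hj hij => ?_,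
    fun p hp => ?_⟩
  · obtain ⟨u, hu⟩ := ne i hi
    have fib : ∀ x y, ρ x ∈ B i → ρ x = ρ y → R Γ (univ.filter fun w => ρ w ∈ B i) x y :=
      fun x y hx e => (hρ x y e).mono fun w hw => by
        simp only [mem_filter, mem_univ, true_and] at hw ⊢
        rwa [hw]
    refine Conn.of_center (a := u) (by simpa using hu) fun b hb => ?_
    have hb : ρ b ∈ B i := by simpa using hb
    have key : ∀ y, ρ y = ρ b → R Γ (univ.filter fun w => ρ w ∈ B i) u y := by
      refine ((b1 i hi).2 _ hu _ hb).ind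
        (P := fun z => ∀ y, ρ y = z → R Γ (univ.filter fun w => ρ w ∈ B i) u y)
        (fun y e => fib u y hu e.symm) ?_
      rintro x z - ih ⟨-, x', z', rfl, rfl, a⟩ hx hz y e
      exact ((ih x' rfl).tail a (by simpa using hx) (by simpa using hz)).trans
        (fib z' y hz e.symm)
    exact key b rfl
  · refine disjoint_left.2 fun x h1 h2 => ?_
    simp only [mem_filter, mem_univ, true_and] at h1 h2
    exact disjoint_left.1 (b2 i hi j hj hij) h1 h2
  · obtain ⟨u, hu, v, hv, -, u', v', rfl, rfl, a⟩ := b3 p hp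
    exact ⟨u', by simpa using hu, v', by simpa using hv, a⟩

variable [Fintype V]

theorem Deg3.mono {C C' : Finset V} (h : Deg3 G C) (hC : C' ⊆ C) : Deg3 G C' :=
  fun v hv => h v (hC hv)

theorem Ctx.sub {C C' : Finset V} (h : Ctx G Γ C) (hC : C' ⊆ C) (h1 : Conn G C')
    (h2 : Cyc G C') : Ctx G Γ C' :=
  ⟨h.gi, h1, h2, h.deg.mono hC, fun w hw => h.agree w (hC hw), h.np⟩

theorem Ctx.adj {C : Finset V} (h : Ctx G Γ C) {x w : V} (hw : w ∈ C) :
    Γ.Adj x w ↔ G.Adj x w := by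
  rw [Γ.adj_comm, h.agree w hw, G.adj_comm]

theorem Ctx.gmap {C : Finset V} (h : Ctx G Γ C) {ρ : V → V}
    (hρ : ∀ u v, ρ u = ρ v → R Γ (univ.filter fun w => ρ w = ρ u) u v)
    (h1 : ∀ u, u ∈ C ∨ ρ u ∈ C ∨ Act G C u → ρ u = u) : Ctx G (gmap Γ ρ) C := by
  refine ⟨h.gi, h.conn, h.cyc, h.deg, fun w hw x => ⟨?_, fun a => ?_⟩,
    fun p => h.np (pet_gmap hρ p)⟩
  · rintro ⟨-, u, v, rfl, rfl, a⟩
    have e := h1 u (Or.inr (Or.inl hw))
    rw [e] at hw ⊢
    have a' := (h.agree u hw v).1 a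
    rwa [h1 v (Or.inr (Or.inr ⟨u, hw, a'.symm⟩))]
  · exact gmap_fix ((h.agree w hw x).2 a) (h1 w (Or.inl hw))
      (h1 x (Or.inr (Or.inr ⟨w, hw, a.symm⟩)))

/-- Contract the vertex `u` into the vertex `y`. -/
noncomputable def con (Γ : SimpleGraph V) (u y : V) : SimpleGraph V :=
  gmap Γ fun x => if x = u then y else x

omit [Fintype V] in
theorem con_adj {u y p q : V} (h : Γ.Adj p q) (hp : p ≠ u) (hq : q ≠ u) :
    (con Γ u y).Adj p q := gmap_fix h (by simp [hp]) (by simp [hq])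

omit [Fintype V] in
theorem con_new {u y q : V} (h : Γ.Adj u q) (hq : q ≠ y) : (con Γ u y).Adj y q :=
  ⟨hq.symm, u, q, by simp, by simp [h.ne'], h⟩

omit [Fintype V] in
theorem con_chain {u y : V} {l : List V} (h : l.IsChain Γ.Adj) (hl : u ∉ l) :
    l.IsChain (con Γ u y).Adj :=
  gmap_chain h fun x hx => by
    have : x ≠ u := fun e => hl (e ▸ hx)
    simp [this]

omit [Fintype V] in
/-- Contraction of a list vertex into its predecessor. -/
theorem con_chain_pred {u y : V} {l₁ l₂ : List V} (h : (l₁ ++ y :: u :: l₂).IsChain Γ.Adj)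
    (hn : (l₁ ++ y :: u :: l₂).Nodup) : (l₁ ++ y :: l₂).IsChain (con Γ u y).Adj := by
  rw [List.isChain_split] at h ⊢
  have hn' := List.nodup_append.1 hn
  have h2 := hn'.2.1
  simp only [List.nodup_cons, List.mem_cons, not_or] at h2
  refine ⟨con_chain h.1 ?_, ?_⟩
  · simp only [List.mem_append, List.mem_singleton, not_or]
    exact ⟨fun c => hn'.2.2 u c u (by simp) rfl, fun c => h2.1.1 c.symm⟩
  · cases l₂ with
    | nil => simp
    | cons z l₂ =>
      have h3 := h.2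
      rw [List.isChain_cons_cons, List.isChain_cons_cons] at h3
      rw [List.isChain_cons_cons]
      exact ⟨con_new h3.2.1 (fun c => h2.1.2 (by simp [c])), con_chain h3.2.2 h2.2.1⟩

omit [Fintype V] in
theorem chain_rev {l : List V} (h : l.IsChain Γ.Adj) : l.reverse.IsChain Γ.Adj :=
  List.isChain_reverse.2 (h.imp fun _ _ a => a.symm)

theorem Ctx.con {C : Finset V} (h : Ctx G Γ C) {u y : V} (a : Γ.Adj u y) (hu : u ∉ C)
    (hy : y ∉ C) (hi : ¬ Act G C u) : Ctx G (con Γ u y) C := by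
  refine h.gmap (fun p q e => ?_) (fun x hx => ?_)
  · by_cases hp : p = u <;> by_cases hq : q = u
    · rw [hp, hq]; exact R.refl
    · subst hp
      have : y = q := by simpa [hq] using e
      subst this
      exact R.single a (by simp) (by simp)
    · subst hq
      have : p = y := by simpa [hp] using e
      subst this
      exact R.single a.symm (by simp) (by simp)
    · have : p = q := by simpa [hp, hq] using e
      subst this
      exact R.refl
  · by_cases e : x = u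
    · subst e
      simp [hu, hy, hi] at hx
    · simp [e]

/-! ### The terminal graph -/

section HK

variable {C : Finset V} {c : Fin 4 → V} {A : Fin 4 → List V} {t : Fin 4 → V}

theorem Ks.t_out (h : Ks G Γ C c A) (ht : ∀ i, t i ∈ A i) (i : Fin 4) : t i ∉ C :=
  h.outA i _ (ht i)

theorem Ks.t_inj (h : Ks G Γ C c A) (ht : ∀ i, t i ∈ A i) : Function.Injective t := by
  intro i j e
  by_contra hc
  exact h.disj i j hc _ (ht i) (e ▸ ht j)

omit [Fintype V] in
theorem hk_adj_in (ho : ∀ i, t i ∉ C) {x y : V} (hx : x ∈ C) :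
    (HK G C A t).Adj x y ↔ (y ∈ C ∧ G.Adj x y) ∨ ∃ i, y = t i ∧ ∃ a ∈ A i, G.Adj x a := by
  simp only [HK, SimpleGraph.fromRel_adj]
  constructor
  · rintro ⟨-, (h | h | ⟨i, h, -⟩) | (h | ⟨-, i, h, -⟩ | ⟨i, -, h⟩)⟩
    · exact Or.inl h.2
    · exact Or.inr h.2
    · exact absurd (h ▸ hx) (ho i)
    · exact Or.inl ⟨h.1, h.2.2.symm⟩
    · exact absurd (h ▸ hx) (ho i)
    · exact absurd (h ▸ hx) (ho _)
  · rintro (h | ⟨i, rfl, h⟩)
    · exact ⟨h.2.ne, Or.inl (Or.inl ⟨hx, h⟩)⟩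
    · exact ⟨fun e => ho i (e ▸ hx), Or.inl (Or.inr (Or.inl ⟨hx, i, rfl, h⟩))⟩

omit [Fintype V] in
theorem hk_adj_CC (ho : ∀ i, t i ∉ C) {x y : V} (hx : x ∈ C) (hy : y ∈ C) :
    (HK G C A t).Adj x y ↔ G.Adj x y := by
  rw [hk_adj_in ho hx]
  exact ⟨fun h => h.elim (fun h => h.2) fun ⟨i, e, _⟩ => absurd (e ▸ hy) (ho i),
    fun h => Or.inl ⟨hy, h⟩⟩

omit [Fintype V] in
theorem hk_adj_Ct (ho : ∀ i, t i ∉ C) (hi : Function.Injective t) {x : V} (hx : x ∈ C)
    (i : Fin 4) : (HK G C A t).Adj x (t i) ↔ ∃ a ∈ A i, G.Adj x a := by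
  rw [hk_adj_in ho hx]
  exact ⟨fun h => h.elim (fun h => absurd h.1 (ho i)) fun ⟨j, e, h⟩ => hi e ▸ h,
    fun h => Or.inr ⟨i, rfl, h⟩⟩

omit [Fintype V] in
theorem hk_adj_tt (ho : ∀ i, t i ∉ C) (hi : Function.Injective t) (i j : Fin 4) :
    (HK G C A t).Adj (t i) (t j) ↔ j = i + 1 ∨ i = j + 1 := by
  simp only [HK, SimpleGraph.fromRel_adj, ho, false_and, false_or, hi.eq_iff, ne_eq]
  revert i j
  decide

omit [Fintype V] in
theorem hk_mem {x y : V} (h : (HK G C A t).Adj x y) : x ∈ C ∨ ∃ i, x = t i := by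
  simp only [HK, SimpleGraph.fromRel_adj] at h
  rcases h.2 with (h | h | ⟨i, h, -⟩) | (h | ⟨-, i, h, -⟩ | ⟨i, -, h⟩)
  exacts [Or.inl h.1, Or.inl h.1, Or.inr ⟨_, h⟩, Or.inl h.2.1, Or.inr ⟨_, h⟩, Or.inr ⟨_, h⟩]

/-- Edges from an arc end at distance at least four. -/
theorem Ks.arc_far (h : Ks G Γ C c A) {i : Fin 4} {a a' w w' : V} {r : ℕ} (ha : a ∈ A i)
    (ha' : a' ∈ A i) (h1 : G.Adj a w) (h2 : G.Adj a' w') (hne : (a, w) ≠ (a', w'))
    (hw : Wk G C w w' r) : 4 ≤ r := by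
  have : Cls G C {x | x ∈ A i} := by
    rcases h.ty i with k | k
    · exact k.mono subset_rfl fun x hx => by simp [show x ∈ A i from hx]
    · exact cls_short h.ctx.gi k (h.outA i)
  exact this.two (a, w) (a', w') r ⟨ha, hw.left, h1⟩ ⟨ha', hw.right, h2⟩ hne hw

end HK

/-! ### Lists of single marks -/

section RT

omit [Fintype V]

variable {Y A A' X : Finset V} {u v : V} {T T' : List ℕ}

theorem RT.nil : RT G Y A X v [] := ⟨[], rfl, by simp, by simp⟩

theorem RT.card (h : RT G Y A X v T) : T.length ≤ X.card := by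
  obtain ⟨M, rfl, h2, h3⟩ := h
  rw [List.length_map, ← List.length_map Prod.fst, ← List.toFinset_card_of_nodup h2]
  refine card_le_card fun x hx => ?_
  obtain ⟨p, hp, rfl⟩ := List.mem_map.1 (List.mem_toFinset.1 hx)
  exact (h3 p hp).1

theorem RT.mono (h : RT G Y A X v T) (hA : A ⊆ A') : RT G Y A' X v T := by
  obtain ⟨M, h1, h2, h3⟩ := h
  refine ⟨M, h1, h2, fun p hp => ?_⟩
  obtain ⟨a, w, b, c⟩ := h3 p hp
  exact ⟨a, w, hA b, c⟩

theorem RT.shift (h : RT G Y A X u T) (a : G.Adj u v) (hv : v ∈ Y) :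
    RT G Y A X v (T.map (· + 1)) := by
  obtain ⟨M, rfl, h2, h3⟩ := h
  refine ⟨M.map fun p => (p.1, p.2 + 1), by simp [Function.comp_def],
    by simpa [Function.comp_def] using h2, fun p hp => ?_⟩
  obtain ⟨q, hq, rfl⟩ := List.mem_map.1 hp
  obtain ⟨b, w, c, d, e⟩ := h3 q hq
  exact ⟨b, w, c, d, e.tail a hv⟩

theorem RT.sublist (h : RT G Y A X v T) (hT : List.Sublist T' T) : RT G Y A X v T' := by
  obtain ⟨M, rfl, h2, h3⟩ := h
  obtain ⟨M', h4, rfl⟩ := List.sublist_map_iff.1 hT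
  exact ⟨M', rfl, h2.sublist (h4.map _), fun p hp => h3 p (h4.subset hp)⟩

theorem RT.perm (h : RT G Y A X v T) (hT : T.Perm T') : RT G Y A X v T' := by
  obtain ⟨M, h1, h2, h3⟩ := h
  have : ∃ M' : List (V × ℕ), M'.map Prod.snd = T' ∧ M.Perm M' := by
    clear h2 h3
    induction hT generalizing M with
    | nil => exact ⟨M, h1, List.Perm.refl _⟩
    | cons x _ ih =>
      obtain ⟨p, M, rfl, rfl, e⟩ := List.map_eq_cons_iff.1 h1
      obtain ⟨M', a, b⟩ := ih M e
      exact ⟨p :: M', by simp [a], b.cons p⟩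
    | swap x y l =>
      obtain ⟨p, M, rfl, rfl, e⟩ := List.map_eq_cons_iff.1 h1
      obtain ⟨q, M, rfl, rfl, rfl⟩ := List.map_eq_cons_iff.1 e
      exact ⟨q :: p :: M, rfl, List.Perm.swap _ _ _⟩
    | trans _ _ ih1 ih2 =>
      obtain ⟨M', a, b⟩ := ih1 M h1
      obtain ⟨M'', c, d⟩ := ih2 M' a
      exact ⟨M'', c, b.trans d⟩
  obtain ⟨M', a, b⟩ := this
  exact ⟨M', a, (b.map _).nodup_iff.1 h2, fun p hp => h3 p (b.mem_iff.2 hp)⟩

theorem RT.weaken (h : RT G Y A X v T) (hT : List.Forall₂ (· ≤ ·) T T') : RT G Y A X v T' := by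
  obtain ⟨M, rfl, h2, h3⟩ := h
  have : ∃ M' : List (V × ℕ), M'.map Prod.snd = T' ∧ M'.map Prod.fst = M.map Prod.fst ∧
      ∀ p ∈ M', ∃ q ∈ M, q.1 = p.1 ∧ q.2 ≤ p.2 := by
    clear h2 h3
    induction M generalizing T' with
    | nil => exact ⟨[], by simpa using hT, rfl, by simp⟩
    | cons p M ih =>
      cases hT with
      | cons a b =>
        obtain ⟨M', e1, e2, e3⟩ := ih b
        refine ⟨(p.1, _) :: M', by rw [List.map_cons, e1], by simp [e2], fun q hq => ?_⟩
        rcases List.mem_cons.1 hq with rfl | hq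
        · exact ⟨p, by simp, rfl, a⟩
        · obtain ⟨s, s1, s2⟩ := e3 q hq
          exact ⟨s, List.mem_cons_of_mem _ s1, s2⟩
  obtain ⟨M', e1, e2, e3⟩ := this
  refine ⟨M', e1, e2 ▸ h2, fun p hp => ?_⟩
  obtain ⟨q, q1, q2, q3⟩ := e3 p hp
  obtain ⟨b, w, c, d, e⟩ := h3 q q1
  exact ⟨q2 ▸ b, w, c, q2 ▸ d, e.le q3⟩

theorem RT.append (hG : Gi G) (hX : Disjoint X Y) (hA : Disjoint A A') (h : RT G Y A X v T)
    (h' : RT G Y A' X v T') (hs : ∀ a ∈ T, ∀ b ∈ T', a + b < 9) :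
    RT G Y (A ∪ A') X v (T ++ T') := by
  obtain ⟨M, rfl, h2, h3⟩ := h
  obtain ⟨M', rfl, h2', h3'⟩ := h'
  refine ⟨M ++ M', by simp, ?_, fun p hp => ?_⟩
  · rw [List.map_append, List.nodup_append]
    refine ⟨h2, h2', fun x hx y hy e => ?_⟩
    obtain ⟨p, hp, rfl⟩ := List.mem_map.1 hx
    obtain ⟨q, hq, rfl⟩ := List.mem_map.1 hy
    obtain ⟨b, w, c, d, f⟩ := h3 p hp
    obtain ⟨-, w', c', d', f'⟩ := h3' q hq
    have := hG Y p.1 w w' _ (disjoint_left.1 hX b) d (e ▸ d')
      (fun e => disjoint_left.1 hA c (e ▸ c')) (f.trans f'.symm)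
    have := hs _ (List.mem_map_of_mem hp) _ (List.mem_map_of_mem hq)
    omega
  · rcases List.mem_append.1 hp with hp | hp
    · obtain ⟨b, w, c, d⟩ := h3 p hp
      exact ⟨b, w, mem_union_left _ c, d⟩
    · obtain ⟨b, w, c, d⟩ := h3' p hp
      exact ⟨b, w, mem_union_right _ c, d⟩

theorem RT.init (hv : v ∈ Y) : RT G Y {v} X v (List.replicate (dg G X v) 0) := by
  refine ⟨(X.filter (G.Adj v)).toList.map fun x => (x, 0), ?_, ?_, fun p hp => ?_⟩
  · simp [Function.comp_def, dg]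
  · simpa [Function.comp_def] using nodup_toList _
  · obtain ⟨x, hx, rfl⟩ := List.mem_map.1 hp
    rw [mem_toList, mem_filter] at hx
    exact ⟨hx.1, v, mem_singleton_self _, hx.2.symm, Wk.refl hv⟩

end RT

end Pool.Agent.MP_e6539c_co.C5

end Part1

section Part2

/-! Frames, crosses and edge vectors. -/

set_option autoImplicit false

namespace Pool.Agent.MP_e6539c_co.C5

open Finset
open Pool.Agent.MP_7be75d_co (R Conn comp)
open Pool.Agent.MP_7be75d_co
open scoped Classical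

variable {V : Type} {H : SimpleGraph V} {L L' : List V}

theorem Fr.rot {x y : V} (h : Fr L x y) (r : L ~r L') : Fr L' x y := by
  obtain ⟨M, h⟩ := h
  exact ⟨M, r.symm.trans h⟩

theorem Fr.left {x y : V} (h : Fr L x y) : x ∈ L := by
  obtain ⟨M, h⟩ := h
  exact h.mem_iff.2 (by simp)

theorem Fr.right {x y : V} (h : Fr L x y) : y ∈ L := by
  obtain ⟨M, h⟩ := h
  exact h.mem_iff.2 (by simp)

theorem rot_iff : L ~r L' ↔ ∃ A B, L = A ++ B ∧ L' = B ++ A := by
  constructor
  · intro h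
    obtain ⟨n, hn, rfl⟩ := List.isRotated_iff_mod.1 h
    exact ⟨L.take n, L.drop n, by simp, List.rotate_eq_drop_append_take hn⟩
  · rintro ⟨A, B, rfl, rfl⟩
    exact List.isRotated_append

/-- Consecutive vertices of a cyclic list. -/
theorem fr_iff {x y : V} :
    Fr L x y ↔ (∃ A B, L = A ++ x :: y :: B) ∨ ∃ M, L = y :: (M ++ [x]) := by
  constructor
  · rintro ⟨M, h⟩
    obtain ⟨A, B, rfl, e⟩ := rot_iff.1 h
    match B, e with
    | [], e => exact Or.inl ⟨[], M, by simpa using e.symm⟩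
    | [b], e =>
      simp only [List.cons_append, List.nil_append, List.cons.injEq] at e
      obtain ⟨rfl, rfl⟩ := e
      exact Or.inr ⟨M, by simp⟩
    | b :: b' :: B, e =>
      simp only [List.cons_append, List.cons.injEq] at e
      obtain ⟨rfl, rfl, -⟩ := e
      exact Or.inl ⟨A, B, rfl⟩
  · rintro (⟨A, B, rfl⟩ | ⟨M, rfl⟩)
    · exact ⟨B ++ A, rot_iff.2 ⟨A, x :: y :: B, rfl, by simp⟩⟩
    · exact ⟨M, rot_iff.2 ⟨y :: M, [x], by simp, by simp⟩⟩

/-- Consecutive vertices by index. -/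
theorem fr_iff_get {x y : V} (h2 : 2 ≤ L.length) :
    Fr L x y ↔ ∃ i, i < L.length ∧ L[i]? = some x ∧ L[(i + 1) % L.length]? = some y := by
  rw [fr_iff]
  constructor
  · rintro (⟨A, B, rfl⟩ | ⟨M, rfl⟩)
    · refine ⟨A.length, by simp, by simp, ?_⟩
      rw [Nat.mod_eq_of_lt (by simp), List.getElem?_append_right (by omega)]
      simp
    · exact ⟨M.length + 1, by simp, by simp, by simp⟩
  · rintro ⟨i, hi, a, b⟩
    by_cases h : i + 1 < L.length
    · rw [Nat.mod_eq_of_lt h] at b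
      refine Or.inl ⟨L.take i, L.drop (i + 2), ?_⟩
      rw [List.getElem?_eq_some_iff] at a b
      obtain ⟨_, rfl⟩ := a
      obtain ⟨_, rfl⟩ := b
      rw [← List.drop_eq_getElem_cons, ← List.drop_eq_getElem_cons, List.take_append_drop]
    · have e : i + 1 = L.length := by omega
      rw [e, Nat.mod_self] at b
      right
      match L, h2 with
      | z :: w :: M, _ =>
        obtain rfl : z = y := by simpa using b
        refine ⟨(w :: M).dropLast, ?_⟩
        have : i = M.length + 1 := by simpa using e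
        subst this
        have a' : (w :: M).getLast (by simp) = x := by
          rw [List.getLast_eq_getElem]
          simpa using a
        rw [← a', List.dropLast_append_getLast]

/-- A chain closed by an edge is a frame. -/
theorem frame_of {a b : V} {M : List V} (nd : (a :: (M ++ [b])).Nodup) (hM : M ≠ [])
    (ch : (a :: (M ++ [b])).IsChain H.Adj) (cl : H.Adj b a) : Frame H (a :: (M ++ [b])) := by
  refine ⟨nd, ?_, fun x y h => ?_⟩
  · have := List.length_pos_iff.2 hM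
    simp only [List.length_cons, List.length_append, List.length_nil]
    omega
  · rcases fr_iff.1 h with ⟨A, B, e⟩ | ⟨N, e⟩
    · rw [e, List.isChain_append_cons_cons] at ch
      exact ch.2.1
    · simp only [List.cons.injEq] at e
      obtain ⟨rfl, e⟩ := e
      obtain rfl : b = x := by simpa using (List.append_inj' e rfl).2
      exact cl

theorem Frame.chain (h : Frame H L) : L.IsChain H.Adj := by
  rw [List.isChain_iff_forall_rel_of_append_cons_cons]
  intro a b l₁ l₂ e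
  exact h.adj a b (fr_iff.2 (Or.inl ⟨l₁, l₂, e⟩))

theorem Frame.rot (h : Frame H L) (r : L ~r L') : Frame H L' :=
  ⟨r.nodup_iff.1 h.nd, r.perm.length_eq ▸ h.len, fun x y f => h.adj x y (f.rot r.symm)⟩

theorem Cross.rot (h : Cross H L) (r : L ~r L') : Cross H L' := by
  obtain ⟨x, u, y, v, M, X₁, X₂, a, b, c, d, e, f, g⟩ := h
  exact ⟨x, u, y, v, M, X₁, X₂, r.symm.trans a, b, c, d, e, fun z => by rw [← r.mem_iff]; exact f z,
    fun z => by rw [← r.mem_iff]; exact g z⟩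

theorem Cross.mono {H' : SimpleGraph V} (h : Cross H L) (hH : H ≤ H') : Cross H' L := by
  obtain ⟨x, u, y, v, M, X₁, X₂, a, b, c, d, e, f, g⟩ := h
  exact ⟨x, u, y, v, M, X₁, X₂, a, b, c.mono' fun _ _ h _ _ => hH h,
    d.mono' fun _ _ h _ _ => hH h, e, f, g⟩

theorem cross_mk {x u y v : V} {X₁ X₂ : Finset V} (s : List.Sublist [x, u, y, v] L)
    (c₁ : Conn H X₁) (c₂ : Conn H X₂) (d : Disjoint X₁ X₂)
    (h₁ : ∀ z, (z ∈ X₁ ∧ z ∈ L) ↔ (z = x ∨ z = y))
    (h₂ : ∀ z, (z ∈ X₂ ∧ z ∈ L) ↔ (z = u ∨ z = v)) : Cross H L :=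
  ⟨x, u, y, v, L, X₁, X₂, List.IsRotated.refl _, s, c₁, c₂, d, h₁, h₂⟩

/-- A cross can be read off the list itself. -/
theorem Cross.norm (h : Cross H L) : ∃ (x u y v : V) (X₁ X₂ : Finset V),
    List.Sublist [x, u, y, v] L ∧ Conn H X₁ ∧ Conn H X₂ ∧ Disjoint X₁ X₂ ∧
    (∀ z, (z ∈ X₁ ∧ z ∈ L) ↔ (z = x ∨ z = y)) ∧ ∀ z, (z ∈ X₂ ∧ z ∈ L) ↔ (z = u ∨ z = v) := by
  obtain ⟨x, u, y, v, M, X₁, X₂, a, b, c, d, e, f, g⟩ := h
  obtain ⟨A, B, rfl, rfl⟩ := rot_iff.1 a
  obtain ⟨l₁, l₂, e', s1, s2⟩ := List.sublist_append_iff.1 b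
  have s := s2.append s1
  have f' : ∀ z, (z ∈ X₁ ∧ z ∈ A ++ B) ↔ (z = y ∨ z = x) := fun z => (f z).trans or_comm
  have g' : ∀ z, (z ∈ X₂ ∧ z ∈ A ++ B) ↔ (z = v ∨ z = u) := fun z => (g z).trans or_comm
  match l₁, e' with
  | [], e' =>
    obtain rfl : [x, u, y, v] = l₂ := e'
    exact ⟨x, u, y, v, X₁, X₂, s, c, d, e, f, g⟩
  | [_], e' =>
    simp only [List.cons_append, List.nil_append, List.cons.injEq] at e'
    obtain ⟨rfl, rfl⟩ := e'
    exact ⟨u, y, v, x, X₂, X₁, s, d, c, e.symm, g, f'⟩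
  | [_, _], e' =>
    simp only [List.cons_append, List.nil_append, List.cons.injEq] at e'
    obtain ⟨rfl, rfl, rfl⟩ := e'
    exact ⟨y, v, x, u, X₁, X₂, s, c, d, e, f', g'⟩
  | [_, _, _], e' =>
    simp only [List.cons_append, List.nil_append, List.cons.injEq] at e'
    obtain ⟨rfl, rfl, rfl, rfl⟩ := e'
    exact ⟨v, x, u, y, X₂, X₁, s, d, c, e.symm, g', f⟩
  | _ :: _ :: _ :: _ :: l, e' =>
    simp only [List.cons_append, List.cons.injEq, List.nil_eq, List.append_eq_nil_iff] at e'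
    obtain ⟨rfl, rfl, rfl, rfl, rfl, rfl⟩ := e'
    exact ⟨x, u, y, v, X₁, X₂, s, c, d, e, f, g⟩

theorem fr_four {t : Fin 4 → V} {x y : V} (h : Fr [t 0, t 1, t 2, t 3] x y) :
    ∃ i, x = t i ∧ y = t (i + 1) := by
  obtain ⟨i, hi, a, b⟩ := (fr_iff_get (by simp)).1 h
  simp only [List.length_cons, List.length_nil] at hi a b
  interval_cases i <;> simp at a b
  exacts [⟨0, a.symm, b.symm⟩, ⟨1, a.symm, b.symm⟩, ⟨2, a.symm, b.symm⟩, ⟨3, a.symm, b.symm⟩]

theorem fr_four' (t : Fin 4 → V) (i : Fin 4) : Fr [t 0, t 1, t 2, t 3] (t i) (t (i + 1)) := by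
  refine (fr_iff_get (by simp)).2 ⟨i, by simp, ?_⟩
  fin_cases i <;> simp

theorem cov_union_le (F F' : Finset (Vec V)) (e : Sym2 V) :
    cov (F ∪ F') e ≤ cov F e + cov F' e := by
  unfold cov
  rw [filter_union]
  exact card_union_le _ _

theorem cov_eq_zero {F : Finset (Vec V)} {e : Sym2 V} (h : ∀ f ∈ F, f e = 0) : cov F e = 0 := by
  unfold cov
  rw [card_eq_zero, filter_eq_empty_iff]
  exact fun f hf => not_not.2 (h f hf)

theorem cov_insert_le (f : Vec V) (F : Finset (Vec V)) (e : Sym2 V) :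
    cov (insert f F) e ≤ cov F e + if f e = 0 then 0 else 1 := by
  unfold cov
  rw [filter_insert]
  by_cases h : f e = 0
  · simp [h]
  · simpa [h] using card_insert_le _ _

theorem ncard_lt {H' : SimpleGraph V} [Finite V] (hle : H' ≤ H) {a b : V} (h : H.Adj a b)
    (h' : ¬ H'.Adj a b) : H'.edgeSet.ncard < H.edgeSet.ncard :=
  Set.ncard_lt_ncard ⟨SimpleGraph.edgeSet_mono hle, fun c => h' (c (show s(a, b) ∈ _ from h))⟩
    (Set.toFinite _)

variable [Fintype V]

theorem FC.rot (h : FC H L) (r : L ~r L') : FC H L' :=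
  fun Z a b c hz => h Z a b c fun z m k => hz z m (r.mem_iff.1 k)

theorem Basis.rot {F : Finset (Vec V)} (h : Basis H L F) (r : L ~r L') : Basis H L' F :=
  ⟨h.ev, h.two, fun x y f => h.one x y (f.rot r.symm), h.span⟩

/-! ### Edge vectors -/

omit [Fintype V] in
theorem z2_add_self (x : Vec V) : x + x = 0 := by
  funext e
  exact CharTwo.add_self_eq_zero (x e)

theorem z2_ne {a : ZMod 2} : a ≠ 0 ↔ a = 1 := by
  revert a; decide

theorem par_add (x y : Vec V) (v : V) : par (x + y) v = par x v + par y v := by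
  simp [par, sum_add_distrib]

theorem par_smul (c : ZMod 2) (x : Vec V) (v : V) : par (c • x) v = c * par x v := by
  simp [par, mul_sum]

theorem par_zero (v : V) : par (0 : Vec V) v = 0 := by simp [par]

theorem par_sum {ι : Type} (s : Finset ι) (x : ι → Vec V) (v : V) :
    par (∑ i ∈ s, x i) v = ∑ i ∈ s, par (x i) v := by
  simp only [par, Finset.sum_apply]
  exact sum_comm

/-- The vector of a single edge. -/
noncomputable def ed (a b : V) : Vec V := fun e => if e = s(a, b) then 1 else 0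

theorem par_ed {a b : V} (h : a ≠ b) (v : V) :
    par (ed a b) v = (if v = a then 1 else 0) + (if v = b then 1 else 0) := by
  unfold par ed
  by_cases h1 : v = a
  · subst h1
    simp [h]
  · by_cases h2 : v = b
    · subst h2
      simp [h1]
    · simp [h1, h2]

/-- The sum of the parities over a set counts the edges that leave it. -/
theorem sum_par_closed {x : Vec V} (hd : ∀ v, x s(v, v) = 0) (S : Finset V) :
    ∑ v ∈ S, par x v = ∑ v ∈ S, ∑ w ∈ univ \ S, x s(v, w) := by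
  have h0 : ∑ v ∈ S, ∑ w ∈ S, x s(v, w) = 0 := by
    rw [← sum_product']
    refine sum_involution (fun p _ => p.swap) (fun p _ => ?_) (fun p _ h e => h ?_)
      (fun p hp => by simpa [and_comm] using hp) (fun p _ => by simp)
    · rw [Prod.fst_swap, Prod.snd_swap, Sym2.eq_swap]
      exact CharTwo.add_self_eq_zero _
    · have : p.2 = p.1 := congrArg Prod.fst e
      rw [this, hd]
  have : ∀ v, par x v = ∑ w ∈ univ \ S, x s(v, w) + ∑ w ∈ S, x s(v, w) :=
    fun v => (sum_sdiff (subset_univ S)).symm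
  rw [sum_congr rfl fun v _ => this v, sum_add_distrib, h0, add_zero]

theorem sum_par {x : Vec V} (hd : ∀ v, x s(v, v) = 0) : ∑ v, par x v = 0 := by
  simpa using sum_par_closed hd univ

theorem Ev.diag {x : Vec V} (h : Ev H x) (v : V) : x s(v, v) = 0 := by
  by_contra hc
  exact (h.1 v v hc).ne rfl

theorem Ev.add {x y : Vec V} (h : Ev H x) (h' : Ev H y) : Ev H (x + y) := by
  refine ⟨fun u v c => ?_, fun v => by rw [par_add, h.2, h'.2, add_zero]⟩
  by_cases e : x s(u, v) = 0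
  · exact h'.1 u v (by simpa [e] using c)
  · exact h.1 u v e

theorem Ev.mono {H' : SimpleGraph V} {x : Vec V} (h : Ev H x)
    (hH : ∀ u v, x s(u, v) ≠ 0 → H.Adj u v → H'.Adj u v) : Ev H' x :=
  ⟨fun u v c => hH u v c (h.1 u v c), h.2⟩

/-- A vertex on an edge of an even set is on a second one. -/
theorem second_edge {x : Vec V} {u v : V} (h : par x u = 0) (c : x s(u, v) ≠ 0) :
    ∃ w, w ≠ v ∧ x s(u, w) ≠ 0 := by
  by_contra hc
  push Not at hc
  apply c
  rw [← h, par, sum_eq_single v (fun w _ hw => hc w hw) (by simp)]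

/-- The vector of the walk `f i, …, f j`. -/
noncomputable def pv (f : ℕ → V) (i j : ℕ) : Vec V := ∑ t ∈ Ico i j, ed (f t) (f (t + 1))

theorem par_pv {f : ℕ → V} {i j : ℕ} (hij : i ≤ j)
    (hA : ∀ t, i ≤ t → t < j → f t ≠ f (t + 1)) (v : V) :
    par (pv f i j) v = (if v = f i then 1 else 0) + (if v = f j then 1 else 0) := by
  induction hij with
  | refl => simp [pv, par_zero, CharTwo.add_self_eq_zero]
  | @step j h ih =>
    have h : i ≤ j := h
    rw [pv, sum_Ico_succ_top h, par_add, ← pv, ih fun t a b => hA t a (by omega),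
      par_ed (hA j h (by omega)), add_assoc, ← add_assoc (if v = f j then _ else _),
      CharTwo.add_self_eq_zero, zero_add]

omit [Fintype V] in
theorem pv_supp {f : ℕ → V} {i j : ℕ} {e : Sym2 V} (h : pv f i j e ≠ 0) :
    ∃ t, i ≤ t ∧ t < j ∧ e = s(f t, f (t + 1)) := by
  by_contra hc
  push Not at hc
  apply h
  rw [pv, Finset.sum_apply]
  refine sum_eq_zero fun t ht => ?_
  rw [mem_Ico] at ht
  simp [ed, hc t ht.1 ht.2]

omit [Fintype V] in
theorem pv_edge {f : ℕ → V} {i j t : ℕ} (h1 : i ≤ t) (h2 : t < j)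
    (inj : ∀ a, i ≤ a → a ≤ j → ∀ b, i ≤ b → b ≤ j → f a = f b → a = b) :
    pv f i j s(f t, f (t + 1)) = 1 := by
  rw [pv, Finset.sum_apply, sum_eq_single t]
  · simp [ed]
  · intro s hs hne
    rw [mem_Ico] at hs
    simp only [ed, ite_eq_right_iff, Sym2.eq_iff]
    rintro (⟨a, -⟩ | ⟨a, b⟩)
    · exact absurd (inj _ h1 (by omega) _ hs.1 (by omega) a).symm hne
    · have := inj _ h1 (by omega) _ (by omega) (by omega) a
      have := inj _ (by omega) (by omega) _ hs.1 (by omega) b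
      omega
  · intro h
    exact absurd (mem_Ico.2 ⟨h1, h2⟩) h

/-- The vector of a walk inside `S`. -/
theorem vec_of_R {S : Finset V} {a b : V} (h : R H S a b) : ∃ x : Vec V,
    (∀ u v, x s(u, v) ≠ 0 → H.Adj u v ∧ u ∈ S ∧ v ∈ S) ∧
    ∀ v, par x v = (if v = a then 1 else 0) + (if v = b then 1 else 0) := by
  refine h.ind (P := fun b => ∃ x : Vec V, (∀ u v, x s(u, v) ≠ 0 → H.Adj u v ∧ u ∈ S ∧ v ∈ S) ∧
    ∀ v, par x v = (if v = a then 1 else 0) + (if v = b then 1 else 0))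
    ⟨0, by simp, fun v => by rw [par_zero, CharTwo.add_self_eq_zero]⟩ ?_
  rintro p q - ⟨x, x1, x2⟩ e hp hq
  refine ⟨x + ed p q, fun u v c => ?_, fun v => ?_⟩
  · by_cases k : x s(u, v) = 0
    · have : s(u, v) = s(p, q) := by
        by_contra t
        exact c (by rw [Pi.add_apply, k, ed, if_neg t, add_zero])
      rcases Sym2.eq_iff.1 this with ⟨rfl, rfl⟩ | ⟨rfl, rfl⟩
      exacts [⟨e, hp, hq⟩, ⟨e.symm, hq, hp⟩]
    · exact x1 u v k
  · rw [par_add, x2, par_ed e.ne, add_assoc, ← add_assoc (if v = p then _ else _),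
      CharTwo.add_self_eq_zero, zero_add]

/-! ### The part that reaches `M` -/

section PQ

variable {M : List V} {k : ℕ} {q : ℕ → V}

omit [Fintype V] in
theorem mem_qs {x : V} : x ∈ qs k q ↔ ∃ i ≤ k, q i = x := by
  simp [qs]

theorem mem_KK {v : V} : v ∈ KK H M k q ↔ ∃ m ∈ M, R H (univ \ qs k q) m v := by simp [KK]

theorem KK_of_M {m : V} (h : m ∈ M) : m ∈ KK H M k q := mem_KK.2 ⟨m, h, R.refl⟩

omit [Fintype V] in
theorem PQ.M_off (h : PQ H M k q) {m : V} (hm : m ∈ M) : m ∉ qs k q := fun c => by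
  obtain ⟨i, hi, rfl⟩ := mem_qs.1 c
  exact h.off i hi hm

omit [Fintype V] in
theorem PQ.M_ne (h : PQ H M k q) : M ≠ [] := by
  rintro rfl
  simpa using h.fr.len

theorem PQ.KK_off (h : PQ H M k q) {v : V} (hv : v ∈ KK H M k q) : v ∉ qs k q := by
  obtain ⟨m, hm, r⟩ := mem_KK.1 hv
  simpa using r.mem (by simpa using h.M_off hm)

theorem PQ.KK_closed (h : PQ H M k q) {v w : V} (hv : v ∈ KK H M k q) (a : H.Adj v w)
    (hw : w ∉ qs k q) : w ∈ KK H M k q := by
  have := h.KK_off hv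
  obtain ⟨m, hm, r⟩ := mem_KK.1 hv
  exact mem_KK.2 ⟨m, hm, r.tail a (by simpa using this) (by simpa using hw)⟩

theorem PQ.KK_reach (h : PQ H M k q) {v : V} (hv : v ∈ KK H M k q) :
    ∃ m ∈ M, R H (KK H M k q) m v := by
  obtain ⟨m, hm, r⟩ := mem_KK.1 hv
  exact ⟨m, hm, (r.closed (S := KK H M k q) (KK_of_M hm) fun x hx y hy _ a =>
    h.KK_closed hx a (by simpa using hy)).2.mono inter_subset_right⟩

/-- A connected set off the path lies inside or outside `KK`. -/
theorem PQ.KK_or (h : PQ H M k q) {U : Finset V} (c : Conn H U) (d : Disjoint U (qs k q)) :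
    U ⊆ KK H M k q ∨ Disjoint U (KK H M k q) := by
  by_cases e : Disjoint U (KK H M k q)
  · exact Or.inr e
  · obtain ⟨a, a1, a2⟩ := not_disjoint_iff.1 e
    exact Or.inl (c.subset_of_closed a1 a2 fun x hx y hy _ b =>
      h.KK_closed hx b (disjoint_left.1 d hy))

end PQ

end Pool.Agent.MP_e6539c_co.C5

end Part2

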