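import Pool.Agent.MP_e6539c_co.C5.CBasic

/-! A bridge after the deletion of a matching of a circuit. -/

set_option autoImplicit false

namespace Pool.Agent.MP_e6539c_co.C5

open Finset
open Pool.Agent.MP_e6539c_co.TW (MG)
open scoped Classical

namespace BridgeAux

variable {V E : Type} {G : MG V E}

theorem parity (p : ℕ → Prop) (m : ℕ) :
    Even ((range m).filter fun i => ¬ (p i ↔ p (i + 1))).card ↔ (p 0 ↔ p m) := by
  induction m with
  | zero => simp
  | succ m ih =>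
    rw [range_add_one, filter_insert]
    split_ifs with h
    · rw [ih]; tauto
    · rw [card_insert_of_notMem (by simp), Nat.even_add_one, ih]; tauto

theorem card_cut_image {n : ℕ} {v : ℕ → V} {e : ℕ → E} (hc : Circ G n v e) {S : Finset ℕ}
    (hS : S ⊆ range n) (Y : Set V) :
    (G.cut (S.image e) Y).card = (S.filter fun i => ¬ (v i ∈ Y ↔ v (i + 1) ∈ Y)).card := by
  have h : G.cut (S.image e) Y = (S.filter fun i => ¬ (v i ∈ Y ↔ v (i + 1) ∈ Y)).image e := by
    ext f
    constructor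
    · intro hf
      obtain ⟨i, hi, rfl⟩ := mem_image.1 (MG.cut_subset _ _ hf)
      exact mem_image.2 ⟨i, mem_filter.2
        ⟨hi, ((hc.ends i (mem_range.1 (hS hi))).mem_cut_iff.1 hf).2⟩, rfl⟩
    · intro hf
      obtain ⟨i, hi, rfl⟩ := mem_image.1 hf
      rw [mem_filter] at hi
      exact (hc.ends i (mem_range.1 (hS hi.1))).mem_cut_iff.2 ⟨mem_image_of_mem _ hi.1, hi.2⟩
  rw [h, card_image_of_injOn]
  intro i hi j hj hij
  exact hc.einj i (mem_range.1 (hS (mem_filter.1 hi).1)) j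
    (mem_range.1 (hS (mem_filter.1 hj).1)) hij

theorem star (hd : ∀ v, (∃ e ∈ G.A, G.Inc e v) → 3 ≤ (G.A.filter fun e => G.Inc e v).card)
    {Z : Set V} (h3 : (G.cut G.A Z).card ≤ 3) (hZ : ∀ e ∈ G.A, ¬ (G.l e ∈ Z ∧ G.r e ∈ Z))
    {f g : E} (hf : f ∈ G.cut G.A Z) (hg : g ∈ G.cut G.A Z) : ∃ u, G.Inc f u ∧ G.Inc g u := by
  have hf' := mem_filter.1 hf
  obtain ⟨u, hu, hfu⟩ : ∃ u ∈ Z, G.Inc f u := by
    by_cases h : G.l f ∈ Z
    · exact ⟨_, h, Or.inl rfl⟩
    · exact ⟨_, by have := hf'.2; tauto, Or.inr rfl⟩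
  have hsub : (G.A.filter fun e => G.Inc e u) ⊆ G.cut G.A Z := by
    intro a ha
    rw [mem_filter] at ha
    have := hZ a ha.1
    refine mem_filter.2 ⟨ha.1, ?_⟩
    rcases ha.2 with h | h <;> rw [h] at this ⊢ <;> tauto
  have heq := eq_of_subset_of_card_le hsub (h3.trans (hd u ⟨f, hf'.1, hfu⟩))
  rw [← heq] at hg
  exact ⟨u, hfu, (mem_filter.1 hg).2⟩

end BridgeAux

open BridgeAux in
theorem bridge (h : CutStmt) : BridgeStmt := by
  intro V E _ G hG n v e hc hrc D hD hm Y hY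
  obtain ⟨-, hd, hcut⟩ := h V E G hG
  have hDA : D.image e ⊆ G.A := by
    intro f hf
    obtain ⟨i, hi, rfl⟩ := mem_image.1 hf
    exact hc.mem i (mem_range.1 (hD hi))
  have hK : (range n \ D).image e ⊆ G.A \ D.image e := by
    intro f hf
    obtain ⟨i, hi, rfl⟩ := mem_image.1 hf
    rw [mem_sdiff] at hi ⊢
    refine ⟨hc.mem i (mem_range.1 hi.1), fun h' => ?_⟩
    obtain ⟨j, hj, hji⟩ := mem_image.1 h'
    exact hi.2 (hc.einj j (mem_range.1 (hD hj)) i (mem_range.1 hi.1) hji ▸ hj)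
  have hoff : (G.A \ D.image e) \ (range n \ D).image e = off G n e := by
    unfold off
    rw [sdiff_sdiff, sup_eq_union, ← image_union, union_sdiff_of_subset hD]
  have h1 := MG.card_cut_split (G := G) hK Y
  rw [hY, hoff, card_cut_image hc sdiff_subset] at h1
  have h2 := MG.card_cut_split (G := G) hDA Y
  rw [hY, card_cut_image hc hD] at h2
  have h3 := (parity (fun i => v i ∈ Y) n).2 (by rw [hc.cl])
  have h4 : ((range n).filter fun i => ¬ (v i ∈ Y ↔ v (i + 1) ∈ Y)).card =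
      ((range n \ D).filter fun i => ¬ (v i ∈ Y ↔ v (i + 1) ∈ Y)).card +
      (D.filter fun i => ¬ (v i ∈ Y ↔ v (i + 1) ∈ Y)).card := by
    rw [← card_union_of_disjoint (disjoint_filter_filter sdiff_disjoint), ← filter_union,
      sdiff_union_of_subset hD]
  have hb : ((range n \ D).filter fun i => ¬ (v i ∈ Y ↔ v (i + 1) ∈ Y)).card = 0 := by
    by_contra hb
    apply hb
    have h0 := hrc Y (card_eq_zero.1 (by omega))
    rw [card_eq_zero, filter_eq_empty_iff]
    intro i hi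
    have hi' := mem_range.1 (mem_sdiff.1 hi).1
    rw [not_not]
    rcases Nat.lt_or_ge (i + 1) n with h' | h'
    · exact h0 i hi' _ h'
    · rw [show i + 1 = n by omega, hc.cl]
      exact h0 i hi' 0 (by omega)
  refine ⟨by omega, fun i hi hiD => ?_, ?_⟩
  · rw [card_eq_zero, filter_eq_empty_iff] at hb
    exact not_not.1 (hb (mem_sdiff.2 ⟨mem_range.2 hi, hiD⟩))
  · by_contra hlt
    have hbr := hG.br Y
    rw [h4, hb, zero_add] at h3
    obtain ⟨k, hk⟩ := h3
    obtain ⟨i, hi, j, hj, hij⟩ := one_lt_card.1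
      (show 1 < (D.filter fun i => ¬ (v i ∈ Y ↔ v (i + 1) ∈ Y)).card by omega)
    rw [mem_filter] at hi hj
    have hi' := mem_range.1 (hD hi.1)
    have hj' := mem_range.1 (hD hj.1)
    have hf := (hc.ends i hi').mem_cut_iff.2 ⟨hc.mem i hi', hi.2⟩
    have hg := (hc.ends j hj').mem_cut_iff.2 ⟨hc.mem j hj', hj.2⟩
    have hle : (G.cut G.A Y).card ≤ 3 := by omega
    obtain ⟨u, hu, hu'⟩ : ∃ u, G.Inc (e i) u ∧ G.Inc (e j) u := by
      rcases hcut Y hle with hZ | hZ
      · exact star hd hle hZ hf hg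
      · rw [← MG.cut_compl] at hle hf hg
        exact star hd hle hZ hf hg
    exact hij (hm i hi.1 j hj.1 u hu hu')

end Pool.Agent.MP_e6539c_co.C5
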