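import Mathlib.Algebra.BigOperators.Intervals
import Mathlib.Algebra.BigOperators.Pi
import Mathlib.Algebra.BigOperators.Fin
import Mathlib.Data.Fin.VecNotation
import Mathlib.Tactic.IntervalCases
import Pool.Agent.MP_e6539c_co.C5.Spec

/-! Boundaries of edge labellings with values in a group of exponent two. -/

set_option autoImplicit false

namespace Pool.Agent.MP_e6539c_co.C5

open Finset
open Pool.Agent.MP_e6539c_co.TW (MG)
open scoped Classical

variable {V E M : Type} [AddCommMonoid M] {G : MG V E}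

theorem v5_add_self (x : V5) : x + x = 0 := funext fun c => CharTwo.add_self_eq_zero (x c)

theorem zm_add_self (x : ZMod 2) : x + x = 0 := CharTwo.add_self_eq_zero x

theorem v5_eq_of_add {x y : V5} (h : x + y = 0) : x = y := by
  rw [← add_zero x, ← v5_add_self y, ← add_assoc, h, zero_add]

theorem ends_term {e : E} {u v : V} (h : G.Ends e u v) (x : M) (w : V) :
    ((if G.l e = w then x else 0) + (if G.r e = w then x else 0)) =
      ((if u = w then x else 0) + (if v = w then x else 0)) := by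
  rcases h with ⟨h1, h2⟩ | ⟨h1, h2⟩ <;> rw [h1, h2]
  exact add_comm _ _

theorem bd_union {B B' : Finset E} (h : Disjoint B B') (ψ : E → M) (v : V) :
    bd G (B ∪ B') ψ v = bd G B ψ v + bd G B' ψ v := sum_union h

theorem bd_split {B B' : Finset E} (h : B' ⊆ B) (ψ : E → M) (v : V) :
    bd G B ψ v = bd G (B \ B') ψ v + bd G B' ψ v := by
  rw [← bd_union sdiff_disjoint, sdiff_union_of_subset h]

theorem bd_congr {B : Finset E} {ψ ψ' : E → M} {v : V} (h : ∀ e ∈ B, G.Inc e v → ψ e = ψ' e) :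
    bd G B ψ v = bd G B ψ' v := by
  apply sum_congr rfl
  intro e he
  by_cases h1 : G.l e = v <;> by_cases h2 : G.r e = v <;>
    simp [h1, h2, fun hh => h e he hh, MG.Inc]

theorem bd_eq_zero {B : Finset E} {ψ : E → M} {v : V} (h : ∀ e ∈ B, ¬ G.Inc e v) :
    bd G B ψ v = 0 := by
  apply sum_eq_zero
  intro e he
  have := h e he
  unfold MG.Inc at this
  push Not at this
  simp [this.1, this.2]

theorem bd_zero (B : Finset E) (v : V) : bd G B (fun _ => (0 : M)) v = 0 := by simp [bd]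

theorem bd_sub {B B' : Finset E} (hB : B' ⊆ B) {ψ : E → M} {v : V}
    (h : ∀ e ∈ B, G.Inc e v → e ∈ B') : bd G B ψ v = bd G B' ψ v := by
  rw [bd_split hB, bd_eq_zero, zero_add]
  intro e he hi
  rw [mem_sdiff] at he
  exact he.2 (h e he.1 hi)

theorem bd_add (B : Finset E) (ψ ψ' : E → M) (v : V) :
    bd G B (fun e => ψ e + ψ' e) v = bd G B ψ v + bd G B ψ' v := by
  unfold bd
  rw [← sum_add_distrib]
  apply sum_congr rfl
  intro e _
  by_cases h1 : G.l e = v <;> by_cases h2 : G.r e = v <;> simp [h1, h2]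
  exact add_add_add_comm _ _ _ _

theorem bd_map {N : Type} [AddCommMonoid N] (B : Finset E) (ψ : E → M) (v : V) (σ : M →+ N) :
    bd G B (fun e => σ (ψ e)) v = σ (bd G B ψ v) := by
  unfold bd
  rw [map_sum]
  apply sum_congr rfl
  intro e _
  by_cases h1 : G.l e = v <;> by_cases h2 : G.r e = v <;> simp [h1, h2]

/-- One colour of the boundary. -/
theorem bd_apply (B : Finset E) (ψ : E → V5) (v : V) (c : Fin 5) :
    bd G B ψ v c = bd G B (fun e => ψ e c) v :=
  (bd_map B ψ v (Pi.evalAddMonoidHom (fun _ => ZMod 2) c)).symm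

theorem bd_insert {B : Finset E} {e : E} (he : e ∉ B) {a b : V} (hen : G.Ends e a b)
    (ψ : E → M) (v : V) : bd G (insert e B) ψ v =
      ((if a = v then ψ e else 0) + (if b = v then ψ e else 0)) + bd G B ψ v := by
  unfold bd
  rw [sum_insert he, ends_term hen]

theorem sum_bd' (h2 : ∀ x : M, x + x = 0) (B : Finset E) (ψ : E → M) (S : Finset V) (Y : Set V)
    (h : ∀ v, v ∈ S ↔ v ∈ Y) : ∑ v ∈ S, bd G B ψ v = ∑ e ∈ G.cut B Y, ψ e := by
  unfold bd MG.cut
  rw [sum_comm, sum_filter]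
  apply sum_congr rfl
  intro e _
  rw [sum_add_distrib, sum_ite_eq, sum_ite_eq]
  by_cases h1 : G.l e ∈ Y <;> by_cases h3 : G.r e ∈ Y <;> simp [h, h1, h3, h2]

theorem bd_eq_cut (h2 : ∀ x : M, x + x = 0) (B : Finset E) (ψ : E → M) (v : V) :
    bd G B ψ v = ∑ e ∈ G.cut B {v}, ψ e := by
  rw [← sum_bd' h2 B ψ {v} {v} (by simp), sum_singleton]

theorem push_apply (τ : Fin 10 → V) (b : Fin 10 → V5) (v : V) (c : Fin 5) :
    push τ b v c = push τ (fun i => b i c) v := by
  unfold push
  rw [Finset.sum_apply]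
  exact sum_congr rfl fun i _ => by split_ifs <;> rfl

theorem push_add (τ : Fin 10 → V) (b b' : Fin 10 → M) (v : V) :
    push τ (fun i => b i + b' i) v = push τ b v + push τ b' v := by
  unfold push
  rw [← sum_add_distrib]
  exact sum_congr rfl fun i _ => by split_ifs <;> simp

variable [Fintype V]

theorem sum_bd (h2 : ∀ x : M, x + x = 0) (B : Finset E) (ψ : E → M) (Y : Set V) :
    ∑ v ∈ univ.filter (· ∈ Y), bd G B ψ v = ∑ e ∈ G.cut B Y, ψ e :=
  sum_bd' h2 B ψ _ Y (by simp)

theorem sum_bd_univ (h2 : ∀ x : M, x + x = 0) (B : Finset E) (ψ : E → M) :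
    ∑ v, bd G B ψ v = 0 := by
  rw [sum_bd' h2 B ψ univ Set.univ (by simp)]
  exact sum_eq_zero fun e he => by simp [MG.cut] at he

/-- The labels of a cut add up to zero. -/
theorem sum_cut_zero (h2 : ∀ x : M, x + x = 0) {B : Finset E} {ψ : E → M}
    (h : ∀ v, bd G B ψ v = 0) (Y : Set V) : ∑ e ∈ G.cut B Y, ψ e = 0 := by
  rw [← sum_bd h2]
  exact sum_eq_zero fun v _ => h v

theorem bd_minor (A' B : Finset E) (ρ : V → V) (ψ : E → M) (x : V) :
    bd (G.minor A' ρ) B ψ x = ∑ v ∈ univ.filter (fun v => ρ v = x), bd G B ψ v := by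
  unfold bd
  rw [sum_comm]
  apply sum_congr rfl
  intro e _
  rw [sum_add_distrib, sum_ite_eq, sum_ite_eq]
  simp only [MG.minor, Function.comp, mem_filter, mem_univ, true_and]
  congr

omit [Fintype V] in
theorem fib_id (G : MG V E) : G.Fib id := fun u v h => by
  obtain rfl : u = v := h
  exact MG.Conn.refl _

omit [Fintype V] in
/-- A proper bridgeless edge set of a smallest counterexample has a double cover. -/
theorem MinC.sub (hG : MinC G) {B : Finset E} (hB : B ⊆ G.A) (hc : B.card < G.A.card)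
    (hb : ∀ Y : Set V, (G.cut B Y).card ≠ 1) :
    ∃ ψ : E → V5, (∀ e ∈ B, Q (ψ e)) ∧ ∀ v, bd G B ψ v = 0 :=
  hG.mn B id hB hc (fib_id G) hb

end Pool.Agent.MP_e6539c_co.C5
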