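import Mathlib.Data.Nat.Notation

/-! Executable part of the Kempe certificate checker (raw recursors, for kernel evaluation).

An entry is a number with ten lanes of ten bits: lanes `0..4` are the colour planes of a boundary
state, lanes `5..9` are sets of terminals on which the colours `0`, `1` can be switched. -/

set_option autoImplicit false

namespace Pool.Agent.MP_e6539c_co.C5.Cert

noncomputable section

def st {α : Type} (x : ℕ) (k : ℕ → α) : α := Nat.rec (k 0) (fun m _ => k m) (Nat.succ x)
def cd {α : Type} (b : Bool) (t f : α) : α := Bool.rec f t b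
def an (a b : Bool) : Bool := Bool.rec false b a
def tb (a i : ℕ) : Bool := Nat.beq (Nat.land (Nat.shiftRight a i) 1) 1

def ON : ℕ := 1239150146850664126585242625
def AL : ℕ := 1267650600228229401496703205375
def M0 : ℕ := 40891954846071916177313006625
def M1 : ℕ := 81783909692143832354626013250
def M2 : ℕ := 163567819384287664709252026500
/-- For each of 128 codes, five shifts of six bits. -/
def PT : ℕ := 5703614761237634615820037241900664720136628645595361362875715100896388806411041513103941009768383519280572636953275644047960582848475945434878767374464475519128484494080021973583233798535858380661251623780308812351154123206242892384987140693497427497355960463948765639164585376078081736247945865066195797868758164965434130329734054436371406731678670234047496640431691054893010378542662971321005137076892989198523994761039522564915029692279896878336101086364939005318270523148954430303893145630957260729399944409980854034454115362809144029381447437591109337336747627215085747055592439593518011556821880428599744700405983421315362884868969581897005075182627186198328708885374922740062913847243390666808833157384518506803696463670121960592358205439802659708092294742995458664801869960558660758840753352835890118466407585723427471119818651808173008349954747060864615983740986075292803166414726972275450501976121797138660589257153343653072608876921367443054590355586372577818542696846206143055586847981327400236597494589700273932937878234997354964696378834270599128767244326329565966451168808926546435554038746866954824318972029674573341252219516716243566019200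
/-- For each of the ten pairs of colours, two adjacent terminals with these colours. -/
def SR : ℕ := 9599376792221684629147834876501736984940118756518332147351704969165114242175299295054778400085106272714465066375542025689620048210322688642646019075

def lo (r : ℕ) : ℕ := Nat.mul (Nat.pred (Nat.pow 2 r)) ON
/-- Bit `i` of each lane moves to bit `i + r` modulo ten. -/
def rot (r Z : ℕ) : ℕ :=
  Nat.lor (Nat.land (Nat.shiftLeft Z r) (Nat.xor AL (lo r)))
    (Nat.land (Nat.shiftRight Z (Nat.sub 10 r)) (lo r))
/-- Bit `i` of each lane moves to bit `4 - i` modulo ten. -/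
def rfx (Z : ℕ) : ℕ :=
  Nat.lor (Nat.lor (Nat.land Z M2)
    (Nat.lor (Nat.shiftLeft (Nat.land Z M0) 4) (Nat.land (Nat.shiftRight Z 4) M0)))
    (Nat.lor (Nat.shiftLeft (Nat.land Z M1) 2) (Nat.land (Nat.shiftRight Z 2) M1))

/-- The differences of the five planes are `x, x, y, y, 0` with `x` in `S` and `y` in `T`. -/
def dif (S T d0 d1 d2 d3 d4 : ℕ) : Bool :=
  an (Nat.beq (Nat.land (Nat.lor (Nat.lor (Nat.xor d0 d1) (Nat.xor d2 d3)) d4) 1023) 0)
    (an (tb S (Nat.land d0 1023)) (tb T (Nat.land d2 1023)))

/-- Every column of the five planes has exactly two bits. -/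
def two (a : ℕ) : Bool :=
  st (Nat.shiftRight a 10) fun b => st (Nat.shiftRight a 20) fun c =>
  st (Nat.shiftRight a 30) fun d => st (Nat.shiftRight a 40) fun e =>
  st (Nat.xor a b) fun s1 => st (Nat.xor s1 c) fun s2 =>
    Nat.beq (Nat.land (Nat.lor (Nat.xor (Nat.xor s2 d) e)
      (Nat.xor (Nat.xor (Nat.xor (Nat.land a b) (Nat.land s1 c)) (Nat.xor (Nat.land s2 d) e))
        1023)) 1023) 0

def ext (Z S T Y : ℕ) : Bool :=
  an (two Y) (st (Nat.xor (Nat.xor Y (rot 1 Y)) Z) fun w =>
    dif S T w (Nat.shiftRight w 10) (Nat.shiftRight w 20) (Nat.shiftRight w 30)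
      (Nat.shiftRight w 40))

/-- All lanes of `M` are in `S`. -/
def mem (S : ℕ) (fuel : ℕ) : ℕ → Bool :=
  Nat.rec (motive := fun _ => ℕ → Bool) (fun _ => false)
    (fun _ ih M => cd (Nat.beq M 0) true
      (an (tb S (Nat.land M 1023)) (st (Nat.shiftRight M 10) ih))) fuel

def pl (B t k p : ℕ) : ℕ :=
  Nat.xor (Nat.shiftRight B (Nat.land (Nat.shiftRight t k) 63)) p

def cite (f : ℕ → ℕ) (n p0 p1 p2 p3 p4 S T s : ℕ) : Bool :=
  st (Nat.land (Nat.shiftRight s 1) 15) fun r =>
  st (Nat.land (Nat.shiftRight s 6) 127) fun k =>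
  st (Nat.land (Nat.shiftRight s 13) 65535) fun id =>
  an (an (Nat.ble r 9) (Nat.ble (Nat.succ id) n))
    (st (f id) fun B0 => st (cd (tb s 5) (rfx B0) B0) fun B1 => st (rot r B1) fun B =>
      st (Nat.shiftRight PT (Nat.mul 30 k)) fun t =>
      st (pl B t 0 p0) fun d0 => st (pl B t 12 p2) fun d2 =>
      an (dif S T d0 (pl B t 6 p1) d2 (pl B t 18 p3) (pl B t 24 p4))
        (st (Nat.shiftRight B 50)
          (mem (cd (Nat.ble k 11) S (cd (Nat.ble k 23) T 1)) 6)))

/-- The children of a branching node; the stream is threaded and `0` means failure. -/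
def kids (ih : ℕ → ℕ → ℕ → ℕ) (R T a s j : ℕ) : ℕ :=
  Nat.rec s (fun j acc => cd (tb R j)
    (st acc fun s' => st (Nat.pow 2 j) fun b => st (Nat.xor R b) fun R' =>
      st (Nat.lor T (Nat.shiftLeft T (Nat.add a b))) fun T' => ih R' T' s') acc) j

def node (f : ℕ → ℕ) (n p0 p1 p2 p3 p4 S fuel : ℕ) : ℕ → ℕ → ℕ → ℕ :=
  Nat.rec (motive := fun _ => ℕ → ℕ → ℕ → ℕ) (fun _ _ _ => 0)
    (fun _ ih R T s => cd (tb s 0)
      (cd (cite f n p0 p1 p2 p3 p4 S T s) (Nat.shiftRight s 29) 0)
      (cd (tb s 1)
        (cd (st (Nat.land (Nat.shiftRight s 2) 1125899906842623) (ext p0 S T))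
          (Nat.shiftRight s 52) 0)
        (st (Nat.land (Nat.shiftRight s 2) 15) fun i => cd (tb R i)
          (st (Nat.pow 2 i) fun a => st (Nat.xor R a) fun R' =>
            st (Nat.shiftRight s 6) fun s' => kids ih R' T a s' 10) 0))) fuel

/-- The span of the lanes of `M`, which must be disjoint; `0` means failure. -/
def spn (fuel : ℕ) : ℕ → ℕ → ℕ → ℕ :=
  Nat.rec (motive := fun _ => ℕ → ℕ → ℕ → ℕ) (fun _ _ S => S)
    (fun _ ih M R S => st (Nat.land M 1023) fun m => cd (Nat.beq (Nat.land m R) m)
      (st (Nat.shiftRight M 10) fun M' => st (Nat.xor R m) fun R' =>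
        st (Nat.lor S (Nat.shiftLeft S m)) fun S' => ih M' R' S') 0) fuel

def chk (f : ℕ → ℕ) (n Z p : ℕ) : Bool :=
  st (Nat.shiftRight Z 10) fun p1 => st (Nat.shiftRight Z 20) fun p2 =>
  st (Nat.shiftRight Z 30) fun p3 => st (Nat.shiftRight Z 40) fun p4 =>
  st (spn 5 (Nat.shiftRight Z 50) 1023 1) fun S =>
  st (Nat.land (Nat.xor p2 p3) 1023) fun R => Nat.ble 1 (node f n Z p1 p2 p3 p4 S 6 R 1 p)

/-- The entries `n, n+1, …, e-1` of the table are checked in order. -/
def run (f : ℕ → ℕ) (e : ℕ) (l : List ℕ) : ℕ → Bool :=
  List.rec (motive := fun _ => ℕ → Bool) (fun n => Nat.beq n e)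
    (fun p _ ih n => an (st (f n) fun Z => chk f n Z p) (st (Nat.succ n) ih)) l

def sr (d : ℕ) : ℕ := Nat.land (Nat.shiftRight SR (Nat.mul 50 (Nat.mod d 10))) 1125899906842623
/-- The start state whose pairs are given by the decimal digits of `m`. -/
def zt (m : ℕ) : ℕ :=
  Nat.lor (Nat.lor (sr 0) (Nat.shiftLeft (sr m) 2))
    (Nat.lor (Nat.lor (Nat.shiftLeft (sr (Nat.div m 10)) 4) (Nat.shiftLeft (sr (Nat.div m 100)) 6))
      (Nat.shiftLeft (sr (Nat.div m 1000)) 8))
def trun (f : ℕ → ℕ) (N e : ℕ) (l : List ℕ) : ℕ → Bool :=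
  List.rec (motive := fun _ => ℕ → Bool) (fun m => Nat.beq m e)
    (fun p _ ih m => an (st (zt m) fun Z => chk f N Z p) (st (Nat.succ m) ih)) l

/-- An entry of a chunk of the table. -/
def ent (c id : ℕ) : ℕ := Nat.land (Nat.shiftRight c (Nat.mul 100 (Nat.land id 4095))) AL

end

end Pool.Agent.MP_e6539c_co.C5.Cert
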