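import Mathlib.Data.Fin.VecNotation
import Pool.Agent.MP_e6539c_co.C5.Spec
import Pool.Agent.MP_e6539c_co.C5.CertDefs

/-! Meaning of the entries of the Kempe certificate and the statements of its soundness. -/

set_option autoImplicit false

namespace Pool.Agent.MP_e6539c_co.C5.Cert

/-- The ten bits of `Z` that start at bit `k`. -/
def vec (Z k : ℕ) : Fin 10 → ZMod 2 := fun i => if Z.testBit (k + i.1) then 1 else 0

/-- The state `s` has the colour planes of `Z`. -/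
def Has (X : KSys) (s : X.S) (Z : ℕ) : Prop := ∀ i c, X.b s i c = vec Z (10 * c.1) i

/-- The meaning of an entry. -/
def Lem (Z : ℕ) : Prop := ∀ (X : KSys) (s : X.S), Has X s Z →
  (∀ k < 5, X.K s 0 1 (vec Z (50 + 10 * k))) → X.Goal

/-- All members of the bit set `S` can be switched. -/
def Mem (X : KSys) (s : X.S) (c d : Fin 5) (S : ℕ) : Prop :=
  ∀ t, S.testBit t → X.K s c d (vec t 0)

def RotStmt : Prop := (∀ r ≤ 9, ∀ Z, Lem Z → Lem (rot r Z)) ∧ ∀ Z, Lem Z → Lem (rfx Z)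

/-- Two switches lead to the state whose planes differ by `d0, …, d4`. -/
def DifStmt : Prop := ∀ (X : KSys) (s : X.S) (S T d0 d1 d2 d3 d4 : ℕ), Mem X s 0 1 S →
  Mem X s 2 3 T → dif S T d0 d1 d2 d3 d4 = true →
  ∃ s', (∀ i c, X.b s' i c = X.b s i c + vec (![d0, d1, d2, d3, d4] c) 0 i) ∧ Mem X s' 0 1 S ∧
    Mem X s' 2 3 T

def ExtStmt : Prop := ∀ (X : KSys) (s : X.S) (Z S T Y : ℕ), Has X s Z → Mem X s 0 1 S →
  Mem X s 2 3 T → ext Z S T Y = true → X.Goal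

def CiteStmt : Prop := ∀ (f : ℕ → ℕ) (n : ℕ) (X : KSys) (s : X.S) (Z S T p : ℕ),
  (∀ id < n, Lem (f id)) → Has X s Z → Mem X s 0 1 S → Mem X s 2 3 T →
  cite f n Z (Z >>> 10) (Z >>> 20) (Z >>> 30) (Z >>> 40) S T p = true → X.Goal

def ChkStmt : Prop := ∀ (f : ℕ → ℕ) (n Z p : ℕ), (∀ id < n, Lem (f id)) → chk f n Z p = true →
  Lem Z

def RunStmt : Prop :=
  (∀ (f : ℕ → ℕ) (e : ℕ) (l : List ℕ) (n : ℕ), run f e l n = true → (∀ id < n, Lem (f id)) →
    ∀ id < e, Lem (f id)) ∧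
  ∀ (f : ℕ → ℕ) (N e : ℕ) (l : List ℕ) (n : ℕ), trun f N e l n = true → (∀ id < N, Lem (f id)) →
    (∀ m < n, Lem (zt m)) → ∀ m < e, Lem (zt m)

def TopStmt : Prop := (∀ m < 10000, Lem (zt m)) → KempeStmt

end Pool.Agent.MP_e6539c_co.C5.Cert
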