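import Mathlib.Data.Fintype.Perm
import Pool.Agent.MP_e6539c_co.C5.CertSpec

/-! Soundness of the citation step of the Kempe certificate. -/

set_option autoImplicit false

namespace Pool.Agent.MP_e6539c_co.C5

/-- The system with permuted colours. -/
def KSys.recol (X : KSys) (ρ : Equiv.Perm (Fin 5)) : KSys where
  S := X.S
  b s i c := X.b s i (ρ c)
  K s c d := X.K s (ρ c) (ρ d)
  sym _ _ _ _ h := X.sym _ _ _ _ h
  zero _ _ _ := X.zero _ _ _
  add _ _ _ _ _ h h' := X.add _ _ _ _ _ h h'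
  sw s c d Y h hK := by
    obtain ⟨s', h1, h2, h3⟩ := X.sw s (ρ c) (ρ d) Y (ρ.injective.ne h) hK
    refine ⟨s', fun i a => ?_, h2, fun c' d' Y' a1 a2 a3 a4 => h3 _ _ Y' (ρ.injective.ne a1)
      (ρ.injective.ne a2) (ρ.injective.ne a3) (ρ.injective.ne a4)⟩
    simpa only [ρ.injective.eq_iff] using h1 i (ρ a)
  mat s c d h := X.mat s (ρ c) (ρ d) (ρ.injective.ne h)

theorem Q.comp {x : V5} (h : Q x) (ρ : Equiv.Perm (Fin 5)) : Q fun c => x (ρ c) :=
  (Finset.card_bijective ρ ρ.bijective (by simp)).trans h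

theorem KSys.goal_of_recol {X : KSys} {ρ : Equiv.Perm (Fin 5)} (h : (X.recol ρ).Goal) :
    X.Goal := by
  obtain ⟨s, y, h1, h2⟩ := h
  refine ⟨s, fun i c => y i (ρ.symm c), fun i => (h1 i).comp ρ.symm, fun i => funext fun c => ?_⟩
  have := congrFun (h2 i) (ρ.symm c)
  rwa [show (X.recol ρ).b s (i + 1) (ρ.symm c) = X.b s (i + 1) (ρ (ρ.symm c)) from rfl,
    ρ.apply_symm_apply] at this

namespace Cert

namespace CiteRow

theorem st_eq {α : Type} (x : ℕ) (k : ℕ → α) : st x k = k x := rfl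

theorem cd_eq {α : Type} (b : Bool) (t f : α) : cd b t f = if b = true then t else f := by
  cases b <;> rfl

theorem an_iff (a b : Bool) : an a b = true ↔ a = true ∧ b = true := by
  cases a <;> cases b <;> simp [an]

theorem tb_eq (a i : ℕ) : tb a i = a.testBit i := by
  unfold tb Nat.testBit
  rw [Nat.land_eq, Nat.shiftRight_eq, Nat.and_comm, Nat.one_and_eq_mod_two]
  rcases Nat.mod_two_eq_zero_or_one (a >>> i) with h | h <;> rw [h] <;> rfl

theorem vec_zero (k : ℕ) : vec 0 k = 0 := funext fun i => by simp [vec]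

theorem vec_shift (Z m k : ℕ) : vec (Z >>> m) k = vec Z (m + k) := funext fun i => by
  simp only [vec, Nat.testBit_shiftRight, Nat.add_assoc]

theorem vec_xor (a b : ℕ) (i : Fin 10) : vec (a ^^^ b) 0 i = vec a 0 i + vec b 0 i := by
  simp only [vec, Nat.testBit_xor]
  cases a.testBit (0 + i.1) <;> cases b.testBit (0 + i.1) <;> rfl

theorem vec_and (M : ℕ) : vec (M &&& 1023) 0 = vec M 0 := funext fun i => by
  have : ∀ i : Fin 10, Nat.testBit 1023 (0 + i.1) = true := by decide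
  simp only [vec, Nat.testBit_and, this, Bool.and_true]

theorem mem_lane (S fuel : ℕ) : ∀ M, mem S fuel M = true → ∀ k,
    vec M (10 * k) = 0 ∨ ∃ t, S.testBit t ∧ vec M (10 * k) = vec t 0 := by
  induction fuel with
  | zero => exact fun M h => absurd h Bool.false_ne_true
  | succ n ih =>
    intro M h k
    have h' : cd (Nat.beq M 0) true (an (tb S (M &&& 1023)) (mem S n (M >>> 10))) = true := h
    rw [cd_eq] at h'
    split_ifs at h' with h0
    · obtain rfl := Nat.eq_of_beq_eq_true h0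
      exact Or.inl (vec_zero _)
    · rw [an_iff, tb_eq] at h'
      cases k with
      | zero => exact Or.inr ⟨_, h'.1, (vec_and M).symm⟩
      | succ k =>
        have := ih _ h'.2 k
        rwa [vec_shift, show 10 + 10 * k = 10 * (k + 1) by ring] at this

set_option synthInstance.maxSize 2000 in
theorem table : ∀ k < 128, ∃ ρ : Equiv.Perm (Fin 5),
    (∀ c : Fin 5, ((PT >>> (30 * k)) >>> (6 * (ρ c).1)) &&& 63 = 10 * c.1) ∧
    (k ≤ 11 → (ρ 0 = 0 ∧ ρ 1 = 1) ∨ (ρ 0 = 1 ∧ ρ 1 = 0)) ∧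
    (¬ k ≤ 11 → k ≤ 23 → (ρ 0 = 2 ∧ ρ 1 = 3) ∨ (ρ 0 = 3 ∧ ρ 1 = 2)) := by decide +kernel

theorem core (hD : DifStmt) {X : KSys} {s : X.S} {Z S T B k : ℕ} (hB : Lem B) (hk : k < 128)
    (hZ : Has X s Z) (hS : Mem X s 0 1 S) (hT : Mem X s 2 3 T)
    (h1 : dif S T (pl B (PT >>> (30 * k)) 0 Z) (pl B (PT >>> (30 * k)) 6 (Z >>> 10))
      (pl B (PT >>> (30 * k)) 12 (Z >>> 20)) (pl B (PT >>> (30 * k)) 18 (Z >>> 30))
      (pl B (PT >>> (30 * k)) 24 (Z >>> 40)) = true)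
    (h2 : mem (cd (Nat.ble k 11) S (cd (Nat.ble k 23) T 1)) 6 (B >>> 50) = true) : X.Goal := by
  obtain ⟨ρ, r1, r2, r3⟩ := table k hk
  generalize PT >>> (30 * k) = t at h1 r1
  obtain ⟨s', a1, a2, a3⟩ := hD X s S T _ _ _ _ _ hS hT h1
  have e : ∀ c : Fin 5, ![pl B t 0 Z, pl B t 6 (Z >>> 10), pl B t 12 (Z >>> 20),
      pl B t 18 (Z >>> 30), pl B t 24 (Z >>> 40)] c =
        (B >>> ((t >>> (6 * c.1)) &&& 63)) ^^^ (Z >>> (10 * c.1)) := fun c => by
    fin_cases c <;> rfl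
  refine KSys.goal_of_recol (ρ := ρ) (hB _ s' (fun i c => ?_) fun j _ => ?_)
  · refine (a1 i (ρ c)).trans ?_
    rw [e, r1, vec_xor, vec_shift, vec_shift, hZ, Nat.add_zero, Nat.add_zero, add_comm, add_assoc,
      CharTwo.add_self_eq_zero, add_zero]
  · change X.K s' (ρ 0) (ρ 1) _
    rw [← vec_shift]
    rcases mem_lane _ _ _ h2 j with h | ⟨u, hu, h⟩ <;> rw [h]
    · exact X.zero _ _ _
    simp only [cd_eq, Nat.ble_eq] at hu
    split_ifs at hu with c1 c2
    · rcases r2 c1 with ⟨p, q⟩ | ⟨p, q⟩ <;> rw [p, q]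
      exacts [a2 u hu, X.sym _ _ _ _ (a2 u hu)]
    · rcases r3 c1 c2 with ⟨p, q⟩ | ⟨p, q⟩ <;> rw [p, q]
      exacts [a3 u hu, X.sym _ _ _ _ (a3 u hu)]
    · rw [Nat.testBit_one_eq_true_iff_self_eq_zero.1 hu, vec_zero]
      exact X.zero _ _ _

end CiteRow

open CiteRow in
theorem citeS (hR : RotStmt) (hD : DifStmt) : CiteStmt := by
  intro f n X s Z S T p hf hZ hS hT h
  simp only [cite, st_eq, an_iff, Nat.ble_eq] at h
  obtain ⟨⟨h1, h2⟩, h3, h4⟩ := h
  refine core hD (hR.1 _ h1 _ ?_) (Nat.lt_succ_of_le Nat.and_le_right) hZ hS hT h3 h4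
  rw [cd_eq]
  split_ifs
  exacts [hR.2 _ (hf _ h2), hf _ h2]

end Cert

end Pool.Agent.MP_e6539c_co.C5
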