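import Pool.Agent.MP_e6539c_co.C5.CertSpec

/-! Soundness of the difference test and of the extension test of the Kempe certificate. -/

set_option autoImplicit false

namespace Pool.Agent.MP_e6539c_co.C5.Cert

namespace DifL

/-- A truth value as a residue. -/
def bt (b : Bool) : ZMod 2 := if b then 1 else 0

theorem vec_eq (Z k : ℕ) (i : Fin 10) : vec Z k i = bt (Z.testBit (k + i.1)) := rfl

theorem an_eq (a b : Bool) : an a b = (a && b) := by cases a <;> rfl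

theorem tb_eq (a i : ℕ) : tb a i = a.testBit i := by
  have h : tb a i = Nat.beq ((a >>> i) &&& 1) 1 := rfl
  rw [h, Nat.and_one_is_mod, Nat.testBit_eq_decide_div_mod_eq, Nat.shiftRight_eq_div_pow]
  rcases Nat.mod_two_eq_zero_or_one (a / 2 ^ i) with h | h <;> rw [h] <;> rfl

theorem low (i : ℕ) (hi : i < 10) : (1023 : ℕ).testBit i = true := by
  have : (1023 : ℕ) = 2 ^ 10 - 1 := by norm_num
  rw [this, Nat.testBit_two_pow_sub_one]
  simpa using hi

theorem vec_low (d : ℕ) : vec (d &&& 1023) 0 = vec d 0 := by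
  funext i
  simp only [vec, Nat.testBit_and, zero_add, low i.1 i.2, Bool.and_true]

/-- A vanishing low part means that the ten low bits vanish. -/
theorem bit_zero {a : ℕ} (h : Nat.beq (a &&& 1023) 0 = true) (i : ℕ) (hi : i < 10) :
    a.testBit i = false := by
  have h1 : a &&& 1023 = 0 := Nat.eq_of_beq_eq_true h
  have h2 := congrArg (fun z => z.testBit i) h1
  simpa only [Nat.testBit_and, low i hi, Bool.and_true, Nat.zero_testBit] using h2

theorem lo_bit : ∀ l < 10, ∀ j < 10, (lo 1).testBit (10 * l + j) = decide (j = 0) ∧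
    AL.testBit (10 * l + j) = true := by
  decide +kernel

theorem rot_bit (Y l : ℕ) (hl : l < 10) (i : Fin 10) :
    (rot 1 Y).testBit (10 * l + (i + 1 : Fin 10).1) = Y.testBit (10 * l + i.1) := by
  have h : rot 1 Y = ((Y <<< 1) &&& (AL ^^^ lo 1)) ||| ((Y >>> 9) &&& lo 1) := rfl
  obtain ⟨h1, h2⟩ := lo_bit l hl _ (i + 1 : Fin 10).2
  rw [h, Nat.testBit_or, Nat.testBit_and, Nat.testBit_and, Nat.testBit_xor, h1, h2,
    Nat.testBit_shiftLeft, Nat.testBit_shiftRight]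
  have hv : (i + 1 : Fin 10).1 = (i.1 + 1) % 10 := rfl
  have hi := i.2
  rw [hv]
  by_cases h9 : i.1 = 9
  · have e1 : 9 + (10 * l + (i.1 + 1) % 10) = 10 * l + i.1 := by omega
    have e2 : (i.1 + 1) % 10 = 0 := by omega
    rw [e1, e2]
    simp
  · have e1 : 10 * l + (i.1 + 1) % 10 - 1 = 10 * l + i.1 := by omega
    have e2 : ¬ (i.1 + 1) % 10 = 0 := by omega
    have e3 : 10 * l + (i.1 + 1) % 10 ≥ 1 := by omega
    rw [e1]
    simp [e2, e3]

theorem q_of : ∀ a b c d e : Bool,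
    ((((a ^^ b) ^^ c) ^^ d) ^^ e ||
      ((((a && b) ^^ ((a ^^ b) && c)) ^^ ((((a ^^ b) ^^ c) && d) ^^ e)) ^^ true)) = false →
    Q (fun k => bt (![a, b, c, d, e] k)) := by
  decide

theorem two_q {Y : ℕ} (h : two Y = true) (i : Fin 10) : Q (fun c => vec Y (10 * c.1) i) := by
  have h0 : Nat.beq ((((((Y ^^^ Y >>> 10) ^^^ Y >>> 20) ^^^ Y >>> 30) ^^^ Y >>> 40) |||
      ((((Y &&& Y >>> 10) ^^^ ((Y ^^^ Y >>> 10) &&& Y >>> 20)) ^^^
        ((((Y ^^^ Y >>> 10) ^^^ Y >>> 20) &&& Y >>> 30) ^^^ Y >>> 40)) ^^^ 1023)) &&& 1023) 0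
      = true := h
  have h1 := bit_zero h0 i.1 i.2
  simp only [Nat.testBit_or, Nat.testBit_xor, Nat.testBit_and, Nat.testBit_shiftRight,
    low i.1 i.2] at h1
  have h2 := q_of _ _ _ _ _ h1
  have e : (fun c : Fin 5 => vec Y (10 * c.1) i) = fun k => bt (![Y.testBit i.1,
      Y.testBit (10 + i.1), Y.testBit (20 + i.1), Y.testBit (30 + i.1), Y.testBit (40 + i.1)] k)
      := by
    funext c
    rw [vec_eq]
    fin_cases c <;> simp
  rw [e]
  exact h2

theorem xor3 : ∀ a b c : Bool, bt c + bt ((a ^^ b) ^^ c) = bt b + bt a := by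
  decide

theorem five : ∀ a0 a1 a2 a3 a4 : Bool, (((a0 ^^ a1) || (a2 ^^ a3)) || a4) = false →
    ∀ c : Fin 5, ((if c = 0 ∨ c = 1 then bt a0 else 0) + if c = 2 ∨ c = 3 then bt a2 else 0) =
      bt (![a0, a1, a2, a3, a4] c) := by
  decide

end DifL

open DifL

theorem difS : DifStmt := by
  intro X s S T d0 d1 d2 d3 d4 hS hT h
  have h0 : an (Nat.beq ((((d0 ^^^ d1) ||| (d2 ^^^ d3)) ||| d4) &&& 1023) 0)
      (an (tb S (d0 &&& 1023)) (tb T (d2 &&& 1023))) = true := h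
  rw [an_eq, an_eq, tb_eq, tb_eq, Bool.and_eq_true, Bool.and_eq_true] at h0
  obtain ⟨hz, h1, h2⟩ := h0
  have k1 := hS _ h1
  have k2 := hT _ h2
  rw [vec_low] at k1 k2
  obtain ⟨s1, b1, p1, q1⟩ := X.sw s 0 1 _ (by decide) k1
  obtain ⟨s2, b2, p2, q2⟩ := X.sw s1 2 3 _ (by decide)
    (q1 2 3 _ (by decide) (by decide) (by decide) (by decide) k2)
  refine ⟨s2, fun i c => ?_, fun t ht => ?_, fun t ht => ?_⟩
  · have hb := bit_zero hz i.1 i.2
    simp only [Nat.testBit_or, Nat.testBit_xor] at hb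
    rw [b2, b1, add_assoc, vec_eq, vec_eq, vec_eq, zero_add, five _ _ _ _ _ hb c]
    fin_cases c <;> rfl
  · exact q2 0 1 _ (by decide) (by decide) (by decide) (by decide) (p1 _ (hS t ht))
  · exact p2 _ (q1 2 3 _ (by decide) (by decide) (by decide) (by decide) (hT t ht))

theorem extS (hD : DifStmt) : ExtStmt := by
  intro X s Z S T Y hZ hS hT h
  have h0 : an (two Y) (dif S T ((Y ^^^ rot 1 Y) ^^^ Z) (((Y ^^^ rot 1 Y) ^^^ Z) >>> 10)
      (((Y ^^^ rot 1 Y) ^^^ Z) >>> 20) (((Y ^^^ rot 1 Y) ^^^ Z) >>> 30)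
      (((Y ^^^ rot 1 Y) ^^^ Z) >>> 40)) = true := h
  rw [an_eq, Bool.and_eq_true] at h0
  obtain ⟨s', hb, -, -⟩ := hD X s S T _ _ _ _ _ hS hT h0.2
  refine ⟨s', fun i c => vec Y (10 * c.1) i, two_q h0.1, fun i => ?_⟩
  funext c
  have e : vec (![(Y ^^^ rot 1 Y) ^^^ Z, ((Y ^^^ rot 1 Y) ^^^ Z) >>> 10,
      ((Y ^^^ rot 1 Y) ^^^ Z) >>> 20, ((Y ^^^ rot 1 Y) ^^^ Z) >>> 30,
      ((Y ^^^ rot 1 Y) ^^^ Z) >>> 40] c) 0 (i + 1) =
      vec ((Y ^^^ rot 1 Y) ^^^ Z) (10 * c.1) (i + 1) := by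
    rw [vec_eq, vec_eq, zero_add]
    generalize (Y ^^^ rot 1 Y) ^^^ Z = w
    fin_cases c <;> simp [Nat.testBit_shiftRight]
  have hc : c.1 < 10 := by have := c.2; omega
  rw [hb, hZ, e, Pi.add_apply]
  simp only [vec_eq, Nat.testBit_xor, rot_bit Y c.1 hc i]
  exact xor3 _ _ _

end Pool.Agent.MP_e6539c_co.C5.Cert
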