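import Pool.Agent.MP_e6539c_co.C5.CertSpec

/-! Rotations and the reflection of an entry of the Kempe certificate. -/

set_option autoImplicit false

namespace Pool.Agent.MP_e6539c_co.C5.Cert

namespace Rot

/-- The system with the terminals renamed. -/
def ren (X : KSys) (σ : Equiv.Perm (Fin 10)) : KSys where
  S := X.S
  b s i := X.b s (σ i)
  K s c d Y := X.K s c d fun j => Y (σ.symm j)
  sym s c d _ := X.sym s c d _
  zero := X.zero
  add s c d _ _ := X.add s c d _ _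
  sw s c d Y h k := by
    obtain ⟨s', h1, h2, h3⟩ := X.sw s c d _ h k
    exact ⟨s', fun i a => by simpa using h1 (σ i) a, fun _ => h2 _, fun c' d' _ => h3 c' d' _⟩
  mat s c d h := by
    obtain ⟨μ, hμ⟩ := X.mat s c d h
    refine ⟨fun i => σ.symm (μ (σ i)), fun i k => ?_⟩
    obtain ⟨h1, h2, h3, h4⟩ := hμ _ k
    refine ⟨fun e => h1 (σ.symm_apply_eq.1 e), by simp [h2], by simpa using h3, ?_⟩
    simpa only [Equiv.symm_apply_eq, Equiv.apply_symm_apply] using h4

theorem step (σ : Equiv.Perm (Fin 10)) (h : ∀ b : Fin 10 → V5, Ext (fun i => b (σ i)) → Ext b)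
    {Z Z' : ℕ} (e : ∀ l < 10, ∀ i, Z'.testBit (10 * l + (σ i).1) = Z.testBit (10 * l + i.1))
    (hZ : Lem Z) : Lem Z' := fun X s h1 h2 => by
  obtain ⟨s', k⟩ := hZ (ren X σ) s
    (fun i c => (h1 (σ i) c).trans (by simp only [vec, e c (by omega)])) fun k hk => by
      refine (congrArg (X.K s 0 1) (funext fun j => ?_)).mp (h2 k hk)
      have := e (5 + k) (by omega) (σ.symm j)
      rw [σ.apply_symm_apply, Nat.mul_add] at this
      simp only [vec, this]
  exact ⟨s', h _ k⟩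

theorem c0 : ∀ r ≤ 9, ∀ q < 100, (lo r).testBit q = decide (q % 10 < r) := by decide +kernel

theorem c1 : ∀ q < 100, AL.testBit q = true ∧ M0.testBit q = decide (q % 5 = 0) ∧
    M1.testBit q = decide (q % 5 = 1) ∧ M2.testBit q = decide (q % 5 = 2) := by decide +kernel

theorem rfx_bit (Z : ℕ) {l i : ℕ} (hl : l < 10) (hi : i < 10) :
    (rfx Z).testBit (10 * l + (14 - i) % 10) = Z.testBit (10 * l + i) := by
  obtain ⟨q, hq⟩ : ∃ q, q = 10 * l + (14 - i) % 10 := ⟨_, rfl⟩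
  have q0 := c1 q (by omega)
  have q2 := c1 (q - 2) (by omega)
  have q4 := c1 (q - 4) (by omega)
  change ((Z &&& M2 ||| ((Z &&& M0) <<< 4 ||| Z >>> 4 &&& M0)) |||
    ((Z &&& M1) <<< 2 ||| Z >>> 2 &&& M1)).testBit _ = _
  rw [← hq, Bool.eq_iff_iff]
  simp only [Nat.testBit_or, Nat.testBit_and, Nat.testBit_shiftLeft, Nat.testBit_shiftRight, q0, q2,
    q4, Bool.or_eq_true, Bool.and_eq_true, decide_eq_true_eq]
  constructor
  · rintro ((⟨a, b⟩ | ⟨c, a, b⟩ | ⟨a, b⟩) | ⟨c, a, b⟩ | ⟨a, b⟩) <;>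
      exact (congrArg Z.testBit (by omega)).trans a
  · intro a
    have k : ∀ j, j = 10 * l + i → Z.testBit j = true := fun j e => e ▸ a
    rcases (by omega : q % 5 = 0 ∨ q % 5 = 1 ∨ q % 5 = 2 ∨ q % 5 = 3 ∨ q % 5 = 4) with
      b | b | b | b | b
    · exact .inl (.inr (.inr ⟨k _ (by omega), b⟩))
    · exact .inr (.inr ⟨k _ (by omega), b⟩)
    · exact .inl (.inl ⟨k _ (by omega), b⟩)
    · exact .inr (.inl ⟨by omega, k _ (by omega), by omega⟩)
    · exact .inl (.inr (.inl ⟨by omega, k _ (by omega), by omega⟩))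

end Rot

open Rot

theorem rot_bit {r l i : ℕ} (Z : ℕ) (hr : r ≤ 9) (hl : l < 10) (hi : i < 10) :
    (rot r Z).testBit (10 * l + (i + r) % 10) = Z.testBit (10 * l + i) := by
  obtain ⟨q, hq⟩ : ∃ q, q = 10 * l + (i + r) % 10 := ⟨_, rfl⟩
  change (Z <<< r &&& (AL ^^^ lo r) ||| Z >>> (10 - r) &&& lo r).testBit _ = _
  rw [← hq]
  simp only [Nat.testBit_or, Nat.testBit_and, Nat.testBit_xor, Nat.testBit_shiftLeft,
    Nat.testBit_shiftRight, c0 r hr q (by omega), (c1 q (by omega)).1]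
  by_cases h : q % 10 < r
  · simp [h, show 10 - r + q = 10 * l + i by omega]
  · simp [h, show q - r = 10 * l + i by omega, show r ≤ q by omega]

theorem rotS : RotStmt := by
  refine ⟨fun r hr Z => ?_, fun Z => step (Equiv.subLeft 4) (fun b ⟨y, h1, h2⟩ =>
      ⟨fun i => y (3 - i), fun _ => h1 _, fun i => ?_⟩) fun l hl i => ?_⟩
  · let a : Fin 10 := ⟨r, by omega⟩
    refine step (Equiv.addRight a) (fun b ⟨y, h1, h2⟩ => ⟨fun i => y (i - a), fun _ => h1 _,
      fun i => ?_⟩) fun l hl i => rot_bit Z hr hl i.2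
    simpa [add_right_comm, add_sub_right_comm] using h2 (i - a)
  · have e : ∀ i : Fin 10, 4 - (2 - i + 1) = i + 1 ∧ 2 - i + 1 = 3 - i ∧ 3 - (i + 1) = 2 - i := by
      decide
    have := h2 (2 - i)
    simp only [Equiv.subLeft_apply, (e i).1] at this
    simp only [this, (e i).2.1, (e i).2.2, add_comm (y (2 - i))]
  · have e : ∀ i : Fin 10, (Equiv.subLeft 4 i).1 = (14 - i.1) % 10 := by decide
    rw [e, rfx_bit Z hl i.2]

end Pool.Agent.MP_e6539c_co.C5.Cert
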