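import Pool.Agent.MP_e6539c_co.C5.CertSpec

/-! The start states of the Kempe certificate. -/

set_option autoImplicit false

namespace Pool.Agent.MP_e6539c_co.C5.Cert

namespace Top

/-- The system with renamed colours. -/
def ren (X : KSys) (ρ : Equiv.Perm (Fin 5)) : KSys where
  S := X.S
  b s i c := X.b s i (ρ c)
  K s c d := X.K s (ρ c) (ρ d)
  sym s _ _ := X.sym s _ _
  zero s _ _ := X.zero s _ _
  add s _ _ := X.add s _ _
  sw s c d Y h k := by
    obtain ⟨s', h1, h2, h3⟩ := X.sw s _ _ Y (ρ.injective.ne h) k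
    refine ⟨s', fun i a => ?_, h2, fun c' d' Y' e1 e2 e3 e4 => h3 _ _ Y' (ρ.injective.ne e1)
      (ρ.injective.ne e2) (ρ.injective.ne e3) (ρ.injective.ne e4)⟩
    rw [h1 i (ρ a)]
    simp only [ρ.injective.eq_iff]
  mat s _ _ h := X.mat s _ _ (ρ.injective.ne h)

theorem q_ren {v : V5} (ρ : Equiv.Perm (Fin 5)) (h : Q v) : Q fun c => v (ρ c) :=
  (Finset.card_equiv ρ (by simp)).trans h

theorem back {X : KSys} {ρ : Equiv.Perm (Fin 5)} (h : (ren X ρ).Goal) : X.Goal := by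
  obtain ⟨s, y, h1, h2⟩ := h
  refine ⟨s, fun i c => y i (ρ.symm c), fun i => q_ren ρ.symm (h1 i), fun i => funext fun c => ?_⟩
  have := congrFun (h2 i) (ρ.symm c)
  change X.b s (i + 1) (ρ (ρ.symm c)) = _ at this
  rw [ρ.apply_symm_apply] at this
  exact this

/-- Pair number `d`. -/
def pv (d : ℕ) (c : Fin 5) : ZMod 2 := if (sr d).testBit (10 * c.1) then 1 else 0

theorem f0 : ∀ v : V5, Q v → ∃ a b : Fin 5, ∀ c, v ((Equiv.swap 0 a * Equiv.swap 1 b) c) = pv 0 c := by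
  decide +kernel

theorem f1 : ∀ v : V5, Q v → ∃ d < 10, ∀ c, v c = pv d c := by
  decide +kernel

theorem f2 : ∀ d < 10, ∀ k < 5, ∀ c < 10, ∀ i < 10, (sr d <<< (2 * k)).testBit (10 * c + i) =
    (decide (i / 2 = k ∧ c < 5) && (sr d).testBit (10 * c)) := by
  decide +kernel

theorem bit {D : ℕ → ℕ} (hD : ∀ k, D k < 10) (h0 : D 0 = 0) {c i : ℕ} (hc : c < 10) (hi : i < 10) :
    (zt (D 1 + 10 * D 2 + 100 * D 3 + 1000 * D 4)).testBit (10 * c + i) =
      (decide (c < 5) && (sr (D (i / 2))).testBit (10 * c)) := by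
  have e : ∀ m d, m % 10 = d → d < 10 → sr m = sr d := fun m d h k => by
    change Nat.land (SR >>> (50 * (m % 10))) _ = Nat.land (SR >>> (50 * (d % 10))) _
    rw [h, Nat.mod_eq_of_lt k]
  have a1 := hD 1
  have a2 := hD 2
  have a3 := hD 3
  have a4 := hD 4
  generalize hm : D 1 + 10 * D 2 + 100 * D 3 + 1000 * D 4 = m
  change ((sr 0 <<< (2 * 0) ||| sr m <<< (2 * 1)) ||| ((sr (m / 10) <<< (2 * 2) |||
    sr (m / 100) <<< (2 * 3)) ||| sr (m / 1000) <<< (2 * 4))).testBit _ = _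
  rw [e m _ (by omega) a1, e (m / 10) _ (by omega) a2, e (m / 100) _ (by omega) a3,
    e (m / 1000) _ (by omega) a4]
  simp only [Nat.testBit_or]
  rw [f2 _ (by omega) 0 (by omega) c hc i hi, f2 _ a1 1 (by omega) c hc i hi,
    f2 _ a2 2 (by omega) c hc i hi, f2 _ a3 3 (by omega) c hc i hi, f2 _ a4 4 (by omega) c hc i hi]
  have : i / 2 < 5 := by omega
  generalize i / 2 = k at this ⊢
  obtain rfl | rfl | rfl | rfl | rfl : k = 0 ∨ k = 1 ∨ k = 2 ∨ k = 3 ∨ k = 4 := by omega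
  all_goals simp [h0]

end Top

open Top in
theorem topS : TopStmt := by
  intro h X s x hx hb
  obtain ⟨a, b, h0⟩ := f0 _ (hx 0)
  generalize Equiv.swap 0 a * Equiv.swap 1 b = ρ at h0
  choose d d1 d2 using fun k => f1 _ (q_ren ρ (hx k))
  obtain ⟨D, hD, e0, e1⟩ : ∃ D : ℕ → ℕ, (∀ k, D k < 10) ∧ D 0 = 0 ∧
      ∀ (k : Fin 5) c, x k (ρ c) = pv (D k.1) c := by
    refine ⟨fun k => if g : 0 < k ∧ k < 5 then d ⟨k, g.2⟩ else 0, fun k => ?_, rfl, fun k c => ?_⟩
    · beta_reduce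
      split_ifs
      exacts [d1 _, by omega]
    · rcases Nat.eq_zero_or_pos k.1 with g | g
      · obtain rfl : k = 0 := Fin.ext g
        exact h0 c
      · beta_reduce
        rw [dif_pos ⟨g, k.2⟩]
        exact d2 k c
  have a1 := hD 1
  have a2 := hD 2
  have a3 := hD 3
  have a4 := hD 4
  refine back (ρ := ρ) (h (D 1 + 10 * D 2 + 100 * D 3 + 1000 * D 4) (by omega) _ s
    (fun i c => ?_) fun k hk => ?_)
  · change X.b s i (ρ c) = ite (Nat.testBit _ _ = true) 1 0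
    rw [hb, e1, bit hD e0 (by omega) i.2, decide_eq_true c.2]
    rfl
  · have : vec (zt (D 1 + 10 * D 2 + 100 * D 3 + 1000 * D 4)) (50 + 10 * k) = 0 := funext fun i => by
      change ite (Nat.testBit _ _ = true) 1 0 = 0
      rw [show 50 + 10 * k = 10 * (5 + k) by omega, bit hD e0 (by omega) i.2,
        decide_eq_false (by omega)]
      rfl
    rw [this]
    exact KSys.zero _ _ _ _

end Pool.Agent.MP_e6539c_co.C5.Cert
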