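import Pool.Agent.MP_e6539c_co.C5.CertR0
import Pool.Agent.MP_e6539c_co.C5.CertR1
import Pool.Agent.MP_e6539c_co.C5.CertR2
import Pool.Agent.MP_e6539c_co.C5.CertR3
import Pool.Agent.MP_e6539c_co.C5.CertR4
import Pool.Agent.MP_e6539c_co.C5.CertR5
import Pool.Agent.MP_e6539c_co.C5.CertR6
import Pool.Agent.MP_e6539c_co.C5.CertR7
import Pool.Agent.MP_e6539c_co.C5.CertRot
import Pool.Agent.MP_e6539c_co.C5.CertDif
import Pool.Agent.MP_e6539c_co.C5.CertCite
import Pool.Agent.MP_e6539c_co.C5.CertSound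
import Pool.Agent.MP_e6539c_co.C5.CertTop

/-! The Kempe certificate is valid. -/

set_option autoImplicit false

namespace Pool.Agent.MP_e6539c_co.C5.Cert

theorem runAll : RunStmt := runS (chkS (extS difS) (citeS rotS difS))

theorem h0 : ∀ id < 0, Lem (tab id) := fun _ h => absurd h (Nat.not_lt_zero _)
theorem h413 : ∀ id < 413, Lem (tab id) := runAll.1 _ _ _ _ r0 h0
theorem h839 : ∀ id < 839, Lem (tab id) := runAll.1 _ _ _ _ r413 h413
theorem h1244 : ∀ id < 1244, Lem (tab id) := runAll.1 _ _ _ _ r839 h839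
theorem h1673 : ∀ id < 1673, Lem (tab id) := runAll.1 _ _ _ _ r1244 h1244
theorem h2038 : ∀ id < 2038, Lem (tab id) := runAll.1 _ _ _ _ r1673 h1673
theorem h2416 : ∀ id < 2416, Lem (tab id) := runAll.1 _ _ _ _ r2038 h2038
theorem h2778 : ∀ id < 2778, Lem (tab id) := runAll.1 _ _ _ _ r2416 h2416
theorem h3184 : ∀ id < 3184, Lem (tab id) := runAll.1 _ _ _ _ r2778 h2778
theorem h3555 : ∀ id < 3555, Lem (tab id) := runAll.1 _ _ _ _ r3184 h3184
theorem h3927 : ∀ id < 3927, Lem (tab id) := runAll.1 _ _ _ _ r3555 h3555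
theorem h4306 : ∀ id < 4306, Lem (tab id) := runAll.1 _ _ _ _ r3927 h3927
theorem h4650 : ∀ id < 4650, Lem (tab id) := runAll.1 _ _ _ _ r4306 h4306
theorem h5012 : ∀ id < 5012, Lem (tab id) := runAll.1 _ _ _ _ r4650 h4650
theorem h5393 : ∀ id < 5393, Lem (tab id) := runAll.1 _ _ _ _ r5012 h5012
theorem h5784 : ∀ id < 5784, Lem (tab id) := runAll.1 _ _ _ _ r5393 h5393
theorem h6224 : ∀ id < 6224, Lem (tab id) := runAll.1 _ _ _ _ r5784 h5784
theorem h6576 : ∀ id < 6576, Lem (tab id) := runAll.1 _ _ _ _ r6224 h6224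
theorem h6933 : ∀ id < 6933, Lem (tab id) := runAll.1 _ _ _ _ r6576 h6576
theorem h7276 : ∀ id < 7276, Lem (tab id) := runAll.1 _ _ _ _ r6933 h6933
theorem h7647 : ∀ id < 7647, Lem (tab id) := runAll.1 _ _ _ _ r7276 h7276
theorem h8027 : ∀ id < 8027, Lem (tab id) := runAll.1 _ _ _ _ r7647 h7647
theorem h8447 : ∀ id < 8447, Lem (tab id) := runAll.1 _ _ _ _ r8027 h8027
theorem h8818 : ∀ id < 8818, Lem (tab id) := runAll.1 _ _ _ _ r8447 h8447
theorem h9170 : ∀ id < 9170, Lem (tab id) := runAll.1 _ _ _ _ r8818 h8818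
theorem h9523 : ∀ id < 9523, Lem (tab id) := runAll.1 _ _ _ _ r9170 h9170
theorem h9912 : ∀ id < 9912, Lem (tab id) := runAll.1 _ _ _ _ r9523 h9523
theorem h10304 : ∀ id < 10304, Lem (tab id) := runAll.1 _ _ _ _ r9912 h9912
theorem h10655 : ∀ id < 10655, Lem (tab id) := runAll.1 _ _ _ _ r10304 h10304
theorem h10962 : ∀ id < 10962, Lem (tab id) := runAll.1 _ _ _ _ r10655 h10655
theorem h11354 : ∀ id < 11354, Lem (tab id) := runAll.1 _ _ _ _ r10962 h10962
theorem h11739 : ∀ id < 11739, Lem (tab id) := runAll.1 _ _ _ _ r11354 h11354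
theorem h12036 : ∀ id < 12036, Lem (tab id) := runAll.1 _ _ _ _ r11739 h11739
theorem h12397 : ∀ id < 12397, Lem (tab id) := runAll.1 _ _ _ _ r12036 h12036
theorem h12746 : ∀ id < 12746, Lem (tab id) := runAll.1 _ _ _ _ r12397 h12397
theorem h13107 : ∀ id < 13107, Lem (tab id) := runAll.1 _ _ _ _ r12746 h12746
theorem h13498 : ∀ id < 13498, Lem (tab id) := runAll.1 _ _ _ _ r13107 h13107
theorem h13866 : ∀ id < 13866, Lem (tab id) := runAll.1 _ _ _ _ r13498 h13498
theorem h14204 : ∀ id < 14204, Lem (tab id) := runAll.1 _ _ _ _ r13866 h13866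
theorem h14514 : ∀ id < 14514, Lem (tab id) := runAll.1 _ _ _ _ r14204 h14204
theorem h14839 : ∀ id < 14839, Lem (tab id) := runAll.1 _ _ _ _ r14514 h14514
theorem h15153 : ∀ id < 15153, Lem (tab id) := runAll.1 _ _ _ _ r14839 h14839
theorem h15424 : ∀ id < 15424, Lem (tab id) := runAll.1 _ _ _ _ r15153 h15153
theorem h15727 : ∀ id < 15727, Lem (tab id) := runAll.1 _ _ _ _ r15424 h15424
theorem h16029 : ∀ id < 16029, Lem (tab id) := runAll.1 _ _ _ _ r15727 h15727
theorem h16318 : ∀ id < 16318, Lem (tab id) := runAll.1 _ _ _ _ r16029 h16029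
theorem h16566 : ∀ id < 16566, Lem (tab id) := runAll.1 _ _ _ _ r16318 h16318
theorem h16903 : ∀ id < 16903, Lem (tab id) := runAll.1 _ _ _ _ r16566 h16566
theorem h17209 : ∀ id < 17209, Lem (tab id) := runAll.1 _ _ _ _ r16903 h16903
theorem h17582 : ∀ id < 17582, Lem (tab id) := runAll.1 _ _ _ _ r17209 h17209
theorem h17928 : ∀ id < 17928, Lem (tab id) := runAll.1 _ _ _ _ r17582 h17582
theorem h18245 : ∀ id < 18245, Lem (tab id) := runAll.1 _ _ _ _ r17928 h17928
theorem h18606 : ∀ id < 18606, Lem (tab id) := runAll.1 _ _ _ _ r18245 h18245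
theorem h18922 : ∀ id < 18922, Lem (tab id) := runAll.1 _ _ _ _ r18606 h18606
theorem h19222 : ∀ id < 19222, Lem (tab id) := runAll.1 _ _ _ _ r18922 h18922
theorem h19592 : ∀ id < 19592, Lem (tab id) := runAll.1 _ _ _ _ r19222 h19222
theorem h19929 : ∀ id < 19929, Lem (tab id) := runAll.1 _ _ _ _ r19592 h19592
theorem h20251 : ∀ id < 20251, Lem (tab id) := runAll.1 _ _ _ _ r19929 h19929
theorem h20510 : ∀ id < 20510, Lem (tab id) := runAll.1 _ _ _ _ r20251 h20251
theorem h20838 : ∀ id < 20838, Lem (tab id) := runAll.1 _ _ _ _ r20510 h20510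
theorem h21148 : ∀ id < 21148, Lem (tab id) := runAll.1 _ _ _ _ r20838 h20838
theorem h21499 : ∀ id < 21499, Lem (tab id) := runAll.1 _ _ _ _ r21148 h21148
theorem h21873 : ∀ id < 21873, Lem (tab id) := runAll.1 _ _ _ _ r21499 h21499
theorem h22170 : ∀ id < 22170, Lem (tab id) := runAll.1 _ _ _ _ r21873 h21873
theorem h22438 : ∀ id < 22438, Lem (tab id) := runAll.1 _ _ _ _ r22170 h22170
theorem h22756 : ∀ id < 22756, Lem (tab id) := runAll.1 _ _ _ _ r22438 h22438
theorem h23053 : ∀ id < 23053, Lem (tab id) := runAll.1 _ _ _ _ r22756 h22756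
theorem h23415 : ∀ id < 23415, Lem (tab id) := runAll.1 _ _ _ _ r23053 h23053
theorem h23730 : ∀ id < 23730, Lem (tab id) := runAll.1 _ _ _ _ r23415 h23415
theorem h24020 : ∀ id < 24020, Lem (tab id) := runAll.1 _ _ _ _ r23730 h23730
theorem h24349 : ∀ id < 24349, Lem (tab id) := runAll.1 _ _ _ _ r24020 h24020
theorem h24702 : ∀ id < 24702, Lem (tab id) := runAll.1 _ _ _ _ r24349 h24349
theorem h25020 : ∀ id < 25020, Lem (tab id) := runAll.1 _ _ _ _ r24702 h24702
theorem h25317 : ∀ id < 25317, Lem (tab id) := runAll.1 _ _ _ _ r25020 h25020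
theorem h25687 : ∀ id < 25687, Lem (tab id) := runAll.1 _ _ _ _ r25317 h25317
theorem h25975 : ∀ id < 25975, Lem (tab id) := runAll.1 _ _ _ _ r25687 h25687
theorem h26292 : ∀ id < 26292, Lem (tab id) := runAll.1 _ _ _ _ r25975 h25975
theorem h26588 : ∀ id < 26588, Lem (tab id) := runAll.1 _ _ _ _ r26292 h26292
theorem h26846 : ∀ id < 26846, Lem (tab id) := runAll.1 _ _ _ _ r26588 h26588
theorem h27096 : ∀ id < 27096, Lem (tab id) := runAll.1 _ _ _ _ r26846 h26846
theorem h27316 : ∀ id < 27316, Lem (tab id) := runAll.1 _ _ _ _ r27096 h27096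
theorem h27649 : ∀ id < 27649, Lem (tab id) := runAll.1 _ _ _ _ r27316 h27316
theorem h27971 : ∀ id < 27971, Lem (tab id) := runAll.1 _ _ _ _ r27649 h27649
theorem h28294 : ∀ id < 28294, Lem (tab id) := runAll.1 _ _ _ _ r27971 h27971
theorem h28533 : ∀ id < 28533, Lem (tab id) := runAll.1 _ _ _ _ r28294 h28294
theorem h28832 : ∀ id < 28832, Lem (tab id) := runAll.1 _ _ _ _ r28533 h28533
theorem h29097 : ∀ id < 29097, Lem (tab id) := runAll.1 _ _ _ _ r28832 h28832
theorem h29351 : ∀ id < 29351, Lem (tab id) := runAll.1 _ _ _ _ r29097 h29097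
theorem h29576 : ∀ id < 29576, Lem (tab id) := runAll.1 _ _ _ _ r29351 h29351
theorem h29826 : ∀ id < 29826, Lem (tab id) := runAll.1 _ _ _ _ r29576 h29576
theorem h30087 : ∀ id < 30087, Lem (tab id) := runAll.1 _ _ _ _ r29826 h29826
theorem h30417 : ∀ id < 30417, Lem (tab id) := runAll.1 _ _ _ _ r30087 h30087
theorem h30766 : ∀ id < 30766, Lem (tab id) := runAll.1 _ _ _ _ r30417 h30417
theorem h31029 : ∀ id < 31029, Lem (tab id) := runAll.1 _ _ _ _ r30766 h30766
theorem h31276 : ∀ id < 31276, Lem (tab id) := runAll.1 _ _ _ _ r31029 h31029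
theorem h31550 : ∀ id < 31550, Lem (tab id) := runAll.1 _ _ _ _ r31276 h31276
theorem h31898 : ∀ id < 31898, Lem (tab id) := runAll.1 _ _ _ _ r31550 h31550
theorem h32179 : ∀ id < 32179, Lem (tab id) := runAll.1 _ _ _ _ r31898 h31898
theorem h32457 : ∀ id < 32457, Lem (tab id) := runAll.1 _ _ _ _ r32179 h32179
theorem h32761 : ∀ id < 32761, Lem (tab id) := runAll.1 _ _ _ _ r32457 h32457
theorem h33040 : ∀ id < 33040, Lem (tab id) := runAll.1 _ _ _ _ r32761 h32761
theorem h33360 : ∀ id < 33360, Lem (tab id) := runAll.1 _ _ _ _ r33040 h33040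
theorem h33670 : ∀ id < 33670, Lem (tab id) := runAll.1 _ _ _ _ r33360 h33360
theorem h33906 : ∀ id < 33906, Lem (tab id) := runAll.1 _ _ _ _ r33670 h33670
theorem h34209 : ∀ id < 34209, Lem (tab id) := runAll.1 _ _ _ _ r33906 h33906
theorem h34497 : ∀ id < 34497, Lem (tab id) := runAll.1 _ _ _ _ r34209 h34209
theorem h34747 : ∀ id < 34747, Lem (tab id) := runAll.1 _ _ _ _ r34497 h34497
theorem h35056 : ∀ id < 35056, Lem (tab id) := runAll.1 _ _ _ _ r34747 h34747
theorem h35310 : ∀ id < 35310, Lem (tab id) := runAll.1 _ _ _ _ r35056 h35056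
theorem h35594 : ∀ id < 35594, Lem (tab id) := runAll.1 _ _ _ _ r35310 h35310
theorem h35912 : ∀ id < 35912, Lem (tab id) := runAll.1 _ _ _ _ r35594 h35594
theorem h36206 : ∀ id < 36206, Lem (tab id) := runAll.1 _ _ _ _ r35912 h35912
theorem h36503 : ∀ id < 36503, Lem (tab id) := runAll.1 _ _ _ _ r36206 h36206
theorem h36807 : ∀ id < 36807, Lem (tab id) := runAll.1 _ _ _ _ r36503 h36503
theorem h37097 : ∀ id < 37097, Lem (tab id) := runAll.1 _ _ _ _ r36807 h36807
theorem h37421 : ∀ id < 37421, Lem (tab id) := runAll.1 _ _ _ _ r37097 h37097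
theorem h37708 : ∀ id < 37708, Lem (tab id) := runAll.1 _ _ _ _ r37421 h37421
theorem h37976 : ∀ id < 37976, Lem (tab id) := runAll.1 _ _ _ _ r37708 h37708
theorem h38283 : ∀ id < 38283, Lem (tab id) := runAll.1 _ _ _ _ r37976 h37976
theorem h38572 : ∀ id < 38572, Lem (tab id) := runAll.1 _ _ _ _ r38283 h38283
theorem h38905 : ∀ id < 38905, Lem (tab id) := runAll.1 _ _ _ _ r38572 h38572
theorem h39203 : ∀ id < 39203, Lem (tab id) := runAll.1 _ _ _ _ r38905 h38905
theorem h39442 : ∀ id < 39442, Lem (tab id) := runAll.1 _ _ _ _ r39203 h39203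
theorem h39727 : ∀ id < 39727, Lem (tab id) := runAll.1 _ _ _ _ r39442 h39442
theorem h40027 : ∀ id < 40027, Lem (tab id) := runAll.1 _ _ _ _ r39727 h39727
theorem h40293 : ∀ id < 40293, Lem (tab id) := runAll.1 _ _ _ _ r40027 h40027
theorem h40553 : ∀ id < 40553, Lem (tab id) := runAll.1 _ _ _ _ r40293 h40293
theorem h40861 : ∀ id < 40861, Lem (tab id) := runAll.1 _ _ _ _ r40553 h40553
theorem h41142 : ∀ id < 41142, Lem (tab id) := runAll.1 _ _ _ _ r40861 h40861
theorem h41412 : ∀ id < 41412, Lem (tab id) := runAll.1 _ _ _ _ r41142 h41142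
theorem h41673 : ∀ id < 41673, Lem (tab id) := runAll.1 _ _ _ _ r41412 h41412
theorem h41975 : ∀ id < 41975, Lem (tab id) := runAll.1 _ _ _ _ r41673 h41673
theorem h42262 : ∀ id < 42262, Lem (tab id) := runAll.1 _ _ _ _ r41975 h41975
theorem h42564 : ∀ id < 42564, Lem (tab id) := runAll.1 _ _ _ _ r42262 h42262
theorem h42848 : ∀ id < 42848, Lem (tab id) := runAll.1 _ _ _ _ r42564 h42564
theorem h43177 : ∀ id < 43177, Lem (tab id) := runAll.1 _ _ _ _ r42848 h42848
theorem h43468 : ∀ id < 43468, Lem (tab id) := runAll.1 _ _ _ _ r43177 h43177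
theorem h43784 : ∀ id < 43784, Lem (tab id) := runAll.1 _ _ _ _ r43468 h43468
theorem h44020 : ∀ id < 44020, Lem (tab id) := runAll.1 _ _ _ _ r43784 h43784
theorem h44281 : ∀ id < 44281, Lem (tab id) := runAll.1 _ _ _ _ r44020 h44020
theorem h44564 : ∀ id < 44564, Lem (tab id) := runAll.1 _ _ _ _ r44281 h44281
theorem h44847 : ∀ id < 44847, Lem (tab id) := runAll.1 _ _ _ _ r44564 h44564
theorem h45123 : ∀ id < 45123, Lem (tab id) := runAll.1 _ _ _ _ r44847 h44847
theorem h45320 : ∀ id < 45320, Lem (tab id) := runAll.1 _ _ _ _ r45123 h45123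
theorem h45616 : ∀ id < 45616, Lem (tab id) := runAll.1 _ _ _ _ r45320 h45320
theorem h45843 : ∀ id < 45843, Lem (tab id) := runAll.1 _ _ _ _ r45616 h45616
theorem h46117 : ∀ id < 46117, Lem (tab id) := runAll.1 _ _ _ _ r45843 h45843
theorem h46449 : ∀ id < 46449, Lem (tab id) := runAll.1 _ _ _ _ r46117 h46117
theorem h46699 : ∀ id < 46699, Lem (tab id) := runAll.1 _ _ _ _ r46449 h46449
theorem h46965 : ∀ id < 46965, Lem (tab id) := runAll.1 _ _ _ _ r46699 h46699
theorem h47194 : ∀ id < 47194, Lem (tab id) := runAll.1 _ _ _ _ r46965 h46965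
theorem h47473 : ∀ id < 47473, Lem (tab id) := runAll.1 _ _ _ _ r47194 h47194
theorem h47626 : ∀ id < 47626, Lem (tab id) := runAll.1 _ _ _ _ r47473 h47473
theorem g0 : ∀ m < 0, Lem (zt m) := fun _ h => absurd h (Nat.not_lt_zero _)
theorem g1530 : ∀ m < 1530, Lem (zt m) := runAll.2 _ _ _ _ _ t0 h47626 g0
theorem g3011 : ∀ m < 3011, Lem (zt m) := runAll.2 _ _ _ _ _ t1530 h47626 g1530
theorem g4481 : ∀ m < 4481, Lem (zt m) := runAll.2 _ _ _ _ _ t3011 h47626 g3011
theorem g5953 : ∀ m < 5953, Lem (zt m) := runAll.2 _ _ _ _ _ t4481 h47626 g4481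
theorem g7440 : ∀ m < 7440, Lem (zt m) := runAll.2 _ _ _ _ _ t5953 h47626 g5953
theorem g8966 : ∀ m < 8966, Lem (zt m) := runAll.2 _ _ _ _ _ t7440 h47626 g7440
theorem g10000 : ∀ m < 10000, Lem (zt m) := runAll.2 _ _ _ _ _ t8966 h47626 g8966

theorem kempe : KempeStmt := topS g10000

end Pool.Agent.MP_e6539c_co.C5.Cert
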