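import Pool.Agent.MP_e6539c_co.C5.CertSpec

/-! Soundness of the tree check and of the runs over the table. -/

set_option autoImplicit false

namespace Pool.Agent.MP_e6539c_co.C5.Cert

namespace ChkM

theorem st_eq {α : Type} (x : ℕ) (k : ℕ → α) : st x k = k x := rfl

theorem an_eq (a b : Bool) : an a b = (a && b) := by cases a <;> rfl

theorem tb_eq (a i : ℕ) : tb a i = a.testBit i := by
  have h : tb a i = Nat.beq ((a >>> i) &&& 1) 1 := rfl
  rw [h, Nat.testBit, Nat.and_one_is_mod, Nat.one_and_eq_mod_two]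
  rcases Nat.mod_two_eq_zero_or_one (a >>> i) with e | e <;> rw [e] <;> rfl

theorem cd_ne {b : Bool} {t f : ℕ} (h : cd b t f ≠ 0) :
    (b = true ∧ t ≠ 0) ∨ (b = false ∧ f ≠ 0) := by
  cases b
  · exact Or.inr ⟨rfl, h⟩
  · exact Or.inl ⟨rfl, h⟩

theorem cd_one {b : Bool} {t : ℕ} (h : cd b t 0 ≠ 0) : b = true ∧ t ≠ 0 :=
  (cd_ne h).resolve_right fun k => k.2 rfl

theorem add_xor : ∀ (u m : ℕ), u &&& m = 0 → u + m = u ^^^ m := by
  intro u
  induction u using Nat.strong_induction_on with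
  | _ u ih =>
    intro m h
    rcases Nat.eq_zero_or_pos u with rfl | hu
    · simp
    have h1 := ih (u / 2) (by omega) (m / 2) (by rw [← Nat.and_div_two, h])
    rw [← Nat.xor_div_two] at h1
    have h2 : ¬ (u % 2 = 1 ∧ m % 2 = 1) := by
      rw [← Nat.and_mod_two_eq_one, h]
      decide
    have h3 := @Nat.xor_mod_two_eq_one u m
    omega

theorem vec_xor (u m : ℕ) : vec (u ^^^ m) 0 = vec u 0 + vec m 0 := by
  funext i
  simp only [vec, Pi.add_apply, Nat.testBit_xor]
  cases u.testBit (0 + i) <;> cases m.testBit (0 + i) <;> decide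

/-- The members of `S` avoid `R` and can be switched. -/
def Inv (X : KSys) (s : X.S) (c d : Fin 5) (S R : ℕ) : Prop :=
  ∀ t, S.testBit t → t &&& R = 0 ∧ X.K s c d (vec t 0)

variable {X : KSys} {s : X.S} {c d : Fin 5}

theorem Inv.one (R : ℕ) : Inv X s c d 1 R := by
  intro t ht
  obtain rfl : t = 0 := by simpa [Nat.testBit_one_eq_true_iff_self_eq_zero] using ht
  refine ⟨by simp, ?_⟩
  have : vec 0 0 = 0 := by
    funext i
    simp [vec]
  rw [this]
  exact X.zero s c d

theorem Inv.step {S R m : ℕ} (h : Inv X s c d S R) (hm : m &&& R = m) (hK : X.K s c d (vec m 0)) :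
    Inv X s c d (S ||| S <<< m) (R ^^^ m) := by
  have key : ∀ u, u &&& R = 0 → u &&& m = 0 ∧ u &&& (R ^^^ m) = 0 ∧
      (u ^^^ m) &&& (R ^^^ m) = 0 := by
    intro u hu
    refine ⟨?_, ?_, ?_⟩ <;>
    · refine Nat.eq_of_testBit_eq fun i => ?_
      have a := congrArg (·.testBit i) hu
      have b := congrArg (·.testBit i) hm
      simp only [Nat.testBit_and, Nat.testBit_xor, Nat.zero_testBit] at a b ⊢
      revert a b
      cases u.testBit i <;> cases R.testBit i <;> cases m.testBit i <;> decide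
  intro t ht
  rw [Nat.testBit_or, Nat.testBit_shiftLeft, Bool.or_eq_true, Bool.and_eq_true] at ht
  rcases ht with ht | ⟨h1, ht⟩
  · exact ⟨(key t (h t ht).1).2.1, (h t ht).2⟩
  · obtain ⟨a, b⟩ := h _ ht
    have e : t = (t - m) ^^^ m := by
      rw [← add_xor _ _ (key _ a).1]
      have : m ≤ t := by simpa using h1
      omega
    rw [e]
    exact ⟨(key _ a).2.2, vec_xor _ _ ▸ X.add s c d _ _ b hK⟩

theorem spn_mem (fuel : ℕ) : ∀ M R S, Inv X s c d S R →
    (∀ k < fuel, X.K s c d (vec M (10 * k))) → Mem X s c d (spn fuel M R S) := by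
  induction fuel with
  | zero => exact fun M R S h _ t ht => (h t ht).2
  | succ n ih =>
    intro M R S h hK
    have e : spn (n + 1) M R S = cd (Nat.beq ((M &&& 1023) &&& R) (M &&& 1023))
      (spn n (M >>> 10) (R ^^^ (M &&& 1023)) (S ||| S <<< (M &&& 1023))) 0 := rfl
    rw [e]
    cases hb : Nat.beq ((M &&& 1023) &&& R) (M &&& 1023)
    · intro t ht
      exact absurd ht (by simp [cd])
    · refine ih _ _ _ (h.step (Nat.eq_of_beq_eq_true hb) ?_) fun k hk => ?_
      · have : vec (M &&& 1023) 0 = vec M (10 * 0) := by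
          funext i
          have : Nat.testBit 1023 i = true := by revert i; decide
          simp [vec, this]
        rw [this]
        exact hK 0 (by omega)
      · have : vec (M >>> 10) (10 * k) = vec M (10 * (k + 1)) := by
          funext i
          simp only [vec, Nat.testBit_shiftRight]
          rw [show 10 + (10 * k + i) = 10 * (k + 1) + i by omega]
        rw [this]
        exact hK _ (by omega)

theorem kids_succ (ih : ℕ → ℕ → ℕ → ℕ) (R T a p j : ℕ) : kids ih R T a p (j + 1) =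
    cd (tb R j) (ih (R ^^^ 2 ^ j) (T ||| T <<< (a + 2 ^ j)) (kids ih R T a p j))
      (kids ih R T a p j) := rfl

theorem kids_ne {ih : ℕ → ℕ → ℕ → ℕ} (h0 : ∀ R T, ih R T 0 = 0) (R T a p n : ℕ)
    (h : kids ih R T a p n ≠ 0) : p ≠ 0 ∧ ∀ j < n, R.testBit j →
      ∃ p', ih (R ^^^ 2 ^ j) (T ||| T <<< (a + 2 ^ j)) p' ≠ 0 := by
  induction n with
  | zero => exact ⟨h, fun j hj => absurd hj (by omega)⟩
  | succ n k =>
    rw [kids_succ, tb_eq] at h
    have h1 : kids ih R T a p n ≠ 0 := by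
      rcases cd_ne h with u | u
      · exact fun e => u.2 (by rw [e, h0])
      · exact u.2
    refine ⟨(k h1).1, fun j hj hb => ?_⟩
    rcases Nat.lt_succ_iff_lt_or_eq.1 hj with hj | rfl
    · exact (k h1).2 j hj hb
    · rw [hb] at h
      exact ⟨_, h⟩

theorem node_succ (f : ℕ → ℕ) (n p0 p1 p2 p3 p4 S fuel R T p : ℕ) :
    node f n p0 p1 p2 p3 p4 S (fuel + 1) R T p = cd (tb p 0)
      (cd (cite f n p0 p1 p2 p3 p4 S T p) (p >>> 29) 0)
      (cd (tb p 1) (cd (ext p0 S T ((p >>> 2) &&& 1125899906842623)) (p >>> 52) 0)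
        (cd (tb R ((p >>> 2) &&& 15))
          (kids (node f n p0 p1 p2 p3 p4 S fuel) (R ^^^ 2 ^ ((p >>> 2) &&& 15)) T
            (2 ^ ((p >>> 2) &&& 15)) (p >>> 6) 10) 0)) := rfl

theorem node_zero (f : ℕ → ℕ) (n p0 p1 p2 p3 p4 S fuel : ℕ) :
    ∀ R T, node f n p0 p1 p2 p3 p4 S fuel R T 0 = 0 := by
  induction fuel with
  | zero => exact fun _ _ => rfl
  | succ k ih =>
    intro R T
    by_contra h
    rw [node_succ, tb_eq, tb_eq, Nat.zero_testBit, Nat.zero_testBit] at h
    exact (kids_ne ih _ _ _ _ _ (cd_one h).2).1 (by simp)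

theorem node_goal (hE : ExtStmt) (hC : CiteStmt) {f : ℕ → ℕ} {n Z S : ℕ}
    (hf : ∀ id < n, Lem (f id)) (hZ : Has X s Z) (hS : Mem X s 0 1 S) {μ : Fin 10 → Fin 10}
    (hμ : ∀ i, X.b s i 2 ≠ X.b s i 3 → μ i ≠ i ∧ μ (μ i) = i ∧ X.b s (μ i) 2 ≠ X.b s (μ i) 3 ∧
      X.K s 2 3 (fun j => if j = i ∨ j = μ i then 1 else 0)) (fuel : ℕ) :
    ∀ R T p, (∀ j, R.testBit j → j < 10) →
      (∀ j : Fin 10, R.testBit j → X.b s j 2 ≠ X.b s j 3 ∧ R.testBit (μ j)) → Inv X s 2 3 T R →
      node f n Z (Z >>> 10) (Z >>> 20) (Z >>> 30) (Z >>> 40) S fuel R T p ≠ 0 → X.Goal := by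
  induction fuel with
  | zero => exact fun _ _ _ _ _ _ h => absurd rfl h
  | succ k ih =>
    intro R T p h1 h2 hT h
    have mT : Mem X s 2 3 T := fun t ht => (hT t ht).2
    rw [node_succ] at h
    rcases cd_ne h with h | h
    · exact hC f n X s Z S T p hf hZ hS mT (cd_one h.2).1
    rcases cd_ne h.2 with h | h
    · exact hE X s Z S T _ hZ hS mT (cd_one h.2).1
    obtain ⟨hb, h⟩ := cd_one h.2
    rw [tb_eq] at hb
    generalize (p >>> 2) &&& 15 = i at hb h
    obtain ⟨i, rfl⟩ : ∃ j : Fin 10, j.1 = i := ⟨⟨i, h1 i hb⟩, rfl⟩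
    obtain ⟨a1, a2⟩ := h2 i hb
    obtain ⟨b1, b2, -, b4⟩ := hμ i a1
    have ne : (μ i).1 ≠ i.1 := fun e => b1 (Fin.ext e)
    obtain ⟨p', h⟩ := (kids_ne (node_zero _ _ _ _ _ _ _ _ _) _ _ _ _ _ h).2 (μ i) (μ i).2
      (by simp [a2, ne.symm])
    have bit : ∀ j, (2 ^ i.1 ^^^ 2 ^ (μ i).1).testBit j = decide (j = i.1 ∨ j = (μ i).1) := by
      intro j
      rw [Nat.testBit_xor, Nat.testBit_two_pow, Nat.testBit_two_pow]
      rw [Bool.eq_iff_iff]
      simp only [Bool.xor_iff_ne, ne_eq, decide_eq_decide, decide_eq_true_eq]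
      omega
    rw [add_xor _ _ (Nat.eq_of_testBit_eq fun j => by
      simp only [Nat.testBit_and, Nat.testBit_two_pow, Nat.zero_testBit, Bool.and_eq_false_imp,
        decide_eq_true_eq, decide_eq_false_iff_not]
      omega), Nat.xor_assoc] at h
    have out : ∀ j, (R ^^^ (2 ^ i.1 ^^^ 2 ^ (μ i).1)).testBit j ↔
        R.testBit j ∧ j ≠ i.1 ∧ j ≠ (μ i).1 := by
      intro j
      rw [Nat.testBit_xor, bit]
      by_cases u : j = i.1
      · simp [u, hb]
      by_cases v : j = (μ i).1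
      · simp [v, a2]
      simp [u, v]
    refine ih _ _ p' (fun j hj => h1 j ((out j).1 hj).1) (fun j hj => ?_) (hT.step ?_ ?_) h
    · obtain ⟨c1, c2, c3⟩ := (out j).1 hj
      obtain ⟨d1, d2⟩ := h2 j c1
      have e := (hμ j d1).2.1
      refine ⟨d1, (out _).2 ⟨d2, fun u => c3 ?_, fun u => c2 ?_⟩⟩
      · rw [← Fin.ext u, e]
      · rw [← e, Fin.ext u, b2]
    · refine Nat.eq_of_testBit_eq fun j => ?_
      rw [Nat.testBit_and, bit]
      by_cases u : j = i.1
      · simp [u, hb]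
      by_cases v : j = (μ i).1
      · simp [v, a2]
      simp [u, v]
    · convert b4 using 1
      funext j
      simp [vec, bit, Fin.ext_iff]

end ChkM

open ChkM

theorem chkS (hE : ExtStmt) (hC : CiteStmt) : ChkStmt := by
  intro f n Z p hf h X s hZ hK
  obtain ⟨μ, hμ⟩ := X.mat s 2 3 (by decide)
  have e : chk f n Z p = Nat.ble 1 (node f n Z (Z >>> 10) (Z >>> 20) (Z >>> 30) (Z >>> 40)
    (spn 5 (Z >>> 50) 1023 1) 6 (((Z >>> 20) ^^^ (Z >>> 30)) &&& 1023) 1 p) := rfl
  rw [e, Nat.ble_eq] at h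
  have bit : ∀ j : Fin 10, (((Z >>> 20) ^^^ (Z >>> 30)) &&& 1023).testBit j ↔
      X.b s j 2 ≠ X.b s j 3 := by
    intro j
    have : Nat.testBit 1023 j = true := by revert j; decide
    rw [hZ, hZ, Nat.testBit_and, this, Nat.testBit_xor, Nat.testBit_shiftRight,
      Nat.testBit_shiftRight]
    change _ ↔ (if Z.testBit (20 + j) then (1 : ZMod 2) else 0) ≠
      if Z.testBit (30 + j) then 1 else 0
    cases Z.testBit (20 + j) <;> cases Z.testBit (30 + j) <;> decide
  refine node_goal hE hC hf hZ (spn_mem 5 (Z >>> 50) 1023 1 (Inv.one _) fun k hk => ?_) hμ 6 _ 1 p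
    (fun j hj => ?_) (fun j hj => ⟨(bit j).1 hj, (bit _).2 (hμ j ((bit j).1 hj)).2.2.1⟩)
    (Inv.one _) (Nat.one_le_iff_ne_zero.1 h)
  · convert hK k hk using 1
    funext i
    simp only [vec, Nat.testBit_shiftRight, Nat.add_assoc]
  · rw [Nat.testBit_and, Bool.and_eq_true, show 1023 = 2 ^ 10 - 1 from rfl,
      Nat.testBit_two_pow_sub_one] at hj
    simpa using hj.2

theorem runS (h : ChkStmt) : RunStmt := by
  refine ⟨fun f e l => ?_, fun f N e l => ?_⟩
  · induction l with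
    | nil => exact fun n k hf => Nat.eq_of_beq_eq_true k ▸ hf
    | cons p l ih =>
      intro n k hf
      have k' : an (st (f n) fun Z => chk f n Z p) (st (Nat.succ n) (run f e l)) = true := k
      rw [an_eq, st_eq, st_eq, Bool.and_eq_true] at k'
      refine ih (n + 1) k'.2 fun id hid => ?_
      rcases Nat.lt_succ_iff_lt_or_eq.1 hid with hid | rfl
      · exact hf id hid
      · exact h f _ _ p hf k'.1
  · induction l with
    | nil => exact fun n k _ hz => Nat.eq_of_beq_eq_true k ▸ hz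
    | cons p l ih =>
      intro n k hf hz
      have k' : an (st (zt n) fun Z => chk f N Z p) (st (Nat.succ n) (trun f N e l)) = true := k
      rw [an_eq, st_eq, st_eq, Bool.and_eq_true] at k'
      refine ih (n + 1) k'.2 hf fun id hid => ?_
      rcases Nat.lt_succ_iff_lt_or_eq.1 hid with hid | rfl
      · exact hz id hid
      · exact h f _ _ p hf k'.1

end Pool.Agent.MP_e6539c_co.C5.Cert
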