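import Mathlib.Data.Nat.Bitwise
import Pool.Agent.MP_e6539c_co.C5.CertCite

/-! Soundness of the tree recursion of the Kempe certificate. -/

set_option autoImplicit false

namespace Pool.Agent.MP_e6539c_co.C5.Cert

open CiteRow

namespace ChkA

theorem add_xor (a : ℕ) : ∀ b : ℕ, a &&& b = 0 → a + b = a ^^^ b := by
  induction a using Nat.binaryRec with
  | zero => intro b _; simp
  | bit x a ih =>
    intro b
    induction b using Nat.binaryRec with
    | zero => intro _; simp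
    | bit y b _ =>
      intro h
      rw [Nat.land_bit, Nat.bit_eq_zero_iff] at h
      rw [Nat.xor_bit, ← ih b h.1]
      cases x <;> cases y <;> simp [Nat.bit] at h ⊢ <;> omega

/-- The invariant of a span. -/
def Inv (P : ℕ → Prop) (R S : ℕ) : Prop := ∀ t, S.testBit t → t &&& R = 0 ∧ P t

theorem Inv.step {P : ℕ → Prop} (hP : ∀ a b, P a → P b → P (a ^^^ b)) {R R' S m : ℕ}
    (h : Inv P R S) (hm : m &&& R = m) (h1 : R' &&& R = R') (h2 : m &&& R' = 0) (pm : P m) :
    Inv P R' (S ||| S <<< m) := by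
  have k : ∀ t, t &&& R = 0 → t &&& R' = 0 := fun t a => by
    rw [← h1, Nat.and_comm R', ← Nat.and_assoc, a, Nat.zero_and]
  intro t ht
  rw [Nat.testBit_or, Bool.or_eq_true, Nat.testBit_shiftLeft, Bool.and_eq_true,
    decide_eq_true_iff] at ht
  rcases ht with ht | ⟨a, b⟩
  · exact ⟨k t (h t ht).1, (h t ht).2⟩
  · obtain ⟨c, d⟩ := h _ b
    have e0 : (t - m) &&& (m &&& R) = 0 := by
      rw [Nat.and_comm m, ← Nat.and_assoc, c, Nat.zero_and]
    have e : t = (t - m) ^^^ m := by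
      rw [hm] at e0
      rw [← add_xor _ _ e0]
      omega
    rw [e]
    exact ⟨by rw [Nat.and_xor_distrib_right, k _ c, h2]; rfl, hP _ _ d pm⟩

theorem inv_one {P : ℕ → Prop} (h : P 0) (R : ℕ) : Inv P R 1 := fun t ht => by
  have : t = 0 := by simpa [Nat.testBit_one_eq_true_iff_self_eq_zero] using ht
  subst this
  exact ⟨Nat.zero_and _, h⟩

theorem kadd (X : KSys) (s : X.S) (c d : Fin 5) (a b : ℕ) (h : X.K s c d (vec a 0))
    (h' : X.K s c d (vec b 0)) : X.K s c d (vec (a ^^^ b) 0) := by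
  have := X.add s c d _ _ h h'
  rwa [show vec a 0 + vec b 0 = vec (a ^^^ b) 0 from funext fun i => (vec_xor a b i).symm] at this

theorem bits {a b : ℕ} (h : ∀ i, a.testBit i = b.testBit i) : a = b := Nat.eq_of_testBit_eq h

theorem spn_inv {P : ℕ → Prop} (hP : ∀ a b, P a → P b → P (a ^^^ b)) (n : ℕ) :
    ∀ M R S, Inv P R S → (∀ k < n, P ((M >>> (10 * k)) &&& 1023)) → ∀ t,
      (spn n M R S).testBit t → P t := by
  induction n with
  | zero => exact fun M R S h _ t ht => (h t ht).2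
  | succ n ih =>
    intro M R S h hk t ht
    change (cd (Nat.beq ((M &&& 1023) &&& R) (M &&& 1023))
      (spn n (M >>> 10) (R ^^^ (M &&& 1023)) (S ||| S <<< (M &&& 1023))) 0).testBit t = true at ht
    rw [cd_eq] at ht
    split_ifs at ht with c
    · have c' := Nat.eq_of_beq_eq_true c
      refine ih _ _ _ (h.step hP c' ?_ ?_ (hk 0 (by omega))) (fun k a => ?_) t ht
      · rw [Nat.and_xor_distrib_right, Nat.and_self, c']
      · rw [Nat.and_xor_distrib_left, Nat.and_self, c', Nat.xor_self]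
      · have := hk (k + 1) (by omega)
        rwa [show 10 * (k + 1) = 10 + 10 * k by omega, Nat.shiftRight_add] at this
    · simp at ht

theorem kids_succ (ih : ℕ → ℕ → ℕ → ℕ) (R T a s j : ℕ) : kids ih R T a s (j + 1) =
    cd (tb R j) (ih (R ^^^ 2 ^ j) (T ||| T <<< (a + 2 ^ j)) (kids ih R T a s j))
      (kids ih R T a s j) := rfl

theorem kids_ne {ih : ℕ → ℕ → ℕ → ℕ} (h0 : ∀ R T, ih R T 0 = 0) (R T a s n : ℕ)
    (h : kids ih R T a s n ≠ 0) : s ≠ 0 ∧ ∀ j < n, R.testBit j →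
      ∃ s', ih (R ^^^ 2 ^ j) (T ||| T <<< (a + 2 ^ j)) s' ≠ 0 := by
  induction n with
  | zero => exact ⟨h, fun _ c => absurd c (Nat.not_lt_zero _)⟩
  | succ n k =>
    rw [kids_succ, cd_eq, tb_eq] at h
    have h' : kids ih R T a s n ≠ 0 := by
      intro c
      rw [c, h0, ite_self] at h
      exact h rfl
    refine ⟨(k h').1, fun j c d => ?_⟩
    rcases Nat.lt_succ_iff_lt_or_eq.1 c with c | rfl
    · exact (k h').2 j c d
    · rw [if_pos d] at h
      exact ⟨_, h⟩

theorem node_succ (f : ℕ → ℕ) (n p0 p1 p2 p3 p4 S k R T s : ℕ) :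
    node f n p0 p1 p2 p3 p4 S (k + 1) R T s = cd (tb s 0)
      (cd (cite f n p0 p1 p2 p3 p4 S T s) (s >>> 29) 0)
      (cd (tb s 1) (cd (ext p0 S T ((s >>> 2) &&& 1125899906842623)) (s >>> 52) 0)
        (cd (tb R ((s >>> 2) &&& 15))
          (kids (node f n p0 p1 p2 p3 p4 S k) (R ^^^ 2 ^ ((s >>> 2) &&& 15)) T
            (2 ^ ((s >>> 2) &&& 15)) (s >>> 6) 10) 0)) := rfl

theorem node_zero (f : ℕ → ℕ) (n p0 p1 p2 p3 p4 S k : ℕ) :
    ∀ R T, node f n p0 p1 p2 p3 p4 S k R T 0 = 0 := by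
  induction k with
  | zero => exact fun _ _ => rfl
  | succ k ih =>
    intro R T
    rw [node_succ]
    simp only [cd_eq, tb_eq, Nat.zero_testBit, Bool.false_eq_true, if_false]
    split_ifs
    · by_contra c
      exact (kids_ne ih _ _ _ _ _ c).1 (by simp)
    · rfl

theorem node_ok (hE : ExtStmt) (hC : CiteStmt) {f : ℕ → ℕ} {n Z S : ℕ} {X : KSys} {s : X.S}
    (hf : ∀ id < n, Lem (f id)) (hZ : Has X s Z) (hS : Mem X s 0 1 S) (μ : Fin 10 → Fin 10)
    (k : ℕ) : ∀ R T p, (∀ j, R.testBit j → ∃ i : Fin 10, i.1 = j ∧ μ i ≠ i ∧ μ (μ i) = i ∧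
      R.testBit (μ i).1 ∧ X.K s 2 3 (fun j => if j = i ∨ j = μ i then 1 else 0)) →
    Inv (fun t => X.K s 2 3 (vec t 0)) R T →
    node f n Z (Z >>> 10) (Z >>> 20) (Z >>> 30) (Z >>> 40) S k R T p ≠ 0 → X.Goal := by
  induction k with
  | zero => exact fun _ _ _ _ _ h => absurd rfl h
  | succ k ih =>
    intro R T p hR hT h
    have hT' : Mem X s 2 3 T := fun t ht => (hT t ht).2
    rw [node_succ] at h
    simp only [cd_eq, tb_eq] at h
    split_ifs at h with c1 c2 c3 c4 c5
    · exact hC f n X s Z S T p hf hZ hS hT' c2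
    · exact absurd rfl h
    · exact hE X s Z S T _ hZ hS hT' c4
    · exact absurd rfl h
    · obtain ⟨i, e, a1, a2, a3, a4⟩ := hR _ c5
      rw [← e] at h c5
      have ne : (μ i).1 ≠ i.1 := fun c => a1 (Fin.ext c)
      obtain ⟨s', h'⟩ := (kids_ne (node_zero _ _ _ _ _ _ _ _ _) _ _ _ _ _ h).2 (μ i).1 (μ i).2
        (by simp [Nat.testBit_xor, a3, ne.symm])
      have b : ∀ j, (R ^^^ 2 ^ i.1 ^^^ 2 ^ (μ i).1).testBit j = true ↔
          R.testBit j = true ∧ j ≠ i.1 ∧ j ≠ (μ i).1 := by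
        intro j
        simp only [Nat.testBit_xor, Nat.testBit_two_pow]
        by_cases d1 : i.1 = j
        · subst d1
          simp [c5, ne]
        · by_cases d2 : (μ i).1 = j
          · subst d2
            simp [a3, d1]
          · simp [d1, d2, Ne.symm d1, Ne.symm d2]
      have m : ∀ j, (2 ^ i.1 + 2 ^ (μ i).1).testBit j = true ↔ j = i.1 ∨ j = (μ i).1 := by
        intro j
        rw [add_xor _ _ (bits fun t => by
          simp only [Nat.testBit_and, Nat.testBit_two_pow, Nat.zero_testBit]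
          simp only [Bool.and_eq_false_iff, decide_eq_false_iff_not]
          omega)]
        simp only [Nat.testBit_xor, Nat.testBit_two_pow]
        by_cases d1 : i.1 = j <;> by_cases d2 : (μ i).1 = j <;> simp [d1, d2] <;> omega
      refine ih _ _ s' (fun j hj => ?_) (hT.step (kadd X s 2 3) (bits fun j => ?_)
        (bits fun j => ?_) (bits fun j => ?_) ?_) h'
      · obtain ⟨d1, d2, d3⟩ := (b j).1 hj
        obtain ⟨l, rfl, e1, e2, e3, e4⟩ := hR j d1
        refine ⟨l, rfl, e1, e2, (b _).2 ⟨e3, fun c => d3 ?_, fun c => d2 ?_⟩, e4⟩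
        · rw [← Fin.ext c, e2]
        · rw [← e2, Fin.ext c, a2]
      · rw [Nat.testBit_and, Bool.and_eq_left_iff_imp, m]
        rintro (rfl | rfl) <;> assumption
      · rw [Nat.testBit_and, Bool.and_eq_left_iff_imp, b]
        exact fun c => c.1
      · rw [Nat.testBit_and, Nat.zero_testBit, ← Bool.not_eq_true, Bool.and_eq_true, m, b]
        tauto
      · convert a4 using 1
        funext j
        simp only [vec, Nat.zero_add, m, Fin.ext_iff]
    · exact absurd rfl h

theorem run_cons (f : ℕ → ℕ) (e p : ℕ) (l : List ℕ) (n : ℕ) : run f e (p :: l) n =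
    an (st (f n) fun Z => chk f n Z p) (st (Nat.succ n) (run f e l)) := rfl

theorem trun_cons (f : ℕ → ℕ) (N e p : ℕ) (l : List ℕ) (n : ℕ) : trun f N e (p :: l) n =
    an (st (zt n) fun Z => chk f N Z p) (st (Nat.succ n) (trun f N e l)) := rfl

end ChkA

open ChkA

theorem chkS (hE : ExtStmt) (hC : CiteStmt) : ChkStmt := by
  intro f n Z p hf h X s hZ hK
  obtain ⟨μ, hμ⟩ := X.mat s 2 3 (by decide)
  have h' : 1 ≤ node f n Z (Z >>> 10) (Z >>> 20) (Z >>> 30) (Z >>> 40)
      (spn 5 (Z >>> 50) 1023 1) 6 ((Z >>> 20 ^^^ Z >>> 30) &&& 1023) 1 p := Nat.le_of_ble_eq_true h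
  have z : ∀ c d, X.K s c d (vec 0 0) := fun c d => by rw [vec_zero]; exact X.zero _ _ _
  have b : ∀ j, ((Z >>> 20 ^^^ Z >>> 30) &&& 1023).testBit j = true ↔
      ∃ i : Fin 10, i.1 = j ∧ X.b s i 2 ≠ X.b s i 3 := by
    intro j
    rw [Nat.testBit_and, show 1023 = 2 ^ 10 - 1 from rfl, Nat.testBit_two_pow_sub_one,
      Bool.and_eq_true, decide_eq_true_iff, Nat.testBit_xor, Nat.testBit_shiftRight,
      Nat.testBit_shiftRight]
    have k : ∀ i : Fin 10, X.b s i 2 ≠ X.b s i 3 ↔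
        (Z.testBit (20 + i.1) ^^ Z.testBit (30 + i.1)) = true := by
      intro i
      rw [hZ, hZ]
      change (if Z.testBit (20 + i.1) then (1 : ZMod 2) else 0) ≠
        (if Z.testBit (30 + i.1) then 1 else 0) ↔ _
      cases Z.testBit (20 + i.1) <;> cases Z.testBit (30 + i.1) <;> simp
    constructor
    · exact fun c => ⟨⟨j, c.2⟩, rfl, (k _).2 c.1⟩
    · rintro ⟨i, rfl, c⟩
      exact ⟨(k i).1 c, i.2⟩
  refine node_ok hE hC hf hZ ?_ μ 6 _ 1 p (fun j hj => ?_) (inv_one (z 2 3) _)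
    (Nat.one_le_iff_ne_zero.1 h')
  · refine spn_inv (P := fun t => X.K s 0 1 (vec t 0)) (kadd X s 0 1) 5 _ _ _
      (inv_one (z 0 1) _) fun k hk => ?_
    rw [vec_and, vec_shift, vec_shift]
    exact hK k hk
  · obtain ⟨i, rfl, c⟩ := (b j).1 hj
    obtain ⟨a1, a2, a3, a4⟩ := hμ i c
    exact ⟨i, rfl, a1, a2, (b _).2 ⟨_, rfl, a3⟩, a4⟩

theorem runS (h : ChkStmt) : RunStmt := by
  refine ⟨fun f e l => ?_, fun f N e l => ?_⟩
  · induction l with
    | nil => exact fun n c hf => Nat.eq_of_beq_eq_true c ▸ hf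
    | cons p l ih =>
      intro n c hf
      rw [run_cons, st_eq, st_eq, an_iff] at c
      obtain ⟨c1, c2⟩ := c
      refine ih (n + 1) c2 fun id d => ?_
      rcases Nat.lt_succ_iff_lt_or_eq.1 d with d | rfl
      · exact hf id d
      · exact h f _ _ p hf c1
  · induction l with
    | nil => exact fun n c _ hg => Nat.eq_of_beq_eq_true c ▸ hg
    | cons p l ih =>
      intro n c hf hg
      rw [trun_cons, st_eq, st_eq, an_iff] at c
      obtain ⟨c1, c2⟩ := c
      refine ih (n + 1) c2 hf fun id d => ?_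
      rcases Nat.lt_succ_iff_lt_or_eq.1 d with d | rfl
      · exact hg id d
      · exact h f _ _ p hf c1

end Pool.Agent.MP_e6539c_co.C5.Cert
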