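import Mathlib.Data.Fintype.Perm
import Pool.Agent.MP_e6539c_co.C5.CBasic

/-! Loops, degrees and small cuts of a smallest counterexample. -/

set_option autoImplicit false
set_option linter.unusedSectionVars false

namespace Pool.Agent.MP_e6539c_co.C5

open Finset
open Pool.Agent.MP_e6539c_co.TW (MG)

namespace CutRow

theorem q_zero : ¬ Q 0 := by decide

theorem q_one : Q ![1, 1, 0, 0, 0] := by decide

theorem q_other : ∀ a : V5, Q a → ∃ b, Q b ∧ Q (a + b) := by decide +kernel

theorem q_norm : ∀ a b : V5, Q a → Q b → Q (a + b) → ∃ π : Equiv.Perm (Fin 5),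
    (∀ i, a (π i) = ![1, 1, 0, 0, 0] i) ∧ ∀ i, b (π i) = ![0, 1, 1, 0, 0] i := by decide +kernel

theorem sigma_base {a b a' b' : V5} (h1 : Q a) (h2 : Q b) (h3 : Q (a + b)) (h4 : Q a') (h5 : Q b')
    (h6 : Q (a' + b')) : ∃ σ : V5 →+ V5, (∀ x, Q x → Q (σ x)) ∧ σ a = a' ∧ σ b = b' := by
  obtain ⟨π, p1, p2⟩ := q_norm a b h1 h2 h3
  obtain ⟨τ, t1, t2⟩ := q_norm a' b' h4 h5 h6
  refine ⟨AddMonoidHom.mk' (fun x i => x (π (τ.symm i))) fun _ _ => rfl, fun x hx => ?_,
    funext fun i => ?_, funext fun i => ?_⟩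
  · exact (card_bijective (τ.symm.trans π) (τ.symm.trans π).bijective (by simp)).trans hx
  · exact (p1 _).trans ((t1 _).symm.trans (by simp))
  · exact (p2 _).trans ((t2 _).symm.trans (by simp))

open Pool.Agent.MP_e6539c_co.TW.MG hiding bd bd_union bd_split bd_congr bd_eq_zero bd_sub bd_add
  bd_map bd_insert sum_bd' bd_eq_cut sum_bd sum_bd_univ bd_minor
open scoped Classical

variable {V E : Type} [Fintype V] {G : MG V E}

/-- Two colours on every edge of `B`. -/
def NZ (B : Finset E) (ψ : E → V5) : Prop := ∀ e ∈ B, Q (ψ e)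

/-- The edges at a vertex. -/
noncomputable def star (G : MG V E) (v : V) : Finset E := G.A.filter (fun e => G.Inc e v)

theorem mem_star {e : E} {v : V} : e ∈ star G v ↔ e ∈ G.A ∧ G.Inc e v := mem_filter

theorem contract (hG : MinC G) {B : Finset E} (hB : B ⊆ G.A) (hne : B.Nonempty) :
    ∃ ψ, CutRow.NZ (G.A \ B) ψ ∧ ∀ Y : Set V, (∀ e ∈ B, G.l e ∈ Y ↔ G.r e ∈ Y) →
      ∑ e ∈ G.cut (G.A \ B) Y, ψ e = 0 := by
  let s : Setoid V := ⟨G.Conn B Set.univ, ⟨Conn.refl, Conn.symm, Conn.trans⟩⟩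
  let ρ : V → V := fun v => (Quotient.mk s v).out
  have hρ1 : ∀ v, G.Conn B Set.univ (ρ v) v := fun v => Quotient.exact (Quotient.out_eq (Quotient.mk s v))
  have hρ2 : ∀ u v, G.Conn B Set.univ u v → ρ u = ρ v := fun u v h => by
    have : Quotient.mk s u = Quotient.mk s v := Quotient.sound h
    simp only [ρ, this]
  have closed : ∀ Y : Set V, (∀ e ∈ B, G.l e ∈ Y ↔ G.r e ∈ Y) → ∀ u v, G.Conn B Set.univ u v →
      (u ∈ Y ↔ v ∈ Y) := by
    intro Y hY u v h
    by_contra hc
    obtain ⟨e, he, -⟩ := h.cross hc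
    rw [(ends_lr e).mem_cut_iff] at he
    exact he.2 (hY e he.1)
  have hfib : G.Fib ρ := by
    intro u v huv
    have h1 : G.Conn B Set.univ u v := (hρ1 u).symm.trans (huv ▸ hρ1 v)
    exact h1.restrict.mono hB (fun w hw => (hρ2 _ _ hw.2).symm)
  have hbr : (G.minor (G.A \ B) ρ).Bridgeless := by
    intro Y
    change (G.cut (G.A \ B) (ρ ⁻¹' Y)).card ≠ 1
    have h0 : G.cut B (ρ ⁻¹' Y) = ∅ := by
      apply eq_empty_of_forall_notMem
      intro e he
      rw [(ends_lr e).mem_cut_iff] at he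
      apply he.2
      simp only [Set.mem_preimage]
      rw [hρ2 _ _ (Conn.single trivial trivial ⟨e, he.1, ends_lr e⟩)]
    have := hG.br (ρ ⁻¹' Y)
    rw [card_cut_split hB, h0] at this
    simpa using this
  obtain ⟨ψ, h1, h2⟩ := hG.mn _ ρ sdiff_subset (by
    rw [card_sdiff_of_subset hB]
    have := hne.card_pos
    have := card_le_card hB
    omega) hfib hbr
  refine ⟨ψ, h1, fun Y hY => ?_⟩
  have h3 := sum_bd (G := G.minor (G.A \ B) ρ) v5_add_self (G.A \ B) ψ Y
  rw [cut_minor] at h3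
  have h4 : ρ ⁻¹' Y = Y := by
    ext v
    exact closed Y hY _ _ (hρ1 v)
  rw [h4] at h3
  rw [← h3]
  exact sum_eq_zero fun v _ => h2 v

theorem noloop (hG : MinC G) {e : E} (he : e ∈ G.A) {a b : V} (hen : G.Ends e a b) : a ≠ b := by
  rintro rfl
  have hfib : G.Fib id := by
    intro u v huv
    simp only [id] at huv
    subst huv
    exact Conn.refl _
  obtain ⟨ψ, h1, h2⟩ := hG.mn (G.A.erase e) id (erase_subset _ _) (card_erase_lt_of_mem he) hfib (by
    intro Y
    change (G.cut (G.A.erase e) Y).card ≠ 1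
    have : G.cut (G.A.erase e) Y = G.cut G.A Y := by
      ext f
      rw [(ends_lr f).mem_cut_iff, (ends_lr f).mem_cut_iff, mem_erase]
      constructor
      · exact fun h => ⟨h.1.2, h.2⟩
      · refine fun h => ⟨⟨?_, h.1⟩, h.2⟩
        rintro rfl
        apply h.2
        rcases hen with ⟨h1, h2⟩ | ⟨h1, h2⟩ <;> rw [h1, h2]
    rw [this]
    exact hG.br Y)
  apply hG.nf
  refine ⟨Function.update ψ e ![1, 1, 0, 0, 0], ?_, ?_⟩
  · intro f hf
    by_cases hfe : f = e
    · subst hfe; simpa using q_one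
    · rw [Function.update_of_ne hfe]
      exact h1 f (mem_erase.2 ⟨hfe, hf⟩)
  · intro v
    have : G.A = insert e (G.A.erase e) := (insert_erase he).symm
    rw [this, bd_insert (notMem_erase _ _) hen, v5_add_self, zero_add]
    rw [← h2 v]
    exact bd_congr fun f hf _ => Function.update_of_ne (mem_erase.1 hf).1 _ _

theorem contract_one (hG : MinC G) {e : E} (he : e ∈ G.A) {a b : V} (hen : G.Ends e a b) :
    ∃ ψ, CutRow.NZ (G.A.erase e) ψ ∧ (∀ v, v ≠ a → v ≠ b → bd G (G.A.erase e) ψ v = 0) ∧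
      bd G (G.A.erase e) ψ a = bd G (G.A.erase e) ψ b := by
  obtain ⟨ψ, h1, h2⟩ := contract hG (B := {e}) (by simpa using he) (singleton_nonempty e)
  rw [sdiff_singleton_eq_erase] at h1 h2
  refine ⟨ψ, h1, ?_, ?_⟩
  · intro v hva hvb
    rw [bd_eq_cut v5_add_self]
    apply h2
    intro f hf
    rw [mem_singleton.1 hf]
    rcases hen with ⟨h1, h2⟩ | ⟨h1, h2⟩ <;> simp [h1, h2, hva.symm, hvb.symm]
  · have hab := noloop hG he hen
    have h3 := h2 {a, b} (by
      intro f hf
      rw [mem_singleton.1 hf]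
      rcases hen with ⟨h1, h2⟩ | ⟨h1, h2⟩ <;> simp [h1, h2])
    rw [← sum_bd' v5_add_self _ _ {a, b} _ (by simp), sum_pair hab] at h3
    exact v5_eq_of_add h3

theorem extend (hG : MinC G) {e : E} (he : e ∈ G.A) {a b : V} (hen : G.Ends e a b)
    {ψ : E → V5} (h1 : CutRow.NZ (G.A.erase e) ψ)
    (h2 : ∀ v, v ≠ a → v ≠ b → bd G (G.A.erase e) ψ v = 0)
    (h3 : bd G (G.A.erase e) ψ a = bd G (G.A.erase e) ψ b) : ¬ Q (bd G (G.A.erase e) ψ a) := by
  intro hc
  have hab := noloop hG he hen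
  apply hG.nf
  refine ⟨Function.update ψ e (bd G (G.A.erase e) ψ a), ?_, ?_⟩
  · intro f hf
    by_cases hfe : f = e
    · subst hfe; simpa using hc
    · rw [Function.update_of_ne hfe]
      exact h1 f (mem_erase.2 ⟨hfe, hf⟩)
  · intro v
    have := bd_insert (notMem_erase e G.A) hen (Function.update ψ e (bd G (G.A.erase e) ψ a)) v
    rw [insert_erase he] at this
    rw [this]
    rw [show bd G (G.A.erase e) (Function.update ψ e (bd G (G.A.erase e) ψ a)) v =
      bd G (G.A.erase e) ψ v from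
      bd_congr fun f hf _ => Function.update_of_ne (mem_erase.1 hf).1 _ _]
    simp only [Function.update_self]
    by_cases hva : a = v
    · subst hva
      simp [hab.symm, v5_add_self]
    · by_cases hvb : b = v
      · subst hvb
        simp [hab, h3, v5_add_self]
      · simp [hva, hvb, h2 v (Ne.symm hva) (Ne.symm hvb)]

theorem cut_single (hG : MinC G) (v : V) : G.cut G.A {v} = star G v := by
  ext e
  rw [(ends_lr e).mem_cut_iff, mem_star]
  refine and_congr_right fun he => ?_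
  have := noloop hG he (ends_lr e)
  simp only [Set.mem_singleton_iff, Inc]
  constructor
  · tauto
  · rintro (h | h) h' <;> apply this
    · rw [h, h'.1 h]
    · rw [h, h'.2 h]

theorem deg (hG : MinC G) {v : V} (hv : ∃ e ∈ G.A, G.Inc e v) : 3 ≤ (star G v).card := by
  obtain ⟨e, he, hi⟩ := hv
  have h1 : (star G v).card ≠ 1 := by rw [← cut_single hG]; exact hG.br _
  have h0 : 0 < (star G v).card := card_pos.2 ⟨e, mem_star.2 ⟨he, hi⟩⟩
  by_contra hc
  have h2 : (star G v).card = 2 := by omega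
  obtain ⟨w, hen⟩ := hi.exists_ends
  obtain ⟨ψ, h1, h3, h4⟩ := contract_one hG he hen
  have h5 := extend hG he hen h1 h3 h4
  have hes : e ∈ star G v := mem_star.2 ⟨he, hi⟩
  obtain ⟨f, hf⟩ : ∃ f, (star G v).erase e = {f} := card_eq_one.1 (by rw [card_erase_of_mem hes]; omega)
  have hf1 : f ∈ (star G v).erase e := by rw [hf]; exact mem_singleton_self f
  rw [bd_eq_cut v5_add_self] at h5
  have : G.cut (G.A.erase e) {v} = {f} := by
    rw [← hf, ← cut_single hG]
    ext g
    simp only [cut, mem_filter, mem_erase]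
    tauto
  rw [this, sum_singleton] at h5
  rw [mem_erase, mem_star] at hf1
  exact h5 (h1 f (mem_erase.2 ⟨hf1.1, hf1.2.1⟩))

theorem exists_sigma {α : Type} (C : Finset α) (hC : C.card ≤ 3) (f g : α → V5)
    (hf : ∀ x ∈ C, Q (f x)) (hg : ∀ x ∈ C, Q (g x)) (hfs : ∑ x ∈ C, f x = 0)
    (hgs : ∑ x ∈ C, g x = 0) :
    ∃ σ : V5 →+ V5, (∀ x, Q x → Q (σ x)) ∧ ∀ x ∈ C, σ (f x) = g x := by
  rcases (by omega : C.card = 0 ∨ C.card = 1 ∨ C.card = 2 ∨ C.card = 3) with h | h | h | h
  · rw [card_eq_zero] at h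
    subst h
    exact ⟨AddMonoidHom.id _, fun x hx => hx, by simp⟩
  · obtain ⟨x, rfl⟩ := card_eq_one.1 h
    rw [sum_singleton] at hfs
    exact absurd (hfs ▸ hf x (by simp)) q_zero
  · obtain ⟨x, y, hxy, rfl⟩ := card_eq_two.1 h
    rw [sum_pair hxy] at hfs hgs
    obtain ⟨b, hb, hb'⟩ := q_other _ (hf x (by simp))
    obtain ⟨c, hc, hc'⟩ := q_other _ (hg x (by simp))
    obtain ⟨σ, h1, h2, -⟩ := sigma_base (hf x (by simp)) hb hb' (hg x (by simp)) hc hc'
    refine ⟨σ, h1, ?_⟩
    intro z hz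
    simp only [mem_insert, mem_singleton] at hz
    rcases hz with rfl | rfl
    · exact h2
    · rw [← v5_eq_of_add hfs, ← v5_eq_of_add hgs]; exact h2
  · obtain ⟨x, y, z, hxy, hxz, hyz, rfl⟩ := card_eq_three.1 h
    rw [sum_insert (by simp [hxy, hxz]), sum_pair hyz, ← add_assoc] at hfs hgs
    have e1 := v5_eq_of_add hfs
    have e2 := v5_eq_of_add hgs
    obtain ⟨σ, h1, h2, h3⟩ := sigma_base (hf x (by simp)) (hf y (by simp))
      (e1 ▸ hf z (by simp))
      (hg x (by simp)) (hg y (by simp))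
      (e2 ▸ hg z (by simp))
    refine ⟨σ, h1, ?_⟩
    intro w hw
    simp only [mem_insert, mem_singleton] at hw
    rcases hw with rfl | rfl | rfl
    · exact h2
    · exact h3
    · rw [← e1, ← e2, map_add, h2, h3]

theorem small_cut (hG : MinC G) (Y : Set V) (hY : (G.cut G.A Y).card ≤ 3) :
    (∀ e ∈ G.A, ¬ (G.l e ∈ Y ∧ G.r e ∈ Y)) ∨ (∀ e ∈ G.A, ¬ (G.l e ∉ Y ∧ G.r e ∉ Y)) := by
  by_contra hc
  push Not at hc
  obtain ⟨⟨e1, he1, h1⟩, ⟨e2, he2, h2⟩⟩ := hc
  let B1 := G.A.filter (fun e => G.l e ∈ Y ∧ G.r e ∈ Y)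
  let B2 := G.A.filter (fun e => G.l e ∉ Y ∧ G.r e ∉ Y)
  obtain ⟨ψ1, n1, c1⟩ := contract hG (B := B1) (filter_subset _ _) ⟨e1, mem_filter.2 ⟨he1, h1⟩⟩
  obtain ⟨ψ2, n2, c2⟩ := contract hG (B := B2) (filter_subset _ _) ⟨e2, mem_filter.2 ⟨he2, h2⟩⟩
  have hc1 : G.cut (G.A \ B1) Y = G.cut G.A Y := by
    ext e
    simp only [cut, mem_filter, mem_sdiff, B1]
    tauto
  have hc2 : G.cut (G.A \ B2) Y = G.cut G.A Y := by
    ext e
    simp only [cut, mem_filter, mem_sdiff, B2]
    tauto
  obtain ⟨σ, hσ1, hσ2⟩ := exists_sigma (G.cut G.A Y) hY ψ1 ψ2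
    (fun e he => n1 e (cut_subset _ _ (hc1 ▸ he))) (fun e he => n2 e (cut_subset _ _ (hc2 ▸ he)))
    (by rw [← hc1]; apply c1; intro e he; have := (mem_filter.1 he).2; tauto)
    (by rw [← hc2]; apply c2; intro e he; have := (mem_filter.1 he).2; tauto)
  apply hG.nf
  refine ⟨fun e => if e ∈ B1 then ψ2 e else σ (ψ1 e), ?_, ?_⟩
  · intro e he
    by_cases h : e ∈ B1
    · simp only [h, if_true]
      apply n2
      have := (mem_filter.1 h).2
      simp only [mem_sdiff, mem_filter, B2]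
      tauto
    · simp only [h, if_false]
      exact hσ1 _ (n1 e (mem_sdiff.2 ⟨he, h⟩))
  · intro v
    by_cases hv : v ∈ Y
    · have e1 : bd G G.A (fun e => if e ∈ B1 then ψ2 e else σ (ψ1 e)) v = bd G G.A ψ2 v := by
        apply bd_congr
        intro e he hi
        by_cases h : e ∈ B1
        · simp [h]
        · simp only [h, if_false]
          apply hσ2
          rw [(ends_lr e).mem_cut_iff]
          simp only [mem_filter, B1] at h
          rcases hi with hi | hi <;> subst hi <;> tauto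
      rw [e1, bd_sub (B' := G.A \ B2) sdiff_subset, bd_eq_cut v5_add_self]
      · apply c2
        intro e he
        have := (mem_filter.1 he).2
        simp only [Set.mem_singleton_iff]
        constructor <;> intro h <;> subst h <;> tauto
      · intro e he hi
        simp only [mem_sdiff, mem_filter, B2]
        rcases hi with hi | hi <;> subst hi <;> tauto
    · have e1 : bd G G.A (fun e => if e ∈ B1 then ψ2 e else σ (ψ1 e)) v =
          bd G G.A (fun e => σ (ψ1 e)) v := by
        apply bd_congr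
        intro e he hi
        have : e ∉ B1 := by
          simp only [mem_filter, B1]
          rcases hi with hi | hi <;> subst hi <;> tauto
        simp [this]
      rw [e1, bd_map, bd_sub (B' := G.A \ B1) sdiff_subset, bd_eq_cut v5_add_self, c1, map_zero]
      · intro e he
        have := (mem_filter.1 he).2
        simp only [Set.mem_singleton_iff]
        constructor <;> intro h <;> subst h <;> tauto
      · intro e he hi
        simp only [mem_sdiff, mem_filter, B1]
        rcases hi with hi | hi <;> subst hi <;> tauto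

end CutRow

theorem cut : CutStmt := fun _ _ _ _ hG =>
  ⟨fun e he => CutRow.noloop hG he (MG.ends_lr e), fun _ hv => CutRow.deg hG hv,
    CutRow.small_cut hG⟩

end Pool.Agent.MP_e6539c_co.C5
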