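import Mathlib.GroupTheory.GroupAction.Ring
import Pool.Agent.MP_e6539c_co.C5.Basic

/-! The cycle state of the territory game. -/

set_option autoImplicit false

namespace Pool.Agent.MP_e6539c_co.C5

open Finset
open Pool.Agent.MP_7be75d_co (R Conn comp)
open Pool.Agent.MP_7be75d_co
open scoped Classical

namespace CyAux

variable {V : Type} {G Γ : SimpleGraph V}

theorem cl_of {L : List V}
    (h : ∀ a z, 3 ≤ L.length → L.head? = some a → L.getLast? = some z → Γ.Adj z a) :
    ∀ x M y, L = x :: (M ++ [y]) → M ≠ [] → Γ.Adj y x := by
  intro x M y e hM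
  subst e
  refine h x y ?_ rfl ?_
  · have := List.length_pos_iff.2 hM
    simp only [List.length_cons, List.length_append, List.length_nil]
    omega
  · rw [← List.cons_append, List.getLast?_append]
    rfl

variable [Fintype V] {C : Finset V} {L : List V}

theorem cl' (h : CYs G Γ C L) {a z : V} (h3 : 3 ≤ L.length) (ha : L.head? = some a)
    (hz : L.getLast? = some z) : Γ.Adj z a := by
  obtain ⟨T, rfl⟩ : ∃ T, L = a :: T := by
    cases L with
    | nil => simp at ha
    | cons b T => exact ⟨T, by simp only [List.head?_cons, Option.some.injEq] at ha; rw [ha]⟩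
  rcases List.eq_nil_or_concat' T with e | ⟨M, y, e⟩
  · subst e; simp at h3
  · subst e
    have : y = z := by
      rw [← List.cons_append, List.getLast?_append] at hz
      simpa using hz
    subst this
    refine h.cl a M y rfl fun e => ?_
    subst e
    simp at h3

theorem shrink (h : CYs G Γ C L) {x : V} (hi : ¬ Act G C x) {Γ' : SimpleGraph V} {L' : List V}
    (ctx : Ctx G Γ' C) (sub : List.Sublist L' L) (hall : ∀ y ∈ L, y ≠ x → y ∈ L')
    (ch : L'.IsChain Γ'.Adj)
    (cl : ∀ a z, 3 ≤ L'.length → L'.head? = some a → L'.getLast? = some z → Γ'.Adj z a) :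
    CYs G Γ' C L' := by
  refine ⟨ctx, h.nd.sublist sub, fun y hy => h.out y (sub.subset hy), ch, cl_of cl,
    h.cov.of_act fun y hy _ ay => hall y hy fun e => hi (e ▸ ay), ?_⟩
  rcases h.ty with c | c
  · exact Or.inl (c.mono le_rfl fun y hy => sub.subset hy)
  · exact Or.inr (sub.length_le.trans c)

/-- An inactive vertex of the frame is removed. -/
theorem drop (h : CYs G Γ C L) {x : V} (hx : x ∈ L) (hi : ¬ Act G C x) :
    ∃ Γ' L', L'.length < L.length ∧ CYs G Γ' C L' := by
  obtain ⟨l1, l2, rfl⟩ := List.append_of_mem hx
  rcases List.eq_nil_or_concat' l1 with e | ⟨l, y, e⟩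
  · subst e
    cases l2 with
    | nil =>
      exact ⟨Γ, [], by simp, shrink h hi h.ctx (by simp) (fun y hy hne => by simp_all)
        (by simp) fun a z h3 => by simp at h3⟩
    | cons y T =>
      have nd := List.nodup_cons.1 h.nd
      have ch := List.isChain_cons_cons.1 h.ch
      refine ⟨con Γ x y, y :: T, by simp, shrink h hi
        (h.ctx.con ch.1 (h.out x hx) (h.out y (by simp)) hi) (by simp)
        (fun z hz hne => (List.mem_cons.1 hz).resolve_left hne) (con_chain ch.2 nd.1)
        fun a z h3 ha hz => ?_⟩
      obtain rfl : y = a := by simpa using ha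
      have k := cl' h (a := x) (z := z) (by simp at h3 ⊢; omega) rfl
        (by rw [List.nil_append, List.getLast?_cons_cons]; exact hz)
      refine (con_new k.symm fun e => ?_).symm
      cases T with
      | nil => simp at h3
      | cons t T =>
        rw [List.getLast?_cons_cons] at hz
        exact (List.nodup_cons.1 nd.2).1 (e ▸ List.mem_of_getLast? hz)
  · subst e
    have e1 : l ++ [y] ++ x :: l2 = l ++ y :: x :: l2 := by simp
    have nd := h.nd
    have ch := h.ch
    rw [e1] at nd ch
    have a : Γ.Adj y x := (List.isChain_cons_cons.1 ch.right_of_append).1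
    have n1 := List.nodup_append.1 nd
    have n2 := List.nodup_cons.1 n1.2.1
    have n3 := List.nodup_cons.1 n2.2
    have hxn : x ∉ l ++ y :: l2 := by
      intro c
      rcases List.mem_append.1 c with c | c
      · exact n1.2.2 x c x (by simp) rfl
      · rcases List.mem_cons.1 c with c | c
        · exact a.ne c.symm
        · exact n3.1 c
    refine ⟨con Γ x y, l ++ y :: l2, by simp, shrink h hi
      (h.ctx.con a.symm (h.out x hx) (h.out y (by simp)) hi) ?_ (fun z hz hne => ?_)
      (con_chain_pred ch nd) fun b z h3 hb hz => ?_⟩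
    · rw [e1]
      exact List.Sublist.append_left
        (List.Sublist.cons_cons _ (List.sublist_cons_self _ _)) _
    · simp only [List.mem_append, List.mem_cons, List.not_mem_nil] at hz ⊢
      tauto
    · have len : 3 ≤ (l ++ [y] ++ x :: l2).length := by
        simp only [List.length_append, List.length_cons, List.length_nil] at h3 ⊢
        omega
      have hb' : (l ++ [y] ++ x :: l2).head? = some b := by
        cases l with
        | nil => simpa using hb
        | cons c l => simpa using hb
      rcases List.eq_nil_or_concat' l2 with e | ⟨l3, t, e⟩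
      · subst e
        obtain rfl : y = z := by simpa using hz
        have k := cl' h (z := x) len hb' (by simp)
        refine con_new k fun e => ?_
        cases l with
        | nil => simp at h3
        | cons c l =>
          obtain rfl : c = b := by simpa using hb
          exact n1.2.2 c (by simp) y (by simp) e
      · subst e
        have hz' : t = z := by
          rw [← List.cons_append, ← List.append_assoc, List.getLast?_append] at hz
          simpa using hz
        subst hz'
        have k := cl' h (z := t) len hb' (by
          rw [← List.cons_append, ← List.append_assoc, List.getLast?_append]; rfl)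
        exact con_adj k (fun e => hxn (e ▸ by simp))
          (fun e => hxn (e ▸ List.mem_of_head? hb))

theorem sys (h : CYs G Γ C L) (X₀ : Set V) : Sys G C X₀ := by
  rcases h.ty with c | c
  · exact Or.inl ⟨_, ∅, ∅, c, cls_empty _, by simp, h.cov.mono fun x hx =>
      Or.inl (Or.inl (Or.inr hx))⟩
  · exact Or.inr (Or.inr ⟨L.toFinset, (List.toFinset_card_le L).trans (by omega),
      h.cov.mono fun x hx => Or.inr (List.mem_toFinset.2 hx)⟩)

/-- After a move between the first two vertices the extended frame has no repetition. -/
theorem nd_ins {a b : V} {T D : List V} (h : CYs G Γ C (a :: b :: T)) (ndD : D.Nodup)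
    (hD : ∀ x ∈ D, x ∈ C) : (a :: (D ++ b :: T)).Nodup := by
  have n1 := List.nodup_cons.1 h.nd
  refine List.nodup_cons.2 ⟨fun c => ?_, List.nodup_append.2 ⟨ndD, n1.2, fun x hx y hy e => ?_⟩⟩
  · rcases List.mem_append.1 c with c | c
    · exact h.out a (by simp) (hD a c)
    · exact n1.1 c
  · exact h.out y (List.mem_cons_of_mem _ hy) (e ▸ hD x hx)

end CyAux

theorem cy (h : MoveStmt) (h0 : Move0Stmt) : CyStmt := by
  intro V _ G C hno
  suffices H : ∀ n (Γ : SimpleGraph V) (L : List V), L.length < n → ¬ CYs G Γ C L from
    fun Γ L => H _ Γ L (Nat.lt_succ_self _)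
  intro n
  induction n with
  | zero => intro Γ L hn; omega
  | succ n ih =>
    intro Γ L hn hL
    by_cases hA : ∃ u ∈ L, ¬ Act G C u
    · obtain ⟨u, hu, hi⟩ := hA
      obtain ⟨Γ', L', hl, h'⟩ := CyAux.drop hL hu hi
      exact ih Γ' L' (by omega) h'
    have act : ∀ u ∈ L, Act G C u := fun u hu => by
      by_contra c
      exact hA ⟨u, hu, c⟩
    match L, hL, act with
    | [], hL, _ =>
      obtain ⟨W, hW, ⟨w, hw⟩, -⟩ := hL.ctx.cyc
      obtain ⟨C', -, wn, lt, ctx, cv⟩ := h0 V G Γ C w w hL.ctx (hW hw)
        (hL.cov.mono fun x hx => absurd hx List.not_mem_nil)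
      refine (hno Γ C' lt).1 [w] ⟨ctx, by simp, by simpa using wn, by simp,
        CyAux.cl_of fun a z h3 => by simp at h3, (cv _ hL.cov).mono fun x hx => ?_,
        Or.inr (by simp)⟩
      simpa using hx
    | [x], hL, act =>
      obtain ⟨w, hw, a⟩ := act x (by simp)
      have ox := hL.out x (by simp)
      obtain ⟨C', sub, wn, lt, ctx, cv⟩ := h0 V G Γ C x w hL.ctx hw
        (hL.cov.mono fun y hy => by simpa using hy)
      refine (hno Γ C' lt).1 [x, w] ⟨ctx, by simpa using a.ne, fun y hy => ?_,
        List.isChain_cons_cons.2 ⟨(hL.ctx.adj hw).2 a, List.isChain_singleton _⟩,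
        CyAux.cl_of fun a z h3 => by simp at h3, (cv _ hL.cov).mono fun y hy => ?_,
        Or.inr (by simp)⟩
      · rcases List.mem_cons.1 hy with e | e
        · exact fun c => ox (e ▸ sub c)
        · rw [List.mem_singleton.1 e]; exact wn
      · simpa [or_comm] using hy
    | a :: b :: T, hL, act =>
      have ch := List.isChain_cons_cons.1 hL.ch
      obtain ⟨D, C', -, ndD, hD, chD, sub, lt, ctx, cls, cv⟩ := h V G Γ C a b hL.ctx ch.1.ne
        (hL.out a (by simp)) (hL.out b (by simp)) (act a (by simp)) (act b (by simp))
        (Or.inl (CyAux.sys hL _))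
      have nd := CyAux.nd_ins hL ndD fun x hx => (hD x hx).1
      have out : ∀ x ∈ a :: (D ++ b :: T), x ∉ C' := by
        intro x hx
        by_cases hx' : x ∈ D
        · exact (hD x hx').2
        · refine fun c => hL.out x ?_ (sub c)
          simp only [List.mem_cons, List.mem_append] at hx ⊢
          tauto
      have cov : Cov G C' {x | x ∈ a :: (D ++ b :: T)} := (cv _ hL.cov).mono fun x hx => by
        simp only [Set.mem_ofPred_eq, List.mem_cons, List.mem_append, Set.mem_union] at hx ⊢
        tauto
      rcases List.eq_nil_or_concat' T with e | ⟨M, s, e⟩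
      · subst e
        refine (hno Γ C' lt).1 (a :: (D ++ [b])) ⟨ctx, nd, out, chD, fun x M y e _ => ?_, cov,
          Or.inl cls⟩
        obtain ⟨rfl, e'⟩ := List.cons.inj e
        obtain ⟨rfl, -⟩ := List.cons.inj (List.append_inj' e' rfl).2
        exact ch.1.symm
      · subst e
        by_cases hact : ∃ x ∈ D, Act G C' x
        · refine (hno Γ C' lt).2.1 a D b M s ⟨ctx, nd, out, chD, ch.2, ch.1,
            (hL.cl a (b :: M) s rfl (by simp)).symm, cov, Or.inl cls, ?_, hact⟩
          rcases hL.ty with c | c
          · exact Or.inl (c.mono sub fun x hx => List.mem_cons_of_mem _ hx)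
          · right
            simp only [List.length_cons, List.length_append] at c
            omega
        · refine (hno Γ C' lt).1 _ ⟨ctx, hL.nd, fun x hx c => hL.out x hx (sub c), hL.ch, hL.cl,
            (cv _ hL.cov).of_act fun x hx _ ax => hx.resolve_right fun c => hact ⟨x, c, ax⟩, ?_⟩
          rcases hL.ty with c | c
          · exact Or.inl (c.mono sub le_rfl)
          · exact Or.inr c

end Pool.Agent.MP_e6539c_co.C5
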