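import Pool.Agent.MP_e6539c_co.C5.Basic

/-! A cycle whose vertices form a class gives a state of the game. -/

set_option autoImplicit false

namespace Pool.Agent.MP_e6539c_co.C5

open Finset
open Pool.Agent.MP_7be75d_co (R Conn comp)
open Pool.Agent.MP_7be75d_co
open scoped Classical

namespace CystM

variable {V : Type} {G : SimpleGraph V} {W : Finset V} {n : ℕ} {v : ℕ → V}

theorem far (hG : Gi G) (inj : ∀ i < n, ∀ j < n, v i = v j → i = j)
    (adj : ∀ i, i + 1 < n → G.Adj (v i) (v (i + 1))) (out : ∀ i < n, v i ∉ W) (i j : ℕ) (w w' : V)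
    (r : ℕ) (hij : i ≤ j) (hj : j < n) (a : G.Adj (v i) w) (a' : G.Adj (v j) w')
    (ne : i = j → w ≠ w') (hw : Wk G W w w' r) : 9 + i ≤ r + j := by
  rcases hij.eq_or_lt with rfl | hlt
  · have := hG _ _ w w' r (out i hj) a a' (ne rfl) hw
    omega
  · have hin : ∀ t, i + 1 ≤ t → t ≤ j → v t ∈ W ∪ (Icc (i + 1) j).image v := fun t x y =>
      mem_union_right _ (mem_image_of_mem _ (mem_Icc.2 ⟨x, y⟩))
    have := hG (W ∪ (Icc (i + 1) j).image v) (v i) w (v (i + 1)) _ ?_ a
      (adj i (by omega)) (fun e => out (i + 1) (by omega) (e ▸ hw.left))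
      (((hw.mono subset_union_left).tail a'.symm (hin j hlt le_rfl)).trans
        (Wk.of_fun (show i + 1 ≤ j from hlt) hin (fun t _ y => adj t (by omega))).symm)
    · omega
    · rw [mem_union]
      rintro (c | c)
      · exact out i (by omega) c
      · obtain ⟨t, ht, e⟩ := mem_image.1 c
        rw [mem_Icc] at ht
        have := inj t (by omega) i (by omega) e
        omega

theorem cls (hG : Gi G) (inj : ∀ i < n, ∀ j < n, v i = v j → i = j)
    (adj : ∀ i, i + 1 < n → G.Adj (v i) (v (i + 1))) (out : ∀ i < n, v i ∉ W)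
    (short : ∀ i j w w' r, j < n → G.Adj (v i) w → G.Adj (v j) w' → Wk G W w w' r →
      j ≤ i + r + 2) : Cls G W {x | ∃ i < n, x = v i} := by
  have key : ∀ i j w w' r, i < n → j < n → G.Adj (v i) w → G.Adj (v j) w' →
      (v i, w) ≠ (v j, w') → Wk G W w w' r →
      (i ≤ j → 9 + i ≤ r + j) ∧ (j ≤ i → 9 + j ≤ r + i) ∧ j ≤ i + r + 2 ∧ i ≤ j + r + 2 :=
    fun i j w w' r hi hj a a' ne hw =>
      ⟨fun k => far hG inj adj out i j w w' r k hj a a' (fun e c => ne (by rw [e, c])) hw,
        fun k => far hG inj adj out j i w' w r k hi a' a (fun e c => ne (by rw [e, c])) hw.symm,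
        short i j w w' r hj a a' hw, short j i w' w r hi a' a hw.symm⟩
  refine ⟨?_, ?_, ?_⟩
  · rintro x ⟨i, hi, rfl⟩
    exact out i hi
  · rintro ⟨_, w⟩ ⟨_, w'⟩ r ⟨⟨i, hi, rfl⟩, -, a⟩ ⟨⟨j, hj, rfl⟩, -, a'⟩ ne hw
    have := key i j w w' r hi hj a a' ne hw
    omega
  · rintro ⟨_, w⟩ ⟨_, w'⟩ ⟨_, w''⟩ r₁ r₂ r₃ ⟨⟨i, hi, rfl⟩, -, a⟩ ⟨⟨j, hj, rfl⟩, -, a'⟩
      ⟨⟨k, hk, rfl⟩, -, a''⟩ n1 n2 n3 w1 w2 w3
    have := key i j w w' r₁ hi hj a a' n1 w1
    have := key i k w w'' r₂ hi hk a a'' n2 w2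
    have := key j k w' w'' r₃ hj hk a' a'' n3 w3
    omega

end CystM

theorem cyst (hT : TreeStmt) (hN : NoAllStmt) : CystStmt := by
  intro V _ G Γ W n v hG hP hn inj adj le cl agree deg ⟨y, hy⟩ out cov short
  have sub : comp G W y ⊆ W := comp_subset
  have c1 := (CystM.cls hG inj adj out short).mono sub subset_rfl
  have c2 : Cov G (comp G W y) {x | ∃ i < n, x = v i} := fun w hw x hx a =>
    cov w (sub hw) x (fun c => hx (comp_closed hw c a.symm)) a
  by_cases hc : Cyc G (comp G W y)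
  · have e : {x | x ∈ (List.range n).map v} = {x | ∃ i < n, x = v i} := by
      ext x
      simp [eq_comm]
    refine (hN V G _ Γ (comp G W y) (Nat.lt_succ_self _)).1 ((List.range n).map v)
      ⟨⟨hG, comp_conn hy, hc, deg.mono sub, fun w hw => agree w (sub hw), hP⟩,
        List.nodup_range.map_on fun i hi j hj =>
          inj i (List.mem_range.1 hi) j (List.mem_range.1 hj), fun x hx c => ?_, ?_,
        fun x M z q _ => ?_, e ▸ c2, .inl (e ▸ c1)⟩
    · obtain ⟨i, hi, rfl⟩ := List.mem_map.1 hx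
      exact out i (List.mem_range.1 hi) (sub c)
    · rw [List.isChain_map, List.isChain_range]
      exact fun m hm => le (adj m (by omega))
    · obtain ⟨m, rfl⟩ : ∃ m, n = m + 1 := ⟨n - 1, by omega⟩
      have q1 : v 0 = x := by
        rw [List.range_succ_eq_map] at q
        exact (List.cons.inj q).1
      have q2 : v m = z := by
        rw [List.range_succ, List.map_append, ← List.cons_append] at q
        exact (List.cons.inj (List.append_inj_right' q rfl)).1
      exact q1 ▸ q2 ▸ cl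
  · have pc : Pc G (comp G W y) := ⟨comp_conn hy, hc, deg.mono sub⟩
    have h1 := hT V G _ ∅ (fun i => if i.1 = 0 then {x | ∃ i < n, x = v i} else ∅) 1 5 5 (by simp)
      hG pc (fun i => by split_ifs; exacts [c1, cls_empty _]) (fun i hi => if_neg (by omega))
      (by simp) (c2.mono fun x hx => .inl ⟨0, hx⟩)
    have h2 := pc.count c2
    have h3 := mks_cls_two pc.conn c1 (by omega)
    have h4 := card_pos.2 pc.conn.1
    omega

end Pool.Agent.MP_e6539c_co.C5
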