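import Mathlib.Tactic.Ring.RingNF
import Mathlib.Algebra.Module.Pi
import Mathlib.LinearAlgebra.Span.Defs
import Mathlib.Tactic.LinearCombination
import Pool.Agent.MP_7be75d_co.Menger
import Pool.Agent.MP_e6539c_co.TW.Basic

/-! Definitions for five-cycle double covers of graphs with no Petersen minor. -/

set_option autoImplicit false

namespace Pool.Agent.MP_e6539c_co.C5

open Finset
open Pool.Agent.MP_7be75d_co (R Conn comp)
open Pool.Agent.MP_e6539c_co.TW (MG)
open scoped Classical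

variable {V : Type}

/-! ### Walks, girth, classes -/

/-- A walk inside `W` from `a` to `b` of length at most `r`. -/
inductive Wk (G : SimpleGraph V) (W : Finset V) : V → V → ℕ → Prop
  | refl {a : V} {r : ℕ} : a ∈ W → Wk G W a a r
  | tail {a b c : V} {r : ℕ} : Wk G W a b r → G.Adj b c → c ∈ W → Wk G W a c (r + 1)

/-- Girth at least eleven. -/
def Gi (G : SimpleGraph V) : Prop :=
  ∀ (W : Finset V) (x w w' : V) (r : ℕ), x ∉ W → G.Adj x w → G.Adj x w' → w ≠ w' →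
    Wk G W w w' r → 9 ≤ r

/-- The number of neighbours of `v` in `W`. -/
noncomputable def dg (G : SimpleGraph V) (W : Finset V) (v : V) : ℕ := (W.filter (G.Adj v)).card

/-- `C` contains a cycle (a nonempty subset of minimum degree two). -/
def Cyc (G : SimpleGraph V) (C : Finset V) : Prop :=
  ∃ W ⊆ C, W.Nonempty ∧ ∀ v ∈ W, 2 ≤ dg G W v

def Deg3 [Fintype V] (G : SimpleGraph V) (C : Finset V) : Prop := ∀ v ∈ C, 3 ≤ dg G univ v

/-- `x` has a neighbour in `C`. -/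
def Act (G : SimpleGraph V) (C : Finset V) (x : V) : Prop := ∃ w ∈ C, G.Adj x w

/-- Every neighbour of `C` outside `C` lies in `S`. -/
def Cov (G : SimpleGraph V) (C : Finset V) (S : Set V) : Prop :=
  ∀ w ∈ C, ∀ x, x ∉ C → G.Adj x w → x ∈ S

/-- An edge from `S` to `W`, written as the pair (end in `S`, end in `W`). -/
def Mark (G : SimpleGraph V) (W : Finset V) (S : Set V) (p : V × V) : Prop :=
  p.1 ∈ S ∧ p.2 ∈ W ∧ G.Adj p.1 p.2

/-- `S` is a class for `W`: the edges from `S` to `W` end far apart. -/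
structure Cls (G : SimpleGraph V) (W : Finset V) (S : Set V) : Prop where
  out : ∀ x ∈ S, x ∉ W
  two : ∀ p q r, Mark G W S p → Mark G W S q → p ≠ q → Wk G W p.2 q.2 r → 4 ≤ r
  three : ∀ p q s r₁ r₂ r₃, Mark G W S p → Mark G W S q → Mark G W S s → p ≠ q → p ≠ s → q ≠ s →
    Wk G W p.2 q.2 r₁ → Wk G W p.2 s.2 r₂ → Wk G W q.2 s.2 r₃ → 16 ≤ r₁ + r₂ + r₃

/-- The edges from `S \ Y` to `Y`. -/
noncomputable def mks [Fintype V] (G : SimpleGraph V) (Y : Finset V) (S : Set V) :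
    Finset (V × V) :=
  univ.filter (fun p => p.1 ∉ Y ∧ Mark G Y S p)

/-- A piece: a tree all of whose vertices have degree at least three in `G`. -/
structure Pc [Fintype V] (G : SimpleGraph V) (Y : Finset V) : Prop where
  conn : Conn G Y
  acyc : ¬ Cyc G Y
  deg : Deg3 G Y

/-- A Petersen minor. -/
def Pet (G : SimpleGraph V) : Prop :=
  ∃ B : ℕ → Finset V, (∀ i < 10, Conn G (B i)) ∧
    (∀ i < 10, ∀ j < 10, i ≠ j → Disjoint (B i) (B j)) ∧
    ∀ p ∈ MG.petE, ∃ u ∈ B p.1, ∃ v ∈ B p.2, G.Adj u v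

/-- The image of `Γ` under the identification `ρ`. -/
def gmap (Γ : SimpleGraph V) (ρ : V → V) : SimpleGraph V where
  Adj p q := p ≠ q ∧ ∃ u v, ρ u = p ∧ ρ v = q ∧ Γ.Adj u v
  symm := ⟨fun _ _ ⟨h, u, v, a, b, c⟩ => ⟨h.symm, v, u, b, a, c.symm⟩⟩
  loopless := ⟨fun _ h => h.1 rfl⟩

/-- Distinct single vertices of `X` with edges into `A`, at the listed distances from `v`. -/
def RT (G : SimpleGraph V) (Y A X : Finset V) (v : V) (T : List ℕ) : Prop :=
  ∃ M : List (V × ℕ), M.map Prod.snd = T ∧ (M.map Prod.fst).Nodup ∧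
    ∀ p ∈ M, p.1 ∈ X ∧ ∃ w ∈ A, G.Adj p.1 w ∧ Wk G Y w v p.2

/-! ### The territory game -/

/-- The territory `C` and the auxiliary graph `Γ` that carries the frame. -/
structure Ctx [Fintype V] (G Γ : SimpleGraph V) (C : Finset V) : Prop where
  gi : Gi G
  conn : Conn G C
  cyc : Cyc G C
  deg : Deg3 G C
  agree : ∀ w ∈ C, ∀ x, Γ.Adj w x ↔ G.Adj w x
  np : ¬ Pet Γ

/-- Cycle state. -/
structure CYs [Fintype V] (G Γ : SimpleGraph V) (C : Finset V) (L : List V) : Prop where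
  ctx : Ctx G Γ C
  nd : L.Nodup
  out : ∀ x ∈ L, x ∉ C
  ch : L.IsChain Γ.Adj
  cl : ∀ x M y, L = x :: (M ++ [y]) → M ≠ [] → Γ.Adj y x
  cov : Cov G C {x | x ∈ L}
  ty : Cls G C {x | x ∈ L} ∨ L.length ≤ 3

/-- Path state. -/
structure Ps [Fintype V] (G Γ : SimpleGraph V) (C : Finset V) (p : V) (A : List V) (q : V)
    (B : List V) (s : V) : Prop where
  ctx : Ctx G Γ C
  nd : (p :: (A ++ q :: (B ++ [s]))).Nodup
  out : ∀ x ∈ p :: (A ++ q :: (B ++ [s])), x ∉ C
  chA : (p :: (A ++ [q])).IsChain Γ.Adj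
  chB : (q :: (B ++ [s])).IsChain Γ.Adj
  pq : Γ.Adj p q
  ps : Γ.Adj p s
  cov : Cov G C {x | x ∈ p :: (A ++ q :: (B ++ [s]))}
  tyA : Cls G C {x | x ∈ p :: (A ++ [q])} ∨ A.length ≤ 1
  tyB : Cls G C {x | x ∈ q :: (B ++ [s])} ∨ B.length ≤ 1
  act : ∃ a ∈ A, Act G C a

/-- The state with a subdivided complete graph on four corners. -/
structure Ks [Fintype V] (G Γ : SimpleGraph V) (C : Finset V) (c : Fin 4 → V)
    (A : Fin 4 → List V) : Prop where
  ctx : Ctx G Γ C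
  inj : Function.Injective c
  nd : ∀ i, (A i).Nodup
  disj : ∀ i j, i ≠ j → ∀ x ∈ A i, x ∉ A j
  cA : ∀ i j, c i ∉ A j
  outc : ∀ i, c i ∉ C
  outA : ∀ i, ∀ x ∈ A i, x ∉ C
  ch : ∀ i, (c i :: (A i ++ [c (i + 1)])).IsChain Γ.Adj
  chord : ∀ i, Γ.Adj (c i) (c (i + 2))
  cov : Cov G C {x | ∃ i, x = c i ∨ x ∈ A i}
  ty : ∀ i, Cls G C {x | x ∈ c i :: (A i ++ [c (i + 1)])} ∨ (A i).length ≤ 1

/-- The neighbours of `C` other than those in `X₀` form two classes and a single vertex, or one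
class and three single vertices, or five single vertices. -/
def Sys (G : SimpleGraph V) (C : Finset V) (X₀ : Set V) : Prop :=
  (∃ (S₁ S₂ : Set V) (X : Finset V), Cls G C S₁ ∧ Cls G C S₂ ∧ X.card ≤ 1 ∧
    Cov G C (X₀ ∪ S₁ ∪ S₂ ∪ ↑X)) ∨
  (∃ (S : Set V) (X : Finset V), Cls G C S ∧ X.card ≤ 3 ∧ Cov G C (X₀ ∪ S ∪ ↑X)) ∨
  (∃ X : Finset V, X.card ≤ 5 ∧ Cov G C (X₀ ∪ ↑X))

/-- A shortest path `d 0, …, d (m+1)` with interior in `C` between two vertices outside `C`. -/
structure Geo (G : SimpleGraph V) (C : Finset V) (m : ℕ) (d : ℕ → V) : Prop where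
  pos : 1 ≤ m
  out0 : d 0 ∉ C
  out1 : d (m + 1) ∉ C
  mem : ∀ i, 1 ≤ i → i ≤ m → d i ∈ C
  adj : ∀ i ≤ m, G.Adj (d i) (d (i + 1))
  inj : ∀ i ≤ m + 1, ∀ j ≤ m + 1, d i = d j → i = j
  short : ∀ i j w w' r, j ≤ m + 1 → G.Adj (d i) w → G.Adj (d j) w' → Wk G C w w' r →
    j ≤ i + r + 2
  chord : ∀ i j, i + 2 ≤ j → j ≤ m + 1 → G.Adj (d i) (d j) → i = 0 ∧ j = m + 1

/-- The interior of a geodesic. -/
noncomputable def inner (m : ℕ) (d : ℕ → V) : Finset V := (Icc 1 m).image d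

/-- After a geodesic from `a` to `b` is removed, tree components have at most two vertices. -/
def Tiny [Fintype V] (G : SimpleGraph V) (C : Finset V) (a b : V) : Prop :=
  ∀ m d, Geo G C m d → d 0 = a → d (m + 1) = b →
    Cls G (C \ inner m d) {x | ∃ i ≤ m + 1, x = d i} → ¬ Cyc G (C \ inner m d) →
    ∀ y ∈ C \ inner m d, (comp G (C \ inner m d) y).card ≤ 2

/-- No state has a territory with fewer than `n` vertices. -/
def NoSt [Fintype V] (G : SimpleGraph V) (n : ℕ) : Prop :=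
  ∀ (Γ : SimpleGraph V) (C : Finset V), C.card < n → (∀ L, ¬ CYs G Γ C L) ∧
    (∀ p A q B s, ¬ Ps G Γ C p A q B s) ∧ ∀ c A, ¬ Ks G Γ C c A

/-- The territory with the four arcs contracted to terminals, which form a four-cycle. -/
def HK (G : SimpleGraph V) (C : Finset V) (A : Fin 4 → List V) (t : Fin 4 → V) : SimpleGraph V :=
  SimpleGraph.fromRel fun x y => (x ∈ C ∧ y ∈ C ∧ G.Adj x y) ∨
    (x ∈ C ∧ ∃ i, y = t i ∧ ∃ a ∈ A i, G.Adj x a) ∨ ∃ i, x = t i ∧ y = t (i + 1)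

/-- The number of arcs in which `v` has a neighbour. -/
noncomputable def kk (G : SimpleGraph V) (A : Fin 4 → List V) (v : V) : ℕ :=
  (univ.filter fun i => ∃ a ∈ A i, G.Adj v a).card

/-- All neighbours of `Z` outside `Z` are among three vertices. -/
def Bd3 (H : SimpleGraph V) (Z : Finset V) (y₁ y₂ y₃ : V) : Prop :=
  ∀ z ∈ Z, ∀ w, H.Adj z w → w ∈ Z ∨ w = y₁ ∨ w = y₂ ∨ w = y₃

/-! ### The two paths theorem -/

abbrev Vec (V : Type) := Sym2 V → ZMod 2

/-- The parity of the degree of `v` in the edge set `x`. -/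
noncomputable def par [Fintype V] (x : Vec V) (v : V) : ZMod 2 := ∑ w, x s(v, w)

/-- An even edge set of `H`. -/
def Ev [Fintype V] (H : SimpleGraph V) (x : Vec V) : Prop :=
  (∀ u v, x s(u, v) ≠ 0 → H.Adj u v) ∧ ∀ v, par x v = 0

noncomputable def cov (F : Finset (Vec V)) (e : Sym2 V) : ℕ := (F.filter fun f => f e ≠ 0).card

/-- `y` follows `x` on the cyclic list `L`. -/
def Fr (L : List V) (x y : V) : Prop := ∃ M, L ~r x :: y :: M

structure Frame (H : SimpleGraph V) (L : List V) : Prop where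
  nd : L.Nodup
  len : 3 ≤ L.length
  adj : ∀ x y, Fr L x y → H.Adj x y

/-- Two disjoint connected sets that join alternating pairs of frame vertices. -/
def Cross (H : SimpleGraph V) (L : List V) : Prop :=
  ∃ (x u y v : V) (L' : List V) (X₁ X₂ : Finset V), L ~r L' ∧ List.Sublist [x, u, y, v] L' ∧
    Conn H X₁ ∧ Conn H X₂ ∧ Disjoint X₁ X₂ ∧ (∀ z, (z ∈ X₁ ∧ z ∈ L) ↔ (z = x ∨ z = y)) ∧
    ∀ z, (z ∈ X₂ ∧ z ∈ L) ↔ (z = u ∨ z = v)

/-- Behind a cut of at most three vertices there is no cycle. -/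
def FC [Fintype V] (H : SimpleGraph V) (L : List V) : Prop :=
  ∀ (Z : Finset V) (y₁ y₂ y₃ : V), (∀ z ∈ Z, z ∉ L) → Bd3 H Z y₁ y₂ y₃ →
    ∀ x, Ev H x → (∀ u v, x s(u, v) ≠ 0 → u ∈ Z ∨ v ∈ Z) → x = 0

/-- A generating family of the cycle space that covers every edge at most twice and every frame
edge at most once. -/
structure Basis [Fintype V] (H : SimpleGraph V) (L : List V) (F : Finset (Vec V)) : Prop where
  ev : ∀ f ∈ F, Ev H f
  two : ∀ e, cov F e ≤ 2
  one : ∀ x y, Fr L x y → cov F s(x, y) ≤ 1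
  span : ∀ x, Ev H x → x ∈ Submodule.span (ZMod 2) (F : Set (Vec V))

/-- The induction hypothesis of the two paths theorem. -/
def TPih [Fintype V] (H : SimpleGraph V) : Prop :=
  ∀ (H' : SimpleGraph V) (L' : List V), H'.edgeSet.ncard < H.edgeSet.ncard → Frame H' L' →
    ¬ Cross H' L' → FC H' L' → ∃ F, Basis H' L' F

/-- The vertices `q 0, …, q k`. -/
noncomputable def qs (k : ℕ) (q : ℕ → V) : Finset V := (range (k + 1)).image q

/-- The frame is `q k :: M ++ [q 0]` and `q` is a path from `q 0` to `q k` off the frame. -/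
structure PQ (H : SimpleGraph V) (M : List V) (k : ℕ) (q : ℕ → V) : Prop where
  fr : Frame H (q k :: (M ++ [q 0]))
  two : 2 ≤ k
  adj : ∀ i < k, H.Adj (q i) (q (i + 1))
  inj : ∀ i ≤ k, ∀ j ≤ k, q i = q j → i = j
  off : ∀ i ≤ k, q i ∉ M

/-- The vertices that reach `M` off the path `q`. -/
noncomputable def KK [Fintype V] (H : SimpleGraph V) (M : List V) (k : ℕ) (q : ℕ → V) :
    Finset V :=
  univ.filter fun v => ∃ m ∈ M, R H (univ \ qs k q) m v

/-- `U` is connected and joins `q i` to `q l`. -/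
def Span (H : SimpleGraph V) (q : ℕ → V) (U : Finset V) (i l : ℕ) : Prop :=
  Conn H U ∧ Act H U (q i) ∧ Act H U (q l)

/-- No rerouting enlarges the part that reaches `M`. -/
def RR [Fintype V] (H : SimpleGraph V) (M : List V) (k : ℕ) (q : ℕ → V) : Prop :=
  ∀ U i j l, Span H q U i l → Disjoint U (qs k q) → Disjoint U (KK H M k q) → i < j → j < l →
    l ≤ k → ¬ Act H (KK H M k q) (q j)

/-- The path has no chord except between its ends. -/
def NC (H : SimpleGraph V) (k : ℕ) (q : ℕ → V) : Prop :=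
  ∀ i j, i + 2 ≤ j → j ≤ k → H.Adj (q i) (q j) → i = 0 ∧ j = k

/-- An exit from `q j` to `M` inside `KK` that avoids `U`. -/
def Exit [Fintype V] (H : SimpleGraph V) (M : List V) (k : ℕ) (q : ℕ → V) (U : Finset V)
    (j : ℕ) : Prop :=
  ∃ m ∈ M, ∃ y ∈ KK H M k q \ U, H.Adj (q j) y ∧ R H (KK H M k q \ U) y m

def Good [Fintype V] (H : SimpleGraph V) (M : List V) (k : ℕ) (q : ℕ → V) (U : Finset V) : Prop :=
  U ⊆ KK H M k q ∧ (∀ u ∈ U, u ∉ M) ∧
    ∃ i j l, i < j ∧ j < l ∧ l ≤ k ∧ Span H q U i l ∧ Exit H M k q U j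

/-- A spanning set with a neighbour on `M` and an exit that avoids both are impossible. -/
def XL [Fintype V] (H : SimpleGraph V) (M : List V) (k : ℕ) (q : ℕ → V) : Prop :=
  ∀ U i j l, U ⊆ KK H M k q → (∀ u ∈ U, u ∉ M) → i < j → j < l → l ≤ k → Span H q U i l →
    ∀ w ∈ M, Act H U w → ¬ Exit H M k q (insert w U) j

/-- The vertices off the path, different from `z` and not in `K'`. -/
noncomputable def WW [Fintype V] (k : ℕ) (q : ℕ → V) (z : V) (K' : Finset V) : Finset V :=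
  (univ \ qs k q) \ insert z K'

/-- The lens lemma. -/
def LL [Fintype V] (H : SimpleGraph V) (M : List V) (k : ℕ) (q : ℕ → V) : Prop :=
  ∀ (z : V) (K' : Finset V), (∀ m ∈ M, m ∈ K' ∨ m = z) →
    (∀ w ∈ WW k q z K', ¬ Act H K' w) →
    (∀ U ⊆ WW k q z K', ∀ i j l, i < j → j < l → l ≤ k → Span H q U i l →
      ¬ Act H K' (q j)) →
    ∀ U ⊆ WW k q z K', ∀ i l, i + 2 ≤ l → l ≤ k → ¬ Span H q U i l

/-! ### Five-cycle double covers -/

/-- Sets of colours. -/
abbrev V5 := Fin 5 → ZMod 2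

/-- Exactly two colours. -/
def Q (x : V5) : Prop := (univ.filter fun c => x c = 1).card = 2

instance decQ (x : V5) : Decidable (Q x) := Nat.decEq _ _

/-- The boundary of `ψ` on the edge set `B` (no orientation). -/
noncomputable def bd {E M : Type} [AddCommMonoid M] (G : MG V E) (B : Finset E) (ψ : E → M)
    (v : V) : M :=
  ∑ e ∈ B, ((if G.l e = v then ψ e else 0) + (if G.r e = v then ψ e else 0))

/-- A five-cycle double cover. -/
def Cdc {E : Type} (G : MG V E) : Prop :=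
  ∃ ψ : E → V5, (∀ e ∈ G.A, Q (ψ e)) ∧ ∀ v, bd G G.A ψ v = 0

/-- A smallest counterexample. -/
structure MinC {E : Type} (G : MG V E) : Prop where
  br : G.Bridgeless
  nf : ¬ Cdc G
  np : ¬ G.HasP
  mn : ∀ A' ρ, A' ⊆ G.A → A'.card < G.A.card → G.Fib ρ → (G.minor A' ρ).Bridgeless →
    Cdc (G.minor A' ρ)

/-- A circuit with vertices `v 0, …, v (n-1)` and edges `e i` from `v i` to `v (i+1)`. -/
structure Circ {E : Type} (G : MG V E) (n : ℕ) (v : ℕ → V) (e : ℕ → E) : Prop where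
  pos : 1 ≤ n
  vinj : ∀ i < n, ∀ j < n, v i = v j → i = j
  einj : ∀ i < n, ∀ j < n, e i = e j → i = j
  cl : v n = v 0
  mem : ∀ i < n, e i ∈ G.A
  ends : ∀ i < n, G.Ends (e i) (v i) (v (i + 1))

/-- The edges that are not on the circuit. -/
noncomputable def off {E : Type} (G : MG V E) (n : ℕ) (e : ℕ → E) : Finset E :=
  G.A \ (range n).image e

/-- The vertices of the circuit lie in one component of the rest. -/
def RC0 {E : Type} (G : MG V E) (n : ℕ) (v : ℕ → V) (e : ℕ → E) : Prop :=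
  ∀ Y : Set V, G.cut (off G n e) Y = ∅ → ∀ i < n, ∀ j < n, (v i ∈ Y ↔ v j ∈ Y)

/-- The boundary values extend to a circuit with ten edges. -/
def Ext (b : Fin 10 → V5) : Prop :=
  ∃ y : Fin 10 → V5, (∀ i, Q (y i)) ∧ ∀ i, b (i + 1) = y i + y (i + 1)

noncomputable def push {M : Type} [AddCommMonoid M] (τ : Fin 10 → V) (b : Fin 10 → M) (v : V) :
    M := ∑ i, if τ i = v then b i else 0

/-- The pair that holds position `i`. -/
def half (i : Fin 10) : Fin 5 := ⟨i.1 / 2, by omega⟩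

/-- An abstract system of Kempe switches.  `K s c d Y` says that the colours `c`, `d` can be
switched on the set `Y` of terminals. -/
structure KSys where
  S : Type
  b : S → Fin 10 → V5
  K : S → Fin 5 → Fin 5 → (Fin 10 → ZMod 2) → Prop
  sym : ∀ s c d Y, K s c d Y → K s d c Y
  zero : ∀ s c d, K s c d 0
  add : ∀ s c d Y Y', K s c d Y → K s c d Y' → K s c d (Y + Y')
  sw : ∀ s c d Y, c ≠ d → K s c d Y → ∃ s',
    (∀ i a, b s' i a = b s i a + if a = c ∨ a = d then Y i else 0) ∧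
    (∀ Y', K s c d Y' → K s' c d Y') ∧
    ∀ c' d' Y', c' ≠ c → c' ≠ d → d' ≠ c → d' ≠ d → K s c' d' Y' → K s' c' d' Y'
  mat : ∀ s c d, c ≠ d → ∃ μ : Fin 10 → Fin 10, ∀ i, b s i c ≠ b s i d →
    μ i ≠ i ∧ μ (μ i) = i ∧ b s (μ i) c ≠ b s (μ i) d ∧
      K s c d (fun j => if j = i ∨ j = μ i then 1 else 0)

/-- Some state of the system is extendable. -/
def KSys.Goal (X : KSys) : Prop := ∃ s, Ext (X.b s)

/-- The underlying simple graph. -/
def sg {E : Type} (G : MG V E) : SimpleGraph V where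
  Adj u v := u ≠ v ∧ G.Adj G.A u v
  symm := ⟨fun _ _ h => ⟨h.1.symm, h.2.symm⟩⟩
  loopless := ⟨fun _ h => h.1 rfl⟩

end Pool.Agent.MP_e6539c_co.C5
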