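import Mathlib.GroupTheory.GroupAction.Ring
import Pool.Agent.MP_e6539c_co.C5.Basic

/-! An extremal path between the ends of a frame: no rerouting and no chord. -/

set_option autoImplicit false

namespace Pool.Agent.MP_e6539c_co.C5

open Finset
open Pool.Agent.MP_7be75d_co (R Conn comp)
open Pool.Agent.MP_7be75d_co
open scoped Classical

namespace Extq

variable {V : Type} {H : SimpleGraph V}

/-- A path from `x` to `y` through a connected set in which both have a neighbour. -/
theorem bridge {U : Finset V} {x y : V} (c : Conn H U) (hx : Act H U x) (hy : Act H U y) :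
    ∃ (s : ℕ) (h : ℕ → V), 1 ≤ s ∧ h 0 = x ∧ h (s + 1) = y ∧ (∀ t, 1 ≤ t → t ≤ s → h t ∈ U) ∧
      (∀ t ≤ s, H.Adj (h t) (h (t + 1))) ∧
      ∀ t, 1 ≤ t → t ≤ s → ∀ t', 1 ≤ t' → t' ≤ s → h t = h t' → t = t' := by
  obtain ⟨w, hw, xw⟩ := hx
  obtain ⟨w', hw', yw⟩ := hy
  obtain ⟨L, f, f0, fL, fS, fA, fI⟩ := (c.2 w hw w' hw').exists_path hw
  refine ⟨L + 1, fun n => if n = 0 then x else if n ≤ L + 1 then f (n - 1) else y, by omega,
    by simp, by simp, ?_, ?_, ?_⟩
  · intro t h1 h2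
    simp only [show t ≠ 0 by omega, h2, if_true, if_false]
    exact fS _ (by omega)
  · intro t ht
    by_cases h0 : t = 0
    · subst h0
      simpa [f0] using xw
    · by_cases h1 : t = L + 1
      · subst h1
        simpa [fL] using yw.symm
      · simp only [h0, ht, show t + 1 ≠ 0 by omega, show t + 1 ≤ L + 1 by omega, if_true,
          if_false]
        have := fA (t - 1) (by omega)
        rwa [show t - 1 + 1 = t + 1 - 1 by omega] at this
  · intro t h1 h2 t' h1' h2'
    simp only [show t ≠ 0 by omega, show t' ≠ 0 by omega, h2, h2', if_true, if_false]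
    intro e
    have := fI _ (by omega) _ (by omega) e
    omega

/-- The path `q 0, …, q i, h 1, …, h s, q l, …`. -/
def spl (q h : ℕ → V) (i s l : ℕ) (n : ℕ) : V :=
  if n ≤ i then q n else if n ≤ i + s then h (n - i) else q (n - (i + s + 1) + l)

theorem spl_lo {q h : ℕ → V} {i s l n : ℕ} (hn : n ≤ i) : spl q h i s l n = q n := by
  simp [spl, hn]

theorem spl_mid {q h : ℕ → V} {i s l n : ℕ} (h1 : i < n) (h2 : n ≤ i + s) :
    spl q h i s l n = h (n - i) := by
  simp [spl, h2, not_le.2 h1]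

theorem spl_hi {q h : ℕ → V} {i s l n : ℕ} (h1 : i + s < n) :
    spl q h i s l n = q (n - (i + s + 1) + l) := by
  simp [spl, not_le.2 h1, show ¬ n ≤ i by omega]

/-- Splicing a detour into the path. -/
theorem splice {M : List V} {k : ℕ} {q h : ℕ → V} {i s l : ℕ} (P : PQ H M k q) (il : i < l)
    (lk : l ≤ k) (h0 : h 0 = q i) (h1 : h (s + 1) = q l)
    (off : ∀ t, 1 ≤ t → t ≤ s → h t ∉ qs k q ∧ h t ∉ M) (adj : ∀ t ≤ s, H.Adj (h t) (h (t + 1)))
    (inj : ∀ t, 1 ≤ t → t ≤ s → ∀ t', 1 ≤ t' → t' ≤ s → h t = h t' → t = t')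
    (two : 2 ≤ i + s + 1 + (k - l)) :
    spl q h i s l 0 = q 0 ∧ spl q h i s l (i + s + 1 + (k - l)) = q k ∧
      PQ H M (i + s + 1 + (k - l)) (spl q h i s l) ∧
      ∀ x ∈ qs (i + s + 1 + (k - l)) (spl q h i s l),
        (∃ n ≤ k, (n ≤ i ∨ l ≤ n) ∧ q n = x) ∨ ∃ t, 1 ≤ t ∧ t ≤ s ∧ h t = x := by
  have e0 : spl q h i s l 0 = q 0 := spl_lo (Nat.zero_le _)
  have e1 : spl q h i s l (i + s + 1 + (k - l)) = q k := by
    rw [spl_hi (by omega)]
    congr 1
    omega
  have cases3 : ∀ n ≤ i + s + 1 + (k - l),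
      (∃ m ≤ k, (m ≤ i ∧ m = n ∨ l ≤ m ∧ i + s < n ∧ m + (i + s + 1) = n + l) ∧
        spl q h i s l n = q m) ∨
      ∃ t, 1 ≤ t ∧ t ≤ s ∧ t + i = n ∧ spl q h i s l n = h t := by
    intro n hn
    by_cases a : n ≤ i
    · exact Or.inl ⟨n, by omega, Or.inl ⟨a, rfl⟩, spl_lo a⟩
    · by_cases b : n ≤ i + s
      · exact Or.inr ⟨n - i, by omega, by omega, by omega, spl_mid (by omega) b⟩
      · exact Or.inl ⟨n - (i + s + 1) + l, by omega, Or.inr ⟨by omega, by omega, by omega⟩,
          spl_hi (by omega)⟩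
  have mid : ∀ n, i ≤ n → n ≤ i + s + 1 → spl q h i s l n = h (n - i) := by
    intro n a b
    by_cases c : n = i
    · subst c
      rw [spl_lo le_rfl, Nat.sub_self, h0]
    · by_cases d : n = i + s + 1
      · subst d
        rw [spl_hi (by omega), show i + s + 1 - i = s + 1 by omega, h1]
        congr 1
        omega
      · exact spl_mid (by omega) (by omega)
  refine ⟨e0, e1, ⟨by rw [e0, e1]; exact P.fr, two, ?_, ?_, ?_⟩, ?_⟩
  · intro n hn
    by_cases a : n + 1 ≤ i
    · rw [spl_lo a, spl_lo (by omega)]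
      exact P.adj n (by omega)
    · by_cases b : n ≤ i + s
      · rw [mid n (by omega) (by omega), mid (n + 1) (by omega) (by omega),
          show n + 1 - i = n - i + 1 by omega]
        exact adj _ (by omega)
      · rw [spl_hi (by omega), spl_hi (by omega),
          show n + 1 - (i + s + 1) + l = n - (i + s + 1) + l + 1 by omega]
        exact P.adj _ (by omega)
  · intro n hn n' hn' e
    rcases cases3 n hn with ⟨m, m1, m2, m3⟩ | ⟨t, t1, t2, t3, t4⟩ <;>
      rcases cases3 n' hn' with ⟨m', m1', m2', m3'⟩ | ⟨t', t1', t2', t3', t4'⟩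
    · have := P.inj m m1 m' m1' (by rw [← m3, ← m3', e])
      omega
    · exact absurd (mem_qs.2 ⟨m, m1, by rw [← m3, ← t4', e]⟩) (off t' t1' t2').1
    · exact absurd (mem_qs.2 ⟨m', m1', by rw [← m3', ← t4, e]⟩) (off t t1 t2).1
    · have := inj t t1 t2 t' t1' t2' (by rw [← t4, ← t4', e])
      omega
  · intro n hn
    rcases cases3 n hn with ⟨m, m1, -, m3⟩ | ⟨t, t1, t2, -, t4⟩
    · rw [m3]
      exact P.off m m1
    · rw [t4]
      exact (off t t1 t2).2
  · intro x hx
    obtain ⟨n, hn, rfl⟩ := mem_qs.1 hx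
    rcases cases3 n hn with ⟨m, m1, m2, m3⟩ | ⟨t, t1, t2, -, t4⟩
    · exact Or.inl ⟨m, m1, by omega, m3.symm⟩
    · exact Or.inr ⟨t, t1, t2, t4.symm⟩

variable [Fintype V]

/-- A path that avoids the part reaching `M` does not shrink that part. -/
theorem KK_sub {M : List V} {k k' : ℕ} {q q' : ℕ → V} (P : PQ H M k q)
    (h : ∀ x ∈ qs k' q', x ∉ KK H M k q) : KK H M k q ⊆ KK H M k' q' := by
  intro v hv
  obtain ⟨m, hm, r⟩ := P.KK_reach hv
  refine mem_KK.2 ⟨m, hm, r.mono fun x hx => ?_⟩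
  exact mem_sdiff.2 ⟨mem_univ _, fun c => h x c hx⟩

omit [Fintype V] in
/-- The first path. -/
theorem first {a b : V} {M : List V} {U : Finset V} (fr : Frame H (b :: (M ++ [a])))
    (c : Conn H U) (hU : ∀ u ∈ U, u ∉ b :: (M ++ [a])) (ha : Act H U a) (hb : Act H U b) :
    ∃ k q, q 0 = a ∧ q k = b ∧ PQ H M k q := by
  obtain ⟨s, h, s1, h0, h1, hm, adj, inj⟩ := bridge c ha hb
  have nd := fr.nd
  simp only [List.nodup_cons, List.mem_append, List.mem_singleton, not_or,
    List.nodup_append] at nd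
  have aM : a ∉ M := fun c => nd.2.2.2 a c a (by simp) rfl
  have hne : ∀ t, 1 ≤ t → t ≤ s → h t ≠ a ∧ h t ≠ b ∧ h t ∉ M := by
    intro t t1 t2
    have := hU _ (hm t t1 t2)
    simp only [List.mem_cons, List.mem_append, List.not_mem_nil, or_false, not_or] at this
    exact ⟨this.2.2, this.1, this.2.1⟩
  refine ⟨s + 1, h, h0, h1, by rw [h0, h1]; exact fr, by omega, fun t ht => adj t (by omega),
    ?_, ?_⟩
  · intro t ht t' ht' e
    by_cases a0 : t = 0
    · subst a0
      by_contra ne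
      by_cases b1 : t' = s + 1
      · subst b1
        exact nd.1.2 (by rw [← h0, ← h1, e])
      · exact (hne t' (by omega) (by omega)).1 (by rw [← e, h0])
    · by_cases a1 : t = s + 1
      · subst a1
        by_contra ne
        by_cases b0 : t' = 0
        · subst b0
          exact nd.1.2 (by rw [← h0, ← h1, e])
        · exact (hne t' (by omega) (by omega)).2.1 (by rw [← e, h1])
      · by_cases b0 : t' = 0
        · subst b0
          exact absurd (by rw [e, h0]) (hne t (by omega) (by omega)).1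
        · by_cases b1 : t' = s + 1
          · subst b1
            exact absurd (by rw [e, h1]) (hne t (by omega) (by omega)).2.1
          · exact inj t (by omega) (by omega) t' (by omega) (by omega) e
  · intro t ht
    by_cases a0 : t = 0
    · subst a0
      rwa [h0]
    · by_cases a1 : t = s + 1
      · subst a1
        rw [h1]
        exact nd.1.1
      · exact (hne t (by omega) (by omega)).2.2

/-- A rerouting through a set off `KK` strictly enlarges `KK`. -/
theorem reroute {M : List V} {k : ℕ} {q : ℕ → V} (P : PQ H M k q) {U : Finset V} {i j l : ℕ}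
    (sp : Span H q U i l) (d1 : Disjoint U (qs k q)) (d2 : Disjoint U (KK H M k q)) (ij : i < j)
    (jl : j < l) (lk : l ≤ k) (act : Act H (KK H M k q) (q j)) :
    ∃ k' q', q' 0 = q 0 ∧ q' k' = q k ∧ PQ H M k' q' ∧
      (KK H M k q).card < (KK H M k' q').card := by
  obtain ⟨s, h, s1, h0, h1, hm, adj, inj⟩ := bridge sp.1 sp.2.1 sp.2.2
  obtain ⟨e0, e1, P', mem⟩ := splice P (ij.trans jl) lk h0 h1
    (fun t a b => ⟨disjoint_left.1 d1 (hm t a b),
      fun c => disjoint_left.1 d2 (hm t a b) (KK_of_M c)⟩) adj inj (by omega)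
  have sub := KK_sub P (k' := i + s + 1 + (k - l)) (q' := spl q h i s l) (by
    intro x hx c
    rcases mem x hx with ⟨n, n1, -, rfl⟩ | ⟨t, t1, t2, rfl⟩
    · exact P.KK_off c (mem_qs.2 ⟨n, n1, rfl⟩)
    · exact disjoint_left.1 d2 (hm t t1 t2) c)
  have qj : q j ∈ qs k q := mem_qs.2 ⟨j, by omega, rfl⟩
  refine ⟨_, _, e0, e1, P', card_lt_card ((ssubset_iff_of_subset sub).2 ⟨q j, ?_,
    fun c => P.KK_off c qj⟩)⟩
  obtain ⟨w, hw, a⟩ := act
  refine P'.KK_closed (sub hw) a.symm fun c => ?_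
  rcases mem _ c with ⟨n, n1, n2, e⟩ | ⟨t, t1, t2, e⟩
  · have := P.inj n n1 j (by omega) e
    omega
  · exact disjoint_left.1 d1 (hm t t1 t2) (e ▸ qj)

/-- A chord shortens the path and does not shrink `KK`. -/
theorem shorten {M : List V} {k : ℕ} {q : ℕ → V} (P : PQ H M k q) {i j : ℕ} (ij : i + 2 ≤ j)
    (jk : j ≤ k) (a : H.Adj (q i) (q j)) (ne : ¬ (i = 0 ∧ j = k)) :
    ∃ k' q', q' 0 = q 0 ∧ q' k' = q k ∧ PQ H M k' q' ∧ k' < k ∧
      (KK H M k q).card ≤ (KK H M k' q').card := by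
  obtain ⟨e0, e1, P', mem⟩ := splice (h := fun n => if n = 0 then q i else q j) (s := 0) P
    (show i < j by omega) jk (by simp) (by simp) (fun t a b => by omega)
    (fun t ht => by
      obtain rfl : t = 0 := by omega
      simpa using a) (fun t a b => by omega) (by omega)
  refine ⟨_, _, e0, e1, P', by omega, card_le_card (KK_sub P ?_)⟩
  intro x hx c
  rcases mem x hx with ⟨n, n1, -, rfl⟩ | ⟨t, t1, t2, -⟩
  · exact P.KK_off c (mem_qs.2 ⟨n, n1, rfl⟩)
  · omega

end Extq

theorem extq : ExtqStmt := by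
  intro V _ H a b M U fr c hU ha hb
  obtain ⟨k0, q0, s0, s1, s2⟩ := Extq.first fr c hU ha hb
  obtain ⟨⟨k, q⟩, ⟨e0, e1, P⟩, mx, mn⟩ := exists_lex_min
    (p := fun z : ℕ × (ℕ → V) => z.2 0 = a ∧ z.2 z.1 = b ∧ PQ H M z.1 z.2)
    (fun z => Fintype.card V - (KK H M z.1 z.2).card) (fun z => z.1) ⟨(k0, q0), s0, s1, s2⟩
  refine ⟨k, q, e0, e1, P, ?_, ?_⟩
  · intro W i j l sp d1 d2 ij jl lk act
    obtain ⟨k', q', f0, f1, P', lt⟩ := Extq.reroute P sp d1 d2 ij jl lk act
    have := mx (k', q') ⟨f0.trans e0, f1.trans e1, P'⟩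
    have := card_le_univ (KK H M k' q')
    dsimp only at *
    omega
  · intro i j ij jk adj
    by_contra ne
    obtain ⟨k', q', f0, f1, P', lt, le⟩ := Extq.shorten P ij jk adj ne
    have := mn (k', q') ⟨f0.trans e0, f1.trans e1, P'⟩ (Nat.sub_le_sub_left le _)
    dsimp only at *
    omega

end Pool.Agent.MP_e6539c_co.C5
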