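import Mathlib.Data.Set.Card
import Pool.Agent.MP_e6539c_co.C5.Bridge

/-! The extremal short circuit and the extremal component of the rest. -/

set_option autoImplicit false

namespace Pool.Agent.MP_e6539c_co.C5

open Finset
open Pool.Agent.MP_e6539c_co.TW (MG)
open scoped Classical

namespace KmaxA

variable {V E : Type} {G : MG V E} {n : ℕ} {v : ℕ → V} {e : ℕ → E}

/-- The component of `z` in the edge set `B`. -/
def cp (G : MG V E) (B : Finset E) (z : V) : Set V := {w | G.Conn B Set.univ z w}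

theorem cp_step {B : Finset E} {z a b : V} {f : E} (hf : f ∈ B) (h : G.Ends f a b)
    (ha : a ∈ cp G B z) : b ∈ cp G B z :=
  MG.Conn.trans ha (MG.Conn.single trivial trivial ⟨f, hf, h⟩)

theorem cp_cut (B : Finset E) (z : V) : G.cut B (cp G B z) = ∅ := by
  refine eq_empty_of_forall_notMem fun f hf => ?_
  obtain ⟨a, b⟩ := (MG.ends_lr f).mem_cut_iff.1 hf
  exact b ⟨cp_step a (MG.ends_lr f), cp_step a (MG.ends_lr f).symm⟩

def sh (n i t : ℕ) : ℕ := if t + i + 1 < n then t + i + 1 else t + i + 1 - n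

theorem rot (h : Circ G n v e) {i : ℕ} (hi : i < n) :
    Circ G n (fun t => v (sh n i t)) (fun t => e (sh n i t)) := by
  have lt : ∀ t < n, sh n i t < n := fun t a => by unfold sh; split_ifs <;> omega
  have inj : ∀ s < n, ∀ t < n, sh n i s = sh n i t → s = t := fun s a t b => by
    unfold sh; split_ifs <;> omega
  have nx : ∀ t < n, v (sh n i (t + 1)) = v (sh n i t + 1) := fun t a => by
    by_cases c : t + i + 2 = n
    · rw [show sh n i (t + 1) = 0 by unfold sh; split_ifs <;> omega,
        show sh n i t + 1 = n by unfold sh; split_ifs <;> omega, h.cl]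
    · congr 1; unfold sh; split_ifs <;> omega
  refine ⟨h.pos, fun s a t b c => inj s a t b (h.vinj _ (lt s a) _ (lt t b) c),
    fun s a t b c => inj s a t b (h.einj _ (lt s a) _ (lt t b) c), ?_,
    fun t a => h.mem _ (lt t a), fun t a => ?_⟩
  · by_cases c : i + 1 = n
    · rw [show sh n i n = n by unfold sh; split_ifs <;> omega,
        show sh n i 0 = 0 by unfold sh; split_ifs <;> omega, h.cl]
    · congr 1; unfold sh; split_ifs <;> omega
  · rw [nx t a]
    exact h.ends _ (lt t a)

theorem rot_off {i : ℕ} (hi : i < n) : off G n (fun t => e (sh n i t)) = off G n e := by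
  unfold off
  congr 1
  ext f
  simp only [mem_image, mem_range]
  constructor
  · rintro ⟨t, a, rfl⟩
    exact ⟨_, by unfold sh; split_ifs <;> omega, rfl⟩
  · rintro ⟨t, a, rfl⟩
    refine ⟨if i < t then t - i - 1 else t + n - i - 1, by split_ifs <;> omega, ?_⟩
    congr 1; unfold sh; split_ifs <;> omega

end KmaxA

open KmaxA BridgeAux in
theorem kmax (hC : CutStmt) (hS : ShortStmt) : KmaxStmt := by
  intro V E _ G hG n₀ v₀ e₀ c₀ l₀
  obtain ⟨-, hd, h3⟩ := hC V E G hG
  have ex : ∃ m, ∃ n v e z, Circ G n v e ∧ n ≤ 10 ∧ (∃ f ∈ G.A, G.Inc f z) ∧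
      11 * (Fintype.card V - (cp G (off G n e) z).ncard) + n = m :=
    ⟨_, n₀, v₀, e₀, v₀ 0, c₀, l₀, ⟨_, c₀.mem 0 c₀.pos, (c₀.ends 0 c₀.pos).inc_left⟩, rfl⟩
  obtain ⟨n, v, e, z, c, l, hz, hm⟩ := Nat.find_spec ex
  have mn := fun n' v' e' (c' : Circ G n' v' e') (l' : n' ≤ 10) =>
    Nat.find_min' ex ⟨n', v', e', z, c', l', hz, rfl⟩
  rw [← hm] at mn
  have hK := cp_cut (G := G) (off G n e) z
  set K := cp G (off G n e) z with hKd
  have sub : (range n).image e ⊆ G.A := fun f hf => by
    obtain ⟨i, a, rfl⟩ := mem_image.1 hf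
    exact c.mem i (mem_range.1 a)
  have cc : (G.cut G.A K).card =
      ((range n).filter fun i => ¬ (v i ∈ K ↔ v (i + 1) ∈ K)).card := by
    rw [MG.card_cut_split sub, ← card_cut_image c subset_rfl,
      show G.cut (G.A \ (range n).image e) K = ∅ from hK, card_empty, Nat.zero_add]
  have vn : ∀ P : V → Prop, (∀ i < n, P (v i)) → ∀ i < n, P (v (i + 1)) := fun P a i b => by
    rcases Nat.lt_or_ge (i + 1) n with d | d
    · exact a _ d
    · rw [show i + 1 = n by omega, c.cl]; exact a 0 c.pos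
  have side : ∀ Z : Set V, (G.cut G.A Z).card ≤ 2 → (∀ f ∈ G.A, ¬ (G.l f ∈ Z ∧ G.r f ∈ Z)) →
      ∀ u ∈ Z, (∃ f ∈ G.A, G.Inc f u) → False := by
    intro Z a b u hu hf
    have : (G.A.filter fun f => G.Inc f u) ⊆ G.cut G.A Z := by
      intro g hg
      rw [mem_filter] at hg
      have := b g hg.1
      refine mem_filter.2 ⟨hg.1, ?_⟩
      rcases hg.2 with h | h <;> rw [h] at this ⊢ <;> tauto
    have := card_le_card this
    have := hd u hf
    omega
  have i0 := (c.ends 0 c.pos).inc_left
  obtain ⟨a, a1, a2⟩ : ∃ a < n, v a ∈ K := by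
    by_contra hc
    push Not at hc
    have z0 : (G.cut G.A K).card = 0 := by
      rw [cc, card_eq_zero, filter_eq_empty_iff]
      intro i hi
      have := hc i (mem_range.1 hi)
      have := vn (· ∉ K) hc i (mem_range.1 hi)
      tauto
    rcases h3 K (by omega) with h | h
    · exact side K (by omega) h z (MG.Conn.refl _) hz
    · exact side Kᶜ (by rw [MG.cut_compl]; omega) h (v 0) (hc 0 c.pos) ⟨_, c.mem 0 c.pos, i0⟩
  obtain ⟨i, hi, i1, i2⟩ : ∃ i < n, v i ∈ K ∧ v (i + 1) ∉ K := by
    by_contra hc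
    push Not at hc
    have up : ∀ s, v s ∈ K → ∀ t, s ≤ t → t ≤ n → v t ∈ K := by
      intro s hs t ht
      induction ht with
      | refl => exact fun _ => hs
      | step _ ih => exact fun b => hc _ b (ih (Nat.le_of_succ_le b))
    have all := up 0 (c.cl ▸ up a a2 n a1.le le_rfl)
    refine hS V E G hG n v e c l fun Y hY => ?_
    have k : ∀ s < n, (z ∈ Y ↔ v s ∈ Y) := fun s b => by
      by_contra d
      obtain ⟨f, hf, -⟩ := MG.Conn.cross (all s (Nat.zero_le _) b.le) d
      rw [hY] at hf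
      exact notMem_empty _ hf
    exact fun s b t d => (k s b).symm.trans (k t d)
  have s1 : sh n i (n - 1) = i := by unfold sh; split_ifs <;> omega
  have s0 : v (sh n i 0) = v (i + 1) := by
    by_cases d : i + 1 = n
    · rw [show sh n i 0 = 0 by unfold sh; split_ifs <;> omega, d, c.cl]
    · congr 1; unfold sh; split_ifs <;> omega
  refine ⟨n, _, _, K, rot c hi, ?_, l, by rw [rot_off hi]; exact hK, by rw [s1]; exact i1,
    by rw [s0]; exact i2, fun n' v' e' c' l' h' => ?_⟩
  · by_contra hn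
    have e1 := (parity (fun i => v i ∈ K) n).2 (by rw [c.cl])
    have e2 := card_filter_le (range n) fun i => ¬ (v i ∈ K ↔ v (i + 1) ∈ K)
    rw [← cc, Nat.even_iff] at e1
    rw [← cc, card_range] at e2
    rcases h3 K (by omega) with h | h
    · exact side K (by omega) h _ i1 ⟨_, c.mem i hi, (c.ends i hi).inc_left⟩
    · exact side Kᶜ (by rw [MG.cut_compl]; omega) h _ i2 ⟨_, c.mem i hi, (c.ends i hi).inc_right⟩
  · rw [rot_off hi] at h'
    have ss : K ⊆ cp G (off G n' e') z := by
      intro w hw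
      have hw : G.Conn (off G n e) Set.univ z w := hw
      induction hw with
      | refl => exact MG.Conn.refl _
      | tail h1 h2 ih =>
        obtain ⟨-, -, f, hf, hen⟩ := h2
        refine cp_step (mem_sdiff.2 ⟨(mem_sdiff.1 hf).1, fun d => ?_⟩) hen (ih h1)
        obtain ⟨j, b, rfl⟩ := mem_image.1 d
        have x1 : _ ∈ K := h1
        have x2 : _ ∈ K := cp_step hf hen h1
        refine h' j (mem_range.1 b) hf ?_
        rcases hen with ⟨p, q⟩ | ⟨p, q⟩ <;> rw [p, q] <;> exact ⟨by assumption, by assumption⟩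
    have b1 := Set.ncard_le_ncard ss (Set.toFinite _)
    have b2 : (cp G (off G n' e') z).ncard ≤ Fintype.card V := by
      rw [← Nat.card_eq_fintype_card]; exact Set.ncard_le_card _
    have b3 := mn n' v' e' c' l'
    have eq : K = cp G (off G n' e') z := Set.eq_of_subset_of_ncard_le ss (by omega)
    refine ⟨by omega, ?_⟩
    by_contra d
    push Not at d
    refine i2 (eq ▸ cp_step (mem_sdiff.2 ⟨c.mem i hi, fun b => ?_⟩) (c.ends i hi) (eq ▸ i1))
    obtain ⟨j, b, q⟩ := mem_image.1 b
    exact d j (mem_range.1 b) (by rw [s1]; exact q)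

end Pool.Agent.MP_e6539c_co.C5
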