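import Mathlib.GroupTheory.GroupAction.Ring
import Pool.Agent.MP_e6539c_co.C5.Basic

/-! Pieces behind a three-cut: the cases of seven single neighbours and of two classes. -/

set_option autoImplicit false

namespace Pool.Agent.MP_e6539c_co.C5

open Finset
open Pool.Agent.MP_7be75d_co (R Conn comp)
open Pool.Agent.MP_7be75d_co
open scoped Classical

namespace Fc0

variable {V : Type} [Fintype V] {G : SimpleGraph V}

theorem size (hT : TreeStmt) (hG : Gi G) {Y X : Finset V} (hY : Pc G Y) (hX : X.card ≤ 7)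
    (hc : Cov G Y ↑X) : Y.card ≤ 5 :=
  hT V G Y X (fun _ => ∅) 0 7 5 (by simp) hG hY (fun _ => cls_empty Y) (fun _ _ => rfl) hX
    fun w hw x hx a => Or.inr (hc w hw x hx a)

theorem count (hG : Gi G) {Y X : Finset V} (hY : Pc G Y) (h : Y.card ≤ 9) (hc : Cov G Y ↑X) :
    Y.card + 2 ≤ (X.filter fun x => x ∉ Y ∧ Act G Y x).card :=
  (hY.count hc).trans (mks_fin hG X hY.conn h)

omit [Fintype V] in
theorem conn_one (w : V) : Conn G {w} :=
  ⟨singleton_nonempty w, fun a ha b hb => by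
    rw [mem_singleton.1 ha, mem_singleton.1 hb]
    exact R.refl⟩

theorem five (hG : Gi G) {Y₁ Y₂ X : Finset V} (p1 : Pc G Y₁) (p2 : Pc G Y₂) (hd : Disjoint Y₁ Y₂)
    (hX : X.card ≤ 7) (d2 : Disjoint X Y₂) (c1 : Cov G Y₁ ↑X) (c2 : Cov G Y₂ ↑X)
    (s2 : Y₂.card = 5) : False := by
  have h2 := count hG p2 (by omega) c2
  have h3 : (X.filter fun x => x ∉ Y₂ ∧ Act G Y₂ x) = X :=
    eq_of_subset_of_card_le (filter_subset _ _) (by omega)
  have h4 : ∀ x ∈ X, Act G Y₂ x := fun x hx => (mem_filter.1 (h3.symm ▸ hx)).2.2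
  have h5 := p1.count c1
  obtain ⟨p, hp, q, hq, hne, e⟩ := exists_ne_map_eq_of_card_lt_of_maps_to
    (s := mks G Y₁ ↑X) (t := Y₁) (f := Prod.snd) (by omega) fun p hp => (mem_mks.1 hp).2.2.1
  rw [mem_mks] at hp hq
  have h6 := share2 hG (conn_one p.2) p2.conn (disjoint_singleton_left.2
    (disjoint_left.1 hd hp.2.2.1)) (fun h => hne (Prod.ext h e))
    (fun h => hp.1 (mem_singleton.1 h ▸ hp.2.2.1)) (disjoint_left.1 d2 hp.2.1)
    ⟨_, mem_singleton_self _, hp.2.2.2⟩ ⟨_, mem_singleton_self _, e ▸ hq.2.2.2⟩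
    (h4 _ hp.2.1) (h4 _ hq.2.1)
  rw [card_singleton] at h6
  omega

theorem two (hT : TreeStmt) (hG : Gi G) {Y₁ Y₂ X : Finset V} {a b : V} (p1 : Pc G Y₁)
    (p2 : Pc G Y₂) (hd : Disjoint Y₁ Y₂) (hX : X.card ≤ 7) (d1 : Disjoint X Y₁)
    (d2 : Disjoint X Y₂) (c1 : Cov G Y₁ ↑X) (c2 : Cov G Y₂ ↑X) (ha : a ∈ X) (hab : a ≠ b)
    (a1 : Act G Y₁ a) (b1 : Act G Y₁ b) (a2 : Act G Y₂ a) (b2 : Act G Y₂ b) : False := by
  have s1 := size hT hG p1 hX c1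
  have s2 := size hT hG p2 hX c2
  have h1 := share2 hG p1.conn p2.conn hd hab (disjoint_left.1 d1 ha) (disjoint_left.1 d2 ha)
    a1 b1 a2 b2
  by_cases h : Y₂.card = 5
  · exact five hG p1 p2 hd hX d2 c1 c2 h
  · exact five hG p2 p1 hd.symm hX d1 c2 c1 (by omega)

/-- A piece that avoids `e` is paid by the single neighbours other than `a`, `b`, `e`. -/
theorem card_le (hG : Gi G) {Y X X₀ : Finset V} {a b e : V} (p : Pc G Y) (h : Y.card ≤ 9)
    (c : Cov G Y ↑X) (hX : ∀ x ∈ X, x = a ∨ x = b ∨ x = e ∨ x ∈ X₀) (he : ¬ Act G Y e) :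
    Y.card ≤ (X₀.filter fun x => x ∈ X ∧ x ≠ a ∧ x ≠ b ∧ Act G Y x).card := by
  have h1 := count hG p h c
  have h2 : (X.filter fun x => x ∉ Y ∧ Act G Y x) ⊆
      insert a (insert b (X₀.filter fun x => x ∈ X ∧ x ≠ a ∧ x ≠ b ∧ Act G Y x)) := by
    intro x hx
    rw [mem_filter] at hx
    by_cases h3 : x = a
    · exact mem_insert.2 (Or.inl h3)
    by_cases h4 : x = b
    · exact mem_insert_of_mem (mem_insert.2 (Or.inl h4))
    rcases hX x hx.1 with h5 | h5 | h5 | h5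
    · exact absurd h5 h3
    · exact absurd h5 h4
    · exact absurd (h5 ▸ hx.2.2) he
    · exact mem_insert_of_mem (mem_insert_of_mem (mem_filter.2 ⟨h5, hx.1, h3, h4, hx.2.2⟩))
  have h3 := (card_le_card h2).trans ((card_insert_le _ _).trans
    (Nat.add_le_add_right (card_insert_le _ _) 1))
  omega

end Fc0

open Fc0

theorem fc0 (hT : TreeStmt) : Fc0Stmt := by
  intro V _ G hG
  refine ⟨fun Y₁ Y₂ X a b p1 p2 hd hX d1 d2 c1 c2 ha _ => two hT hG p1 p2 hd hX d1 d2 c1 c2 ha, ?_⟩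
  intro Y₁ Y₂ Y₃ X X₀ a b e p1 p2 p3 d12 d13 d23 h0 hX d1 d2 d3 c1 c2 c3 hab hae hbe a1 b1 a2 e2
    b3 e3
  have hm : ∀ x, x ∈ X ↔ x = a ∨ x = b ∨ x = e ∨ x ∈ X₀ := fun x => by simp [hX]
  have ha : a ∈ X := (hm a).2 (Or.inl rfl)
  have hb : b ∈ X := (hm b).2 (Or.inr (Or.inl rfl))
  have he : e ∈ X := (hm e).2 (Or.inr (Or.inr (Or.inl rfl)))
  have h7 : X.card ≤ 7 := by
    have h1 := card_insert_le a (insert b (insert e X₀))
    have h2 := card_insert_le b (insert e X₀)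
    have h3 := card_insert_le e X₀
    rw [hX]
    omega
  have t12 : ∀ x, x ≠ a → Act G Y₁ x → ¬ Act G Y₂ x := fun x h h1 h2 =>
    two hT hG p1 p2 d12 h7 d1 d2 c1 c2 ha h.symm a1 h1 a2 h2
  have t13 : ∀ x, x ≠ b → Act G Y₁ x → ¬ Act G Y₃ x := fun x h h1 h2 =>
    two hT hG p1 p3 d13 h7 d1 d3 c1 c3 hb h.symm b1 h1 b3 h2
  have t23 : ∀ x, x ≠ e → Act G Y₂ x → ¬ Act G Y₃ x := fun x h h1 h2 =>
    two hT hG p2 p3 d23 h7 d2 d3 c2 c3 he h.symm e2 h1 e3 h2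
  have s1 := size hT hG p1 h7 c1
  have s2 := size hT hG p2 h7 c2
  have s3 := size hT hG p3 h7 c3
  have n1 := card_le (a := a) (b := b) (e := e) (X₀ := X₀) hG p1 (by omega) c1
    (fun x hx => (hm x).1 hx) fun h => t12 e hae.symm h e2
  have n2 := card_le (a := a) (b := e) (e := b) (X₀ := X₀) hG p2 (by omega) c2
    (fun x hx => by have := (hm x).1 hx; tauto) (t12 b hab.symm b1)
  have n3 := card_le (a := b) (b := e) (e := a) (X₀ := X₀) hG p3 (by omega) c3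
    (fun x hx => by have := (hm x).1 hx; tauto) (t13 a hab a1)
  set A₁ := X₀.filter fun x => x ∈ X ∧ x ≠ a ∧ x ≠ b ∧ Act G Y₁ x
  set A₂ := X₀.filter fun x => x ∈ X ∧ x ≠ a ∧ x ≠ e ∧ Act G Y₂ x
  set A₃ := X₀.filter fun x => x ∈ X ∧ x ≠ b ∧ x ≠ e ∧ Act G Y₃ x
  have u1 : Disjoint A₁ A₂ := disjoint_left.2 fun x h1 h2 =>
    t12 x (mem_filter.1 h1).2.2.1 (mem_filter.1 h1).2.2.2.2 (mem_filter.1 h2).2.2.2.2
  have u2 : Disjoint (A₁ ∪ A₂) A₃ := disjoint_left.2 fun x h1 h2 => by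
    rcases mem_union.1 h1 with h1 | h1
    · exact t13 x (mem_filter.1 h2).2.2.1 (mem_filter.1 h1).2.2.2.2 (mem_filter.1 h2).2.2.2.2
    · exact t23 x (mem_filter.1 h2).2.2.2.1 (mem_filter.1 h1).2.2.2.2 (mem_filter.1 h2).2.2.2.2
  have u3 : (A₁ ∪ A₂ ∪ A₃).card ≤ X₀.card := card_le_card
    (union_subset (union_subset (filter_subset _ _) (filter_subset _ _)) (filter_subset _ _))
  rw [card_union_of_disjoint u2, card_union_of_disjoint u1] at u3
  obtain ⟨w1, m1, x1⟩ := a1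
  obtain ⟨w2, m2, x2⟩ := b1
  obtain ⟨w3, m3, x3⟩ := b3
  obtain ⟨w4, m4, x4⟩ := e3
  obtain ⟨w5, m5, x5⟩ := e2
  obtain ⟨w6, m6, x6⟩ := a2
  have k1 : Y₁ ⊆ univ.erase a := fun x hx =>
    mem_erase.2 ⟨fun h => disjoint_left.1 d1 ha (h ▸ hx), mem_univ _⟩
  have k2 : Y₂ ⊆ univ.erase a := fun x hx =>
    mem_erase.2 ⟨fun h => disjoint_left.1 d2 ha (h ▸ hx), mem_univ _⟩
  have k3 : Y₃ ⊆ univ.erase a := fun x hx =>
    mem_erase.2 ⟨fun h => disjoint_left.1 d3 ha (h ▸ hx), mem_univ _⟩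
  have := hG (univ.erase a) a w1 w6 _ (notMem_erase _ _) x1 x6
    (fun h => disjoint_left.1 d12 m1 (h ▸ m6))
    ((((conn_wk p1.conn m1 m2).mono k1).via x2 (mem_erase.2 ⟨hab.symm, mem_univ _⟩) x3
      ((conn_wk p3.conn m3 m4).mono k3)).via x4 (mem_erase.2 ⟨hae.symm, mem_univ _⟩) x5
      ((conn_wk p2.conn m5 m6).mono k2))
  omega

theorem fc2 (hT : TreeStmt) : Fc2Stmt := by
  intro V _ G C y e S₁ S₂ hG h1 h2
  have one : ∀ Y ⊆ C, Pc G Y → Cov G Y (S₁ ∪ S₂ ∪ {y, e}) → Y.card ≤ 2 := by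
    intro Y hY p c
    have k : ∀ z : V, Cls G Y ({z} \ ↑Y) := fun z =>
      cls_sub hG (Set.subsingleton_singleton.anti Set.sdiff_subset) fun x hx => hx.2
    refine hT V G Y {e} ![S₁, S₂, {y} \ ↑Y, ∅] 3 1 2 (by simp) hG p (fun i => ?_)
      (fun i hi => ?_) (by simp) fun w hw x hx a => ?_
    · match i with
      | 0 => exact h1.mono hY subset_rfl
      | 1 => exact h2.mono hY subset_rfl
      | 2 => exact k y
      | 3 => exact cls_empty Y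
    · rw [show i = 3 from Fin.ext (by omega)]
      rfl
    · rcases c w hw x hx a with (h | h) | h | h
      exacts [.inl ⟨0, h⟩, .inl ⟨1, h⟩, .inl ⟨2, h, hx⟩, .inr (mem_singleton.2 h)]
  refine ⟨one, ?_⟩
  intro Y₁ s1 Y₂ s2 p1 p2 hd y1 y2 _ _ c1 c2 hy a1 a2 ⟨u, hu, w1, m1, x1⟩ ⟨v, hv, w2, m2, x2⟩
  have n1 := one Y₁ s1 p1 c1
  have n2 := one Y₂ s2 p2 c2
  have n3 : 4 ≤ Y₁.card - 1 + (Y₂.card - 1) + 2 := by
    obtain ⟨w3, m3, x3⟩ := a1
    obtain ⟨w4, m4, x4⟩ := a2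
    exact h1.two (u, w1) (v, w2) _ ⟨hu, s1 m1, x1⟩ ⟨hv, s2 m2, x2⟩
      (fun h => disjoint_left.1 hd m1 ((Prod.mk.inj h).2 ▸ m2))
      (((conn_wk p1.conn m1 m3).mono s1).via x3 hy x4 ((conn_wk p2.conn m4 m2).mono s2))
  have key : ∀ Y ⊆ C, Pc G Y → Cov G Y (S₁ ∪ S₂ ∪ {y, e}) → Y.card = 2 → y ≠ e ∧ Act G Y e := by
    intro Y hY p c h
    have k1 := p.count c
    have k2 := mks_union_le (G := G) Y (S₁ ∪ S₂) {y, e}
    have k3 := mks_union_le (G := G) Y S₁ S₂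
    have k4 := mks_cls_one p.conn (h1.mono hY subset_rfl) (by omega)
    have k5 := mks_cls_one p.conn (h2.mono hY subset_rfl) (by omega)
    have k6 := mks_fin hG {y, e} p.conn (by omega)
    rw [coe_pair] at k6
    have k7 : ({y, e} : Finset V).card ≤ 2 := card_le_two
    have k8 := eq_of_subset_of_card_le
      (filter_subset (fun x => x ∉ Y ∧ Act G Y x) ({y, e} : Finset V)) (by omega)
    refine ⟨?_, (mem_filter.1 (k8.symm ▸ (by simp : e ∈ ({y, e} : Finset V)))).2.2⟩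
    rintro rfl
    rw [k8, insert_eq_of_mem (mem_singleton_self _), card_singleton] at k6
    omega
  obtain ⟨hne, e1⟩ := key Y₁ s1 p1 c1 (by omega)
  obtain ⟨-, e2⟩ := key Y₂ s2 p2 c2 (by omega)
  have := share2 hG p1.conn p2.conn hd hne y1 y2 a1 e1 a2 e2
  omega

end Pool.Agent.MP_e6539c_co.C5
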