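import Mathlib.GroupTheory.GroupAction.Ring
import Pool.Agent.MP_e6539c_co.C5.Basic

/-! Pieces behind a three-cut: the case of one class and four single neighbours. -/

set_option autoImplicit false

namespace Pool.Agent.MP_e6539c_co.C5

open Finset
open Pool.Agent.MP_7be75d_co (R Conn comp)
open Pool.Agent.MP_7be75d_co
open scoped Classical

namespace Fc1

variable {V : Type} [Fintype V] {G : SimpleGraph V}

theorem count (hG : Gi G) {Y X : Finset V} {S : Set V} (p : Pc G Y) (h : Y.card ≤ 9)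
    (c : Cov G Y (S ∪ ↑X)) :
    Y.card + 2 ≤ (mks G Y S).card + (X.filter fun x => x ∉ Y ∧ Act G Y x).card := by
  have k1 := p.count c
  have k2 := mks_union_le (G := G) Y S ↑X
  have k3 := mks_fin hG X p.conn h
  omega

theorem size (hT : TreeStmt) (hG : Gi G) {Y X : Finset V} {S : Set V} (hS : Cls G Y S)
    (hX : X.card ≤ 4) (p : Pc G Y) (c : Cov G Y (S ∪ ↑X)) : Y.card ≤ 3 := by
  have h5 : Y.card ≤ 5 := by
    refine hT V G Y X ![S, ∅, ∅, ∅] 1 5 5 (by simp) hG p (fun i => ?_) (fun i hi => ?_)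
      (by omega) fun w hw x hx a => ?_
    · match i with
      | 0 => exact hS
      | 1 => exact cls_empty Y
      | 2 => exact cls_empty Y
      | 3 => exact cls_empty Y
    · match i, hi with
      | 0, hi => exact absurd hi (by simp)
      | 1, _ => rfl
      | 2, _ => rfl
      | 3, _ => rfl
    · rcases c w hw x hx a with h | h
      exacts [Or.inl ⟨0, h⟩, Or.inr h]
  have k1 := count hG p (by omega) c
  have k2 := card_filter_le X fun x => x ∉ Y ∧ Act G Y x
  have k3 := mks_cls_two p.conn hS (by omega)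
  have k4 := mks_cls_one p.conn hS (by omega)
  omega

omit [Fintype V] in
/-- Two pieces with a common neighbour in `C` and with edges to the class. -/
theorem far {C Y₁ Y₂ : Finset V} {S : Set V} {y : V} (hS : Cls G C S) (s1 : Y₁ ⊆ C)
    (s2 : Y₂ ⊆ C) (c1 : Conn G Y₁) (c2 : Conn G Y₂) (hd : Disjoint Y₁ Y₂) (hy : y ∈ C)
    (a1 : Act G Y₁ y) (a2 : Act G Y₂ y) (b1 : ∃ a ∈ S, Act G Y₁ a) (b2 : ∃ a ∈ S, Act G Y₂ a) :
    4 ≤ Y₁.card + Y₂.card := by
  obtain ⟨u, hu, w1, m1, x1⟩ := b1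
  obtain ⟨v, hv, w2, m2, x2⟩ := b2
  obtain ⟨w3, m3, x3⟩ := a1
  obtain ⟨w4, m4, x4⟩ := a2
  have := hS.two (u, w1) (v, w2) _ ⟨hu, s1 m1, x1⟩ ⟨hv, s2 m2, x2⟩
    (fun h => disjoint_left.1 hd m1 ((Prod.mk.inj h).2 ▸ m2))
    (((conn_wk c1 m1 m3).mono s1).via x3 hy x4 ((conn_wk c2 m4 m2).mono s2))
  have := card_pos.2 c1.1
  have := card_pos.2 c2.1
  omega

omit [Fintype V] in
/-- The active single vertices other than `y`, `y'`. -/
theorem act_le {Y X : Finset V} (y y' : V) :
    (X.filter fun x => x ∉ Y ∧ Act G Y x).card ≤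
      (((X.erase y).erase y').filter fun x => Act G Y x).card +
        (if Act G Y y then 1 else 0) + (if Act G Y y' then 1 else 0) := by
  have h : (X.filter fun x => x ∉ Y ∧ Act G Y x) ⊆
      (((X.erase y).erase y').filter fun x => Act G Y x) ∪
        ({y} : Finset V).filter (fun x => Act G Y x) ∪
        ({y'} : Finset V).filter (fun x => Act G Y x) := by
    intro x hx
    simp only [mem_filter, mem_union, mem_erase, mem_singleton] at hx ⊢
    by_cases h1 : x = y
    · exact Or.inl (Or.inr ⟨h1, hx.2.2⟩)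
    by_cases h2 : x = y'
    · exact Or.inr ⟨h2, hx.2.2⟩
    exact Or.inl (Or.inl ⟨⟨h2, h1, hx.1⟩, hx.2.2⟩)
  have k : ∀ z : V, (({z} : Finset V).filter fun x => Act G Y x).card =
      if Act G Y z then 1 else 0 := fun z => by
    rw [filter_singleton]
    split_ifs <;> simp
  have h1 := (card_le_card h).trans ((card_union_le _ _).trans
    (Nat.add_le_add_right (card_union_le _ _) _))
  rwa [k, k] at h1

end Fc1

open Fc1

theorem fc1 (hT : TreeStmt) : Fc1Stmt := by
  intro V _ G C X S hG hS hX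
  have one : ∀ Y ⊆ C, Pc G Y → Cov G Y (S ∪ ↑X) → Y.card ≤ 3 := fun Y hY p c =>
    size hT hG (hS.mono hY subset_rfl) hX p c
  refine ⟨one, ?_, ?_⟩
  · intro Y₁ s1 Y₂ s2 y hy p1 p2 hd d1 d2 c1 c2 yC a1 a2 b1 b2
    have n1 := one Y₁ s1 p1 c1
    have n2 := one Y₂ s2 p2 c2
    have n3 := far hS s1 s2 p1.conn p2.conn hd yC a1 a2 b1 b2
    have k1 := count hG p1 (by omega) c1
    have k2 := count hG p2 (by omega) c2
    have k3 := mks_cls_one p1.conn (hS.mono s1 subset_rfl) (by omega)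
    have k4 := mks_cls_one p2.conn (hS.mono s2 subset_rfl) (by omega)
    have k5 := card_union_add_card_inter (X.filter fun x => x ∉ Y₁ ∧ Act G Y₁ x)
      (X.filter fun x => x ∉ Y₂ ∧ Act G Y₂ x)
    have k6 : ((X.filter fun x => x ∉ Y₁ ∧ Act G Y₁ x) ∪
        (X.filter fun x => x ∉ Y₂ ∧ Act G Y₂ x)).card ≤ X.card :=
      card_le_card (union_subset (filter_subset _ _) (filter_subset _ _))
    have k7 : ((X.filter fun x => x ∉ Y₁ ∧ Act G Y₁ x) ∩
        (X.filter fun x => x ∉ Y₂ ∧ Act G Y₂ x)).card ≤ ({y} : Finset V).card := by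
      refine card_le_card fun x hx => mem_singleton.2 ?_
      by_contra hne
      rw [mem_inter, mem_filter, mem_filter] at hx
      have := share2 hG p1.conn p2.conn hd hne hx.1.2.1 hx.2.2.1 hx.1.2.2 a1 hx.2.2.2 a2
      omega
    rw [card_singleton] at k7
    omega
  · intro Y₁ s1 Y₂ s2 Y₃ s3 y hy y' hy' p1 p2 p3 d12 d13 d23 d1 d2 d3 c1 c2 c3 hne yC y'C
      a1 a2 a3 a3' b1 b2
    have n1 := one Y₁ s1 p1 c1
    have n2 := one Y₂ s2 p2 c2
    have n3 := one Y₃ s3 p3 c3
    have t13 : ∀ x, x ≠ y → Act G Y₁ x → ¬ Act G Y₃ x := fun x h h1 h2 => by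
      have := share2 hG p1.conn p3.conn d13 h.symm (disjoint_left.1 d1 hy)
        (disjoint_left.1 d3 hy) a1 h1 a3 h2
      omega
    have t23 : ∀ x, x ≠ y' → Act G Y₂ x → ¬ Act G Y₃ x := fun x h h1 h2 => by
      have := share2 hG p2.conn p3.conn d23 h.symm (disjoint_left.1 d2 hy')
        (disjoint_left.1 d3 hy') a2 h1 a3' h2
      omega
    have e1 : ¬ Act G Y₁ y' := fun h => t13 y' hne.symm h a3'
    have e2 : ¬ Act G Y₂ y := fun h => t23 y hne h a3
    have k1 := count hG p1 (by omega) c1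
    have k2 := count hG p2 (by omega) c2
    have k3 := count hG p3 (by omega) c3
    have j1 := mks_cls_one p1.conn (hS.mono s1 subset_rfl) (by omega)
    have j2 := mks_cls_one p2.conn (hS.mono s2 subset_rfl) (by omega)
    have j3 := mks_cls_one p3.conn (hS.mono s3 subset_rfl) (by omega)
    have l1 := act_le (G := G) (Y := Y₁) (X := X) y y'
    have l2 := act_le (G := G) (Y := Y₂) (X := X) y y'
    have l3 := act_le (G := G) (Y := Y₃) (X := X) y y'
    rw [if_pos a1, if_neg e1] at l1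
    rw [if_neg e2, if_pos a2] at l2
    rw [if_pos a3, if_pos a3'] at l3
    have h0 : ((X.erase y).erase y').card ≤ 2 := by
      rw [card_erase_of_mem (mem_erase.2 ⟨hne.symm, hy'⟩), card_erase_of_mem hy]
      omega
    have hm : ∀ x ∈ (X.erase y).erase y', x ≠ y ∧ x ≠ y' ∧ x ∈ X := fun x hx => by
      rw [mem_erase, mem_erase] at hx
      exact ⟨hx.2.1, hx.1, hx.2.2⟩
    generalize (X.erase y).erase y' = X₀ at l1 l2 l3 h0 hm
    have g1 := card_filter_le X₀ fun x => Act G Y₁ x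
    have g2 := card_filter_le X₀ fun x => Act G Y₂ x
    have u1 : Disjoint (X₀.filter fun x => Act G Y₁ x) (X₀.filter fun x => Act G Y₂ x) := by
      refine disjoint_left.2 fun x h1 h2 => ?_
      rw [mem_filter] at h1 h2
      obtain ⟨f1, f2, f3⟩ := hm x h1.1
      obtain ⟨w1, m1, x1⟩ := h1.2
      obtain ⟨w2, m2, x2⟩ := a1
      obtain ⟨w3, m3, x3⟩ := a3
      obtain ⟨w4, m4, x4⟩ := a3'
      obtain ⟨w5, m5, x5⟩ := a2
      obtain ⟨w6, m6, x6⟩ := h2.2
      have q : ∀ Y : Finset V, Disjoint X Y → Y ⊆ univ.erase x := fun Y d z hz =>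
        mem_erase.2 ⟨fun h => disjoint_left.1 d f3 (h ▸ hz), mem_univ _⟩
      have := hG (univ.erase x) x w1 w6 _ (notMem_erase _ _) x1 x6
        (fun h => disjoint_left.1 d12 m1 (h ▸ m6))
        ((((conn_wk p1.conn m1 m2).mono (q _ d1)).via x2 (mem_erase.2 ⟨f1.symm, mem_univ _⟩) x3
          ((conn_wk p3.conn m3 m4).mono (q _ d3))).via x4 (mem_erase.2 ⟨f2.symm, mem_univ _⟩) x5
          ((conn_wk p2.conn m5 m6).mono (q _ d2)))
      omega
    have u2 : Disjoint ((X₀.filter fun x => Act G Y₁ x) ∪ (X₀.filter fun x => Act G Y₂ x))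
        (X₀.filter fun x => Act G Y₃ x) := by
      refine disjoint_left.2 fun x h1 h2 => ?_
      rw [mem_filter] at h2
      obtain ⟨f1, f2, -⟩ := hm x h2.1
      rcases mem_union.1 h1 with h1 | h1
      · exact t13 x f1 (mem_filter.1 h1).2 h2.2
      · exact t23 x f2 (mem_filter.1 h1).2 h2.2
    have u3 : ((X₀.filter fun x => Act G Y₁ x) ∪ (X₀.filter fun x => Act G Y₂ x) ∪
        (X₀.filter fun x => Act G Y₃ x)).card ≤ X₀.card := card_le_card
      (union_subset (union_subset (filter_subset _ _) (filter_subset _ _)) (filter_subset _ _))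
    rw [card_union_of_disjoint u2, card_union_of_disjoint u1] at u3
    have z1 := card_pos.2 p1.conn.1
    have z2 := card_pos.2 p2.conn.1
    have z3 := card_pos.2 p3.conn.1
    obtain ⟨p, hp⟩ := card_pos.1 (show 0 < (mks G Y₃ S).card by omega)
    rw [mem_mks] at hp
    have := far hS s1 s3 p1.conn p3.conn d13 yC a1 a3 b1 ⟨p.1, hp.2.1, p.2, hp.2.2⟩
    omega

end Pool.Agent.MP_e6539c_co.C5
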