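import Mathlib.GroupTheory.GroupAction.Ring
import Pool.Agent.MP_e6539c_co.C5.Basic

/-! Behind a three-cut of the terminal graph, an acyclic part carries no cycle. -/

set_option autoImplicit false

namespace Pool.Agent.MP_e6539c_co.C5

open Finset
open Pool.Agent.MP_7be75d_co (R Conn comp)
open Pool.Agent.MP_7be75d_co
open scoped Classical

namespace Fca

variable {V : Type} [Fintype V]

/-- The closed arc. -/
def arc (c : Fin 4 → V) (A : Fin 4 → List V) (i : Fin 4) : Set V :=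
  {x | x ∈ c i :: (A i ++ [c (i + 1)])}

/-- The terminals on the cut whose closed arc is a class. -/
noncomputable def IL (G : SimpleGraph V) (C : Finset V) (c : Fin 4 → V) (A : Fin 4 → List V)
    (t : Fin 4 → V) (Ys : Finset V) : Finset (Fin 4) :=
  univ.filter fun i => t i ∈ Ys ∧ Cls G C (arc c A i)

/-- The single vertices on the cut. -/
noncomputable def BB (G : SimpleGraph V) (C : Finset V) (c : Fin 4 → V) (A : Fin 4 → List V)
    (t : Fin 4 → V) (Z Ys : Finset V) : Finset V :=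
  (Ys \ Z) \ (IL G C c A t Ys).image t

/-- The situation of the module. -/
structure St (G Γ : SimpleGraph V) (C : Finset V) (c : Fin 4 → V) (A : Fin 4 → List V)
    (t : Fin 4 → V) (Z Ys : Finset V) : Prop where
  ks : Ks G Γ C c A
  ht : ∀ i, t i ∈ A i
  sub : Z ⊆ C
  acyc : ¬ Cyc G Z
  bd : ∀ z ∈ Z, ∀ w, (HK G C A t).Adj z w → w ∈ Z ∨ w ∈ Ys
  card : Ys.card ≤ 3

variable {G Γ : SimpleGraph V} {C : Finset V} {c : Fin 4 → V} {A : Fin 4 → List V}
  {t : Fin 4 → V} {Z Ys : Finset V}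

omit [Fintype V] in
theorem arc_A {i : Fin 4} {a : V} (h : a ∈ A i) : a ∈ arc c A i := by
  simp [arc, h]

omit [Fintype V] in
theorem arc_l (i : Fin 4) : c i ∈ arc c A i := by simp [arc]

omit [Fintype V] in
theorem arc_r (i : Fin 4) : c (i + 1) ∈ arc c A i := by simp [arc]

omit [Fintype V] in
theorem mem_IL {i : Fin 4} : i ∈ IL G C c A t Ys ↔ t i ∈ Ys ∧ Cls G C (arc c A i) := by
  simp [IL]

omit [Fintype V] in
theorem mem_BB {a : V} :
    a ∈ BB G C c A t Z Ys ↔ a ∈ Ys ∧ a ∉ Z ∧ ∀ i ∈ IL G C c A t Ys, t i ≠ a := by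
  simp [BB, and_assoc]

omit [Fintype V] in
theorem two_of_card {B : Finset V} {a b e : V} (h : B.card ≤ 2) (ha : a ∈ B) (hb : b ∈ B)
    (he : e ∈ B) (hab : a ≠ b) (hae : a ≠ e) : b = e := by
  by_contra hc
  have := two_lt_card_iff.2 ⟨a, b, e, ha, hb, he, hab, hae, hc⟩
  omega

namespace St

theorem comp_eq (h : St G Γ C c A t Z Ys) (z : V) : comp (HK G C A t) Z z = comp G Z z := by
  have ho := h.ks.t_out h.ht
  ext w
  simp only [mem_comp]
  exact ⟨fun k => ⟨k.1, k.2.mono'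
      (fun x y a hx hy => (hk_adj_CC ho (h.sub hx) (h.sub hy)).1 a) subset_rfl⟩,
    fun k => ⟨k.1, k.2.mono'
      (fun x y a hx hy => (hk_adj_CC ho (h.sub hx) (h.sub hy)).2 a) subset_rfl⟩⟩

theorem pc (h : St G Γ C c A t Z Ys) {z : V} (hz : z ∈ Z) : Pc G (comp G Z z) :=
  pc_comp h.ks.ctx.deg h.sub h.acyc hz

theorem psub (h : St G Γ C c A t Z Ys) (z : V) : comp G Z z ⊆ C := comp_subset.trans h.sub

/-- A short arc is its terminal. -/
theorem short (h : St G Γ C c A t Z Ys) {i : Fin 4} (h1 : t i ∈ Ys) (h2 : i ∉ IL G C c A t Ys)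
    {a : V} (ha : a ∈ A i) : a = t i := by
  rcases h.ks.ty i with k | k
  · exact absurd (mem_IL.2 ⟨h1, k⟩) h2
  · have h3 := h.ht i
    match hA : A i, k, ha, h3 with
    | [b], _, ha, h3 =>
      rw [List.mem_singleton] at ha h3
      rw [ha, h3]

theorem real_BB (h : St G Γ C c A t Z Ys) {w x : V} (hw : w ∈ Z) (hx : x ∉ Z) (hC : x ∈ C)
    (a : G.Adj x w) : x ∈ BB G C c A t Z Ys := by
  have ho := h.ks.t_out h.ht
  refine mem_BB.2 ⟨(h.bd w hw x ((hk_adj_CC ho (h.sub hw) hC).2 a.symm)).resolve_left hx, hx,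
    fun i _ e => ho i (e ▸ hC)⟩

theorem term_BB (h : St G Γ C c A t Z Ys) {i : Fin 4} (h1 : t i ∈ Ys)
    (h2 : i ∉ IL G C c A t Ys) : t i ∈ BB G C c A t Z Ys :=
  mem_BB.2 ⟨h1, fun k => h.ks.t_out h.ht i (h.sub k),
    fun _ hj e => h2 (h.ks.t_inj h.ht e ▸ hj)⟩

/-- The outside neighbours of a piece. -/
theorem cov (h : St G Γ C c A t Z Ys) {z w x : V} (hw : w ∈ comp G Z z) (hx : x ∉ comp G Z z)
    (a : G.Adj x w) :
    (∃ i ∈ IL G C c A t Ys, x ∈ arc c A i) ∨ x ∈ BB G C c A t Z Ys ∨ ∃ j, x = c j := by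
  have ho := h.ks.t_out h.ht
  have hwZ : w ∈ Z := comp_subset hw
  have hxZ : x ∉ Z := fun k => hx (comp_closed hw k a.symm)
  by_cases hC : x ∈ C
  · exact Or.inr (Or.inl (h.real_BB hwZ hxZ hC a))
  · obtain ⟨i, e | e⟩ := h.ks.cov w (h.sub hwZ) x hC a
    · exact Or.inr (Or.inr ⟨i, e⟩)
    · have h1 : t i ∈ Ys := (h.bd w hwZ (t i) ((hk_adj_Ct ho (h.ks.t_inj h.ht) (h.sub hwZ) i).2
        ⟨x, e, a.symm⟩)).resolve_left fun k => ho i (h.sub k)
      by_cases h2 : i ∈ IL G C c A t Ys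
      · exact Or.inl ⟨i, h2, arc_A e⟩
      · exact Or.inr (Or.inl (h.short h1 h2 e ▸ h.term_BB h1 h2))

/-- Every piece has a neighbour in the territory. -/
theorem real (h : St G Γ C c A t Z Ys) {z : V} (hz : z ∈ Z) :
    ∃ y ∈ BB G C c A t Z Ys, y ∈ C ∧ Act G (comp G Z z) y := by
  have : ∃ b ∈ C, b ∉ comp G Z z := by
    by_contra hc
    push Not at hc
    exact (h.pc hz).acyc (h.ks.ctx.cyc.mono hc)
  obtain ⟨b, hb, hb'⟩ := this
  obtain ⟨x, y, h1, h2, -, h4, h5⟩ :=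
    h.ks.ctx.conn.exit (h.sub hz) (self_mem_comp (G := G) hz) hb hb'
  exact ⟨y, h.real_BB (comp_subset h1) (fun k => h2 (comp_closed h1 k h5)) h4 h5.symm, h4,
    x, h1, h5.symm⟩

theorem card_le (h : St G Γ C c A t Z Ys) :
    (BB G C c A t Z Ys).card + (IL G C c A t Ys).card ≤ 3 := by
  have d : Disjoint (BB G C c A t Z Ys) ((IL G C c A t Ys).image t) := sdiff_disjoint
  rw [← card_image_of_injective (IL G C c A t Ys) (h.ks.t_inj h.ht), ← card_union_of_disjoint d]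
  refine le_trans (card_le_card fun x hx => ?_) h.card
  rcases mem_union.1 hx with hx | hx
  · exact (mem_BB.1 hx).1
  · obtain ⟨i, hi, rfl⟩ := mem_image.1 hx
    exact (mem_IL.1 hi).1

/-- A neighbour in the terminal graph is a single vertex or the terminal of a class. -/
theorem dich (h : St G Γ C c A t Z Ys) {w a : V} (hw : w ∈ Z) (ha : a ∉ Z)
    (k : (HK G C A t).Adj a w) : (a ∈ BB G C c A t Z Ys ∧ G.Adj a w) ∨
      ∃ i ∈ IL G C c A t Ys, a = t i ∧ ∃ a' ∈ A i, G.Adj a' w := by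
  have ho := h.ks.t_out h.ht
  rcases (hk_adj_in ho (h.sub hw)).1 k.symm with ⟨h1, h2⟩ | ⟨i, rfl, a', h1, h2⟩
  · exact Or.inl ⟨h.real_BB hw ha h1 h2.symm, h2.symm⟩
  · by_cases h3 : i ∈ IL G C c A t Ys
    · exact Or.inr ⟨i, h3, rfl, a', h1, h2.symm⟩
    · have h4 : t i ∈ Ys := (h.bd w hw _ k.symm).resolve_left ha
      exact Or.inl ⟨h.term_BB h4 h3, h.short h4 h3 h1 ▸ h2.symm⟩

theorem act_BB (h : St G Γ C c A t Z Ys) {z a : V} (ha : a ∈ BB G C c A t Z Ys)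
    (k : Act (HK G C A t) (comp G Z z) a) : Act G (comp G Z z) a := by
  obtain ⟨w, hw, k⟩ := k
  rcases h.dich (comp_subset hw) (mem_BB.1 ha).2.1 k with ⟨-, k'⟩ | ⟨i, hi, e, -⟩
  · exact ⟨w, hw, k'⟩
  · exact absurd e.symm ((mem_BB.1 ha).2.2 i hi)

theorem act_term (h : St G Γ C c A t Z Ys) {z : V} {i : Fin 4}
    (k : Act (HK G C A t) (comp G Z z) (t i)) : ∃ a ∈ arc c A i, Act G (comp G Z z) a := by
  obtain ⟨w, hw, k⟩ := k
  obtain ⟨a, h1, h2⟩ :=
    (hk_adj_Ct (h.ks.t_out h.ht) (h.ks.t_inj h.ht) (h.psub z hw) i).1 k.symm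
  exact ⟨a, arc_A h1, w, hw, h2.symm⟩

theorem act_or (h : St G Γ C c A t Z Ys) {z a : V} (ha : a ∉ Z)
    (k : Act (HK G C A t) (comp G Z z) a) :
    a ∈ BB G C c A t Z Ys ∨ ∃ i ∈ IL G C c A t Ys, a = t i := by
  obtain ⟨w, hw, k⟩ := k
  rcases h.dich (comp_subset hw) ha k with ⟨k', -⟩ | ⟨i, hi, e, -⟩
  · exact Or.inl k'
  · exact Or.inr ⟨i, hi, e⟩

theorem BB_out (_h : St G Γ C c A t Z Ys) {z a : V} (ha : a ∈ BB G C c A t Z Ys) :
    a ∉ comp G Z z := fun k => (mem_BB.1 ha).2.1 (comp_subset k)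

theorem c_out (h : St G Γ C c A t Z Ys) (z : V) (j : Fin 4) : c j ∉ comp G Z z :=
  fun k => h.ks.outc j (h.psub z k)

/-- A cut vertex has at most one neighbour in a small piece. -/
theorem uniq (h : St G Γ C c A t Z Ys) (h1 : ∀ z ∈ Z, (comp G Z z).card ≤ 9)
    (h2 : ∀ z ∈ Z, ∀ i ∈ IL G C c A t Ys, (comp G Z z).card ≤ 4) :
    ∀ z ∈ Z, ∀ y ∉ Z, ∀ w ∈ comp (HK G C A t) Z z, ∀ w' ∈ comp (HK G C A t) Z z,
      (HK G C A t).Adj y w → (HK G C A t).Adj y w' → w = w' := by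
  intro z hz y hy w hw w' hw' a a'
  rw [h.comp_eq] at hw hw'
  rcases h.dich (comp_subset hw) hy a with ⟨b1, b2⟩ | ⟨i, hi, rfl, u, u1, u2⟩
  · rcases h.dich (comp_subset hw') hy a' with ⟨-, b3⟩ | ⟨i, hi, e, -⟩
    · exact nbr_unique h.ks.ctx.gi (h.pc hz).conn (h1 z hz) (h.BB_out b1) hw hw' b2 b3
    · exact absurd e.symm ((mem_BB.1 b1).2.2 i hi)
  · obtain ⟨u', u3, u4⟩ :=
      (hk_adj_Ct (h.ks.t_out h.ht) (h.ks.t_inj h.ht) (h.psub z hw') i).1 a'.symm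
    by_contra hc
    have := h.ks.arc_far u1 u3 u2 u4.symm (fun e => hc (congrArg Prod.snd e))
      ((conn_wk (h.pc hz).conn hw hw').mono (h.psub z))
    have := h2 z hz i hi
    omega

end St

/-- The two patterns, in terms of the pieces. -/
def Pat (G : SimpleGraph V) (H : SimpleGraph V) (Z : Finset V) : Prop :=
  (∃ z₁ ∈ Z, ∃ z₂ ∈ Z, ∃ a ∉ Z, ∃ b ∉ Z, Disjoint (comp G Z z₁) (comp G Z z₂) ∧ a ≠ b ∧
    Act H (comp G Z z₁) a ∧ Act H (comp G Z z₁) b ∧ Act H (comp G Z z₂) a ∧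
    Act H (comp G Z z₂) b) ∨
  (∃ z₁ ∈ Z, ∃ z₂ ∈ Z, ∃ z₃ ∈ Z, ∃ a ∉ Z, ∃ b ∉ Z, ∃ e ∉ Z,
    Disjoint (comp G Z z₁) (comp G Z z₂) ∧ Disjoint (comp G Z z₁) (comp G Z z₃) ∧
    Disjoint (comp G Z z₂) (comp G Z z₃) ∧ a ≠ b ∧ a ≠ e ∧ b ≠ e ∧
    Act H (comp G Z z₁) a ∧ Act H (comp G Z z₁) b ∧ Act H (comp G Z z₂) a ∧
    Act H (comp G Z z₂) e ∧ Act H (comp G Z z₃) b ∧ Act H (comp G Z z₃) e)

/-- What the pattern lemma gives once the pieces are small. -/
def Small (G : SimpleGraph V) (C : Finset V) (c : Fin 4 → V) (A : Fin 4 → List V)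
    (t : Fin 4 → V) (Z Ys : Finset V) : Prop :=
  (∀ z ∈ Z, (comp G Z z).card ≤ 9) →
    (∀ z ∈ Z, ∀ i ∈ IL G C c A t Ys, (comp G Z z).card ≤ 4) → Pat G (HK G C A t) Z

/-! ### No class -/

theorem case0 (hT : TreeStmt) (h0 : Fc0Stmt) (h : St G Γ C c A t Z Ys)
    (hI : IL G C c A t Ys = ∅) (hp : Small G C c A t Z Ys) : False := by
  have hG := h.ks.ctx.gi
  have hB : (BB G C c A t Z Ys).card ≤ 3 := by have := h.card_le; omega
  have hc : (univ.image c).card ≤ 4 := card_image_le.trans (by simp)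
  have cv : ∀ z, Cov G (comp G Z z) ↑(BB G C c A t Z Ys ∪ univ.image c) := by
    intro z w hw x hx a
    rcases h.cov hw hx a with ⟨i, hi, -⟩ | k | ⟨j, rfl⟩
    · simp [hI] at hi
    · simp [k]
    · simp
  have dj : ∀ z, Disjoint (BB G C c A t Z Ys ∪ univ.image c) (comp G Z z) := by
    intro z
    refine disjoint_left.2 fun x hx => ?_
    rcases mem_union.1 hx with k | k
    · exact h.BB_out k
    · obtain ⟨j, -, rfl⟩ := mem_image.1 k
      exact h.c_out z j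
  have hX : (BB G C c A t Z Ys ∪ univ.image c).card ≤ 7 :=
    (card_union_le _ _).trans (by omega)
  have sz : ∀ z ∈ Z, (comp G Z z).card ≤ 5 := fun z hz =>
    hT V G _ _ (fun _ => ∅) 0 7 5 (by simp) hG (h.pc hz) (fun _ => cls_empty _)
      (fun _ _ => rfl) hX ((cv z).mono fun x hx => Or.inr hx)
  have inB : ∀ {z a}, a ∉ Z → Act (HK G C A t) (comp G Z z) a → a ∈ BB G C c A t Z Ys := by
    intro z a ha k
    rcases h.act_or ha k with k | ⟨i, hi, -⟩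
    · exact k
    · simp [hI] at hi
  rcases hp (fun z hz => (sz z hz).trans (by omega)) (fun z _ i hi => by simp [hI] at hi) with
    ⟨z₁, m1, z₂, m2, a, ha, b, hb, d, ab, k1, k2, k3, k4⟩ |
    ⟨z₁, m1, z₂, m2, z₃, m3, a, ha, b, hb, e, he, d1, d2, d3, ab, ae, be, k1, k2, k3, k4, k5, k6⟩
  · have a1 := inB ha k1
    have b1 := inB hb k2
    exact (h0 V G hG).1 _ _ _ a b (h.pc m1) (h.pc m2) d hX (dj _) (dj _) (cv _) (cv _)
      (mem_union_left _ a1) (mem_union_left _ b1) ab (h.act_BB a1 k1) (h.act_BB b1 k2)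
      (h.act_BB a1 k3) (h.act_BB b1 k4)
  · have a1 := inB ha k1
    have b1 := inB hb k2
    have e1 := inB he k4
    have eB : ({a, b, e} : Finset V) = BB G C c A t Z Ys :=
      eq_of_subset_of_card_le (by simp [insert_subset_iff, a1, b1, e1])
        (hB.trans (card_eq_three.2 ⟨a, b, e, ab, ae, be, rfl⟩).ge)
    exact (h0 V G hG).2 _ _ _ _ (univ.image c) a b e (h.pc m1) (h.pc m2) (h.pc m3) d1 d2 d3 hc
      (by rw [← eB]; simp) (dj _) (dj _) (dj _) (cv _) (cv _) (cv _) ab ae be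
      (h.act_BB a1 k1) (h.act_BB b1 k2) (h.act_BB a1 k3) (h.act_BB e1 k4) (h.act_BB b1 k5)
      (h.act_BB e1 k6)

/-! ### One class -/

theorem fin_one : ∀ i j : Fin 4, j = i ∨ j = i + 1 ∨ j = i + 2 ∨ j = i + 3 := by decide

theorem case1 (h1 : Fc1Stmt) (h : St G Γ C c A t Z Ys) {i : Fin 4}
    (hI : IL G C c A t Ys = {i}) (hp : Small G C c A t Z Ys) : False := by
  have hG := h.ks.ctx.gi
  have hB : (BB G C c A t Z Ys).card ≤ 2 := by
    have := h.card_le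
    rw [hI, card_singleton] at this
    omega
  have hS : Cls G C (arc c A i) := (mem_IL.1 (hI ▸ mem_singleton_self i)).2
  have cv : ∀ z, Cov G (comp G Z z)
      (arc c A i ∪ ↑(BB G C c A t Z Ys ∪ {c (i + 2), c (i + 3)})) := by
    intro z w hw x hx a
    rcases h.cov hw hx a with ⟨j, hj, k⟩ | k | ⟨j, rfl⟩
    · rw [hI, mem_singleton] at hj
      exact Or.inl (hj ▸ k)
    · exact Or.inr (by simp [k])
    · rcases fin_one i j with rfl | rfl | rfl | rfl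
      · exact Or.inl (arc_l _)
      · exact Or.inl (arc_r _)
      · exact Or.inr (by simp)
      · exact Or.inr (by simp)
  have dj : ∀ z, Disjoint (BB G C c A t Z Ys ∪ {c (i + 2), c (i + 3)}) (comp G Z z) := by
    intro z
    refine disjoint_left.2 fun x hx => ?_
    simp only [mem_union, mem_insert, mem_singleton] at hx
    rcases hx with k | rfl | rfl
    · exact h.BB_out k
    · exact h.c_out z _
    · exact h.c_out z _
  have hX : (BB G C c A t Z Ys ∪ {c (i + 2), c (i + 3)}).card ≤ 4 :=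
    (card_union_le _ _).trans (by have := card_le_two (a := c (i + 2)) (b := c (i + 3)); omega)
  obtain ⟨f1, f2, f3⟩ := h1 V G C _ _ hG hS hX
  have sz : ∀ z ∈ Z, (comp G Z z).card ≤ 3 := fun z hz => f1 _ (h.psub z) (h.pc hz) (cv z)
  have sh : ∀ z₁ ∈ Z, ∀ z₂ ∈ Z, ∀ a ∈ BB G C c A t Z Ys, ∀ b, a ≠ b →
      Disjoint (comp G Z z₁) (comp G Z z₂) → Act G (comp G Z z₁) a → Act G (comp G Z z₁) b →
      Act G (comp G Z z₂) a → Act G (comp G Z z₂) b → False := by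
    intro z₁ m1 z₂ m2 a ha b ab d k1 k2 k3 k4
    have := share2 hG (h.pc m1).conn (h.pc m2).conn d ab (h.BB_out ha) (h.BB_out ha) k1 k2 k3 k4
    have := sz z₁ m1
    have := sz z₂ m2
    omega
  have orr : ∀ {z a}, a ∉ Z → Act (HK G C A t) (comp G Z z) a →
      a ∈ BB G C c A t Z Ys ∨ a = t i := by
    intro z a ha k
    rcases h.act_or ha k with k | ⟨j, hj, e⟩
    · exact Or.inl k
    · rw [hI, mem_singleton] at hj
      exact Or.inr (hj ▸ e)
  have p1 : ∀ z₁ ∈ Z, ∀ z₂ ∈ Z, ∀ b ∈ BB G C c A t Z Ys, Disjoint (comp G Z z₁) (comp G Z z₂) →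
      Act (HK G C A t) (comp G Z z₁) (t i) → Act (HK G C A t) (comp G Z z₂) (t i) →
      Act G (comp G Z z₁) b → Act G (comp G Z z₂) b → False := by
    intro z₁ m1 z₂ m2 b hb d k1 k2 k3 k4
    by_cases hC : b ∈ C
    · exact f2 _ (h.psub _) _ (h.psub _) b (mem_union_left _ hb) (h.pc m1) (h.pc m2) d (dj _)
        (dj _) (cv _) (cv _) hC k3 k4 (h.act_term k1) (h.act_term k2)
    · obtain ⟨y, y1, y2, y3⟩ := h.real m1
      obtain ⟨y', y4, y5, y6⟩ := h.real m2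
      have e : y = y' := two_of_card hB hb y1 y4 (fun e => hC (e ▸ y2)) (fun e => hC (e ▸ y5))
      exact sh z₁ m1 z₂ m2 b hb y (fun e => hC (e ▸ y2)) d k3 y3 k4 (e ▸ y6)
  have p2 : ∀ z₁ ∈ Z, ∀ z₂ ∈ Z, ∀ z₃ ∈ Z, ∀ b ∈ BB G C c A t Z Ys, ∀ e ∈ BB G C c A t Z Ys,
      b ≠ e → Disjoint (comp G Z z₁) (comp G Z z₂) → Disjoint (comp G Z z₁) (comp G Z z₃) →
      Disjoint (comp G Z z₂) (comp G Z z₃) →
      Act (HK G C A t) (comp G Z z₁) (t i) → Act (HK G C A t) (comp G Z z₂) (t i) →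
      Act G (comp G Z z₁) b → Act G (comp G Z z₂) e → Act G (comp G Z z₃) b →
      Act G (comp G Z z₃) e → False := by
    intro z₁ m1 z₂ m2 z₃ m3 b hb e he be d1 d2 d3 k1 k2 k3 k4 k5 k6
    have hbC : b ∈ C := by
      by_contra hC
      obtain ⟨y, y1, y2, y3⟩ := h.real m1
      have q : e = y := two_of_card hB hb he y1 be (fun q => hC (q ▸ y2))
      exact sh z₁ m1 z₃ m3 b hb e be d2 k3 (q ▸ y3) k5 k6
    have heC : e ∈ C := by
      by_contra hC
      obtain ⟨y, y1, y2, y3⟩ := h.real m2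
      have q : b = y := two_of_card hB he hb y1 be.symm (fun q => hC (q ▸ y2))
      exact sh z₂ m2 z₃ m3 b hb e be d3 (q ▸ y3) k4 k5 k6
    exact f3 _ (h.psub _) _ (h.psub _) _ (h.psub _) b (mem_union_left _ hb) e
      (mem_union_left _ he) (h.pc m1) (h.pc m2) (h.pc m3) d1 d2 d3 (dj _) (dj _) (dj _) (cv _)
      (cv _) (cv _) be hbC heC k3 k4 k5 k6 (h.act_term k1) (h.act_term k2)
  rcases hp (fun z hz => (sz z hz).trans (by omega)) (fun z hz _ _ => (sz z hz).trans (by omega))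
    with ⟨z₁, m1, z₂, m2, a, ha, b, hb, d, ab, k1, k2, k3, k4⟩ |
    ⟨z₁, m1, z₂, m2, z₃, m3, a, ha, b, hb, e, he, d1, d2, d3, ab, ae, be, k1, k2, k3, k4, k5, k6⟩
  · rcases orr ha k1 with a1 | rfl <;> rcases orr hb k2 with b1 | b1
    · exact sh z₁ m1 z₂ m2 a a1 b ab d (h.act_BB a1 k1) (h.act_BB b1 k2) (h.act_BB a1 k3)
        (h.act_BB b1 k4)
    · subst b1
      exact p1 z₁ m1 z₂ m2 a a1 d k2 k4 (h.act_BB a1 k1) (h.act_BB a1 k3)
    · exact p1 z₁ m1 z₂ m2 b b1 d k1 k3 (h.act_BB b1 k2) (h.act_BB b1 k4)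
    · exact ab b1.symm
  · rcases orr ha k1 with a1 | a1 <;> rcases orr hb k2 with b1 | b1 <;>
      rcases orr he k4 with e1 | e1
    · exact be (two_of_card hB a1 b1 e1 ab ae)
    · subst e1
      exact p2 z₂ m2 z₃ m3 z₁ m1 a a1 b b1 ab d3 d1.symm d2.symm k4 k6 (h.act_BB a1 k3)
        (h.act_BB b1 k5) (h.act_BB a1 k1) (h.act_BB b1 k2)
    · subst b1
      exact p2 z₁ m1 z₃ m3 z₂ m2 a a1 e e1 ae d2 d1 d3.symm k2 k5 (h.act_BB a1 k1)
        (h.act_BB e1 k6) (h.act_BB a1 k3) (h.act_BB e1 k4)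
    · exact be (b1.trans e1.symm)
    · subst a1
      exact p2 z₁ m1 z₂ m2 z₃ m3 b b1 e e1 be d1 d2 d3 k1 k3 (h.act_BB b1 k2)
        (h.act_BB e1 k4) (h.act_BB b1 k5) (h.act_BB e1 k6)
    · exact ae (a1.trans e1.symm)
    · exact ab (a1.trans b1.symm)
    · exact ab (a1.trans b1.symm)

/-! ### Two classes -/

theorem fin_two : ∀ i j : Fin 4, i ≠ j →
    ∃ k, ∀ l, l = i ∨ l = i + 1 ∨ l = j ∨ l = j + 1 ∨ l = k := by decide

theorem cov2 (h : St G Γ C c A t Z Ys) {i j : Fin 4} (hij : i ≠ j)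
    (hI : IL G C c A t Ys = {i, j}) {y : V} (hy : ∀ x ∈ BB G C c A t Z Ys, x = y) :
    ∃ k, ∀ z, Cov G (comp G Z z) (arc c A i ∪ arc c A j ∪ {y, c k}) := by
  obtain ⟨k, hk⟩ := fin_two i j hij
  refine ⟨k, fun z w hw x hx a => ?_⟩
  rcases h.cov hw hx a with ⟨l, hl, q⟩ | q | ⟨l, rfl⟩
  · rw [hI, mem_insert, mem_singleton] at hl
    rcases hl with rfl | rfl
    · exact Or.inl (Or.inl q)
    · exact Or.inl (Or.inr q)
  · exact Or.inr (Or.inl (hy x q))
  · rcases hk l with rfl | rfl | rfl | rfl | rfl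
    · exact Or.inl (Or.inl (arc_l _))
    · exact Or.inl (Or.inl (arc_r _))
    · exact Or.inl (Or.inr (arc_l _))
    · exact Or.inl (Or.inr (arc_r _))
    · exact Or.inr (Or.inr rfl)

/-- Two pieces do not share the terminal of a class. -/
theorem share_term (h2 : Fc2Stmt) (h : St G Γ C c A t Z Ys) {i j : Fin 4} (hij : i ≠ j)
    (hI : IL G C c A t Ys = {i, j}) (hB : (BB G C c A t Z Ys).card ≤ 1) {z₁ z₂ : V}
    (m1 : z₁ ∈ Z) (m2 : z₂ ∈ Z) (d : Disjoint (comp G Z z₁) (comp G Z z₂))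
    (k1 : Act (HK G C A t) (comp G Z z₁) (t i)) (k2 : Act (HK G C A t) (comp G Z z₂) (t i)) :
    False := by
  obtain ⟨y, y1, y2, y3⟩ := h.real m1
  obtain ⟨y', y4, -, y6⟩ := h.real m2
  have hy : ∀ x ∈ BB G C c A t Z Ys, x = y := fun x hx => card_le_one.1 hB x hx y y1
  obtain ⟨k, cv⟩ := cov2 h hij hI hy
  have s1 : Cls G C (arc c A i) := (mem_IL.1 (show _ ∈ IL G C c A t Ys by simp [hI])).2
  have s2 : Cls G C (arc c A j) := (mem_IL.1 (show _ ∈ IL G C c A t Ys by simp [hI])).2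
  exact (h2 V G C y (c k) _ _ h.ks.ctx.gi s1 s2).2 _ (h.psub _) _ (h.psub _) (h.pc m1) (h.pc m2)
    d (h.BB_out y1) (h.BB_out y1) (h.c_out _ _) (h.c_out _ _) (cv _) (cv _) y2 y3
    (hy y' y4 ▸ y6) (h.act_term k1) (h.act_term k2)

theorem case2 (h2 : Fc2Stmt) (h : St G Γ C c A t Z Ys) {i j : Fin 4} (hij : i ≠ j)
    (hI : IL G C c A t Ys = {i, j}) (hp : Small G C c A t Z Ys) : False := by
  have hB : (BB G C c A t Z Ys).card ≤ 1 := by
    have := h.card_le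
    rw [hI, card_pair hij] at this
    omega
  have s1 : Cls G C (arc c A i) := (mem_IL.1 (show _ ∈ IL G C c A t Ys by simp [hI])).2
  have s2 : Cls G C (arc c A j) := (mem_IL.1 (show _ ∈ IL G C c A t Ys by simp [hI])).2
  have sz : ∀ z ∈ Z, (comp G Z z).card ≤ 2 := by
    intro z hz
    obtain ⟨y, y1, -, -⟩ := h.real hz
    obtain ⟨k, cv⟩ := cov2 h hij hI fun x hx => card_le_one.1 hB x hx y y1
    exact (h2 V G C y (c k) _ _ h.ks.ctx.gi s1 s2).1 _ (h.psub _) (h.pc hz) (cv _)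
  have key : ∀ z₁ ∈ Z, ∀ z₂ ∈ Z, ∀ a ∉ Z, Disjoint (comp G Z z₁) (comp G Z z₂) →
      Act (HK G C A t) (comp G Z z₁) a → Act (HK G C A t) (comp G Z z₂) a →
      a ∈ BB G C c A t Z Ys := by
    intro z₁ m1 z₂ m2 a ha d k1 k2
    rcases h.act_or ha k1 with q | ⟨l, hl, rfl⟩
    · exact q
    · rw [hI, mem_insert, mem_singleton] at hl
      rcases hl with rfl | rfl
      · exact (share_term h2 h hij hI hB m1 m2 d k1 k2).elim
      · exact (share_term h2 h hij.symm (hI.trans (pair_comm _ _)) hB m1 m2 d k1 k2).elim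
  rcases hp (fun z hz => (sz z hz).trans (by omega)) (fun z hz _ _ => (sz z hz).trans (by omega))
    with ⟨z₁, m1, z₂, m2, a, ha, b, hb, d, ab, k1, k2, k3, k4⟩ |
    ⟨z₁, m1, z₂, m2, z₃, m3, a, ha, b, hb, e, he, d1, d2, -, ab, -, -, k1, k2, k3, -, k5, -⟩
  · exact ab (card_le_one.1 hB a (key z₁ m1 z₂ m2 a ha d k1 k3) b (key z₁ m1 z₂ m2 b hb d k2 k4))
  · exact ab (card_le_one.1 hB a (key z₁ m1 z₂ m2 a ha d1 k1 k3) b
      (key z₁ m1 z₃ m3 b hb d2 k2 k5))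

end Fca

open Fca in
theorem fca (hT : TreeStmt) (hP : PatStmt) (h0 : Fc0Stmt) (h1 : Fc1Stmt) (h2 : Fc2Stmt) :
    FcaStmt := by
  intro V _ G Γ C c A t ks ht Z hZ hc y₁ y₂ y₃ hb x hx hs
  by_contra hne
  have h : St G Γ C c A t Z {y₁, y₂, y₃} :=
    ⟨ks, ht, hZ, hc, fun z hz w a => by simpa using hb z hz w a, card_le_three⟩
  have hH : ¬ Cyc (HK G C A t) Z := fun k => hc (k.mono' fun _ _ a p q =>
    (hk_adj_CC (ks.t_out ht) (hZ p) (hZ q)).1 a)
  have hp : Small G C c A t Z {y₁, y₂, y₃} := by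
    intro s1 s2
    have := hP V _ Z y₁ y₂ y₃ hb hH (h.uniq s1 s2) x hx hs hne
    simp only [h.comp_eq] at this
    exact this
  have hz : ∃ z, z ∈ Z := by
    by_contra k
    push Not at k
    refine hne (funext fun e => ?_)
    induction e using Sym2.ind with
    | _ u v =>
      by_contra q
      exact (hs u v q).elim (k u) (k v)
  obtain ⟨z, hz⟩ := hz
  obtain ⟨y, y1, -⟩ := h.real hz
  have b1 := card_pos.2 ⟨y, y1⟩
  have b2 := h.card_le
  have : (IL G C c A t {y₁, y₂, y₃}).card = 0 ∨ (IL G C c A t {y₁, y₂, y₃}).card = 1 ∨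
      (IL G C c A t {y₁, y₂, y₃}).card = 2 := by omega
  rcases this with k | k | k
  · exact case0 hT h0 h (card_eq_zero.1 k) hp
  · obtain ⟨i, e⟩ := card_eq_one.1 k
    exact case1 h1 h e hp
  · obtain ⟨i, j, hij, e⟩ := card_eq_two.1 k
    exact case2 h2 h hij e hp

end Pool.Agent.MP_e6539c_co.C5
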