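import Pool.Agent.MP_e6539c_co.C5.Basic

/-! A smallest counterexample has girth at least eleven. -/

set_option autoImplicit false

namespace Pool.Agent.MP_e6539c_co.C5

open Finset
open Pool.Agent.MP_7be75d_co (R Conn comp)
open Pool.Agent.MP_e6539c_co.TW (MG)
open scoped Classical

namespace Girth

variable {V E : Type} {G : MG V E}

theorem circ (n : ℕ) (v : ℕ → V) (h3 : 3 ≤ n) (hi : ∀ i < n, ∀ j < n, v i = v j → i = j)
    (h0 : v n = v 0) (ha : ∀ i < n, G.Adj G.A (v i) (v (i + 1))) : ∃ e, Circ G n v e := by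
  have ha' : ∀ i, ∃ e, i < n → e ∈ G.A ∧ G.Ends e (v i) (v (i + 1)) := fun i => by
    by_cases c : i < n
    · obtain ⟨e, h1, h2⟩ := ha i c
      exact ⟨e, fun _ => ⟨h1, h2⟩⟩
    · obtain ⟨e, -, -⟩ := ha 0 (by omega)
      exact ⟨e, fun d => absurd d c⟩
  choose e he using ha'
  have hs : ∀ i < n, ∀ j < n, v i = v (j + 1) → i = j + 1 ∨ (i = 0 ∧ j + 1 = n) := by
    intro i ci j cj c
    rcases Nat.lt_or_ge (j + 1) n with d | d
    · exact Or.inl (hi i ci _ d c)
    · have d' : j + 1 = n := by omega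
      rw [d', h0] at c
      exact Or.inr ⟨hi i ci 0 (by omega) c, d'⟩
  refine ⟨e, by omega, hi, fun i ci j cj c => ?_, h0, fun i c => (he i c).1, fun i c => (he i c).2⟩
  have h1 := (he i ci).2
  rw [c] at h1
  rcases h1.unique (he j cj).2 with d | d
  · exact hi i ci j cj d.1
  · have d1 := hs i ci j cj d.1
    have d2 := hs j cj i ci d.2.symm
    omega

theorem circ_wk {W : Finset V} {x w w' : V} {r : ℕ} (hx : x ∉ W) (a : (sg G).Adj x w)
    (a' : (sg G).Adj x w') (hw : w ≠ w') (hk : Wk (sg G) W w w' r) :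
    ∃ n ≤ r + 2, ∃ v e, Circ G n v e := by
  obtain ⟨L, f, l, rfl, rfl, f2, f3, f4⟩ := hk.exists_path
  have hL : L ≠ 0 := fun c => hw (by rw [c])
  refine ⟨L + 2, by omega, _, circ (L + 2) (fun i => if 1 ≤ i ∧ i ≤ L + 1 then f (i - 1) else x)
    (by omega) (fun i ci j cj c => ?_) (by simp) fun i ci => ?_⟩
  · by_cases c1 : 1 ≤ i ∧ i ≤ L + 1 <;> by_cases c2 : 1 ≤ j ∧ j ≤ L + 1
    · rw [if_pos c1, if_pos c2] at c
      have := f4 _ (by omega) _ (by omega) c
      omega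
    · rw [if_pos c1, if_neg c2] at c
      exact absurd (c ▸ f2 _ (by omega)) hx
    · rw [if_neg c1, if_pos c2] at c
      exact absurd (c ▸ f2 _ (by omega)) hx
    · omega
  · rcases Nat.eq_zero_or_pos i with rfl | c0
    · rw [if_neg (by omega), if_pos (by omega)]
      exact a.2
    · rcases Nat.lt_or_ge i (L + 1) with c1 | c1
      · rw [if_pos (by omega), if_pos (by omega)]
        have := (f3 (i - 1) (by omega)).2
        rwa [show i - 1 + 1 = i + 1 - 1 by omega] at this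
      · rw [if_pos (by omega), if_neg (by omega), show i - 1 = L by omega]
        exact a'.2.symm

theorem no_par (h : ∀ v e, ¬ Circ G 2 v e) {e e' : E} (he : e ∈ G.A) (he' : e' ∈ G.A) {u v : V}
    (huv : u ≠ v) (h1 : G.Ends e u v) (h2 : G.Ends e' u v) : e = e' := by
  by_contra hne
  have two : ∀ i < 2, i = 0 ∨ i = 1 := by omega
  refine h (fun i => if i = 1 then v else u) (fun i => if i = 1 then e' else e) ⟨by omega,
    fun i hi j hj => ?_, fun i hi j hj => ?_, by simp, fun i hi => ?_, fun i hi => ?_⟩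
  · rcases two i hi with rfl | rfl <;> rcases two j hj with rfl | rfl <;> simp [huv, huv.symm]
  · rcases two i hi with rfl | rfl <;> rcases two j hj with rfl | rfl <;> simp [hne, Ne.symm hne]
  · rcases two i hi with rfl | rfl <;> simpa
  · rcases two i hi with rfl | rfl
    · simpa using h1
    · simpa using h2.symm

theorem deg [Fintype V] (h : ∀ v e, ¬ Circ G 2 v e) (hl : ∀ e ∈ G.A, G.l e ≠ G.r e) (u : V) :
    (G.A.filter fun e => G.Inc e u).card ≤ dg (sg G) univ u := by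
  have k : ∀ e ∈ G.A.filter fun e => G.Inc e u,
      u ≠ (if G.l e = u then G.r e else G.l e) ∧
        G.Ends e u (if G.l e = u then G.r e else G.l e) := by
    intro e he
    obtain ⟨h1, h2⟩ := mem_filter.1 he
    by_cases c : G.l e = u
    · rw [if_pos c]
      exact ⟨c ▸ hl e h1, Or.inl ⟨c, rfl⟩⟩
    · rw [if_neg c]
      exact ⟨Ne.symm c, Or.inr ⟨rfl, h2.resolve_left c⟩⟩
  refine card_le_card_of_injOn (fun e => if G.l e = u then G.r e else G.l e) (fun e he => ?_)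
    fun e he e' he' c => ?_
  · exact mem_coe.2 (mem_filter.2 ⟨mem_univ _, (k e he).1, e, (mem_filter.1 he).1, (k e he).2⟩)
  · have h2 := (k e' he').2
    have c' : (if G.l e = u then G.r e else G.l e) = if G.l e' = u then G.r e' else G.l e' := c
    rw [← c'] at h2
    exact no_par h (mem_filter.1 he).1 (mem_filter.1 he').1 (k e he).1 (k e he).2 h2

theorem hasP_of_pet (h : Pet (sg G)) : G.HasP := by
  obtain ⟨B, b1, b2, b3⟩ := h
  refine ⟨fun i => ↑(B i), fun i hi u hu v hv => ?_, fun i hi j hj c => ?_, fun p hp => ?_⟩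
  · exact Relation.ReflTransGen.mono (fun _ _ c => ⟨c.2.1, c.2.2, c.1.2⟩) _ _
      ((b1 i hi).2 u hu v hv)
  · exact disjoint_coe.2 (b2 i hi j hj c)
  · obtain ⟨u, hu, v, hv, a⟩ := b3 p hp
    exact ⟨u, hu, v, hv, a.2⟩

theorem ends_ne {e : E} {u v : V} (h : G.Ends e u v) (hl : G.l e ≠ G.r e) : u ≠ v := by
  rintro rfl
  rcases h with h | h <;> exact hl (h.1.trans h.2.symm)

theorem ends_in {e : E} {u v : V} {K : Set V} (h : G.Ends e u v) (hu : u ∉ K) :
    ¬ (G.l e ∈ K ∧ G.r e ∈ K) := fun c => by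
  rcases h with h | h
  exacts [hu (h.1 ▸ c.1), hu (h.2 ▸ c.2)]

/-- The same ends with another set of edges. -/
def sb (G : MG V E) (B : Finset E) : MG V E := ⟨B, G.l, G.r⟩

theorem sb_le {B B' : Finset E} (h : B ⊆ B') : sg (sb G B) ≤ sg (sb G B') :=
  fun _ _ a => ⟨a.1, a.2.mono h⟩

theorem sb_circ {B B' : Finset E} (h : B ⊆ B') {n : ℕ} {v : ℕ → V} {e : ℕ → E}
    (c : Circ (sb G B) n v e) : Circ (sb G B') n v e :=
  ⟨c.pos, c.vinj, c.einj, c.cl, fun i hi => h (c.mem i hi), c.ends⟩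

end Girth

open Girth in
theorem girth (hC : CutStmt) (hK : KmaxStmt) (hY : CystStmt) : GirthStmt := by
  intro V E _ G hG n₀ v₀ e₀ c₀
  by_contra h₀
  obtain ⟨n, v, e, K, c, n4, n10, hcut, -, k0, hm⟩ := hK V E G hG n₀ v₀ e₀ c₀ (by omega)
  obtain ⟨hl, hd, -⟩ := hC V E G hG
  obtain ⟨A5, m5⟩ : ∃ B : Finset E, ∀ a, a ∈ B ↔
      a ∈ G.A ∧ (a ∈ off G n e → ¬ (G.l a ∈ K ∧ G.r a ∈ K)) := ⟨_, fun _ => mem_filter⟩
  have s5 : A5 ⊆ G.A := fun a h => ((m5 a).1 h).1
  have s4 := erase_subset (e (n - 1)) A5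
  have k5 := fun n' v' e' (d : Circ (sb G A5) n' v' e') h =>
    hm n' v' e' (sb_circ s5 d) h fun i hi => ((m5 _).1 (d.mem i hi)).2
  have k4 : ∀ n' ≤ 10, ∀ v' e', ¬ Circ (sb G (A5.erase (e (n - 1)))) n' v' e' := fun n' h v' e' d => by
    obtain ⟨i, hi, q⟩ := (k5 n' v' e' (sb_circ s4 d) h).2
    exact (mem_erase.1 (d.mem i hi)).1 q
  have gi : Gi (sg (sb G (A5.erase (e (n - 1))))) := fun W x w w' r hx a a' hw hk => by
    obtain ⟨m, h, v', e', d⟩ := circ_wk hx a a' hw hk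
    exact le_of_not_gt fun q => k4 m (by omega) v' e' d
  have e5 : ∀ i < n, e i ∈ A5 := fun i hi => (m5 _).2 ⟨c.mem i hi, fun q =>
    absurd (mem_image_of_mem e (mem_range.2 hi)) (mem_sdiff.1 q).2⟩
  have e4 : ∀ i, i + 1 < n → e i ∈ A5.erase (e (n - 1)) := fun i hi =>
    mem_erase.2 ⟨fun q => by have := c.einj i (by omega) _ (by omega) q; omega, e5 i (by omega)⟩
  have ne : ∀ i < n, v i ≠ v (i + 1) := fun i hi => ends_ne (c.ends i hi) (hl _ (c.mem i hi))
  have a5 : ∀ i < n, (sg (sb G A5)).Adj (v i) (v (i + 1)) := fun i hi =>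
    ⟨ne i hi, e i, e5 i hi, c.ends i hi⟩
  have a4 : ∀ i, i + 1 < n → (sg (sb G (A5.erase (e (n - 1))))).Adj (v i) (v (i + 1)) :=
    fun i hi => ⟨ne i (by omega), e i, e4 i hi, c.ends i (by omega)⟩
  have vi : ∀ i ≤ n, ∀ j, 0 < j → j < n → v i = v j → i = j := fun i hi j h0 hj q => by
    rcases hi.eq_or_lt with rfl | h
    · have := c.vinj 0 (by omega) j hj (c.cl.symm.trans q)
      omega
    · exact c.vinj i h j hj q
  have o4 : ∀ a ∈ off G n e, ∀ u x, G.Ends a u x → u ∉ K → a ∈ A5.erase (e (n - 1)) ∧ x ∉ K :=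
    fun a ha u x q hu => ⟨mem_erase.2 ⟨fun t => (mem_sdiff.1 ha).2
      (t ▸ mem_image_of_mem e (mem_range.2 (by omega))),
      (m5 a).2 ⟨(mem_sdiff.1 ha).1, fun _ => ends_in q hu⟩⟩, fun hx =>
        notMem_empty a (hcut ▸ q.mem_cut_iff.2 ⟨ha, fun t => hu (t.2 hx)⟩)⟩
  obtain ⟨W, mW⟩ : ∃ W : Finset V, ∀ w, w ∈ W ↔
      w ∉ K ∧ (∀ i < n, w ≠ v i) ∧ ∃ a ∈ G.A, G.Inc a w :=
    ⟨univ.filter _, fun _ => mem_filter.trans (and_iff_right (mem_univ _))⟩
  have vW : ∀ i ≤ n, v i ∉ W := fun i hi q => by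
    rcases hi.eq_or_lt with rfl | h
    exacts [((mW _).1 q).2.1 0 (by omega) c.cl, ((mW _).1 q).2.1 i h rfl]
  have hW : ∀ w ∈ W, ∀ a ∈ G.A, ∀ x, G.Ends a w x → a ∈ A5.erase (e (n - 1)) ∧ x ∉ K :=
    fun w hw a ha x q => o4 a (mem_sdiff.2 ⟨ha, fun t => by
      obtain ⟨i, hi, rfl⟩ := mem_image.1 t
      rw [mem_range] at hi
      rcases ((c.ends i hi).inc_iff w).1 q.inc_left with rfl | rfl
      exacts [vW i hi.le hw, vW _ hi hw]⟩) w x q ((mW w).1 hw).1
  refine hY V _ (sg G) W n v gi (fun p => hG.np (hasP_of_pet p)) (by omega) c.vinj a4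
    (sb_le (s4.trans s5)) ?_ (fun w hw x => ⟨?_, fun q => sb_le (s4.trans s5) q⟩)
    (fun w hw => ?_) ?_ (fun i hi => vW i hi.le) (fun w hw x hx a => ?_)
    fun i j w w' r hj a a' hk => ?_
  · have := sb_le s5 (a5 (n - 1) (by omega))
    rwa [show n - 1 + 1 = n by omega, c.cl] at this
  · rintro ⟨h, a, ha, q⟩
    exact ⟨h, a, (hW w hw a ha x q).1, q⟩
  · refine ((hd w ((mW w).1 hw).2.2).trans (card_le_card fun a ha => ?_)).trans
      (deg (k4 2 (by omega)) (fun a ha => hl a (s5 (s4 ha))) w)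
    obtain ⟨h1, h2⟩ := mem_filter.1 ha
    obtain ⟨x, q⟩ := h2.exists_ends
    exact mem_filter.2 ⟨(hW w hw a h1 x q).1, h2⟩
  · obtain ⟨a, ha, h2⟩ := exists_mem_notMem_of_card_lt_card (s := {e 0, e (n - 1)})
      (lt_of_le_of_lt card_le_two
        (hd (v 0) ⟨e 0, c.mem 0 (by omega), (c.ends 0 (by omega)).inc_left⟩))
    obtain ⟨h1, h3⟩ := mem_filter.1 ha
    obtain ⟨x, q⟩ := h3.exists_ends
    rw [mem_insert, mem_singleton, not_or] at h2
    obtain ⟨h4, h5⟩ := o4 a (mem_sdiff.2 ⟨h1, fun t => by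
      obtain ⟨i, hi, rfl⟩ := mem_image.1 t
      rw [mem_range] at hi
      rcases ((c.ends i hi).inc_iff _).1 h3 with t | t
      · exact h2.1 (by rw [c.vinj 0 (by omega) i hi t])
      · refine h2.2 (congrArg e ?_)
        by_contra s
        have := vi 0 (by omega) (i + 1) (by omega) (by omega) t
        omega⟩) _ x q k0
    refine ⟨x, (mW x).2 ⟨h5, fun j hj t => ?_, a, h1, q.inc_right⟩⟩
    subst t
    have h6 := ends_ne q (hl a h1)
    by_cases j1 : v 1 = v j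
    · exact h2.1 (no_par (k4 2 (by omega)) h4 (e4 0 (by omega)) h6 q (j1 ▸ c.ends 0 (by omega)))
    · have j0 : j ≠ 0 := fun t => h6 (by rw [t])
      have := gi (univ.erase (v 0)) _ _ _ _ (notMem_erase _ _) (a4 0 (by omega)) ⟨h6, a, h4, q⟩ j1
        (Wk.of_fun (show 1 ≤ j by omega) (fun t h1 h2 => mem_erase.2 ⟨fun s => by
          have := c.vinj t (by omega) 0 (by omega) s
          omega, mem_univ _⟩) fun t _ h2 => a4 t (by omega))
      omega
  · obtain ⟨-, b, hb, q⟩ := a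
    by_contra t
    exact hx ((mW x).2 ⟨(hW w hw b (s5 (s4 hb)) x q.symm).2, fun i hi s => t ⟨i, hi, s⟩, b,
      s5 (s4 hb), q.inc_left⟩)
  · by_contra t
    have mv : ∀ s ≤ n, s ≠ j → v s ∈ univ.erase (v j) := fun s hs q =>
      mem_erase.2 ⟨fun p => q (vi s hs j (by omega) hj p), mem_univ _⟩
    have w1 := Wk.of_fun (show j + 1 ≤ n by omega) (fun s h1 h2 => mv s h2 (by omega))
      fun s _ h2 => a5 s h2
    have w2 := Wk.of_fun (Nat.zero_le i) (fun s _ h2 => mv s (by omega) (by omega))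
      fun s _ h2 => a5 s (by omega)
    have w3 := hk.mono' (fun _ _ q _ _ => sb_le s4 q) (W' := univ.erase (v j)) fun y hy =>
      mem_erase.2 ⟨fun p => vW j hj.le (p ▸ hy), mem_univ _⟩
    rw [c.cl] at w1
    obtain ⟨m, h, v', e', d⟩ := circ_wk (notMem_erase _ _) (a5 j hj) (sb_le s4 a')
      (fun p => vW (j + 1) hj (p ▸ hk.right))
      (((w1.trans w2).tail (sb_le s4 a) w3.left).trans w3)
    have := (k5 m v' e' d (by omega)).1
    omega

end Pool.Agent.MP_e6539c_co.C5
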