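import Pool.Agent.MP_e6539c_co.C5.CBasic

/-! The system of Kempe switches of a graph with ten terminals. -/

set_option autoImplicit false

namespace Pool.Agent.MP_e6539c_co.C5

open Finset
open Pool.Agent.MP_e6539c_co.TW (MG)
open scoped Classical

namespace Kinst

variable {V E : Type} {G : MG V E} {B : Finset E} {τ : Fin 10 → V} {H : E → Prop}

/-- A join for `Y` all of whose edges satisfy `H`. -/
def Jn (G : MG V E) (B : Finset E) (τ : Fin 10 → V) (H : E → Prop) (Y : Fin 10 → ZMod 2) : Prop :=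
  ∃ J : E → ZMod 2, (∀ e ∈ B, J e ≠ 0 → H e) ∧ ∀ v, bd G B J v = push τ Y v

theorem supp_add {J J' : E → ZMod 2} (h : ∀ e ∈ B, J e ≠ 0 → H e) (h' : ∀ e ∈ B, J' e ≠ 0 → H e) :
    ∀ e ∈ B, J e + J' e ≠ 0 → H e := fun e he c => by
  by_cases k : J e = 0
  · exact h' e he (by simpa [k] using c)
  · exact h e he k

theorem Jn.zero : Jn G B τ H 0 := ⟨fun _ => 0, by simp, fun v => by simp [bd_zero, push]⟩

theorem Jn.add {Y Y' : Fin 10 → ZMod 2} (h : Jn G B τ H Y) (h' : Jn G B τ H Y') :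
    Jn G B τ H (Y + Y') := by
  obtain ⟨J, a, b⟩ := h
  obtain ⟨J', a', b'⟩ := h'
  exact ⟨fun e => J e + J' e, supp_add a a', fun v => by
    rw [bd_add, b, b', ← push_add]; rfl⟩

theorem Jn.mono {H' : E → Prop} {Y : Fin 10 → ZMod 2} (h : Jn G B τ H Y) (k : ∀ e, H e → H' e) :
    Jn G B τ H' Y := h.imp fun _ a => ⟨fun e he c => k e (a.1 e he c), a.2⟩

theorem push_map {M N : Type} [AddCommMonoid M] [AddCommMonoid N] (σ : M →+ N) (Y : Fin 10 → M)
    (v : V) : push τ (fun i => σ (Y i)) v = σ (push τ Y v) := by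
  unfold push
  rw [map_sum]
  exact sum_congr rfl fun i _ => by split_ifs <;> simp

theorem bd_one {e : E} (he : e ∈ B) (v : V) : bd G B (fun f => if f = e then (1 : ZMod 2) else 0) v =
    (if G.l e = v then 1 else 0) + (if G.r e = v then 1 else 0) := by
  unfold bd
  rw [sum_eq_single_of_mem e he fun f _ k => by simp [k]]
  simp

theorem push_pair {i j : Fin 10} (h : j ≠ i) (v : V) :
    push τ (fun k => if k = i ∨ k = j then (1 : ZMod 2) else 0) v =
      (if τ i = v then 1 else 0) + (if τ j = v then 1 else 0) := by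
  unfold push
  rw [sum_eq_add_of_mem i j (mem_univ _) (mem_univ _) h.symm fun k _ c => by simp [c.1, c.2]]
  simp

variable [Fintype V]

theorem Jn.pair {Y : Fin 10 → ZMod 2} (h : Jn G B τ H Y) {i : Fin 10} (hi : Y i ≠ 0) :
    ∃ j, j ≠ i ∧ Y j ≠ 0 ∧ Jn G B τ H fun k => if k = i ∨ k = j then 1 else 0 := by
  obtain ⟨J, a, b⟩ := h
  obtain ⟨Z, hZ⟩ : ∃ Z : Set V, ∀ w, w ∈ Z ↔ ∃ F : E → ZMod 2, (∀ e ∈ B, F e ≠ 0 → H e) ∧
      ∀ v, bd G B F v = (if τ i = v then 1 else 0) + (if w = v then 1 else 0) :=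
    ⟨{w | _}, fun _ => Iff.rfl⟩
  have z : ∀ p q r : ZMod 2, (p + q + (q + r) = p + r) ∧ (p + r + (q + r) = p + q) := by decide
  have cl : ∀ e ∈ B, H e → (G.l e ∈ Z ↔ G.r e ∈ Z) := fun e he k => by
    have s : ∀ f ∈ B, (if f = e then (1 : ZMod 2) else 0) ≠ 0 → H f := fun f _ c => by
      by_cases t : f = e
      · exact t ▸ k
      · simp [t] at c
    rw [hZ, hZ]
    constructor <;> rintro ⟨F, c, d⟩ <;> refine ⟨_, supp_add c s, fun v => ?_⟩ <;>
      rw [bd_add, d, bd_one he]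
    exacts [(z _ _ _).1, (z _ _ _).2]
  have s0 : ∑ v ∈ univ.filter (· ∈ Z), push τ Y v = 0 := by
    rw [← sum_congr rfl fun v _ => b v, sum_bd zm_add_self]
    refine sum_eq_zero fun e he => ?_
    rw [MG.cut, mem_filter] at he
    by_contra c
    exact he.2 (cl e he.1 (a e he.1 c))
  have hi' : τ i ∈ Z := (hZ _).2 ⟨fun _ => 0, by simp, fun v => by rw [bd_zero, zm_add_self]⟩
  by_contra c
  unfold push at s0
  rw [sum_comm, sum_eq_single_of_mem i (mem_univ _) fun j _ k => ?_] at s0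
  · simp [hi', hi] at s0
  · rw [sum_ite_eq]
    split_ifs with t
    · by_contra y
      obtain ⟨F, p, q⟩ := (hZ _).1 (mem_filter.1 t).2
      exact c ⟨j, k, y, F, p, fun v => by rw [q, push_pair k]⟩
    · rfl

theorem Jn.mat (n : ℕ) : ∀ Y : Fin 10 → ZMod 2, (univ.filter fun i => Y i ≠ 0).card ≤ n →
    Jn G B τ H Y → ∃ μ : Fin 10 → Fin 10, ∀ i, Y i ≠ 0 → μ i ≠ i ∧ μ (μ i) = i ∧ Y (μ i) ≠ 0 ∧
      Jn G B τ H fun k => if k = i ∨ k = μ i then 1 else 0 := by
  induction n with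
  | zero =>
    intro Y c _
    refine ⟨id, fun i hi => ?_⟩
    exact absurd hi (filter_eq_empty_iff.1 (card_eq_zero.1 (Nat.le_zero.1 c)) (mem_univ i))
  | succ n ih =>
    intro Y c h
    by_cases e : ∃ i, Y i ≠ 0
    swap
    · exact ⟨id, fun i hi => absurd ⟨i, hi⟩ e⟩
    obtain ⟨i, hi⟩ := e
    obtain ⟨j, ji, hj, p⟩ := h.pair hi
    have z : ∀ a : ZMod 2, a ≠ 0 → a + 1 = 0 := by decide
    have s : ∀ k, (Y + fun k => if k = i ∨ k = j then 1 else 0 : Fin 10 → ZMod 2) k ≠ 0 ↔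
        Y k ≠ 0 ∧ k ≠ i ∧ k ≠ j := fun k => by
      by_cases a : k = i
      · simp [a, z _ hi]
      · by_cases b : k = j
        · simp [b, z _ hj]
        · simp [a, b]
    obtain ⟨μ, hμ⟩ := ih _ (Nat.le_of_lt_succ (lt_of_lt_of_le (card_lt_card ⟨fun k hk =>
      mem_filter.2 ⟨mem_univ _, ((s k).1 (mem_filter.1 hk).2).1⟩, fun t =>
      ((s i).1 (mem_filter.1 (t (mem_filter.2 ⟨mem_univ _, hi⟩))).2).2.1 rfl⟩) c)) (h.add p)
    refine ⟨fun k => if k = i then j else if k = j then i else μ k, fun k hk => ?_⟩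
    by_cases a : k = i
    · subst a
      simpa [ji, hj] using p
    · by_cases b : k = j
      · subst b
        simpa [ji, ji.symm, hi, or_comm] using p
      · obtain ⟨m1, m2, m3, m4⟩ := hμ k ((s k).2 ⟨hk, a, b⟩)
        obtain ⟨n1, n2, n3⟩ := (s _).1 m3
        simpa [a, b, m1, m2, n1, n2, n3] using m4

/-- The value `t` on the colours `c` and `d`. -/
def two (c d : Fin 5) : ZMod 2 →+ V5 where
  toFun t a := if a = c ∨ a = d then t else 0
  map_zero' := by funext a; simp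
  map_add' s t := by funext a; by_cases h : a = c ∨ a = d <;> simp [h]

theorem q_two : ∀ (c d : Fin 5) (x : V5), Q x → x c ≠ x d →
    Q fun a => x a + if a = c ∨ a = d then 1 else 0 := by decide +kernel

/-- The system of a graph with terminals. -/
noncomputable def sys (G : MG V E) (B : Finset E) (τ : Fin 10 → V) : KSys where
  S := {p : (E → V5) × (Fin 10 → V5) // (∀ e ∈ B, Q (p.1 e)) ∧ ∀ v, bd G B p.1 v = push τ p.2 v}
  b s := s.1.2
  K s c d := Jn G B τ fun e => s.1.1 e c ≠ s.1.1 e d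
  sym _ _ _ _ h := h.mono fun _ => Ne.symm
  zero _ _ _ := Jn.zero
  add _ _ _ _ _ := Jn.add
  sw := by
    rintro ⟨⟨ψ, b⟩, q, h⟩ c d Y - ⟨J, a, k⟩
    refine ⟨⟨(fun e => ψ e + two c d (J e), fun i => b i + two c d (Y i)), fun e he => ?_,
      fun v => ?_⟩, fun _ _ => rfl, fun Y' t => t.mono fun e => ?_,
      fun c' d' Y' c1 c2 d1 d2 t => t.mono fun e => ?_⟩
    · by_cases t : J e = 0
      · simpa [t] using q e he
      · have z : ∀ a : ZMod 2, a ≠ 0 → a = 1 := by decide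
        simp only [z _ t]
        exact q_two c d _ (q e he) (a e he t)
    · rw [bd_add, bd_map, push_add, push_map, k]
      exact congrArg (· + _) (h v)
    · simp [two]
    · simp [two, c1, c2, d1, d2]
  mat := by
    rintro ⟨⟨ψ, b⟩, q, h⟩ c d -
    have z : ∀ p r : ZMod 2, p + r ≠ 0 ↔ p ≠ r := by decide
    obtain ⟨μ, hμ⟩ := Jn.mat (G := G) (B := B) (τ := τ) (H := fun e => ψ e c ≠ ψ e d) _
      (fun i => b i c + b i d) le_rfl ⟨fun e => ψ e c + ψ e d, fun e _ => (z _ _).1, fun v => by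
        rw [bd_add, push_add, ← bd_apply, ← bd_apply, ← push_apply, ← push_apply]
        exact congrArg (fun y : V5 => y c + y d) (h v)⟩
    simp only [z] at hμ
    exact ⟨μ, hμ⟩

end Kinst

theorem cyc (h : KempeStmt) : CycStmt := fun _ _ _ G B τ ψ x q hx hb => by
  obtain ⟨⟨⟨ψ', b'⟩, a, b⟩, c⟩ :=
    h (Kinst.sys G B τ) ⟨(ψ, fun i => x (half i)), q, hb⟩ x hx fun _ => rfl
  exact ⟨ψ', b', a, b, c⟩

end Pool.Agent.MP_e6539c_co.C5
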