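import Pool.Agent.MP_e6539c_co.C5.Basic
import Pool.Agent.MP_e6539c_co.C5.Spec
import Mathlib.Algebra.BigOperators.Pi
import Mathlib.Data.Fin.VecNotation

/-! The smallest counterexample, and the passage to multigraphs given by an end map. -/

set_option autoImplicit false

namespace Pool.Agent.MP_e6539c_co.C5

open Finset
open Pool.Agent.MP_7be75d_co (R Conn comp)
open Pool.Agent.MP_7be75d_co
open Pool.Agent.MP_e6539c_co.TW (MG)
open scoped Classical

namespace Min

variable {V E : Type}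

section

variable [Fintype V] {G : MG V E}

theorem short (h : GirthStmt) (hG : MinC G) (n : ℕ) (v : ℕ → V) (e : ℕ → E) (h1 : 1 ≤ n)
    (h2 : n ≤ 10) (h3 : ∀ i < n, ∀ j < n, v i = v j → i = j)
    (h4 : ∀ i < n, ∀ j < n, e i = e j → i = j) (h5 : v n = v 0)
    (h6 : ∀ i < n, e i ∈ G.A ∧ G.Ends (e i) (v i) (v (i + 1))) : False := by
  have := h V E G hG n v e ⟨h1, h3, h4, h5, fun i hi => (h6 i hi).1, fun i hi => (h6 i hi).2⟩
  omega

theorem no_loop (h : CutStmt) (hG : MinC G) (e : E) (he : e ∈ G.A) : G.l e ≠ G.r e :=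
  (h V E G hG).1 e he

theorem no_par (h : GirthStmt) (hG : MinC G) {e e' : E} (he : e ∈ G.A) (he' : e' ∈ G.A) {u v : V}
    (huv : u ≠ v) (h1 : G.Ends e u v) (h2 : G.Ends e' u v) : e = e' := by
  by_contra hne
  have two : ∀ i < 2, i = 0 ∨ i = 1 := by omega
  refine short h hG 2 (fun i => if i = 1 then v else u) (fun i => if i = 1 then e' else e)
    (by omega) (by omega) (fun i hi j hj => ?_) (fun i hi j hj => ?_) (by simp) fun i hi => ?_
  · rcases two i hi with rfl | rfl <;> rcases two j hj with rfl | rfl <;> simp [huv, huv.symm]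
  · rcases two i hi with rfl | rfl <;> rcases two j hj with rfl | rfl <;> simp [hne, Ne.symm hne]
  · rcases two i hi with rfl | rfl
    · simpa using ⟨he, h1⟩
    · simpa using ⟨he', h2.symm⟩

theorem no_cycle (h : GirthStmt) (hG : MinC G) (n : ℕ) (v : ℕ → V) (h3 : 3 ≤ n) (h11 : n ≤ 10)
    (hi : ∀ i < n, ∀ j < n, v i = v j → i = j) (h0 : v n = v 0)
    (ha : ∀ i < n, G.Adj G.A (v i) (v (i + 1))) : False := by
  have ha' : ∀ i, ∃ e, i < n → e ∈ G.A ∧ G.Ends e (v i) (v (i + 1)) := fun i => by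
    by_cases c : i < n
    · obtain ⟨e, h1, h2⟩ := ha i c
      exact ⟨e, fun _ => ⟨h1, h2⟩⟩
    · obtain ⟨e, -, -⟩ := ha 0 (by omega)
      exact ⟨e, fun d => absurd d c⟩
  choose e he using ha'
  have hs : ∀ i < n, ∀ j < n, v i = v (j + 1) → i = j + 1 ∨ (i = 0 ∧ j + 1 = n) := by
    intro i ci j cj c
    rcases Nat.lt_or_ge (j + 1) n with d | d
    · exact Or.inl (hi i ci _ d c)
    · have d' : j + 1 = n := by omega
      rw [d', h0] at c
      exact Or.inr ⟨hi i ci 0 (by omega) c, d'⟩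
  refine short h hG n v e (by omega) h11 hi (fun i ci j cj c => ?_) h0 he
  have h1 := (he i ci).2
  rw [c] at h1
  rcases h1.unique (he j cj).2 with d | d
  · exact hi i ci j cj d.1
  · have d1 := hs i ci j cj d.1
    have d2 := hs j cj i ci d.2.symm
    omega

theorem gi (h : GirthStmt) (hG : MinC G) : Gi (sg G) := by
  intro W x w w' r hx a a' hw hk
  by_contra hr
  obtain ⟨L, f, l, rfl, rfl, f2, f3, f4⟩ := hk.exists_path
  have hL : L ≠ 0 := fun c => hw (by rw [c])
  refine no_cycle h hG (L + 2) (fun i => if 1 ≤ i ∧ i ≤ L + 1 then f (i - 1) else x) (by omega)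
    (by omega) (fun i ci j cj c => ?_) (by simp) fun i ci => ?_
  · by_cases c1 : 1 ≤ i ∧ i ≤ L + 1 <;> by_cases c2 : 1 ≤ j ∧ j ≤ L + 1
    · rw [if_pos c1, if_pos c2] at c
      have := f4 _ (by omega) _ (by omega) c
      omega
    · rw [if_pos c1, if_neg c2] at c
      exact absurd (c ▸ f2 _ (by omega)) hx
    · rw [if_neg c1, if_pos c2] at c
      exact absurd (c ▸ f2 _ (by omega)) hx
    · omega
  · rcases Nat.eq_zero_or_pos i with rfl | c0
    · rw [if_neg (by omega), if_pos (by omega)]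
      exact a.2
    · rcases Nat.lt_or_ge i (L + 1) with c1 | c1
      · rw [if_pos (by omega), if_pos (by omega)]
        have := (f3 (i - 1) (by omega)).2
        rwa [show i - 1 + 1 = i + 1 - 1 by omega] at this
      · rw [if_pos (by omega), if_neg (by omega), show i - 1 = L by omega]
        exact a'.2.symm

theorem deg (h : GirthStmt) (hd : CutStmt) (hG : MinC G) (u v : V) (a : (sg G).Adj u v) :
    3 ≤ dg (sg G) univ u := by
  obtain ⟨-, e, he, hen⟩ := a
  refine ((hd V E G hG).2.1 u ⟨e, he, hen.inc_left⟩).trans ?_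
  have k : ∀ e ∈ G.A.filter fun e => G.Inc e u,
      u ≠ (if G.l e = u then G.r e else G.l e) ∧
        G.Ends e u (if G.l e = u then G.r e else G.l e) := by
    intro e he
    obtain ⟨h1, h2⟩ := mem_filter.1 he
    by_cases c : G.l e = u
    · rw [if_pos c]
      exact ⟨c ▸ no_loop hd hG e h1, Or.inl ⟨c, rfl⟩⟩
    · rw [if_neg c]
      exact ⟨Ne.symm c, Or.inr ⟨rfl, h2.resolve_left c⟩⟩
  refine card_le_card_of_injOn (fun e => if G.l e = u then G.r e else G.l e) (fun e he => ?_)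
    fun e he e' he' c => ?_
  · exact mem_coe.2 (mem_filter.2 ⟨mem_univ _, (k e he).1, e, (mem_filter.1 he).1, (k e he).2⟩)
  · have h2 := (k e' he').2
    have c' : (if G.l e = u then G.r e else G.l e) = if G.l e' = u then G.r e' else G.l e' := c
    rw [← c'] at h2
    exact no_par h hG (mem_filter.1 he).1 (mem_filter.1 he').1 (k e he).1 (k e he).2 h2

omit [Fintype V] in
theorem hasP_of_pet (h : Pet (sg G)) : G.HasP := by
  obtain ⟨B, b1, b2, b3⟩ := h
  refine ⟨fun i => ↑(B i), fun i hi u hu v hv => ?_, fun i hi j hj c => ?_, fun p hp => ?_⟩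
  · exact Relation.ReflTransGen.mono (fun _ _ c => ⟨c.2.1, c.2.2, c.1.2⟩) _ _
      ((b1 i hi).2 u hu v hv)
  · exact disjoint_coe.2 (b2 i hi j hj c)
  · obtain ⟨u, hu, v, hv, a⟩ := b3 p hp
    exact ⟨u, hu, v, hv, a.2⟩

theorem no_min (h : GirthStmt) (hd : CutStmt) (hA : AStmt) (hG : MinC G) : False := by
  refine hG.np (hasP_of_pet (hA V (sg G) (gi h hG) (deg h hd hG) ?_))
  by_contra hc
  refine hG.nf ⟨fun _ => 0, fun e he => ?_, fun v => by simp [bd]⟩
  exact (hc ⟨_, _, no_loop hd hG e he, e, he, MG.ends_lr e⟩).elim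

end

/-- The Petersen labels as two-element subsets. -/
def kn : Fin 10 → {s : Finset (Fin 5) // s.card = 2} :=
  ![⟨{0, 1}, by decide⟩, ⟨{2, 3}, by decide⟩, ⟨{0, 4}, by decide⟩, ⟨{1, 2}, by decide⟩,
    ⟨{3, 4}, by decide⟩, ⟨{2, 4}, by decide⟩, ⟨{1, 4}, by decide⟩, ⟨{1, 3}, by decide⟩,
    ⟨{0, 3}, by decide⟩, ⟨{0, 2}, by decide⟩]

theorem kn_surj : ∀ s, ∃ l, kn l = s := by decide +kernel

theorem kn_adj : ∀ l m : Fin 10, Disjoint (kn l).1 (kn m).1 →
    l ≠ m ∧ ((l.1, m.1) ∈ MG.petE ∨ (m.1, l.1) ∈ MG.petE) := by decide +kernel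

theorem kn_ne : ∀ l : Fin 10, ∃ p ∈ MG.petE, p.1 = l.1 ∨ p.2 = l.1 := by decide +kernel

/-- The multigraph with arbitrarily oriented edges. -/
noncomputable def mg [Fintype E] (ends : E → Sym2 V) : MG V E :=
  ⟨univ, fun e => (ends e).out.1, fun e => (ends e).out.2⟩

variable [Fintype E]

theorem mg_lr (ends : E → Sym2 V) (e : E) :
    ends e = s((mg ends).l e, (mg ends).r e) := (Quot.out_eq (ends e)).symm

theorem mg_ends (ends : E → Sym2 V) (e : E) (x y : V) :
    (mg ends).Ends e x y ↔ ends e = s(x, y) := by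
  rw [mg_lr ends e, Sym2.eq_iff]
  rfl

theorem mg_bridgeless (ends : E → Sym2 V) (hb : ∀ (e : E) (x y : V), ends e = s(x, y) →
    Relation.ReflTransGen (fun a b => ∃ e' : E, e' ≠ e ∧ ends e' = s(a, b)) x y) :
    (mg ends).Bridgeless := by
  intro S hS
  obtain ⟨e, he⟩ := card_eq_one.1 hS
  have h0 : e ∈ (mg ends).cut (mg ends).A S := by simp [he]
  rw [(MG.ends_lr e).mem_cut_iff] at h0
  apply h0.2
  have := hb e _ _ (mg_lr ends e)
  generalize (mg ends).r e = y at this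
  induction this with
  | refl => rfl
  | tail _ h2 ih =>
    obtain ⟨e', n, h'⟩ := h2
    have : e' ∉ (mg ends).cut (mg ends).A S := by simp [he, n]
    rw [((mg_ends ends _ _ _).2 h').mem_cut_iff, not_and, not_not] at this
    exact ih.trans (this (mem_univ _))

theorem mg_pet (ends : E → Sym2 V) (h : (mg ends).HasP) :
    ∃ B : {s : Finset (Fin 5) // s.card = 2} → Set V,
      (∀ i, ((SimpleGraph.fromEdgeSet (Set.range ends)).induce (B i)).Connected) ∧
      (∀ i j, i ≠ j → Disjoint (B i) (B j)) ∧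
      (∀ i j : {s : Finset (Fin 5) // s.card = 2}, Disjoint i.1 j.1 →
        ∃ x ∈ B i, ∃ y ∈ B j, (SimpleGraph.fromEdgeSet (Set.range ends)).Adj x y) := by
  obtain ⟨B, b1, b2, b3⟩ := h
  choose ι hι using kn_surj
  have dis : ∀ l m : Fin 10, l ≠ m → Disjoint (B l) (B m) :=
    fun l m h => b2 l l.2 m m.2 (fun t => h (Fin.ext t))
  refine ⟨fun i => B (ι i), fun i => ?_, fun i j h => dis _ _ ?_, fun i j h => ?_⟩
  · obtain ⟨z, hz⟩ : (B (ι i)).Nonempty := by
      obtain ⟨p, hp, h⟩ := kn_ne (ι i)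
      obtain ⟨u, hu, v, hv, -⟩ := b3 p hp
      rcases h with h | h
      · exact ⟨u, h ▸ hu⟩
      · exact ⟨v, h ▸ hv⟩
    have : Nonempty (B (ι i)) := ⟨⟨z, hz⟩⟩
    refine ⟨fun ⟨x, hx⟩ ⟨y, hy⟩ => ?_⟩
    have := b1 _ (ι i).2 x hx y hy
    induction this with
    | refl => rfl
    | tail _ h2 ih =>
      obtain ⟨c1, c2, e, -, c3⟩ := h2
      rename_i b c _
      refine (ih c1).trans ?_
      by_cases h : b = c
      · subst h; rfl
      · refine SimpleGraph.Adj.reachable ?_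
        simp only [SimpleGraph.comap_adj, Function.Embedding.coe_subtype,
          SimpleGraph.fromEdgeSet_adj]
        exact ⟨⟨e, (mg_ends ends _ _ _).1 c3⟩, h⟩
  · exact fun t => h (by rw [← hι i, t, hι])
  · rw [← hι i, ← hι j] at h
    obtain ⟨n, h⟩ := kn_adj _ _ h
    have : ∃ x ∈ B (ι i), ∃ y ∈ B (ι j), (mg ends).Adj (mg ends).A x y := by
      rcases h with h | h
      · exact b3 _ h
      · obtain ⟨u, hu, v, hv, a⟩ := b3 _ h
        exact ⟨v, hv, u, hu, a.symm⟩
    obtain ⟨x, hx, y, hy, e, -, c⟩ := this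
    refine ⟨x, hx, y, hy, (SimpleGraph.fromEdgeSet_adj _).2 ⟨⟨e, (mg_ends ends _ _ _).1 c⟩, ?_⟩⟩
    rintro rfl
    exact Set.disjoint_left.1 (dis _ _ n) hx hy

omit [Fintype E] in
theorem bd_col (G : MG V E) (B : Finset E) (ψ : E → V5) (v : V) (c : Fin 5) :
    bd G B ψ v c = bd G B (fun e => ψ e c) v := by
  unfold bd
  rw [Finset.sum_apply]
  refine sum_congr rfl fun e _ => ?_
  by_cases h1 : G.l e = v <;> by_cases h2 : G.r e = v <;> simp [h1, h2]

theorem even_of (ends : E → Sym2 V) (ψ : E → ZMod 2) (v : V) (h : bd (mg ends) univ ψ v = 0) :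
    Even {e | ψ e = 1 ∧ v ∈ ends e ∧ ¬ (ends e).IsDiag}.ncard := by
  have : {e | ψ e = 1 ∧ v ∈ ends e ∧ ¬ (ends e).IsDiag} =
      ↑(univ.filter fun e => ψ e = 1 ∧ v ∈ ends e ∧ ¬ (ends e).IsDiag) := by simp
  rw [this, Set.ncard_coe_finset, ← ZMod.natCast_eq_zero_iff_even, ← h, card_filter, bd]
  push_cast
  refine sum_congr rfl (fun e _ => ?_)
  rw [mg_lr ends e]
  simp only [Sym2.mem_iff, Sym2.mk_isDiag_iff]
  generalize ψ e = t
  generalize (mg ends).l e = a
  generalize (mg ends).r e = b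
  have k : ∀ t : ZMod 2, t + t = 0 ∧ (if t = 1 then 1 else 0) = t := by decide
  by_cases h1 : a = v <;> by_cases h2 : b = v
  · simp [h1, h2, (k t).1]
  · subst h1
    simp [h2, Ne.symm h2, (k t).2]
  · subst h2
    simp [h1, (k t).2]
  · simp [h1, h2, Ne.symm h1, Ne.symm h2]

end Min

theorem cdc (hC : CutStmt) (hG : GirthStmt) (hA : AStmt) : CdcStmt := by
  intro V E _ G h1 h2
  induction hn : G.A.card using Nat.strong_induction_on generalizing G with
  | _ n ih =>
    by_contra hf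
    refine Min.no_min hG hC hA ⟨h1, hf, h2, fun A' ρ hA' hc hρ hb => ?_⟩
    exact ih A'.card (hn ▸ hc) _ hb (fun hp => h2 (MG.hasP_minor hA' hρ hp)) rfl

/-- The five-cycle double cover theorem for multigraphs given by an end map. -/
theorem final (h : CdcStmt) (V E : Type) [Fintype V] [Fintype E] (ends : E → Sym2 V)
    (hb : ∀ (e : E) (x y : V), ends e = s(x, y) →
      Relation.ReflTransGen (fun a b => ∃ e' : E, e' ≠ e ∧ ends e' = s(a, b)) x y)
    (hp : ¬ ∃ B : {s : Finset (Fin 5) // s.card = 2} → Set V,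
      (∀ i, ((SimpleGraph.fromEdgeSet (Set.range ends)).induce (B i)).Connected) ∧
      (∀ i j, i ≠ j → Disjoint (B i) (B j)) ∧
      (∀ i j : {s : Finset (Fin 5) // s.card = 2}, Disjoint i.1 j.1 →
        ∃ x ∈ B i, ∃ y ∈ B j, (SimpleGraph.fromEdgeSet (Set.range ends)).Adj x y)) :
    ∃ C : Fin 5 → Set E,
      (∀ (i : Fin 5) (v : V), Even {e : E | e ∈ C i ∧ v ∈ ends e ∧ ¬ (ends e).IsDiag}.ncard) ∧
      ∀ e : E, {i : Fin 5 | e ∈ C i}.ncard = 2 := by
  obtain ⟨ψ, h1, h2⟩ := h V E (Min.mg ends) (Min.mg_bridgeless ends hb)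
    fun c => hp (Min.mg_pet ends c)
  refine ⟨fun i => {e | ψ e i = 1}, fun i v => ?_, fun e => ?_⟩
  · exact Min.even_of ends (fun e => ψ e i) v
      ((Min.bd_col _ _ ψ v i).symm.trans (congrFun (h2 v) i))
  · have : {i : Fin 5 | e ∈ {e | ψ e i = 1}} = ↑(univ.filter fun c => ψ e c = 1) := by simp
    rw [this, Set.ncard_coe_finset]
    exact h1 e (mem_univ _)

end Pool.Agent.MP_e6539c_co.C5
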