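import Mathlib.Data.Nat.Nth
import Pool.Agent.MP_e6539c_co.C5.CBasic

/-! A circuit of which at most five edges are kept. -/

set_option autoImplicit false

namespace Pool.Agent.MP_e6539c_co.C5

open Finset
open Pool.Agent.MP_e6539c_co.TW (MG)
open scoped Classical

namespace RingL

theorem tel (f : ℕ → V5) {m n : ℕ} (h : m ≤ n) :
    ∑ i ∈ range n, (if m ≤ i then f i + f (i + 1) else 0) = f m + f n := by
  induction n, h using Nat.le_induction with
  | base => rw [v5_add_self]; exact sum_eq_zero fun i hi => if_neg (mem_range.1 hi).not_ge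
  | succ n h ih =>
    rw [sum_range_succ, ih, if_pos h, add_assoc, ← add_assoc (f n), v5_add_self, zero_add]

theorem seg {y b : Fin 10 → V5} (hb : ∀ i, b (i + 1) = y i + y (i + 1)) (m : ℕ) (h : m < 10) :
    ∑ j : Fin 10, (if j.1 ≤ m then b j else 0) = y 9 + y ⟨m, h⟩ := by
  induction m with
  | zero =>
    rw [sum_eq_single 0 (fun j _ hj => if_neg fun k => hj (Fin.ext (Nat.le_zero.1 k))) (by simp)]
    exact hb 9
  | succ m ih =>
    have e : ∀ j : Fin 10, (if j.1 ≤ m + 1 then b j else 0) =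
        (if j.1 ≤ m then b j else 0) + if j = ⟨m + 1, h⟩ then b j else 0 := fun j => by
      simp only [Fin.ext_iff]
      split_ifs <;> first | omega | simp
    have e' : (⟨m + 1, h⟩ : Fin 10) = ⟨m, by omega⟩ + 1 := Fin.ext (by simp [Fin.val_add]; omega)
    simp only [e, sum_add_distrib, sum_ite_eq', mem_univ, if_true]
    rw [ih (by omega), e', hb, add_assoc, ← add_assoc (y ⟨m, _⟩), v5_add_self, zero_add]

theorem low {y b : Fin 10 → V5} (hy : ∀ i, Q (y i)) (hb : ∀ i, b (i + 1) = y i + y (i + 1))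
    {p : Fin 10 → ℕ} (hp : Monotone p) (i : ℕ) : Q (y 9 + ∑ j, if p j ≤ i then b j else 0) := by
  rcases (univ.filter fun j => p j ≤ i).eq_empty_or_nonempty with h | h
  · rw [sum_eq_zero fun j hj => if_neg (filter_eq_empty_iff.1 h hj), add_zero]
    exact hy 9
  · obtain ⟨m, h1, h2⟩ := exists_max_image _ id h
    have e : ∀ j, p j ≤ i ↔ j.1 ≤ m.1 := fun j =>
      ⟨fun k => h2 j (mem_filter.2 ⟨mem_univ _, k⟩), fun k => (hp k).trans (mem_filter.1 h1).2⟩
    simp only [e]
    rw [seg hb m m.2, ← add_assoc, v5_add_self, zero_add]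
    exact hy m

theorem pairs (f : ℕ → V5) : ∑ i : Fin 10, f i = ∑ a ∈ range 5, (f (2 * a) + f (2 * a + 1)) := by
  rw [Fin.sum_univ_eq_sum_range]
  simp only [sum_range_succ, sum_range_zero, add_assoc]

variable {V E : Type} {G : MG V E} {n : ℕ} {v : ℕ → V} {e : ℕ → E}

theorem bd_im (h : Circ G n v e) {K : Finset ℕ} (hK : K ⊆ range n) (ψ : E → V5) (w : V) :
    bd G (K.image e) ψ w =
      ∑ i ∈ K, ((if v i = w then ψ (e i) else 0) + if v (i + 1) = w then ψ (e i) else 0) := by
  rw [bd, sum_image fun i hi j hj => h.einj i (mem_range.1 (hK hi)) j (mem_range.1 (hK hj))]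
  exact sum_congr rfl fun i hi => ends_term (h.ends i (mem_range.1 (hK hi))) _ _

end RingL

open RingL in
theorem ring (h : CycStmt) : RingStmt := by
  intro V E _ G hG n v e hc D hD ⟨d, hd⟩ hn hb
  have mD : ∀ i ∈ D, i < n := fun i hi => mem_range.1 (hD hi)
  obtain ⟨ψ, q1, q2⟩ := hG.sub sdiff_subset (card_lt_card ⟨sdiff_subset, fun k =>
    (mem_sdiff.1 (k (hc.mem d (mD d hd)))).2 (mem_image_of_mem e hd)⟩) hb
  have inf : {j | j ∉ D}.Infinite := D.finite_toSet.infinite_compl
  let J : ℕ → ℕ := Nat.nth (· ∉ D)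
  have J1 : StrictMono J := Nat.nth_strictMono inf
  have J2 : ∀ a, J a ∉ D := Nat.nth_mem_of_infinite inf
  have J3 : range n \ D = ((range 5).filter fun a => J a < n).image J := by
    ext j
    simp only [mem_sdiff, mem_range, mem_image, mem_filter]
    refine ⟨fun ⟨a, b⟩ => ?_, fun ⟨a, b, c⟩ => c ▸ ⟨b.2, J2 a⟩⟩
    have k : J (Nat.count (· ∉ D) j) = j := Nat.nth_count b
    refine ⟨_, ⟨(Nat.count_strict_mono b a).trans_le ?_, k.symm ▸ a⟩, k⟩
    rw [Nat.count_eq_card_filter_range, ← sdiff_eq_filter, card_sdiff_of_subset hD, card_range]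
    omega
  have sub : (range n \ D).image e ⊆ G.A \ D.image e := fun f hf => by
    obtain ⟨i, hi, rfl⟩ := mem_image.1 hf
    obtain ⟨a, b⟩ := mem_sdiff.1 hi
    refine mem_sdiff.2 ⟨hc.mem i (mem_range.1 a), fun k => ?_⟩
    obtain ⟨j, hj, k⟩ := mem_image.1 k
    exact b (hc.einj j (mD j hj) i (mem_range.1 a) k ▸ hj)
  have eo : (G.A \ D.image e) \ (range n \ D).image e = off G n e := by
    rw [sdiff_sdiff_left, sup_eq_union, ← image_union, union_sdiff_of_subset hD, off]
  let p : ℕ → ℕ := fun i => min n (J (i / 2) + i % 2)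
  have p1 : Monotone fun i : Fin 10 => p i := fun i j k => by
    have k : i.1 ≤ j.1 := k
    refine min_le_min le_rfl ?_
    rcases (Nat.div_le_div_right (c := 2) k).eq_or_lt with a | a
    · rw [a]; omega
    · have := J1 a; omega
  let x : ℕ → V5 := fun a => if J a < n then ψ (e (J a)) else ![1, 1, 0, 0, 0]
  obtain ⟨ψ', b, r1, r2, y, r3, r4⟩ := h V E G (off G n e) (fun i => v (p i)) ψ (fun a => x a)
    (fun f hf => q1 f (sdiff_subset (eo ▸ hf))) (fun a => by
      by_cases k : J a < n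
      · simp only [x, if_pos k]
        exact q1 _ (sub (mem_image_of_mem e (mem_sdiff.2 ⟨mem_range.2 k, J2 a⟩)))
      · simp only [x, if_neg k]
        decide) fun w => by
    have := q2 w
    rw [bd_split sub, eo] at this
    rw [v5_eq_of_add this, bd_im hc sdiff_subset, J3, sum_image fun _ _ _ _ k => J1.injective k,
      sum_filter]
    refine Eq.trans (sum_congr rfl fun a _ => ?_)
      (pairs fun i => if v (p i) = w then x (i / 2) else 0).symm
    have a1 : 2 * a / 2 = a := by omega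
    have a2 : (2 * a + 1) / 2 = a := by omega
    have a3 : 2 * a % 2 = 0 := by omega
    have a4 : (2 * a + 1) % 2 = 1 := by omega
    simp only [p, x, a1, a2, a3, a4, add_zero]
    by_cases k : J a < n
    · rw [if_pos k, if_pos k, min_eq_right k.le, min_eq_right k]
    · rw [if_neg k, min_eq_left (not_lt.1 k), min_eq_left (by omega), v5_add_self]
  let g : ℕ → V5 := fun i => y 9 + ∑ j : Fin 10, if p j ≤ i then b j else 0
  have inj : Function.Injective fun i : Fin n => e i := fun i j k =>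
    Fin.ext (hc.einj _ i.2 _ j.2 k)
  let χ := Function.extend (fun i : Fin n => e i) (fun i => g i) ψ'
  have c1 : ∀ i < n, χ (e i) = g i := fun i hi => inj.extend_apply _ _ ⟨i, hi⟩
  have c2 : ∀ f ∈ off G n e, χ f = ψ' f := fun f hf => Function.extend_apply' _ _ _
    fun ⟨i, k⟩ => (mem_sdiff.1 hf).2 (mem_image.2 ⟨i, mem_range.2 i.2, k⟩)
  have sub' : (range n).image e ⊆ G.A := image_subset_iff.2 fun i hi => hc.mem i (mem_range.1 hi)
  refine hG.nf ⟨χ, fun f hf => ?_, fun w => ?_⟩
  · by_cases k : f ∈ (range n).image e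
    · obtain ⟨i, hi, rfl⟩ := mem_image.1 k
      rw [c1 i (mem_range.1 hi)]
      exact low r3 r4 p1 i
    · rw [c2 f (mem_sdiff.2 ⟨hf, k⟩)]
      exact r1 f (mem_sdiff.2 ⟨hf, k⟩)
  have tot : ∑ j, b j = 0 := by
    have := seg r4 9 (by omega)
    rw [sum_congr rfl fun j _ => if_pos (Nat.le_of_lt_succ j.2)] at this
    exact this.trans (v5_add_self _)
  let u : V5 → ℕ → V5 := fun c i => if v i = w then c else 0
  have k1 : ∀ i ∈ range n, ((if v i = w then χ (e i) else 0) + if v (i + 1) = w then χ (e i) else 0) =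
      (if 0 ≤ i then u (y 9) i + u (y 9) (i + 1) else 0) +
        ∑ j : Fin 10, if p j ≤ i then u (b j) i + u (b j) (i + 1) else 0 := fun i hi => by
    rw [c1 i (mem_range.1 hi), if_pos i.zero_le]
    by_cases a : v i = w <;> by_cases c : v (i + 1) = w <;> simp [u, g, a, c, v5_add_self]
  rw [bd_split sub', ← off, bd_congr fun f hf _ => c2 f hf, bd_im hc Subset.rfl, sum_congr rfl k1,
    sum_add_distrib, sum_comm, tel _ n.zero_le,
    sum_congr rfl fun j _ => tel (u (b j)) (min_le_left _ _), sum_add_distrib]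
  have k2 : ∑ j, u (b j) n = 0 := by by_cases a : v n = w <;> simp [u, a, tot]
  have k3 : u (y 9) n = u (y 9) 0 := by simp only [u, hc.cl]
  rw [k2, k3, v5_add_self, zero_add, add_zero]
  exact (congrArg (· + _) (r2 w)).trans (v5_add_self _)

end Pool.Agent.MP_e6539c_co.C5
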