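import Pool.Agent.MP_e6539c_co.C5.CBasic

/-! No short circuit has its vertices in one component of the rest. -/

set_option autoImplicit false

namespace Pool.Agent.MP_e6539c_co.C5

open Finset
open Pool.Agent.MP_e6539c_co.TW (MG)
open scoped Classical

namespace ShortAux

variable {V E : Type} {G : MG V E}

theorem bool_corners : ∀ x y a₁ a₂ a₃ a₄ b₁ b₂ b₃ b₄ : Bool,
    (∀ s t : Bool, (a₁ = xor x s ∧ b₁ = xor y t) ∨ (a₂ = xor x s ∧ b₂ = xor y t) ∨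
      (a₃ = xor x s ∧ b₃ = xor y t) ∨ (a₄ = xor x s ∧ b₄ = xor y t)) →
    ((a₁ = a₃ ∧ a₂ = a₄ ∧ b₁ = b₃ ∧ b₂ = b₄) ∨ (b₁ = b₂ ∧ a₃ = a₄)) → a₁ ≠ a₂ → b₃ ≠ b₄ →
    False := by decide

/-- Two cuts with one edge each do not reach all four corners. -/
theorem corners {B : Finset E} {Y Y₂ : Set V} (h1 : (G.cut B Y).card = 1)
    (h2 : (G.cut B Y₂).card = 1) (P : V → Prop)
    (hP : ∀ Z : Set V, G.cut B Z = ∅ → ∀ p q, P p → P q → (p ∈ Z ↔ q ∈ Z))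
    {p₀ p₁ p₂ p₃ : V} (q₀ : P p₀) (q₁ : P p₁) (q₂ : P p₂) (q₃ : P p₃)
    (a₀ : ¬ (p₀ ∈ Y ↔ p₁ ∈ Y)) (b₀ : p₀ ∈ Y₂ ↔ p₁ ∈ Y₂) (a₁ : p₁ ∈ Y ↔ p₂ ∈ Y)
    (b₁ : ¬ (p₁ ∈ Y₂ ↔ p₂ ∈ Y₂)) (a₂ : ¬ (p₂ ∈ Y ↔ p₃ ∈ Y)) (b₂ : p₂ ∈ Y₂ ↔ p₃ ∈ Y₂) : False := by
  obtain ⟨f, hf⟩ := card_eq_one.1 h1
  obtain ⟨g, hg⟩ := card_eq_one.1 h2
  have mf : ∀ h, (h ∈ B ∧ ¬ (G.l h ∈ Y ↔ G.r h ∈ Y)) ↔ h = f := fun h => by
    rw [← mem_singleton, ← hf]; simp only [MG.cut, mem_filter]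
  have mg : ∀ h, (h ∈ B ∧ ¬ (G.l h ∈ Y₂ ↔ G.r h ∈ Y₂)) ↔ h = g := fun h => by
    rw [← mem_singleton, ← hg]; simp only [MG.cut, mem_filter]
  have key : ∀ p q, P p → P q → ¬ (q ∈ Y ↔ p ∈ Y) →
      ∃ w, (w = G.l f ∨ w = G.r f ∨ w = G.l g ∨ w = G.r g) ∧
        (w ∈ Y ↔ p ∈ Y) ∧ (w ∈ Y₂ ↔ p ∈ Y₂) := by
    intro p q hp hq hne
    have hc : G.cut B {w | (w ∈ Y ↔ p ∈ Y) ∧ (w ∈ Y₂ ↔ p ∈ Y₂)} ≠ ∅ := by
      intro h0
      exact hne ((hP _ h0 p q hp hq).1 ⟨Iff.rfl, Iff.rfl⟩).1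
    obtain ⟨h, hh⟩ := nonempty_iff_ne_empty.2 hc
    simp only [MG.cut, mem_filter, Set.mem_ofPred_eq] at hh
    have hfg : h = f ∨ h = g := by
      rw [← mf, ← mg]
      by_contra hcon
      have c1 : G.l h ∈ Y ↔ G.r h ∈ Y := by_contra fun c => hcon (Or.inl ⟨hh.1, c⟩)
      have c2 : G.l h ∈ Y₂ ↔ G.r h ∈ Y₂ := by_contra fun c => hcon (Or.inr ⟨hh.1, c⟩)
      exact hh.2 (by rw [c1, c2])
    by_cases hl : (G.l h ∈ Y ↔ p ∈ Y) ∧ (G.l h ∈ Y₂ ↔ p ∈ Y₂)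
    · exact ⟨G.l h, by rcases hfg with rfl | rfl <;> simp, hl⟩
    · have hr : (G.r h ∈ Y ↔ p ∈ Y) ∧ (G.r h ∈ Y₂ ↔ p ∈ Y₂) :=
        by_contra fun c => hh.2 ⟨fun c' => absurd c' hl, fun c' => absurd c' c⟩
      exact ⟨G.r h, by rcases hfg with rfl | rfl <;> simp, hr⟩
  have ff := (mf f).2 rfl
  have gg := (mg g).2 rfl
  refine bool_corners (decide (p₀ ∈ Y)) (decide (p₀ ∈ Y₂)) (decide (G.l f ∈ Y))
    (decide (G.r f ∈ Y)) (decide (G.l g ∈ Y)) (decide (G.r g ∈ Y)) (decide (G.l f ∈ Y₂))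
    (decide (G.r f ∈ Y₂)) (decide (G.l g ∈ Y₂)) (decide (G.r g ∈ Y₂)) ?_ ?_ ?_ ?_
  · have out : ∀ (p : V) (s t : Bool), decide (p ∈ Y) = xor (decide (p₀ ∈ Y)) s →
        decide (p ∈ Y₂) = xor (decide (p₀ ∈ Y₂)) t → ∀ q, P p → P q → ¬ (q ∈ Y ↔ p ∈ Y) →
        (decide (G.l f ∈ Y) = xor (decide (p₀ ∈ Y)) s ∧
          decide (G.l f ∈ Y₂) = xor (decide (p₀ ∈ Y₂)) t) ∨
        (decide (G.r f ∈ Y) = xor (decide (p₀ ∈ Y)) s ∧
          decide (G.r f ∈ Y₂) = xor (decide (p₀ ∈ Y₂)) t) ∨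
        (decide (G.l g ∈ Y) = xor (decide (p₀ ∈ Y)) s ∧
          decide (G.l g ∈ Y₂) = xor (decide (p₀ ∈ Y₂)) t) ∨
        (decide (G.r g ∈ Y) = xor (decide (p₀ ∈ Y)) s ∧
          decide (G.r g ∈ Y₂) = xor (decide (p₀ ∈ Y₂)) t) := by
      intro p s t e1 e2 q hp hq hne
      obtain ⟨w, hw, w1, w2⟩ := key p q hp hq hne
      rw [← e1, ← e2]
      have w1' : decide (w ∈ Y) = decide (p ∈ Y) := decide_eq_decide.2 w1
      have w2' : decide (w ∈ Y₂) = decide (p ∈ Y₂) := decide_eq_decide.2 w2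
      rcases hw with rfl | rfl | rfl | rfl
      · exact Or.inl ⟨w1', w2'⟩
      · exact Or.inr (Or.inl ⟨w1', w2'⟩)
      · exact Or.inr (Or.inr (Or.inl ⟨w1', w2'⟩))
      · exact Or.inr (Or.inr (Or.inr ⟨w1', w2'⟩))
    intro s t
    cases s <;> cases t
    · exact out p₀ _ _ (by simp) (by simp) p₁ q₀ q₁ fun c => a₀ c.symm
    · refine out p₃ _ _ ?_ ?_ p₂ q₃ q₂ a₂
      · by_cases c : p₀ ∈ Y <;> simp_all
      · by_cases c : p₀ ∈ Y₂ <;> simp_all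
    · refine out p₁ _ _ ?_ ?_ p₀ q₁ q₀ a₀
      · by_cases c : p₀ ∈ Y <;> simp_all
      · by_cases c : p₀ ∈ Y₂ <;> simp_all
    · refine out p₂ _ _ ?_ ?_ p₃ q₂ q₃ fun c => a₂ c.symm
      · by_cases c : p₀ ∈ Y <;> simp_all
      · by_cases c : p₀ ∈ Y₂ <;> simp_all
  · by_cases hfg : f = g
    · subst hfg
      exact Or.inl ⟨rfl, rfl, rfl, rfl⟩
    · refine Or.inr ⟨decide_eq_decide.2 ?_, decide_eq_decide.2 ?_⟩
      · exact by_contra fun c => hfg ((mg f).1 ⟨ff.1, c⟩)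
      · exact by_contra fun c => hfg ((mf g).1 ⟨gg.1, c⟩).symm
  · exact fun c => ff.2 (decide_eq_decide.1 c)
  · exact fun c => gg.2 (decide_eq_decide.1 c)

variable {n : ℕ} {v : ℕ → V} {e : ℕ → E}

theorem vinj' (h : Circ G n v e) {a b : ℕ} (ha : a ≤ n) (hb : b ≤ n) (hab : v a = v b) :
    a = b ∨ (a = 0 ∧ b = n) ∨ (a = n ∧ b = 0) := by
  have hp := h.pos
  rcases ha.lt_or_eq with ha | rfl <;> rcases hb.lt_or_eq with hb | rfl
  · exact Or.inl (h.vinj a ha b hb hab)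
  · exact Or.inr (Or.inl ⟨h.vinj a ha 0 (by omega) (hab.trans h.cl), rfl⟩)
  · exact Or.inr (Or.inr ⟨rfl, h.vinj b hb 0 (by omega) (hab.symm.trans h.cl)⟩)
  · exact Or.inl rfl

/-- The indices `c, c + 2, …, c + 2 (d - 1)`. -/
def DD (c d : ℕ) : Finset ℕ := (range d).image fun k => c + 2 * k

theorem mem_DD {c d i : ℕ} : i ∈ DD c d ↔ c ≤ i ∧ i < c + 2 * d ∧ (i - c) % 2 = 0 := by
  simp only [DD, mem_image, mem_range]
  constructor
  · rintro ⟨k, hk, rfl⟩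
    omega
  · intro h
    exact ⟨(i - c) / 2, by omega, by omega⟩

theorem card_DD (c d : ℕ) : (DD c d).card = d := by
  rw [DD, card_image_of_injective _ fun a b (h : c + 2 * a = c + 2 * b) => by omega, card_range]

theorem matching (h : Circ G n v e) {c d : ℕ} (hc : c + 2 * d ≤ n + 1)
    (hd : d ≤ 1 ∨ 2 * d ≤ n) :
    ∀ i ∈ DD c d, ∀ j ∈ DD c d, ∀ u, G.Inc (e i) u → G.Inc (e j) u → i = j := by
  intro i hi j hj u hu hu'
  rw [mem_DD] at hi hj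
  have hi' : i < n := by omega
  have hj' : j < n := by omega
  rw [(h.ends i hi').inc_iff] at hu
  rw [(h.ends j hj').inc_iff] at hu'
  rcases hu with rfl | rfl <;> rcases hu' with hu' | hu' <;>
    have := vinj' h (by omega) (by omega) hu' <;> omega

theorem all_of {D : Finset ℕ} {p : ℕ → Prop} [DecidablePred p] {c : ℕ}
    (h : c ≤ (D.filter p).card) (hD : D.card ≤ c) : ∀ i ∈ D, p i := fun i hi => by
  rw [← eq_of_subset_of_card_le (filter_subset p D) (hD.trans h)] at hi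
  exact (mem_filter.1 hi).2

theorem all_but_one {D : Finset ℕ} {p : ℕ → Prop} [DecidablePred p] {c : ℕ}
    (h : c ≤ (D.filter p).card) (hD : D.card ≤ c + 1) : ∃ k, ∀ i ∈ D, i ≠ k → p i := by
  have h1 : (D.filter fun i => ¬ p i).card ≤ 1 := by
    have := card_filter_add_card_filter_not (s := D) p
    omega
  obtain ⟨k, hk⟩ := card_le_one_iff_subset_singleton.1 h1
  exact ⟨k, fun i hi hik => by_contra fun c => hik (mem_singleton.1 (hk (mem_filter.2 ⟨hi, c⟩)))⟩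

end ShortAux

open ShortAux in
theorem short (hR : RingStmt) (hB : BridgeStmt) : ShortStmt := by
  intro V E _ G hG n v e hC hn hRC
  have hp := hC.pos
  have step : ∀ c d, 1 ≤ d → n ≤ d + 5 → c + 2 * d ≤ n + 1 → (d ≤ 1 ∨ 2 * d ≤ n) →
      ∃ Y : Set V, (G.cut (off G n e) Y).card = 1 ∧
        (∀ i < n, i ∉ DD c d → (v i ∈ Y ↔ v (i + 1) ∈ Y)) ∧
        4 ≤ ((DD c d).filter fun i => ¬ (v i ∈ Y ↔ v (i + 1) ∈ Y)).card := by
    intro c d h1 h2 h3 h4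
    have hs : DD c d ⊆ range n := fun i hi => by
      rw [mem_DD] at hi
      exact mem_range.2 (by omega)
    by_contra hcon
    refine hR V E G hG n v e hC (DD c d) hs ⟨c, mem_DD.2 (by omega)⟩ (by rw [card_DD]; exact h2) ?_
    intro Y hY
    exact hcon ⟨Y, hB V E G hG n v e hC hRC _ hs (matching hC h3 h4) Y hY⟩
  obtain ⟨Y, y1, y2, y3⟩ := step 0 (max 1 (n - 5)) (by omega) (by omega) (by omega) (by omega)
  have hd : 4 ≤ max 1 (n - 5) := y3.trans ((card_filter_le _ _).trans (card_DD _ _).le)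
  obtain ⟨Z, z1, z2, z3⟩ := step 1 (max 1 (n - 5)) (by omega) (by omega) (by omega) (by omega)
  have hP : ∀ W : Set V, G.cut (off G n e) W = ∅ → ∀ p q, (∃ i < n, p = v i) →
      (∃ i < n, q = v i) → (p ∈ W ↔ q ∈ W) := by
    rintro W hW p q ⟨i, hi, rfl⟩ ⟨j, hj, rfl⟩
    exact hRC W hW i hi j hj
  have fin : ∀ t, t + 3 < n → t + 3 ≤ 2 * max 1 (n - 5) →
      (∀ i ∈ DD 0 (max 1 (n - 5)), t ≤ i → i ≤ t + 2 → ¬ (v i ∈ Y ↔ v (i + 1) ∈ Y)) →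
      (∀ i ∈ DD 1 (max 1 (n - 5)), t ≤ i → i ≤ t + 2 → ¬ (v i ∈ Z ↔ v (i + 1) ∈ Z)) → False := by
    intro t h1 h2 fy fz
    rcases Nat.mod_two_eq_zero_or_one t with ht | ht
    · exact corners y1 z1 _ hP ⟨t, by omega, rfl⟩ ⟨t + 1, by omega, rfl⟩ ⟨t + 2, by omega, rfl⟩
        ⟨t + 3, by omega, rfl⟩ (fy t (mem_DD.2 (by omega)) (by omega) (by omega))
        (z2 t (by omega) (by rw [mem_DD]; omega)) (y2 (t + 1) (by omega) (by rw [mem_DD]; omega))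
        (fz (t + 1) (mem_DD.2 (by omega)) (by omega) (by omega))
        (fy (t + 2) (mem_DD.2 (by omega)) (by omega) (by omega))
        (z2 (t + 2) (by omega) (by rw [mem_DD]; omega))
    · exact corners z1 y1 _ hP ⟨t, by omega, rfl⟩ ⟨t + 1, by omega, rfl⟩ ⟨t + 2, by omega, rfl⟩
        ⟨t + 3, by omega, rfl⟩ (fz t (mem_DD.2 (by omega)) (by omega) (by omega))
        (y2 t (by omega) (by rw [mem_DD]; omega)) (z2 (t + 1) (by omega) (by rw [mem_DD]; omega))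
        (fy (t + 1) (mem_DD.2 (by omega)) (by omega) (by omega))
        (fz (t + 2) (mem_DD.2 (by omega)) (by omega) (by omega))
        (y2 (t + 2) (by omega) (by rw [mem_DD]; omega))
  by_cases h9 : n = 9
  · exact fin 0 (by omega) (by omega)
      (fun i hi _ _ => all_of y3 (by rw [card_DD]; omega) i hi)
      (fun i hi _ _ => all_of z3 (by rw [card_DD]; omega) i hi)
  · obtain ⟨k, hk⟩ := all_but_one y3 (by rw [card_DD]; omega)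
    obtain ⟨l, hl⟩ := all_but_one z3 (by rw [card_DD]; omega)
    obtain ⟨t, ht, tk, tl⟩ : ∃ t ≤ 6, (k < t ∨ t + 2 < k) ∧ (l < t ∨ t + 2 < l) := by
      by_cases c0 : 2 < k ∧ 2 < l
      · exact ⟨0, by omega, by omega, by omega⟩
      by_cases c3 : (k < 3 ∨ 5 < k) ∧ (l < 3 ∨ 5 < l)
      · exact ⟨3, by omega, by omega, by omega⟩
      · exact ⟨6, by omega, by omega, by omega⟩
    exact fin t (by omega) (by omega) (fun i hi _ _ => hk i hi (by omega))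
      (fun i hi _ _ => hl i hi (by omega))

end Pool.Agent.MP_e6539c_co.C5
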