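import Pool.Agent.MP_e6539c_co.C5.Game
import Pool.Agent.MP_e6539c_co.C5.CertAll
import Pool.Agent.MP_e6539c_co.C5.Cut
import Pool.Agent.MP_e6539c_co.C5.Kinst
import Pool.Agent.MP_e6539c_co.C5.Ring
import Pool.Agent.MP_e6539c_co.C5.Bridge
import Pool.Agent.MP_e6539c_co.C5.Short
import Pool.Agent.MP_e6539c_co.C5.Extremal
import Pool.Agent.MP_e6539c_co.C5.Cyst
import Pool.Agent.MP_e6539c_co.C5.Girth
import Pool.Agent.MP_e6539c_co.C5.Min

/-! Assembly of the five-cycle double cover theorem. -/

set_option autoImplicit false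

namespace Pool.Agent.MP_e6539c_co.C5

theorem shortAll : ShortStmt := short (ring (cyc Cert.kempe)) (bridge cut)

theorem cdcAll : CdcStmt :=
  cdc cut (girth cut (kmax cut shortAll) (cyst tree noAllAll)) (amain noAllAll)

end Pool.Agent.MP_e6539c_co.C5
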