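import Mathlib.GroupTheory.GroupAction.Ring
import Pool.Agent.MP_e6539c_co.C5.Basic

/-! Geodesics through the territory and the survival of a cycle. -/

set_option autoImplicit false

namespace Pool.Agent.MP_e6539c_co.C5

open Finset
open Pool.Agent.MP_7be75d_co (R Conn comp)
open Pool.Agent.MP_7be75d_co
open scoped Classical

namespace GeoM

variable {V : Type} {G : SimpleGraph V} {C : Finset V} {m : ℕ} {d : ℕ → V}

theorem mem_inner {x : V} : x ∈ inner m d ↔ ∃ i, 1 ≤ i ∧ i ≤ m ∧ d i = x := by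
  simp [inner, and_assoc]

/-- A shortest path between two active outside vertices. -/
theorem exists_geo {a b : V} (hC : Conn G C) (hab : a ≠ b) (ha : a ∉ C) (hb : b ∉ C)
    (h1 : Act G C a) (h2 : Act G C b) : ∃ m d, Geo G C m d ∧ d 0 = a ∧ d (m + 1) = b := by
  obtain ⟨u, hu, au⟩ := h1
  obtain ⟨v, hv, bv⟩ := h2
  obtain ⟨n, ⟨w, w', aw, bw, hw⟩, hmin⟩ := exists_min_of
    (p := fun r => ∃ w w', G.Adj a w ∧ G.Adj b w' ∧ Wk G C w w' r) id
    ⟨_, u, v, au, bv, conn_wk hC hu hv⟩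
  obtain ⟨L, f, hL, rfl, rfl, f2, f3, f4⟩ := hw.exists_path
  have hmin' : ∀ w w' r, G.Adj a w → G.Adj b w' → Wk G C w w' r → L ≤ r := fun w w' r x y z =>
    hL.trans (hmin r ⟨w, w', x, y, z⟩)
  obtain ⟨d, d0, d1, d2⟩ : ∃ d : ℕ → V, d 0 = a ∧ (∀ i ≤ L, d (i + 1) = f i) ∧ d (L + 2) = b :=
    ⟨fun i => if i = 0 then a else if i ≤ L + 1 then f (i - 1) else b, by simp,
      fun i hi => by simp [hi], by simp⟩
  have mem : ∀ i, 1 ≤ i → i ≤ L + 1 → d i ∈ C := fun i h1 h2 => by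
    obtain ⟨i, rfl⟩ : ∃ j, i = j + 1 := ⟨i - 1, by omega⟩
    rw [d1 i (by omega)]
    exact f2 i (by omega)
  have adj : ∀ i ≤ L + 1, G.Adj (d i) (d (i + 1)) := fun i hi => by
    rcases Nat.eq_zero_or_pos i with rfl | h0
    · rw [d0, d1 0 (by omega)]
      exact aw
    · obtain ⟨i, rfl⟩ : ∃ j, i = j + 1 := ⟨i - 1, by omega⟩
      rcases Nat.lt_or_ge i L with h | h
      · rw [d1 i (by omega), d1 (i + 1) (by omega)]
        exact f3 i h
      · obtain rfl : i = L := by omega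
        rw [d1 i le_rfl, d2]
        exact bw.symm
  have seg : ∀ i j, 1 ≤ i → i ≤ j → j ≤ L + 1 → Wk G C (d i) (d j) (j - i) := fun i j h1 h2 h3 =>
    Wk.of_fun h2 (fun t x y => mem t (by omega) (by omega)) (fun t x y => adj t (by omega))
  have hA : ∀ i ≤ L + 1, ∀ w ∈ C, G.Adj (d i) w → ∃ u, G.Adj a u ∧ Wk G C u w i := by
    intro i hi w hw h
    rcases Nat.eq_zero_or_pos i with rfl | h0
    · exact ⟨w, d0 ▸ h, Wk.refl hw⟩
    · exact ⟨d 1, d0 ▸ adj 0 (by omega), ((seg 1 i le_rfl h0 hi).tail h hw).le (by omega)⟩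
  have hB : ∀ j, 1 ≤ j → j ≤ L + 2 → ∀ w ∈ C, G.Adj (d j) w →
      ∃ u, G.Adj b u ∧ Wk G C w u (L + 2 - j) := by
    intro j h1 hj w hw h
    rcases Nat.lt_or_ge j (L + 2) with h0 | h0
    · exact ⟨d (L + 1), d2 ▸ (adj (L + 1) le_rfl).symm,
        (Wk.head h.symm hw (seg j (L + 1) h1 (by omega) le_rfl)).le (by omega)⟩
    · obtain rfl : j = L + 2 := by omega
      exact ⟨w, d2 ▸ h, Wk.refl hw⟩
  have short : ∀ i j w w' r, j ≤ L + 1 + 1 → G.Adj (d i) w → G.Adj (d j) w' → Wk G C w w' r →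
      j ≤ i + r + 2 := by
    intro i j w w' r hj x y z
    rcases Nat.lt_or_ge i j with h | h
    · obtain ⟨u, u1, u2⟩ := hA i (by omega) w z.left x
      obtain ⟨u', u3, u4⟩ := hB j (by omega) hj w' z.right y
      have := hmin' _ _ _ u1 u3 ((u2.trans z).trans u4)
      omega
    · omega
  refine ⟨L + 1, d, ⟨by omega, d0 ▸ ha, d2 ▸ hb, mem, adj, ?_, short, ?_⟩, d0, d2⟩
  · have k0 : ∀ j, 1 ≤ j → j ≤ L + 2 → d 0 ≠ d j := fun j h1 h2 e => by
      rcases Nat.lt_or_ge j (L + 2) with h | h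
      · exact ha (d0 ▸ e ▸ mem j h1 (by omega))
      · obtain rfl : j = L + 2 := by omega
        exact hab (d0 ▸ d2 ▸ e)
    have k1 : ∀ j, 1 ≤ j → j ≤ L + 1 → d (L + 2) ≠ d j := fun j h1 h2 e =>
      hb (d2 ▸ e ▸ mem j h1 h2)
    have k : ∀ i j, i < j → j ≤ L + 2 → d i ≠ d j := by
      intro i j hij hj e
      rcases Nat.eq_zero_or_pos i with rfl | h0
      · exact k0 j hij hj e
      rcases Nat.lt_or_ge j (L + 2) with h | h
      · obtain ⟨i, rfl⟩ : ∃ t, i = t + 1 := ⟨i - 1, by omega⟩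
        obtain ⟨j, rfl⟩ : ∃ t, j = t + 1 := ⟨j - 1, by omega⟩
        rw [d1 i (by omega), d1 j (by omega)] at e
        have := f4 i (by omega) j (by omega) e
        omega
      · obtain rfl : j = L + 2 := by omega
        exact k1 i h0 (by omega) e.symm
    intro i hi j hj e
    rcases lt_trichotomy i j with h | h | h
    · exact absurd e (k i j h hj)
    · exact h
    · exact absurd e.symm (k j i h hi)
  · intro i j hij hj h
    constructor
    · by_contra h0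
      obtain ⟨i, rfl⟩ : ∃ t, i = t + 1 := ⟨i - 1, by omega⟩
      have := short i j _ _ 0 hj (adj i (by omega)) h.symm (Wk.refl (mem _ (by omega) (by omega)))
      omega
    · by_contra h0
      have := short i (j + 1) _ _ 0 (by omega) h (adj j (by omega)).symm
        (Wk.refl (mem _ (by omega) (by omega)))
      omega

theorem out (h : Geo G C m d) {i : ℕ} (hi : i ≤ m + 1) : d i ∉ C \ inner m d := by
  rw [mem_sdiff]
  rintro ⟨h1, h2⟩
  rcases Nat.eq_zero_or_pos i with rfl | h0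
  · exact h.out0 h1
  rcases Nat.lt_or_ge i (m + 1) with k | k
  · exact h2 (mem_inner.2 ⟨i, h0, by omega, rfl⟩)
  · obtain rfl : i = m + 1 := by omega
    exact h.out1 h1

theorem acyc (h : Geo G C m d) : ¬ Cyc G (inner m d) := by
  rintro ⟨W, hW, ⟨y, hy⟩, h3⟩
  obtain ⟨t, t1, t2, rfl⟩ := mem_inner.1 (hW hy)
  obtain ⟨i, ⟨i1, i2, i3⟩, hmin⟩ := exists_min_of
    (p := fun i => 1 ≤ i ∧ i ≤ m ∧ d i ∈ W) id ⟨t, t1, t2, hy⟩
  have key : ∀ x ∈ W, G.Adj (d i) x → x = d (i + 1) := by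
    intro x hx a
    obtain ⟨s, s1, s2, rfl⟩ := mem_inner.1 (hW hx)
    have e1 : i ≤ s := hmin s ⟨s1, s2, hx⟩
    have e2 : i ≠ s := fun e => a.ne (by rw [e])
    by_cases e3 : s = i + 1
    · rw [e3]
    · have := h.chord i s (by omega) (by omega) a
      omega
  obtain ⟨x, hx, z, hz, ne, a1, a2⟩ := two_le_dg.1 (h3 _ i3)
  exact ne ((key x hx a1).trans (key z hz a2).symm)

theorem far (hG : Gi G) (h : Geo G C m d) (i j : ℕ) (w w' : V) (r : ℕ) (hij : i ≤ j)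
    (hj : j ≤ m + 1) (a : G.Adj (d i) w) (a' : G.Adj (d j) w') (ne : i = j → w ≠ w')
    (hw : Wk G (C \ inner m d) w w' r) : 9 + i ≤ r + j := by
  rcases hij.eq_or_lt with rfl | hlt
  · have := hG _ _ w w' r (out h hj) a a' (ne rfl) hw
    omega
  · have hin : ∀ t, i + 1 ≤ t → t ≤ j →
        d t ∈ (C \ inner m d) ∪ (Icc (i + 1) j).image d := fun t x y =>
      mem_union_right _ (mem_image_of_mem _ (mem_Icc.2 ⟨x, y⟩))
    have := hG ((C \ inner m d) ∪ (Icc (i + 1) j).image d) (d i) w (d (i + 1)) _ ?_ a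
      (h.adj i (by omega)) (fun e => out h (show i + 1 ≤ m + 1 by omega) (e ▸ hw.left))
      (((hw.mono subset_union_left).tail a'.symm (hin j hlt le_rfl)).trans
        (Wk.of_fun (show i + 1 ≤ j from hlt) hin (fun t _ y => h.adj t (by omega))).symm)
    · omega
    · rw [mem_union]
      rintro (c | c)
      · exact out h (by omega) c
      · obtain ⟨t, ht, e⟩ := mem_image.1 c
        rw [mem_Icc] at ht
        have := h.inj t (by omega) i (by omega) e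
        omega

theorem cls (hG : Gi G) (h : Geo G C m d) :
    Cls G (C \ inner m d) {x | ∃ i ≤ m + 1, x = d i} := by
  have key : ∀ i j w w' r, i ≤ m + 1 → j ≤ m + 1 → G.Adj (d i) w → G.Adj (d j) w' →
      (d i, w) ≠ (d j, w') → Wk G (C \ inner m d) w w' r →
      (i ≤ j → 9 + i ≤ r + j) ∧ (j ≤ i → 9 + j ≤ r + i) ∧ j ≤ i + r + 2 ∧ i ≤ j + r + 2 :=
    fun i j w w' r hi hj a a' ne hw =>
      ⟨fun k => far hG h i j w w' r k hj a a' (fun e c => ne (by rw [e, c])) hw,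
        fun k => far hG h j i w' w r k hi a' a (fun e c => ne (by rw [e, c])) hw.symm,
        h.short i j w w' r hj a a' (hw.mono sdiff_subset),
        h.short j i w' w r hi a' a (hw.symm.mono sdiff_subset)⟩
  refine ⟨?_, ?_, ?_⟩
  · rintro x ⟨i, hi, rfl⟩
    exact out h hi
  · rintro ⟨_, w⟩ ⟨_, w'⟩ r ⟨⟨i, hi, rfl⟩, -, a⟩ ⟨⟨j, hj, rfl⟩, -, a'⟩ ne hw
    have := key i j w w' r hi hj a a' ne hw
    omega
  · rintro ⟨_, w⟩ ⟨_, w'⟩ ⟨_, w''⟩ r₁ r₂ r₃ ⟨⟨i, hi, rfl⟩, -, a⟩ ⟨⟨j, hj, rfl⟩, -, a'⟩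
      ⟨⟨k, hk, rfl⟩, -, a''⟩ n1 n2 n3 w1 w2 w3
    have := key i j w w' r₁ hi hj a a' n1 w1
    have := key i k w w'' r₂ hi hk a a'' n2 w2
    have := key j k w' w'' r₃ hj hk a' a'' n3 w3
    omega

end GeoM

theorem geo : GeoStmt := by
  intro V _ G C a b hG hC hab ha hb h1 h2
  obtain ⟨m, d, h, d0, d1⟩ := GeoM.exists_geo hC hab ha hb h1 h2
  exact ⟨m, d, h, d0, d1, GeoM.acyc h, GeoM.cls hG h, GeoM.far hG h⟩

theorem surv0 : Surv0Stmt := by
  rintro V _ G C D ⟨W, hW, hne, h3⟩ hD hCD hm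
  obtain ⟨y, hy, hyD⟩ : ∃ y ∈ W, y ∉ D := by
    by_contra hc
    push Not at hc
    exact hD ⟨W, hc, hne, h3⟩
  have hy' : y ∈ C \ D := mem_sdiff.2 ⟨hW hy, hyD⟩
  have h1 := forest_count' (G := G) (Y := W ∩ comp G (C \ D) y)
    ⟨y, mem_inter.2 ⟨hy, self_mem_comp hy'⟩⟩
    (fun c => hCD (c.mono (inter_subset_right.trans comp_subset)))
  have h2 := sum_dg_le (G := G) (Y := W ∩ comp G (C \ D) y) (W := W) (S := ↑D)
    (fun w hw x hx hx' a => by
      by_contra hc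
      exact hx' (mem_inter.2 ⟨hx, comp_closed (mem_inter.1 hw).2
        (mem_sdiff.2 ⟨hW hx, hc⟩) a.symm⟩))
  have h4 : (mks G (W ∩ comp G (C \ D) y) ↑D).card ≤ 1 := by
    refine le_trans (card_le_card fun p hp => ?_) (hm y hy')
    rw [mem_mks] at hp ⊢
    exact ⟨fun c => (mem_sdiff.1 (comp_subset c)).2 hp.2.1, hp.2.1, (mem_inter.1 hp.2.2.1).2,
      hp.2.2.2⟩
  have h5 : (W ∩ comp G (C \ D) y).card * 2 ≤ ∑ v ∈ W ∩ comp G (C \ D) y, dg G W v :=
    card_nsmul_le_sum _ _ 2 fun v hv => h3 v (mem_inter.1 hv).1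
  omega

end Pool.Agent.MP_e6539c_co.C5
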