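import Mathlib.GroupTheory.GroupAction.Ring
import Pool.Agent.MP_e6539c_co.C5.Basic

/-! There is no good set, and no spanning set away from the part that reaches `M`. -/

set_option autoImplicit false

namespace Pool.Agent.MP_e6539c_co.C5

open Finset
open Pool.Agent.MP_7be75d_co (R Conn comp)
open Pool.Agent.MP_7be75d_co
open scoped Classical

namespace GoodP

variable {V : Type} [Fintype V] {H : SimpleGraph V} {M : List V} {k : ℕ} {q : ℕ → V}

omit [Fintype V] in
theorem span_mono {U U' : Finset V} {i l : ℕ} (h : Span H q U i l) (c : Conn H U')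
    (s : U ⊆ U') : Span H q U' i l := ⟨c, h.2.1.mono s, h.2.2.mono s⟩

theorem mem_WW {z w : V} {K' : Finset V} :
    w ∈ WW k q z K' ↔ w ∉ qs k q ∧ w ≠ z ∧ w ∉ K' := by
  simp [WW]

/-- The neighbours of `U` in `K`. -/
noncomputable def Nb (H : SimpleGraph V) (K U : Finset V) : Finset V :=
  (K \ U).filter (Act H U)

omit [Fintype V] in
theorem mem_Nb {K U : Finset V} {w : V} : w ∈ Nb H K U ↔ w ∈ K ∧ w ∉ U ∧ Act H U w := by
  simp [Nb, and_assoc]

omit [Fintype V] in
/-- A walk from outside `U` to `U` meets a neighbour of `U` first. -/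
theorem hit {K W U : Finset V} {m u : V} (hW : W ⊆ K) (hm : m ∉ U) (hmW : m ∈ W)
    (h : R H W m u) (hu : u ∈ U) :
    ∃ w ∈ Nb H K U, w ∈ W ∧ R H (insert w (W \ (U ∪ Nb H K U))) m w := by
  obtain ⟨a, ha, h1, h2⟩ := first_hit (A := U ∪ Nb H K U) h (mem_union_left _ hu)
  rcases mem_union.1 ha with ha | ha
  · exfalso
    obtain ⟨y, hy, -, ay⟩ := h1.symm.exists_adj (fun c => hm (c ▸ ha))
    rcases mem_insert.1 hy with c | c
    · exact ay.ne c.symm
    · have c' := mem_sdiff.1 c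
      refine c'.2 (mem_union_right _ (mem_Nb.2 ⟨hW c'.1, fun d => c'.2 (mem_union_left _ d),
        a, ha, ay.symm⟩))
  · exact ⟨a, ha, h2.mem hmW, h1⟩

/-- The vertices that reach `M` minus `z` without using `z`. -/
noncomputable def Kz (H : SimpleGraph V) (M : List V) (k : ℕ) (q : ℕ → V) (z : V) : Finset V :=
  ((KK H M k q).erase z).filter fun v => ∃ m ∈ M, m ≠ z ∧ R H ((KK H M k q).erase z) m v

theorem mem_Kz {z v : V} : v ∈ Kz H M k q z ↔ v ∈ (KK H M k q).erase z ∧
    ∃ m ∈ M, m ≠ z ∧ R H ((KK H M k q).erase z) m v := mem_filter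

theorem Kz_M {z m : V} (hm : m ∈ M) : m ∈ Kz H M k q z ∨ m = z := by
  by_cases c : m = z
  · exact Or.inr c
  · exact Or.inl (mem_Kz.2 ⟨mem_erase.2 ⟨c, KK_of_M hm⟩, m, hm, c, R.refl⟩)

theorem Kz_closed {z v w : V} (hv : v ∈ Kz H M k q z) (a : H.Adj v w) (hw : w ∈ KK H M k q)
    (hz : w ≠ z) : w ∈ Kz H M k q z := by
  obtain ⟨h1, m, hm, hmz, r⟩ := mem_Kz.1 hv
  exact mem_Kz.2 ⟨mem_erase.2 ⟨hz, hw⟩, m, hm, hmz, r.tail a h1 (mem_erase.2 ⟨hz, hw⟩)⟩

theorem Kz_sub {z : V} : Kz H M k q z ⊆ KK H M k q := fun _ h =>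
  mem_of_mem_erase (mem_Kz.1 h).1

theorem Kz_ne {z v : V} (h : v ∈ Kz H M k q z) : v ≠ z := ne_of_mem_erase (mem_Kz.1 h).1

/-- A neighbour in `Kz` gives an exit that avoids every set disjoint from `Kz`. -/
theorem Kz_exit {z : V} {Y : Finset V} {j : ℕ} (h : Act H (Kz H M k q z) (q j))
    (hY : ∀ v ∈ Kz H M k q z, v ∉ Y) : Exit H M k q Y j := by
  obtain ⟨y, hy, a⟩ := h
  obtain ⟨h1, m, hm, hmz, r⟩ := mem_Kz.1 hy
  have hmK : m ∈ Kz H M k q z := (Kz_M hm).resolve_right hmz
  have r' := (r.closed (S := Kz H M k q z) hmK (fun x hx w hw _ xw =>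
    Kz_closed hx xw (mem_of_mem_erase hw) (ne_of_mem_erase hw))).2
  have sub : Kz H M k q z ⊆ KK H M k q \ Y := fun v hv => mem_sdiff.2 ⟨Kz_sub hv, hY v hv⟩
  exact ⟨m, hm, y, sub hy, a, r'.symm.mono (inter_subset_right.trans sub)⟩

/-- A connected set in `KK` that misses `z` and `Kz` lies in one that is adjacent to `z`. -/
theorem reach_z (hP : PQ H M k q) {z : V} {U' : Finset V} (c : Conn H U')
    (s : U' ⊆ KK H M k q) (hz : ∀ u ∈ U', u ≠ z ∧ u ∉ Kz H M k q z) :
    ∃ S, U' ⊆ S ∧ Conn H S ∧ Act H S z ∧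
      ∀ v ∈ S, v ∈ KK H M k q ∧ v ≠ z ∧ v ∉ Kz H M k q z := by
  obtain ⟨u, hu⟩ := c.1
  set T := KK H M k q \ insert z (Kz H M k q z) with hT
  have memT : ∀ v, v ∈ T ↔ v ∈ KK H M k q ∧ v ≠ z ∧ v ∉ Kz H M k q z := by
    intro v
    simp [hT]
  have sT : U' ⊆ T := fun v hv => (memT v).2 ⟨s hv, hz v hv⟩
  have hS : ∀ v ∈ comp H T u, v ∈ KK H M k q ∧ v ≠ z ∧ v ∉ Kz H M k q z :=
    fun v hv => (memT v).1 (comp_subset hv)
  refine ⟨comp H T u, c.subset_comp sT hu (self_mem_comp (sT hu)), comp_conn (sT hu), ?_, hS⟩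
  obtain ⟨m, hm, r⟩ := hP.KK_reach (s hu)
  have hmS : m ∉ comp H T u := fun d => by
    rcases Kz_M (H := H) (k := k) (q := q) (z := z) hm with e | e
    · exact (hS m d).2.2 e
    · exact (hS m d).2.1 e
  obtain ⟨x, y, hx, hy, -, hyK, a, -⟩ := r.symm.exit (self_mem_comp (sT hu)) hmS
  by_cases e : y = z
  · exact ⟨x, hx, e ▸ a.symm⟩
  · exfalso
    by_cases e' : y ∈ Kz H M k q z
    · exact (hS x hx).2.2 (Kz_closed e' a.symm (hS x hx).1 (hS x hx).2.1)
    · exact hy (comp_closed hx ((memT y).2 ⟨hyK, e, e'⟩) a)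

theorem second (hP : PQ H M k q) (hR : RR H M k q) (hL : LL H M k q) (U : Finset V) (i l : ℕ)
    (d1 : Disjoint U (qs k q)) (d2 : Disjoint U (KK H M k q)) (h1 : i + 2 ≤ l) (h2 : l ≤ k) :
    ¬ Span H q U i l := by
  obtain ⟨z, hz⟩ := List.exists_mem_of_ne_nil M hP.M_ne
  have hW : ∀ w, w ∈ WW k q z ((KK H M k q).erase z) ↔ w ∉ qs k q ∧ w ∉ KK H M k q := by
    intro w
    rw [mem_WW, mem_erase]
    constructor
    · rintro ⟨a, b, c⟩
      exact ⟨a, fun d => c ⟨b, d⟩⟩
    · rintro ⟨a, b⟩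
      exact ⟨a, fun d => b (d ▸ KK_of_M hz), fun d => b d.2⟩
  refine hL z ((KK H M k q).erase z) ?_ ?_ ?_ U ?_ i l h1 h2
  · intro m hm
    by_cases c : m = z
    · exact Or.inr c
    · exact Or.inl (mem_erase.2 ⟨c, KK_of_M hm⟩)
  · rintro w hw ⟨v, hv, a⟩
    exact ((hW w).1 hw).2 (hP.KK_closed (mem_of_mem_erase hv) a.symm ((hW w).1 hw).1)
  · intro U' hU' i' j' l' a b c s d
    exact hR U' i' j' l' s (disjoint_left.2 fun v hv => ((hW v).1 (hU' hv)).1)
      (disjoint_left.2 fun v hv => ((hW v).1 (hU' hv)).2) a b c (d.mono (erase_subset _ _))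
  · intro v hv
    exact (hW v).2 ⟨disjoint_left.1 d1 hv, disjoint_left.1 d2 hv⟩

theorem first (hP : PQ H M k q) (hR : RR H M k q) (hX : XL H M k q) (hL : LL H M k q)
    (U₀ : Finset V) : ¬ Good H M k q U₀ := by
  intro h₀
  obtain ⟨U, ⟨hUK, hUM, i, j, l, hij, hjl, hlk, hs, hE⟩, hmax⟩ :=
    exists_max_of (p := Good H M k q) Finset.card (univ : Finset V).card
      (fun a _ => card_le_univ a) ⟨U₀, h₀⟩
  set K := KK H M k q with hK
  have hS : ∀ w ∈ Nb H K U, ¬ Exit H M k q (insert w U) j := by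
    intro w hw
    obtain ⟨wK, wU, wa⟩ := mem_Nb.1 hw
    by_cases c : w ∈ M
    · exact hX U i j l hUK hUM hij hjl hlk hs w c wa
    · intro e
      obtain ⟨u, hu, a⟩ := wa
      have := hmax (insert w U) ⟨insert_subset wK hUK, fun v hv => by
        rcases mem_insert.1 hv with d | d
        · exact d ▸ c
        · exact hUM v d, i, j, l, hij, hjl, hlk,
        span_mono hs (hs.1.insert hu a.symm) (subset_insert _ _), e⟩
      rw [card_insert_of_notMem wU] at this
      omega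
  obtain ⟨u₀, hu₀⟩ := hs.1.1
  obtain ⟨m₀, hm₀, r₀⟩ := hP.KK_reach (hUK hu₀)
  obtain ⟨z, hz, -, ζ⟩ := hit (K := K) subset_rfl (fun c => hUM _ c hm₀) (KK_of_M hm₀) r₀ hu₀
  obtain ⟨zK, zU, za⟩ := mem_Nb.1 hz
  have hUz : ∀ u ∈ U, u ∉ Kz H M k q z := by
    intro u hu c
    obtain ⟨-, m', hm', hmz, r'⟩ := mem_Kz.1 c
    obtain ⟨w, hw, hwz, ω⟩ := hit (K := K) (erase_subset _ _) (fun c => hUM _ c hm')
      (mem_erase.2 ⟨hmz, KK_of_M hm'⟩) r' hu
    obtain ⟨wK, wU, -⟩ := mem_Nb.1 hw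
    have wz : w ≠ z := ne_of_mem_erase hwz
    obtain ⟨m, hm, y, hy, ay, rE⟩ := hE
    obtain ⟨a, ha, r1, r2⟩ := first_hit (A := {w, z, m}) rE (by simp)
    have haK := mem_sdiff.1 (r2.mem hy)
    have sub : ∀ b, a ≠ b → b = w ∨ b = z →
        insert a ((K \ U) \ {w, z, m}) ⊆ K \ insert b U := by
      intro b hb hb' v hv
      rcases mem_insert.1 hv with d | d
      · subst d
        exact mem_sdiff.2 ⟨haK.1, fun e => (mem_insert.1 e).elim hb haK.2⟩
      · simp only [mem_sdiff, mem_insert, mem_singleton, not_or] at d ⊢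
        refine ⟨d.1.1, ?_, d.1.2⟩
        rcases hb' with e | e
        · exact e ▸ d.2.1
        · exact e ▸ d.2.2.1
    have fin : ∀ b, a ≠ b → b = w ∨ b = z → ∀ m'' ∈ M, R H (K \ insert b U) a m'' → False := by
      intro b hb hb' m'' hm'' r
      refine hS b (by rcases hb' with e | e <;> rw [e] <;> assumption)
        ⟨m'', hm'', y, sub b hb hb' (r1.symm.mem (mem_insert_self _ _)), ay,
          (r1.mono (sub b hb hb')).trans r⟩
    by_cases c1 : a = w
    · refine fin z (c1 ▸ wz) (Or.inr rfl) m' hm' (c1 ▸ ω.symm.mono ?_)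
      intro v hv
      rcases mem_insert.1 hv with d | d
      · rw [d]
        exact mem_sdiff.2 ⟨wK, fun e => (mem_insert.1 e).elim wz wU⟩
      · have d' := mem_sdiff.1 d
        exact mem_sdiff.2 ⟨mem_of_mem_erase d'.1, fun e => (mem_insert.1 e).elim
          (ne_of_mem_erase d'.1) fun e' => d'.2 (mem_union_left _ e')⟩
    · by_cases c2 : a = z
      · refine fin w c1 (Or.inl rfl) m₀ hm₀ (c2 ▸ ζ.symm.mono ?_)
        intro v hv
        rcases mem_insert.1 hv with d | d
        · rw [d]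
          exact mem_sdiff.2 ⟨zK, fun e => (mem_insert.1 e).elim wz.symm zU⟩
        · have d' := mem_sdiff.1 d
          exact mem_sdiff.2 ⟨d'.1, fun e => (mem_insert.1 e).elim
            (fun e' => d'.2 (mem_union_right _ (e' ▸ hw))) fun e' => d'.2 (mem_union_left _ e')⟩
      · have c3 : a = m := by
          simp only [mem_insert, mem_singleton] at ha
          tauto
        exact fin z c2 (Or.inr rfl) m hm (c3 ▸ R.refl)
  refine hL z (Kz H M k q z) (fun m hm => Kz_M hm) ?_ ?_ U ?_ i l (by omega) hlk hs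
  · rintro w hw ⟨v, hv, a⟩
    obtain ⟨h1, h2, h3⟩ := mem_WW.1 hw
    exact h3 (Kz_closed hv a.symm (hP.KK_closed (Kz_sub hv) a.symm h1) h2)
  · intro U' hU' i' j' l' a b c s d
    have d1 : Disjoint U' (qs k q) := disjoint_left.2 fun v hv => (mem_WW.1 (hU' hv)).1
    rcases hP.KK_or s.1 d1 with e | e
    · obtain ⟨S, s1, s2, s3, s4⟩ := reach_z hP (z := z) s.1 e
        (fun v hv => (mem_WW.1 (hU' hv)).2)
      have sM : ∀ v ∈ S, v ∉ M := fun v hv f => by
        rcases Kz_M (H := H) (k := k) (q := q) (z := z) f with g | g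
        · exact (s4 v hv).2.2 g
        · exact (s4 v hv).2.1 g
      by_cases zM : z ∈ M
      · refine hX S i' j' l' (fun v hv => (s4 v hv).1) sM a b c (span_mono s s2 s1) z zM s3
          (Kz_exit d fun v hv f => ?_)
        rcases mem_insert.1 f with g | g
        · exact Kz_ne hv g
        · exact (s4 v g).2.2 hv
      · obtain ⟨x, hx, ax⟩ := s3
        obtain ⟨u, hu, au⟩ := za
        have cY : Conn H (insert z U ∪ S) :=
          (hs.1.insert hu au.symm).union_adj s2 (mem_insert_self _ _) hx ax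
        have := hmax (insert z U ∪ S) ⟨union_subset (insert_subset zK hUK)
          (fun v hv => (s4 v hv).1), fun v hv => by
            rcases mem_union.1 hv with g | g
            · rcases mem_insert.1 g with g | g
              · exact g ▸ zM
              · exact hUM v g
            · exact sM v g, i', j', l', a, b, c,
          span_mono s cY (s1.trans subset_union_right), Kz_exit d fun v hv f => by
            rcases mem_union.1 f with g | g
            · rcases mem_insert.1 g with g | g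
              · exact Kz_ne hv g
              · exact hUz v g hv
            · exact (s4 v g).2.2 hv⟩
        have h2 := card_le_card (subset_union_left (s₁ := insert z U) (s₂ := S))
        rw [card_insert_of_notMem zU] at h2
        omega
    · exact hR U' i' j' l' s d1 e a b c (d.mono Kz_sub)
  · intro v hv
    exact mem_WW.2 ⟨hP.KK_off (hUK hv), fun c => zU (c ▸ hv), hUz v hv⟩

end GoodP

theorem good : GoodStmt := fun _ _ _ _ _ _ hP hR hX hL =>
  ⟨GoodP.first hP hR hX hL, GoodP.second hP hR hL⟩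

end Pool.Agent.MP_e6539c_co.C5
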