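import Mathlib.GroupTheory.GroupAction.Ring
import Mathlib.RingTheory.PicardGroup
import Pool.Agent.MP_e6539c_co.C5.Basic

/-! The Euler count for a generating family that covers every edge at most twice. -/

set_option autoImplicit false

namespace Pool.Agent.MP_e6539c_co.C5

open Finset
open Pool.Agent.MP_7be75d_co (R Conn comp)
open Pool.Agent.MP_7be75d_co
open scoped Classical

namespace IneqM

variable {V : Type} [Fintype V]

/-- Merging along all edges of `D`. -/
theorem multi (hM : MergeStmt) {H : SimpleGraph V} {F : Finset (Vec V)} (hF : ∀ f ∈ F, Ev H f)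
    (h2 : ∀ e, cov F e ≤ 2) (D : Finset (Sym2 V)) :
    ∃ F' : Finset (Vec V), (∀ f ∈ F', Ev H f ∧ ∀ e ∈ D, f e = 0) ∧ (∀ e, cov F' e ≤ cov F e) ∧
      ∀ x ∈ Submodule.span (ZMod 2) (F : Set (Vec V)), (∀ e ∈ D, x e = 0) →
        x ∈ Submodule.span (ZMod 2) (F' : Set (Vec V)) := by
  induction D using Finset.induction_on with
  | empty => exact ⟨F, fun f hf => ⟨hF f hf, fun e he => absurd he (notMem_empty e)⟩,
      fun _ => le_rfl, fun x hx _ => hx⟩
  | insert e D _ ih =>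
    obtain ⟨F1, a1, a2, a3⟩ := ih
    obtain ⟨F2, b1, b2, b3⟩ := hM V F1 e ((a2 e).trans (h2 e))
    refine ⟨F2, fun f hf => ?_, fun e' => (b2 e').trans (a2 e'), fun x hx hD =>
      b3 x (a3 x hx fun e' he' => hD e' (mem_insert_of_mem he')) (hD e (mem_insert_self _ _))⟩
    obtain ⟨c1, c2⟩ := b1 f hf
    have : Ev H f ∧ ∀ e ∈ D, f e = 0 := by
      rcases c2 with c2 | ⟨g, hg, h, hh, rfl⟩
      · exact a1 f c2
      · refine ⟨(a1 g hg).1.add (a1 h hh).1, fun e' he' => ?_⟩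
        rw [Pi.add_apply, (a1 g hg).2 e' he', (a1 h hh).2 e' he', add_zero]
    refine ⟨this.1, fun e' he' => ?_⟩
    rcases mem_insert.1 he' with rfl | he'
    · exact c1
    · exact this.2 e' he'

theorem double (F : Finset (Vec V)) (ω : Sym2 V → ℕ) :
    ∑ f ∈ F, ∑ e ∈ univ.filter (fun e => f e ≠ 0), ω e = ∑ e, ω e * cov F e := by
  simp only [sum_filter]
  rw [sum_comm]
  refine sum_congr rfl fun e _ => ?_
  rw [← sum_filter, sum_const, smul_eq_mul, mul_comm]
  rfl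

/-- The graph induced on `S`. -/
def ind (G : SimpleGraph V) (S : Finset V) : SimpleGraph V where
  Adj x y := G.Adj x y ∧ x ∈ S ∧ y ∈ S
  symm := ⟨fun _ _ h => ⟨h.1.symm, h.2.2, h.2.1⟩⟩
  loopless := ⟨fun _ h => h.1.ne rfl⟩

theorem hand (G : SimpleGraph V) (S : Finset V) : ∃ E : Finset (Sym2 V),
    (∀ e ∈ E, ∃ u ∈ S, ∃ v ∈ S, G.Adj u v ∧ e = s(u, v)) ∧ ∑ v ∈ S, dg G S v = 2 * E.card := by
  refine ⟨(ind G S).edgeFinset, fun e he => ?_, ?_⟩
  · induction e using Sym2.ind with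
    | h u v =>
      have : (ind G S).Adj u v := by simpa using he
      exact ⟨u, this.2.1, v, this.2.2, this.1, rfl⟩
  · rw [← SimpleGraph.sum_degrees_eq_twice_card_edges]
    refine sum_subset_zero_on_sdiff (subset_univ S) (fun v hv => ?_) fun v hv => ?_
    · rw [SimpleGraph.degree_eq_zero]
      intro w a
      exact (mem_sdiff.1 hv).2 a.2.1
    · rw [← SimpleGraph.card_neighborFinset_eq_degree]
      unfold dg
      congr 1
      ext w
      simp only [mem_filter, SimpleGraph.mem_neighborFinset]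
      exact ⟨fun h => ⟨h.2, hv, h.1⟩, fun h => ⟨h.2.2, h.1⟩⟩

/-- The weight of an edge. -/
noncomputable def wt (C : Finset V) (w : V → ℕ) : Sym2 V → ℕ :=
  Sym2.lift ⟨fun u v => if u ∈ C then (if v ∈ C then 2 else w u) else (if v ∈ C then w v else 6),
    fun u v => by by_cases a : u ∈ C <;> by_cases b : v ∈ C <;> simp [a, b]⟩

omit [Fintype V] in
theorem wt_mk (C : Finset V) (w : V → ℕ) (u v : V) : wt C w s(u, v) =
    if u ∈ C then (if v ∈ C then 2 else w u) else (if v ∈ C then w v else 6) := rfl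

theorem arith (k : ℕ) : 4 * min 3 (2 * k) + 2 * (k * if k ≤ 1 then 7 else 8) ≤ 22 * k := by
  split_ifs <;> omega

end IneqM

open IneqM

theorem ineq (hM : MergeStmt) (hD : DimStmt) (hW : WeightStmt) : IneqStmt := by
  intro V _ G Γ C c A t h ht F hF S hS
  have ho := h.t_out ht
  have hi := h.t_inj ht
  obtain ⟨E1, e1, n1⟩ := IneqM.hand G S
  let P : Finset (V × Fin 4) := (S ×ˢ univ).filter fun p => ∃ a ∈ A p.2, G.Adj p.1 a
  have hP : ∀ p, p ∈ P ↔ p.1 ∈ S ∧ ∃ a ∈ A p.2, G.Adj p.1 a := fun p => by simp [P]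
  have sP : ∀ g : V → ℕ, ∑ p ∈ P, g p.1 = ∑ v ∈ S, kk G A v * g v := by
    intro g
    rw [sum_filter, sum_product]
    refine sum_congr rfl fun v _ => ?_
    rw [← sum_filter]
    simp only [sum_const, smul_eq_mul]
    rfl
  have iP : Set.InjOn (fun p : V × Fin 4 => s(p.1, t p.2)) P := by
    intro p hp q _ e
    rcases Sym2.eq_iff.1 e with e | e
    · exact Prod.ext e.1 (hi e.2)
    · exact absurd (e.1 ▸ hS ((hP p).1 hp).1) (ho q.2)
  have i3 : Function.Injective fun i : Fin 4 => s(t i, t (i + 1)) := by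
    intro i j e
    rcases Sym2.eq_iff.1 e with e | e
    · exact hi e.1
    · exact (by decide : ∀ i j : Fin 4, i = j + 1 → i + 1 = j → i = j) i j (hi e.1) (hi e.2)
  let E2 := P.image fun p => s(p.1, t p.2)
  let E3 := (univ : Finset (Fin 4)).image fun i => s(t i, t (i + 1))
  have n2 : E2.card = ∑ v ∈ S, kk G A v := by
    rw [card_image_of_injOn iP, card_eq_sum_ones, sP fun _ => 1]
    simp
  have n3 : E3.card = 4 := by
    rw [card_image_of_injective _ i3]
    rfl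
  have d12 : Disjoint E1 E2 := by
    refine disjoint_left.2 fun e a b => ?_
    obtain ⟨u, hu, v, hv, -, rfl⟩ := e1 e a
    obtain ⟨p, -, e⟩ := mem_image.1 b
    rcases Sym2.eq_iff.1 e with e | e
    · exact ho p.2 (e.2 ▸ hS hv)
    · exact ho p.2 (e.2 ▸ hS hu)
  have d3 : Disjoint (E1 ∪ E2) E3 := by
    refine disjoint_left.2 fun e a b => ?_
    obtain ⟨i, -, rfl⟩ := mem_image.1 b
    rcases mem_union.1 a with a | a
    · obtain ⟨u, hu, v, hv, -, e⟩ := e1 _ a
      rcases Sym2.eq_iff.1 e with e | e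
      · exact ho i (e.1 ▸ hS hu)
      · exact ho i (e.1 ▸ hS hv)
    · obtain ⟨p, hp, e⟩ := mem_image.1 a
      rcases Sym2.eq_iff.1 e with e | e
      · exact ho i (e.1 ▸ hS ((hP p).1 hp).1)
      · exact ho (i + 1) (e.1 ▸ hS ((hP p).1 hp).1)
  have hE : ∀ e ∈ E1 ∪ E2 ∪ E3, ∃ u ∈ S ∪ univ.image t, ∃ v ∈ S ∪ univ.image t,
      (HK G C A t).Adj u v ∧ e = s(u, v) := by
    intro e he
    have mt : ∀ i, t i ∈ S ∪ univ.image t := fun i =>
      mem_union_right _ (mem_image_of_mem _ (mem_univ i))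
    rcases mem_union.1 he with he | he
    · rcases mem_union.1 he with he | he
      · obtain ⟨u, hu, v, hv, a, rfl⟩ := e1 e he
        exact ⟨u, mem_union_left _ hu, v, mem_union_left _ hv,
          (hk_adj_CC ho (hS hu) (hS hv)).2 a, rfl⟩
      · obtain ⟨p, hp, rfl⟩ := mem_image.1 he
        rw [hP] at hp
        exact ⟨p.1, mem_union_left _ hp.1, _, mt p.2, (hk_adj_Ct ho hi (hS hp.1) p.2).2 hp.2, rfl⟩
    · obtain ⟨i, -, rfl⟩ := mem_image.1 he
      exact ⟨_, mt i, _, mt (i + 1), (hk_adj_tt ho hi i (i + 1)).2 (Or.inl rfl), rfl⟩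
  have hE' : ∀ u v, s(u, v) ∈ E1 ∪ E2 ∪ E3 →
      (HK G C A t).Adj u v ∧ u ∈ S ∪ univ.image t ∧ v ∈ S ∪ univ.image t := by
    intro u v he
    obtain ⟨a, ha, b, hb, k, e⟩ := hE _ he
    rcases Sym2.eq_iff.1 e with ⟨rfl, rfl⟩ | ⟨rfl, rfl⟩
    · exact ⟨k, ha, hb⟩
    · exact ⟨k.symm, hb, ha⟩
  obtain ⟨F1, a1, a2, a3⟩ := multi hM hF.ev hF.two (univ \ (E1 ∪ E2 ∪ E3))
  have c1 : ∀ e, cov (F1.erase 0) e ≤ cov F e := fun e =>
    (card_le_card (filter_subset_filter _ (erase_subset _ _))).trans (a2 e)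
  have k1 := hD V (E1 ∪ E2 ∪ E3) (S ∪ univ.image t) (F1.erase 0)
    ⟨t 0, mem_union_right _ (mem_image_of_mem _ (mem_univ _))⟩
    (fun u v he => ⟨(hE' u v he).1.ne, (hE' u v he).2⟩) (fun x hx hp => by
      have := a3 x (hF.span x ⟨fun u v c => (hE' u v (hx _ c)).1, hp⟩) fun e he => by
        by_contra c
        exact (mem_sdiff.1 he).2 (hx e c)
      refine Submodule.span_le.2 (fun f hf => ?_) this
      by_cases c : f = 0
      · rw [c]
        exact Submodule.zero_mem _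
      · exact Submodule.subset_span (mem_coe.2 (mem_erase.2 ⟨c, hf⟩)))
  have k2 : (S ∪ univ.image t).card ≤ S.card + 4 :=
    (card_union_le _ _).trans (Nat.add_le_add_left card_image_le _)
  rw [card_union_of_disjoint d3, card_union_of_disjoint d12, n2, n3] at k1
  let w : V → ℕ := fun u => if kk G A u ≤ 1 then 7 else 8
  have k3 : 22 * (F1.erase 0).card ≤ ∑ e, wt C w e * cov (F1.erase 0) e := by
    rw [← double, mul_comm, ← smul_eq_mul]
    refine card_nsmul_le_sum _ _ _ fun f hf => ?_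
    refine hW V G Γ C c A t h ht (wt C w) (fun u hu v hv => ?_) (fun i => ?_) (fun u hu i => ?_) f
      (a1 f (mem_of_mem_erase hf)).1 (ne_of_mem_erase hf)
    · rw [wt_mk, if_pos hu, if_pos hv]
    · rw [wt_mk, if_neg (ho _), if_neg (ho _)]
    · rw [wt_mk, if_pos hu, if_neg (ho _)]
  have k4 : ∑ e, wt C w e * cov (F1.erase 0) e =
      ∑ e ∈ E1 ∪ E2 ∪ E3, wt C w e * cov (F1.erase 0) e := by
    refine (sum_subset (subset_univ _) fun e _ he => ?_).symm
    rw [cov_eq_zero fun f hf => (a1 f (mem_of_mem_erase hf)).2 e (mem_sdiff.2 ⟨mem_univ _, he⟩),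
      mul_zero]
  have k5 : ∑ e ∈ E1, wt C w e * cov (F1.erase 0) e ≤ E1.card * 4 := by
    rw [← smul_eq_mul]
    refine sum_le_card_nsmul _ _ _ fun e he => ?_
    obtain ⟨u, hu, v, hv, -, rfl⟩ := e1 e he
    rw [wt_mk, if_pos (hS hu), if_pos (hS hv)]
    have := (c1 s(u, v)).trans (hF.two _)
    omega
  have k6 : ∑ e ∈ E2, wt C w e * cov (F1.erase 0) e ≤ ∑ v ∈ S, kk G A v * (w v * 2) := by
    rw [sum_image iP, ← sP fun v => w v * 2]
    refine sum_le_sum fun p hp => ?_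
    rw [wt_mk, if_pos (hS ((hP p).1 hp).1), if_neg (ho _)]
    exact Nat.mul_le_mul_left _ ((c1 _).trans (hF.two _))
  have k7 : ∑ e ∈ E3, wt C w e * cov (F1.erase 0) e ≤ E3.card * 6 := by
    rw [← smul_eq_mul]
    refine sum_le_card_nsmul _ _ _ fun e he => ?_
    obtain ⟨i, -, rfl⟩ := mem_image.1 he
    rw [wt_mk, if_neg (ho _), if_neg (ho _)]
    have := (c1 s(t i, t (i + 1))).trans (hF.one _ _ (fr_four' t i))
    omega
  rw [k4, sum_union d3, sum_union d12] at k3
  have k8 : ∑ v ∈ S, (4 * min 3 (2 * kk G A v) + kk G A v * (w v * 2)) ≤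
      ∑ v ∈ S, 22 * kk G A v := by
    refine sum_le_sum fun v _ => ?_
    have := arith (kk G A v)
    rwa [mul_comm 2 (_ * _), mul_assoc] at this
  rw [sum_add_distrib, ← mul_sum, ← mul_sum] at k8
  rw [sum_add_distrib, ← mul_sum, ← mul_sum]
  omega

end Pool.Agent.MP_e6539c_co.C5
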