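import Mathlib.GroupTheory.GroupAction.Ring
import Pool.Agent.MP_e6539c_co.C5.Basic

/-! The state with four corners reduces to the final state. -/

set_option autoImplicit false

namespace Pool.Agent.MP_e6539c_co.C5

open Finset
open Pool.Agent.MP_7be75d_co (R Conn comp)
open Pool.Agent.MP_7be75d_co
open scoped Classical

namespace KsM

variable {V : Type} [Fintype V] {G Γ : SimpleGraph V} {C : Finset V} {a b c d : V}
  {A B D E : List V}

/-- The four-corner state with explicit corners and arcs. -/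
structure K8 (G Γ : SimpleGraph V) (C : Finset V) (a b c d : V) (A B D E : List V) : Prop where
  ctx : Ctx G Γ C
  nd : (a :: (A ++ b :: (B ++ c :: (D ++ d :: E)))).Nodup
  out : ∀ x ∈ a :: (A ++ b :: (B ++ c :: (D ++ d :: E))), x ∉ C
  c0 : (a :: (A ++ [b])).IsChain Γ.Adj
  c1 : (b :: (B ++ [c])).IsChain Γ.Adj
  c2 : (c :: (D ++ [d])).IsChain Γ.Adj
  c3 : (d :: (E ++ [a])).IsChain Γ.Adj
  ac : Γ.Adj a c
  bd : Γ.Adj b d
  cov : Cov G C {x | x ∈ a :: (A ++ b :: (B ++ c :: (D ++ d :: E)))}
  t0 : Cls G C {x | x ∈ a :: (A ++ [b])} ∨ A.length ≤ 1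
  t1 : Cls G C {x | x ∈ b :: (B ++ [c])} ∨ B.length ≤ 1
  t2 : Cls G C {x | x ∈ c :: (D ++ [d])} ∨ D.length ≤ 1
  t3 : Cls G C {x | x ∈ d :: (E ++ [a])} ∨ E.length ≤ 1

omit [Fintype V] in
theorem nd_of_count {l l' : List V} (h : l.Nodup) (hc : ∀ x, l'.count x ≤ l.count x) :
    l'.Nodup := by
  rw [List.nodup_iff_count_le_one] at h ⊢
  exact fun x => (hc x).trans (h x)

omit [Fintype V] in
theorem nd_iff : (a :: (A ++ b :: (B ++ c :: (D ++ d :: E)))).Nodup ↔
    (a ≠ b ∧ a ≠ c ∧ a ≠ d ∧ b ≠ c ∧ b ≠ d ∧ c ≠ d) ∧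
    (A.Nodup ∧ B.Nodup ∧ D.Nodup ∧ E.Nodup) ∧
    (a ∉ A ∧ a ∉ B ∧ a ∉ D ∧ a ∉ E) ∧ (b ∉ A ∧ b ∉ B ∧ b ∉ D ∧ b ∉ E) ∧
    (c ∉ A ∧ c ∉ B ∧ c ∉ D ∧ c ∉ E) ∧ (d ∉ A ∧ d ∉ B ∧ d ∉ D ∧ d ∉ E) ∧
    (∀ x ∈ A, x ∉ B ∧ x ∉ D ∧ x ∉ E) ∧ (∀ x ∈ B, x ∉ D ∧ x ∉ E) ∧ ∀ x ∈ D, x ∉ E := by
  simp only [List.nodup_cons, List.nodup_append, List.mem_append, List.mem_cons]
  grind

theorem of_ks {k : Fin 4 → V} {L : Fin 4 → List V} (h : Ks G Γ C k L) :
    K8 G Γ C (k 0) (k 1) (k 2) (k 3) (L 0) (L 1) (L 2) (L 3) where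
  ctx := h.ctx
  nd := by
    have hi : ∀ i j : Fin 4, i ≠ j → k i ≠ k j := fun i j hij e => hij (h.inj e)
    rw [nd_iff]
    refine ⟨⟨hi _ _ (by decide), hi _ _ (by decide), hi _ _ (by decide), hi _ _ (by decide),
      hi _ _ (by decide), hi _ _ (by decide)⟩, ⟨h.nd _, h.nd _, h.nd _, h.nd _⟩,
      ⟨h.cA _ _, h.cA _ _, h.cA _ _, h.cA _ _⟩, ⟨h.cA _ _, h.cA _ _, h.cA _ _, h.cA _ _⟩,
      ⟨h.cA _ _, h.cA _ _, h.cA _ _, h.cA _ _⟩, ⟨h.cA _ _, h.cA _ _, h.cA _ _, h.cA _ _⟩,
      fun x hx => ⟨h.disj _ _ (by decide) x hx, h.disj _ _ (by decide) x hx,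
        h.disj _ _ (by decide) x hx⟩,
      fun x hx => ⟨h.disj _ _ (by decide) x hx, h.disj _ _ (by decide) x hx⟩,
      fun x hx => h.disj _ _ (by decide) x hx⟩
  out := by
    intro x hx
    simp only [List.mem_append, List.mem_cons] at hx
    rcases hx with rfl | hx | rfl | hx | rfl | hx | rfl | hx
    exacts [h.outc _, h.outA _ _ hx, h.outc _, h.outA _ _ hx, h.outc _, h.outA _ _ hx,
      h.outc _, h.outA _ _ hx]
  c0 := h.ch 0
  c1 := h.ch 1
  c2 := h.ch 2
  c3 := h.ch 3
  ac := h.chord 0
  bd := h.chord 1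
  cov := h.cov.mono (by
    rintro x ⟨i, hi⟩
    simp only [Set.mem_ofPred_eq, List.mem_append, List.mem_cons]
    fin_cases i <;> simp only [Fin.zero_eta, Fin.mk_one, Fin.reduceFinMk] at hi <;> tauto)
  t0 := h.ty 0
  t1 := h.ty 1
  t2 := h.ty 2
  t3 := h.ty 3

theorem to_ks (h : K8 G Γ C a b c d A B D E) : Ks G Γ C ![a, b, c, d] ![A, B, D, E] := by
  have hn := nd_iff.1 h.nd
  have ho := h.out
  simp only [List.mem_append, List.mem_cons] at ho
  refine ⟨h.ctx, ?_, ?_, ?_, ?_, ?_, ?_, ?_, ?_, ?_, ?_⟩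
  · intro i j hij
    fin_cases i <;> fin_cases j <;> simp at hij ⊢ <;> grind
  · intro i
    fin_cases i <;> simp <;> grind
  · intro i j hij x
    fin_cases i <;> fin_cases j <;> simp at hij ⊢ <;> grind
  · intro i j
    fin_cases i <;> fin_cases j <;> simp <;> grind
  · intro i
    fin_cases i <;> simp <;> grind
  · intro i x
    fin_cases i <;> simp <;> grind
  · intro i
    fin_cases i
    exacts [h.c0, h.c1, h.c2, h.c3]
  · intro i
    fin_cases i
    exacts [h.ac, h.bd, h.ac.symm, h.bd.symm]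
  · refine h.cov.mono ?_
    intro x hx
    simp only [Set.mem_ofPred_eq, List.mem_append, List.mem_cons] at hx
    rcases hx with hx | hx | hx | hx | hx | hx | hx | hx
    exacts [⟨0, Or.inl hx⟩, ⟨0, Or.inr hx⟩, ⟨1, Or.inl hx⟩, ⟨1, Or.inr hx⟩, ⟨2, Or.inl hx⟩,
      ⟨2, Or.inr hx⟩, ⟨3, Or.inl hx⟩, ⟨3, Or.inr hx⟩]
  · intro i
    fin_cases i
    exacts [h.t0, h.t1, h.t2, h.t3]

theorem K8.rot (h : K8 G Γ C a b c d A B D E) : K8 G Γ C b c d a B D E A where
  ctx := h.ctx
  nd := nd_of_count h.nd (by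
    intro x
    simp only [List.count_cons, List.count_append]
    omega)
  out := fun x hx => h.out x (by
    simp only [List.mem_append, List.mem_cons] at hx ⊢
    tauto)
  c0 := h.c1
  c1 := h.c2
  c2 := h.c3
  c3 := h.c0
  ac := h.bd
  bd := h.ac.symm
  cov := h.cov.mono (by
    intro x hx
    simp only [Set.mem_ofPred_eq, List.mem_append, List.mem_cons] at hx ⊢
    tauto)
  t0 := h.t1
  t1 := h.t2
  t2 := h.t3
  t3 := h.t0

omit [Fintype V] in
theorem arc_rev {p q : V} {L : List V} (h : (p :: (L ++ [q])).IsChain Γ.Adj) :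
    (q :: (L.reverse ++ [p])).IsChain Γ.Adj := by
  simpa using chain_rev h

omit [Fintype V] in
theorem ty_rev {p q : V} {L : List V} (h : Cls G C {x | x ∈ p :: (L ++ [q])} ∨ L.length ≤ 1) :
    Cls G C {x | x ∈ q :: (L.reverse ++ [p])} ∨ L.reverse.length ≤ 1 := by
  refine h.imp (fun h => h.mono Subset.rfl ?_) (by simp)
  intro x hx
  simp only [Set.mem_ofPred_eq, List.mem_append, List.mem_cons, List.mem_reverse] at hx ⊢
  tauto

theorem K8.mirror (h : K8 G Γ C a b c d A B D E) :
    K8 G Γ C b a d c A.reverse E.reverse D.reverse B.reverse where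
  ctx := h.ctx
  nd := nd_of_count h.nd (by
    intro x
    simp only [List.count_cons, List.count_append, List.count_reverse]
    omega)
  out := fun x hx => h.out x (by
    simp only [List.mem_append, List.mem_cons, List.mem_reverse] at hx ⊢
    tauto)
  c0 := arc_rev h.c0
  c1 := arc_rev h.c3
  c2 := arc_rev h.c2
  c3 := arc_rev h.c1
  ac := h.bd
  bd := h.ac
  cov := h.cov.mono (by
    intro x hx
    simp only [Set.mem_ofPred_eq, List.mem_append, List.mem_cons, List.mem_reverse] at hx ⊢
    tauto)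
  t0 := ty_rev h.t0
  t1 := ty_rev h.t3
  t2 := ty_rev h.t2
  t3 := ty_rev h.t1

/-- An inactive vertex of the first arc is contracted into its predecessor. -/
theorem K8.drop {A₁ A₂ : List V} {u : V} (h : K8 G Γ C a b c d (A₁ ++ u :: A₂) B D E)
    (hu : ¬ Act G C u) : ∃ Γ', K8 G Γ' C a b c d (A₁ ++ A₂) B D E := by
  obtain ⟨l, y, hl⟩ : ∃ l y, a :: A₁ = l ++ [y] :=
    ⟨_, _, (List.dropLast_append_getLast (List.cons_ne_nil a A₁)).symm⟩
  have hn := nd_iff.1 h.nd
  have huA : u ∈ A₁ ++ u :: A₂ := by simp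
  have e1 : a :: ((A₁ ++ u :: A₂) ++ [b]) = l ++ y :: u :: (A₂ ++ [b]) := by
    have : a :: ((A₁ ++ u :: A₂) ++ [b]) = (a :: A₁) ++ u :: (A₂ ++ [b]) := by simp
    rw [this, hl]; simp
  have e2 : a :: ((A₁ ++ A₂) ++ [b]) = l ++ y :: (A₂ ++ [b]) := by
    have : a :: ((A₁ ++ A₂) ++ [b]) = (a :: A₁) ++ (A₂ ++ [b]) := by simp
    rw [this, hl]; simp
  have hc := h.c0
  have hnd : (a :: ((A₁ ++ u :: A₂) ++ [b])).Nodup := nd_of_count h.nd (by
    intro x
    simp only [List.count_cons, List.count_append, List.count_nil]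
    omega)
  rw [e1] at hc hnd
  have hyu : Γ.Adj y u := by
    have := (List.isChain_append.1 hc).2.1
    exact (List.isChain_cons_cons.1 this).1
  have hy : y ∈ a :: A₁ := by rw [hl]; simp
  have hyC : y ∉ C := h.out y (by
    simp only [List.mem_append, List.mem_cons] at hy ⊢
    tauto)
  have huC : u ∉ C := h.out u (by simp)
  have hua : a ≠ u := fun e => hn.2.2.1.1 (e ▸ huA)
  have hub : b ≠ u := fun e => hn.2.2.2.1.1 (e ▸ huA)
  have huc : c ≠ u := fun e => hn.2.2.2.2.1.1 (e ▸ huA)
  have hud : d ≠ u := fun e => hn.2.2.2.2.2.1.1 (e ▸ huA)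
  have hu3 := hn.2.2.2.2.2.2.1 u huA
  refine ⟨con Γ u y, h.ctx.con hyu.symm huC hyC hu, ?_, ?_, ?_, ?_, ?_, ?_,
    con_adj h.ac hua huc, con_adj h.bd hub hud, ?_, ?_, h.t1, h.t2, h.t3⟩
  · refine nd_of_count h.nd ?_
    intro x
    simp only [List.count_cons, List.count_append]
    omega
  · intro x hx
    refine h.out x ?_
    simp only [List.mem_append, List.mem_cons] at hx ⊢
    tauto
  · rw [e2]
    exact con_chain_pred hc hnd
  · refine con_chain h.c1 ?_
    simp only [List.mem_append, List.mem_cons, List.not_mem_nil]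
    grind
  · refine con_chain h.c2 ?_
    simp only [List.mem_append, List.mem_cons, List.not_mem_nil]
    grind
  · refine con_chain h.c3 ?_
    simp only [List.mem_append, List.mem_cons, List.not_mem_nil]
    grind
  · refine h.cov.of_act ?_
    intro x hx _ hA
    simp only [Set.mem_ofPred_eq, List.mem_append, List.mem_cons] at hx ⊢
    grind
  · rcases h.t0 with t | t
    · refine Or.inl (t.mono Subset.rfl ?_)
      intro x hx
      simp only [Set.mem_ofPred_eq, List.mem_append, List.mem_cons] at hx ⊢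
      tauto
    · refine Or.inr ?_
      simp only [List.length_append, List.length_cons] at t ⊢
      omega

/-- The system of classes for a move across an empty first arc. -/
theorem K8.sys (hq : QuadStmt) (h : K8 G Γ C a b c d [] B D E) :
    Sys G C {a, b} ∨ Tiny G C a b := by
  by_cases hall : Cls G C {x | x ∈ b :: (B ++ [c])} ∧ Cls G C {x | x ∈ c :: (D ++ [d])} ∧
      Cls G C {x | x ∈ d :: (E ++ [a])}
  · refine Or.inr (hq V G Γ C _ _ (to_ks h) rfl fun i hi => ?_)
    fin_cases i
    exacts [absurd rfl hi, hall.1, hall.2.1, hall.2.2]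
  left
  rcases h.t2 with t2 | t2
  · rcases h.t1 with t1 | t1 <;> rcases h.t3 with t3 | t3
    · exact absurd ⟨t1, t2, t3⟩ hall
    · refine Or.inl ⟨_, _, E.toFinset, t1, t2, (List.toFinset_card_le _).trans t3, h.cov.mono ?_⟩
      intro x hx
      simp only [Set.mem_ofPred_eq, List.mem_append, List.mem_cons, Set.mem_union,
        Set.mem_insert_iff, Set.mem_singleton_iff, List.not_mem_nil, mem_coe,
        List.mem_toFinset] at hx ⊢
      grind
    · refine Or.inl ⟨_, _, B.toFinset, t2, t3, (List.toFinset_card_le _).trans t1, h.cov.mono ?_⟩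
      intro x hx
      simp only [Set.mem_ofPred_eq, List.mem_append, List.mem_cons, Set.mem_union,
        Set.mem_insert_iff, Set.mem_singleton_iff, List.not_mem_nil, mem_coe,
        List.mem_toFinset] at hx ⊢
      grind
    · refine Or.inr (Or.inl ⟨_, (B ++ E).toFinset, t2, ?_, h.cov.mono ?_⟩)
      · refine (List.toFinset_card_le _).trans ?_
        simp only [List.length_append]
        omega
      · intro x hx
        simp only [Set.mem_ofPred_eq, List.mem_append, List.mem_cons, Set.mem_union,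
          Set.mem_insert_iff, Set.mem_singleton_iff, List.not_mem_nil, mem_coe,
          List.mem_toFinset] at hx ⊢
        grind
  · rcases h.t1 with t1 | t1 <;> rcases h.t3 with t3 | t3
    · refine Or.inl ⟨_, _, D.toFinset, t1, t3, (List.toFinset_card_le _).trans t2, h.cov.mono ?_⟩
      intro x hx
      simp only [Set.mem_ofPred_eq, List.mem_append, List.mem_cons, Set.mem_union,
        Set.mem_insert_iff, Set.mem_singleton_iff, List.not_mem_nil, mem_coe,
        List.mem_toFinset] at hx ⊢
      grind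
    · refine Or.inr (Or.inl ⟨_, (D ++ d :: E).toFinset, t1, ?_, h.cov.mono ?_⟩)
      · refine (List.toFinset_card_le _).trans ?_
        simp only [List.length_append, List.length_cons]
        omega
      · intro x hx
        simp only [Set.mem_ofPred_eq, List.mem_append, List.mem_cons, Set.mem_union,
          Set.mem_insert_iff, Set.mem_singleton_iff, List.not_mem_nil, mem_coe,
          List.mem_toFinset] at hx ⊢
        grind
    · refine Or.inr (Or.inl ⟨_, (B ++ c :: D).toFinset, t3, ?_, h.cov.mono ?_⟩)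
      · refine (List.toFinset_card_le _).trans ?_
        simp only [List.length_append, List.length_cons]
        omega
      · intro x hx
        simp only [Set.mem_ofPred_eq, List.mem_append, List.mem_cons, Set.mem_union,
          Set.mem_insert_iff, Set.mem_singleton_iff, List.not_mem_nil, mem_coe,
          List.mem_toFinset] at hx ⊢
        grind
    · refine Or.inr (Or.inr ⟨(B ++ c :: (D ++ d :: E)).toFinset, ?_, h.cov.mono ?_⟩)
      · refine (List.toFinset_card_le _).trans ?_
        simp only [List.length_append, List.length_cons]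
        omega
      · intro x hx
        simp only [Set.mem_ofPred_eq, List.mem_append, List.mem_cons, Set.mem_union,
          Set.mem_insert_iff, Set.mem_singleton_iff, List.not_mem_nil, mem_coe,
          List.mem_toFinset] at hx ⊢
        grind

/-- A move across the empty first arc. -/
theorem K8.move (hm : MoveStmt) (hq : QuadStmt) (hN : NoSt G C.card) (h : K8 G Γ C a b c d [] B D E)
    (ha : Act G C a) (hb : Act G C b) : False := by
  have hn := nd_iff.1 h.nd
  obtain ⟨P, C', -, hP, hPC, hch, hsub, hlt, hctx, hcls, hcov⟩ :=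
    hm V G Γ C a b h.ctx hn.1.1 (h.out a (by simp)) (h.out b (by simp)) ha hb (h.sys hq)
  have ho := h.out
  have key : K8 G Γ C' a b c d P B D E := by
    refine ⟨hctx, ?_, ?_, hch, h.c1, h.c2, h.c3, h.ac, h.bd, (hcov _ h.cov).mono ?_,
      Or.inl hcls, h.t1.imp (fun t => t.mono hsub Set.Subset.rfl) id,
      h.t2.imp (fun t => t.mono hsub Set.Subset.rfl) id,
      h.t3.imp (fun t => t.mono hsub Set.Subset.rfl) id⟩
    · rw [nd_iff]
      simp only [List.mem_append, List.mem_cons, List.not_mem_nil] at ho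
      grind
    · intro x hx hx'
      have hxC := hsub hx'
      simp only [List.mem_append, List.mem_cons, List.not_mem_nil] at ho hx
      grind
    · intro x hx
      simp only [Set.mem_ofPred_eq, List.mem_append, List.mem_cons, Set.mem_union,
        List.not_mem_nil] at hx ⊢
      tauto
  exact (hN Γ C' hlt).2.2 _ _ (to_ks key)

/-- An inactive corner is contracted into the last vertex of the fourth arc. -/
theorem K8.corner {E' : List V} {α : V} (h : K8 G Γ C a b c d [] B D (E' ++ [α]))
    (ha : ¬ Act G C a) : K8 G (con Γ a α) C α b c d [] B D E' := by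
  have hn := nd_iff.1 h.nd
  simp only [List.mem_append, List.mem_cons, List.not_mem_nil] at hn
  have h3 : ((d :: E') ++ α :: [a]).IsChain Γ.Adj := by simpa using h.c3
  have hαa : Γ.Adj α a := (List.isChain_cons_cons.1 (List.isChain_append.1 h3).2.1).1
  have h3' : (d :: (E' ++ [α])).IsChain Γ.Adj := by
    have : ((d :: (E' ++ [α])) ++ [a]).IsChain Γ.Adj := h.c3
    exact (List.isChain_append.1 this).1
  have hab : Γ.Adj a b := (List.isChain_cons_cons.1 h.c0).1
  refine ⟨h.ctx.con hαa.symm (h.out a (by simp)) (h.out α (by simp)) ha, ?_, ?_, ?_, ?_, ?_, ?_,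
    con_new h.ac (by grind), con_adj h.bd (by grind) (by grind), ?_, Or.inr (by simp), h.t1,
    h.t2, ?_⟩
  · refine nd_of_count h.nd ?_
    intro x
    simp only [List.count_cons, List.count_append, List.count_nil]
    omega
  · intro x hx
    refine h.out x ?_
    simp only [List.mem_append, List.mem_cons] at hx ⊢
    tauto
  · exact List.isChain_cons_cons.2 ⟨con_new hab (by grind), by simp⟩
  · refine con_chain h.c1 ?_
    simp only [List.mem_append, List.mem_cons, List.not_mem_nil]
    grind
  · refine con_chain h.c2 ?_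
    simp only [List.mem_append, List.mem_cons, List.not_mem_nil]
    grind
  · refine con_chain h3' ?_
    simp only [List.mem_append, List.mem_cons, List.not_mem_nil]
    grind
  · refine h.cov.of_act ?_
    intro x hx _ hA
    simp only [Set.mem_ofPred_eq, List.mem_append, List.mem_cons, List.not_mem_nil] at hx ⊢
    grind
  · rcases h.t3 with t | t
    · refine Or.inl (t.mono Subset.rfl ?_)
      intro x hx
      simp only [Set.mem_ofPred_eq, List.mem_append, List.mem_cons] at hx ⊢
      tauto
    · refine Or.inr ?_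
      simp only [List.length_append, List.length_cons] at t ⊢
      omega

theorem K8.ps1 (h : K8 G Γ C a b c d [] B D []) (ha : ¬ Act G C a) (hB : ∃ x ∈ B, Act G C x) :
    Ps G (con Γ a b) C b B c D d := by
  have hn := nd_iff.1 h.nd
  have hab : Γ.Adj a b := (List.isChain_cons_cons.1 h.c0).1
  refine ⟨h.ctx.con hab (h.out a (by simp)) (h.out b (by simp)) ha, ?_, ?_, ?_, ?_,
    con_new h.ac (by grind), con_adj h.bd (by grind) (by grind), ?_, h.t1, h.t2, hB⟩
  · refine nd_of_count h.nd ?_
    intro x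
    simp only [List.count_cons, List.count_append, List.count_nil]
    omega
  · intro x hx
    refine h.out x ?_
    simp only [List.mem_append, List.mem_cons] at hx ⊢
    tauto
  · refine con_chain h.c1 ?_
    simp only [List.mem_append, List.mem_cons, List.not_mem_nil]
    grind
  · refine con_chain h.c2 ?_
    simp only [List.mem_append, List.mem_cons, List.not_mem_nil]
    grind
  · refine h.cov.of_act ?_
    intro x hx _ hA
    simp only [Set.mem_ofPred_eq, List.mem_append, List.mem_cons, List.not_mem_nil] at hx ⊢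
    grind

theorem K8.ps2 (h : K8 G Γ C a b c d [] [] D []) (ha : ¬ Act G C a) (hD : ∃ x ∈ D, Act G C x) :
    Ps G (con Γ a d) C d D.reverse c [] b := by
  have hn := nd_iff.1 h.nd
  have hda : Γ.Adj d a := (List.isChain_cons_cons.1 h.c3).1
  have hbc : Γ.Adj b c := (List.isChain_cons_cons.1 h.c1).1
  refine ⟨h.ctx.con hda.symm (h.out a (by simp)) (h.out d (by simp)) ha, ?_, ?_, ?_, ?_,
    con_new h.ac (by grind), con_adj h.bd.symm (by grind) (by grind), ?_, ty_rev h.t2,
    Or.inr (by simp), by simpa using hD⟩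
  · refine nd_of_count h.nd ?_
    intro x
    simp only [List.count_cons, List.count_append, List.count_nil, List.count_reverse]
    omega
  · intro x hx
    refine h.out x ?_
    simp only [List.mem_append, List.mem_cons, List.mem_reverse] at hx ⊢
    tauto
  · refine con_chain (arc_rev h.c2) ?_
    simp only [List.mem_append, List.mem_cons, List.not_mem_nil, List.mem_reverse]
    grind
  · exact List.isChain_cons_cons.2 ⟨con_adj hbc.symm (by grind) (by grind), by simp⟩
  · refine h.cov.of_act ?_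
    intro x hx _ hA
    simp only [Set.mem_ofPred_eq, List.mem_append, List.mem_cons, List.not_mem_nil,
      List.mem_reverse] at hx ⊢
    grind

theorem K8.cy (h : K8 G Γ C a b c d [] [] [] []) (ha : ¬ Act G C a) : CYs G Γ C [b, c, d] := by
  have hn := nd_iff.1 h.nd
  have hbc : Γ.Adj b c := (List.isChain_cons_cons.1 h.c1).1
  have hcd : Γ.Adj c d := (List.isChain_cons_cons.1 h.c2).1
  refine ⟨h.ctx, ?_, ?_, ?_, ?_, ?_, Or.inr (by simp)⟩
  · refine nd_of_count h.nd ?_
    intro x
    simp only [List.count_cons, List.count_append, List.count_nil]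
    omega
  · intro x hx
    refine h.out x ?_
    simp only [List.mem_append, List.mem_cons] at hx ⊢
    tauto
  · simp [hbc, hcd]
  · intro x M y e _
    have e1 : b = x := (List.cons.inj e).1
    have e2 : [c] ++ [d] = M ++ [y] := (List.cons.inj e).2
    have e3 : [d] = [y] := (List.append_inj' e2 rfl).2
    have e4 : d = y := (List.cons.inj e3).1
    rw [← e1, ← e4]
    exact h.bd.symm
  · refine h.cov.of_act ?_
    intro x hx _ hA
    simp only [Set.mem_ofPred_eq, List.mem_append, List.mem_cons, List.not_mem_nil] at hx ⊢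
    grind

/-- No state on `C` has fewer than `n` arc vertices. -/
def Small (G : SimpleGraph V) (C : Finset V) (n : ℕ) : Prop :=
  ∀ (Γ : SimpleGraph V) (a b c d : V) (A B D E : List V),
    A.length + B.length + D.length + E.length < n → ¬ K8 G Γ C a b c d A B D E

theorem K8.all_act (h : K8 G Γ C a b c d A B D E) {n : ℕ} (hs : Small G C n)
    (hn : A.length + B.length + D.length + E.length ≤ n) : ∀ x ∈ A, Act G C x := by
  intro u hu
  by_contra hi
  obtain ⟨A₁, A₂, rfl⟩ := List.append_of_mem hu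
  obtain ⟨Γ', h'⟩ := h.drop hi
  refine hs Γ' _ _ _ _ _ _ _ _ ?_ h'
  simp only [List.length_append, List.length_cons] at hn ⊢
  omega

theorem K8.inact (hcy : ∀ Γ L, ¬ CYs G Γ C L) (hps : ∀ Γ p A q B s, ¬ Ps G Γ C p A q B s)
    (h : K8 G Γ C a b c d [] B D E) {n : ℕ} (hs : Small G C n)
    (hn : B.length + D.length + E.length ≤ n) (ha : ¬ Act G C a) : False := by
  have hB := h.rot.all_act hs (by simp only [List.length_nil]; omega)
  have hD := h.rot.rot.all_act hs (by simp only [List.length_nil]; omega)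
  rcases List.eq_nil_or_concat E with rfl | ⟨E', α, rfl⟩
  · cases B with
    | cons x B => exact hps _ _ _ _ _ _ (h.ps1 ha ⟨x, by simp, hB x (by simp)⟩)
    | nil =>
      cases D with
      | cons x D => exact hps _ _ _ _ _ _ (h.ps2 ha ⟨x, by simp, hD x (by simp)⟩)
      | nil => exact hcy _ _ (h.cy ha)
  · rw [List.concat_eq_append] at h hn
    refine hs _ _ _ _ _ _ _ _ _ ?_ (h.corner ha)
    simp only [List.length_append, List.length_cons, List.length_nil] at hn ⊢
    omega

theorem K8.empty (hm : MoveStmt) (hq : QuadStmt) (hN : NoSt G C.card)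
    (hcy : ∀ Γ L, ¬ CYs G Γ C L)
    (hps : ∀ Γ p A q B s, ¬ Ps G Γ C p A q B s)
    (h : K8 G Γ C a b c d [] B D E) {n : ℕ} (hs : Small G C n)
    (hn : B.length + D.length + E.length ≤ n) : False := by
  by_cases ha : Act G C a
  · by_cases hb : Act G C b
    · exact h.move hm hq hN ha hb
    · refine K8.inact hcy hps h.mirror hs ?_ hb
      simp only [List.length_reverse]
      omega
  · exact h.inact hcy hps hs hn ha

theorem small (hm : MoveStmt) (hf : KfinStmt) (hq : QuadStmt) (hN : NoSt G C.card)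
    (hcy : ∀ Γ L, ¬ CYs G Γ C L)
    (hps : ∀ Γ p A q B s, ¬ Ps G Γ C p A q B s) (n : ℕ) : Small G C n := by
  induction n with
  | zero => intro _ _ _ _ _ _ _ _ _ hn; omega
  | succ n ih =>
    intro Γ a b c d A B D E hn h
    by_cases hA : A = []
    · subst hA
      exact h.empty hm hq hN hcy hps ih (by simp only [List.length_nil] at hn; omega)
    by_cases hB : B = []
    · subst hB
      exact h.rot.empty hm hq hN hcy hps ih (by simp only [List.length_nil] at hn; omega)
    by_cases hD : D = []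
    · subst hD
      exact h.rot.rot.empty hm hq hN hcy hps ih (by simp only [List.length_nil] at hn; omega)
    by_cases hE : E = []
    · subst hE
      exact h.rot.rot.rot.empty hm hq hN hcy hps ih (by simp only [List.length_nil] at hn; omega)
    obtain ⟨x₀, h₀⟩ := List.exists_mem_of_ne_nil A hA
    obtain ⟨x₁, h₁⟩ := List.exists_mem_of_ne_nil B hB
    obtain ⟨x₂, h₂⟩ := List.exists_mem_of_ne_nil D hD
    obtain ⟨x₃, h₃⟩ := List.exists_mem_of_ne_nil E hE
    refine hf V G Γ C _ _ hN (to_ks h) ?_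
    intro i
    fin_cases i
    exacts [⟨x₀, h₀, h.all_act ih (by omega) _ h₀⟩, ⟨x₁, h₁, h.rot.all_act ih (by omega) _ h₁⟩,
      ⟨x₂, h₂, h.rot.rot.all_act ih (by omega) _ h₂⟩,
      ⟨x₃, h₃, h.rot.rot.rot.all_act ih (by omega) _ h₃⟩]

end KsM

theorem ks (h : MoveStmt) (hf : KfinStmt) (hq : QuadStmt) : KsStmt := by
  intro V _ G C hN hcy hps Γ c A hk
  exact KsM.small h hf hq hN hcy hps _ Γ _ _ _ _ _ _ _ _ (Nat.lt_succ_self _) (KsM.of_ks hk)

end Pool.Agent.MP_e6539c_co.C5
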