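import Mathlib.GroupTheory.GroupAction.Ring
import Pool.Agent.MP_e6539c_co.C5.Basic

/-! The lens lemma of the two paths theorem. -/

set_option autoImplicit false

namespace Pool.Agent.MP_e6539c_co.C5

open Finset
open Pool.Agent.MP_7be75d_co (R Conn comp)
open Pool.Agent.MP_7be75d_co
open scoped Classical

namespace Lens

variable {V : Type} [Fintype V] {H : SimpleGraph V} {M : List V} {k : ℕ} {q : ℕ → V}

theorem mem_WW {z w : V} {K' : Finset V} :
    w ∈ WW k q z K' ↔ w ∉ qs k q ∧ w ≠ z ∧ w ∉ K' := by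
  simp [WW]

omit [Fintype V] in
theorem ed_supp {a b u v : V} (h : ed a b s(u, v) ≠ 0) : (u = a ∧ v = b) ∨ (u = b ∧ v = a) := by
  unfold ed at h
  by_cases e : s(u, v) = s(a, b)
  · simpa using e
  · simp [e] at h

omit [Fintype V] in
theorem four_ne {x₁ x₂ x₃ x₄ : Vec V} {e : Sym2 V} (h : (x₁ + x₂ + x₃ + x₄) e ≠ 0) :
    x₁ e ≠ 0 ∨ x₂ e ≠ 0 ∨ x₃ e ≠ 0 ∨ x₄ e ≠ 0 := by
  by_contra hc
  push Not at hc
  apply h
  simp [hc.1, hc.2.1, hc.2.2.1, hc.2.2.2]

/-- A set joining two far path vertices gives a nonzero even edge set. -/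
theorem even_vec (h : PQ H M k q) {U Z : Finset V} {i l : ℕ} (hil : i + 2 ≤ l) (hl : l ≤ k)
    (hs : Span H q U i l) (hU : ∀ u ∈ U, u ∉ qs k q) (hZ : U ⊆ Z)
    (hq : ∀ t, i ≤ t → t < l → q t ∈ Z ∨ q (t + 1) ∈ Z) :
    ∃ x, Ev H x ∧ (∀ u v, x s(u, v) ≠ 0 → u ∈ Z ∨ v ∈ Z) ∧ x ≠ 0 := by
  obtain ⟨c, ⟨u, hu, a⟩, u', hu', a'⟩ := hs
  obtain ⟨y, y1, y2⟩ := vec_of_R (c.2 u hu u' hu')
  have off : ∀ w ∈ U, ∀ t ≤ k, q t ≠ w := fun w hw t ht e => hU w hw (mem_qs.2 ⟨t, ht, e⟩)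
  refine ⟨ed (q i) u + y + ed u' (q l) + pv q i l, ⟨fun v w c => ?_, fun v => ?_⟩,
    fun v w c => ?_, fun e => ?_⟩
  · rcases four_ne c with c | c | c | c
    · rcases ed_supp c with ⟨rfl, rfl⟩ | ⟨rfl, rfl⟩
      exacts [a, a.symm]
    · exact (y1 v w c).1
    · rcases ed_supp c with ⟨rfl, rfl⟩ | ⟨rfl, rfl⟩
      exacts [a'.symm, a']
    · obtain ⟨t, t1, t2, e⟩ := pv_supp c
      have b := h.adj t (by omega)
      rcases Sym2.eq_iff.1 e with ⟨rfl, rfl⟩ | ⟨rfl, rfl⟩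
      exacts [b, b.symm]
  · rw [par_add, par_add, par_add, par_ed a.ne, y2, par_ed a'.ne',
      par_pv (by omega) fun t _ t2 => (h.adj t (by omega)).ne]
    generalize (if v = q i then (1 : ZMod 2) else 0) = s₁
    generalize (if v = u then (1 : ZMod 2) else 0) = s₂
    generalize (if v = u' then (1 : ZMod 2) else 0) = s₃
    generalize (if v = q l then (1 : ZMod 2) else 0) = s₄
    revert s₁ s₂ s₃ s₄
    decide
  · rcases four_ne c with c | c | c | c
    · rcases ed_supp c with ⟨rfl, rfl⟩ | ⟨rfl, rfl⟩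
      exacts [Or.inr (hZ hu), Or.inl (hZ hu)]
    · exact Or.inl (hZ (y1 v w c).2.1)
    · rcases ed_supp c with ⟨rfl, rfl⟩ | ⟨rfl, rfl⟩
      exacts [Or.inl (hZ hu'), Or.inr (hZ hu')]
    · obtain ⟨t, t1, t2, e⟩ := pv_supp c
      have b := hq t t1 t2
      rcases Sym2.eq_iff.1 e with ⟨rfl, rfl⟩ | ⟨rfl, rfl⟩
      exacts [b, b.symm]
  · have e1 : ed (q i) u s(q i, q (i + 1)) = 0 := by
      by_contra c
      rcases ed_supp c with ⟨-, d⟩ | ⟨d, -⟩
      exacts [off u hu _ (by omega) d, off u hu _ (by omega) d]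
    have e2 : y s(q i, q (i + 1)) = 0 := by
      by_contra c
      exact off _ (y1 _ _ c).2.1 i (by omega) rfl
    have e3 : ed u' (q l) s(q i, q (i + 1)) = 0 := by
      by_contra c
      rcases ed_supp c with ⟨d, -⟩ | ⟨-, d⟩
      exacts [off u' hu' _ (by omega) d, off u' hu' _ (by omega) d]
    have e4 : pv q i l s(q i, q (i + 1)) = 1 :=
      pv_edge le_rfl (by omega) fun a _ a2 b _ b2 e => h.inj a (by omega) b (by omega) e
    have := congrFun e s(q i, q (i + 1))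
    simp only [Pi.add_apply, e1, e2, e3, e4, Pi.zero_apply] at this
    exact absurd this (by decide)

end Lens

open Lens in
theorem lens : LensStmt := by
  intro V _ H M k q h hF hN z K' hM hW hS U hU i l hil hl hs
  set W := WW k q z K' with hWd
  let J : ℕ → Prop := fun j => j = 0 ∨ j = k ∨ Act H K' (q j)
  obtain ⟨i0, ⟨a1, a2⟩, a3⟩ := exists_max_of (p := fun j => J j ∧ j ≤ i) id i (fun _ h => h.2)
    ⟨0, Or.inl rfl, Nat.zero_le _⟩
  obtain ⟨l0, ⟨b1, b2, b4⟩, b3⟩ := exists_min_of (p := fun j => J j ∧ l ≤ j ∧ j ≤ k) id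
    ⟨k, Or.inr (Or.inl rfl), hl, le_rfl⟩
  have gap : ∀ j, i0 < j → j < l0 → ¬ Act H K' (q j) := by
    intro j j1 j2 c
    have hJ : J j := Or.inr (Or.inr c)
    by_cases e1 : j ≤ i
    · exact absurd (a3 j ⟨hJ, e1⟩) (by simpa using j1)
    by_cases e2 : l ≤ j
    · exact absurd (b3 j ⟨hJ, e2, by omega⟩) (by simpa using j2)
    exact hS U hU i j l (by omega) (by omega) hl hs c
  let P : V → Prop := fun w => ∃ s ∈ W, (s ∈ U ∨ ∃ j, i0 < j ∧ j < l0 ∧ H.Adj (q j) s) ∧ R H W s w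
  let Z : Finset V := (Ioo i0 l0).image q ∪ W.filter P
  have zq : ∀ j, i0 < j → j < l0 → q j ∈ Z := fun j j1 j2 =>
    mem_union_left _ (mem_image_of_mem q (mem_Ioo.2 ⟨j1, j2⟩))
  have zw : ∀ w ∈ W, P w → w ∈ Z := fun w hw p => mem_union_right _ (mem_filter.2 ⟨hw, p⟩)
  have zc : ∀ v ∈ Z, (∃ j, i0 < j ∧ j < l0 ∧ v = q j) ∨ (v ∈ W ∧ P v) := by
    intro v hv
    rcases mem_union.1 hv with hv | hv
    · obtain ⟨j, hj, rfl⟩ := mem_image.1 hv
      exact Or.inl ⟨j, (mem_Ioo.1 hj).1, (mem_Ioo.1 hj).2, rfl⟩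
    · exact Or.inr (mem_filter.1 hv)
  have mid : ∀ p, i0 ≤ p → p ≤ l0 → q p ∈ Z ∨ q p = q i0 ∨ q p = q l0 ∨ q p = z := by
    intro p p1 p2
    rcases p1.eq_or_lt with rfl | p1
    · exact Or.inr (Or.inl rfl)
    rcases p2.eq_or_lt with rfl | p2
    · exact Or.inr (Or.inr (Or.inl rfl))
    exact Or.inl (zq p p1 p2)
  obtain ⟨x, x1, x2, x3⟩ := even_vec h (Z := Z) hil hl hs (fun u hu => (mem_WW.1 (hU hu)).1)
    (fun u hu => zw u (hU hu) ⟨u, hU hu, Or.inl hu, R.refl⟩) (fun t t1 t2 => by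
      by_cases e : i0 < t
      · exact Or.inl (zq t e (by omega))
      · exact Or.inr (zq _ (by omega) (by omega)))
  refine x3 (hF Z (q i0) (q l0) z (fun v hv c => ?_) (fun v hv w a => ?_) x x1 x2)
  · simp only [List.mem_cons, List.mem_append, List.not_mem_nil, or_false] at c
    rcases zc v hv with ⟨j, j1, j2, rfl⟩ | ⟨hw, -⟩
    · rcases c with c | c | c
      · have := h.inj j (by omega) k le_rfl c
        omega
      · exact h.off j (by omega) c
      · have := h.inj j (by omega) 0 (by omega) c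
        omega
    · obtain ⟨w1, w2, w3⟩ := mem_WW.1 hw
      rcases c with c | c | c
      · exact w1 (mem_qs.2 ⟨k, le_rfl, c.symm⟩)
      · exact (hM v c).elim w3 w2
      · exact w1 (mem_qs.2 ⟨0, by omega, c.symm⟩)
  · by_cases e1 : w = z
    · exact Or.inr (Or.inr (Or.inr e1))
    rcases zc v hv with ⟨j, j1, j2, rfl⟩ | ⟨hw, s, s1, s2, s3⟩
    · by_cases e2 : w ∈ qs k q
      · obtain ⟨p, hp, rfl⟩ := mem_qs.1 e2
        by_cases c1 : j + 2 ≤ p
        · have := (hN j p c1 hp a).1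
          omega
        by_cases c2 : p + 2 ≤ j
        · have := (hN p j c2 (by omega) a.symm).2
          omega
        exact mid p (by omega) (by omega)
      · have e3 : w ∉ K' := fun c => gap j j1 j2 ⟨w, c, a⟩
        have hw : w ∈ W := mem_WW.2 ⟨e2, e1, e3⟩
        exact Or.inl (zw w hw ⟨w, hw, Or.inr ⟨j, j1, j2, a⟩, R.refl⟩)
    · have e3 : w ∉ K' := fun c => hW v hw ⟨w, c, a⟩
      by_cases e2 : w ∈ qs k q
      swap
      · have hw' : w ∈ W := mem_WW.2 ⟨e2, e1, e3⟩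
        exact Or.inl (zw w hw' ⟨s, s1, s2, s3.tail a hw hw'⟩)
      obtain ⟨p, hp, rfl⟩ := mem_qs.1 e2
      have cs : s ∈ comp H W v := mem_comp.2 ⟨s1, s3.symm⟩
      have cp : Act H (comp H W v) (q p) := ⟨v, self_mem_comp hw, a.symm⟩
      have both : (∃ j, j < l0 ∧ Act H (comp H W v) (q j)) ∧
          ∃ j, i0 < j ∧ j ≤ k ∧ Act H (comp H W v) (q j) := by
        rcases s2 with s2 | ⟨j, j1, j2, s2⟩
        · have sub := hs.1.subset_comp hU s2 cs
          obtain ⟨-, ⟨u, hu, b⟩, u', hu', b'⟩ := hs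
          exact ⟨⟨i, by omega, u, sub hu, b⟩, l, by omega, hl, u', sub hu', b'⟩
        · exact ⟨⟨j, j2, s, cs, s2⟩, j, j1, by omega, s, cs, s2⟩
      obtain ⟨⟨j, j1, j2⟩, j', j3, j4, j5⟩ := both
      by_cases c1 : l0 < p
      · have := hS _ comp_subset j l0 p j1 c1 hp ⟨comp_conn hw, j2, cp⟩
        rcases b1 with b1 | b1 | b1
        · omega
        · omega
        · exact absurd b1 this
      by_cases c2 : p < i0
      · have := hS _ comp_subset p i0 j' c2 j3 j4 ⟨comp_conn hw, cp, j5⟩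
        rcases a1 with a1 | a1 | a1
        · omega
        · omega
        · exact absurd a1 this
      exact mid p (by omega) (by omega)

end Pool.Agent.MP_e6539c_co.C5
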