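import Mathlib.GroupTheory.GroupAction.Ring
import Pool.Agent.MP_e6539c_co.C5.Basic

/-! The case distinction of the two paths theorem. -/

set_option autoImplicit false

namespace Pool.Agent.MP_e6539c_co.C5

open Finset
open Pool.Agent.MP_7be75d_co (R Conn comp)
open Pool.Agent.MP_7be75d_co
open scoped Classical

namespace Link

variable {V : Type} {H : SimpleGraph V} {L : List V}

/-- A connected set off the frame that joins `x` and `y`. -/
def Br (H : SimpleGraph V) (L : List V) (x y : V) : Prop :=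
  ∃ U, Conn H U ∧ (∀ u ∈ U, u ∉ L) ∧ Act H U x ∧ Act H U y

/-- A chord or a bridge. -/
def Lk (H : SimpleGraph V) (L : List V) (x y : V) : Prop :=
  (H.Adj x y ∧ ¬ Fr L x y ∧ ¬ Fr L y x) ∨ Br H L x y

theorem Lk.symm {x y : V} (h : Lk H L x y) : Lk H L y x := by
  rcases h with ⟨a, b, c⟩ | ⟨U, a, b, c, d⟩
  · exact Or.inl ⟨a.symm, c, b⟩
  · exact Or.inr ⟨U, a, b, d, c⟩

theorem body {x y : V} (h : H.Adj x y ∨ Br H L x y) : ∃ U : Finset V,
    Conn H (insert x (insert y U)) ∧ (∀ u ∈ U, u ∉ L) ∧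
      (U.Nonempty → Conn H U ∧ Act H U x ∧ Act H U y) := by
  rcases h with h | ⟨U, a, b, ⟨w, hw, c⟩, ⟨w', hw', d⟩⟩
  · exact ⟨∅, by simpa using Conn.pair h, by simp, by simp⟩
  · exact ⟨U, (a.insert hw' d.symm).insert (mem_insert_of_mem hw) c.symm, b,
      fun _ => ⟨a, ⟨w, hw, c⟩, ⟨w', hw', d⟩⟩⟩

theorem rot_swap (x y : V) (I J : List V) : x :: (I ++ y :: J) ~r y :: (J ++ x :: I) :=
  rot_iff.2 ⟨x :: I, y :: J, by simp, by simp⟩

theorem exists_rot {x y : V} (hx : x ∈ L) (hy : y ∈ L) (h : x ≠ y) :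
    ∃ I J, L ~r x :: (I ++ y :: J) := by
  obtain ⟨A, B, rfl⟩ := List.append_of_mem hx
  have : y ∈ B ++ A := by
    simp only [List.mem_append, List.mem_cons] at hy ⊢
    rcases hy with k | k | k
    exacts [Or.inr k, absurd k.symm h, Or.inl k]
  obtain ⟨I, J, e⟩ := List.append_of_mem this
  exact ⟨I, J, rot_iff.2 ⟨A, x :: B, rfl, by simp [← e]⟩⟩

variable [Fintype V]

/-- Behind a cut of one vertex some vertex has degree at most one. -/
theorem pend (hD : DimStmt) (hF : FC H L) {Z : Finset V} {y : V} (hZ : Z.Nonempty)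
    (off : ∀ z ∈ Z, z ∉ L) (bd : Bd3 H Z y y y) (h2 : ∀ z ∈ Z, 2 ≤ dg H univ z) : False := by
  let K : SimpleGraph V :=
    { Adj := fun u v => H.Adj u v ∧ (u ∈ Z ∨ v ∈ Z)
      symm := ⟨fun _ _ h => ⟨h.1.symm, h.2.symm⟩⟩
      loopless := ⟨fun _ h => h.1.ne rfl⟩ }
  let W : Finset V := univ.filter fun w => ∃ z, K.Adj w z
  have dZ : ∀ z ∈ Z, 2 ≤ K.degree z := fun z hz => by
    refine (h2 z hz).trans (card_le_card fun w hw => ?_)
    rw [SimpleGraph.mem_neighborFinset]
    exact ⟨(mem_filter.1 hw).2, Or.inl hz⟩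
  have dW : ∀ w ∈ W, 2 ≤ K.degree w + if w = y then 1 else 0 := fun w hw => by
    obtain ⟨z, hz⟩ := (mem_filter.1 hw).2
    by_cases e : w ∈ Z
    · exact (dZ w e).trans (Nat.le_add_right _ _)
    · have hzZ : z ∈ Z := hz.2.resolve_left e
      have : w = y := by
        have := bd z hzZ w hz.1.symm
        tauto
      have p : 0 < K.degree w := (K.degree_pos_iff_exists_adj w).2 ⟨z, hz⟩
      rw [if_pos this]
      omega
  have ne : W.Nonempty := by
    obtain ⟨z, hz⟩ := hZ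
    have p : 0 < K.degree z := by have := dZ z hz; omega
    exact ⟨z, mem_filter.2 ⟨mem_univ _, (K.degree_pos_iff_exists_adj z).1 p⟩⟩
  have s1 : W.card * 2 ≤ ∑ w ∈ W, (K.degree w + if w = y then 1 else 0) :=
    card_nsmul_le_sum W _ 2 dW
  have s2 : ∑ w ∈ W, (if w = y then 1 else 0) ≤ 1 := by
    rw [sum_ite_eq']
    split_ifs <;> omega
  have s3 : ∑ w ∈ W, K.degree w ≤ ∑ w, K.degree w := sum_le_sum_of_subset (subset_univ _)
  have s4 := K.sum_degrees_eq_twice_card_edges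
  have s5 := hD V K.edgeFinset W ∅ ne (fun u v h => by
    have h : K.Adj u v := by simpa using h
    exact ⟨h.ne, mem_filter.2 ⟨mem_univ _, v, h⟩, mem_filter.2 ⟨mem_univ _, u, h.symm⟩⟩)
    (fun x a b => by
      have k : ∀ u v, x s(u, v) ≠ 0 → K.Adj u v := fun u v c => by simpa using a _ c
      rw [hF Z y y y off bd x ⟨fun u v c => (k u v c).1, b⟩ fun u v c => (k u v c).2]
      exact Submodule.zero_mem _)
  rw [sum_add_distrib] at s1
  rw [card_empty] at s5
  omega

theorem exists_lk (hD : DimStmt) (hF : FC H L) {u v : V} (a : H.Adj u v) (hv : v ∉ L)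
    (np : ∀ v ∉ L, ∀ p, ¬ ∀ w, H.Adj v w ↔ w = p) : ∃ x ∈ L, ∃ y ∈ L, x ≠ y ∧ Br H L x y := by
  have hv' : v ∈ univ \ L.toFinset := by simpa using hv
  have c := comp_conn (G := H) hv'
  have off : ∀ z ∈ comp H (univ \ L.toFinset) v, z ∉ L := fun z hz => by
    simpa using comp_subset hz
  by_contra hc
  have one : ∀ x ∈ L, ∀ y ∈ L, Act H (comp H (univ \ L.toFinset) v) x →
      Act H (comp H (univ \ L.toFinset) v) y → x = y := fun x hx y hy p q => by
    by_contra e
    exact hc ⟨x, hx, y, hy, e, _, c, off, p, q⟩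
  obtain ⟨y, hy⟩ : ∃ y, ∀ x ∈ L, Act H (comp H (univ \ L.toFinset) v) x → x = y := by
    by_cases e : ∃ y ∈ L, Act H (comp H (univ \ L.toFinset) v) y
    · obtain ⟨y, p, q⟩ := e
      exact ⟨y, fun x hx r => one x hx y p r q⟩
    · exact ⟨v, fun x hx r => absurd ⟨x, hx, r⟩ e⟩
  refine pend hD hF (y := y) c.1 off (fun z hz w b => ?_) fun z hz => ?_
  · by_cases e : w ∈ L
    · exact Or.inr (Or.inl (hy w e ⟨z, hz, b.symm⟩))
    · exact Or.inl (comp_closed hz (by simpa using e) b)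
  · obtain ⟨p, hp⟩ : ∃ p, H.Adj z p := by
      by_cases e : z = v
      · exact ⟨u, e ▸ a.symm⟩
      · obtain ⟨p, -, hp⟩ := c.exists_adj hz (self_mem_comp hv') e
        exact ⟨p, hp⟩
    have := np z (off z hz) p
    by_contra k
    refine this fun w => ⟨fun b => ?_, fun b => b ▸ hp⟩
    by_contra e
    exact k (two_le_dg.2 ⟨w, mem_univ _, p, mem_univ _, e, b, hp⟩)

/-- A walk between the two sides gives an edge or a bridge between the two sides. -/
theorem across {x y u v : V} {I J : List V} (nd : (x :: (I ++ y :: J)).Nodup) (hu : u ∈ I)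
    (hv : v ∈ J) (h : R H (univ \ {x, y}) u v) :
    ∃ u' ∈ I, ∃ v' ∈ J, H.Adj u' v' ∨ Br H (x :: (I ++ y :: J)) u' v' := by
  have dIJ : ∀ z ∈ I, z ∉ J := fun z a b => by
    simp only [List.nodup_cons, List.nodup_append] at nd
    exact nd.2.2.2 z a z (List.mem_cons_of_mem _ b) rfl
  obtain ⟨v', hv', r, -⟩ := first_hit h (A := J.toFinset) (by simpa using hv)
  obtain ⟨u', hu', r', -⟩ := first_hit r.symm (A := I.toFinset) (by simpa using hu)
  rw [List.mem_toFinset] at hv' hu'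
  have m : v' ∈ insert u' (insert v' ((univ \ {x, y}) \ J.toFinset) \ I.toFinset) := by
    refine mem_insert_of_mem (mem_sdiff.2 ⟨mem_insert_self _ _, ?_⟩)
    exact fun c => dIJ v' (List.mem_toFinset.1 c) hv'
  obtain ⟨X, hX, c, a, b⟩ := r'.exists_conn m
  refine ⟨u', hu', v', hv', ?_⟩
  rcases conn_open c b a (fun e => dIJ u' hu' (e ▸ hv')) with k | ⟨U, s, k1, k2, k3⟩
  · exact Or.inl k
  · refine Or.inr ⟨U, k1, fun z hz => ?_, k2, k3⟩
    have h1 := mem_sdiff.1 (s hz)
    have h2 := hX h1.1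
    have h3 := h1.2
    simp only [mem_insert, mem_singleton, mem_sdiff, mem_univ, true_and, List.mem_toFinset,
      not_or] at h2 h3
    simp only [List.mem_cons, List.mem_append]
    tauto

end Link

open Link in
theorem link (h : DimStmt) : LinkStmt := by
  intro V _ H L fr nc fc
  by_cases h1 : ∀ u v, H.Adj u v → Fr L u v ∨ Fr L v u
  · exact Or.inl h1
  by_cases h2 : ∃ v ∉ L, ∃ p, ∀ w, H.Adj v w ↔ w = p
  · exact Or.inr (Or.inl h2)
  refine Or.inr (Or.inr ?_)
  have np : ∀ v ∉ L, ∀ p, ¬ ∀ w, H.Adj v w ↔ w = p := fun v a p b => h2 ⟨v, a, p, b⟩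
  obtain ⟨x, hx, y, hy, xy, lk⟩ : ∃ x ∈ L, ∃ y ∈ L, x ≠ y ∧ Lk H L x y := by
    push Not at h1
    obtain ⟨u, v, a, b, c⟩ := h1
    by_cases hv : v ∈ L
    · by_cases hu : u ∈ L
      · exact ⟨u, hu, v, hv, a.ne, Or.inl ⟨a, b, c⟩⟩
      · obtain ⟨x, p, y, q, r, s⟩ := exists_lk h fc a.symm hu np
        exact ⟨x, p, y, q, r, Or.inr s⟩
    · obtain ⟨x, p, y, q, r, s⟩ := exists_lk h fc a hv np
      exact ⟨x, p, y, q, r, Or.inr s⟩
  obtain ⟨I, J, rt⟩ := exists_rot hx hy xy
  obtain ⟨⟨x, y, I, J⟩, ⟨rt, lk⟩, mn⟩ := exists_min_of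
    (p := fun t : V × V × List V × List V =>
      L ~r t.1 :: (t.2.2.1 ++ t.2.1 :: t.2.2.2) ∧ Lk H L t.1 t.2.1)
    (fun t => t.2.2.1.length) ⟨(x, y, I, J), rt, lk⟩
  dsimp only at rt lk mn
  by_cases hI : I = []
  · subst hI
    rcases lk with ⟨-, b, -⟩ | ⟨U, a, b, c, d⟩
    · exact absurd ⟨J, rt⟩ b
    · exact Or.inl ⟨x, y, J, U, rt.trans (rot_swap x y [] J), a, b, c, d⟩
  have hJ : J ≠ [] := by
    rintro rfl
    have := mn (y, x, [], I) ⟨rt.trans (rot_swap x y I []), lk.symm⟩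
    exact hI (List.length_eq_zero_iff.1 (by simpa using this))
  refine Or.inr ⟨x, y, I, J, rt, hI, hJ, fun u hu v hv r => ?_⟩
  have nd := rt.nodup_iff.1 fr.nd
  obtain ⟨u, hu, v, hv, k⟩ := across nd hu hv r
  obtain ⟨U', c', o', n'⟩ := body k
  obtain ⟨U, c, o, n⟩ := body (lk.imp_left And.left)
  have o2 : ∀ z ∈ U, z ∉ x :: (I ++ y :: J) := fun z a b => o z a (rt.mem_iff.2 b)
  by_cases d : Disjoint U U'
  · refine nc (Cross.rot (cross_mk (x := x) (u := u) (y := y) (v := v) ?_ c c' ?_ ?_ ?_) rt.symm)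
    · exact List.Sublist.cons_cons _ (List.Sublist.append (List.singleton_sublist.2 hu)
        (List.Sublist.cons_cons _ (List.singleton_sublist.2 hv)))
    · simp only [List.nodup_cons, List.nodup_append, List.mem_append, List.mem_cons,
        not_or] at nd
      have mu : u ∈ x :: (I ++ y :: J) := by simp [hu]
      have mv : v ∈ x :: (I ++ y :: J) := by simp [hv]
      have mx : x ∈ x :: (I ++ y :: J) := by simp
      have my : y ∈ x :: (I ++ y :: J) := by simp
      rw [disjoint_left]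
      intro z a b
      simp only [mem_insert] at a b
      rcases a with rfl | rfl | a <;> rcases b with b | b | b
      · exact nd.1.1 (b ▸ hu)
      · exact nd.1.2.2 (b ▸ hv)
      · exact o' _ b mx
      · exact nd.2.2.2 u hu z (Or.inl rfl) b.symm
      · exact nd.2.2.1.1 (b ▸ hv)
      · exact o' _ b my
      · exact o2 _ a (b ▸ mu)
      · exact o2 _ a (b ▸ mv)
      · exact disjoint_left.1 d a b
    · intro z
      simp only [mem_insert]
      refine ⟨fun ⟨a, b⟩ => ?_, ?_⟩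
      · rcases a with a | a | a
        exacts [Or.inl a, Or.inr a, absurd b (o2 z a)]
      · rintro (rfl | rfl) <;> simp
    · intro z
      simp only [mem_insert]
      refine ⟨fun ⟨a, b⟩ => ?_, ?_⟩
      · rcases a with a | a | a
        exacts [Or.inl a, Or.inr a, absurd b (o' z a)]
      · rintro (rfl | rfl) <;> simp [hu, hv]
  · obtain ⟨p, p1, p2⟩ := not_disjoint_iff.1 d
    obtain ⟨a1, a2, -⟩ := n ⟨p, p1⟩
    obtain ⟨b1, b2, -⟩ := n' ⟨p, p2⟩
    obtain ⟨I1, I2, rfl⟩ := List.append_of_mem hu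
    have := mn (x, u, I1, I2 ++ y :: J) ⟨by simpa using rt,
      Or.inr ⟨U ∪ U', a1.union b1 p1 p2, fun z hz => by
        rcases mem_union.1 hz with e | e
        exacts [o z e, fun t => o' z e (rt.mem_iff.1 t)],
        a2.mono subset_union_left, b2.mono subset_union_right⟩⟩
    simp only [List.length_append, List.length_cons] at this
    omega

end Pool.Agent.MP_e6539c_co.C5
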