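import Mathlib.GroupTheory.GroupAction.Ring
import Pool.Agent.MP_e6539c_co.C5.Basic

/-! Moves of the territory game and the main graph theorem. -/

set_option autoImplicit false

namespace Pool.Agent.MP_e6539c_co.C5

open Finset
open Pool.Agent.MP_7be75d_co (R Conn comp)
open Pool.Agent.MP_7be75d_co
open scoped Classical

namespace Move

variable {V : Type} {G : SimpleGraph V}

/-- The neighbours of a component of `C \ D` lie outside `C` or in `D`. -/
theorem cov_comp {C D : Finset V} {y : V} {S T : Set V} (h : Cov G C S) (hT : ∀ x ∈ D, x ∈ T) :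
    Cov G (comp G (C \ D) y) (S ∪ T) := by
  intro w hw x hx a
  have hw' : w ∈ C \ D := comp_subset hw
  by_cases hC : x ∈ C
  · by_cases hD : x ∈ D
    · exact Or.inr (hT x hD)
    · exact absurd (comp_closed hw (mem_sdiff.2 ⟨hC, hD⟩) a.symm) hx
  · exact Or.inl (h w (mem_sdiff.1 hw').1 x hC a)

theorem card_comp_lt {C D : Finset V} {y z : V} (hz : z ∈ C) (hD : z ∈ D) :
    (comp G (C \ D) y).card < C.card :=
  card_lt_card ⟨comp_subset.trans sdiff_subset,
    fun c => (mem_sdiff.1 (comp_subset (c hz))).2 hD⟩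

theorem list_eq (m : ℕ) (d : ℕ → V) :
    d 0 :: ((List.range m).map (fun i => d (i + 1)) ++ [d (m + 1)]) =
      (List.range (m + 2)).map d := by
  rw [List.range_succ_eq_map, List.map_cons, List.map_map, List.range_succ, List.map_append]
  rfl

theorem mem_inner {m : ℕ} {d : ℕ → V} {x : V} :
    x ∈ inner m d ↔ x ∈ (List.range m).map (fun i => d (i + 1)) := by
  simp only [inner, mem_image, mem_Icc, List.mem_map, List.mem_range]
  constructor
  · rintro ⟨i, ⟨h1, h2⟩, rfl⟩
    exact ⟨i - 1, by omega, by rw [Nat.sub_add_cancel h1]⟩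
  · rintro ⟨i, h, rfl⟩
    exact ⟨i + 1, ⟨by omega, by omega⟩, rfl⟩

theorem not_cyc_single (w : V) : ¬ Cyc G {w} := by
  rintro ⟨W, h1, ⟨v, hv⟩, h3⟩
  have h4 := (h3 v hv).trans (dg_mono h1 v)
  have h5 : dg G {w} v ≤ 1 := (card_filter_le _ _).trans (card_singleton w).le
  omega

theorem nost_mono [Fintype V] {n k : ℕ} (h : NoSt G n) (hk : k ≤ n) : NoSt G k :=
  fun Γ C hC => h Γ C (hC.trans_le hk)

end Move

open Move

theorem move (hG : GeoStmt) (hS : SurvStmt) : MoveStmt := by
  intro V _ G Γ C a b h hab ha hb aa ab hs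
  obtain ⟨m, d, g, rfl, rfl, nc, cl, far⟩ := hG V G C a b h.gi h.conn hab ha hb aa ab
  obtain ⟨y, hy, cy⟩ := (hS V G C m d h.gi h.deg h.cyc g nc cl far hs).exists_comp
  have hsub : comp G (C \ inner m d) y ⊆ C := comp_subset.trans sdiff_subset
  have hpos := g.pos
  refine ⟨(List.range m).map (fun i => d (i + 1)), comp G (C \ inner m d) y, ?_, ?_, ?_, ?_,
    hsub, card_comp_lt (z := d 1) (g.mem 1 le_rfl hpos)
      (mem_image_of_mem d (mem_Icc.2 ⟨le_rfl, hpos⟩)),
    h.sub hsub (comp_conn hy) cy, ?_, fun S hS => cov_comp hS fun x hx => mem_inner.1 hx⟩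
  · intro e
    have := congrArg List.length e
    simp only [List.length_map, List.length_range, List.length_nil] at this
    omega
  · refine List.Nodup.map_on (fun i hi j hj e => ?_) List.nodup_range
    rw [List.mem_range] at hi hj
    have := g.inj (i + 1) (by omega) (j + 1) (by omega) e
    omega
  · intro x hx
    refine ⟨?_, fun c => (mem_sdiff.1 (comp_subset c)).2 (mem_inner.2 hx)⟩
    obtain ⟨i, hi, rfl⟩ := List.mem_map.1 hx
    rw [List.mem_range] at hi
    exact g.mem _ (by omega) (by omega)
  · rw [list_eq, List.isChain_map, List.isChain_range_succ]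
    intro i hi
    rcases Nat.eq_zero_or_pos i with e | e
    · subst e
      exact (h.adj (g.mem 1 le_rfl hpos)).2 (g.adj 0 (Nat.zero_le _))
    · exact (h.agree _ (g.mem i e (by omega)) _).2 (g.adj i (by omega))
  · refine cl.mono comp_subset fun x hx => ?_
    have hx' : x ∈ (List.range (m + 2)).map d := by
      rw [← list_eq]
      exact hx
    obtain ⟨i, hi, rfl⟩ := List.mem_map.1 hx'
    rw [List.mem_range] at hi
    exact ⟨i, by omega, rfl⟩

theorem move0 (hT : TreeStmt) (h0 : Surv0Stmt) : Move0Stmt := by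
  intro V _ G Γ C x w h hw hc
  have cy : Cyc G (C \ {w}) := by
    by_contra nc
    refine h0 V G C {w} h.cyc (not_cyc_single w) nc fun y hy => ?_
    have pc : Pc G (comp G (C \ {w}) y) := pc_comp h.deg sdiff_subset nc hy
    have hwY : w ∉ comp G (C \ {w}) y := fun c =>
      (mem_sdiff.1 (comp_subset c)).2 (mem_singleton_self w)
    have cv := cov_comp (y := y) (D := {w}) (T := {w}) hc fun z hz => mem_singleton.1 hz
    have hY : (comp G (C \ {w}) y).card ≤ 2 := by
      refine hT V G _ ∅ (fun i => if i = 0 then {w} else if i = 1 then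
        {z | z = x ∧ z ∉ comp G (C \ {w}) y} else ∅) 3 1 2 (by simp) h.gi pc (fun i => ?_)
        (fun i hi => ?_) (by simp) fun v hv z hz a => Or.inl ?_
      · split_ifs
        · exact cls_single h.gi hwY
        · exact cls_sub h.gi (fun p hp q hq => hp.1.trans hq.1.symm) fun z hz => hz.2
        · exact cls_empty _
      · rw [if_neg (fun e => by rw [e] at hi; exact absurd hi (by decide)),
          if_neg (fun e => by rw [e] at hi; exact absurd hi (by decide))]
      · rcases cv v hv z hz a with e | e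
        · exact ⟨1, by rw [if_neg (by decide), if_pos rfl]; exact ⟨e, hz⟩⟩
        · exact ⟨0, by rw [if_pos rfl]; exact e⟩
    exact (mks_fin h.gi {w} pc.conn (by omega)).trans
      ((card_filter_le _ _).trans (card_singleton w).le)
  obtain ⟨y, hy, cy⟩ := cy.exists_comp
  have hsub : comp G (C \ {w}) y ⊆ C := comp_subset.trans sdiff_subset
  exact ⟨comp G (C \ {w}) y, hsub,
    fun c => (mem_sdiff.1 (comp_subset c)).2 (mem_singleton_self w),
    card_comp_lt hw (mem_singleton_self w), h.sub hsub (comp_conn hy) cy,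
    fun S hS => cov_comp hS fun z hz => mem_singleton.1 hz⟩

theorem noAll (h1 : CyStmt) (h2 : PsStmt) (h3 : KsStmt) : NoAllStmt := by
  intro V _ G n
  induction n with
  | zero => exact fun _ _ hC => absurd hC (Nat.not_lt_zero _)
  | succ n ih =>
    intro Γ C hC
    have k0 : NoSt G C.card := nost_mono ih (by omega)
    have k1 := h1 V G C k0
    have k2 := h2 V G C k0 k1
    exact ⟨k1 Γ, k2 Γ, h3 V G C k0 k1 k2 Γ⟩

theorem amain (hN : NoAllStmt) : AStmt := by
  intro V _ G gi dg3 ⟨u, v, huv⟩
  have key : ∀ n, NoSt G n := hN V G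
  by_contra np
  have hu : u ∈ comp G univ u := self_mem_comp (mem_univ u)
  have cn : Conn G (comp G univ u) := comp_conn (mem_univ u)
  have dd : Deg3 G (comp G univ u) := by
    intro z hz
    by_cases e : z = u
    · exact dg3 z v (e ▸ huv)
    · obtain ⟨y, -, a⟩ := cn.exists_adj hz hu e
      exact dg3 z y a
  have cy : Cyc G (comp G univ u) := by
    refine ⟨_, subset_rfl, ⟨u, hu⟩, fun z hz => ?_⟩
    have : dg G univ z ≤ dg G (comp G univ u) z := card_le_card fun y hy => by
      rw [mem_filter] at hy ⊢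
      exact ⟨comp_closed hz hy.1 hy.2, hy.2⟩
    have := dd z hz
    omega
  refine (key _ G (comp G univ u) (Nat.lt_succ_self _)).1 []
    ⟨⟨gi, cn, cy, dd, fun _ _ _ => Iff.rfl, np⟩, List.nodup_nil, by simp, List.isChain_nil,
      by simp, fun w hw x hx a => absurd (comp_closed hw (mem_univ x) a.symm) hx,
      Or.inr (by simp)⟩

end Pool.Agent.MP_e6539c_co.C5
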