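import Mathlib.GroupTheory.GroupAction.Ring
import Pool.Agent.MP_e6539c_co.C5.Basic

/-! No cross appears when the path replaces the frame edge between its ends. -/

set_option autoImplicit false

namespace Pool.Agent.MP_e6539c_co.C5

open Finset
open Pool.Agent.MP_7be75d_co (R Conn comp)
open Pool.Agent.MP_7be75d_co
open scoped Classical

namespace Pcross

variable {V : Type} {H : SimpleGraph V} {M : List V} {k : ℕ} {q : ℕ → V}

theorem sub_range {l : List V} (h : l.Sublist ((List.range (k + 1)).map q)) :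
    ∃ l' : List ℕ, l = l'.map q ∧ l'.Pairwise (· < ·) ∧ ∀ i ∈ l', i ≤ k := by
  obtain ⟨l', s, e⟩ := List.sublist_map_iff.1 h
  exact ⟨l', e, List.pairwise_lt_range.sublist s, fun i hi => by
    simpa [Nat.lt_succ_iff] using s.subset hi⟩

theorem mem_new {z : V} :
    z ∈ (List.range (k + 1)).map q ++ M ↔ (∃ i ≤ k, q i = z) ∨ z ∈ M := by
  simp

theorem mem_old {z : V} : z ∈ q k :: (M ++ [q 0]) ↔ z = q k ∨ z ∈ M ∨ z = q 0 := by simp

/-- The set `X` meets the new frame exactly in `a` and `b`. -/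
def Meet (M : List V) (k : ℕ) (q : ℕ → V) (X : Finset V) (a b : V) : Prop :=
  ∀ z, (z ∈ X ∧ ((∃ i ≤ k, q i = z) ∨ z ∈ M)) ↔ (z = a ∨ z = b)

theorem Meet.left {X : Finset V} {a b : V} (h : Meet M k q X a b) : a ∈ X :=
  ((h a).2 (Or.inl rfl)).1

theorem Meet.right {X : Finset V} {a b : V} (h : Meet M k q X a b) : b ∈ X :=
  ((h b).2 (Or.inr rfl)).1

/-- Both ends on `M`: the set meets the old frame in the same two vertices. -/
theorem Meet.old {X : Finset V} {a b : V} (h : Meet M k q X a b) (ha : a ∈ M) (hb : b ∈ M)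
    (z : V) : (z ∈ X ∧ z ∈ q k :: (M ++ [q 0])) ↔ (z = a ∨ z = b) := by
  rw [mem_old]
  constructor
  · rintro ⟨h1, rfl | h2 | rfl⟩
    · exact (h _).1 ⟨h1, Or.inl ⟨k, le_rfl, rfl⟩⟩
    · exact (h _).1 ⟨h1, Or.inr h2⟩
    · exact (h _).1 ⟨h1, Or.inl ⟨0, Nat.zero_le _, rfl⟩⟩
  · rintro (rfl | rfl)
    · exact ⟨h.left, Or.inr (Or.inl ha)⟩
    · exact ⟨h.right, Or.inr (Or.inl hb)⟩

theorem Meet.path_MM (P : PQ H M k q) {X : Finset V} {a b : V} (h : Meet M k q X a b)
    (ha : a ∈ M) (hb : b ∈ M) {t : ℕ} (ht : t ≤ k) : q t ∉ X := fun c => by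
  rcases (h _).1 ⟨c, Or.inl ⟨t, ht, rfl⟩⟩ with e | e
  · exact P.off t ht (e ▸ ha)
  · exact P.off t ht (e ▸ hb)

theorem Meet.path_qM (P : PQ H M k q) {X : Finset V} {i : ℕ} {b : V} (h : Meet M k q X (q i) b)
    (hi : i ≤ k) (hb : b ∈ M) {t : ℕ} (ht : t ≤ k) (c : q t ∈ X) : t = i := by
  rcases (h _).1 ⟨c, Or.inl ⟨t, ht, rfl⟩⟩ with e | e
  · exact P.inj t ht i hi e
  · exact absurd (e ▸ hb) (P.off t ht)

theorem mem_seg {a b : ℕ} {z : V} :
    z ∈ (Icc a b).image q ↔ ∃ t, a ≤ t ∧ t ≤ b ∧ q t = z := by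
  simp [and_assoc]

/-- One end on the path: extend the set along the path to an end `e` of the path. -/
theorem extend (P : PQ H M k q) {X : Finset V} {i a b e : ℕ} {y : V} (c : Conn H X)
    (h : Meet M k q X (q i) y) (hy : y ∈ M) (h1 : a ≤ i) (h2 : i ≤ b) (h3 : b ≤ k)
    (h4 : a ≤ e) (h5 : e ≤ b) (h6 : e = 0 ∨ e = k)
    (h7 : ∀ t, a ≤ t → t ≤ b → t = 0 ∨ t = k → t = e) :
    Conn H (X ∪ (Icc a b).image q) ∧
      ∀ z, (z ∈ X ∪ (Icc a b).image q ∧ z ∈ q k :: (M ++ [q 0])) ↔ (z = q e ∨ z = y) := by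
  refine ⟨c.union (conn_segment (h1.trans h2) fun j _ hj => P.adj j (by omega)) h.left
    (mem_seg.2 ⟨i, h1, h2, rfl⟩), fun z => ?_⟩
  rw [mem_old, mem_union, mem_seg]
  have key : ∀ s, s = 0 ∨ s = k → (q s ∈ X ∨ ∃ t, a ≤ t ∧ t ≤ b ∧ q t = q s) → s = e := by
    intro s hs hz
    have sk : s ≤ k := by omega
    rcases hz with hz | ⟨t, t1, t2, t3⟩
    · have := h.path_qM P (by omega) hy sk hz
      exact h7 s (by omega) (by omega) hs
    · have := P.inj t (by omega) s sk t3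
      exact h7 s (by omega) (by omega) hs
  constructor
  · rintro ⟨hz, rfl | hm | rfl⟩
    · exact Or.inl (congrArg q (key k (Or.inr rfl) hz))
    · rcases hz with hz | ⟨t, -, t2, rfl⟩
      · rcases (h z).1 ⟨hz, Or.inr hm⟩ with rfl | rfl
        · exact absurd hm (P.off i (by omega))
        · exact Or.inr rfl
      · exact absurd hm (P.off t (by omega))
    · exact Or.inl (congrArg q (key 0 (Or.inl rfl) hz))
  · rintro (rfl | rfl)
    · refine ⟨Or.inr ⟨e, h4, h5, rfl⟩, ?_⟩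
      rcases h6 with rfl | rfl
      · exact Or.inr (Or.inr rfl)
      · exact Or.inl rfl
    · exact ⟨Or.inl h.right, Or.inr (Or.inl hy)⟩

/-- Three ends on `M`. -/
theorem three (P : PQ H M k q) {X₁ X₂ : Finset V} {i : ℕ} {u y v : V} (hi : i ≤ k)
    (s : List.Sublist [u, y, v] M) (c₁ : Conn H X₁) (c₂ : Conn H X₂) (d : Disjoint X₁ X₂)
    (m₁ : Meet M k q X₁ (q i) y) (m₂ : Meet M k q X₂ u v) : Cross H (q k :: (M ++ [q 0])) := by
  have hu : u ∈ M := s.subset (by simp)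
  have hy : y ∈ M := s.subset (by simp)
  have hv : v ∈ M := s.subset (by simp)
  have dj : ∀ a b, b ≤ k → Disjoint (X₁ ∪ (Icc a b).image q) X₂ := by
    intro a b hb
    refine disjoint_union_left.2 ⟨d, disjoint_left.2 fun z hz hz' => ?_⟩
    obtain ⟨t, -, t2, rfl⟩ := mem_seg.1 hz
    exact m₂.path_MM P hu hv (by omega) hz'
  rcases hi.eq_or_lt with rfl | hi'
  · obtain ⟨c, e⟩ := extend (a := i) (b := i) (e := i) P c₁ m₁ hy le_rfl le_rfl le_rfl le_rfl
      le_rfl (Or.inr rfl) (fun t _ _ _ => by omega)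
    exact cross_mk ((s.trans (List.sublist_append_left _ _)).cons_cons _) c c₂ (dj _ _ le_rfl) e
      (m₂.old hu hv)
  · obtain ⟨c, e⟩ := extend (a := 0) (b := i) (e := 0) P c₁ m₁ hy (Nat.zero_le _) le_rfl hi
      le_rfl (Nat.zero_le _) (Or.inl rfl) (fun t _ _ _ => by omega)
    exact cross_mk (x := u) (u := y) (y := v) (v := q 0)
      ((s.append (List.Sublist.refl [q 0])).cons _) c₂ c (dj _ _ hi).symm (m₂.old hu hv)
      (fun z => (e z).trans or_comm)

/-- Two ends on `M`. -/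
theorem two (P : PQ H M k q) {X₁ X₂ : Finset V} {i j : ℕ} {y v : V} (hij : i < j) (hj : j ≤ k)
    (s : List.Sublist [y, v] M) (c₁ : Conn H X₁) (c₂ : Conn H X₂) (d : Disjoint X₁ X₂)
    (m₁ : Meet M k q X₁ (q i) y) (m₂ : Meet M k q X₂ (q j) v) :
    Cross H (q k :: (M ++ [q 0])) := by
  have hy : y ∈ M := s.subset (by simp)
  have hv : v ∈ M := s.subset (by simp)
  obtain ⟨c, e⟩ := extend (a := 0) (b := i) (e := 0) P c₁ m₁ hy (Nat.zero_le _) le_rfl (by omega)
    le_rfl (Nat.zero_le _) (Or.inl rfl) (fun t _ _ _ => by omega)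
  obtain ⟨c', e'⟩ := extend (a := j) (b := k) (e := k) P c₂ m₂ hv le_rfl hj le_rfl hj
    le_rfl (Or.inr rfl) (fun t _ _ _ => by omega)
  refine cross_mk (x := q k) (u := y) (y := v) (v := q 0)
    ((s.append (List.Sublist.refl [q 0])).cons_cons _) c' c ?_ e' (fun z => (e z).trans or_comm)
  refine disjoint_left.2 fun z hz hz' => ?_
  rw [mem_union, mem_seg] at hz hz'
  rcases hz with hz | ⟨t, t1, t2, rfl⟩
  · rcases hz' with hz' | ⟨t, -, t2, rfl⟩
    · exact disjoint_left.1 d hz' hz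
    · have := m₂.path_qM P hj hv (by omega) hz
      omega
  · rcases hz' with hz' | ⟨t', -, t3, t4⟩
    · have := m₁.path_qM P (by omega) hy t2 hz'
      omega
    · have := P.inj t' (by omega) t t2 t4
      omega

variable [Fintype V]

/-- Both ends on the path: the interior of the set spans them inside `KK`. -/
theorem open_span (P : PQ H M k q) (nc : NC H k q)
    (hs : ∀ U i l, Disjoint U (qs k q) → Disjoint U (KK H M k q) → i + 2 ≤ l → l ≤ k →
      ¬ Span H q U i l)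
    {X : Finset V} {i l : ℕ} (hil : i + 2 ≤ l) (hl : l ≤ k)
    (c : Conn (H.deleteEdges {s(q 0, q k)}) X) (m : Meet M k q X (q i) (q l)) :
    ∃ U ⊆ X, U ⊆ KK H M k q ∧ (∀ u ∈ U, u ∉ M) ∧ Span H q U i l := by
  have hne : q i ≠ q l := fun e => by have := P.inj i (by omega) l hl e; omega
  rcases conn_open c m.left m.right hne with a | ⟨U, hU, cU, ⟨w, w1, w2⟩, w', w3, w4⟩
  · rw [SimpleGraph.deleteEdges_adj] at a
    obtain ⟨rfl, rfl⟩ := nc i l hil hl a.1
    exact absurd rfl a.2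
  · have off : ∀ u ∈ U, ¬ ((∃ t ≤ k, q t = u) ∨ u ∈ M) := by
      intro u hu h
      have h1 := mem_sdiff.1 (hU hu)
      exact h1.2 (by simpa using (m u).1 ⟨h1.1, h⟩)
    have cU' : Conn H U := cU.mono' fun _ _ a _ _ => (SimpleGraph.deleteEdges_adj.1 a).1
    have sp : Span H q U i l := ⟨cU', ⟨w, w1, (SimpleGraph.deleteEdges_adj.1 w2).1⟩,
      w', w3, (SimpleGraph.deleteEdges_adj.1 w4).1⟩
    have dq : Disjoint U (qs k q) :=
      disjoint_left.2 fun u hu h => off u hu (Or.inl (mem_qs.1 h))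
    rcases P.KK_or cU' dq with h | h
    · exact ⟨U, hU.trans sdiff_subset, h, fun u hu h => off u hu (Or.inr h), sp⟩
    · exact absurd sp (hs U i l dq h hil hl)

/-- One end on the path and one on `M`: the set gives an exit. -/
theorem exit_of (P : PQ H M k q) {X U : Finset V} {j : ℕ} {v : V} (hj : j ≤ k) (hv : v ∈ M)
    (c : Conn H X) (m : Meet M k q X (q j) v) (d : Disjoint U X) : Exit H M k q U j := by
  have hne : v ≠ q j := fun e => P.off j hj (e ▸ hv)
  obtain ⟨x, y, hx, hy, -, hyX, a, r⟩ := (c.2 v m.right _ m.left).exit (S := X.erase (q j))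
    (mem_erase.2 ⟨hne, m.right⟩) (notMem_erase _ _)
  obtain rfl : y = q j := by
    by_contra e
    exact hy (mem_erase.2 ⟨e, hyX⟩)
  obtain ⟨h1, h2⟩ := r.closed (S := KK H M k q) (KK_of_M hv) fun z hz w hw _ b => by
    refine P.KK_closed hz b fun h => ?_
    obtain ⟨t, ht, rfl⟩ := mem_qs.1 h
    have hw' := mem_erase.1 (mem_inter.1 hw).2
    exact hw'.1 (congrArg q (m.path_qM P hj hv ht hw'.2))
  refine ⟨v, hv, x, mem_sdiff.2 ⟨h1, fun h => disjoint_left.1 d h (mem_of_mem_erase hx)⟩, a.symm,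
    h2.symm.mono fun z hz => ?_⟩
  rw [mem_inter, mem_inter] at hz
  exact mem_sdiff.2 ⟨hz.2, fun h => disjoint_left.1 d h hz.1.1⟩

/-- A walk from `M` that first meets `U ∪ U'` in `U'` gives an exit through `U'`. -/
theorem exit_hit {U U' : Finset V} {j : ℕ} {m a : V} (hm : m ∈ M) (ha : a ∈ U')
    (hU' : U' ⊆ KK H M k q) (c : Conn H U') (d : Disjoint U U') (act : Act H U' (q j))
    (r : R H (insert a (KK H M k q \ (U ∪ U'))) m a) : Exit H M k q U j := by
  obtain ⟨y, hy, b⟩ := act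
  have sub : U' ⊆ KK H M k q \ U :=
    fun z hz => mem_sdiff.2 ⟨hU' hz, fun h => disjoint_left.1 d h hz⟩
  refine ⟨m, hm, y, sub hy, b, (c.r hy ha sub).trans (r.symm.mono ?_)⟩
  exact insert_subset (sub ha) (sdiff_subset_sdiff subset_rfl subset_union_left)

end Pcross

open Pcross in
theorem pcross : PcrossStmt := by
  intro V _ H M k q P hc nc hg hs h
  have rot : (q k :: (M ++ (List.range k).map q)) ~r ((List.range (k + 1)).map q ++ M) :=
    rot_iff.2 ⟨q k :: M, (List.range k).map q, by simp, by simp [List.range_succ]⟩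
  obtain ⟨x, u, y, v, X₁, X₂, s, c₁, c₂, d, f₁, f₂⟩ := (h.rot rot).norm
  have m₁ : Meet M k q X₁ x y := fun z => by rw [← mem_new]; exact f₁ z
  have m₂ : Meet M k q X₂ u v := fun z => by rw [← mem_new]; exact f₂ z
  have c₁' : Conn H X₁ := c₁.mono' fun _ _ a _ _ => (SimpleGraph.deleteEdges_adj.1 a).1
  have c₂' : Conn H X₂ := c₂.mono' fun _ _ a _ _ => (SimpleGraph.deleteEdges_adj.1 a).1
  obtain ⟨l₁, l₂, e, s1, s2⟩ := List.sublist_append_iff.1 s
  obtain ⟨l, rfl, pw, hk⟩ := sub_range s1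
  match l, e, pw, hk with
  | [], e, _, _ =>
    obtain rfl : [x, u, y, v] = l₂ := e
    exact hc (cross_mk ((s2.trans (List.sublist_append_left _ _)).cons _) c₁' c₂' d
      (m₁.old (s2.subset (by simp)) (s2.subset (by simp)))
      (m₂.old (s2.subset (by simp)) (s2.subset (by simp))))
  | [i], e, _, hk =>
    simp only [List.map_cons, List.map_nil, List.cons_append, List.nil_append,
      List.cons.injEq] at e
    obtain ⟨rfl, rfl⟩ := e
    exact hc (three P (hk i (by simp)) s2 c₁' c₂' d m₁ m₂)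
  | [i, j], e, pw, hk =>
    simp only [List.map_cons, List.map_nil, List.cons_append, List.nil_append,
      List.cons.injEq] at e
    obtain ⟨rfl, rfl, rfl⟩ := e
    exact hc (two P (by simpa using pw) (hk j (by simp)) s2 c₁' c₂' d m₁ m₂)
  | [i, j, l], e, pw, hk =>
    simp only [List.map_cons, List.map_nil, List.cons_append, List.nil_append,
      List.cons.injEq] at e
    obtain ⟨rfl, rfl, rfl, rfl⟩ := e
    have hl : l ≤ k := hk l (by simp)
    have o : i < j ∧ j < l := by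
      simp only [List.pairwise_cons, List.mem_cons, forall_eq_or_imp] at pw
      exact ⟨pw.1.1, pw.2.1.1⟩
    obtain ⟨U, hU, h1, h2, sp⟩ := open_span P nc hs (by omega) hl c₁ m₁
    exact hg U ⟨h1, h2, i, j, l, o.1, o.2, hl, sp,
      exit_of P (by omega) (s2.subset (by simp)) c₂' m₂ (d.mono_left hU)⟩
  | i :: j :: l :: n :: t, e, pw, hk =>
    simp only [List.map_cons, List.cons_append, List.cons.injEq] at e
    obtain ⟨rfl, rfl, rfl, rfl, -⟩ := e
    have hn : n ≤ k := hk n (by simp)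
    have o : i < j ∧ j < l ∧ l < n := by
      simp only [List.pairwise_cons, List.mem_cons, forall_eq_or_imp] at pw
      exact ⟨pw.1.1, pw.2.1.1, pw.2.2.1.1⟩
    obtain ⟨U, hU, h1, h2, sp⟩ := open_span P nc hs (by omega) (by omega) c₁ m₁
    obtain ⟨U', hU', h1', h2', sp'⟩ := open_span P nc hs (by omega) hn c₂ m₂
    have dU : Disjoint U U' := d.mono hU hU'
    obtain ⟨w, hw⟩ := sp.1.1
    obtain ⟨m, hm, r⟩ := P.KK_reach (h1 hw)
    obtain ⟨a, ha, r', -⟩ := first_hit (A := U ∪ U') r (mem_union_left _ hw)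
    rcases mem_union.1 ha with ha | ha
    · rw [union_comm] at r'
      exact hg U' ⟨h1', h2', j, l, n, o.2.1, o.2.2, hn, sp',
        exit_hit hm ha h1 sp.1 dU.symm sp.2.2 r'⟩
    · exact hg U ⟨h1, h2, i, j, l, o.1, o.2.1, by omega, sp,
        exit_hit hm ha h1' sp'.1 dU sp'.2.1 r'⟩

end Pool.Agent.MP_e6539c_co.C5
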