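import Mathlib.GroupTheory.GroupAction.Ring
import Pool.Agent.MP_e6539c_co.C5.Basic

/-! Peeling a face off the frame, the base case and the pendant edge. -/

set_option autoImplicit false

namespace Pool.Agent.MP_e6539c_co.C5

open Finset
open Pool.Agent.MP_7be75d_co (R Conn comp)
open Pool.Agent.MP_7be75d_co
open scoped Classical

namespace Peel

variable {V : Type} {H : SimpleGraph V} {L : List V}

theorem del_adj {a b u v : V} :
    (H.deleteEdges {s(a, b)}).Adj u v ↔ H.Adj u v ∧ s(u, v) ≠ s(a, b) := by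
  simp only [SimpleGraph.deleteEdges_adj, Set.mem_singleton_iff, ne_eq]

theorem chain_or {P : V → Prop} (b : V) : ∀ (N : List V) (a : V), (P a ∨ N ≠ []) →
    (∀ x ∈ N, P x) → (a :: (N ++ [b])).IsChain fun x y => P x ∨ P y
  | [], a, h, _ => by simpa using Or.inl (h.resolve_right (by simp))
  | n :: N, a, _, h => by
    rw [List.cons_append, List.isChain_cons_cons]
    exact ⟨Or.inr (h n (by simp)),
      chain_or b N n (Or.inl (h n (by simp))) fun x hx => h x (by simp [hx])⟩

theorem fr_succ (nd : L.Nodup) {a b c : V} (h : Fr L a b) (h' : Fr L a c) : b = c := by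
  have ha := h.left
  obtain ⟨M, r⟩ := h
  obtain ⟨M', r'⟩ := h'
  have e := List.isRotated_next_eq r nd ha
  have e' := List.isRotated_next_eq r' nd ha
  rw [List.next_cons_cons_eq] at e e'
  exact e.symm.trans e'

theorem fr_ne (nd : L.Nodup) {a b : V} (h : Fr L a b) : b ≠ a := by
  obtain ⟨M, r⟩ := h
  have := r.nodup_iff.1 nd
  rintro rfl
  simp at this

theorem fr_pred (nd : L.Nodup) {a b c : V} (h : Fr L a c) (h' : Fr L b c) : a = b := by
  have hc := h.right
  have n1 := fr_ne nd h
  have n2 := fr_ne nd h'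
  obtain ⟨M, r⟩ := h
  obtain ⟨M', r'⟩ := h'
  have e := List.isRotated_prev_eq r nd hc
  have e' := List.isRotated_prev_eq r' nd hc
  rw [List.prev_cons_cons_of_ne _ _ _ _ n1] at e
  rw [List.prev_cons_cons_of_ne _ _ _ _ n2] at e'
  exact e.symm.trans e'

variable [Fintype V]

/-- A nonzero even vector of a cycle contains every edge. -/
theorem full (hf : Frame H L) (hall : ∀ u v, H.Adj u v → Fr L u v ∨ Fr L v u) {x : Vec V}
    (hx : Ev H x) (h0 : x ≠ 0) {u v : V} (h : Fr L u v) : x s(u, v) ≠ 0 := by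
  have step : ∀ a b c, Fr L a b → Fr L b c → x s(a, b) ≠ 0 → x s(b, c) ≠ 0 := by
    intro a b c h1 h2 h3
    obtain ⟨w, w1, w2⟩ := second_edge (hx.2 b) (v := a) (by rwa [Sym2.eq_swap])
    rcases hall _ _ (hx.1 _ _ w2) with k | k
    · rwa [fr_succ hf.nd h2 k]
    · exact absurd (fr_pred hf.nd k h1) w1
  obtain ⟨a, b, hab, hx0⟩ : ∃ a b, Fr L a b ∧ x s(a, b) ≠ 0 := by
    obtain ⟨e, he⟩ := Function.ne_iff.1 h0
    induction e using Sym2.ind with
    | _ a b =>
      rcases hall a b (hx.1 a b he) with k | k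
      · exact ⟨a, b, k, he⟩
      · exact ⟨b, a, k, by rwa [Sym2.eq_swap]⟩
  obtain ⟨M, r⟩ := hab
  have key : ∀ n u v N, (a :: b :: M).rotate n = u :: v :: N → x s(u, v) ≠ 0 := by
    intro n
    induction n with
    | zero =>
      intro u v N e
      simp only [List.rotate_zero, List.cons.injEq] at e
      rw [← e.1, ← e.2.1]
      exact hx0
    | succ n ih =>
      intro u v N e
      have r1 : L ~r u :: v :: N := r.trans ⟨n + 1, e⟩
      rw [← List.rotate_rotate] at e
      have hl : 2 ≤ ((a :: b :: M).rotate n).length := by simp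
      have r2 : L ~r (a :: b :: M).rotate n := r.trans ⟨n, rfl⟩
      match hm : (a :: b :: M).rotate n, hl with
      | u' :: u'' :: N', _ =>
        rw [hm] at e r2
        have e1 : u'' = u := by
          simp only [List.rotate_cons_succ, List.rotate_zero, List.cons_append,
            List.cons.injEq] at e
          exact e.1
        subst e1
        exact step u' _ v ⟨_, r2⟩ ⟨_, r1⟩ (ih _ _ _ hm)
  obtain ⟨N, r'⟩ := h
  obtain ⟨n, e⟩ := r.symm.trans r'
  exact key n u v N e

theorem base1 (hf : Frame H L) (hall : ∀ u v, H.Adj u v → Fr L u v ∨ Fr L v u) :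
    ∃ F, Basis H L F := by
  have hone : ∀ x, Ev H x → x ≠ 0 → ∀ u v, H.Adj u v → x s(u, v) = 1 := by
    intro x hx h0 u v a
    rcases hall u v a with k | k
    · exact z2_ne.1 (full hf hall hx h0 k)
    · rw [Sym2.eq_swap]
      exact z2_ne.1 (full hf hall hx h0 k)
  have hc : ∀ e, cov (univ.filter fun x : Vec V => Ev H x ∧ x ≠ 0) e ≤ 1 := by
    intro e
    refine (card_filter_le _ _).trans (card_le_one.2 fun x hx y hy => ?_)
    rw [mem_filter] at hx hy
    funext e
    induction e using Sym2.ind with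
    | _ u v =>
      by_cases a : H.Adj u v
      · rw [hone x hx.2.1 hx.2.2 u v a, hone y hy.2.1 hy.2.2 u v a]
      · rw [not_not.1 fun c => a (hx.2.1.1 u v c), not_not.1 fun c => a (hy.2.1.1 u v c)]
  refine ⟨_, fun f hf => (mem_filter.1 hf).2.1, fun e => (hc e).trans (by omega),
    fun _ _ _ => hc _, fun x hx => ?_⟩
  by_cases h0 : x = 0
  · rw [h0]
    exact Submodule.zero_mem _
  · exact Submodule.subset_span (by simp [hx, h0])

theorem base2 (hf : Frame H L) {v p : V} (hv : v ∉ L) (hp : ∀ w, H.Adj v w ↔ w = p)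
    (hc : ¬ Cross H L) (hfc : FC H L) (ih : TPih H) : ∃ F, Basis H L F := by
  have hle : H.deleteEdges {s(v, p)} ≤ H := SimpleGraph.deleteEdges_le _
  have hiso : ∀ w, ¬ (H.deleteEdges {s(v, p)}).Adj v w := fun w a => by
    obtain ⟨a1, a2⟩ := del_adj.1 a
    exact a2 (by rw [(hp w).1 a1])
  obtain ⟨F, hF⟩ := ih (H.deleteEdges {s(v, p)}) L (ncard_lt hle ((hp p).2 rfl) (hiso p))
    ⟨hf.nd, hf.len, fun x y h => del_adj.2 ⟨hf.adj x y h, fun e => by
      rcases Sym2.eq_iff.1 e with ⟨e, -⟩ | ⟨-, e⟩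
      · exact hv (e ▸ h.left)
      · exact hv (e ▸ h.right)⟩⟩ (fun c => hc (c.mono hle)) (by
    intro Z y₁ y₂ y₃ hz hb x hx hs
    have hx' : Ev H x := hx.mono fun _ _ _ a => hle a
    by_cases hpz : p ∈ Z
    · refine hfc (insert v Z) y₁ y₂ y₃ (fun z m => ?_) (fun z m w a => ?_) x hx' fun a b c => ?_
      · rcases mem_insert.1 m with rfl | m
        exacts [hv, hz z m]
      · by_cases e : s(z, w) = s(v, p)
        · rcases Sym2.eq_iff.1 e with ⟨-, e⟩ | ⟨-, e⟩
          · exact Or.inl (e ▸ mem_insert_of_mem hpz)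
          · exact Or.inl (e ▸ mem_insert_self _ _)
        · rcases mem_insert.1 m with rfl | m
          · exact absurd (del_adj.2 ⟨a, e⟩) (hiso w)
          · exact (hb z m w (del_adj.2 ⟨a, e⟩)).imp_left mem_insert_of_mem
      · exact (hs a b c).imp mem_insert_of_mem mem_insert_of_mem
    · refine hfc (Z.erase v) y₁ y₂ y₃ (fun z m => hz z (mem_of_mem_erase m))
        (fun z m w a => ?_) x hx' fun a b c => ?_
      · obtain ⟨m1, m2⟩ := mem_erase.1 m
        have a' : (H.deleteEdges {s(v, p)}).Adj z w := del_adj.2 ⟨a, fun e => by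
          rcases Sym2.eq_iff.1 e with ⟨e, -⟩ | ⟨e, -⟩
          · exact m1 e
          · exact hpz (e ▸ m2)⟩
        refine (hb z m2 w a').imp_left fun k => mem_erase.2 ⟨fun e => ?_, k⟩
        exact hiso z (e ▸ a'.symm)
      · have a' := hx.1 a b c
        exact (hs a b c).imp (fun k => mem_erase.2 ⟨fun e => hiso b (e ▸ a'), k⟩)
          fun k => mem_erase.2 ⟨fun e => hiso a (e ▸ a'.symm), k⟩)
  refine ⟨F, fun f m => (hF.ev f m).mono fun _ _ _ a => hle a, hF.two, hF.one, fun x hx => ?_⟩
  refine hF.span x (hx.mono fun a b c d => del_adj.2 ⟨d, fun e => ?_⟩)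
  obtain ⟨w, w1, w2⟩ := second_edge (hx.2 v) (v := p) (e ▸ c)
  exact w1 ((hp w).1 (hx.1 _ _ w2))

variable {M : List V} {k : ℕ} {q : ℕ → V}

omit [Fintype V] in
theorem path_ne (h : PQ H M k q) {t : ℕ} (ht : t < k) : s(q t, q (t + 1)) ≠ s(q 0, q k) := by
  intro e
  have := h.two
  rcases Sym2.eq_iff.1 e with ⟨e1, e2⟩ | ⟨e1, -⟩
  · have := h.inj _ ht.le _ (Nat.zero_le _) e1
    have := h.inj _ ht _ le_rfl e2
    omega
  · have := h.inj _ ht.le _ le_rfl e1
    omega

omit [Fintype V] in
theorem new_eq (h : PQ H M k q) : q k :: (M ++ (List.range k).map q) =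
    (q k :: (M ++ [q 0])) ++ (List.range (k - 1)).map fun i => q (i + 1) := by
  obtain ⟨j, rfl⟩ : ∃ j, k = j + 1 := ⟨k - 1, by have := h.two; omega⟩
  simp [List.range_succ_eq_map, Function.comp_def]

omit [Fintype V] in
theorem fr_path {t : ℕ} (ht : t < k) :
    Fr (q k :: (M ++ (List.range k).map q)) (q t) (q (t + 1)) := by
  have r : (q k :: (M ++ (List.range k).map q)) ~r ((List.range (k + 1)).map q ++ M) := by
    refine rot_iff.2 ⟨q k :: M, (List.range k).map q, by simp, ?_⟩
    simp [List.range_succ]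
  refine Fr.rot ?_ r.symm
  obtain ⟨d, rfl⟩ : ∃ d, k = t + 1 + d := ⟨k - (t + 1), by omega⟩
  refine fr_iff.2 (Or.inl ⟨(List.range t).map q,
    (List.range d).map (fun i => q (t + (i + 2))) ++ M, ?_⟩)
  rw [show t + 1 + d + 1 = t + (d + 1 + 1) by omega, List.range_add]
  simp [List.range_succ_eq_map, Function.comp_def]

omit [Fintype V] in
theorem frame_new (h : PQ H M k q) :
    Frame (H.deleteEdges {s(q 0, q k)}) (q k :: (M ++ (List.range k).map q)) := by
  have h2 := h.two
  have nd0 := h.fr.nd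
  have nd : (q k :: (M ++ (List.range k).map q)).Nodup := by
    rw [List.nodup_cons, List.nodup_append]
    refine ⟨fun c => ?_, ?_, ?_, fun a ha b hb e => ?_⟩
    · rcases List.mem_append.1 c with c | c
      · exact h.off k le_rfl c
      · obtain ⟨i, hi, e⟩ := List.mem_map.1 c
        have hi := List.mem_range.1 hi
        have := h.inj _ hi.le _ le_rfl e
        omega
    · exact (List.nodup_append.1 (List.nodup_cons.1 nd0).2).1
    · exact List.Nodup.map_on (fun a ha b hb e => h.inj _ (List.mem_range.1 ha).le _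
        (List.mem_range.1 hb).le e) List.nodup_range
    · obtain ⟨i, hi, rfl⟩ := List.mem_map.1 hb
      exact h.off i (List.mem_range.1 hi).le (e ▸ ha)
  have c1 : (q k :: (M ++ [q 0])).IsChain (H.deleteEdges {s(q 0, q k)}).Adj := by
    have a1 := h.fr.chain
    have a2 := chain_or (P := (· ∈ M)) (q 0) M (q k) (Or.inr h.M_ne) fun _ hx => hx
    rw [List.isChain_iff_forall_rel_of_append_cons_cons] at a1 a2 ⊢
    intro a b l₁ l₂ e
    refine del_adj.2 ⟨a1 e, fun c => ?_⟩
    have := a2 e
    rcases Sym2.eq_iff.1 c with ⟨rfl, rfl⟩ | ⟨rfl, rfl⟩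
    · exact this.elim (h.off _ (Nat.zero_le _)) (h.off _ le_rfl)
    · exact this.elim (h.off _ le_rfl) (h.off _ (Nat.zero_le _))
  have c2 : ((List.range k).map q).IsChain (H.deleteEdges {s(q 0, q k)}).Adj := by
    rw [List.isChain_map, List.isChain_range]
    exact fun m hm => del_adj.2 ⟨h.adj m (by omega), path_ne h (by omega)⟩
  obtain ⟨j, rfl⟩ : ∃ j, k = j + 1 := ⟨k - 1, by omega⟩
  have ch : (q (j + 1) :: (M ++ (List.range (j + 1)).map q)).IsChain
      (H.deleteEdges {s(q 0, q (j + 1))}).Adj := by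
    rw [List.range_succ_eq_map, List.map_cons] at c2 ⊢
    rw [← List.cons_append, List.isChain_split]
    exact ⟨c1, c2⟩
  rw [List.range_succ, List.map_append, ← List.append_assoc] at nd ch ⊢
  exact frame_of nd (by simp [h.M_ne]) ch (del_adj.2 ⟨h.adj j (by omega), path_ne h (by omega)⟩)

theorem peel' (h : PQ H M k q) (hfc : FC H (q k :: (M ++ [q 0])))
    (hc : ¬ Cross (H.deleteEdges {s(q 0, q k)}) (q k :: (M ++ (List.range k).map q)))
    (ih : TPih H) : ∃ F, Basis H (q k :: (M ++ [q 0])) F := by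
  have h2 := h.two
  have hle : H.deleteEdges {s(q 0, q k)} ≤ H := SimpleGraph.deleteEdges_le _
  have a0 : H.Adj (q 0) (q k) := h.fr.adj _ _ (fr_iff.2 (Or.inr ⟨M, rfl⟩))
  have sub : ∀ z ∈ q k :: (M ++ [q 0]), z ∈ q k :: (M ++ (List.range k).map q) := fun z m => by
    rw [new_eq h]
    exact List.mem_append_left _ m
  obtain ⟨F, hF⟩ := ih _ _ (ncard_lt hle a0 fun c => (del_adj.1 c).2 rfl) (frame_new h) hc (by
    intro Z y₁ y₂ y₃ hz hb x hx hs
    refine hfc Z y₁ y₂ y₃ (fun z m c => hz z m (sub z c)) (fun z m w a => ?_) x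
      (hx.mono fun _ _ _ a => hle a) hs
    refine hb z m w (del_adj.2 ⟨a, fun e => hz z m (sub z ?_)⟩)
    rcases Sym2.eq_iff.1 e with ⟨e, -⟩ | ⟨e, -⟩ <;> simp [e])
  set φ : Vec V := pv q 0 k + ed (q 0) (q k) with hφ
  have supp : ∀ e, φ e ≠ 0 → (∃ t < k, e = s(q t, q (t + 1))) ∨ e = s(q 0, q k) := by
    intro e he
    by_cases c : e = s(q 0, q k)
    · exact Or.inr c
    · obtain ⟨t, -, a, b⟩ := pv_supp (f := q) (i := 0) (j := k) (e := e)
        (by simpa [hφ, ed, c] using he)
      exact Or.inl ⟨t, a, b⟩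
  have φe : φ s(q 0, q k) = 1 := by
    have : pv q 0 k s(q 0, q k) = 0 := by
      by_contra c
      obtain ⟨t, -, a, b⟩ := pv_supp c
      exact path_ne h a b.symm
    simp [hφ, ed, this]
  have φev : Ev H φ := by
    refine ⟨fun u v c => ?_, fun v => ?_⟩
    · rw [← SimpleGraph.mem_edgeSet]
      rcases supp _ c with ⟨t, a, e⟩ | e
      · rw [e]
        exact h.adj t a
      · rw [e]
        exact a0
    · rw [hφ, par_add, par_pv (Nat.zero_le k) (fun t _ a => (h.adj t a).ne), par_ed a0.ne,
        CharTwo.add_self_eq_zero]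
  have c0 : cov F s(q 0, q k) = 0 := cov_eq_zero fun f m => by
    by_contra c
    exact (del_adj.1 ((hF.ev f m).1 _ _ c)).2 rfl
  have ci : ∀ e, cov (F ∪ {φ}) e ≤ cov F e + if φ e = 0 then 0 else 1 := fun e => by
    unfold cov
    rw [filter_union, filter_singleton]
    refine (card_union_le _ _).trans ?_
    by_cases c : φ e = 0 <;> simp [c]
  refine ⟨F ∪ {φ}, fun f m => ?_, fun e => ?_, fun x y f => ?_, fun x hx => ?_⟩
  · rw [mem_union, mem_singleton, or_comm] at m
    rcases m with rfl | m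
    exacts [φev, (hF.ev f m).mono fun _ _ _ a => hle a]
  · refine (ci _).trans ?_
    split_ifs with c
    · exact hF.two e
    · rcases supp e c with ⟨t, a, rfl⟩ | rfl
      · have := hF.one _ _ (fr_path a)
        omega
      · omega
  · refine (ci _).trans ?_
    by_cases e : s(x, y) = s(q 0, q k)
    · rw [e, c0]
      split_ifs <;> omega
    · have z : φ s(x, y) = 0 := by
        by_contra c
        rcases supp _ c with ⟨t, a, b⟩ | b
        · have key : ∀ i ≤ k, q i ∈ q k :: (M ++ [q 0]) → i = k ∨ i = 0 := by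
            intro i hi m
            simp only [List.mem_cons, List.mem_append, List.not_mem_nil, or_false] at m
            rcases m with m | m | m
            · exact Or.inl (h.inj _ hi _ le_rfl m)
            · exact absurd m (h.off i hi)
            · exact Or.inr (h.inj _ hi _ (Nat.zero_le _) m)
          have m1 := f.left
          have m2 := f.right
          rcases Sym2.eq_iff.1 b with ⟨rfl, rfl⟩ | ⟨rfl, rfl⟩
          · have := key _ a.le m1
            have := key _ a m2
            omega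
          · have := key _ a.le m2
            have := key _ a m1
            omega
        · exact e b
      rw [if_pos z, add_zero]
      refine hF.one x y ?_
      rcases fr_iff.1 f with ⟨A, B, e'⟩ | ⟨N, e'⟩
      · refine fr_iff.2 (Or.inl ⟨A, B ++ (List.range (k - 1)).map fun i => q (i + 1), ?_⟩)
        rw [new_eq h, e']
        simp
      · exfalso
        apply e
        rw [List.cons.injEq] at e'
        have := (List.append_inj' e'.2 rfl).2
        rw [List.cons.injEq] at this
        rw [← e'.1, ← this.1]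
  · have hs : Ev H (x s(q 0, q k) • φ) := by
      refine ⟨fun u v c => φev.1 u v fun z => c (by simp [z]), fun v => ?_⟩
      rw [par_smul, φev.2, mul_zero]
    have hy : Ev (H.deleteEdges {s(q 0, q k)}) (x + x s(q 0, q k) • φ) :=
      (hx.add hs).mono fun u v c a => del_adj.2 ⟨a, fun e => c (by
        rw [e]
        simp [φe, CharTwo.add_self_eq_zero])⟩
    have e : x = (x + x s(q 0, q k) • φ) + x s(q 0, q k) • φ := by
      rw [add_assoc, z2_add_self, add_zero]
    rw [e]
    refine Submodule.add_mem _ (Submodule.span_mono (by simp) (hF.span _ hy))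
      (Submodule.smul_mem _ _ (Submodule.subset_span (by simp)))

end Peel

theorem peel : PeelStmt := fun _ _ _ _ _ _ h hfc hc ih => Peel.peel' h hfc hc ih

theorem base : BaseStmt := fun _ _ _ _ hf =>
  ⟨Peel.base1 hf, fun _ hv _ hp hc hfc ih => Peel.base2 hf hv hp hc hfc ih⟩

end Pool.Agent.MP_e6539c_co.C5
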