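import Pool.Agent.MP_e6539c_co.C5.Basic

/-! Pruning the trees that hang on the core and the final count. -/

set_option autoImplicit false

namespace Pool.Agent.MP_e6539c_co.C5

open Finset
open Pool.Agent.MP_7be75d_co (R Conn comp)
open Pool.Agent.MP_7be75d_co
open scoped Classical

namespace Prune

/-! ### Lists -/

def B1 : List (List ℕ) :=
  [[0], [1, 2], [1, 3, 4], [2, 2, 3], [1, 3, 5, 6], [1, 4, 4, 5], [2, 2, 4, 5], [2, 3, 3, 4]]

def B2 : List (List ℕ) :=
  [[0, 1], [0, 2, 3], [1, 1, 2], [0, 2, 4, 5], [0, 3, 3, 4], [1, 1, 3, 4], [1, 2, 2, 3]]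

def sh (T : List ℕ) : List ℕ := T.map (· + 1)

def ins (a : ℕ) : List ℕ → List ℕ
  | [] => [a]
  | b :: l => bif Nat.ble a b then a :: b :: l else b :: ins a l

def srt : List ℕ → List ℕ
  | [] => []
  | a :: l => ins a (srt l)

def le2 : List ℕ → List ℕ → Bool
  | _, [] => true
  | [], _ :: _ => false
  | a :: k, b :: M => Nat.ble a b && le2 k M

/-- The list `k` is too long or dominates a member of `tar`. -/
def good (k : List ℕ) (tar : List (List ℕ)) : Bool :=
  Nat.ble 5 k.length || tar.any fun M => le2 (srt k) M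

def cut (T U : List ℕ) (θ : ℕ) : List ℕ :=
  T.filter (fun a => Nat.ble a θ) ++ U.filter (fun b => Nat.ble (b + θ) 8)

def comb (T U : List ℕ) (tar : List (List ℕ)) : Bool :=
  (List.range 10).any fun θ => good (cut T U θ) tar

def val (T : List ℕ) : ℕ := (T.map fun d => 9 - 2 * d).sum

theorem ins_perm (a : ℕ) : ∀ l : List ℕ, (a :: l).Perm (ins a l)
  | [] => List.Perm.refl _
  | b :: l => by
    unfold ins
    cases Nat.ble a b
    · exact (List.Perm.swap _ _ _).trans ((ins_perm a l).cons b)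
    · exact List.Perm.refl _

theorem srt_perm : ∀ l : List ℕ, l.Perm (srt l)
  | [] => List.Perm.refl _
  | a :: l => ((srt_perm l).cons a).trans (ins_perm a _)

theorem le2_spec : ∀ (k M : List ℕ), le2 k M = true →
    ∃ k', List.Sublist k' k ∧ List.Forall₂ (· ≤ ·) k' M
  | _, [], _ => ⟨[], List.nil_sublist _, List.Forall₂.nil⟩
  | [], _ :: _, h => by simp [le2] at h
  | a :: k, b :: M, h => by
    simp only [le2, Bool.and_eq_true, Nat.ble_eq] at h
    obtain ⟨k', h1, h2⟩ := le2_spec k M h.2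
    exact ⟨a :: k', h1.cons_cons a, List.Forall₂.cons h.1 h2⟩

theorem chk21 : B2.all (fun T => good (sh T) B1) = true := by decide +kernel

theorem chk11 : B1.all (fun T => B1.all fun U => comb (sh T) (sh U) B1) = true := by
  decide +kernel

theorem chk12 : B1.all (fun T => B2.all fun U => comb (sh T) (sh U) B2) = true := by
  decide +kernel

theorem chk21' : B2.all (fun T => B1.all fun U => comb (sh T) (sh U) B2) = true := by
  decide +kernel

theorem chk22 : B2.all (fun T => B2.all fun U => comb (sh T) (sh U) B2) = true := by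
  decide +kernel

theorem chk01 : B1.all (fun U => comb [0] (sh U) B2) = true := by decide +kernel

theorem chk02 : B2.all (fun U => comb [0] (sh U) B2) = true := by decide +kernel

theorem val1 : B1.all (fun T => Nat.ble 5 (val (sh T))) = true := by decide +kernel

theorem val2 : B2.all (fun T => Nat.ble 9 (val (sh T))) = true := by decide +kernel

/-! ### Lists of marks -/

variable {V : Type} {G : SimpleGraph V} {C X A A' : Finset V} {u v : V} {T U : List ℕ}
  {tar : List (List ℕ)}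

theorem of_good (hX : X.card ≤ 4) (h : RT G C A X v T) (g : good T tar = true) :
    ∃ M ∈ tar, RT G C A X v M := by
  simp only [good, Bool.or_eq_true, Nat.ble_eq, List.any_eq_true] at g
  rcases g with g | ⟨M, hM, g⟩
  · have := h.card
    omega
  · obtain ⟨k', h1, h2⟩ := le2_spec _ _ g
    exact ⟨M, hM, ((h.perm (srt_perm T)).sublist h1).weaken h2⟩

theorem of_comb (hG : Gi G) (hd : Disjoint X C) (hX : X.card ≤ 4) (hA : Disjoint A A')
    (h : RT G C A X v T) (h' : RT G C A' X v U) (g : comb T U tar = true) :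
    ∃ M ∈ tar, RT G C (A ∪ A') X v M := by
  simp only [comb, List.any_eq_true] at g
  obtain ⟨θ, -, g⟩ := g
  refine of_good hX (RT.append hG hd hA (h.sublist List.filter_sublist)
    (h'.sublist List.filter_sublist) fun a ha b hb => ?_) g
  have h1 := (List.mem_filter.1 ha).2
  have h2 := (List.mem_filter.1 hb).2
  rw [Nat.ble_eq] at h1 h2
  omega

/-- The depth function of a list of marks. -/
theorem depth (h : RT G C A X v T) : ∃ D : V → ℕ,
    (∀ x, D x < 10 → ∃ w ∈ A, G.Adj x w ∧ Wk G C w v (D x)) ∧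
      val T ≤ ∑ x ∈ X, (9 - 2 * D x) := by
  obtain ⟨M, rfl, h2, h3⟩ := h
  suffices h : ∃ D : V → ℕ, (∀ x, x ∉ M.map Prod.fst → D x = 10) ∧
      (∀ x, D x < 10 → ∃ w ∈ A, G.Adj x w ∧ Wk G C w v (D x)) ∧
      val (M.map Prod.snd) ≤ ∑ x ∈ X, (9 - 2 * D x) by
    obtain ⟨D, -, h⟩ := h
    exact ⟨D, h⟩
  induction M with
  | nil => exact ⟨fun _ => 10, fun _ _ => rfl, fun _ h => absurd h (lt_irrefl _), by simp [val]⟩
  | cons p M ih =>
    rw [List.map_cons, List.nodup_cons] at h2
    obtain ⟨D, d1, d2, d3⟩ := ih h2.2 fun q hq => h3 q (List.mem_cons_of_mem _ hq)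
    obtain ⟨hp, hw⟩ := h3 p (by simp)
    refine ⟨Function.update D p.1 p.2, fun x hx => ?_, fun x hx => ?_, ?_⟩
    · rw [List.map_cons, List.mem_cons, not_or] at hx
      rw [Function.update_of_ne hx.1, d1 x hx.2]
    · by_cases e : x = p.1
      · subst e
        rw [Function.update_self]
        exact hw
      · rw [Function.update_of_ne e] at hx ⊢
        exact d2 x hx
    · rw [← add_sum_erase X _ hp] at d3 ⊢
      rw [d1 _ h2.1] at d3
      rw [Function.update_self, sum_congr rfl fun x hx => by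
        rw [Function.update_of_ne (ne_of_mem_erase hx)]]
      simp only [val, List.map_cons, List.sum_cons] at d3 ⊢
      omega

/-! ### The invariant -/

def Q2 (G : SimpleGraph V) (C X A : Finset V) (v : V) (b : ℕ) : Prop :=
  3 ≤ b ∨ (2 ≤ b ∧ ∃ T ∈ B1, RT G C A X v T) ∨ ∃ T ∈ B2, RT G C A X v T

def Q1 (G : SimpleGraph V) (C X A : Finset V) (v : V) (b : ℕ) : Prop :=
  2 ≤ b ∨ (1 ≤ b ∧ ∃ T ∈ B1, RT G C A X v (sh T)) ∨ RT G C A X v [0] ∨
    ∃ T ∈ B2, RT G C A X v (sh T)

theorem q1_child {b c : ℕ} (h : Q2 G C X A' u c) (a : G.Adj u v) (hv : v ∈ C) :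
    Q1 G C X (A ∪ A') v (b + (c - 1)) := by
  rcases h with h | ⟨h, T, hT, r⟩ | ⟨T, hT, r⟩
  · exact Or.inl (by omega)
  · exact Or.inr (Or.inl ⟨by omega, T, hT, (r.shift a hv).mono subset_union_right⟩)
  · exact Or.inr (Or.inr (Or.inr ⟨T, hT, (r.shift a hv).mono subset_union_right⟩))

theorem q2_merge (hG : Gi G) (hd : Disjoint X C) (hX : X.card ≤ 4) (hA : Disjoint A A')
    {b c : ℕ} (h1 : Q1 G C X A v b) (h : Q2 G C X A' u c) (a : G.Adj u v) (hv : v ∈ C) :
    Q2 G C X (A ∪ A') v (b + (c - 1)) := by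
  have c21 := List.all_eq_true.1 chk21
  rcases h1 with h1 | ⟨h1, T, hT, r⟩ | r | ⟨T, hT, r⟩ <;>
    rcases h with h | ⟨h, U, hU, s⟩ | ⟨U, hU, s⟩
  · exact Or.inl (by omega)
  · exact Or.inl (by omega)
  · exact Or.inr (Or.inl ⟨by omega,
      of_good hX ((s.shift a hv).mono subset_union_right) (c21 U hU)⟩)
  · exact Or.inl (by omega)
  · exact Or.inr (Or.inl ⟨by omega, of_comb hG hd hX hA r (s.shift a hv)
      (List.all_eq_true.1 (List.all_eq_true.1 chk11 T hT) U hU)⟩)
  · exact Or.inr (Or.inr (of_comb hG hd hX hA r (s.shift a hv)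
      (List.all_eq_true.1 (List.all_eq_true.1 chk12 T hT) U hU)))
  · exact Or.inr (Or.inl ⟨by omega, [0], by simp [B1], r.mono subset_union_left⟩)
  · exact Or.inr (Or.inr (of_comb hG hd hX hA r (s.shift a hv)
      (List.all_eq_true.1 chk01 U hU)))
  · exact Or.inr (Or.inr (of_comb hG hd hX hA r (s.shift a hv)
      (List.all_eq_true.1 chk02 U hU)))
  · exact Or.inr (Or.inl ⟨by omega, of_good hX (r.mono subset_union_left) (c21 T hT)⟩)
  · exact Or.inr (Or.inr (of_comb hG hd hX hA r (s.shift a hv)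
      (List.all_eq_true.1 (List.all_eq_true.1 chk21' T hT) U hU)))
  · exact Or.inr (Or.inr (of_comb hG hd hX hA r (s.shift a hv)
      (List.all_eq_true.1 (List.all_eq_true.1 chk22 T hT) U hU)))

structure Inv (G : SimpleGraph V) (C X W : Finset V) (β : V → ℕ) (A : V → Finset V) : Prop where
  sub : W ⊆ C
  cyc : Cyc G W
  disj : ∀ u ∈ W, ∀ v ∈ W, u ≠ v → Disjoint (A u) (A v)
  ineq : ∀ S ⊆ W, ∑ v ∈ S, (9 * dg G S v + 4 * β v) ≤ 22 * S.card + 2
  q1 : ∀ v ∈ W, dg G W v ≤ 2 → Q1 G C X (A v) v (β v)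
  q2 : ∀ v ∈ W, dg G W v ≤ 1 → Q2 G C X (A v) v (β v)

theorem init {k : V → ℕ} (hc : Cyc G C) (h3 : ∀ v ∈ C, 3 ≤ dg G C v + k v + dg G X v)
    (hS : ∀ S ⊆ C, ∑ v ∈ S, (9 * dg G S v + 4 * min 3 (2 * k v)) ≤ 22 * S.card + 2) :
    Inv G C X C (fun v => min 3 (2 * k v)) (fun v => {v}) := by
  have r1 : ∀ v ∈ C, 1 ≤ dg G X v → RT G C {v} X v [0] := fun v hv h =>
    (RT.init hv).sublist ((List.replicate_sublist_replicate 0).2 h)
  have r2 : ∀ v ∈ C, 2 ≤ dg G X v → RT G C {v} X v [0, 1] := fun v hv h =>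
    ((RT.init hv).sublist ((List.replicate_sublist_replicate 0).2 h)).weaken
      (List.Forall₂.cons le_rfl (List.Forall₂.cons zero_le_one List.Forall₂.nil))
  refine ⟨subset_rfl, hc, fun u _ v _ h => disjoint_singleton.2 h, hS, fun v hv h => ?_,
    fun v hv h => ?_⟩
  · have := h3 v hv
    by_cases hk : 1 ≤ k v
    · exact Or.inl (by omega)
    · exact Or.inr (Or.inr (Or.inl (r1 v hv (by omega))))
  · have := h3 v hv
    by_cases hk : 2 ≤ k v
    · exact Or.inl (by omega)
    · by_cases hk' : 1 ≤ k v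
      · exact Or.inr (Or.inl ⟨by omega, [0], by simp [B1], r1 v hv (by omega)⟩)
      · exact Or.inr (Or.inr ⟨[0, 1], by simp [B2], r2 v hv (by omega)⟩)

variable {W : Finset V} {β : V → ℕ} {F : V → Finset V}

theorem step0 (h : Inv G C X W β F) (hu : u ∈ W) (hd : dg G W u ≤ 1)
    (hn : ∀ v ∈ W, ¬ G.Adj v u) : Inv G C X (W.erase u) β F := by
  have e : ∀ v ∈ W.erase u, dg G W v = dg G (W.erase u) v := fun v hv => by
    rw [dg_erase hu, if_neg (hn v (mem_of_mem_erase hv)), add_zero]
  exact ⟨(erase_subset _ _).trans h.sub, h.cyc.erase hd,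
    fun a ha b hb => h.disj a (mem_of_mem_erase ha) b (mem_of_mem_erase hb),
    fun S hS => h.ineq S (hS.trans (erase_subset _ _)),
    fun v hv c => h.q1 v (mem_of_mem_erase hv) (e v hv ▸ c),
    fun v hv c => h.q2 v (mem_of_mem_erase hv) (e v hv ▸ c)⟩

theorem ineq_step (h : Inv G C X W β F) (hu : u ∈ W) (a : G.Adj v u) {S : Finset V}
    (hS : S ⊆ W.erase u) :
    ∑ w ∈ S, (9 * dg G S w + 4 * Function.update β v (β v + (β u - 1)) w) ≤ 22 * S.card + 2 := by
  have hSW : S ⊆ W := hS.trans (erase_subset _ _)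
  have h0 := h.ineq S hSW
  by_cases hv : v ∈ S
  · have huS : u ∉ S := fun c => by simpa using hS c
    have h1 := h.ineq (insert u S) (insert_subset hu hSW)
    rw [sum_insert huS, card_insert_of_notMem huS] at h1
    have d1 : 1 ≤ dg G (insert u S) u :=
      card_pos.2 ⟨v, mem_filter.2 ⟨mem_insert_of_mem hv, a.symm⟩⟩
    have d2 : dg G (insert u S) v = dg G S v + 1 := by
      rw [dg_erase (mem_insert_self u S), erase_insert huS, if_pos a]
    have d3 : ∑ w ∈ S.erase v, (9 * dg G S w + 4 * β w) ≤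
        ∑ w ∈ S.erase v, (9 * dg G (insert u S) w + 4 * β w) :=
      sum_le_sum fun w _ => by
        have := dg_mono (G := G) (subset_insert u S) w
        omega
    rw [← add_sum_erase S _ hv] at h0 h1 ⊢
    rw [Function.update_self, sum_congr rfl fun x hx => by
      rw [Function.update_of_ne (ne_of_mem_erase hx)]]
    omega
  · rw [sum_congr rfl fun x hx => by
      rw [Function.update_of_ne (fun e : x = v => hv (e ▸ hx))]]
    exact h0

theorem step1 (hG : Gi G) (hX : Disjoint X C) (hc : X.card ≤ 4) (h : Inv G C X W β F)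
    (hu : u ∈ W) (hd : dg G W u ≤ 1) (hv : v ∈ W) (a : G.Adj v u) :
    Inv G C X (W.erase u) (Function.update β v (β v + (β u - 1)))
      (Function.update F v (F v ∪ F u)) := by
  have hn : ∀ w ∈ W, w ≠ v → ¬ G.Adj w u := fun w hw e c => by
    have := two_le_dg.2 ⟨w, hw, v, hv, e, c.symm, a.symm⟩
    omega
  have e : ∀ w ∈ W.erase u, w ≠ v → dg G W w = dg G (W.erase u) w := fun w hw c => by
    rw [dg_erase hu, if_neg (hn w (mem_of_mem_erase hw) c), add_zero]
  have ev : dg G W v = dg G (W.erase u) v + 1 := by rw [dg_erase hu, if_pos a]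
  have q2u := h.q2 u hu hd
  have dj : ∀ w ∈ W.erase u, w ≠ v → Disjoint (F w) (F v ∪ F u) := fun w hw c =>
    disjoint_union_right.2 ⟨h.disj w (mem_of_mem_erase hw) v hv c,
      h.disj w (mem_of_mem_erase hw) u hu (ne_of_mem_erase hw)⟩
  refine ⟨(erase_subset _ _).trans h.sub, h.cyc.erase hd, fun x hx y hy xy => ?_,
    fun S hS => ineq_step h hu a hS, fun w hw c => ?_, fun w hw c => ?_⟩
  · by_cases ex : x = v
    · subst ex
      rw [Function.update_self, Function.update_of_ne xy.symm]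
      exact (dj y hy xy.symm).symm
    · rw [Function.update_of_ne ex]
      by_cases ey : y = v
      · subst ey
        rw [Function.update_self]
        exact dj x hx ex
      · rw [Function.update_of_ne ey]
        exact h.disj x (mem_of_mem_erase hx) y (mem_of_mem_erase hy) xy
  · by_cases ew : w = v
    · subst ew
      rw [Function.update_self, Function.update_self]
      exact q1_child q2u a.symm (h.sub hv)
    · rw [Function.update_of_ne ew, Function.update_of_ne ew]
      exact h.q1 w (mem_of_mem_erase hw) (e w hw ew ▸ c)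
  · by_cases ew : w = v
    · subst ew
      rw [Function.update_self, Function.update_self]
      exact q2_merge hG hX hc (h.disj w hv u hu a.ne) (h.q1 w hv (by omega)) q2u a.symm
        (h.sub hv)
    · rw [Function.update_of_ne ew, Function.update_of_ne ew]
      exact h.q2 w (mem_of_mem_erase hw) (e w hw ew ▸ c)

/-- The list that pays for a vertex of the core. -/
theorem pay (h : Inv G C X W β F) (hv : v ∈ W) (h2 : 2 ≤ dg G W v) :
    ∃ T, RT G C (F v) X v T ∧ 234 ≤ 9 * (9 * dg G W v + 4 * β v) + 8 * val T := by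
  by_cases h3 : 3 ≤ dg G W v
  · exact ⟨[], RT.nil, by omega⟩
  rcases h.q1 v hv (by omega) with c | ⟨c, T, hT, r⟩ | r | ⟨T, hT, r⟩
  · exact ⟨[], RT.nil, by omega⟩
  · have := List.all_eq_true.1 val1 T hT
    rw [Nat.ble_eq] at this
    exact ⟨_, r, by omega⟩
  · have : val [0] = 9 := rfl
    exact ⟨_, r, by omega⟩
  · have := List.all_eq_true.1 val2 T hT
    rw [Nat.ble_eq] at this
    exact ⟨_, r, by omega⟩

theorem core [Fintype V] (hb : BallStmt) (hG : Gi G) (hX : Disjoint X C) (hc : X.card ≤ 4)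
    (h : Inv G C X W β F) (h2 : ∀ v ∈ W, 2 ≤ dg G W v) : False := by
  have key : ∀ v, ∃ D : V → ℕ, v ∈ W →
      (∀ x, D x < 10 → ∃ w ∈ F v, G.Adj x w ∧ Wk G C w v (D x)) ∧
      234 ≤ 9 * (9 * dg G W v + 4 * β v) + 8 * ∑ x ∈ X, (9 - 2 * D x) := fun v => by
    by_cases hv : v ∈ W
    · obtain ⟨T, r, c⟩ := pay h hv (h2 v hv)
      obtain ⟨D, d1, d2⟩ := depth r
      exact ⟨D, fun _ => ⟨d1, by omega⟩⟩
    · exact ⟨fun _ => 0, fun c => absurd c hv⟩
  choose D hD using key
  have ball : ∀ x ∈ X, ∑ v ∈ W, (9 - 2 * D v x) ≤ W.card := fun x hx => by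
    refine hb V G W (fun v => D v x) hG h2 fun u hu v hv uv r w => ?_
    by_contra c
    obtain ⟨a, a1, a2, a3⟩ := (hD u hu).1 x (by omega)
    obtain ⟨b, b1, b2, b3⟩ := (hD v hv).1 x (by omega)
    have := hG C x a b _ (disjoint_left.1 hX hx) a2 b2
      (fun e => disjoint_left.1 (h.disj u hu v hv uv) a1 (e ▸ b1))
      ((a3.trans (w.mono h.sub)).trans b3.symm)
    omega
  have s1 : ∑ v ∈ W, ∑ x ∈ X, (9 - 2 * D v x) ≤ 4 * W.card := by
    rw [sum_comm]
    refine (sum_le_card_nsmul _ _ _ ball).trans ?_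
    rw [smul_eq_mul]
    exact Nat.mul_le_mul_right _ hc
  have s2 : W.card • 234 ≤ ∑ v ∈ W,
      (9 * (9 * dg G W v + 4 * β v) + 8 * ∑ x ∈ X, (9 - 2 * D v x)) :=
    card_nsmul_le_sum _ _ _ fun v hv => (hD v hv).2
  rw [sum_add_distrib, ← mul_sum, ← mul_sum, smul_eq_mul] at s2
  have s3 := h.ineq W subset_rfl
  obtain ⟨W', w1, ⟨z, hz⟩, -⟩ := h.cyc
  have s4 := hb V G W (fun v => if v = z then 0 else 9) hG h2 fun u _ v _ uv r _ => by
    by_cases a : u = z
    · rw [if_neg (show v ≠ z from fun e => uv (a.trans e.symm))]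
      omega
    · rw [if_neg a]
      omega
  have s5 := single_le_sum (f := fun v => 9 - 2 * if v = z then 0 else 9)
    (fun _ _ => Nat.zero_le _) (w1 hz)
  simp only [if_true] at s5
  omega

theorem run [Fintype V] (hb : BallStmt) (hG : Gi G) (hX : Disjoint X C) (hc : X.card ≤ 4) :
    ∀ (n : ℕ) (W : Finset V) (β : V → ℕ) (F : V → Finset V), W.card = n →
      Inv G C X W β F → False := by
  intro n
  induction n using Nat.strong_induction_on with
  | _ n ih =>
    intro W β F hn h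
    by_cases h2 : ∀ v ∈ W, 2 ≤ dg G W v
    · exact core hb hG hX hc h h2
    push Not at h2
    obtain ⟨u, hu, hd⟩ := h2
    have lt : (W.erase u).card < n := hn ▸ card_erase_lt_of_mem hu
    by_cases hv : ∃ v ∈ W, G.Adj v u
    · obtain ⟨v, hv, a⟩ := hv
      exact ih _ lt _ _ _ rfl (step1 hG hX hc h hu (by omega) hv a)
    · push Not at hv
      exact ih _ lt _ _ _ rfl (step0 h hu (by omega) hv)

end Prune

theorem prune (h : BallStmt) : PruneStmt := fun _ _ _ C _ _ hG hC hX hc h3 hS =>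
  Prune.run h hG hX hc _ C _ _ rfl (Prune.init hC h3 hS)

end Pool.Agent.MP_e6539c_co.C5
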