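import Mathlib.GroupTheory.GroupAction.Ring
import Pool.Agent.MP_e6539c_co.C5.Basic

/-! The path state of the territory game. -/

set_option autoImplicit false

namespace Pool.Agent.MP_e6539c_co.C5

open Finset
open Pool.Agent.MP_7be75d_co (R Conn comp)
open Pool.Agent.MP_7be75d_co
open scoped Classical

namespace PsAux

variable {V : Type} {G Γ : SimpleGraph V}

/-- An inner vertex of a chain can be contracted into its predecessor. -/
theorem split_pred {p t u : V} {A : List V} (hu : u ∈ A)
    (ch : (p :: (A ++ [t])).IsChain Γ.Adj) (nd : (p :: (A ++ [t])).Nodup) :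
    ∃ (A1 A2 : List V) (y : V), A = A1 ++ u :: A2 ∧ y ∈ p :: A1 ∧ Γ.Adj u y ∧
      (p :: ((A1 ++ A2) ++ [t])).IsChain (con Γ u y).Adj := by
  obtain ⟨A1, A2, rfl⟩ := List.append_of_mem hu
  obtain ⟨l, y, e⟩ : ∃ l y, p :: A1 = l ++ [y] := by
    rcases List.eq_nil_or_concat' (p :: A1) with h | ⟨l, y, h⟩
    · simp at h
    · exact ⟨l, y, h⟩
  have e1 : p :: ((A1 ++ u :: A2) ++ [t]) = l ++ y :: u :: (A2 ++ [t]) := by
    have : p :: ((A1 ++ u :: A2) ++ [t]) = (p :: A1) ++ u :: (A2 ++ [t]) := by simp
    rw [this, e]; simp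
  have e2 : p :: ((A1 ++ A2) ++ [t]) = l ++ y :: (A2 ++ [t]) := by
    have : p :: ((A1 ++ A2) ++ [t]) = (p :: A1) ++ (A2 ++ [t]) := by simp
    rw [this, e]; simp
  rw [e1] at ch nd
  refine ⟨A1, A2, y, rfl, by rw [e]; simp, ?_, ?_⟩
  · rw [List.isChain_split] at ch
    have h2 := ch.2
    rw [List.isChain_cons_cons] at h2
    exact h2.1.symm
  · rw [e2]
    exact con_chain_pred ch nd

theorem chain_pre {l l' : List V} (h : (l ++ l').IsChain Γ.Adj) : l.IsChain Γ.Adj :=
  h.left_of_append

theorem chain_last {l : List V} {a b : V} (h : (l ++ [a, b]).IsChain Γ.Adj) : Γ.Adj a b := by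
  have := h.right_of_append
  rw [List.isChain_cons_cons] at this
  exact this.1

variable [Fintype V] {C : Finset V} {p q s : V} {A B : List V}

theorem ndA (h : Ps G Γ C p A q B s) : (p :: (A ++ [q])).Nodup :=
  h.nd.sublist (List.Sublist.cons_cons _ (List.Sublist.append_left (by simp) _))

theorem ndB (h : Ps G Γ C p A q B s) : (q :: (B ++ [s])).Nodup :=
  h.nd.sublist ((List.sublist_append_right _ _).cons _)

/-- An inactive vertex of the first arc is removed. -/
theorem dropA (h : Ps G Γ C p A q B s) {u : V} (hu : u ∈ A) (hi : ¬ Act G C u) :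
    ∃ Γ' A', A'.length < A.length ∧ Ps G Γ' C p A' q B s := by
  obtain ⟨A1, A2, y, rfl, hy, a, ch⟩ := split_pred hu h.chA (ndA h)
  have nd := h.nd
  have sub : List.Sublist (p :: ((A1 ++ A2) ++ q :: (B ++ [s])))
      (p :: ((A1 ++ u :: A2) ++ q :: (B ++ [s]))) :=
    List.Sublist.cons_cons _ (List.Sublist.append_right
      (List.Sublist.append_left (List.sublist_cons_self _ _) _) _)
  have hu1 : u ∉ q :: (B ++ [s]) := fun c =>
    (List.nodup_append.1 (List.nodup_cons.1 nd).2).2.2 u hu u c rfl
  have hp : p ≠ u := fun e => (List.nodup_cons.1 nd).1 (by rw [e]; simp)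
  have hq : q ≠ u := fun e => hu1 (by rw [e]; simp)
  have hs : s ≠ u := fun e => hu1 (by rw [e]; simp)
  refine ⟨con Γ u y, A1 ++ A2, by simp, ⟨h.ctx.con a (h.out u (by simp)) (h.out y ?_) hi,
    nd.sublist sub, fun x hx => h.out x (sub.subset hx), ch, con_chain h.chB hu1,
    con_adj h.pq hp hq, con_adj h.ps hp hs, h.cov.of_act fun x hx _ ax => ?_, ?_, h.tyB, ?_⟩⟩
  · rcases List.mem_cons.1 hy with e | e
    · simp [e]
    · simp [e]
  · have : x ≠ u := fun e => hi (e ▸ ax)
    simp only [Set.mem_ofPred_eq, List.mem_cons, List.mem_append] at hx ⊢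
    tauto
  · rcases h.tyA with c | c
    · refine Or.inl (c.mono le_rfl fun x hx => ?_)
      simp only [Set.mem_ofPred_eq, List.mem_cons, List.mem_append] at hx ⊢
      tauto
    · right
      simp only [List.length_append, List.length_cons] at c ⊢
      omega
  · obtain ⟨x, hx, ax⟩ := h.act
    have : x ≠ u := fun e => hi (e ▸ ax)
    refine ⟨x, ?_, ax⟩
    simp only [List.mem_cons, List.mem_append] at hx ⊢
    tauto

/-- An inactive vertex of the second arc is removed. -/
theorem dropB (h : Ps G Γ C p A q B s) {u : V} (hu : u ∈ B) (hi : ¬ Act G C u) :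
    ∃ Γ' B', B'.length < B.length ∧ Ps G Γ' C p A q B' s := by
  obtain ⟨B1, B2, y, rfl, hy, a, ch⟩ := split_pred hu h.chB (ndB h)
  have nd := h.nd
  have sub : List.Sublist (p :: (A ++ q :: ((B1 ++ B2) ++ [s])))
      (p :: (A ++ q :: ((B1 ++ u :: B2) ++ [s]))) :=
    List.Sublist.cons_cons _ (List.Sublist.append_left (List.Sublist.cons_cons _
      (List.Sublist.append_right (List.Sublist.append_left (List.sublist_cons_self _ _) _) _)) _)
  have n1 := List.nodup_cons.1 nd
  have n2 := List.nodup_append.1 n1.2
  have n3 := List.nodup_cons.1 n2.2.1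
  have n4 := List.nodup_append.1 n3.2
  have hp : p ≠ u := fun e => n1.1 (by rw [e]; simp)
  have hq : q ≠ u := fun e => n3.1 (by rw [e]; simp)
  have hs : s ≠ u := fun e => n4.2.2 u hu s (by simp) e.symm
  have hA : u ∉ A := fun c => n2.2.2 u c u (by simp) rfl
  have hu1 : u ∉ p :: (A ++ [q]) := by
    simp only [List.mem_cons, List.mem_append, List.not_mem_nil, or_false, not_or]
    exact ⟨hp.symm, hA, hq.symm⟩
  refine ⟨con Γ u y, B1 ++ B2, by simp, ⟨h.ctx.con a (h.out u (by simp)) (h.out y ?_) hi,
    nd.sublist sub, fun x hx => h.out x (sub.subset hx), con_chain h.chA hu1, ch,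
    con_adj h.pq hp hq, con_adj h.ps hp hs, h.cov.of_act fun x hx _ ax => ?_, h.tyA, ?_, h.act⟩⟩
  · rcases List.mem_cons.1 hy with e | e
    · simp [e]
    · simp [e]
  · have : x ≠ u := fun e => hi (e ▸ ax)
    simp only [Set.mem_ofPred_eq, List.mem_cons, List.mem_append] at hx ⊢
    tauto
  · rcases h.tyB with c | c
    · refine Or.inl (c.mono le_rfl fun x hx => ?_)
      simp only [Set.mem_ofPred_eq, List.mem_cons, List.mem_append] at hx ⊢
      tauto
    · right
      simp only [List.length_append, List.length_cons] at c ⊢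
      omega

/-- The inactive end is contracted into the last vertex of the second arc. -/
theorem dropS {B' : List V} {β : V} (h : Ps G Γ C p A q (B' ++ [β]) s) (hi : ¬ Act G C s) :
    Ps G (con Γ s β) C p A q B' β := by
  have nd := h.nd
  have sub : List.Sublist (p :: (A ++ q :: (B' ++ [β])))
      (p :: (A ++ q :: ((B' ++ [β]) ++ [s]))) :=
    List.Sublist.cons_cons _ (List.Sublist.append_left (List.Sublist.cons_cons _
      (List.sublist_append_left _ _)) _)
  have n1 := List.nodup_cons.1 nd
  have n2 := List.nodup_append.1 n1.2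
  have n3 := List.nodup_cons.1 n2.2.1
  have n4 := List.nodup_append.1 n3.2
  have hp : p ≠ s := fun e => n1.1 (by rw [e]; simp)
  have hq : q ≠ s := fun e => n3.1 (by rw [e]; simp)
  have hpb : p ≠ β := fun e => n1.1 (by rw [e]; simp)
  have hA : s ∉ A := fun c => n2.2.2 s c s (by simp) rfl
  have hB : s ∉ B' ++ [β] := fun c => n4.2.2 s c s (by simp) rfl
  have a : Γ.Adj β s := by
    have := h.chB
    have e : q :: ((B' ++ [β]) ++ [s]) = (q :: B') ++ [β, s] := by simp
    rw [e] at this
    exact chain_last this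
  have chB : (q :: (B' ++ [β])).IsChain Γ.Adj := by
    have := h.chB
    have e : q :: ((B' ++ [β]) ++ [s]) = (q :: (B' ++ [β])) ++ [s] := by simp
    rw [e] at this
    exact chain_pre this
  refine ⟨h.ctx.con a.symm (h.out s (by simp)) (h.out β (by simp)) hi, nd.sublist sub,
    fun x hx => h.out x (sub.subset hx), con_chain h.chA ?_, con_chain chB ?_,
    con_adj h.pq hp hq, (con_new h.ps.symm hpb).symm, h.cov.of_act fun x hx _ ax => ?_,
    h.tyA, ?_, h.act⟩
  · simp only [List.mem_cons, List.mem_append, List.not_mem_nil, or_false, not_or]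
    exact ⟨hp.symm, hA, hq.symm⟩
  · exact fun c => (List.mem_cons.1 c).elim (fun e => hq e.symm) hB
  · have : x ≠ s := fun e => hi (e ▸ ax)
    simp only [Set.mem_ofPred_eq, List.mem_cons, List.mem_append, List.not_mem_nil] at hx ⊢
    tauto
  · rcases h.tyB with c | c
    · refine Or.inl (c.mono le_rfl fun x hx => ?_)
      simp only [Set.mem_ofPred_eq, List.mem_cons, List.mem_append] at hx ⊢
      tauto
    · right
      simp only [List.length_append, List.length_cons] at c ⊢
      omega

/-- With an inactive end and an empty second arc the state is a cycle state. -/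
theorem toCy (h : Ps G Γ C p A q [] s) (hi : ¬ Act G C s) : CYs G Γ C (p :: (A ++ [q])) := by
  refine ⟨h.ctx, ndA h, fun x hx => h.out x ?_, h.chA, fun x M y e _ => ?_,
    h.cov.of_act fun x hx _ ax => ?_, ?_⟩
  · simp only [List.mem_cons, List.mem_append] at hx ⊢
    tauto
  · obtain ⟨rfl, e'⟩ := List.cons.inj e
    have := (List.append_inj' e' rfl).2
    obtain ⟨rfl, -⟩ := List.cons.inj this
    exact h.pq.symm
  · have : x ≠ s := fun e => hi (e ▸ ax)
    simp only [Set.mem_ofPred_eq, List.mem_cons, List.mem_append, List.not_mem_nil] at hx ⊢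
    tauto
  · rcases h.tyA with c | c
    · exact Or.inl c
    · right
      simp only [List.length_append, List.length_cons, List.length_nil] at c ⊢
      omega

/-- The neighbours other than the two ends of the move form two classes and a single vertex. -/
theorem sys {A' : List V} {α : V} (h : Ps G Γ C p (A' ++ [α]) q B s) : Sys G C {s, α} := by
  obtain ⟨SB, cB, hB⟩ : ∃ SB : Set V, Cls G C SB ∧ ∀ x ∈ B, x ∈ SB := by
    rcases h.tyB with c | c
    · exact ⟨_, c, fun x hx => by simp [hx]⟩
    · exact ⟨_, cls_short h.ctx.gi c fun x hx => h.out x (by simp [hx]), fun x hx => hx⟩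
  left
  rcases h.tyA with c | c
  · refine ⟨_, SB, ∅, c, cB, by simp, h.cov.mono fun x hx => ?_⟩
    have := hB x
    simp only [Set.mem_ofPred_eq, List.mem_cons, List.mem_append, Set.mem_union,
      Set.mem_insert_iff, Set.mem_singleton_iff, List.not_mem_nil] at hx ⊢
    tauto
  · have e : A' = [] := by
      simp only [List.length_append, List.length_cons, List.length_nil] at c
      exact List.length_eq_zero_iff.1 (by omega)
    subst e
    refine ⟨{p}, SB, {q}, cls_single h.ctx.gi (h.out p (by simp)), cB, by simp,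
      h.cov.mono fun x hx => ?_⟩
    have := hB x
    simp only [coe_singleton, Set.mem_ofPred_eq, List.mem_cons, List.mem_append, Set.mem_union,
      Set.mem_insert_iff, Set.mem_singleton_iff, List.not_mem_nil, List.nil_append] at hx ⊢
    tauto

/-- After the move the frame is a subdivided complete graph on four corners. -/
theorem toKs {A' D : List V} {α : V} {C' : Finset V} (h : Ps G Γ C p (A' ++ [α]) q B s)
    (ndD : D.Nodup) (hD : ∀ x ∈ D, x ∈ C ∧ x ∉ C') (ch : (s :: (D ++ [α])).IsChain Γ.Adj)
    (sub : C' ⊆ C) (ctx : Ctx G Γ C') (cls : Cls G C' {x | x ∈ s :: (D ++ [α])})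
    (cv : ∀ S : Set V, Cov G C S → Cov G C' (S ∪ {x | x ∈ D})) :
    Ks G Γ C' ![α, p, q, s] ![A'.reverse, [], B, D] := by
  have n1 := List.nodup_cons.1 h.nd
  have n2 := List.nodup_append.1 n1.2
  have n3 := List.nodup_cons.1 n2.2.1
  have n4 := List.nodup_append.1 n3.2
  have n5 := List.nodup_append.1 n2.1
  have oα : α ∉ C := h.out α (by simp)
  have op : p ∉ C := h.out p (by simp)
  have oq : q ∉ C := h.out q (by simp)
  have os : s ∉ C := h.out s (by simp)
  have oA : ∀ x ∈ A', x ∉ C := fun x hx => h.out x (by simp [hx])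
  have oB : ∀ x ∈ B, x ∉ C := fun x hx => h.out x (by simp [hx])
  have αp : α ≠ p := fun e => n1.1 (by rw [← e]; simp)
  have αq : α ≠ q := n2.2.2 α (by simp) q (by simp)
  have αs : α ≠ s := n2.2.2 α (by simp) s (by simp)
  have pq : p ≠ q := h.pq.ne
  have ps : p ≠ s := h.ps.ne
  have qs' : q ≠ s := fun e => n3.1 (by rw [e]; simp)
  have αA : α ∉ A' := fun c => n5.2.2 α c α (by simp) rfl
  have pA : p ∉ A' := fun c => n1.1 (by simp [c])
  have qA : q ∉ A' := fun c => n2.2.2 q (by simp [c]) q (by simp) rfl
  have sA : s ∉ A' := fun c => n2.2.2 s (by simp [c]) s (by simp) rfl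
  have αB : α ∉ B := fun c => n2.2.2 α (by simp) α (by simp [c]) rfl
  have pB : p ∉ B := fun c => n1.1 (by simp [c])
  have qB : q ∉ B := fun c => n3.1 (by simp [c])
  have sB : s ∉ B := fun c => n4.2.2 s c s (by simp) rfl
  have AB : ∀ x ∈ A', x ∉ B := fun x hx c => n2.2.2 x (by simp [hx]) x (by simp [c]) rfl
  have AD : ∀ x ∈ A', x ∉ D := fun x hx c => oA x hx (hD x c).1
  have BD : ∀ x ∈ B, x ∉ D := fun x hx c => oB x hx (hD x c).1
  have αD : α ∉ D := fun c => oα (hD _ c).1
  have pD : p ∉ D := fun c => op (hD _ c).1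
  have qD : q ∉ D := fun c => oq (hD _ c).1
  have sD : s ∉ D := fun c => os (hD _ c).1
  have aq : Γ.Adj α q := by
    have := h.chA
    have e : p :: ((A' ++ [α]) ++ [q]) = (p :: A') ++ [α, q] := by simp
    rw [e] at this
    exact chain_last this
  have ch0 : (α :: (A'.reverse ++ [p])).IsChain Γ.Adj := by
    have := h.chA
    have e : p :: ((A' ++ [α]) ++ [q]) = (p :: (A' ++ [α])) ++ [q] := by simp
    rw [e] at this
    have := chain_rev (chain_pre this)
    simpa using this
  have k : ∀ i : Fin 4, i = 0 ∨ i = 1 ∨ i = 2 ∨ i = 3 := by decide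
  refine ⟨ctx, fun i j e => ?_, fun i => ?_, fun i j hij x hx => ?_, fun i j => ?_, fun i => ?_,
    fun i x hx => ?_, fun i => ?_, fun i => ?_, (cv _ h.cov).mono fun x hx => ?_, fun i => ?_⟩
  · rcases k i with rfl | rfl | rfl | rfl <;> rcases k j with rfl | rfl | rfl | rfl <;>
      first
        | rfl
        | exact absurd e (by assumption)
        | exact absurd e.symm (by assumption)
  · rcases k i with rfl | rfl | rfl | rfl
    · exact List.nodup_reverse.2 n5.1
    · exact List.nodup_nil
    · exact n4.1
    · exact ndD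
  · rcases k i with rfl | rfl | rfl | rfl <;> rcases k j with rfl | rfl | rfl | rfl
    · exact absurd rfl hij
    · exact List.not_mem_nil
    · exact AB x (List.mem_reverse.1 hx)
    · exact AD x (List.mem_reverse.1 hx)
    · exact absurd hx List.not_mem_nil
    · exact absurd hx List.not_mem_nil
    · exact absurd hx List.not_mem_nil
    · exact absurd hx List.not_mem_nil
    · exact fun c => AB x (List.mem_reverse.1 c) hx
    · exact List.not_mem_nil
    · exact absurd rfl hij
    · exact BD x hx
    · exact fun c => AD x (List.mem_reverse.1 c) hx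
    · exact List.not_mem_nil
    · exact fun c => BD x c hx
    · exact absurd rfl hij
  · rcases k i with rfl | rfl | rfl | rfl <;> rcases k j with rfl | rfl | rfl | rfl <;>
      first
        | exact List.not_mem_nil
        | assumption
        | exact fun c => αA (List.mem_reverse.1 c)
        | exact fun c => pA (List.mem_reverse.1 c)
        | exact fun c => qA (List.mem_reverse.1 c)
        | exact fun c => sA (List.mem_reverse.1 c)
  · rcases k i with rfl | rfl | rfl | rfl
    · exact fun c => oα (sub c)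
    · exact fun c => op (sub c)
    · exact fun c => oq (sub c)
    · exact fun c => os (sub c)
  · rcases k i with rfl | rfl | rfl | rfl
    · exact fun c => oA x (List.mem_reverse.1 hx) (sub c)
    · exact absurd hx List.not_mem_nil
    · exact fun c => oB x hx (sub c)
    · exact (hD x hx).2
  · rcases k i with rfl | rfl | rfl | rfl
    · exact ch0
    · exact List.isChain_cons_cons.2 ⟨h.pq, List.isChain_singleton _⟩
    · exact h.chB
    · exact ch
  · rcases k i with rfl | rfl | rfl | rfl
    · exact aq
    · exact h.ps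
    · exact aq.symm
    · exact h.ps.symm
  · simp only [Set.mem_ofPred_eq, List.mem_cons, List.mem_append, Set.mem_union,
      List.not_mem_nil, or_false] at hx
    rcases hx with (e | (e | e) | e | e | e) | e
    · exact ⟨1, Or.inl e⟩
    · exact ⟨0, Or.inr (List.mem_reverse.2 e)⟩
    · exact ⟨0, Or.inl e⟩
    · exact ⟨2, Or.inl e⟩
    · exact ⟨2, Or.inr e⟩
    · exact ⟨3, Or.inl e⟩
    · exact ⟨3, Or.inr e⟩
  · rcases k i with rfl | rfl | rfl | rfl
    · rcases h.tyA with c | c
      · refine Or.inl (c.mono sub fun x hx => ?_)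
        have hx' : x ∈ α :: (A'.reverse ++ [p]) := hx
        simp only [Set.mem_ofPred_eq, List.mem_cons, List.mem_append, List.mem_reverse,
          List.not_mem_nil] at hx' ⊢
        tauto
      · right
        show A'.reverse.length ≤ 1
        simp only [List.length_append, List.length_cons, List.length_reverse] at c ⊢
        omega
    · exact Or.inr (Nat.zero_le 1)
    · rcases h.tyB with c | c
      · exact Or.inl (c.mono sub le_rfl)
      · exact Or.inr c
    · exact Or.inl cls

end PsAux

theorem ps (h : MoveStmt) : PsStmt := by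
  intro V _ G C hno hcy
  suffices H : ∀ n (Γ : SimpleGraph V) p (A : List V) q (B : List V) s,
      A.length + B.length < n → ¬ Ps G Γ C p A q B s from
    fun Γ p A q B s => H _ Γ p A q B s (Nat.lt_succ_self _)
  intro n
  induction n with
  | zero => intro Γ p A q B s hn; omega
  | succ n ih =>
    intro Γ p A q B s hn hP
    by_cases hA : ∃ u ∈ A, ¬ Act G C u
    · obtain ⟨u, hu, hi⟩ := hA
      obtain ⟨Γ', A', hl, h'⟩ := PsAux.dropA hP hu hi
      exact ih Γ' p A' q B s (by omega) h'
    by_cases hB : ∃ u ∈ B, ¬ Act G C u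
    · obtain ⟨u, hu, hi⟩ := hB
      obtain ⟨Γ', B', hl, h'⟩ := PsAux.dropB hP hu hi
      exact ih Γ' p A q B' s (by omega) h'
    by_cases hs : Act G C s
    · rcases List.eq_nil_or_concat' A with e | ⟨A', α, e⟩
      · obtain ⟨a, ha, -⟩ := hP.act
        simp [e] at ha
      · subst e
        have aα : Act G C α := by
          by_contra c
          exact hA ⟨α, by simp, c⟩
        have ne : s ≠ α := fun e =>
          (List.nodup_append.1 (List.nodup_cons.1 hP.nd).2).2.2 α (by simp) s (by simp) e.symm
        obtain ⟨D, C', -, ndD, hD, ch, sub, lt, ctx, cls, cv⟩ := h V G Γ C s α hP.ctx ne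
          (hP.out s (by simp)) (hP.out α (by simp)) hs aα (Or.inl (PsAux.sys hP))
        exact (hno Γ C' lt).2.2 _ _ (PsAux.toKs hP ndD hD ch sub ctx cls cv)
    · rcases List.eq_nil_or_concat' B with e | ⟨B', β, e⟩
      · subst e
        exact hcy Γ _ (PsAux.toCy hP hs)
      · subst e
        refine ih _ p A q B' β ?_ (PsAux.dropS hP hs)
        simp only [List.length_append, List.length_cons, List.length_nil] at hn
        omega

end Pool.Agent.MP_e6539c_co.C5
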