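import Mathlib.Algebra.BigOperators.Fin
import Pool.Agent.MP_e6539c_co.C5.Basic

/-! A tree whose neighbours lie on four closed arcs has a cross or at most two vertices.
A leaf pruning automaton. -/

set_option autoImplicit false

namespace Pool.Agent.MP_e6539c_co.C5

open Finset
open Pool.Agent.MP_7be75d_co (R Conn comp)
open Pool.Agent.MP_7be75d_co
open scoped Classical

namespace Qtree

/-- The data of one class: nearest mark, nearest pair of marks, marks of the open arc. -/
structure Cl where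
  n : ℕ
  m : ℕ
  p : ℕ

/-- A state of the automaton. -/
structure St where
  j : ℕ
  s : ℕ
  a : Cl
  b : Cl
  c : Cl
  d : Cl

def dig (n e : ℕ) : ℕ := Nat.mod (Nat.div n e) 10

def dC (n : ℕ) : Cl := ⟨dig n 1, dig n 10, dig n 100⟩

def dec (n : ℕ) : St :=
  ⟨dig n 1, dig n 10, dC (Nat.div n 100), dC (Nat.div n 100000), dC (Nat.div n 100000000),
    dC (Nat.div n 100000000000)⟩

def okP (p q : Cl) : Bool :=
  Nat.ble 3 (Nat.add p.n q.n) && Nat.ble 7 (Nat.add p.m q.n) && Nat.ble 7 (Nat.add p.n q.m)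

def mrgP (p q : Cl) : Cl :=
  ⟨min p.n (q.n + 1), min p.m (min (q.m + 1) (p.n + (q.n + 1))), p.p + q.p⟩

def leP (p q : Cl) : Bool := (Nat.ble 8 q.n || Nat.ble p.n q.n) &&
  (Nat.ble 8 q.m || Nat.ble p.m q.m) && Nat.ble q.p p.p

def crs (x y : St) : Bool :=
  Nat.ble x.a.p 0 || Nat.ble x.c.p 0 || Nat.ble y.b.p 0 || Nat.ble y.d.p 0

def ok (x y : St) : Bool :=
  okP x.a y.a && okP x.b y.b && okP x.c y.c && okP x.d y.d && crs x y && crs y x

def mrg (x y : St) : St :=
  ⟨min 3 (x.j + 1), min 3 (x.s + y.s), mrgP x.a y.a, mrgP x.b y.b, mrgP x.c y.c, mrgP x.d y.d⟩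

def cv (x m : St) : Bool :=
  Nat.ble x.s m.s && Nat.ble x.j m.j && leP x.a m.a && leP x.b m.b && leP x.c m.c && leP x.d m.d

def cls (o k k' : ℕ) : Cl := ⟨if o + k + k' = 0 then 8 else 0, 8, o⟩

def ini (o0 o1 o2 o3 k0 k1 k2 k3 : ℕ) : St :=
  ⟨min 3 (o0 + k0 + (o1 + k1) + (o2 + k2) + (o3 + k3)), 1, cls o0 k0 k1, cls o1 k1 k2, cls o2 k2 k3,
    cls o3 k3 k0⟩

/-- Evaluation of a number before it is passed on. -/
def fN (a : ℕ) (f : ℕ → Bool) : Bool := Nat.rec (f 0) (fun n _ => f (Nat.succ n)) a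

theorem fN_eq (a : ℕ) (f : ℕ → Bool) : fN a f = f a := by cases a <;> rfl

def fP (p : Cl) (f : Cl → Bool) : Bool :=
  fN p.n fun a => fN p.m fun b => fN p.p fun c => f ⟨a, b, c⟩

def fS (x : St) (f : St → Bool) : Bool :=
  fN x.j fun j => fN x.s fun s => fP x.a fun a => fP x.b fun b => fP x.c fun c => fP x.d fun d =>
    f ⟨j, s, a, b, c, d⟩

theorem fS_eq (x : St) (f : St → Bool) : fS x f = f x := by simp only [fS, fP, fN_eq]

def fA : List St → (List St → Bool) → Bool
  | [], f => f []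
  | a :: l, f => fS a fun a' => fA l fun l' => f (a' :: l')

theorem fA_eq : ∀ (l : List St) (f : List St → Bool), fA l f = f l
  | [], _ => rfl
  | a :: l, f => by rw [fA, fS_eq, fA_eq]

def chkI (S : List St) : Bool :=
  [0, 1].all fun o0 => [0, 1].all fun o1 => [0, 1].all fun o2 => [0, 1].all fun o3 =>
  [0, 1].all fun k0 => [0, 1].all fun k1 => [0, 1].all fun k2 => [0, 1].all fun k3 =>
    Nat.ble 2 (o0 + k0 + k1) || Nat.ble 2 (o1 + k1 + k2) || Nat.ble 2 (o2 + k2 + k3) ||
      Nat.ble 2 (o3 + k3 + k0) || fS (ini o0 o1 o2 o3 k0 k1 k2 k3) fun z => S.any fun m => cv z m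

def chkS (S : List St) : Bool :=
  S.all fun y => Nat.ble y.j 1 || S.all fun x =>
    !ok x y || fS (mrg x y) fun z => S.any fun m => cv z m

def chkF (S : List St) : Bool := S.all fun x => Nat.ble x.j 2 || Nat.ble x.s 2

def chk (S : List St) : Bool := fA S fun S => chkI S && chkS S && chkF S

def codes : List ℕ :=
  [8808808808810, 8808808008011, 8008808808011, 8808808818011, 8808008008811, 8808818008811,
   8008008808811, 8818008808811, 18008808808811, 8108108108121, 8808108118121, 8818108108121,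
   8108818108121, 18108808108121, 8808818118121, 8108108818121, 8118108808121, 8818108818121,
   18108808818121, 8108118108821, 18108108108821, 8818118108821, 18108818108821,
   18118108808821, 18218208108131, 8118218208131, 8208218218131, 18208208218131, 8818218218131,
   18318318218131, 18208818218131, 18318218318131, 18218318318131, 18218208818131,
   18318215215231, 18218315215231, 15218318215231, 15218218315231, 18208108118231,
   8208218118231, 8218218108231, 8818218118231, 18318318118231, 18208818118231, 18315215218231,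
   8108118218231, 8218118208231, 18218108208231, 8818118218231, 18108208218231, 18118208208231,
   18218218218231, 18108818218231, 15318215318231, 18318118318231, 15215218318231,
   18118318318231, 18218108818231, 18118208818231, 18215318215331, 18318218118331,
   18218318118331, 18215215218331, 18318118218331, 15215218218331, 18118318218331,
   18218118318331, 18118218318331, 18218218108831, 18218118208831, 18118218208831,
   8008008008012, 8808008018012, 8818008008012, 8008818008012, 18008808008012, 8808818018012,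
   8008008818012, 8018008808012, 8818008818012, 18008808818012, 8008018008812, 18008008008812,
   8818018008812, 18008818008812, 18018008808812, 18118108008022, 8018118108022, 8108118118022,
   18108108118022, 8818118118022, 18108818118022, 18118108818022, 18108008018122,
   8108118018122, 8118118008122, 8818118018122, 18108818018122, 8008018118122, 8118018108122,
   18118008108122, 8818018118122, 18008108118122, 18018108108122, 18008818118122,
   18118008818122, 18018108818122, 18118118008822, 18118018108822, 18018118108822,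
   18218218118032, 18218118218032, 18118218218032, 18218114114132, 18118214114132,
   14118218114132, 14118118214132, 18218218018132, 18214114118132, 18118118118132,
   14218114218132, 18218018218132, 14114118218132, 18018218218132, 18114218114232,
   18218118018232, 18118218018232, 18114114118232, 18218018118232, 14114118118232,
   18018218118232, 18118018218232, 18018118218232, 8008018018013, 8018018008013,
   18008008018013, 18018008008013, 8818018018013, 18008818018013, 18018008818013,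
   18018018008813, 18118118018023, 18018118118023, 18118018018123, 18018018118123]

theorem chk_codes : chk (codes.map dec) = true := by decide +kernel

variable {V : Type} {G : SimpleGraph V} {Y A A' : Finset V} {u v : V}

/-- Marks of `S` that end in `A`, one near `v` and two near each other and `v`. -/
def RC (G : SimpleGraph V) (Y A : Finset V) (S O : Set V) (v : V) (n : Cl) : Prop :=
  (n.n < 8 → ∃ p, Mark G Y S p ∧ p.2 ∈ A ∧ Wk G Y p.2 v n.n) ∧
  (n.m < 8 → ∃ p q a b c, p ≠ q ∧ Mark G Y S p ∧ Mark G Y S q ∧ p.2 ∈ A ∧ q.2 ∈ A ∧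
    Wk G Y p.2 q.2 a ∧ Wk G Y p.2 v b ∧ Wk G Y q.2 v c ∧ a + b + c ≤ 2 * n.m) ∧
  (1 ≤ n.p → ∃ a ∈ O, Act G A a)

section
variable {S O : Set V} {n m : Cl}

theorem RC.shift (h : RC G Y A S O u n) (a : G.Adj u v) (hv : v ∈ Y) :
    RC G Y A S O v ⟨n.n + 1, n.m + 1, n.p⟩ := by
  refine ⟨fun h1 => ?_, fun h1 => ?_, h.2.2⟩
  · obtain ⟨p, k1, k2, k3⟩ := h.1 (by dsimp only at h1; omega)
    exact ⟨p, k1, k2, k3.tail a hv⟩
  · obtain ⟨p, q, a', b, c, k1, k2, k3, k4, k5, k6, k7, k8, k9⟩ :=
      h.2.1 (by dsimp only at h1; omega)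
    exact ⟨p, q, a', b + 1, c + 1, k1, k2, k3, k4, k5, k6, k7.tail a hv, k8.tail a hv,
      by dsimp only; omega⟩

theorem RC.weaken (h : RC G Y A S O v n) (hl : leP n m = true) : RC G Y A S O v m := by
  simp only [leP, Bool.and_eq_true, Bool.or_eq_true, Nat.ble_eq] at hl
  refine ⟨fun h1 => ?_, fun h1 => ?_, fun h1 => h.2.2 (by omega)⟩
  · obtain ⟨p, k1, k2, k3⟩ := h.1 (by omega)
    exact ⟨p, k1, k2, k3.le (by omega)⟩
  · obtain ⟨p, q, a', b, c, k1, k2, k3, k4, k5, k6, k7, k8, k9⟩ := h.2.1 (by omega)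
    exact ⟨p, q, a', b, c, k1, k2, k3, k4, k5, k6, k7, k8, by omega⟩

theorem RC.pair (hS : Cls G Y S) (hA : Disjoint A A') (h : RC G Y A S O v n)
    (h' : RC G Y A' S O v m) : 8 ≤ n.m + m.n := by
  by_contra hc
  obtain ⟨p, q, a, b, c, k1, k2, k3, k4, k5, k6, k7, k8, k9⟩ := h.2.1 (by omega)
  obtain ⟨s, s1, s2, s3⟩ := h'.1 (by omega)
  have := hS.three p q s _ _ _ k2 k3 s1 k1 (fun e => disjoint_left.1 hA k4 (e ▸ s2))
    (fun e => disjoint_left.1 hA k5 (e ▸ s2)) k6 (k7.trans s3.symm) (k8.trans s3.symm)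
  omega

theorem RC.merge (hS : Cls G Y S) (hA : Disjoint A A') (h : RC G Y A S O v n)
    (h' : RC G Y A' S O u m) (a : G.Adj u v) (hv : v ∈ Y) :
    okP n m = true ∧ RC G Y (A ∪ A') S O v (mrgP n m) := by
  have h2 := h'.shift a hv
  have e1 := h.pair hS hA h2
  have e2 := h2.pair hS hA.symm h
  dsimp only at e1 e2
  have ne : ∀ p q : V × V, p.2 ∈ A → q.2 ∈ A' → p ≠ q :=
    fun p q hp hq e => disjoint_left.1 hA hp (e ▸ hq)
  refine ⟨?_, fun h1 => ?_, fun h1 => ?_, fun h1 => ?_⟩
  · have e3 : 4 ≤ n.n + (m.n + 1) := by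
      by_contra hc
      obtain ⟨p, p1, p2, p3⟩ := h.1 (by omega)
      obtain ⟨q, q1, q2, q3⟩ := h2.1 (by dsimp only; omega)
      have := hS.two p q _ p1 q1 (ne p q p2 q2) (p3.trans q3.symm)
      dsimp only at this
      omega
    simp only [okP, Bool.and_eq_true, Nat.ble_eq, Nat.add_eq]
    omega
  · simp only [mrgP] at h1 ⊢
    rcases le_total n.n (m.n + 1) with k | k
    · rw [min_eq_left k] at h1 ⊢
      obtain ⟨p, p1, p2, p3⟩ := h.1 h1
      exact ⟨p, p1, mem_union_left _ p2, p3⟩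
    · rw [min_eq_right k] at h1 ⊢
      obtain ⟨p, p1, p2, p3⟩ := h2.1 h1
      exact ⟨p, p1, mem_union_right _ p2, p3⟩
  · simp only [mrgP] at h1 ⊢
    by_cases c1 : n.m ≤ m.m + 1 ∧ n.m ≤ n.n + (m.n + 1)
    · obtain ⟨p, q, a', b, c, k1, k2, k3, k4, k5, k6, k7, k8, k9⟩ := h.2.1 (by omega)
      exact ⟨p, q, a', b, c, k1, k2, k3, mem_union_left _ k4, mem_union_left _ k5, k6, k7, k8,
        by omega⟩
    by_cases c2 : m.m + 1 ≤ n.n + (m.n + 1)
    · obtain ⟨p, q, a', b, c, k1, k2, k3, k4, k5, k6, k7, k8, k9⟩ :=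
        h2.2.1 (by dsimp only; omega)
      dsimp only at k9
      exact ⟨p, q, a', b, c, k1, k2, k3, mem_union_right _ k4, mem_union_right _ k5, k6, k7, k8,
        by omega⟩
    obtain ⟨p, p1, p2, p3⟩ := h.1 (by omega)
    obtain ⟨q, q1, q2, q3⟩ := h2.1 (by dsimp only; omega)
    exact ⟨p, q, _, _, _, ne p q p2 q2, p1, q1, mem_union_left _ p2, mem_union_right _ q2,
      p3.trans q3.symm, p3, q3, by dsimp only; omega⟩
  · simp only [mrgP] at h1
    by_cases k : 1 ≤ n.p
    · obtain ⟨x, x1, x2⟩ := h.2.2 k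
      exact ⟨x, x1, x2.mono subset_union_left⟩
    · obtain ⟨x, x1, x2⟩ := h'.2.2 (by omega)
      exact ⟨x, x1, x2.mono subset_union_right⟩

theorem dg_pos {W : Finset V} (h : 1 ≤ dg G W v) : ∃ x ∈ W, G.Adj x v := by
  obtain ⟨x, hx⟩ := card_pos.1 h
  exact ⟨x, (mem_filter.1 hx).1, (mem_filter.1 hx).2.symm⟩

theorem RC.init [Fintype V] {c c' : V} (hS : Cls G Y (O ∪ {c, c'})) (h1 : c ∉ O) (h2 : c' ∉ O)
    (h3 : c ≠ c') (hv : v ∈ Y) :
    dg G (univ.filter (· ∈ O)) v + dg G {c} v + dg G {c'} v ≤ 1 ∧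
      RC G Y {v} (O ∪ {c, c'}) O v (cls (dg G (univ.filter (· ∈ O)) v) (dg G {c} v)
        (dg G {c'} v)) := by
  have e : dg G (univ.filter (· ∈ O) ∪ {c} ∪ {c'}) v =
      dg G (univ.filter (· ∈ O)) v + dg G {c} v + dg G {c'} v := by
    unfold dg
    rw [filter_union, filter_union, card_union_of_disjoint, card_union_of_disjoint]
    · exact disjoint_filter_filter (by simpa using h1)
    · rw [← filter_union]
      exact disjoint_filter_filter (by simp [h2, h3.symm])
  have sub : ∀ x ∈ univ.filter (· ∈ O) ∪ {c} ∪ {c'}, x ∈ O ∪ {c, c'} := fun x hx => by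
    simpa [or_assoc, or_comm, or_left_comm] using hx
  refine ⟨?_, fun h => ?_, fun h => absurd h (lt_irrefl 8), fun h => ?_⟩
  · rw [← e]
    by_contra hc
    obtain ⟨a, ha, b, hb, ne, a1, b1⟩ := (two_le_dg (G := G)).1 (not_le.1 hc)
    have := hS.two (a, v) (b, v) 0 ⟨sub a ha, hv, a1.symm⟩ ⟨sub b hb, hv, b1.symm⟩
      (fun e => ne (congrArg Prod.fst e)) (Wk.refl hv)
    omega
  · simp only [cls] at h
    obtain ⟨x, hx, a⟩ := dg_pos (G := G) (v := v) (W := univ.filter (· ∈ O) ∪ {c} ∪ {c'})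
      (by rw [e]; split_ifs at h <;> omega)
    exact ⟨(x, v), ⟨sub x hx, hv, a⟩, mem_singleton_self _, Wk.refl hv⟩
  · obtain ⟨x, hx, a⟩ := dg_pos (G := G) (v := v) (W := univ.filter (· ∈ O)) h
    exact ⟨x, (mem_filter.1 hx).2, v, mem_singleton_self _, a⟩

end

/-- The state `x` is realised at `v` by the region `A`. -/
structure Rl (G : SimpleGraph V) (Y : Finset V) (S O : Fin 4 → Set V) (A : Finset V) (v : V)
    (x : St) : Prop where
  s : min 3 A.card ≤ x.s
  sub : A ⊆ Y
  conn : Conn G A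
  mem : v ∈ A
  a : RC G Y A (S 0) (O 0) v x.a
  b : RC G Y A (S 1) (O 1) v x.b
  c : RC G Y A (S 2) (O 2) v x.c
  d : RC G Y A (S 3) (O 3) v x.d

/-- There is no cross. -/
def NoX (G : SimpleGraph V) (Y : Finset V) (O : Fin 4 → Set V) : Prop :=
  ∀ U ⊆ Y, ∀ U' ⊆ Y, Disjoint U U' → Conn G U → Conn G U' → (∃ a ∈ O 0, Act G U a) →
    (∃ a ∈ O 2, Act G U a) → (∃ a ∈ O 1, Act G U' a) → (∃ a ∈ O 3, Act G U' a) → False

variable {S O : Fin 4 → Set V} {x y : St}

theorem Rl.cover (h : Rl G Y S O A v x) (hc : cv x y = true) : Rl G Y S O A v y ∧ x.j ≤ y.j := by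
  simp only [cv, Bool.and_eq_true, Nat.ble_eq] at hc
  obtain ⟨⟨⟨⟨⟨h1, h2⟩, h3⟩, h4⟩, h5⟩, h6⟩ := hc
  exact ⟨⟨h.s.trans h1, h.sub, h.conn, h.mem, h.a.weaken h3, h.b.weaken h4, h.c.weaken h5,
    h.d.weaken h6⟩, h2⟩

theorem Rl.cross (hX : NoX G Y O) (hA : Disjoint A A') (h : Rl G Y S O A v x)
    (h' : Rl G Y S O A' u y) : crs x y = true := by
  simp only [crs, Bool.or_eq_true, Nat.ble_eq]
  by_contra hc
  exact hX A h.sub A' h'.sub hA h.conn h'.conn (h.a.2.2 (by omega)) (h.c.2.2 (by omega))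
    (h'.b.2.2 (by omega)) (h'.d.2.2 (by omega))

theorem Rl.merge (hX : NoX G Y O) (hS : ∀ i, Cls G Y (S i)) (hA : Disjoint A A')
    (h : Rl G Y S O A v x) (h' : Rl G Y S O A' u y) (a : G.Adj u v) (hv : v ∈ Y) :
    ok x y = true ∧ Rl G Y S O (A ∪ A') v (mrg x y) := by
  obtain ⟨a1, a2⟩ := h.a.merge (hS 0) hA h'.a a hv
  obtain ⟨b1, b2⟩ := h.b.merge (hS 1) hA h'.b a hv
  obtain ⟨c1, c2⟩ := h.c.merge (hS 2) hA h'.c a hv
  obtain ⟨d1, d2⟩ := h.d.merge (hS 3) hA h'.d a hv
  refine ⟨?_, ?_, union_subset h.sub h'.sub, h.conn.union_adj h'.conn h.mem h'.mem a.symm,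
    mem_union_left _ h.mem, a2, b2, c2, d2⟩
  · simp only [ok, a1, b1, c1, d1, h.cross hX hA h', h'.cross hX hA.symm h, Bool.and_self]
  · have := card_union_le A A'
    have := h.s
    have := h'.s
    simp only [mrg]
    omega

theorem prune {L : List St} (hX : NoX G Y O) (hS : ∀ i, Cls G Y (S i)) (hY : ¬ Cyc G Y)
    (cS : chkS L = true) (cF : chkF L = true) :
    ∀ (n : ℕ) (W : Finset V) (B : V → Finset V) (σ : V → St), W.card = n + 1 → W ⊆ Y →
      Conn G W → (∀ v ∈ W, σ v ∈ L ∧ Rl G Y S O (B v) v (σ v) ∧ 3 ≤ (σ v).j + dg G W v) →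
      (∀ u ∈ W, ∀ v ∈ W, u ≠ v → Disjoint (B u) (B v)) → (∀ y ∈ Y, ∃ v ∈ W, y ∈ B v) →
      Y.card ≤ 2 := by
  intro n
  induction n with
  | zero =>
    intro W B σ hW _ _ h1 _ h3
    obtain ⟨v, rfl⟩ := card_eq_one.1 hW
    obtain ⟨m, r, j⟩ := h1 v (mem_singleton_self v)
    have e : dg G {v} v = 0 := by simp [dg]
    have := List.all_eq_true.1 cF _ m
    simp only [Bool.or_eq_true, Nat.ble_eq] at this
    have c : Y.card ≤ (B v).card := card_le_card fun y hy => by
      obtain ⟨w, hw, k⟩ := h3 y hy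
      rwa [mem_singleton.1 hw] at k
    have := r.s
    omega
  | succ n ih =>
    intro W B σ hW hWY hc h1 h2 h3
    obtain ⟨u, hu, du⟩ := exists_leaf (fun c => hY (c.mono hWY)) hc.1
    have ce : (W.erase u).card = n + 1 := by rw [card_erase_of_mem hu]; omega
    obtain ⟨w, hw⟩ := card_pos.1 (show 0 < (W.erase u).card by omega)
    obtain ⟨v, hv, a⟩ := hc.exists_adj hu (mem_of_mem_erase hw) (ne_of_mem_erase hw).symm
    obtain ⟨mu, ru, ju⟩ := h1 u hu
    obtain ⟨mv, rv, jv⟩ := h1 v hv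
    obtain ⟨o, r⟩ := rv.merge hX hS (h2 v hv u hu a.ne') ru a (hWY hv)
    have t := List.all_eq_true.1 cS _ mu
    simp only [Bool.or_eq_true, Nat.ble_eq] at t
    have t' := List.all_eq_true.1 (t.resolve_left (by omega)) _ mv
    rw [o, fS_eq] at t'
    obtain ⟨z, hz, cz⟩ := List.any_eq_true.1 (by simpa only [Bool.not_true, Bool.false_or] using t')
    obtain ⟨rz, jz⟩ := r.cover cz
    refine ih (W.erase u) (Function.update B v (B v ∪ B u)) (Function.update σ v z) ce
      ((erase_subset _ _).trans hWY) (conn_erase hc du ⟨w, hw⟩) (fun p hp => ?_)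
      (fun p hp q hq ne => ?_) (fun y hy => ?_)
    · have e := dg_erase (G := G) (v := p) hu
      by_cases k : p = v
      · subst k
        rw [Function.update_self, Function.update_self]
        rw [if_pos a.symm] at e
        refine ⟨hz, rz, ?_⟩
        simp only [mrg] at jz
        omega
      · rw [Function.update_of_ne k, Function.update_of_ne k]
        have hp' := mem_of_mem_erase hp
        have : ¬ G.Adj p u := fun b => by
          have := two_le_dg.2 ⟨p, hp', v, hv, k, b.symm, a⟩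
          omega
        rw [if_neg this] at e
        exact ⟨(h1 p hp').1, (h1 p hp').2.1, by have := (h1 p hp').2.2; omega⟩
    · have key : ∀ q ∈ W.erase u, q ≠ v → Disjoint (B v ∪ B u) (B q) := fun q hq k =>
        disjoint_union_left.2 ⟨h2 v hv q (mem_of_mem_erase hq) k.symm,
          h2 u hu q (mem_of_mem_erase hq) (ne_of_mem_erase hq).symm⟩
      by_cases k : p = v
      · subst k
        rw [Function.update_self, Function.update_of_ne ne.symm]
        exact key q hq ne.symm
      by_cases k' : q = v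
      · subst k'
        rw [Function.update_self, Function.update_of_ne k]
        exact (key p hp k).symm
      rw [Function.update_of_ne k, Function.update_of_ne k']
      exact h2 p (mem_of_mem_erase hp) q (mem_of_mem_erase hq) ne
    · obtain ⟨p, hp, k⟩ := h3 y hy
      have hv' : v ∈ W.erase u := mem_erase.2 ⟨a.ne', hv⟩
      by_cases e : p = u
      · exact ⟨v, hv', by rw [Function.update_self]; exact mem_union_right _ (e ▸ k)⟩
      by_cases e' : p = v
      · exact ⟨v, hv', by rw [Function.update_self]; exact mem_union_left _ (e' ▸ k)⟩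
      exact ⟨p, mem_erase.2 ⟨e, hp⟩, by rw [Function.update_of_ne e']; exact k⟩

end Qtree

open Qtree in
theorem qtree : QtreeStmt := by
  intro V _ G Y O c hY hc hO hS hC hX
  have hL := chk_codes
  rw [chk, fA_eq] at hL
  simp only [Bool.and_eq_true] at hL
  obtain ⟨⟨cI, cS⟩, cF⟩ := hL
  have key : ∀ v ∈ Y, ∃ z ∈ codes.map dec,
      Rl G Y (fun i => O i ∪ {c i, c (i + 1)}) O {v} v z ∧ 3 ≤ z.j + dg G Y v := by
    intro v hv
    have I := fun i => RC.init (hS i) (hO i i) (hO i (i + 1))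
      (fun e => absurd (hc e) ((by decide : ∀ i : Fin 4, i ≠ i + 1) i)) hv
    obtain ⟨e0, r0⟩ := I 0
    obtain ⟨e1, r1⟩ := I 1
    obtain ⟨e2, r2⟩ := I 2
    obtain ⟨e3, r3⟩ := I 3
    rw [show (0 : Fin 4) + 1 = 1 from rfl] at e0
    rw [show (1 : Fin 4) + 1 = 2 from rfl] at e1
    rw [show (2 : Fin 4) + 1 = 3 from rfl] at e2
    rw [show (3 : Fin 4) + 1 = 0 from rfl] at e3
    have m : ∀ t : ℕ, t ≤ 1 → t ∈ [0, 1] := fun t ht => by simp; omega
    have k := List.all_eq_true.1 (List.all_eq_true.1 (List.all_eq_true.1 (List.all_eq_true.1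
      (List.all_eq_true.1 (List.all_eq_true.1 (List.all_eq_true.1 (List.all_eq_true.1 cI
      _ (m (dg G (univ.filter (· ∈ O 0)) v) (by omega)))
      _ (m (dg G (univ.filter (· ∈ O 1)) v) (by omega)))
      _ (m (dg G (univ.filter (· ∈ O 2)) v) (by omega)))
      _ (m (dg G (univ.filter (· ∈ O 3)) v) (by omega))) _ (m (dg G {c 0} v) (by omega)))
      _ (m (dg G {c 1} v) (by omega))) _ (m (dg G {c 2} v) (by omega)))
      _ (m (dg G {c 3} v) (by omega))
    simp only [Bool.or_eq_true, Nat.ble_eq, fS_eq] at k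
    obtain ⟨z, hz, cz⟩ := List.any_eq_true.1 (k.resolve_left (by omega))
    obtain ⟨rz, jz⟩ := Rl.cover (G := G) (Y := Y) (S := fun i => O i ∪ {c i, c (i + 1)}) (O := O)
      (A := {v}) (v := v) ⟨by simp [ini], by simpa using hv, Conn.singleton v,
        mem_singleton_self v, r0, r1, r2, r3⟩ cz
    refine ⟨z, hz, rz, ?_⟩
    have dd : dg G univ v ≤ dg G Y v +
        ∑ i, (dg G (univ.filter (· ∈ O i)) v + dg G {c i} v) := by
      refine le_trans (card_le_card (t := Y.filter (G.Adj v) ∪ univ.biUnion fun i =>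
        (univ.filter (· ∈ O i) ∪ {c i}).filter (G.Adj v)) fun x hx => ?_)
        ((card_union_le _ _).trans (Nat.add_le_add_left
          (card_biUnion_le.trans (sum_le_sum fun i _ => dg_union_le _ _ _)) _))
      have a := (mem_filter.1 hx).2
      by_cases b : x ∈ Y
      · exact mem_union_left _ (mem_filter.2 ⟨b, a⟩)
      obtain ⟨i, hi⟩ := hC v hv x b a.symm
      exact mem_union_right _ (mem_biUnion.2 ⟨i, mem_univ _, mem_filter.2
        ⟨by simpa [or_comm] using hi, a⟩⟩)
    rw [Fin.sum_univ_four] at dd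
    have := hY.deg v hv
    simp only [ini] at jz
    omega
  have : Nonempty St := ⟨dec 0⟩
  choose! σ h1 h2 h3 using key
  have := card_pos.2 hY.conn.1
  exact prune hX hS hY.acyc cS cF (Y.card - 1) Y (fun v => {v}) σ (by omega)
    subset_rfl hY.conn (fun v hv => ⟨h1 v hv, h2 v hv, h3 v hv⟩)
    (fun u _ v _ ne => disjoint_singleton.2 ne) fun y hy => ⟨y, hy, mem_singleton_self y⟩

end Pool.Agent.MP_e6539c_co.C5
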