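import Pool.Agent.MP_e6539c_co.C5.Basic

/-! A move across an empty arc leaves only tiny trees. -/

set_option autoImplicit false

namespace Pool.Agent.MP_e6539c_co.C5

open Finset
open Pool.Agent.MP_7be75d_co (R Conn comp)
open Pool.Agent.MP_7be75d_co
open scoped Classical

theorem quad (hQ : QtreeStmt) (hX : XcoreStmt) : QuadStmt := by
  intro V _ G Γ C c A h h0 hc m d g e0 e1 cl nc y hy
  set Y := comp G (C \ inner m d) y
  have hY : Y ⊆ C := comp_subset.trans sdiff_subset
  have pc : Pc G Y := pc_comp h.ctx.deg sdiff_subset nc hy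
  let D := (List.range m).map fun i => d (i + 1)
  have hD : ∀ x, x ∈ D ↔ ∃ i, (1 ≤ i ∧ i ≤ m) ∧ d i = x := fun x => by
    simp only [D, List.mem_map, List.mem_range]
    exact ⟨fun ⟨i, a, b⟩ => ⟨i + 1, by omega, b⟩,
      fun ⟨i, a, b⟩ => ⟨i - 1, by omega, by rwa [Nat.sub_add_cancel a.1]⟩⟩
  have hI : ∀ x, x ∈ inner m d ↔ x ∈ D := fun x => by simp only [hD, inner, mem_image, mem_Icc]
  have hC : ∀ x ∈ D, x ∈ C := fun x hx => by
    obtain ⟨i, a, rfl⟩ := (hD x).1 hx
    exact g.mem i a.1 a.2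
  let A' : Fin 4 → List V := fun i => if i = 0 then D else A i
  have a0 : A' 0 = D := if_pos rfl
  have a1 : ∀ i, i ≠ 0 → A' i = A i := fun i n => if_neg n
  have cA : ∀ i j, c i ∉ A' j := fun i j k => by
    by_cases e : j = 0
    · rw [e, a0] at k
      exact h.outc i (hC _ k)
    · exact h.cA i j (a1 j e ▸ k)
  refine hQ V G Y (fun i => {x | x ∈ A' i}) c pc h.inj (fun i j => cA j i) (fun i => ?_)
    (fun w hw x hx a => ?_) fun U u U' u' dj k k' b0 b2 b1 b3 => h.ctx.np
      (hX V G Γ Y U U' c A' pc.conn (fun w hw x => (h.ctx.agree w (hY hw) x).2) h.inj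
        (fun i j n x p q => ?_) cA (fun i k => h.outc i (hY k)) (fun i x p q => ?_)
        (fun i => ?_) h.chord u u' dj k k' b0 b2 b1 b3)
  · by_cases e : i = 0
    · subst e
      refine cl.mono comp_subset ?_
      rintro x (k | rfl | rfl)
      · obtain ⟨i, a, rfl⟩ := (hD x).1 (a0 ▸ k)
        exact ⟨i, by omega, rfl⟩
      · exact ⟨0, by omega, e0.symm⟩
      · exact ⟨m + 1, le_rfl, e1.symm⟩
    · refine (hc i e).mono hY ?_
      rintro x (k | rfl | rfl)
      · simp [← a1 i e, show x ∈ A' i from k]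
      · simp
      · simp
  · have hw' : w ∈ C \ inner m d := comp_subset hw
    by_cases k : x ∈ C
    · by_cases k' : x ∈ inner m d
      · exact ⟨0, .inr (show x ∈ A' 0 from a0 ▸ (hI x).1 k')⟩
      · exact absurd (comp_closed hw (mem_sdiff.2 ⟨k, k'⟩) a.symm) hx
    · obtain ⟨i, e | e⟩ := h.cov w (hY hw) x k a
      · exact ⟨i, .inl e⟩
      · have n : i ≠ 0 := fun n => by simp [n, h0] at e
        exact ⟨i, .inr (show x ∈ A' i from a1 i n ▸ e)⟩
  · by_cases e : i = 0
    · subst e
      exact h.outA j x (a1 j n.symm ▸ q) (hC x (a0 ▸ p))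
    · by_cases e' : j = 0
      · subst e'
        exact h.outA i x (a1 i e ▸ p) (hC x (a0 ▸ q))
      · exact h.disj i j n x (a1 i e ▸ p) (a1 j e' ▸ q)
  · by_cases e : i = 0
    · subst e
      exact (mem_sdiff.1 (comp_subset q)).2 ((hI x).2 (a0 ▸ p))
    · exact h.outA i x (a1 i e ▸ p) (hY q)
  · by_cases e : i = 0
    · subst e
      have : d 0 :: (D ++ [d (m + 1)]) = (List.range (m + 2)).map d := by
        rw [List.range_succ_eq_map, List.map_cons, List.map_map, List.range_succ, List.map_append]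
        rfl
      rw [a0, zero_add, ← e0, ← e1, this, List.isChain_map, List.isChain_range_succ]
      intro i hi
      rcases Nat.eq_zero_or_pos i with e | e
      · subst e
        exact (h.ctx.adj (g.mem 1 le_rfl g.pos)).2 (g.adj 0 (Nat.zero_le _))
      · exact (h.ctx.agree _ (g.mem i e (by omega)) _).2 (g.adj i (by omega))
    · exact a1 i e ▸ h.ch i

end Pool.Agent.MP_e6539c_co.C5
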