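import Mathlib.GroupTheory.GroupAction.Ring
import Pool.Agent.MP_e6539c_co.C5.Basic

/-! The two paths theorem: splitting the frame along a two-vertex separation. -/

set_option autoImplicit false

namespace Pool.Agent.MP_e6539c_co.C5

open Finset
open Pool.Agent.MP_7be75d_co (R Conn comp)
open Pool.Agent.MP_7be75d_co
open scoped Classical

namespace Split

variable {V : Type} {H : SimpleGraph V} {T T' : Finset V} {x y : V} {I J : List V}

/-- The edges of `H` with an end in `T`, together with the edge `e`. -/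
def sd (H : SimpleGraph V) (T : Finset V) (e : Sym2 V) : SimpleGraph V where
  Adj u v := u ≠ v ∧ ((H.Adj u v ∧ (u ∈ T ∨ v ∈ T)) ∨ s(u, v) = e)
  symm := ⟨fun _ _ h => ⟨h.1.symm, h.2.imp (fun k => ⟨k.1.symm, k.2.symm⟩)
    fun k => Sym2.eq_swap.trans k⟩⟩
  loopless := ⟨fun _ h => h.1 rfl⟩

/-- `T` misses `x, y` and its neighbours are in `T` or equal to `x` or `y`. -/
structure Side (H : SimpleGraph V) (T : Finset V) (x y : V) : Prop where
  hx : x ∉ T
  hy : y ∉ T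
  cl : ∀ v ∈ T, ∀ w, H.Adj v w → w ∈ T ∨ w = x ∨ w = y

theorem sd_adj {e : Sym2 V} {u v : V} :
    (sd H T e).Adj u v ↔ u ≠ v ∧ ((H.Adj u v ∧ (u ∈ T ∨ v ∈ T)) ∨ s(u, v) = e) := Iff.rfl

theorem sd_of_mem {e : Sym2 V} {u v : V} (h : H.Adj u v) (hu : u ∈ T) : (sd H T e).Adj u v :=
  ⟨h.ne, Or.inl ⟨h, Or.inl hu⟩⟩

theorem sd_edge (h : x ≠ y) : (sd H T s(x, y)).Adj x y := ⟨h, Or.inr rfl⟩

theorem Side.symm (h : Side H T x y) : Side H T y x :=
  ⟨h.hy, h.hx, fun v hv w a => (h.cl v hv w a).imp_right Or.symm⟩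

/-- The ends of an edge of the side lie in `T` or are `x` or `y`. -/
theorem Side.mem (h : Side H T x y) {u v : V} (a : (sd H T s(x, y)).Adj u v) :
    u ∈ T ∨ u = x ∨ u = y := by
  rcases a.2 with ⟨a, k | k⟩ | e
  · exact Or.inl k
  · exact h.cl v k u a.symm
  · rcases Sym2.eq_iff.1 e with ⟨rfl, -⟩ | ⟨rfl, -⟩
    · exact Or.inr (Or.inl rfl)
    · exact Or.inr (Or.inr rfl)

theorem sd_of_ends {u v : V} (a : H.Adj u v) (hu : u ∈ T ∨ u = x ∨ u = y)
    (hv : v ∈ T ∨ v = x ∨ v = y) : (sd H T s(x, y)).Adj u v := by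
  refine ⟨a.ne, ?_⟩
  rcases hu with hu | hu
  · exact Or.inl ⟨a, Or.inl hu⟩
  rcases hv with hv | hv
  · exact Or.inl ⟨a, Or.inr hv⟩
  have := a.ne
  rcases hu with rfl | rfl <;> rcases hv with rfl | rfl
  · exact absurd rfl this
  · exact Or.inr rfl
  · exact Or.inr Sym2.eq_swap
  · exact absurd rfl this

theorem adj_of_sd {e : Sym2 V} {u v : V} (a : (sd H T e).Adj u v) (h : s(u, v) ≠ e) :
    H.Adj u v ∧ (u ∈ T ∨ v ∈ T) := a.2.resolve_right h

/-! ### Lists -/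

theorem sub_left (x y : V) (I J : List V) :
    List.Sublist (x :: (I ++ [y])) (x :: (I ++ y :: J)) :=
  ((List.Sublist.refl I).append ((List.nil_sublist J).cons_cons y)).cons_cons x

theorem rot_xy (x y : V) (I J : List V) : (x :: (I ++ y :: J)) ~r (y :: (J ++ x :: I)) :=
  rot_iff.2 ⟨x :: I, y :: J, by simp, by simp⟩

theorem nd_facts (nd : (x :: (I ++ y :: J)).Nodup) :
    x ≠ y ∧ x ∉ I ∧ y ∉ I ∧ x ∉ J ∧ y ∉ J ∧ ∀ z ∈ I, z ∉ J := by
  simp only [List.nodup_cons, List.mem_append, List.mem_cons, not_or, List.nodup_append] at nd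
  obtain ⟨⟨a, b, c⟩, -, ⟨d, -⟩, e⟩ := nd
  exact ⟨b, a, fun k => e y k y (Or.inl rfl) rfl, c, d, fun z k k' => e z k z (Or.inr k') rfl⟩

theorem mem_tail {a b : V} {A B : List V} (e : x :: I = A ++ a :: b :: B) : b ∈ I := by
  cases A with
  | nil =>
    simp only [List.nil_append, List.cons.injEq] at e
    simp [e.2]
  | cons c A =>
    simp only [List.cons_append, List.cons.injEq] at e
    simp [e.2]

/-- A frame edge of the long frame is a frame edge of one of the two short frames. -/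
theorem fr_split {a b : V} (h : Fr (x :: (I ++ y :: J)) a b) (hI : I ≠ []) (hJ : J ≠ []) :
    (Fr (x :: (I ++ [y])) a b ∧ (a ∈ I ∨ b ∈ I)) ∨
      (Fr (y :: (J ++ [x])) a b ∧ (a ∈ J ∨ b ∈ J)) := by
  rcases fr_iff.1 h with ⟨A, B, e⟩ | ⟨M, e⟩
  · rw [← List.cons_append] at e
    rcases List.append_eq_append_iff.1 e with ⟨C, -, e2⟩ | ⟨C, e1, e2⟩
    · refine Or.inr ⟨fr_iff.2 (Or.inl ⟨C, B ++ [x], ?_⟩), Or.inr (mem_tail e2)⟩
      rw [← List.cons_append, e2]
      simp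
    · match C, e1, e2 with
      | [], _, e2 =>
        simp only [List.nil_append, List.cons.injEq] at e2
        obtain ⟨rfl, rfl⟩ := e2
        exact Or.inr ⟨fr_iff.2 (Or.inl ⟨[], B ++ [x], by simp⟩), by simp⟩
      | [c], e1, e2 =>
        simp only [List.cons_append, List.nil_append, List.cons.injEq] at e2
        obtain ⟨rfl, rfl, rfl⟩ := e2
        refine Or.inl ⟨fr_iff.2 (Or.inl ⟨A, [], ?_⟩), Or.inl ?_⟩
        · rw [← List.cons_append, e1]
          simp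
        · cases A with
          | nil =>
            simp only [List.nil_append, List.cons.injEq] at e1
            exact absurd e1.2 hI
          | cons d A =>
            simp only [List.cons_append, List.cons.injEq] at e1
            simp [e1.2]
      | c :: d :: C, e1, e2 =>
        simp only [List.cons_append, List.cons.injEq] at e2
        obtain ⟨rfl, rfl, -⟩ := e2
        refine Or.inl ⟨fr_iff.2 (Or.inl ⟨A, C ++ [y], ?_⟩), Or.inr (mem_tail e1)⟩
        rw [← List.cons_append, e1]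
        simp
  · simp only [List.cons.injEq] at e
    obtain ⟨rfl, e⟩ := e
    obtain ⟨K, c, rfl⟩ : ∃ K c, J = K ++ [c] :=
      ⟨J.dropLast, J.getLast hJ, (List.dropLast_append_getLast hJ).symm⟩
    have e' : (I ++ y :: K) ++ [c] = M ++ [a] := by simpa using e
    obtain rfl : c = a := by simpa using (List.append_inj' e' rfl).2
    exact Or.inr ⟨fr_iff.2 (Or.inl ⟨y :: K, [], by simp⟩), by simp⟩

/-- Four vertices in order on `x :: I ++ [y]`: only the first can be `x`, only the last `y`. -/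
theorem four_ends {a u b v : V} (nd : (x :: (I ++ [y])).Nodup)
    (s : List.Sublist [a, u, b, v] (x :: (I ++ [y]))) :
    a ≠ b ∧ u ≠ v ∧ y ≠ a ∧ y ≠ b ∧ x ≠ u ∧ x ≠ v := by
  have n4 := nd.sublist s
  have t1 : List.Sublist [u, b, v] (I ++ [y]) := by simpa using s.tail
  have t2 : List.Sublist [a, u, b] (x :: I) := by
    have h1 : List.Sublist ([a, u, b] ++ [v]).reverse ((x :: I) ++ [y]).reverse := s.reverse
    have h2 := h1.tail
    simp only [List.reverse_append, List.reverse_singleton, List.singleton_append,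
      List.tail_cons] at h2
    exact List.reverse_sublist.1 h2
  have hx : x ∉ I ++ [y] := (List.nodup_cons.1 nd).1
  have hy : y ∉ x :: I := by
    rw [← List.cons_append, List.nodup_append] at nd
    exact fun k => nd.2.2 y k y (by simp) rfl
  simp only [List.nodup_cons, List.mem_cons, not_or] at n4
  refine ⟨n4.1.2.1, n4.2.1.2.1, ?_, ?_, ?_, ?_⟩
  · rintro rfl
    exact hy (t2.subset (by simp))
  · rintro rfl
    exact hy (t2.subset (by simp))
  · rintro rfl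
    exact hx (t1.subset (by simp))
  · rintro rfl
    exact hx (t1.subset (by simp))

/-! ### One side -/

theorem side_frame (fr : Frame H (x :: (I ++ y :: J))) (hI : I ≠ []) (sub : ∀ u ∈ I, u ∈ T) :
    Frame (sd H T s(x, y)) (x :: (I ++ [y])) := by
  have nd := fr.nd.sublist (sub_left x y I J)
  have hxy := (nd_facts fr.nd).1
  refine frame_of nd hI ?_ (sd_edge hxy).symm
  have m : ∀ z ∈ x :: (I ++ [y]), z ∈ T ∨ z = x ∨ z = y := by
    intro z hz
    simp only [List.mem_cons, List.mem_append, List.not_mem_nil, or_false] at hz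
    rcases hz with h | h | h
    exacts [Or.inr (Or.inl h), Or.inl (sub z h), Or.inr (Or.inr h)]
  rw [List.isChain_iff_forall_rel_of_append_cons_cons]
  intro a b l₁ l₂ e
  refine sd_of_ends (fr.adj a b (fr_iff.2 (Or.inl ⟨l₁, l₂ ++ J, ?_⟩))) (m a (by simp [e]))
    (m b (by simp [e]))
  have : x :: (I ++ y :: J) = (x :: (I ++ [y])) ++ J := by simp
  rw [this, e]
  simp

theorem side_lt [Fintype V] (fr : Frame H (x :: (I ++ y :: J))) (hJ : J ≠ [])
    (h : Side H T x y) (off : ∀ u ∈ J, u ∉ T) :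
    (sd H T s(x, y)).edgeSet.ncard < H.edgeSet.ncard := by
  obtain ⟨hxy, -, -, xJ, yJ, -⟩ := nd_facts fr.nd
  obtain ⟨j, hj, a⟩ : ∃ j ∈ J, H.Adj y j := by
    obtain ⟨j, K, rfl⟩ := List.exists_cons_of_ne_nil hJ
    exact ⟨j, by simp, fr.adj y j (fr_iff.2 (Or.inl ⟨x :: I, K, by simp⟩))⟩
  obtain ⟨k, hk, b⟩ : ∃ k ∈ J, H.Adj k x := by
    obtain ⟨K, c, rfl⟩ : ∃ K c, J = K ++ [c] :=
      ⟨J.dropLast, J.getLast hJ, (List.dropLast_append_getLast hJ).symm⟩
    exact ⟨c, by simp, fr.adj c x (fr_iff.2 (Or.inr ⟨I ++ y :: K, by simp⟩))⟩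
  have no : ∀ z ∈ J, ∀ w, ¬ (sd H T s(x, y)).Adj z w := fun z hz w c => by
    rcases h.mem c with t | rfl | rfl
    exacts [off z hz t, xJ hz, yJ hz]
  have ne : s(y, j) ≠ s(k, x) := fun e => by
    rcases Sym2.eq_iff.1 e with ⟨rfl, -⟩ | ⟨e, -⟩
    exacts [yJ hk, hxy e.symm]
  have sub : (sd H T s(x, y)).edgeSet ⊆
      insert s(x, y) ((H.edgeSet \ {s(y, j)}) \ {s(k, x)}) := by
    intro e he
    induction e using Sym2.ind with
    | h u v =>
      by_cases c : s(u, v) = s(x, y)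
      · exact Or.inl c
      · refine Or.inr ⟨⟨(adj_of_sd he c).1, fun t => ?_⟩, fun t => ?_⟩
        · rw [Set.mem_singleton_iff.1 t] at he
          exact no j hj y (SimpleGraph.Adj.symm he)
        · rw [Set.mem_singleton_iff.1 t] at he
          exact no k hk x he
  have h1 := Set.ncard_le_ncard sub (Set.toFinite _)
  have h2 := Set.ncard_insert_le s(x, y) ((H.edgeSet \ {s(y, j)}) \ {s(k, x)})
  have h3 := Set.ncard_sdiff_singleton_lt_of_mem (s := H.edgeSet \ {s(y, j)}) (a := s(k, x))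
    ⟨b, fun t => ne (Set.mem_singleton_iff.1 t).symm⟩ (Set.toFinite _)
  have h4 := Set.ncard_sdiff_singleton_lt_of_mem (s := H.edgeSet) (a := s(y, j)) a (Set.toFinite _)
  omega

/-- A connected set of the side that misses `x` or `y` is connected in `H` and misses `J`. -/
theorem side_set (nd : (x :: (I ++ y :: J)).Nodup) (h : Side H T x y) (off : ∀ u ∈ J, u ∉ T)
    {X : Finset V} {a b : V} (c : Conn (sd H T s(x, y)) X) (hab : a ≠ b) (m : x ∉ X ∨ y ∉ X)
    (f : ∀ z, (z ∈ X ∧ z ∈ x :: (I ++ [y])) ↔ (z = a ∨ z = b)) :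
    Conn H X ∧ ∀ z, (z ∈ X ∧ z ∈ x :: (I ++ y :: J)) ↔ (z = a ∨ z = b) := by
  obtain ⟨-, -, -, xJ, yJ, -⟩ := nd_facts nd
  refine ⟨c.mono' fun p q e hp hq => (adj_of_sd e fun t => ?_).1, fun z => ?_⟩
  · rcases Sym2.eq_iff.1 t with ⟨rfl, rfl⟩ | ⟨rfl, rfl⟩
    exacts [m.elim (· hp) (· hq), m.elim (· hq) (· hp)]
  · rw [← f]
    refine and_congr_right fun hz => ⟨fun k => ?_, fun k => (sub_left x y I J).subset k⟩
    have nJ : z ∉ J := fun t => by
      obtain ⟨w, hw, ne⟩ : ∃ w ∈ X, z ≠ w := by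
        by_cases e : z = a
        · exact ⟨b, ((f b).2 (Or.inr rfl)).1, e ▸ hab⟩
        · exact ⟨a, ((f a).2 (Or.inl rfl)).1, e⟩
      obtain ⟨w', -, e⟩ := c.exists_adj hz hw ne
      rcases h.mem e with t' | rfl | rfl
      exacts [off z t t', xJ t, yJ t]
    simp only [List.mem_cons, List.mem_append, List.not_mem_nil, or_false] at k ⊢
    tauto

theorem side_cross (nd : (x :: (I ++ y :: J)).Nodup) (h : Side H T x y) (off : ∀ u ∈ J, u ∉ T)
    (c : Cross (sd H T s(x, y)) (x :: (I ++ [y]))) : Cross H (x :: (I ++ y :: J)) := by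
  obtain ⟨a, u, b, v, X₁, X₂, s, c₁, c₂, d, f, g⟩ := c.norm
  obtain ⟨ab, uv, ya, yb, xu, xv⟩ := four_ends (nd.sublist (sub_left x y I J)) s
  obtain ⟨k₁, f'⟩ := side_set nd h off c₁ ab
    (Or.inr fun t => ((f y).1 ⟨t, by simp⟩).elim ya yb) f
  obtain ⟨k₂, g'⟩ := side_set nd h off c₂ uv
    (Or.inl fun t => ((g x).1 ⟨t, by simp⟩).elim xu xv) g
  exact cross_mk (s.trans (sub_left x y I J)) k₁ k₂ d f' g'

theorem exists_union (F₁ F₂ : Finset (Vec V)) : ∃ F : Finset (Vec V),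
    (∀ f, f ∈ F ↔ f ∈ F₁ ∨ f ∈ F₂) ∧ ∀ e, cov F e ≤ cov F₁ e + cov F₂ e :=
  ⟨F₁ ∪ F₂, fun _ => mem_union, cov_union_le F₁ F₂⟩

variable [Fintype V]

theorem side_fc (fc : FC H (x :: (I ++ y :: J))) (h : Side H T x y) (off : ∀ u ∈ J, u ∉ T) :
    FC (sd H T s(x, y)) (x :: (I ++ [y])) := by
  intro Z y₁ y₂ y₃ hZ bd w ev sp
  have inT : ∀ z ∈ Z, ∀ q, (sd H T s(x, y)).Adj z q → z ∈ T := fun z hz q a => by
    rcases h.mem a with t | rfl | rfl
    · exact t
    · exact absurd (by simp) (hZ _ hz)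
    · exact absurd (by simp) (hZ _ hz)
  have sp' : ∀ u v, w s(u, v) ≠ 0 → u ∈ Z ∩ T ∨ v ∈ Z ∩ T := fun u v c =>
    (sp u v c).imp (fun k => mem_inter.2 ⟨k, inT u k v (ev.1 u v c)⟩)
      fun k => mem_inter.2 ⟨k, inT v k u (ev.1 u v c).symm⟩
  refine fc (Z ∩ T) y₁ y₂ y₃ (fun z hz k => ?_) (fun z hz q a => ?_) w
    (ev.mono fun u v c a => (adj_of_sd a fun t => ?_).1) sp'
  · obtain ⟨h1, h2⟩ := mem_inter.1 hz
    have := hZ z h1
    have := fun t => off z t h2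
    simp only [List.mem_cons, List.mem_append, List.not_mem_nil, or_false] at *
    tauto
  · obtain ⟨h1, h2⟩ := mem_inter.1 hz
    have a' : (sd H T s(x, y)).Adj z q := sd_of_mem a h2
    exact (bd z h1 q a').imp_left fun k => mem_inter.2 ⟨k, inT q k z a'.symm⟩
  · have hx := h.hx
    have hy := h.hy
    rcases Sym2.eq_iff.1 t with ⟨rfl, rfl⟩ | ⟨rfl, rfl⟩ <;>
      rcases sp' _ _ c with k | k <;> have := (mem_inter.1 k).2 <;> contradiction

theorem side_basis (fr : Frame H (x :: (I ++ y :: J))) (nc : ¬ Cross H (x :: (I ++ y :: J)))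
    (fc : FC H (x :: (I ++ y :: J))) (hI : I ≠ []) (hJ : J ≠ []) (h : Side H T x y)
    (sub : ∀ u ∈ I, u ∈ T) (off : ∀ u ∈ J, u ∉ T) (ih : TPih H) :
    ∃ F, Basis (sd H T s(x, y)) (x :: (I ++ [y])) F :=
  ih _ _ (side_lt fr hJ h off) (side_frame fr hI sub) (fun c => nc (side_cross fr.nd h off c))
    (side_fc fc h off)

/-! ### Cutting an even set in two -/

/-- The part of an even set on the edges that meet `T`, completed by the edge `xy`. -/
theorem piece (hxy : x ≠ y) (h : Side H T x y) {w : Vec V} (ev : Ev H w) :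
    ∃ w₁, Ev (sd H T s(x, y)) w₁ ∧ ∀ u v, s(u, v) ≠ s(x, y) →
      w₁ s(u, v) = if u ∈ T ∨ v ∈ T then w s(u, v) else 0 := by
  obtain ⟨w₀, h0⟩ : ∃ w₀ : Vec V, ∀ u v,
      w₀ s(u, v) = if u ∈ T ∨ v ∈ T then w s(u, v) else 0 :=
    ⟨fun e => if ∃ t ∈ T, t ∈ e then w e else 0, fun u v => if_congr
      ⟨fun ⟨t, a, b⟩ => (Sym2.mem_iff.1 b).imp (fun e : t = u => e ▸ a) (fun e : t = v => e ▸ a),
        fun k => k.elim (fun a => ⟨u, a, by simp⟩) fun a => ⟨v, a, by simp⟩⟩ rfl rfl⟩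
  have sp : ∀ u v, w₀ s(u, v) ≠ 0 → H.Adj u v ∧ (u ∈ T ∨ v ∈ T) := fun u v c => by
    rw [h0] at c
    by_cases k : u ∈ T ∨ v ∈ T
    · exact ⟨ev.1 u v (by rwa [if_pos k] at c), k⟩
    · exact absurd (if_neg k) c
  have p0 : ∀ v, v ≠ x → v ≠ y → par w₀ v = 0 := fun v a b => by
    by_cases k : v ∈ T
    · rw [← ev.2 v]
      exact sum_congr rfl fun u _ => by rw [h0, if_pos (Or.inl k)]
    · refine sum_eq_zero fun u _ => ?_
      by_contra c
      obtain ⟨e, t | t⟩ := sp v u c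
      · exact k t
      · rcases h.cl u t v e.symm with t | t | t
        exacts [k t, a t, b t]
  have pxy : par w₀ x + par w₀ y = 0 := by
    rw [← sum_par (x := w₀) fun v => by_contra fun c => (sp v v c).1.ne rfl, ← sum_pair hxy]
    refine sum_subset (subset_univ _) fun v _ hv => ?_
    simp only [mem_insert, mem_singleton, not_or] at hv
    exact p0 v hv.1 hv.2
  have off : ∀ u v, s(u, v) ≠ s(x, y) → (w₀ + par w₀ x • ed x y) s(u, v) = w₀ s(u, v) :=
    fun u v c => by rw [Pi.add_apply, Pi.smul_apply, ed, if_neg c, smul_zero, add_zero]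
  refine ⟨w₀ + par w₀ x • ed x y, ⟨fun u v c => ?_, fun v => ?_⟩, fun u v c => ?_⟩
  · by_cases e : s(u, v) = s(x, y)
    · refine ⟨?_, Or.inr e⟩
      rcases Sym2.eq_iff.1 e with ⟨rfl, rfl⟩ | ⟨rfl, rfl⟩
      exacts [hxy, hxy.symm]
    · rw [off u v e] at c
      exact ⟨(sp u v c).1.ne, Or.inl (sp u v c)⟩
  · rw [par_add, par_smul, par_ed hxy]
    by_cases a : v = x
    · subst a
      rw [if_pos rfl, if_neg hxy, add_zero, mul_one, CharTwo.add_self_eq_zero]
    · by_cases b : v = y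
      · subst b
        rw [if_neg a, if_pos rfl, zero_add, mul_one, add_comm, pxy]
      · rw [if_neg a, if_neg b, p0 v a b, add_zero, mul_zero, add_zero]
  · rw [off u v c, h0]

/-- An even set is the sum of even sets of the two sides. -/
theorem cut (hxy : x ≠ y) (h : Side H T x y) (hT : ∀ v, v ∉ T → v ∈ T' ∨ v = x ∨ v = y)
    {w : Vec V} (ev : Ev H w) :
    ∃ w₁ w₂, Ev (sd H T s(x, y)) w₁ ∧ Ev (sd H T' s(x, y)) w₂ ∧ w = w₁ + w₂ := by
  obtain ⟨w₁, e₁, h₁⟩ := piece hxy h ev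
  refine ⟨w₁, w₁ + w, e₁, ⟨fun u v c => ?_, fun v => by rw [par_add, e₁.2, ev.2, add_zero]⟩,
    by rw [← add_assoc, z2_add_self, zero_add]⟩
  by_cases e : s(u, v) = s(x, y)
  · refine ⟨?_, Or.inr e⟩
    rcases Sym2.eq_iff.1 e with ⟨rfl, rfl⟩ | ⟨rfl, rfl⟩
    exacts [hxy, hxy.symm]
  · rw [Pi.add_apply, h₁ u v e] at c
    by_cases k : u ∈ T ∨ v ∈ T
    · rw [if_pos k] at c
      exact absurd (CharTwo.add_self_eq_zero _) c
    · rw [if_neg k, zero_add] at c
      exact sd_of_ends (ev.1 u v c) (hT u fun t => k (Or.inl t)) (hT v fun t => k (Or.inr t))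

/-- A family of even sets of one side does not cover an edge that meets the other side. -/
theorem cov_other (h : Side H T x y) (h' : Side H T' x y) (d : ∀ v ∈ T, v ∉ T')
    {F : Finset (Vec V)} (ev : ∀ f ∈ F, Ev (sd H T' s(x, y)) f) {u v : V}
    (k : u ∈ T ∨ v ∈ T) : cov F s(u, v) = 0 := by
  refine cov_eq_zero fun f hf => by_contra fun c => ?_
  have a := (ev f hf).1 u v c
  rcases k with k | k
  · rcases h'.mem a with t | rfl | rfl
    exacts [d u k t, h.hx k, h.hy k]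
  · rcases h'.mem a.symm with t | rfl | rfl
    exacts [d v k t, h.hx k, h.hy k]

theorem ev_univ {e : Sym2 V} {f : Vec V} (h : Ev (sd H T e) f) : Ev (sd H univ e) f :=
  h.mono fun _ _ _ a => ⟨a.1, a.2.imp_left fun k => ⟨k.1, Or.inl (mem_univ _)⟩⟩

/-- The union of the two bases. -/
theorem union_basis (hxy : x ≠ y) (hI : I ≠ []) (hJ : J ≠ []) (h : Side H T x y)
    (h' : Side H T' x y) (d : ∀ v ∈ T, v ∉ T') (hT : ∀ v, v ∉ T → v ∈ T' ∨ v = x ∨ v = y)
    (sI : ∀ u ∈ I, u ∈ T) (sJ : ∀ u ∈ J, u ∈ T') {F₁ F₂ : Finset (Vec V)}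
    (b₁ : Basis (sd H T s(x, y)) (x :: (I ++ [y])) F₁)
    (b₂ : Basis (sd H T' s(x, y)) (y :: (J ++ [x])) F₂) :
    ∃ F : Finset (Vec V), (∀ f ∈ F, Ev (sd H univ s(x, y)) f) ∧ (∀ e, cov F e ≤ 2) ∧
      (∀ a b, Fr (x :: (I ++ y :: J)) a b → cov F s(a, b) ≤ 1) ∧
      ∀ w, Ev H w → w ∈ Submodule.span (ZMod 2) (F : Set (Vec V)) := by
  have d' : ∀ v ∈ T', v ∉ T := fun v a b => d v b a
  obtain ⟨F, mF, cF⟩ := exists_union F₁ F₂
  refine ⟨F, fun f hf => ?_, fun e => ?_, fun a b f => ?_, fun w ev => ?_⟩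
  · exact ((mF f).1 hf).elim (fun k => ev_univ (b₁.ev f k)) fun k => ev_univ (b₂.ev f k)
  · induction e using Sym2.ind with
    | h u v =>
      have c := cF s(u, v)
      have c₁ := b₁.two s(u, v)
      have c₂ := b₂.two s(u, v)
      by_cases e : s(u, v) = s(x, y)
      · have o₁ := b₁.one y x (fr_iff.2 (Or.inr ⟨I, rfl⟩))
        have o₂ := b₂.one x y (fr_iff.2 (Or.inr ⟨J, rfl⟩))
        rw [Sym2.eq_swap] at o₁
        rw [e] at c ⊢
        omega
      · by_cases k : u ∈ T ∨ v ∈ T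
        · have := cov_other h h' d b₂.ev k
          omega
        · have : cov F₁ s(u, v) = 0 := cov_eq_zero fun f hf => by_contra fun t =>
            k (adj_of_sd ((b₁.ev f hf).1 u v t) e).2
          omega
  · have c := cF s(a, b)
    rcases fr_split f hI hJ with ⟨f, m⟩ | ⟨f, m⟩
    · have := b₁.one a b f
      have := cov_other h h' d b₂.ev (m.imp (sI a) (sI b))
      omega
    · have := b₂.one a b f
      have := cov_other h' h d' b₁.ev (m.imp (sJ a) (sJ b))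
      omega
  · obtain ⟨w₁, w₂, e₁, e₂, rfl⟩ := cut hxy h hT ev
    exact Submodule.add_mem _
      (Submodule.span_mono (fun f k => (mF f).2 (Or.inl k)) (b₁.span w₁ e₁))
      (Submodule.span_mono (fun f k => (mF f).2 (Or.inr k)) (b₂.span w₂ e₂))

/-- The two sides of the separation. -/
theorem sides (nd : (x :: (I ++ y :: J)).Nodup)
    (sep : ∀ u ∈ I, ∀ v ∈ J, ¬ R H (univ \ {x, y}) u v) :
    ∃ T T' : Finset V, Side H T x y ∧ Side H T' x y ∧ (∀ v ∈ T, v ∉ T') ∧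
      (∀ v, v ∉ T → v ∈ T' ∨ v = x ∨ v = y) ∧ (∀ u ∈ I, u ∈ T) ∧ ∀ u ∈ J, u ∈ T' := by
  obtain ⟨-, xI, yI, xJ, yJ, -⟩ := nd_facts nd
  obtain ⟨T, hT⟩ : ∃ T : Finset V, ∀ v, v ∈ T ↔ ∃ u ∈ I, R H (univ \ {x, y}) u v :=
    ⟨univ.filter fun v => ∃ u ∈ I, R H (univ \ {x, y}) u v, fun v => by simp⟩
  obtain ⟨T', hT'⟩ : ∃ T' : Finset V, ∀ v, v ∈ T' ↔ v ∉ T ∧ v ≠ x ∧ v ≠ y :=
    ⟨univ.filter fun v => v ∉ T ∧ v ≠ x ∧ v ≠ y, fun v => by simp⟩
  have mU : ∀ v, v ∈ (univ \ {x, y} : Finset V) ↔ v ≠ x ∧ v ≠ y := fun v => by simp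
  have tU : ∀ v ∈ T, v ≠ x ∧ v ≠ y := fun v hv => by
    obtain ⟨u, hu, r⟩ := (hT v).1 hv
    exact (mU v).1 (r.mem ((mU u).2 ⟨fun e => xI (e ▸ hu), fun e => yI (e ▸ hu)⟩))
  have cl : ∀ v ∈ T, ∀ w, H.Adj v w → w ≠ x → w ≠ y → w ∈ T := fun v hv w a b c => by
    obtain ⟨u, hu, r⟩ := (hT v).1 hv
    exact (hT w).2 ⟨u, hu, r.tail a ((mU v).2 (tU v hv)) ((mU w).2 ⟨b, c⟩)⟩
  refine ⟨T, T', ⟨fun k => (tU x k).1 rfl, fun k => (tU y k).2 rfl, fun v hv w a => ?_⟩,
    ⟨fun k => ((hT' x).1 k).2.1 rfl, fun k => ((hT' y).1 k).2.2 rfl, fun v hv w a => ?_⟩,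
    fun v a b => ((hT' v).1 b).1 a, fun v hv => ?_, fun u hu => (hT u).2 ⟨u, hu, R.refl⟩,
    fun u hu => (hT' u).2 ⟨fun k => ?_, fun e => xJ (e ▸ hu), fun e => yJ (e ▸ hu)⟩⟩
  · have := cl v hv w a
    tauto
  · obtain ⟨h1, h2, h3⟩ := (hT' v).1 hv
    have := fun k => h1 (cl w k v a.symm h2 h3)
    rw [hT']
    tauto
  · rw [hT']
    tauto
  · obtain ⟨v, hv, r⟩ := (hT u).1 k
    exact sep v hv u hu r

end Split

open Split in
theorem split (h : MergeStmt) : SplitStmt := by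
  intro V _ H x y I J fr nc fc hI hJ sep ih
  have hxy := (nd_facts fr.nd).1
  obtain ⟨T, T', s, s', d, hT, sI, sJ⟩ := sides fr.nd sep
  obtain ⟨F₁, b₁⟩ := side_basis fr nc fc hI hJ s sI (fun u a b => d u b (sJ u a)) ih
  obtain ⟨F₂, b₂⟩ := side_basis (fr.rot (rot_xy x y I J))
    (fun c => nc (c.rot (rot_xy x y I J).symm)) (fc.rot (rot_xy x y I J)) hJ hI s'.symm sJ
    (fun u a => d u (sI u a)) ih
  rw [Sym2.eq_swap] at b₂
  obtain ⟨F₀, ev, two, one, span⟩ := union_basis hxy hI hJ s s' d hT sI sJ b₁ b₂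
  by_cases a : H.Adj x y
  · refine ⟨F₀, fun f hf => (ev f hf).mono fun u v _ c => ?_, two, one, span⟩
    rcases c.2 with c | e
    · exact c.1
    · rcases Sym2.eq_iff.1 e with ⟨rfl, rfl⟩ | ⟨rfl, rfl⟩
      exacts [a, a.symm]
  · obtain ⟨F, m1, m2, m3⟩ := h V F₀ s(x, y) (two _)
    refine ⟨F, fun f hf => ?_, fun e => (m2 e).trans (two e),
      fun u v f => (m2 _).trans (one u v f),
      fun w e => m3 w (span w e) (by_contra fun c => a (e.1 x y c))⟩
    obtain ⟨z, k⟩ := m1 f hf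
    have e : Ev (sd H univ s(x, y)) f := by
      rcases k with k | ⟨g, hg, g', hg', rfl⟩
      exacts [ev f k, (ev g hg).add (ev g' hg')]
    exact e.mono fun u v c t => (adj_of_sd t fun q => c (q ▸ z)).1

end Pool.Agent.MP_e6539c_co.C5
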