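import Mathlib.GroupTheory.GroupAction.Ring
import Pool.Agent.MP_e6539c_co.C5.Basic

/-! The rest of the territory stays cyclic after a geodesic is removed. -/

set_option autoImplicit false

namespace Pool.Agent.MP_e6539c_co.C5

open Finset
open Pool.Agent.MP_7be75d_co (R Conn comp)
open Pool.Agent.MP_7be75d_co
open scoped Classical

namespace Surv

variable {V : Type} [Fintype V] {G : SimpleGraph V}

theorem nbr2 {v : V} (h : 3 ≤ dg G univ v) (a b : V) : ∃ w, w ≠ a ∧ w ≠ b ∧ G.Adj v w := by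
  obtain ⟨w, -, h1, h2⟩ := exists_nbr (G := G) (W := univ) (A := {a, b}) (v := v)
    (lt_of_le_of_lt card_le_two (by omega))
  simp only [mem_insert, mem_singleton, not_or] at h1
  exact ⟨w, h1.1, h1.2, h2⟩

omit [Fintype V] in
/-- Six vertices near `z`. -/
theorem six0 (hG : Gi G) {Y : Finset V} {z p q a b c : V} (hz : z ∈ Y) (hp : p ∈ Y) (hq : q ∈ Y)
    (ha : a ∈ Y) (hb : b ∈ Y) (hc : c ∈ Y) (p2 : G.Adj z p) (q3 : G.Adj z q) (q2 : q ≠ p)
    (a1 : a ≠ z) (a2 : G.Adj p a) (b1 : b ≠ z) (b2 : b ≠ a) (b3 : G.Adj p b) (c1 : c ≠ z)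
    (c2 : G.Adj q c) : 6 ≤ Y.card := by
  have tri : ¬ G.Adj p q := fun e => by
    have := hG {p, q} z p q 1 (by simp [p2.ne, q3.ne]) p2 q3 q2.symm
      (Wk.single e (by simp) (by simp))
    omega
  have sq : ∀ x, x ≠ z → G.Adj p x → ¬ G.Adj q x := fun x hx e e' => by
    have := hG {p, x, q} z p q 2 (by simp [p2.ne, q3.ne, hx.symm]) p2 q3 q2.symm
      ((Wk.single e (by simp) (by simp)).tail e'.symm (by simp))
    omega
  have aq : a ≠ q := fun e => tri (e ▸ a2)
  have bq : b ≠ q := fun e => tri (e ▸ b3)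
  have cp : c ≠ p := fun e => tri (e ▸ c2).symm
  have ca : c ≠ a := fun e => sq a a1 a2 (e ▸ c2)
  have cb : c ≠ b := fun e => sq b b1 b3 (e ▸ c2)
  have hn : [c, b, a, q, p, z].Nodup := by
    simp [cb, ca, c2.ne', cp, c1, b2, bq, b3.ne', b1, aq, a2.ne', a1, q2, q3.ne', p2.ne']
  have := List.toFinset_card_of_nodup hn
  refine le_trans (le_of_eq this.symm) (card_le_card fun x hx => ?_)
  simp only [List.mem_toFinset, List.mem_cons, List.not_mem_nil, or_false] at hx
  rcases hx with rfl | rfl | rfl | rfl | rfl | rfl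
  exacts [hc, hb, ha, hq, hp, hz]

/-- A set that holds two levels of neighbours of `z`, up to one edge, has six vertices. -/
theorem six (hG : Gi G) {Y : Finset V} {u z : V} (hz : z ∈ Y) (hd : Deg3 G Y)
    (h1 : ∀ x, G.Adj z x → x ≠ u → x ∈ Y)
    (h2 : ∀ v ∈ Y, ∀ v' ∈ Y, G.Adj z v → G.Adj z v' → ∀ x x', G.Adj v x → G.Adj v' x' →
      (x, v) ≠ (x', v') → x ∈ Y ∨ x' ∈ Y) : 6 ≤ Y.card := by
  obtain ⟨p, p1, -, p2⟩ := nbr2 (hd z hz) u u
  obtain ⟨q, q1, q2, q3⟩ := nbr2 (hd z hz) u p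
  have hp := h1 p p2 p1
  have hq := h1 q q3 q1
  obtain ⟨a, a1, -, a2⟩ := nbr2 (hd p hp) z z
  obtain ⟨b, b1, b2, b3⟩ := nbr2 (hd p hp) z a
  obtain ⟨c, c1, -, c2⟩ := nbr2 (hd q hq) z z
  obtain ⟨e, e1, e2, e3⟩ := nbr2 (hd q hq) z c
  have pq : ∀ x x', G.Adj p x → G.Adj q x' → x ∉ Y → x' ∈ Y := fun x x' k k' n =>
    (h2 p hp q hq p2 q3 x x' k k' fun t => q2 (Prod.ext_iff.1 t).2.symm).resolve_left n
  by_cases ha : a ∈ Y
  · by_cases hb : b ∈ Y
    · rcases h2 q hq q hq q3 q3 c e c2 e3 fun t => e2 (Prod.ext_iff.1 t).1.symm with hc | he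
      · exact six0 hG hz hp hq ha hb hc p2 q3 q2 a1 a2 b1 b2 b3 c1 c2
      · exact six0 hG hz hp hq ha hb he p2 q3 q2 a1 a2 b1 b2 b3 e1 e3
    · exact six0 hG hz hq hp (pq b c b3 c2 hb) (pq b e b3 e3 hb) ha q3 p2 q2.symm c1 c2 e1 e2 e3
        a1 a2
  · have hb := (h2 p hp p hp p2 p2 a b a2 b3 fun t =>
      b2 (Prod.ext_iff.1 t).1.symm).resolve_left ha
    exact six0 hG hz hq hp (pq a c a2 c2 ha) (pq a e a2 e3 ha) hb q3 p2 q2.symm c1 c2 e1 e2 e3
      b1 b3

omit [Fintype V] in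
theorem mem_inner {m : ℕ} {d : ℕ → V} {x : V} :
    x ∈ inner m d ↔ ∃ i, 1 ≤ i ∧ i ≤ m ∧ d i = x := by
  simp only [inner, mem_image, mem_Icc, and_assoc]

omit [Fintype V] in
/-- The neighbours of a component lie on the geodesic or outside the territory. -/
theorem cov_comp {C : Finset V} {m : ℕ} {d : ℕ → V} {T : Set V} {y : V}
    (h : Cov G C ({d 0, d (m + 1)} ∪ T)) :
    Cov G (comp G (C \ inner m d) y) ({x | ∃ i ≤ m + 1, x = d i} ∪ T) := by
  intro w hw x hx a
  have hw' : w ∈ C \ inner m d := comp_subset hw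
  by_cases hC : x ∈ C
  · by_cases hD : x ∈ inner m d
    · obtain ⟨i, -, h2, rfl⟩ := mem_inner.1 hD
      exact Or.inl ⟨i, by omega, rfl⟩
    · exact absurd (comp_closed hw (mem_sdiff.2 ⟨hC, hD⟩) a.symm) hx
  · rcases h w (mem_sdiff.1 hw').1 x hC a with (e | e) | e
    · exact Or.inl ⟨0, by omega, e⟩
    · exact Or.inl ⟨m + 1, le_rfl, e⟩
    · exact Or.inr e

/-- The data of the two harder cases. -/
structure Dat (G : SimpleGraph V) (C : Finset V) (m : ℕ) (d : ℕ → V) (S : Set V)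
    (X : Finset V) : Prop where
  gi : Gi G
  deg : Deg3 G C
  geo : Geo G C m d
  nc : ¬ Cyc G (C \ inner m d)
  cl : Cls G (C \ inner m d) {x | ∃ i ≤ m + 1, x = d i}
  far : ∀ i j w w' r, i ≤ j → j ≤ m + 1 → G.Adj (d i) w → G.Adj (d j) w' → (i = j → w ≠ w') →
      Wk G (C \ inner m d) w w' r → 9 + i ≤ r + j
  cs : Cls G C S
  cov : Cov G C ({d 0, d (m + 1)} ∪ (S ∪ ↑X))
  ty : X.card ≤ 3 ∨ (S = ∅ ∧ X.card ≤ 5)
  five : ∀ y ∈ C \ inner m d, (comp G (C \ inner m d) y).card ≤ 5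

variable {C X : Finset V} {m : ℕ} {d : ℕ → V} {S : Set V}

/-- In a component with five vertices every single vertex is active and the class has two
marks. -/
theorem Dat.full (h : Dat G C m d S X) {y : V} (hy : y ∈ C \ inner m d)
    (h5 : (comp G (C \ inner m d) y).card = 5) :
    (∀ x ∈ X, Act G (comp G (C \ inner m d) y) x) ∧
      (S = ∅ ∨ 2 ≤ (mks G (comp G (C \ inner m d) y) S).card) := by
  have pc := pc_comp h.deg sdiff_subset h.nc hy
  have c0 := pc.count (cov_comp (y := y) h.cov)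
  have c1 := mks_union_le (G := G) (comp G (C \ inner m d) y) {x | ∃ i ≤ m + 1, x = d i}
    (S ∪ ↑X)
  have c2 := mks_union_le (G := G) (comp G (C \ inner m d) y) S ↑X
  have c3 := mks_cls_two pc.conn (h.cl.mono comp_subset subset_rfl) (by omega)
  have c4 := mks_cls_two pc.conn (h.cs.mono (comp_subset.trans sdiff_subset) subset_rfl)
    (by omega)
  have c5 := mks_fin h.gi X pc.conn (by omega)
  have c6 := card_filter_le X fun x => x ∉ comp G (C \ inner m d) y ∧
    Act G (comp G (C \ inner m d) y) x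
  have key : X.card ≤ (X.filter fun x => x ∉ comp G (C \ inner m d) y ∧
      Act G (comp G (C \ inner m d) y) x).card ∧
      (S = ∅ ∨ 2 ≤ (mks G (comp G (C \ inner m d) y) S).card) := by
    rcases h.ty with k | ⟨k, k'⟩
    · exact ⟨by omega, Or.inr (by omega)⟩
    · have : (mks G (comp G (C \ inner m d) y) S).card = 0 := by
        rw [card_eq_zero, eq_empty_iff_forall_notMem]
        intro p hp
        have := (mem_mks.1 hp).2.1
        rw [k] at this
        exact this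
      exact ⟨by omega, Or.inl k⟩
  refine ⟨fun x hx => ?_, key.2⟩
  have e := eq_of_subset_of_card_le (filter_subset _ X) key.1
  rw [← e] at hx
  exact (mem_filter.1 hx).2.2

theorem Dat.two (h : Dat G C m d S X) {y w w' : V} (hy : y ∈ C \ inner m d) {i j : ℕ}
    (hi : 1 ≤ i) (hij : i ≤ j) (hj : j ≤ m) (hw : w ∈ comp G (C \ inner m d) y)
    (hw' : w' ∈ comp G (C \ inner m d) y) (a : G.Adj (d i) w) (a' : G.Adj (d j) w')
    (ne : (d i, w) ≠ (d j, w')) : False := by
  have g := h.geo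
  have pc := pc_comp h.deg sdiff_subset h.nc hy
  have five := h.five y hy
  have YU : comp G (C \ inner m d) y ⊆ C \ inner m d := comp_subset
  have YC : comp G (C \ inner m d) y ⊆ C := YU.trans sdiff_subset
  have full := h.full hy
  have clY := h.cl.mono YU subset_rfl
  generalize hY : comp G (C \ inner m d) y = Y at *
  obtain ⟨L, f, l0, rfl, rfl, f2, f3, f4⟩ := (conn_wk pc.conn hw hw').exists_path
  have seg : ∀ s t, s ≤ t → t ≤ L → Wk G Y (f s) (f t) (t - s) := fun s t h1 h2 =>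
    Wk.of_fun h1 (fun k _ hk => f2 k (by omega)) (fun k _ hk => f3 k (by omega))
  have l4 := clY.two (d i, f 0) (d j, f L) _ ⟨⟨i, by omega, rfl⟩, hw, a⟩
    ⟨⟨j, by omega, rfl⟩, hw', a'⟩ ne (seg 0 L (by omega) le_rfl)
  obtain rfl : L = 4 := by omega
  have h5 : Y.card = 5 := by omega
  obtain ⟨act, two⟩ := full h5
  have all : ∀ v ∈ Y, ∃ s ≤ 4, f s = v := by
    have e : (range 5).image f = Y := by
      refine eq_of_subset_of_card_le (fun v hv => ?_) ?_
      · obtain ⟨s, hs, rfl⟩ := mem_image.1 hv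
        exact f2 s (by have := mem_range.1 hs; omega)
      · rw [card_image_of_injOn, card_range, h5]
        intro s hs t ht
        exact f4 s (by have := mem_range.1 hs; omega) t (by have := mem_range.1 ht; omega)
    intro v hv
    rw [← e] at hv
    obtain ⟨s, hs, rfl⟩ := mem_image.1 hv
    exact ⟨s, by have := mem_range.1 hs; omega, rfl⟩
  have w04 : Wk G Y (f 0) (f 4) 4 := seg 0 4 (by omega) le_rfl
  have e1 := h.far i j _ _ 4 hij (by omega) a a' (fun e e' => ne (by rw [e, e'])) (w04.mono YU)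
  have e2 := g.short i j _ _ 4 (by omega) a a' (w04.mono YC)
  have dseg : ∀ s t, 1 ≤ s → s ≤ t → t ≤ m → Wk G C (d s) (d t) (t - s) := fun s t h0 h1 h2 =>
    Wk.of_fun h1 (fun k _ _ => g.mem k (by omega) (by omega)) (fun k _ _ => g.adj k (by omega))
  have u0 : Wk G C (d (i + 3)) (f 0) 4 :=
    ((dseg i (i + 3) hi (by omega) (by omega)).symm.tail a (YC hw)).le (by omega)
  have u4 : Wk G C (d (i + 3)) (f 4) 4 :=
    ((dseg (i + 3) j (by omega) (by omega) hj).tail a' (YC hw')).le (by omega)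
  have u6 : ∀ v ∈ Y, Wk G C (d (i + 3)) v 6 := by
    intro v hv
    obtain ⟨s, hs, rfl⟩ := all v hv
    by_cases k : s ≤ 2
    · exact (u0.trans ((seg 0 s (by omega) hs).mono YC)).le (by omega)
    · exact (u4.trans ((seg s 4 hs le_rfl).mono YC).symm).le (by omega)
  -- an outside vertex off the geodesic with a neighbour near the middle vertex is in the class
  have out2 : ∀ x v, x ∉ C → (∀ t ≤ m + 1, x ≠ d t) → G.Adj x v → v ∉ Y →
      Wk G C (d (i + 3)) v 2 → x ∈ S := by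
    intro x v hx hxd e hv wk
    rcases h.cov v wk.right x hx e with (k | k) | k | k
    · exact absurd k (hxd 0 (by omega))
    · exact absurd k (hxd (m + 1) le_rfl)
    · exact k
    · obtain ⟨v', hv', e'⟩ := act x k
      have := h.gi C x v v' _ hx e e' (fun c => hv (c ▸ hv')) (wk.symm.trans (u6 v' hv'))
      omega
  have out : ∀ x v, x ∉ C → (∀ t ≤ m + 1, x ≠ d t) → G.Adj x v → v ∉ Y →
      Wk G C (d (i + 3)) v 1 → False := by
    intro x v hx hxd e hv wk
    have k := out2 x v hx hxd e hv wk.succ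
    rcases two with k' | k'
    · rw [k'] at k
      exact k
    · obtain ⟨p, hp, q, hq, pq⟩ := one_lt_card.1 k'
      rw [mem_mks] at hp hq
      obtain ⟨s, hs, es⟩ := all _ hp.2.2.1
      obtain ⟨t, ht, et⟩ := all _ hq.2.2.1
      have mp : Mark G C S p := ⟨hp.2.1, YC hp.2.2.1, hp.2.2.2⟩
      have mq : Mark G C S q := ⟨hq.2.1, YC hq.2.2.1, hq.2.2.2⟩
      have mx : Mark G C S (x, v) := ⟨k, wk.right, e⟩
      have px : p ≠ (x, v) := fun c => hv (by have := hp.2.2.1; rwa [c] at this)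
      have qx : q ≠ (x, v) := fun c => hv (by have := hq.2.2.1; rwa [c] at this)
      have st : (s = 0 ∧ t = 4) ∨ (s = 4 ∧ t = 0) := by
        rcases le_total s t with c | c
        · have := h.cs.two p q _ mp mq pq (es ▸ et ▸ (seg s t c ht).mono YC)
          omega
        · have := h.cs.two p q _ mp mq pq (es ▸ et ▸ ((seg t s c hs).mono YC).symm)
          omega
      rcases st with ⟨rfl, rfl⟩ | ⟨rfl, rfl⟩
      · have := h.cs.three p q (x, v) _ _ _ mp mq mx pq px qx (es ▸ et ▸ w04.mono YC)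
          (es ▸ u0.symm.trans wk) (et ▸ u4.symm.trans wk)
        omega
      · have := h.cs.three p q (x, v) _ _ _ mp mq mx pq px qx (es ▸ et ▸ (w04.mono YC).symm)
          (es ▸ u4.symm.trans wk) (et ▸ u0.symm.trans wk)
        omega
  have uC : d (i + 3) ∈ C := g.mem _ (by omega) (by omega)
  have uI : d (i + 3) ∈ inner m d := mem_inner.2 ⟨i + 3, by omega, by omega, rfl⟩
  have uY : d (i + 3) ∉ Y := fun c => (mem_sdiff.1 (YU c)).2 uI
  obtain ⟨z, z1, z2, z3⟩ := nbr2 (h.deg _ uC) (d (i + 2)) (d (i + 4))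
  have zd : ∀ t ≤ m + 1, z ≠ d t := by
    rintro t ht rfl
    rcases (by omega : t + 2 ≤ i + 3 ∨ t = i + 2 ∨ t = i + 3 ∨ t = i + 4 ∨ i + 3 + 2 ≤ t) with
      c | c | c | c | c
    · have := g.chord t (i + 3) c (by omega) z3.symm
      omega
    · exact z1 (by rw [c])
    · exact z3.ne (by rw [c])
    · exact z2 (by rw [c])
    · have := g.chord (i + 3) t c ht z3
      omega
  by_cases zC : z ∈ C
  swap
  · exact out z _ zC zd z3.symm uY (Wk.refl uC)
  have zU : z ∈ C \ inner m d := mem_sdiff.2 ⟨zC, fun c => by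
    obtain ⟨t, -, ht, e⟩ := mem_inner.1 c
    exact zd t (by omega) e.symm⟩
  have zY : z ∉ Y := fun c => by
    have k := mks_cls_two pc.conn clY (by omega)
    have dY : ∀ t ≤ m + 1, d t ∉ Y := fun t ht => clY.out _ ⟨t, ht, rfl⟩
    have mk : ∀ t ≤ m + 1, ∀ v ∈ Y, G.Adj (d t) v →
        (d t, v) ∈ mks G Y {x | ∃ i ≤ m + 1, x = d i} :=
      fun t ht v hv e => mem_mks.2 ⟨dY t ht, ⟨t, ht, rfl⟩, hv, e⟩
    refine absurd (two_lt_card_iff.2 ⟨_, _, _, mk i (by omega) _ hw a,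
      mk j (by omega) _ hw' a', mk (i + 3) (by omega) z c z3, ne, fun e => ?_,
      fun e => ?_⟩) (not_lt.2 k)
    · have := g.inj _ (by omega) _ (by omega) (Prod.ext_iff.1 e).1
      omega
    · have := g.inj _ (by omega) _ (by omega) (Prod.ext_iff.1 e).1
      omega
  have zz : z ∈ comp G (C \ inner m d) z := self_mem_comp zU
  have dis : ∀ v ∈ comp G (C \ inner m d) z, v ∉ Y := fun v hv c => by
    rw [← hY] at c zY
    rw [← comp_eq c, comp_eq hv] at zY
    exact zY zz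
  have mu : Mark G (C \ inner m d) {x | ∃ i ≤ m + 1, x = d i} (d (i + 3), z) :=
    ⟨⟨_, by omega, rfl⟩, zU, z3⟩
  have key : ∀ v ∈ comp G (C \ inner m d) z, Wk G (C \ inner m d) z v 1 → ∀ x, G.Adj v x →
      (d (i + 3), z) ≠ (x, v) → x ∉ comp G (C \ inner m d) z →
      x ∉ C ∧ ∀ t ≤ m + 1, x ≠ d t := by
    intro v hv wk x e hne hx
    have xd : ∀ t ≤ m + 1, x ≠ d t := fun t ht c => by
      have := h.cl.two _ (x, v) _ mu ⟨⟨t, ht, c⟩, wk.right, e.symm⟩ hne wk
      omega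
    refine ⟨fun xC => hx (comp_closed hv (mem_sdiff.2 ⟨xC, fun c => ?_⟩) e), xd⟩
    obtain ⟨t, -, ht, e⟩ := mem_inner.1 c
    exact xd t (by omega) e.symm
  have key2 : ∀ v ∈ comp G (C \ inner m d) z, G.Adj z v → ∀ x, G.Adj v x →
      x ∉ comp G (C \ inner m d) z → Mark G C S (x, v) := by
    intro v hv e x e' hx
    have vU : v ∈ C \ inner m d := comp_subset hv
    obtain ⟨k1, k2⟩ := key v hv (Wk.single e zU vU) x e' (fun k => e.ne (Prod.ext_iff.1 k).2) hx
    exact ⟨out2 x v k1 k2 e'.symm (dis v hv)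
      ((Wk.single z3 uC zC).tail e (mem_sdiff.1 vU).1), (mem_sdiff.1 vU).1, e'.symm⟩
  have := six (u := d (i + 3)) h.gi zz (pc_comp h.deg sdiff_subset h.nc zU).deg
    (fun x e c => by
      by_contra hx
      obtain ⟨k1, k2⟩ := key z zz (Wk.refl zU) x e (fun k => c (Prod.ext_iff.1 k).1.symm) hx
      exact out x z k1 k2 e.symm zY (Wk.single z3 uC zC))
    (fun v hv v' hv' e e' x x' k k' hne => by
      by_contra hx
      rw [not_or] at hx
      have m1 := key2 v hv e x k hx.1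
      have m2 := key2 v' hv' e' x' k' hx.2
      have := h.cs.two _ _ _ m1 m2 hne ((Wk.single e.symm m1.2.1 zC).tail e' m2.2.1)
      omega)
  have := h.five z zU
  omega

theorem Dat.one (h : Dat G C m d S X) {y : V} (hy : y ∈ C \ inner m d) :
    (mks G (comp G (C \ inner m d) y) ↑(inner m d)).card ≤ 1 := by
  refine card_le_one.2 fun p hp q hq => ?_
  by_contra ne
  obtain ⟨p1, p2⟩ := p
  obtain ⟨q1, q2⟩ := q
  rw [mem_mks] at hp hq
  obtain ⟨i, i1, i2, rfl⟩ := mem_inner.1 (show p1 ∈ inner m d from hp.2.1)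
  obtain ⟨j, j1, j2, rfl⟩ := mem_inner.1 (show q1 ∈ inner m d from hq.2.1)
  rcases le_total i j with c | c
  · exact h.two hy i1 c j2 hp.2.2.1 hq.2.2.1 hp.2.2.2 hq.2.2.2 ne
  · exact h.two hy j1 c i2 hq.2.2.1 hp.2.2.1 hq.2.2.2 hp.2.2.2 (Ne.symm ne)

end Surv

open Surv

theorem surv (hT : TreeStmt) (h0 : Surv0Stmt) : SurvStmt := by
  intro V _ G C m d gi dg3 cy g ni cl far sys
  by_contra nc
  refine h0 V G C (inner m d) cy ni nc fun y hy => ?_
  have tree : ∀ (S₁ S₂ S₃ : Set V) (X : Finset V) (l k N : ℕ),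
      (l, k, N) ∈ [(3, 1, 2), (2, 3, 5), (1, 5, 5), (0, 7, 5)] → 1 ≤ l → Cls G C S₁ →
      Cls G C S₂ → Cls G C S₃ → (l ≤ 1 → S₁ = ∅) → (l ≤ 2 → S₂ = ∅) → (l ≤ 3 → S₃ = ∅) →
      X.card ≤ k → Cov G C ({d 0, d (m + 1)} ∪ (S₁ ∪ S₂ ∪ S₃ ∪ ↑X)) →
      ∀ z ∈ C \ inner m d, (comp G (C \ inner m d) z).card ≤ N := by
    intro S₁ S₂ S₃ X l k N hm hl c1 c2 c3 e1 e2 e3 hX cv z hz
    have sub : comp G (C \ inner m d) z ⊆ C := comp_subset.trans sdiff_subset
    refine hT V G _ X ![{x | ∃ i ≤ m + 1, x = d i}, S₁, S₂, S₃] l k N hm gi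
      (pc_comp dg3 sdiff_subset nc hz) (fun i => ?_) (fun i hi => ?_) hX
      ((cov_comp cv).mono ?_)
    · fin_cases i
      exacts [cl.mono comp_subset subset_rfl, c1.mono sub subset_rfl, c2.mono sub subset_rfl,
        c3.mono sub subset_rfl]
    · fin_cases i
      exacts [absurd hi (by simp only; omega), e1 hi, e2 hi, e3 hi]
    · rintro x (h | ((h | h) | h) | h)
      exacts [Or.inl ⟨0, h⟩, Or.inl ⟨1, h⟩, Or.inl ⟨2, h⟩, Or.inl ⟨3, h⟩, Or.inr h]
  have small : (comp G (C \ inner m d) y).card ≤ 2 →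
      (mks G (comp G (C \ inner m d) y) ↑(inner m d)).card ≤ 1 := fun k => by
    refine le_trans (card_le_card (mks_mono fun x hx => ?_))
      (mks_cls_one (comp_conn hy) (cl.mono comp_subset subset_rfl) (by omega))
    obtain ⟨i, -, h2, rfl⟩ := mem_inner.1 hx
    exact ⟨i, by omega, rfl⟩
  rcases sys with (⟨S₁, S₂, X, c1, c2, hX, cv⟩ | ⟨S, X, c1, hX, cv⟩ | ⟨X, hX, cv⟩) | ti
  · exact small (tree S₁ S₂ ∅ X 3 1 2 (by simp) (by omega) c1 c2 (cls_empty C) (by omega)
      (by omega) (fun _ => rfl) hX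
      (cv.mono fun x hx => by simp only [Set.mem_union] at hx ⊢; tauto) y hy)
  · exact Dat.one (S := S) (X := X) ⟨gi, dg3, g, nc, cl, far, c1,
      cv.mono fun x hx => by simp only [Set.mem_union] at hx ⊢; tauto, Or.inl hX,
      tree S ∅ ∅ X 2 3 5 (by simp) (by omega) c1 (cls_empty C) (cls_empty C) (by omega)
        (fun _ => rfl) (fun _ => rfl) hX
        (cv.mono fun x hx => by simp only [Set.mem_union] at hx ⊢; tauto)⟩ hy
  · exact Dat.one (S := ∅) (X := X) ⟨gi, dg3, g, nc, cl, far, cls_empty C,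
      cv.mono fun x hx => by simp only [Set.mem_union] at hx ⊢; tauto, Or.inr ⟨rfl, hX⟩,
      tree ∅ ∅ ∅ X 1 5 5 (by simp) (by omega) (cls_empty C) (cls_empty C) (cls_empty C)
        (fun _ => rfl) (fun _ => rfl) (fun _ => rfl) hX
        (cv.mono fun x hx => by simp only [Set.mem_union] at hx ⊢; tauto)⟩ hy
  · exact small (ti m d g rfl rfl cl nc y hy)

end Pool.Agent.MP_e6539c_co.C5
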