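import Mathlib.GroupTheory.GroupAction.Ring
import Pool.Agent.MP_e6539c_co.C5.TreeChk
import Pool.Agent.MP_e6539c_co.C5.Basic

/-! Soundness of the leaf pruning automaton and the bound on the size of pieces. -/

set_option autoImplicit false

namespace Pool.Agent.MP_e6539c_co.C5

open Finset
open Pool.Agent.MP_7be75d_co (R Conn comp)
open Pool.Agent.MP_7be75d_co
open scoped Classical

namespace Tree

variable {V : Type} {G : SimpleGraph V} {Y A A' X : Finset V} {u v : V}

/-- Marks of `S` that end in `A`, one near `v` and two near each other and `v`. -/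
def RC (G : SimpleGraph V) (Y A : Finset V) (S : Set V) (v : V) (n : ℕ × ℕ) : Prop :=
  (n.1 < 9 → ∃ p, Mark G Y S p ∧ p.2 ∈ A ∧ Wk G Y p.2 v n.1) ∧
  (n.2 < 9 → ∃ p q a b c, p ≠ q ∧ Mark G Y S p ∧ Mark G Y S q ∧ p.2 ∈ A ∧ q.2 ∈ A ∧
    Wk G Y p.2 q.2 a ∧ Wk G Y p.2 v b ∧ Wk G Y q.2 v c ∧ a + b + c ≤ 2 * n.2)

section
variable {S : Set V} {n m : ℕ × ℕ}

theorem RC.shift (h : RC G Y A S u n) (a : G.Adj u v) (hv : v ∈ Y) :
    RC G Y A S v (n.1 + 1, n.2 + 1) := by
  refine ⟨fun h1 => ?_, fun h1 => ?_⟩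
  · obtain ⟨p, k1, k2, k3⟩ := h.1 (by dsimp only at h1; omega)
    exact ⟨p, k1, k2, k3.tail a hv⟩
  · obtain ⟨p, q, a', b, c, k1, k2, k3, k4, k5, k6, k7, k8, k9⟩ := h.2 (by dsimp only at h1; omega)
    exact ⟨p, q, a', b + 1, c + 1, k1, k2, k3, k4, k5, k6, k7.tail a hv, k8.tail a hv,
      by dsimp only; omega⟩

theorem RC.weaken (h : RC G Y A S v n) (hl : leP n m = true) : RC G Y A S v m := by
  simp only [leP, Bool.and_eq_true, Bool.or_eq_true, Nat.ble_eq] at hl
  refine ⟨fun h1 => ?_, fun h1 => ?_⟩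
  · obtain ⟨p, k1, k2, k3⟩ := h.1 (by omega)
    exact ⟨p, k1, k2, k3.le (by omega)⟩
  · obtain ⟨p, q, a', b, c, k1, k2, k3, k4, k5, k6, k7, k8, k9⟩ := h.2 (by omega)
    exact ⟨p, q, a', b, c, k1, k2, k3, k4, k5, k6, k7, k8, by omega⟩

theorem RC.pair (hS : Cls G Y S) (hA : Disjoint A A') (h : RC G Y A S v n)
    (h' : RC G Y A' S v m) : 8 ≤ n.2 + m.1 := by
  by_contra hc
  obtain ⟨p, q, a, b, c, k1, k2, k3, k4, k5, k6, k7, k8, k9⟩ := h.2 (by omega)
  obtain ⟨s, s1, s2, s3⟩ := h'.1 (by omega)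
  have := hS.three p q s _ _ _ k2 k3 s1 k1 (fun e => disjoint_left.1 hA k4 (e ▸ s2))
    (fun e => disjoint_left.1 hA k5 (e ▸ s2)) k6 (k7.trans s3.symm) (k8.trans s3.symm)
  omega

theorem RC.merge (hS : Cls G Y S) (hA : Disjoint A A') (h : RC G Y A S v n)
    (h' : RC G Y A' S u m) (a : G.Adj u v) (hv : v ∈ Y) :
    okP n m = true ∧ RC G Y (A ∪ A') S v (mrgP n m) := by
  have h2 := h'.shift a hv
  have e1 := h.pair hS hA h2
  have e2 := h2.pair hS hA.symm h
  dsimp only at e1 e2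
  have ne : ∀ p q : V × V, p.2 ∈ A → q.2 ∈ A' → p ≠ q :=
    fun p q hp hq e => disjoint_left.1 hA hp (e ▸ hq)
  refine ⟨?_, fun h1 => ?_, fun h1 => ?_⟩
  · have e3 : 4 ≤ n.1 + (m.1 + 1) := by
      by_contra hc
      obtain ⟨p, p1, p2, p3⟩ := h.1 (by omega)
      obtain ⟨q, q1, q2, q3⟩ := h2.1 (by dsimp only; omega)
      have := hS.two p q _ p1 q1 (ne p q p2 q2) (p3.trans q3.symm)
      dsimp only at this
      omega
    simp only [okP, Bool.and_eq_true, Nat.ble_eq, Nat.add_eq]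
    omega
  · simp only [mrgP] at h1 ⊢
    rcases le_total n.1 (m.1 + 1) with k | k
    · rw [min_eq_left k] at h1 ⊢
      obtain ⟨p, p1, p2, p3⟩ := h.1 h1
      exact ⟨p, p1, mem_union_left _ p2, p3⟩
    · rw [min_eq_right k] at h1 ⊢
      obtain ⟨p, p1, p2, p3⟩ := h2.1 h1
      exact ⟨p, p1, mem_union_right _ p2, p3⟩
  · simp only [mrgP] at h1 ⊢
    by_cases c1 : n.2 ≤ m.2 + 1 ∧ n.2 ≤ n.1 + (m.1 + 1)
    · obtain ⟨p, q, a', b, c, k1, k2, k3, k4, k5, k6, k7, k8, k9⟩ := h.2 (by omega)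
      exact ⟨p, q, a', b, c, k1, k2, k3, mem_union_left _ k4, mem_union_left _ k5, k6, k7, k8,
        by omega⟩
    by_cases c2 : m.2 + 1 ≤ n.1 + (m.1 + 1)
    · obtain ⟨p, q, a', b, c, k1, k2, k3, k4, k5, k6, k7, k8, k9⟩ := h2.2 (by dsimp only; omega)
      dsimp only at k9
      exact ⟨p, q, a', b, c, k1, k2, k3, mem_union_right _ k4, mem_union_right _ k5, k6, k7, k8,
        by omega⟩
    obtain ⟨p, p1, p2, p3⟩ := h.1 (by omega)
    obtain ⟨q, q1, q2, q3⟩ := h2.1 (by dsimp only; omega)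
    exact ⟨p, q, _, _, _, ne p q p2 q2, p1, q1, mem_union_left _ p2, mem_union_right _ q2,
      p3.trans q3.symm, p3, q3, by dsimp only; omega⟩

/-- Whether `v` has a neighbour in `S`. -/
noncomputable def nb (G : SimpleGraph V) (S : Set V) (v : V) : Bool := decide (∃ x ∈ S, G.Adj x v)

theorem RC.init (hv : v ∈ Y) : RC G Y {v} S v (cls (nb G S v)) := by
  unfold nb
  by_cases h : ∃ x ∈ S, G.Adj x v
  · rw [decide_eq_true h]
    obtain ⟨x, hx, a⟩ := h
    exact ⟨fun _ => ⟨(x, v), ⟨hx, hv, a⟩, mem_singleton_self _, Wk.refl hv⟩,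
      fun h => absurd h (by decide)⟩
  · rw [decide_eq_false h]
    exact ⟨fun h => absurd h (by decide), fun h => absurd h (by decide)⟩

end

theorem le_mx : ∀ (l : List ℕ), ∀ a ∈ l, a ≤ mx l
  | [], _, h => by simp at h
  | b :: l, a, h => by
    rw [mx]
    simp only [Nat.add_eq, Nat.sub_eq]
    rcases List.mem_cons.1 h with rfl | h
    · omega
    · have := le_mx l a h
      omega

theorem keep_sub (m : ℕ) : ∀ l : List ℕ, List.Sublist (keep m l) (l.map (· + 1))
  | [] => List.Sublist.refl _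
  | a :: l => by
    rw [keep, List.map_cons]
    cases Nat.ble (Nat.add m a) 7
    · exact (keep_sub m l).cons _
    · exact (keep_sub m l).cons_cons _

theorem keep_le (m : ℕ) : ∀ l : List ℕ, ∀ b ∈ keep m l, m + b ≤ 8
  | [], _, h => by simp [keep] at h
  | a :: l, b, h => by
    rw [keep] at h
    cases e : Nat.ble (Nat.add m a) 7
    · rw [e] at h
      exact keep_le m l b h
    · rw [e] at h
      rcases List.mem_cons.1 h with rfl | h
      · simp only [Nat.ble_eq, Nat.add_eq] at e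
        omega
      · exact keep_le m l b h

theorem le2_spec : ∀ l m : List ℕ, le2 l m = true →
    ∃ l', List.Sublist l' l ∧ List.Forall₂ (· ≤ ·) l' m
  | l, [], _ => ⟨[], List.nil_sublist _, List.Forall₂.nil⟩
  | [], _ :: _, h => by simp [le2] at h
  | x :: l, y :: m, h => by
    simp only [le2, Bool.and_eq_true, Nat.ble_eq] at h
    obtain ⟨l', h1, h2⟩ := le2_spec l m h.2
    exact ⟨x :: l', h1.cons_cons _, List.Forall₂.cons h.1 h2⟩

/-- The state `x` is realised at `v` by the region `A`. -/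
structure Rl (G : SimpleGraph V) (Y X : Finset V) (S : Fin 4 → Set V) (A : Finset V) (v : V)
    (x : St) : Prop where
  s : A.card ≤ x.s
  a : RC G Y A (S 0) v x.a
  b : RC G Y A (S 1) v x.b
  c : RC G Y A (S 2) v x.c
  d : RC G Y A (S 3) v x.d
  T : RT G Y A X v x.T

variable {S : Fin 4 → Set V} {x y : St}

theorem Rl.cover (h : Rl G Y X S A v x) (hc : cv x y = true) :
    Rl G Y X S A v y ∧ x.j ≤ y.j := by
  simp only [cv, Bool.and_eq_true, Nat.ble_eq] at hc
  obtain ⟨⟨⟨⟨⟨⟨h1, h2⟩, h3⟩, h4⟩, h5⟩, h6⟩, h7⟩ := hc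
  obtain ⟨l, l1, l2⟩ := le2_spec _ _ h7
  exact ⟨⟨h.s.trans h1, h.a.weaken h3, h.b.weaken h4, h.c.weaken h5, h.d.weaken h6,
    (h.T.sublist l1).weaken l2⟩, h2⟩

theorem Rl.merge {k : ℕ} (hG : Gi G) (hX : Disjoint X Y) (hk : X.card ≤ k)
    (hS : ∀ i, Cls G Y (S i)) (hA : Disjoint A A') (h : Rl G Y X S A v x)
    (h' : Rl G Y X S A' u y) (a : G.Adj u v) (hv : v ∈ Y) :
    ok k x y = true ∧ Rl G Y X S (A ∪ A') v (mrg x y) := by
  obtain ⟨a1, a2⟩ := h.a.merge (hS 0) hA h'.a a hv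
  obtain ⟨b1, b2⟩ := h.b.merge (hS 1) hA h'.b a hv
  obtain ⟨c1, c2⟩ := h.c.merge (hS 2) hA h'.c a hv
  obtain ⟨d1, d2⟩ := h.d.merge (hS 3) hA h'.d a hv
  have t : RT G Y (A ∪ A') X v (x.T ++ keep (mx x.T) y.T) := by
    refine RT.append hG hX hA h.T ((h'.T.shift a hv).sublist (keep_sub _ _)) fun p hp q hq => ?_
    have := le_mx _ p hp
    have := keep_le _ _ q hq
    omega
  refine ⟨?_, (card_union_le _ _).trans (Nat.add_le_add h.s h'.s), a2, b2, c2, d2,
    t.perm (List.perm_insertionSort _ _).symm⟩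
  have := t.card
  rw [List.length_append] at this
  simp only [ok, a1, b1, c1, d1, fN_eq, Bool.and_self, Bool.true_and, Nat.ble_eq, Nat.add_eq]
  omega

theorem prune {k N : ℕ} {L : List St} (hG : Gi G) (hX : Disjoint X Y) (hk : X.card ≤ k)
    (hS : ∀ i, Cls G Y (S i)) (hY : ¬ Cyc G Y) (cS : chkS k L = true) (cF : chkF N L = true) :
    ∀ (n : ℕ) (W : Finset V) (B : V → Finset V) (σ : V → St), W.card = n + 1 → W ⊆ Y →
      Conn G W → (∀ v ∈ W, σ v ∈ L ∧ Rl G Y X S (B v) v (σ v) ∧ 3 ≤ (σ v).j + dg G W v) →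
      (∀ u ∈ W, ∀ v ∈ W, u ≠ v → Disjoint (B u) (B v)) → (∀ y ∈ Y, ∃ v ∈ W, y ∈ B v) →
      Y.card ≤ N := by
  intro n
  induction n with
  | zero =>
    intro W B σ hW _ _ h1 _ h3
    obtain ⟨v, rfl⟩ := card_eq_one.1 hW
    obtain ⟨m, r, j⟩ := h1 v (mem_singleton_self v)
    have e : dg G {v} v = 0 := by simp [dg]
    have := List.all_eq_true.1 cF _ m
    simp only [Bool.or_eq_true, Nat.ble_eq] at this
    have c : Y.card ≤ (B v).card := card_le_card fun y hy => by
      obtain ⟨w, hw, k⟩ := h3 y hy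
      rwa [mem_singleton.1 hw] at k
    have := r.s
    omega
  | succ n ih =>
    intro W B σ hW hWY hc h1 h2 h3
    obtain ⟨u, hu, du⟩ := exists_leaf (fun c => hY (c.mono hWY)) hc.1
    have ce : (W.erase u).card = n + 1 := by rw [card_erase_of_mem hu]; omega
    obtain ⟨w, hw⟩ := card_pos.1 (show 0 < (W.erase u).card by omega)
    obtain ⟨v, hv, a⟩ := hc.exists_adj hu (mem_of_mem_erase hw) (ne_of_mem_erase hw).symm
    obtain ⟨mu, ru, ju⟩ := h1 u hu
    obtain ⟨mv, rv, jv⟩ := h1 v hv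
    obtain ⟨o, r⟩ := rv.merge hG hX hk hS (h2 v hv u hu a.ne') ru a (hWY hv)
    have t := List.all_eq_true.1 cS _ mu
    simp only [Bool.or_eq_true, Nat.ble_eq] at t
    have t' := List.all_eq_true.1 (t.resolve_left (by omega)) _ mv
    rw [o, fS_eq] at t'
    obtain ⟨z, hz, cz⟩ := List.any_eq_true.1 (by simpa only [Bool.not_true, Bool.false_or] using t')
    obtain ⟨rz, jz⟩ := r.cover cz
    refine ih (W.erase u) (Function.update B v (B v ∪ B u)) (Function.update σ v z) ce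
      ((erase_subset _ _).trans hWY) (conn_erase hc du ⟨w, hw⟩) (fun p hp => ?_)
      (fun p hp q hq ne => ?_) (fun y hy => ?_)
    · have e := dg_erase (G := G) (v := p) hu
      by_cases k : p = v
      · subst k
        rw [Function.update_self, Function.update_self]
        rw [if_pos a.symm] at e
        refine ⟨hz, rz, ?_⟩
        simp only [mrg] at jz
        omega
      · rw [Function.update_of_ne k, Function.update_of_ne k]
        have hp' := mem_of_mem_erase hp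
        have : ¬ G.Adj p u := fun b => by
          have := two_le_dg.2 ⟨p, hp', v, hv, k, b.symm, a⟩
          omega
        rw [if_neg this] at e
        exact ⟨(h1 p hp').1, (h1 p hp').2.1, by have := (h1 p hp').2.2; omega⟩
    · have key : ∀ q ∈ W.erase u, q ≠ v → Disjoint (B v ∪ B u) (B q) := fun q hq k =>
        disjoint_union_left.2 ⟨h2 v hv q (mem_of_mem_erase hq) k.symm,
          h2 u hu q (mem_of_mem_erase hq) (ne_of_mem_erase hq).symm⟩
      by_cases k : p = v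
      · subst k
        rw [Function.update_self, Function.update_of_ne ne.symm]
        exact key q hq ne.symm
      by_cases k' : q = v
      · subst k'
        rw [Function.update_self, Function.update_of_ne k]
        exact (key p hp k).symm
      rw [Function.update_of_ne k, Function.update_of_ne k']
      exact h2 p (mem_of_mem_erase hp) q (mem_of_mem_erase hq) ne
    · obtain ⟨p, hp, k⟩ := h3 y hy
      have hv' : v ∈ W.erase u := mem_erase.2 ⟨a.ne', hv⟩
      by_cases e : p = u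
      · exact ⟨v, hv', by rw [Function.update_self]; exact mem_union_right _ (e ▸ k)⟩
      by_cases e' : p = v
      · exact ⟨v, hv', by rw [Function.update_self]; exact mem_union_left _ (e' ▸ k)⟩
      exact ⟨p, mem_erase.2 ⟨e, hp⟩, by rw [Function.update_of_ne e']; exact k⟩

theorem cls_one [Fintype V] {S : Set V} (hS : Cls G Y S) (hv : v ∈ Y) :
    dg G (univ.filter (· ∈ S)) v ≤ (nb G S v).toNat := by
  by_cases h : ∃ x ∈ S, G.Adj x v
  · rw [show nb G S v = true by simpa [nb] using h]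
    by_contra hc
    obtain ⟨a, ha, b, hb, ne, a1, b1⟩ := (two_le_dg (G := G)).1 (not_le.1 hc)
    have := hS.two (a, v) (b, v) 0 ⟨(mem_filter.1 ha).2, hv, a1.symm⟩
      ⟨(mem_filter.1 hb).2, hv, b1.symm⟩ (fun e => ne (congrArg Prod.fst e)) (Wk.refl hv)
    omega
  · refine le_of_eq_of_le (card_eq_zero.2 (filter_eq_empty_iff.2 fun x hx a => ?_)) (Nat.zero_le _)
    exact h ⟨x, (mem_filter.1 hx).2, a.symm⟩

theorem mem_opt {l : ℕ} {i : Fin 4} (hl : ∀ i : Fin 4, l ≤ i.1 → S i = ∅) (v : V) :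
    nb G (S i) v ∈ opt l i.1 := by
  unfold opt
  split_ifs with h
  · simp [nb, hl i h]
  · cases nb G (S i) v <;> simp

theorem bound [Fintype V] {l k N : ℕ} {L : List St} (hL : chk l k N L = true) (hG : Gi G)
    (hY : Pc G Y) (hS : ∀ i, Cls G Y (S i)) (hl : ∀ i : Fin 4, l ≤ i.1 → S i = ∅)
    (hk : X.card ≤ k) (hc : Cov G Y {x | (∃ i, x ∈ S i) ∨ x ∈ X}) : Y.card ≤ N := by
  rw [chk, fA_eq] at hL
  simp only [Bool.and_eq_true] at hL
  obtain ⟨⟨cI, cS⟩, cF⟩ := hL
  have hk' : (X \ Y).card ≤ k := (card_le_card sdiff_subset).trans hk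
  have key : ∀ v ∈ Y, ∃ z ∈ L, Rl G Y (X \ Y) S {v} v z ∧ 3 ≤ z.j + dg G Y v := by
    intro v hv
    have t := RT.init (G := G) (X := X \ Y) hv
    have tk := t.card
    rw [List.length_replicate] at tk
    have c := List.all_eq_true.1 (List.all_eq_true.1 (List.all_eq_true.1 (List.all_eq_true.1
      (List.all_eq_true.1 cI _ (mem_opt (G := G) (i := 0) hl v)) _ (mem_opt (G := G) (i := 1) hl v))
      _ (mem_opt (G := G) (i := 2) hl v)) _ (mem_opt (G := G) (i := 3) hl v)) (dg G (X \ Y) v)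
      (List.mem_range.2 (by omega))
    rw [fS_eq] at c
    obtain ⟨z, hz, cz⟩ := List.any_eq_true.1 c
    obtain ⟨rz, jz⟩ := Rl.cover (G := G) (Y := Y) (X := X \ Y) (S := S) (A := {v}) (v := v)
      ⟨(card_singleton v).le, RC.init hv, RC.init hv, RC.init hv, RC.init hv, t⟩ cz
    refine ⟨z, hz, rz, ?_⟩
    have d0 := cls_one (hS 0) hv
    have d1 := cls_one (hS 1) hv
    have d2 := cls_one (hS 2) hv
    have d3 := cls_one (hS 3) hv
    have dd : dg G univ v ≤ dg G (Y ∪ (X \ Y) ∪ univ.filter (· ∈ S 0) ∪ univ.filter (· ∈ S 1) ∪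
        univ.filter (· ∈ S 2) ∪ univ.filter (· ∈ S 3)) v := by
      refine card_le_card fun x hx => mem_filter.2 ⟨?_, (mem_filter.1 hx).2⟩
      simp only [mem_union, mem_sdiff, mem_filter, mem_univ, true_and]
      by_cases m : x ∈ Y
      · simp [m]
      rcases hc v hv x m (mem_filter.1 hx).2.symm with ⟨i, hi⟩ | hi
      · fin_cases i
        · exact Or.inl (Or.inl (Or.inl (Or.inr hi)))
        · exact Or.inl (Or.inl (Or.inr hi))
        · exact Or.inl (Or.inr hi)
        · exact Or.inr hi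
      · simp [m, hi]
    have u1 := dg_union_le (G := G) Y (X \ Y) v
    have u2 := dg_union_le (G := G) (Y ∪ (X \ Y)) (univ.filter (· ∈ S 0)) v
    have u3 := dg_union_le (G := G) (Y ∪ (X \ Y) ∪ univ.filter (· ∈ S 0))
      (univ.filter (· ∈ S 1)) v
    have u4 := dg_union_le (G := G) (Y ∪ (X \ Y) ∪ univ.filter (· ∈ S 0) ∪ univ.filter (· ∈ S 1))
      (univ.filter (· ∈ S 2)) v
    have u5 := dg_union_le (G := G) (Y ∪ (X \ Y) ∪ univ.filter (· ∈ S 0) ∪ univ.filter (· ∈ S 1) ∪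
      univ.filter (· ∈ S 2)) (univ.filter (· ∈ S 3)) v
    have := hY.deg v hv
    simp only [ini] at jz
    omega
  have : Nonempty St := ⟨ini false false false false 0⟩
  choose! σ h1 h2 h3 using key
  have := card_pos.2 hY.conn.1
  exact prune hG sdiff_disjoint hk' hS hY.acyc cS cF (Y.card - 1) Y (fun v => {v}) σ (by omega)
    subset_rfl hY.conn (fun v hv => ⟨h1 v hv, h2 v hv, h3 v hv⟩)
    (fun u _ v _ ne => disjoint_singleton.2 ne) fun y hy => ⟨y, hy, mem_singleton_self y⟩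

end Tree

theorem tree : TreeStmt := by
  intro V _ G Y X S l k N h hG hY hS hl hk hc
  simp only [List.mem_cons, Prod.mk.injEq, List.not_mem_nil, or_false] at h
  rcases h with ⟨rfl, rfl, rfl⟩ | ⟨rfl, rfl, rfl⟩ | ⟨rfl, rfl, rfl⟩ | ⟨rfl, rfl, rfl⟩
  exacts [Tree.bound Tree.chkA hG hY hS hl hk hc, Tree.bound Tree.chkB hG hY hS hl hk hc,
    Tree.bound Tree.chkC hG hY hS hl hk hc, Tree.bound Tree.chkD hG hY hS hl hk hc]

end Pool.Agent.MP_e6539c_co.C5
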