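import Mathlib.GroupTheory.GroupAction.Ring
import Mathlib.RingTheory.PicardGroup
import Pool.Agent.MP_e6539c_co.C5.Basic

/-! Merging generators along an edge, the dimension of the cycle space, balls in a core. -/

set_option autoImplicit false

namespace Pool.Agent.MP_e6539c_co.C5

open Finset
open Pool.Agent.MP_7be75d_co (R Conn comp)
open Pool.Agent.MP_7be75d_co
open scoped Classical

namespace VecM

variable {V : Type}

theorem z2_one {a : ZMod 2} (h : a ≠ 0) : a = 1 := by
  revert a
  decide

theorem cov_split (F : Finset (Vec V)) (e e' : Sym2 V) :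
    cov (F.filter fun f => f e = 0) e' + cov (F.filter fun f => f e ≠ 0) e' = cov F e' := by
  unfold cov
  rw [filter_comm, filter_comm (fun f : Vec V => f e ≠ 0)]
  exact card_filter_add_card_filter_not _

theorem cov_pos {F : Finset (Vec V)} {e : Sym2 V} {f : Vec V} (hf : f ∈ F) (h : f e ≠ 0) :
    1 ≤ cov F e := card_pos.2 ⟨f, mem_filter.2 ⟨hf, h⟩⟩

theorem cov_le_card (F : Finset (Vec V)) (e : Sym2 V) : cov F e ≤ F.card := card_filter_le _ _

/-- An injective path inside `W`. -/
structure Pa (G : SimpleGraph V) (W : Finset V) (L : ℕ) (f : ℕ → V) : Prop where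
  mem : ∀ j ≤ L, f j ∈ W
  adj : ∀ j < L, G.Adj (f j) (f (j + 1))
  inj : ∀ i ≤ L, ∀ j ≤ L, f i = f j → i = j

variable {G : SimpleGraph V} {W : Finset V}

theorem Pa.rev {L : ℕ} {f : ℕ → V} (h : Pa G W L f) : Pa G W L fun j => f (L - j) := by
  refine ⟨fun j _ => h.mem _ (by omega), fun j hj => ?_, fun i hi j hj e => ?_⟩
  · have := (h.adj (L - (j + 1)) (by omega)).symm
    rwa [show L - (j + 1) + 1 = L - j by omega] at this
  · have := h.inj _ (by omega) _ (by omega) e
    omega

theorem Pa.new (hG : Gi G) (hd : ∀ v ∈ W, 2 ≤ dg G W v) {L : ℕ} {f : ℕ → V} (h : Pa G W L f)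
    (hL : L ≤ 9) : ∃ a ∈ W, G.Adj (f L) a ∧ ∀ i ≤ L, f i ≠ a := by
  obtain ⟨a, ha, ha', hadj⟩ := exists_nbr (G := G) (W := W) (A := {f (L - 1)}) (v := f L)
    (by rw [card_singleton]; exact hd _ (h.mem L le_rfl))
  refine ⟨a, ha, hadj, fun i hi e => ?_⟩
  subst e
  rw [mem_singleton] at ha'
  have h1 : i ≠ L := fun e => hadj.ne (by rw [e])
  have h2 : i ≠ L - 1 := fun e => ha' (by rw [e])
  have hx : f L ∉ (range L).image f := by
    intro c
    obtain ⟨t, ht, e⟩ := mem_image.1 c
    have := mem_range.1 ht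
    have := h.inj t (by omega) L le_rfl e
    omega
  have hp : G.Adj (f L) (f (L - 1)) := by
    have := (h.adj (L - 1) (by omega)).symm
    rwa [show L - 1 + 1 = L by omega] at this
  have hw : Wk G ((range L).image f) (f i) (f (L - 1)) (L - 1 - i) :=
    Wk.of_fun (by omega) (fun t _ ht => mem_image_of_mem _ (mem_range.2 (by omega)))
      (fun t _ ht => h.adj t (by omega))
  have := hG _ _ _ _ _ hx hadj hp ha' hw
  omega

theorem Pa.ext (hG : Gi G) (hd : ∀ v ∈ W, 2 ≤ dg G W v) {L : ℕ} {f : ℕ → V} (h : Pa G W L f) :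
    ∀ n, L + n ≤ 10 → ∃ g : ℕ → V, (∀ j ≤ L, g j = f j) ∧ Pa G W (L + n) g := by
  intro n
  induction n with
  | zero => exact fun _ => ⟨f, fun _ _ => rfl, h⟩
  | succ n ih =>
    intro hn
    obtain ⟨g, e, hg⟩ := ih (by omega)
    obtain ⟨a, ha, hadj, hne⟩ := hg.new hG hd (by omega)
    refine ⟨fun j => if j ≤ L + n then g j else a, fun j hj => ?_, fun j _ => ?_, fun j hj => ?_,
      fun i hi j hj c => ?_⟩
    · exact (if_pos (by omega)).trans (e j hj)
    · split_ifs with c
      · exact hg.mem j c
      · exact ha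
    · rw [if_pos (by omega)]
      split_ifs with c
      · exact hg.adj j (by omega)
      · rwa [show j = L + n by omega]
    · split_ifs at c with c1 c2 c2
      · exact hg.inj i c1 j c2 c
      · exact absurd c (hne i c1)
      · exact absurd c.symm (hne j c2)
      · omega

theorem ball_card (hG : Gi G) (hd : ∀ v ∈ W, 2 ≤ dg G W v) {v : V} (hv : v ∈ W) {ρ : ℕ}
    (hρ : ρ ≤ 4) : 2 * ρ + 1 ≤ (W.filter fun w => Wk G W v w ρ).card := by
  have h0 : Pa G W 0 fun _ => v :=
    ⟨fun _ _ => hv, fun j hj => absurd hj (Nat.not_lt_zero j), fun i hi j hj _ => by omega⟩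
  obtain ⟨g, e, hg⟩ := h0.ext hG hd ρ (by omega)
  rw [Nat.zero_add] at hg
  obtain ⟨f, e', hf⟩ := hg.rev.ext hG hd ρ (by omega)
  have hv' : f ρ = v := by
    rw [e' ρ le_rfl, Nat.sub_self]
    exact e 0 le_rfl
  rw [two_mul]
  refine card_of_path (f := f) (fun j hj => mem_filter.2 ⟨hf.mem j hj, ?_⟩) hf.inj
  rw [← hv']
  rcases le_total ρ j with c | c
  · exact (Wk.of_fun c (fun t _ ht => hf.mem t (by omega))
      (fun t _ ht => hf.adj t (by omega))).le (by omega)
  · exact (Wk.of_fun c (fun t _ ht => hf.mem t (by omega))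
      (fun t _ ht => hf.adj t (by omega))).symm.le (by omega)

/-- Extension by zero. -/
noncomputable def ext0 (E : Finset (Sym2 V)) : (E → ZMod 2) →ₗ[ZMod 2] Vec V where
  toFun x e := if h : e ∈ E then x ⟨e, h⟩ else 0
  map_add' x y := by
    funext e
    by_cases h : e ∈ E <;> simp [h]
  map_smul' c x := by
    funext e
    by_cases h : e ∈ E <;> simp [h]

theorem ext0_supp {E : Finset (Sym2 V)} {x : E → ZMod 2} {e : Sym2 V} (h : ext0 E x e ≠ 0) :
    e ∈ E := by
  by_contra c
  exact h (dif_neg c)

theorem ext0_inj (E : Finset (Sym2 V)) : Function.Injective (ext0 E) := by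
  intro x y h
  funext e
  have := congrFun h e.1
  simpa [ext0, e.2] using this

/-- The parities at the vertices of `U`. -/
noncomputable def bdy [Fintype V] (U : Finset V) : Vec V →ₗ[ZMod 2] (U → ZMod 2) where
  toFun x v := par x v.1
  map_add' x y := funext fun v => par_add x y v.1
  map_smul' c x := funext fun v => par_smul c x v.1

end VecM

open VecM

theorem merge : MergeStmt := by
  intro V F e he
  set F0 := F.filter fun f => f e = 0 with hF0
  set F1 := F.filter fun f => f e ≠ 0 with hF1
  rcases F1.eq_empty_or_nonempty with h1 | ⟨g, hg⟩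
  · refine ⟨F, fun f hf => ⟨?_, Or.inl hf⟩, fun _ => le_rfl, fun x hx _ => hx⟩
    by_contra c
    have : f ∈ F1 := mem_filter.2 ⟨hf, c⟩
    rw [h1] at this
    exact absurd this (notMem_empty f)
  have hg' := mem_filter.1 hg
  have hc : (F1.erase g).card ≤ 1 := by
    rw [card_erase_of_mem hg]
    have : F1.card ≤ 2 := he
    omega
  refine ⟨F0 ∪ (F1.erase g).image (g + ·), fun f hf => ?_, fun e' => ?_, fun x hx hxe => ?_⟩
  · rcases mem_union.1 hf with c | c
    · exact ⟨(mem_filter.1 c).2, Or.inl (mem_filter.1 c).1⟩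
    · obtain ⟨h, hh, rfl⟩ := mem_image.1 c
      have hh' := mem_filter.1 (mem_of_mem_erase hh)
      refine ⟨?_, Or.inr ⟨g, hg'.1, h, hh'.1, rfl⟩⟩
      rw [Pi.add_apply, z2_one hg'.2, z2_one hh'.2]
      decide
  · refine (cov_union_le _ _ _).trans ?_
    rw [← cov_split F e e']
    refine Nat.add_le_add_left ?_ _
    by_cases c : ∀ f ∈ (F1.erase g).image (g + ·), f e' = 0
    · rw [cov_eq_zero c]
      exact Nat.zero_le _
    · push Not at c
      obtain ⟨f, hf, hf'⟩ := c
      obtain ⟨h, hh, rfl⟩ := mem_image.1 hf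
      refine ((cov_le_card _ _).trans (card_image_le.trans hc)).trans ?_
      by_cases c : g e' = 0
      · exact cov_pos (mem_of_mem_erase hh) (by simpa [c] using hf')
      · exact cov_pos hg c
  · have key : ∀ x ∈ Submodule.span (ZMod 2) (F : Set (Vec V)), x + x e • g ∈
        Submodule.span (ZMod 2) ((F0 ∪ (F1.erase g).image (g + ·) : Finset (Vec V)) :
          Set (Vec V)) := by
      intro x hx
      induction hx using Submodule.span_induction with
      | mem f hf =>
        by_cases c : f e = 0
        · rw [c, zero_smul, add_zero]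
          exact Submodule.subset_span (mem_coe.2 (mem_union_left _ (mem_filter.2 ⟨hf, c⟩)))
        · rw [z2_one c, one_smul]
          by_cases c' : f = g
          · rw [c']
            have : g + g = 0 := funext fun e => CharTwo.add_self_eq_zero (g e)
            rw [this]
            exact Submodule.zero_mem _
          · refine Submodule.subset_span (mem_coe.2 (mem_union_right _ (mem_image.2
              ⟨f, mem_erase.2 ⟨c', mem_filter.2 ⟨hf, c⟩⟩, add_comm _ _⟩)))
      | zero => simp
      | add x y _ _ hx hy =>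
        have := Submodule.add_mem _ hx hy
        rwa [add_add_add_comm, ← add_smul] at this
      | smul a x _ hx =>
        have := Submodule.smul_mem _ a hx
        rwa [smul_add, smul_smul] at this
    have := key x hx
    rwa [hxe, zero_smul, add_zero] at this

theorem dim : DimStmt := by
  intro V _ E W F hW hE hF
  obtain ⟨w, hw⟩ := hW
  let φ := (bdy (W.erase w)).comp (ext0 E)
  have h1 := LinearMap.finrank_range_add_finrank_ker φ
  rw [Module.finrank_fintype_fun_eq_card, Fintype.card_coe] at h1
  have h2 : Module.finrank (ZMod 2) (LinearMap.range φ) ≤ (W.erase w).card := by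
    refine (Submodule.finrank_le _).trans ?_
    rw [Module.finrank_fintype_fun_eq_card, Fintype.card_coe]
  have h3 : (LinearMap.ker φ).map (ext0 E) ≤ Submodule.span (ZMod 2) (F : Set (Vec V)) := by
    rintro _ ⟨x, hx, rfl⟩
    have hx' : ∀ v ∈ W.erase w, par (ext0 E x) v = 0 := fun v hv => congrFun hx ⟨v, hv⟩
    have ho : ∀ v, v ≠ w → par (ext0 E x) v = 0 := by
      intro v hv
      by_cases c : v ∈ W
      · exact hx' v (mem_erase.2 ⟨hv, c⟩)
      · refine sum_eq_zero fun u _ => ?_
        by_contra c'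
        exact c (hE _ _ (ext0_supp c')).2.1
    refine hF _ (fun e => ext0_supp) fun v => ?_
    by_cases c : v = w
    · have hs := sum_par (x := ext0 E x) fun v => by
        by_contra c'
        exact (hE _ _ (ext0_supp c')).1 rfl
      rw [sum_eq_single w (fun u _ hu => ho u hu) (fun h => absurd (mem_univ w) h)] at hs
      rwa [c]
    · exact ho v c
  have h4 : Module.finrank (ZMod 2) (LinearMap.ker φ) ≤ F.card := by
    rw [LinearEquiv.finrank_eq (Submodule.equivMapOfInjective _ (ext0_inj E) (LinearMap.ker φ))]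
    exact (Submodule.finrank_mono h3).trans (finrank_span_finset_le_card F)
  have h5 := card_erase_of_mem hw
  have h6 := card_pos.2 ⟨w, hw⟩
  omega

theorem ball : BallStmt := by
  intro V _ G W D hG hd hfar
  let B : V → Finset V := fun v =>
    if D v ≤ 4 then W.filter fun w => Wk G W v w (4 - D v) else ∅
  have h1 : ∀ v ∈ W, 9 - 2 * D v ≤ (B v).card := by
    intro v hv
    by_cases c : D v ≤ 4
    · have := ball_card hG hd hv (ρ := 4 - D v) (by omega)
      simp only [B, if_pos c]
      omega
    · omega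
  have h2 : ∀ v w, w ∈ B v → D v ≤ 4 ∧ w ∈ W ∧ Wk G W v w (4 - D v) := by
    intro v w hw
    by_cases c : D v ≤ 4
    · simp only [B, if_pos c] at hw
      exact ⟨c, mem_filter.1 hw⟩
    · simp only [B, if_neg c] at hw
      exact absurd hw (notMem_empty w)
  refine (sum_le_sum h1).trans ?_
  rw [← card_biUnion]
  · refine card_le_card fun w hw => ?_
    obtain ⟨v, _, hv⟩ := mem_biUnion.1 hw
    exact (h2 v w hv).2.1
  · intro u hu v hv huv
    refine disjoint_left.2 fun w a b => ?_
    obtain ⟨a1, -, a2⟩ := h2 u w a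
    obtain ⟨b1, -, b2⟩ := h2 v w b
    have := hfar u hu v hv huv _ (a2.trans b2.symm)
    omega

end Pool.Agent.MP_e6539c_co.C5
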