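import Mathlib.GroupTheory.GroupAction.Ring
import Pool.Agent.MP_e6539c_co.C5.Basic

/-! The handshake path and the weight of even sets of the terminal graph. -/

set_option autoImplicit false

namespace Pool.Agent.MP_e6539c_co.C5

open Finset
open Pool.Agent.MP_7be75d_co (R Conn comp)
open Pool.Agent.MP_7be75d_co
open scoped Classical

theorem hand : HandStmt := by
  intro V _ x a hd ha
  let H : SimpleGraph V :=
    { Adj := fun u v => x s(u, v) ≠ 0
      symm := ⟨fun u v h => by rwa [Sym2.eq_swap]⟩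
      loopless := ⟨fun v h => h (hd v)⟩ }
  have h0 : ∑ v ∈ comp H univ a, par x v = 0 := by
    rw [sum_par_closed hd]
    refine sum_eq_zero fun v hv => sum_eq_zero fun w hw => ?_
    by_contra hc
    exact (mem_sdiff.1 hw).2 (comp_closed hv (mem_univ w) hc)
  have hm : a ∈ comp H univ a := self_mem_comp (mem_univ a)
  have : ∃ b ∈ comp H univ a, b ≠ a ∧ par x b ≠ 0 := by
    by_contra hc
    push Not at hc
    apply ha
    rw [← h0, sum_eq_single a (fun b hb hne => hc b hb hne) (fun h => absurd hm h)]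
  obtain ⟨b, hb, hne, hp⟩ := this
  obtain ⟨L, f, f0, f1, -, f3, f4⟩ := (mem_comp.1 hb).2.exists_path (mem_univ a)
  exact ⟨L, f, f0, f1 ▸ hne, f1 ▸ hp, f3, f4⟩

namespace Wt

variable {V : Type}

/-- Both ends in `C`. -/
def cc (C : Finset V) (e : Sym2 V) : Prop := ∀ v ∈ e, v ∈ C

/-- No end in `C`. -/
def tt (C : Finset V) (e : Sym2 V) : Prop := ∀ v ∈ e, v ∉ C

theorem cc_mk {C : Finset V} {u v : V} : cc C s(u, v) ↔ u ∈ C ∧ v ∈ C := by
  simp [cc]

theorem tt_mk {C : Finset V} {u v : V} : tt C s(u, v) ↔ u ∉ C ∧ v ∉ C := by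
  simp [tt]

theorem not_cc_tt {C : Finset V} {e : Sym2 V} (h : cc C e) : ¬ tt C e := by
  induction e using Sym2.ind with
  | h u v => exact fun h' => (tt_mk.1 h').1 (cc_mk.1 h).1

theorem low [Fintype V] (C : Finset V) (x : Vec V) (ω : Sym2 V → ℕ) (T₁ T₂ T₃ : Finset (Sym2 V))
    (h₁ : ∀ e ∈ T₁, x e ≠ 0 ∧ cc C e) (h₂ : ∀ e ∈ T₂, x e ≠ 0 ∧ tt C e)
    (h₃ : ∀ e ∈ T₃, x e ≠ 0 ∧ ¬ cc C e ∧ ¬ tt C e) :
    ∑ e ∈ T₁, ω e + ∑ e ∈ T₂, ω e + ∑ e ∈ T₃, ω e ≤
      ∑ e ∈ univ.filter (fun e => x e ≠ 0), ω e := by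
  have d1 : Disjoint T₁ T₂ := disjoint_left.2 fun e a b => not_cc_tt (h₁ e a).2 (h₂ e b).2
  have d2 : Disjoint (T₁ ∪ T₂) T₃ := disjoint_left.2 fun e a b => by
    rcases mem_union.1 a with a | a
    · exact (h₃ e b).2.1 (h₁ e a).2
    · exact (h₃ e b).2.2 (h₂ e a).2
  rw [← sum_union d1, ← sum_union d2]
  refine sum_le_sum_of_subset fun e he => mem_filter.2 ⟨mem_univ _, ?_⟩
  rcases mem_union.1 he with he | he
  · rcases mem_union.1 he with he | he
    · exact (h₁ e he).1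
    · exact (h₂ e he).1
  · exact (h₃ e he).1

/-- The edges of a path. -/
noncomputable def pe (L : ℕ) (f : ℕ → V) : Finset (Sym2 V) :=
  (range L).image fun j => s(f j, f (j + 1))

theorem card_pe {L : ℕ} {f : ℕ → V} (h : ∀ i ≤ L, ∀ j ≤ L, f i = f j → i = j) :
    (pe L f).card = L := by
  unfold pe
  rw [card_image_of_injOn, card_range]
  intro i hi j hj e
  have hi : i < L := by simpa using hi
  have hj : j < L := by simpa using hj
  rcases Sym2.eq_iff.1 e with ⟨a, -⟩ | ⟨a, b⟩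
  · exact h i hi.le j hj.le a
  · have h1 := h i hi.le (j + 1) hj a
    have h2 := h (i + 1) hi j hj.le b
    omega

theorem mem_pe {L : ℕ} {f : ℕ → V} {e : Sym2 V} (h : e ∈ pe L f) :
    ∃ j < L, e = s(f j, f (j + 1)) := by
  obtain ⟨j, hj, rfl⟩ := mem_image.1 h
  exact ⟨j, mem_range.1 hj, rfl⟩

theorem sum_cc {C : Finset V} {ω : Sym2 V → ℕ} (h : ∀ u ∈ C, ∀ v ∈ C, 2 ≤ ω s(u, v))
    {T : Finset (Sym2 V)} (hT : ∀ e ∈ T, cc C e) : T.card * 2 ≤ ∑ e ∈ T, ω e := by
  refine card_nsmul_le_sum T _ 2 fun e he => ?_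
  have := hT e he
  induction e using Sym2.ind with
  | h u v => exact h u (cc_mk.1 this).1 v (cc_mk.1 this).2

/-- The part of `x` inside `C`. -/
noncomputable def xc (C : Finset V) (x : Vec V) : Vec V := fun e => if cc C e then x e else 0

theorem xc_ne {C : Finset V} {x : Vec V} {e : Sym2 V} (h : xc C x e ≠ 0) : x e ≠ 0 ∧ cc C e := by
  unfold xc at h
  split_ifs at h with c
  · exact ⟨h, c⟩
  · exact absurd rfl h

variable [Fintype V] {G : SimpleGraph V} {C : Finset V} {A : Fin 4 → List V} {t : Fin 4 → V}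
  {x : Vec V}

theorem par_xc_out {u : V} (hu : u ∉ C) : par (xc C x) u = 0 := by
  refine sum_eq_zero fun w _ => ?_
  by_contra hc
  exact hu (cc_mk.1 (xc_ne hc).2).1

theorem par_xc_in (ho : ∀ i, t i ∉ C) (hi : Function.Injective t) (hx : Ev (HK G C A t) x)
    {u : V} (hu : u ∈ C) : par (xc C x) u = ∑ i, x s(u, t i) := by
  have e1 : par (xc C x) u = ∑ w ∈ C, x s(u, w) := by
    unfold par
    rw [← sum_subset (subset_univ C)]
    · exact sum_congr rfl fun w hw => if_pos (cc_mk.2 ⟨hu, hw⟩)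
    · exact fun w _ hw => if_neg fun c => hw (cc_mk.1 c).2
  have e2 : ∑ w ∈ univ \ C, x s(u, w) = ∑ i, x s(u, t i) := by
    rw [← sum_image (s := univ) (g := t) (f := fun w => x s(u, w)) (fun i _ j _ e => hi e)]
    symm
    refine sum_subset (fun w hw => ?_) fun w hw hw' => ?_
    · obtain ⟨i, -, rfl⟩ := mem_image.1 hw
      exact mem_sdiff.2 ⟨mem_univ _, ho i⟩
    · by_contra hc
      rcases (hk_adj_in ho hu).1 (hx.1 u w hc) with h | ⟨i, rfl, -⟩
      · exact (mem_sdiff.1 hw).2 h.1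
      · exact hw' (mem_image_of_mem t (mem_univ i))
  have e3 : ∑ w ∈ univ \ C, x s(u, w) + ∑ w ∈ C, x s(u, w) = 0 := by
    rw [sum_sdiff (subset_univ C)]
    exact hx.2 u
  rw [e1, ← e2]
  have := CharTwo.add_self_eq_zero (∑ w ∈ univ \ C, x s(u, w))
  linear_combination e3 - this

/-- The attachments used by `x`. -/
noncomputable def att (C : Finset V) (t : Fin 4 → V) (x : Vec V) : Finset (V × Fin 4) :=
  univ.filter fun p => p.1 ∈ C ∧ x s(p.1, t p.2) ≠ 0

theorem mem_att {u : V} {i : Fin 4} : (u, i) ∈ att C t x ↔ u ∈ C ∧ x s(u, t i) ≠ 0 := by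
  simp [att]

theorem odd_att (ho : ∀ i, t i ∉ C) (hi : Function.Injective t) (hx : Ev (HK G C A t) x)
    {u : V} (h : par (xc C x) u ≠ 0) : ∃ i, (u, i) ∈ att C t x := by
  have hu : u ∈ C := by
    by_contra hc
    exact h (par_xc_out hc)
  rw [par_xc_in ho hi hx hu] at h
  obtain ⟨i, -, hi⟩ := exists_ne_zero_of_sum_ne_zero h
  exact ⟨i, mem_att.2 ⟨hu, hi⟩⟩

theorem att_odd (ho : ∀ i, t i ∉ C) (hi : Function.Injective t) (hx : Ev (HK G C A t) x)
    {u : V} {i : Fin 4} (h : (u, i) ∈ att C t x) (h1 : ∀ j, (u, j) ∈ att C t x → j = i) :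
    par (xc C x) u ≠ 0 := by
  obtain ⟨hu, h⟩ := mem_att.1 h
  rw [par_xc_in ho hi hx hu, sum_eq_single i (fun j _ hj => ?_) (by simp)]
  · exact h
  · by_contra hc
    exact hj (h1 j (mem_att.2 ⟨hu, hc⟩))

theorem att_even (ho : ∀ i, t i ∉ C) (hi : Function.Injective t) (hx : Ev (HK G C A t) x) :
    Even (att C t x).card := by
  have dg0 : ∀ v, xc C x s(v, v) = 0 := fun v => by
    by_contra k
    exact (xc_ne k).1 (hx.diag v)
  rw [← ZMod.natCast_eq_zero_iff_even, ← sum_par dg0, att, card_filter, Nat.cast_sum,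
    Fintype.sum_prod_type]
  refine sum_congr rfl fun u _ => ?_
  by_cases hu : u ∈ C
  · rw [par_xc_in ho hi hx hu]
    refine sum_congr rfl fun i _ => ?_
    by_cases k : x s(u, t i) = 0
    · simp [k]
    · rw [if_pos ⟨hu, k⟩, z2_ne.1 k, Nat.cast_one]
  · rw [par_xc_out hu]
    simp [hu]

omit [Fintype V] in
theorem g_inj (ho : ∀ i, t i ∉ C) (hi : Function.Injective t) {u v : V} {i j : Fin 4}
    (hu : u ∈ C) (e : s(u, t i) = s(v, t j)) : u = v ∧ i = j := by
  rcases Sym2.eq_iff.1 e with ⟨a, b⟩ | ⟨a, -⟩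
  · exact ⟨a, hi b⟩
  · exact absurd (a ▸ hu) (ho j)

theorem att_edge (ho : ∀ i, t i ∉ C) {u : V} {i : Fin 4} (h : (u, i) ∈ att C t x) :
    x s(u, t i) ≠ 0 ∧ ¬ cc C s(u, t i) ∧ ¬ tt C s(u, t i) :=
  ⟨(mem_att.1 h).2, fun c => ho i (cc_mk.1 c).2, fun c => (tt_mk.1 c).1 (mem_att.1 h).1⟩

/-- An edge of `x` at a terminal is an attachment or a frame edge. -/
theorem at_term (ho : ∀ i, t i ∉ C) (hi : Function.Injective t) (hx : Ev (HK G C A t) x)
    {i : Fin 4} {w : V} (h : x s(t i, w) ≠ 0) :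
    (w, i) ∈ att C t x ∨ w = t (i + 1) ∨ ∃ k, w = t k ∧ i = k + 1 := by
  have a := hx.1 _ _ h
  rcases hk_mem a.symm with c | ⟨k, rfl⟩
  · exact Or.inl (mem_att.2 ⟨c, by rwa [Sym2.eq_swap]⟩)
  · rcases (hk_adj_tt ho hi i k).1 a with e | e
    · exact Or.inr (Or.inl (by rw [e]))
    · exact Or.inr (Or.inr ⟨k, rfl, e⟩)

/-- An edge of `x` at a vertex of `C` is an attachment or lies in `C`. -/
theorem at_in (ho : ∀ i, t i ∉ C) (hx : Ev (HK G C A t) x) {u w : V} (hu : u ∈ C)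
    (h : x s(u, w) ≠ 0) : w ∈ C ∨ ∃ k, w = t k ∧ (u, k) ∈ att C t x := by
  rcases (hk_adj_in ho hu).1 (hx.1 u w h) with c | ⟨k, rfl, -⟩
  · exact Or.inl c.1
  · exact Or.inr ⟨k, rfl, mem_att.2 ⟨hu, h⟩⟩

theorem path_in (ho : ∀ i, t i ∉ C) (hx : Ev (HK G C A t) x) {L : ℕ} {f : ℕ → V}
    (h0 : f 0 ∈ C) (h : ∀ j < L, xc C x s(f j, f (j + 1)) ≠ 0) :
    (∀ j ≤ L, f j ∈ C) ∧ ∀ j < L, G.Adj (f j) (f (j + 1)) := by
  refine ⟨fun j hj => ?_, fun j hj => ?_⟩
  · cases j with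
    | zero => exact h0
    | succ j => exact (cc_mk.1 (xc_ne (h j hj)).2).2
  · obtain ⟨a, b⟩ := xc_ne (h j hj)
    exact (hk_adj_CC ho (cc_mk.1 b).1 (cc_mk.1 b).2).1 (hx.1 _ _ a)

theorem fin4 : ∀ i j : Fin 4, i = j + 1 → j ≠ i + 1 := by decide

theorem fin4' : ∀ m i : Fin 4, i = m ∨ i = m + 1 ∨ i = m + 1 + 1 ∨ i = m + 1 + 1 + 1 := by decide

/-- No attachment is used. -/
theorem case0 (h : HandStmt) (hG : Gi G) (ho : ∀ i, t i ∉ C) (hi : Function.Injective t)
    (hx : Ev (HK G C A t) x) (hne : x ≠ 0) {ω : Sym2 V → ℕ}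
    (w1 : ∀ u ∈ C, ∀ v ∈ C, 2 ≤ ω s(u, v)) (w2 : ∀ i, 6 ≤ ω s(t i, t (i + 1)))
    (h0 : ∀ u i, (u, i) ∉ att C t x) : 22 ≤ ∑ e ∈ univ.filter (fun e => x e ≠ 0), ω e := by
  by_cases hc : ∃ p ∈ C, ∃ w ∈ C, x s(p, w) ≠ 0
  · obtain ⟨p, hp, w, hw, hpw⟩ := hc
    have ne : p ≠ w := (hx.1 _ _ hpw).ne
    have ev : ∀ v, par (xc C x) v = 0 := fun v => by
      by_contra c
      obtain ⟨i, k⟩ := odd_att ho hi hx c
      exact h0 v i k
    have py : ∀ v, par (xc C x + ed p w) v =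
        (if v = p then 1 else 0) + (if v = w then 1 else 0) := fun v => by
      rw [par_add, ev, par_ed ne, zero_add]
    have y0 : (xc C x + ed p w) s(p, w) = 0 := by
      have : xc C x s(p, w) = 1 := by
        rw [xc, if_pos (cc_mk.2 ⟨hp, hw⟩)]
        exact z2_ne.1 hpw
      rw [Pi.add_apply, this, ed, if_pos rfl]
      decide
    have yne : ∀ e, (xc C x + ed p w) e ≠ 0 → e ≠ s(p, w) ∧ xc C x e ≠ 0 := fun e he => by
      have : e ≠ s(p, w) := fun c => he (c ▸ y0)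
      refine ⟨this, ?_⟩
      rwa [Pi.add_apply, ed, if_neg this, add_zero] at he
    obtain ⟨L, f, f0, f1, f2, f3, f4⟩ := h V (xc C x + ed p w) p (fun v => by
      by_contra c
      exact (xc_ne (yne _ c).2).1 (hx.diag v)) (by rw [py]; simp [ne])
    have fL : f L = w := by
      by_contra c
      apply f2
      rw [py, if_neg f1, if_neg c, add_zero]
    obtain ⟨m, a⟩ := path_in ho hx (L := L) (f0 ▸ hp) fun j hj => (yne _ (f3 j hj)).2
    have L1 : 1 ≤ L := Nat.pos_of_ne_zero fun c => f1 (by rw [c, f0])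
    have n1 : f 1 ≠ w := fun c => (yne _ (f3 0 L1)).1 (by rw [f0, zero_add, c])
    have wk : Wk G (C.erase p) (f 1) (f L) (L - 1) :=
      Wk.of_fun L1 (fun j b c => mem_erase.2 ⟨fun e => by
        have := f4 j c 0 (Nat.zero_le _) (e.trans f0.symm)
        omega, m j c⟩) fun j _ c => a j c
    have := hG (C.erase p) p (f 1) w (L - 1) (notMem_erase _ _) (f0 ▸ a 0 L1)
      ((hk_adj_CC ho hp hw).1 (hx.1 _ _ hpw)) n1 (fL ▸ wk)
    have nm : s(p, w) ∉ pe L f := fun c => by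
      obtain ⟨j, hj, e⟩ := mem_pe c
      exact (yne _ (f3 j hj)).1 e.symm
    have hT : ∀ e ∈ insert s(p, w) (pe L f), x e ≠ 0 ∧ cc C e := fun e he => by
      rcases mem_insert.1 he with rfl | he
      · exact ⟨hpw, cc_mk.2 ⟨hp, hw⟩⟩
      · obtain ⟨j, hj, rfl⟩ := mem_pe he
        exact xc_ne (yne _ (f3 j hj)).2
    have k1 := low C x ω _ ∅ ∅ hT (by simp) (by simp)
    have k2 := sum_cc w1 fun e he => (hT e he).2
    rw [card_insert_of_notMem nm, card_pe f4] at k2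
    simp only [sum_empty] at k1
    omega
  · push Not at hc
    have st : ∃ m, x s(t m, t (m + 1)) ≠ 0 := by
      obtain ⟨e, he⟩ := Function.ne_iff.1 hne
      induction e using Sym2.ind with
      | h a b =>
        have he : x s(a, b) ≠ 0 := he
        rcases hk_mem (hx.1 _ _ he) with c | ⟨i, rfl⟩
        · rcases at_in ho hx c he with d | ⟨k, -, d⟩
          · exact absurd (hc a c b d) he
          · exact absurd d (h0 _ _)
        · rcases at_term ho hi hx he with d | rfl | ⟨k, rfl, rfl⟩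
          · exact absurd d (h0 _ _)
          · exact ⟨i, he⟩
          · exact ⟨k, by rwa [Sym2.eq_swap]⟩
    have step : ∀ m, x s(t m, t (m + 1)) ≠ 0 → x s(t (m + 1), t (m + 1 + 1)) ≠ 0 := fun m hm => by
      obtain ⟨w, hw, c⟩ := second_edge (hx.2 (t (m + 1))) (v := t m) (by rwa [Sym2.eq_swap])
      rcases at_term ho hi hx c with d | rfl | ⟨k, rfl, d⟩
      · exact absurd d (h0 _ _)
      · exact c
      · exact absurd (by rw [add_right_cancel d]) hw
    obtain ⟨m, hm⟩ := st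
    have all : ∀ i, x s(t i, t (i + 1)) ≠ 0 := fun i => by
      rcases fin4' m i with rfl | rfl | rfl | rfl
      exacts [hm, step _ hm, step _ (step _ hm), step _ (step _ (step _ hm))]
    have k1 := low C x ω ∅ (univ.image fun i => s(t i, t (i + 1))) ∅ (by simp) (fun e he => by
      obtain ⟨i, -, rfl⟩ := mem_image.1 he
      exact ⟨all i, tt_mk.2 ⟨ho _, ho _⟩⟩) (by simp)
    rw [sum_image fun i _ j _ e => ?_] at k1
    · have k2 : (univ : Finset (Fin 4)).card * 6 ≤ ∑ i, ω s(t i, t (i + 1)) :=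
        card_nsmul_le_sum univ _ 6 fun i _ => w2 i
      simp only [sum_empty, card_univ, Fintype.card_fin] at k1 k2
      omega
    · rcases Sym2.eq_iff.1 e with ⟨a, -⟩ | ⟨a, b⟩
      · exact hi a
      · exact absurd (hi b).symm (fin4 i j (hi a))

end Wt

open Wt in
theorem weight (h : HandStmt) : WeightStmt := by
  intro V _ G Γ C c A t hK ht ω w1 w2 w3 x hx hne
  have ho := hK.t_out ht
  have hi := hK.t_inj ht
  have w8 : ∀ u ∈ C, ∀ i, 7 ≤ ω s(u, t i) := fun u hu i => by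
    have := w3 u hu i
    split_ifs at this <;> omega
  have dg0 : ∀ v, xc C x s(v, v) = 0 := fun v => by
    by_contra k
    exact (xc_ne k).1 (hx.diag v)
  have ev := Nat.even_iff.1 (att_even ho hi hx)
  rcases Nat.lt_or_ge (att C t x).card 4 with h3 | h3
  swap
  · have k1 := low C x ω ∅ ∅ ((att C t x).image fun p => s(p.1, t p.2)) (by simp) (by simp)
      (fun e he => by
        obtain ⟨p, hp, rfl⟩ := mem_image.1 he
        exact att_edge ho hp)
    rw [sum_image fun p hp q _ e => ?_] at k1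
    · have k2 : (att C t x).card * 7 ≤ ∑ p ∈ att C t x, ω s(p.1, t p.2) :=
        card_nsmul_le_sum _ _ 7 fun p hp => w8 _ (mem_att.1 hp).1 _
      simp only [sum_empty] at k1
      omega
    · obtain ⟨a, b⟩ := g_inj ho hi (mem_att.1 hp).1 e
      exact Prod.ext a b
  have hcase : (att C t x).card = 0 ∨ (att C t x).card = 2 := by omega
  rcases hcase with h0 | h2
  · refine case0 h hK.ctx.gi ho hi hx hne w1 w2 fun u i k => ?_
    rw [card_eq_zero.1 h0] at k
    exact notMem_empty _ k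
  obtain ⟨⟨u, i⟩, ⟨u', j⟩, hpq, e⟩ := card_eq_two.1 h2
  have m : ∀ v k, (v, k) ∈ att C t x ↔ (v = u ∧ k = i) ∨ (v = u' ∧ k = j) := fun v k => by
    simp [e]
  have mu := (m u i).2 (Or.inl ⟨rfl, rfl⟩)
  have mu' := (m u' j).2 (Or.inr ⟨rfl, rfl⟩)
  have hu := (mem_att.1 mu).1
  have hu' := (mem_att.1 mu').1
  have ne : s(u, t i) ≠ s(u', t j) := fun k => by
    obtain ⟨a, b⟩ := g_inj ho hi hu k
    exact hpq (Prod.ext a b)
  have h₃ : ∀ e ∈ ({s(u, t i), s(u', t j)} : Finset (Sym2 V)),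
      x e ≠ 0 ∧ ¬ cc C e ∧ ¬ tt C e := fun e he => by
    rcases mem_insert.1 he with rfl | he
    · exact att_edge ho mu
    · rw [mem_singleton.1 he]
      exact att_edge ho mu'
  obtain ⟨a, ha, aa⟩ := (hk_adj_Ct ho hi hu i).1 (hx.1 _ _ (mem_att.1 mu).2)
  obtain ⟨a', ha', aa'⟩ := (hk_adj_Ct ho hi hu' j).1 (hx.1 _ _ (mem_att.1 mu').2)
  have b1 := w8 u hu i
  have b2 := w8 u' hu' j
  by_cases hij : i = j
  · subst hij
    have uu : u ≠ u' := fun k => hpq (by rw [k])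
    obtain ⟨L, f, f0, f1, f2, f3, f4⟩ := h V (xc C x) u dg0
      (att_odd ho hi hx mu fun k hk => ((m u k).1 hk).elim And.right And.right)
    obtain ⟨k, hk⟩ := odd_att ho hi hx f2
    have fL : f L = u' := ((m _ _).1 hk).elim (fun z => absurd z.1 f1) And.left
    obtain ⟨mm, ad⟩ := path_in ho hx (L := L) (f0 ▸ hu) f3
    have wk : Wk G C (f 0) (f L) (L - 0) :=
      Wk.of_fun (Nat.zero_le L) (fun j _ z => mm j z) fun j _ z => ad j z
    rw [f0, fL] at wk
    have := hK.arc_far ha ha' aa.symm aa'.symm (fun z => uu (congrArg Prod.snd z)) wk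
    have hT : ∀ e ∈ pe L f, x e ≠ 0 ∧ cc C e := fun e he => by
      obtain ⟨j, hj, rfl⟩ := mem_pe he
      exact xc_ne (f3 j hj)
    have k1 := low C x ω _ ∅ _ hT (by simp) h₃
    have k2 := sum_cc w1 fun e he => (hT e he).2
    rw [card_pe f4] at k2
    rw [sum_pair ne, sum_empty] at k1
    omega
  have fr : ∃ k, x s(t k, t (k + 1)) ≠ 0 := by
    obtain ⟨w, hw, z⟩ := second_edge (hx.2 (t i)) (v := u)
      (by rw [Sym2.eq_swap]; exact (mem_att.1 mu).2)
    rcases at_term ho hi hx z with d | rfl | ⟨k, rfl, rfl⟩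
    · exact ((m _ _).1 d).elim (fun y => absurd y.1 hw) fun y => absurd y.2 hij
    · exact ⟨i, z⟩
    · exact ⟨k, by rwa [Sym2.eq_swap]⟩
  obtain ⟨k, hk⟩ := fr
  have h₂ : ∀ e ∈ ({s(t k, t (k + 1))} : Finset (Sym2 V)), x e ≠ 0 ∧ tt C e := fun e he => by
    rw [mem_singleton.1 he]
    exact ⟨hk, tt_mk.2 ⟨ho _, ho _⟩⟩
  have b3 := w2 k
  by_cases uu : u = u'
  · subst uu
    have k2 : ¬ kk G A u ≤ 1 := by
      rw [not_le]
      exact one_lt_card.2 ⟨i, mem_filter.2 ⟨mem_univ _, a, ha, aa⟩, j,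
        mem_filter.2 ⟨mem_univ _, a', ha', aa'⟩, hij⟩
    have c1 := w3 u hu i
    have c2 := w3 u hu j
    rw [if_neg k2] at c1 c2
    have k1 := low C x ω ∅ _ _ (by simp) h₂ h₃
    rw [sum_pair ne, sum_empty, sum_singleton] at k1
    omega
  · obtain ⟨w, hw, z⟩ := second_edge (hx.2 u) (mem_att.1 mu).2
    have wC : w ∈ C := by
      rcases at_in ho hx hu z with d | ⟨l, rfl, d⟩
      · exact d
      · exact ((m _ _).1 d).elim (fun y => absurd (by rw [y.2]) hw) fun y => absurd y.1 uu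
    have k1 := low C x ω {s(u, w)} _ _ (fun e he => by
      rw [mem_singleton.1 he]
      exact ⟨z, cc_mk.2 ⟨hu, wC⟩⟩) h₂ h₃
    have b4 := w1 u hu w wC
    rw [sum_pair ne, sum_singleton, sum_singleton] at k1
    omega

end Pool.Agent.MP_e6539c_co.C5
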