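import Mathlib.GroupTheory.GroupAction.Ring
import Pool.Agent.MP_e6539c_co.C5.Basic

/-! Exits that avoid a spanning set, and the induction for the two paths theorem. -/

set_option autoImplicit false

namespace Pool.Agent.MP_e6539c_co.C5

open Finset
open Pool.Agent.MP_7be75d_co (R Conn comp)
open Pool.Agent.MP_7be75d_co
open scoped Classical

namespace Xl

variable {V : Type} {H : SimpleGraph V} {M : List V} {k : ℕ} {q : ℕ → V}

/-- Two different members of a list occur in one of the two orders. -/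
theorem pair_sub {a b : V} : ∀ {l : List V}, a ∈ l → b ∈ l → a ≠ b →
    List.Sublist [a, b] l ∨ List.Sublist [b, a] l
  | [], ha, _, _ => by simp at ha
  | c :: l, ha, hb, hab => by
    rcases List.mem_cons.1 ha with e | ha' <;> rcases List.mem_cons.1 hb with e' | hb'
    · exact absurd (e.trans e'.symm) hab
    · exact Or.inl (e ▸ (List.singleton_sublist.2 hb').cons_cons _)
    · exact Or.inr (e' ▸ (List.singleton_sublist.2 ha').cons_cons _)
    · exact (pair_sub ha' hb' hab).imp (fun h => h.cons _) fun h => h.cons _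

theorem mem_seg {a b : ℕ} {z : V} :
    z ∈ (Icc a b).image q ↔ ∃ t, a ≤ t ∧ t ≤ b ∧ q t = z := by
  simp [and_assoc]

/-- Two disjoint connected sets off the path that join the path to `M` in crossing order. -/
theorem mk (P : PQ H M k q) {Y₁ Y₂ : Finset V} {a b : V} {s t : ℕ} (c₁ : Conn H Y₁)
    (c₂ : Conn H Y₂) (d : Disjoint Y₁ Y₂) (o₁ : ∀ z ∈ Y₁, z ∉ qs k q) (o₂ : ∀ z ∈ Y₂, z ∉ qs k q)
    (ha : a ∈ Y₁) (hb : b ∈ Y₂) (m₁ : ∀ z ∈ Y₁, z ∈ M → z = a) (m₂ : ∀ z ∈ Y₂, z ∈ M → z = b)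
    (sub : List.Sublist [b, a] M) (a₁ : Act H Y₁ (q s)) (a₂ : Act H Y₂ (q t)) (hts : t < s)
    (hs : s ≤ k) : Cross H (q k :: (M ++ [q 0])) := by
  have haM : a ∈ M := sub.subset (by simp)
  have hbM : b ∈ M := sub.subset (by simp)
  have mq : ∀ r ≤ k, q r ∈ qs k q := fun r hr => mem_qs.2 ⟨r, hr, rfl⟩
  obtain ⟨y₁, hy₁, e₁⟩ := a₁
  obtain ⟨y₂, hy₂, e₂⟩ := a₂
  refine cross_mk (x := q k) (u := b) (y := a) (v := q 0) (X₁ := (Icc s k).image q ∪ Y₁)
    (X₂ := (Icc 0 t).image q ∪ Y₂) ((sub.append (List.Sublist.refl [q 0])).cons_cons _)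
    ((conn_segment hs fun j _ hj => P.adj j hj).union_adj c₁ (mem_seg.2 ⟨s, le_rfl, hs, rfl⟩)
      hy₁ e₁)
    ((conn_segment (Nat.zero_le t) fun j _ hj => P.adj j (by omega)).union_adj c₂
      (mem_seg.2 ⟨t, Nat.zero_le _, le_rfl, rfl⟩) hy₂ e₂) ?_ (fun z => ?_) fun z => ?_
  · refine disjoint_left.2 fun z h1 h2 => ?_
    rcases mem_union.1 h1 with h1 | h1 <;> rcases mem_union.1 h2 with h2 | h2
    · obtain ⟨r, r1, r2, rfl⟩ := mem_seg.1 h1
      obtain ⟨r', -, r3, e⟩ := mem_seg.1 h2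
      have := P.inj r' (by omega) r r2 e
      omega
    · obtain ⟨r, -, r2, rfl⟩ := mem_seg.1 h1
      exact o₂ _ h2 (mq r r2)
    · obtain ⟨r, -, r2, rfl⟩ := mem_seg.1 h2
      exact o₁ _ h1 (mq r (by omega))
    · exact disjoint_left.1 d h1 h2
  · simp only [mem_union, List.mem_cons, List.mem_append, List.not_mem_nil, or_false]
    constructor
    · rintro ⟨h1 | h1, h2 | h2 | h2⟩
      · exact Or.inl h2
      · obtain ⟨r, -, r2, rfl⟩ := mem_seg.1 h1
        exact absurd h2 (P.off r r2)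
      · obtain ⟨r, r1, r2, rfl⟩ := mem_seg.1 h1
        have := P.inj r r2 0 (Nat.zero_le _) h2
        omega
      · exact Or.inl h2
      · exact Or.inr (m₁ z h1 h2)
      · exact absurd (h2 ▸ mq 0 (Nat.zero_le _)) (o₁ z h1)
    · rintro (rfl | rfl)
      · exact ⟨Or.inl (mem_seg.2 ⟨k, hs, le_rfl, rfl⟩), Or.inl rfl⟩
      · exact ⟨Or.inr ha, Or.inr (Or.inl haM)⟩
  · simp only [mem_union, List.mem_cons, List.mem_append, List.not_mem_nil, or_false]
    constructor
    · rintro ⟨h1 | h1, h2 | h2 | h2⟩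
      · obtain ⟨r, -, r2, rfl⟩ := mem_seg.1 h1
        have := P.inj r (by omega) k le_rfl h2
        omega
      · obtain ⟨r, -, r2, rfl⟩ := mem_seg.1 h1
        exact absurd h2 (P.off r (by omega))
      · exact Or.inr h2
      · exact absurd (h2 ▸ mq k le_rfl) (o₂ z h1)
      · exact Or.inl (m₂ z h1 h2)
      · exact Or.inr h2
    · rintro (rfl | rfl)
      · exact ⟨Or.inr hb, Or.inr (Or.inl hbM)⟩
      · exact ⟨Or.inl (mem_seg.2 ⟨0, le_rfl, Nat.zero_le _, rfl⟩), Or.inr (Or.inr rfl)⟩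

end Xl

theorem xl : XlStmt := by
  intro V _ H M k q P hc U i j l hU hUM hij hjl hl ⟨cU, ai, al⟩ w hw ⟨u, hu, ew⟩
    ⟨m, hm, y, hy, ey, r⟩
  obtain ⟨m₁, hm₁, r₁, r₂⟩ := first_hit (A := M.toFinset) r (List.mem_toFinset.2 hm)
  have hmW := r₂.mem hy
  obtain ⟨Y, hY, cY, hmY, hyY⟩ := r₁.symm.exists_conn (mem_insert_self _ _)
  have YW : ∀ z ∈ Y, z ∈ KK H M k q \ insert w U := fun z hz => by
    rcases mem_insert.1 (hY hz) with rfl | h
    · exact hmW
    · exact (mem_sdiff.1 h).1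
  have mY : ∀ z ∈ Y, z ∈ M → z = m₁ := fun z hz hzM => by
    rcases mem_insert.1 (hY hz) with h | h
    · exact h
    · exact absurd (List.mem_toFinset.2 hzM) (mem_sdiff.1 h).2
  have oY : ∀ z ∈ Y, z ∉ qs k q := fun z hz => P.KK_off (mem_sdiff.1 (YW z hz)).1
  have cW : Conn H (insert w U) := cU.insert hu ew.symm
  have oW : ∀ z ∈ insert w U, z ∉ qs k q := fun z hz => by
    rcases mem_insert.1 hz with rfl | h
    · exact P.M_off hw
    · exact P.KK_off (hU h)
  have mW : ∀ z ∈ insert w U, z ∈ M → z = w := fun z hz hzM => by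
    rcases mem_insert.1 hz with h | h
    · exact h
    · exact absurd hzM (hUM z h)
  have d : Disjoint Y (insert w U) := disjoint_left.2 fun z hz => (mem_sdiff.1 (YW z hz)).2
  have hne : w ≠ m₁ := fun e => (mem_sdiff.1 hmW).2 (e ▸ mem_insert_self _ _)
  rcases Xl.pair_sub hw (List.mem_toFinset.1 hm₁) hne with s | s
  · exact hc (Xl.mk P cY cW d oY oW hmY (mem_insert_self _ _) mY mW s ⟨y, hyY, ey⟩
      (ai.mono (subset_insert _ _)) hij (by omega))
  · exact hc (Xl.mk P cW cY d.symm oW oY (mem_insert_self _ _) hmY mW mY s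
      (al.mono (subset_insert _ _)) ⟨y, hyY, ey⟩ hjl hl)

theorem tp (hL : LinkStmt) (hS : SplitStmt) (hE : ExtqStmt) (hX : XlStmt) (hN : LensStmt)
    (hG : GoodStmt) (hC : PcrossStmt) (hP : PeelStmt) (hB : BaseStmt) : TPStmt := by
  intro V _ H
  induction hn : H.edgeSet.ncard using Nat.strong_induction_on generalizing H with
  | _ n ih =>
    intro L fr nc fc
    have IH : TPih H := fun H' L' h => ih _ (hn ▸ h) H' rfl L'
    rcases hL V H L fr nc fc with h | ⟨v, hv, p, h⟩ | ⟨a, b, M, U, r, cU, oU, aa, ab⟩ |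
      ⟨x, y, I, J, r, hI, hJ, h⟩
    · exact (hB V H L fr).1 h
    · exact (hB V H L fr).2 v hv p h nc fc IH
    · obtain ⟨k, q, rfl, rfl, P, rr, ch⟩ :=
        hE V H a b M U (fr.rot r) cU (fun u hu c => oU u hu (r.mem_iff.2 c)) aa ab
      have nc' : ¬ Cross H (q k :: (M ++ [q 0])) := fun c => nc (c.rot r.symm)
      obtain ⟨g1, g2⟩ := hG V H M k q P rr (hX V H M k q P nc') (hN V H M k q P (fc.rot r) ch)
      obtain ⟨F, hF⟩ := hP V H M k q P (fc.rot r) (hC V H M k q P nc' ch g1 g2) IH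
      exact ⟨F, hF.rot r.symm⟩
    · obtain ⟨F, hF⟩ :=
        hS V H x y I J (fr.rot r) (fun c => nc (c.rot r.symm)) (fc.rot r) hI hJ h IH
      exact ⟨F, hF.rot r.symm⟩

end Pool.Agent.MP_e6539c_co.C5
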