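import Pool.Agent.MP_e6539c_co.C5.Basic
import Pool.Agent.MP_7be75d_co.Menger

/-! A cycle of the territory behind a cut of at most three vertices gives a smaller state. -/

set_option autoImplicit false

namespace Pool.Agent.MP_e6539c_co.C5

open Finset
open Pool.Agent.MP_7be75d_co (R Conn comp)
open Pool.Agent.MP_7be75d_co
open scoped Classical

namespace Zred

variable {V : Type} [Fintype V]

/-- The neighbours of `Z` outside `Z`. -/
noncomputable def nb (H : SimpleGraph V) (Z : Finset V) : Finset V :=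
  univ.filter fun w => w ∉ Z ∧ ∃ z ∈ Z, H.Adj z w

theorem mem_nb {H : SimpleGraph V} {Z : Finset V} {w : V} :
    w ∈ nb H Z ↔ w ∉ Z ∧ ∃ z ∈ Z, H.Adj z w := by simp [nb]

omit [Fintype V] in
theorem reach_mem {H : SimpleGraph V} {C T W : Finset V} (hH : ∀ x y, H.Adj x y → x ∈ C ∨ x ∈ T)
    {a v : V} (ha : a ∈ C ∨ a ∈ T) (h : R H W a v) : v ∈ C ∨ v ∈ T := by
  by_cases e : v = a
  · exact e ▸ ha
  · obtain ⟨y, -, -, hy⟩ := h.symm.exists_adj e
    exact hH _ _ hy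

/-- The neighbours of a set with a smallest boundary are linked to the terminals. -/
theorem link {H : SimpleGraph V} {C T Z : Finset V} (hH : ∀ x y, H.Adj x y → x ∈ C ∨ x ∈ T)
    (hZ : Z ⊆ C) (hmin : ∀ Z', Z ⊆ Z' → Z' ⊆ C → (nb H Z).card ≤ (nb H Z').card) :
    ∃ P : V → Finset V, (∀ y ∈ nb H Z, y ∈ P y ∧ Conn H (P y) ∧ (∀ x ∈ P y, x ∉ Z) ∧
      ∃ b ∈ T, b ∈ P y) ∧
      ∀ y ∈ nb H Z, ∀ y' ∈ nb H Z, ∀ x, x ∈ P y → x ∈ P y' → y = y' := by
  obtain ⟨P, hP, hp⟩ := menger_from (G := H) (U := univ \ Z) (B := T)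
    (fun y : {y // y ∈ nb H Z} => y.1) (fun Y hY => by
      by_contra hc
      rw [Fintype.card_coe] at hY
      have hj : ∀ a ∈ nb H Z, a ∈ (univ \ Z) \ Y → ∀ v, R H ((univ \ Z) \ Y) a v → v ∉ T :=
        fun a ha ha' v hv hT =>
          hc ⟨a, mem_image.2 ⟨⟨a, ha⟩, mem_univ _, rfl⟩, v, hT, ha', hv⟩
      let Z' := Z ∪ univ.filter fun v =>
        ∃ a ∈ nb H Z, a ∈ (univ \ Z) \ Y ∧ R H ((univ \ Z) \ Y) a v
      have h1 : Z' ⊆ C := by
        intro v hv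
        rcases mem_union.1 hv with hv | hv
        · exact hZ hv
        · obtain ⟨a, ha, ha', hr⟩ := (mem_filter.1 hv).2
          obtain ⟨-, z, -, hz⟩ := mem_nb.1 ha
          exact (reach_mem hH (hH _ _ hz.symm) hr).resolve_right (hj a ha ha' v hr)
      have h2 : nb H Z' ⊆ Y := by
        intro w hw
        obtain ⟨hw1, z, hz, hzw⟩ := mem_nb.1 hw
        by_contra hwY
        have hwZ : w ∉ Z := fun c => hw1 (mem_union_left _ c)
        have hw' : w ∈ (univ \ Z) \ Y := by simp [hwZ, hwY]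
        apply hw1
        refine mem_union_right _ (mem_filter.2 ⟨mem_univ _, ?_⟩)
        rcases mem_union.1 hz with hz | hz
        · exact ⟨w, mem_nb.2 ⟨hwZ, z, hz, hzw⟩, hw', R.refl⟩
        · obtain ⟨a, ha, ha', hr⟩ := (mem_filter.1 hz).2
          exact ⟨a, ha, ha', hr.tail hzw (hr.mem ha') hw'⟩
      have h3 := hmin Z' subset_union_left h1
      have h4 := card_le_card h2
      omega)
  refine ⟨fun y => if h : y ∈ nb H Z then P ⟨y, h⟩ else ∅, fun y hy => ?_,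
    fun y hy y' hy' x h1 h2 => ?_⟩
  · simp only [dif_pos hy]
    exact ⟨hp ⟨y, hy⟩, hP.conn _, fun x hx => (mem_sdiff.1 (hP.sub _ hx)).2, hP.right _⟩
  · simp only [dif_pos hy, dif_pos hy'] at h1 h2
    by_contra hc
    exact disjoint_left.1 (hP.disj ⟨y, hy⟩ ⟨y', hy'⟩ fun e => hc (congrArg Subtype.val e)) h1 h2

omit [Fintype V] in
theorem chain_ends {Γ : SimpleGraph V} {p q : V} {l : List V} (hl : l ≠ [])
    (h : (p :: (l ++ [q])).IsChain Γ.Adj) :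
    l.IsChain Γ.Adj ∧ (∃ a ∈ l, Γ.Adj p a) ∧ ∃ a ∈ l, Γ.Adj a q := by
  have h1 : (l ++ [q]).IsChain Γ.Adj := h.of_cons
  refine ⟨h1.left_of_append, ?_, ?_⟩
  · obtain ⟨a, l, rfl⟩ := List.exists_cons_of_ne_nil hl
    rw [List.cons_append, List.isChain_cons_cons] at h
    exact ⟨a, by simp, h.1⟩
  · obtain ⟨l, a, rfl⟩ := (List.eq_nil_or_concat' l).resolve_left hl
    rw [List.append_assoc, List.singleton_append, List.isChain_split, List.isChain_cons_cons] at h1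
    exact ⟨a, by simp, h1.2.1⟩

/-- Contraction of the links together with the arcs at which they end. -/
theorem core {G Γ : SimpleGraph V} {C Z M : Finset V} {c : Fin 4 → V} {A : Fin 4 → List V}
    (h : Ks G Γ C c A) (hZ : Z ⊆ C) {U : V → Finset V} {j : V → Fin 4}
    (hU : ∀ y ∈ M, y ∈ U y ∧ U y ⊆ C ∧ Conn G (U y) ∧ (∀ x ∈ U y, x ∉ Z) ∧
      ∃ x ∈ U y, ∃ a ∈ A (j y), G.Adj x a)
    (hd : ∀ y ∈ M, ∀ y' ∈ M, ∀ x, x ∈ U y → x ∈ U y' → y = y')
    (hj : ∀ y ∈ M, ∀ y' ∈ M, j y = j y' → y = y')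
    (hn : ∀ y ∈ M, ∀ a ∈ A (j y), ¬ Act G Z a)
    (hM : ∀ x ∈ C, x ∉ Z → Act G Z x → x ∈ M) {z : V} (hz : z ∈ Z) (hc : Cyc G (comp G Z z)) :
    ∃ (Γ' : SimpleGraph V) (A' : Fin 4 → List V), Ks G Γ' (comp G Z z) c A' := by
  have hC' : comp G Z z ⊆ Z := comp_subset
  have hMC : ∀ y ∈ M, y ∈ C := fun y hy => (hU y hy).2.1 (hU y hy).1
  have hMZ : ∀ y ∈ M, y ∉ Z := fun y hy => (hU y hy).2.2.2.1 y (hU y hy).1
  let W : V → Finset V := fun y => U y ∪ (A (j y)).toFinset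
  have mW : ∀ y x, x ∈ W y ↔ x ∈ U y ∨ x ∈ A (j y) := fun y x => by simp [W]
  have hW : ∀ y ∈ M, ∀ y' ∈ M, ∀ x, x ∈ W y → x ∈ W y' → y = y' := by
    intro y hy y' hy' x h1 h2
    rcases (mW _ _).1 h1 with h1 | h1 <;> rcases (mW _ _).1 h2 with h2 | h2
    · exact hd y hy y' hy' x h1 h2
    · exact absurd ((hU y hy).2.1 h1) (h.outA _ x h2)
    · exact absurd ((hU y' hy').2.1 h2) (h.outA _ x h1)
    · refine hj y hy y' hy' ?_
      by_contra e
      exact h.disj _ _ e x h1 h2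
  have cW : ∀ y ∈ M, Conn Γ (W y) := by
    intro y hy
    obtain ⟨-, h1, h2, -, x, hx, a, ha, hxa⟩ := hU y hy
    have h3 : Conn Γ (U y) := h2.mono' fun u v e hu _ => (h.ctx.agree u (h1 hu) v).2 e
    exact h3.union_adj (conn_of_chain (List.ne_nil_of_mem ha)
      (chain_ends (List.ne_nil_of_mem ha) (h.ch _)).1) hx (List.mem_toFinset.2 ha)
      ((h.ctx.agree x (h1 hx) a).2 hxa)
  let ρ : V → V := fun u => if e : ∃ y ∈ M, u ∈ W y then e.choose else u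
  have r1 : ∀ y ∈ M, ∀ u ∈ W y, ρ u = y := by
    intro y hy u hu
    have e : ∃ y ∈ M, u ∈ W y := ⟨y, hy, hu⟩
    simp only [ρ, dif_pos e]
    exact hW _ e.choose_spec.1 y hy u e.choose_spec.2 hu
  have r2 : ∀ u, (∀ y ∈ M, u ∉ W y) → ρ u = u := by
    intro u hu
    have e : ¬ ∃ y ∈ M, u ∈ W y := fun ⟨y, a, b⟩ => hu y a b
    simp only [ρ, dif_neg e]
  have sW : ∀ y ∈ M, y ∈ W y := fun y hy => (mW _ _).2 (Or.inl (hU y hy).1)
  have r3 : ∀ y ∈ M, ∀ v, ρ v = y → v ∈ W y := by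
    intro y hy v hv
    by_cases e : ∃ y ∈ M, v ∈ W y
    · obtain ⟨y', a, b⟩ := e
      rw [r1 y' a v b] at hv
      exact hv ▸ b
    · rw [r2 v fun y a b => e ⟨y, a, b⟩] at hv
      exact hv ▸ sW y hy
  have rc : ∀ i, ρ (c i) = c i := fun i => r2 _ fun y hy e =>
    ((mW _ _).1 e).elim (fun e => h.outc i ((hU y hy).2.1 e)) (h.cA i _)
  have hρ : ∀ u v, ρ u = ρ v → R Γ (univ.filter fun w => ρ w = ρ u) u v := by
    intro u v e
    by_cases hu : ∃ y ∈ M, u ∈ W y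
    · obtain ⟨y, hy, hu⟩ := hu
      have e1 := r1 y hy u hu
      refine (cW y hy).r hu (r3 y hy v (e ▸ e1)) fun w hw => ?_
      simp only [mem_filter, mem_univ, true_and]
      rw [r1 y hy w hw, e1]
    · have e1 := r2 u fun y a b => hu ⟨y, a, b⟩
      by_cases hv : ∃ y ∈ M, v ∈ W y
      · obtain ⟨y, hy, hv⟩ := hv
        exact absurd ⟨y, hy, r3 y hy u (e.trans (r1 y hy v hv))⟩ hu
      · have e2 := r2 v fun y a b => hv ⟨y, a, b⟩
        rw [e1, e2] at e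
        exact e ▸ R.refl
  have h1 : ∀ u, u ∈ comp G Z z ∨ ρ u ∈ comp G Z z ∨ Act G (comp G Z z) u → ρ u = u := by
    intro u hu
    by_cases e : ∃ y ∈ M, u ∈ W y
    · obtain ⟨y, hy, e⟩ := e
      have e1 := r1 y hy u e
      rcases hu with hu | hu | hu
      · rcases (mW _ _).1 e with e | e
        · exact absurd (hC' hu) ((hU y hy).2.2.2.1 u e)
        · exact absurd (hZ (hC' hu)) (h.outA _ u e)
      · exact absurd (hC' (e1 ▸ hu)) (hMZ y hy)
      · rcases (mW _ _).1 e with e | e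
        · have hu' := hM u ((hU y hy).2.1 e) ((hU y hy).2.2.2.1 u e) (hu.mono hC')
          exact r1 u hu' u (sW u hu')
        · exact absurd (hu.mono hC') (hn y hy u e)
    · exact r2 u fun y a b => e ⟨y, a, b⟩
  let A' : Fin 4 → List V := fun i => if e : ∃ y ∈ M, j y = i then [e.choose] else A i
  have a1 : ∀ y ∈ M, A' (j y) = [y] := by
    intro y hy
    have e : ∃ y' ∈ M, j y' = j y := ⟨y, hy, rfl⟩
    simp only [A', dif_pos e]
    rw [hj _ e.choose_spec.1 y hy e.choose_spec.2]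
  have a2 : ∀ i, (∃ y ∈ M, j y = i ∧ A' i = [y]) ∨ (A' i = A i ∧ ∀ y ∈ M, j y ≠ i) := by
    intro i
    by_cases e : ∃ y ∈ M, j y = i
    · obtain ⟨y, hy, rfl⟩ := e
      exact Or.inl ⟨y, hy, rfl, a1 y hy⟩
    · exact Or.inr ⟨by simp only [A', dif_neg e], fun y a b => e ⟨y, a, b⟩⟩
  refine ⟨gmap Γ ρ, A', (h.ctx.sub (hC'.trans hZ) (comp_conn hz) hc).gmap hρ h1, h.inj,
    fun i => ?_, fun i i' hi x hx hx' => ?_, fun i i' hx => ?_,
    fun i e => h.outc i (hZ (hC' e)), fun i x hx e => ?_, fun i => ?_,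
    fun i => gmap_fix (h.chord i) (rc _) (rc _), fun w hw x hx a => ?_, fun i => ?_⟩
  · rcases a2 i with ⟨y, -, -, e⟩ | ⟨e, -⟩ <;> rw [e]
    · simp
    · exact h.nd i
  · rcases a2 i with ⟨y, hy, e1, e⟩ | ⟨e, -⟩ <;> rcases a2 i' with ⟨y', hy', e1', e'⟩ | ⟨e', -⟩ <;>
      rw [e] at hx <;> rw [e'] at hx'
    · rw [List.mem_singleton] at hx hx'
      exact hi (by rw [← e1, ← e1', ← hx, ← hx'])
    · rw [List.mem_singleton] at hx
      exact h.outA _ x hx' (hx ▸ hMC y hy)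
    · rw [List.mem_singleton] at hx'
      exact h.outA _ x hx (hx' ▸ hMC y' hy')
    · exact h.disj i i' hi x hx hx'
  · rcases a2 i' with ⟨y, hy, -, e⟩ | ⟨e, -⟩ <;> rw [e] at hx
    · rw [List.mem_singleton] at hx
      exact h.outc i (hx ▸ hMC y hy)
    · exact h.cA i i' hx
  · rcases a2 i with ⟨y, hy, -, e'⟩ | ⟨e', -⟩ <;> rw [e'] at hx
    · rw [List.mem_singleton] at hx
      exact hMZ y hy (hx ▸ hC' e)
    · exact h.outA i x hx (hZ (hC' e))
  · rcases a2 i with ⟨y, hy, rfl, e⟩ | ⟨e, e'⟩ <;> rw [e]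
    · obtain ⟨-, -, -, -, -, -, a₀, ha₀, -⟩ := hU y hy
      obtain ⟨-, ⟨a, ha, k⟩, b, hb, k'⟩ := chain_ends (List.ne_nil_of_mem ha₀) (h.ch (j y))
      have hne : ∀ i, c i ≠ y := fun i e => h.outc i (e ▸ hMC y hy)
      simp only [List.singleton_append, List.isChain_cons_cons, List.isChain_singleton, and_true]
      exact ⟨⟨hne _, _, a, rc _, r1 y hy a ((mW _ _).2 (Or.inr ha)), k⟩,
        ⟨(hne _).symm, b, _, r1 y hy b ((mW _ _).2 (Or.inr hb)), rc _, k'⟩⟩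
    · refine gmap_chain (h.ch i) fun x hx => ?_
      simp only [List.mem_cons, List.mem_append, List.not_mem_nil, or_false] at hx
      rcases hx with rfl | hx | rfl
      · exact rc _
      · exact r2 x fun y hy k => ((mW _ _).1 k).elim (fun k => h.outA i x hx ((hU y hy).2.1 k))
          fun k => h.disj _ _ (e' y hy) x k hx
      · exact rc _
  · by_cases hxC : x ∈ C
    · have hxZ : x ∉ Z := fun k => hx (comp_closed hw k a.symm)
      have := hM x hxC hxZ ⟨w, hC' hw, a⟩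
      exact ⟨j x, Or.inr (by rw [a1 x this]; simp)⟩
    · obtain ⟨i, k | k⟩ := h.cov w (hZ (hC' hw)) x hxC a
      · exact ⟨i, Or.inl k⟩
      · rcases a2 i with ⟨y, hy, rfl, -⟩ | ⟨e, -⟩
        · exact absurd ⟨w, hC' hw, a⟩ (hn y hy x k)
        · exact ⟨i, Or.inr (e ▸ k)⟩
  · rcases a2 i with ⟨y, -, -, e⟩ | ⟨e, -⟩ <;> rw [e]
    · exact Or.inr (by simp)
    · exact (h.ty i).imp_left fun k => k.mono (hC'.trans hZ) subset_rfl

end Zred

open Zred in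
theorem zred : ZredStmt := by
  intro V _ G Γ C c A t h ht hact Z₀ hZ₀ hc₀ y₁ y₂ y₃ hb
  have ho := h.t_out ht
  have hi := h.t_inj ht
  obtain ⟨Z, ⟨hZ, hc⟩, hmin⟩ := exists_min_of (p := fun Z : Finset V => Z ⊆ C ∧ Cyc G Z)
    (fun Z => (nb (HK G C A t) Z).card) ⟨Z₀, hZ₀, hc₀⟩
  have h3 : (nb (HK G C A t) Z).card ≤ 3 := by
    refine (hmin Z₀ ⟨hZ₀, hc₀⟩).trans ((card_le_card (t := {y₁, y₂, y₃}) fun w hw => ?_).trans
      card_le_three)
    obtain ⟨a, z, hz, b⟩ := mem_nb.1 hw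
    simpa [a] using hb z hz w b
  have hH : ∀ x y, (HK G C A t).Adj x y → x ∈ C ∨ x ∈ univ.image t := fun x y a =>
    (hk_mem a).imp_right fun ⟨i, e⟩ => mem_image.2 ⟨i, mem_univ _, e.symm⟩
  have tN : ∀ i, ∀ a ∈ A i, Act G Z a → t i ∈ nb (HK G C A t) Z := fun i a ha ⟨w, hw, k⟩ =>
    mem_nb.2 ⟨fun e => ho i (hZ e), w, hw, (hk_adj_Ct ho hi (hZ hw) i).2 ⟨a, ha, k.symm⟩⟩
  obtain ⟨P, hP, hd⟩ := link hH hZ fun Z' a b => hmin Z' ⟨b, hc.mono a⟩
  have hT : ∀ y ∈ C, y ∉ univ.image t := fun y hy e => by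
    obtain ⟨i, -, rfl⟩ := mem_image.1 e
    exact ho i hy
  have key : ∀ y ∈ nb (HK G C A t) Z ∩ C, ∃ i, t i ∈ P y ∧
      ∃ x ∈ comp (HK G C A t) (P y \ univ.image t) y, (HK G C A t).Adj x (t i) := by
    intro y hy
    obtain ⟨hy, hyC⟩ := mem_inter.1 hy
    obtain ⟨p1, p2, -, b, hb, p3⟩ := hP y hy
    obtain ⟨x, x', k1, k2, -, k4, k5, k6⟩ := (p2.2 y p1 b p3).exit (S := P y \ univ.image t)
      (mem_sdiff.2 ⟨p1, hT y hyC⟩) (fun e => (mem_sdiff.1 e).2 hb)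
    have : x' ∈ univ.image t := by
      by_contra e
      exact k2 (mem_sdiff.2 ⟨k4, e⟩)
    obtain ⟨i, -, rfl⟩ := mem_image.1 this
    exact ⟨i, k4, x, mem_comp.2 ⟨k1, k6.mono inter_subset_right⟩, k5⟩
  choose! j hj1 hj2 using key
  have uC : ∀ y ∈ C, comp (HK G C A t) (P y \ univ.image t) y ⊆ C := fun y hy x hx =>
    (reach_mem hH (Or.inl hy) (mem_comp.1 hx).2).resolve_right (mem_sdiff.1 (mem_comp.1 hx).1).2
  have uP : ∀ y, ∀ x ∈ comp (HK G C A t) (P y \ univ.image t) y, x ∈ P y := fun y x hx =>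
    (mem_sdiff.1 (comp_subset hx)).1
  obtain ⟨z, hz, hcz⟩ := hc.exists_comp
  obtain ⟨Γ', A', hK⟩ := core (M := nb (HK G C A t) Z ∩ C) h hZ
    (U := fun y => comp (HK G C A t) (P y \ univ.image t) y) (j := j) (fun y hy => by
      obtain ⟨hyN, hyC⟩ := mem_inter.1 hy
      have hy' : y ∈ P y \ univ.image t := mem_sdiff.2 ⟨(hP y hyN).1, hT y hyC⟩
      obtain ⟨x, hx, k⟩ := hj2 y hy
      exact ⟨self_mem_comp hy', uC y hyC, (comp_conn hy').mono' fun u v e hu hv =>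
        (hk_adj_CC ho (uC y hyC hu) (uC y hyC hv)).1 e,
        fun x hx => (hP y hyN).2.2.1 x (uP y x hx), x, hx,
        (hk_adj_Ct ho hi (uC y hyC hx) _).1 k⟩)
    (fun y hy y' hy' x a b =>
      hd y (mem_inter.1 hy).1 y' (mem_inter.1 hy').1 x (uP y x a) (uP y' x b))
    (fun y hy y' hy' e => hd y (mem_inter.1 hy).1 y' (mem_inter.1 hy').1 (t (j y)) (hj1 y hy)
      (e ▸ hj1 y' hy'))
    (fun y hy a ha k => by
      have k' := tN _ a ha k
      have := hd y (mem_inter.1 hy).1 _ k' _ (hj1 y hy) (hP _ k').1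
      exact ho _ (this ▸ (mem_inter.1 hy).2))
    (fun x hx hxZ ⟨w, hw, k⟩ => mem_inter.2
      ⟨mem_nb.2 ⟨hxZ, w, hw, (hk_adj_CC ho (hZ hw) hx).2 k.symm⟩, hx⟩) hz hcz
  refine ⟨Γ', _, A', lt_of_le_of_lt (card_le_card comp_subset)
    (card_lt_card ⟨hZ, fun hCZ => ?_⟩), hK⟩
  have : univ.image t ⊆ nb (HK G C A t) Z := by
    intro x hx
    obtain ⟨i, -, rfl⟩ := mem_image.1 hx
    obtain ⟨a, ha, k⟩ := hact i
    exact tN i a ha (k.mono hCZ)
  have h4 := card_le_card this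
  rw [card_image_of_injective _ hi] at h4
  simp at h4
  omega

end Pool.Agent.MP_e6539c_co.C5
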