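import Pool.Agent.MP_e6539c_co.C5.Cy
import Pool.Agent.MP_e6539c_co.C5.Extq
import Pool.Agent.MP_e6539c_co.C5.Fc0
import Pool.Agent.MP_e6539c_co.C5.Fc1
import Pool.Agent.MP_e6539c_co.C5.Fca
import Pool.Agent.MP_e6539c_co.C5.Geo
import Pool.Agent.MP_e6539c_co.C5.Good
import Pool.Agent.MP_e6539c_co.C5.Ineq
import Pool.Agent.MP_e6539c_co.C5.Ks
import Pool.Agent.MP_e6539c_co.C5.Lens
import Pool.Agent.MP_e6539c_co.C5.Link
import Pool.Agent.MP_e6539c_co.C5.Move
import Pool.Agent.MP_e6539c_co.C5.Pat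
import Pool.Agent.MP_e6539c_co.C5.Pcross
import Pool.Agent.MP_e6539c_co.C5.Peel
import Pool.Agent.MP_e6539c_co.C5.Prune
import Pool.Agent.MP_e6539c_co.C5.Ps
import Pool.Agent.MP_e6539c_co.C5.Qtree
import Pool.Agent.MP_e6539c_co.C5.Quad
import Pool.Agent.MP_e6539c_co.C5.Split
import Pool.Agent.MP_e6539c_co.C5.Surv
import Pool.Agent.MP_e6539c_co.C5.Tree
import Pool.Agent.MP_e6539c_co.C5.Vec
import Pool.Agent.MP_e6539c_co.C5.Weight
import Pool.Agent.MP_e6539c_co.C5.Xl
import Pool.Agent.MP_e6539c_co.C5.Xpet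
import Pool.Agent.MP_e6539c_co.C5.Zred

/-! Assembly of the territory game for girth eleven. -/

set_option autoImplicit false

namespace Pool.Agent.MP_e6539c_co.C5

theorem tpAll : TPStmt := tp (link dim) (split merge) extq xl lens good pcross peel base

theorem moveAll : MoveStmt := move geo (surv tree surv0)

theorem kfinAll : KfinStmt :=
  kfin tpAll xpet zred (fca tree pat (fc0 tree) (fc1 tree) (fc2 tree))
    (ineq merge dim (weight hand)) (prune ball)

theorem noAllAll : NoAllStmt :=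
  noAll (cy moveAll (move0 tree surv0)) (ps moveAll) (ks moveAll kfinAll (quad qtree xcore))

end Pool.Agent.MP_e6539c_co.C5
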