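import Mathlib.GroupTheory.GroupAction.Ring
import Pool.Agent.MP_e6539c_co.C5.Basic

/-! A cycle behind a three-cut runs through two or three pieces. -/

set_option autoImplicit false

namespace Pool.Agent.MP_e6539c_co.C5

open Finset
open Pool.Agent.MP_7be75d_co (R Conn comp)
open Pool.Agent.MP_7be75d_co
open scoped Classical

namespace Pat

variable {V : Type} {H : SimpleGraph V} {Z : Finset V} {x : Vec V}

/-- An edge of `x` joins the outside vertex `a` to the component of `z`. -/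
def Lv (H : SimpleGraph V) (Z : Finset V) (x : Vec V) (a z : V) : Prop :=
  a ∉ Z ∧ z ∈ Z ∧ ∃ w ∈ comp H Z z, x s(a, w) ≠ 0

theorem comp_or (z z' : V) :
    Disjoint (comp H Z z) (comp H Z z') ∨ comp H Z z = comp H Z z' := by
  by_cases h : Disjoint (comp H Z z) (comp H Z z')
  · exact Or.inl h
  · obtain ⟨w, h1, h2⟩ := not_disjoint_iff.1 h
    exact Or.inr ((comp_eq h1).symm.trans (comp_eq h2))

variable [Fintype V]

theorem Lv.act (hx : Ev H x) {a z : V} (h : Lv H Z x a z) : Act H (comp H Z z) a := by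
  obtain ⟨-, -, w, hw, c⟩ := h
  exact ⟨w, hw, hx.1 _ _ c⟩

theorem Lv.mem {y₁ y₂ y₃ : V} (hb : Bd3 H Z y₁ y₂ y₃) (hx : Ev H x) {a z : V}
    (h : Lv H Z x a z) : a = y₁ ∨ a = y₂ ∨ a = y₃ := by
  obtain ⟨ha, -, w, hw, c⟩ := h
  exact (hb w (comp_subset hw) a (hx.1 _ _ c).symm).resolve_left ha

theorem exists_lv (hc : ¬ Cyc H Z) (hx : Ev H x)
    (hZ : ∀ u v, x s(u, v) ≠ 0 → u ∈ Z ∨ v ∈ Z) (h0 : x ≠ 0) : ∃ a z, Lv H Z x a z := by
  by_contra hn
  have key : ∀ u v, x s(u, v) ≠ 0 → u ∈ Z := fun u v c => by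
    by_contra hu
    have hv := (hZ u v c).resolve_left hu
    exact hn ⟨u, v, hu, hv, v, self_mem_comp hv, c⟩
  obtain ⟨e, he⟩ := Function.ne_iff.1 h0
  induction e using Sym2.ind with
  | h u v =>
    refine hc ⟨univ.filter fun a => ∃ b, x s(a, b) ≠ 0, fun a ha => ?_,
      ⟨u, mem_filter.2 ⟨mem_univ _, v, he⟩⟩, fun a ha => ?_⟩
    · obtain ⟨b, hb⟩ := (mem_filter.1 ha).2
      exact key a b hb
    · obtain ⟨b, hb⟩ := (mem_filter.1 ha).2
      obtain ⟨w, hw, hw'⟩ := second_edge (hx.2 a) hb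
      refine two_le_dg.2 ⟨w, mem_filter.2 ⟨mem_univ _, a, ?_⟩, b,
        mem_filter.2 ⟨mem_univ _, a, ?_⟩, hw, hx.1 _ _ hw', hx.1 _ _ hb⟩
      · rwa [Sym2.eq_swap]
      · rwa [Sym2.eq_swap]

theorem Lv.other
    (hu : ∀ z ∈ Z, ∀ y ∉ Z, ∀ w ∈ comp H Z z, ∀ w' ∈ comp H Z z, H.Adj y w → H.Adj y w' → w = w')
    (hx : Ev H x) {a z : V} (h : Lv H Z x a z) : ∃ b, b ≠ a ∧ Lv H Z x b z := by
  by_contra hn
  obtain ⟨ha, hz, w, hw, c⟩ := h
  have key : ∀ v ∈ comp H Z z, ∀ b, b ∉ comp H Z z → x s(v, b) ≠ 0 → b = a ∧ v = w := by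
    intro v hv b hb c'
    have hbZ : b ∉ Z := fun hb' => hb (comp_closed hv hb' (hx.1 _ _ c'))
    have e : b = a := by
      by_contra hne
      exact hn ⟨b, hne, hbZ, hz, v, hv, by rwa [Sym2.eq_swap]⟩
    subst e
    exact ⟨rfl, hu z hz b hbZ v hv w hw (hx.1 _ _ c').symm (hx.1 _ _ c)⟩
  have h1 := sum_par_closed hx.diag (comp H Z z)
  have haY : a ∉ comp H Z z := fun h => ha (comp_subset h)
  rw [sum_eq_zero (fun v _ => hx.2 v), sum_eq_single_of_mem w hw,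
    sum_eq_single_of_mem a (mem_sdiff.2 ⟨mem_univ _, haY⟩)] at h1
  · exact c (by rw [Sym2.eq_swap]; exact h1.symm)
  · intro b hb hne
    by_contra c'
    exact hne (key w hw b (mem_sdiff.1 hb).2 c').1
  · intro v hv hne
    refine sum_eq_zero fun b hb => ?_
    by_contra c'
    exact hne (key v hv b (mem_sdiff.1 hb).2 c').2

theorem Lv.next
    (hu : ∀ z ∈ Z, ∀ y ∉ Z, ∀ w ∈ comp H Z z, ∀ w' ∈ comp H Z z, H.Adj y w → H.Adj y w' → w = w')
    (hx : Ev H x) (hZ : ∀ u v, x s(u, v) ≠ 0 → u ∈ Z ∨ v ∈ Z) {a z : V} (h : Lv H Z x a z) :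
    ∃ z', Disjoint (comp H Z z) (comp H Z z') ∧ Lv H Z x a z' := by
  obtain ⟨ha, hz, w, hw, c⟩ := h
  obtain ⟨w', hne, c'⟩ := second_edge (hx.2 a) c
  have hw' := (hZ a w' c').resolve_left ha
  refine ⟨w', (comp_or z w').resolve_right fun e => hne ?_, ha, hw', w', self_mem_comp hw', c'⟩
  exact hu z hz a ha w' (e ▸ self_mem_comp hw') w hw (hx.1 _ _ c') (hx.1 _ _ c)

end Pat

open Pat in
theorem pat : PatStmt := by
  intro V _ H Z y₁ y₂ y₃ hb hc hu x hx hZ h0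
  obtain ⟨a, z₁, la1⟩ := exists_lv hc hx hZ h0
  obtain ⟨b, hba, lb1⟩ := la1.other hu hx
  obtain ⟨z₂, d12, la2⟩ := la1.next hu hx hZ
  obtain ⟨e, hea, le2⟩ := la2.other hu hx
  by_cases heb : e = b
  · subst heb
    exact Or.inl ⟨z₁, la1.2.1, z₂, la2.2.1, a, la1.1, e, lb1.1, d12, hba.symm, la1.act hx,
      lb1.act hx, la2.act hx, le2.act hx⟩
  obtain ⟨z₃, d13, lb3⟩ := lb1.next hu hx hZ
  obtain ⟨e', heb', le3⟩ := lb3.other hu hx
  by_cases hea' : e' = a
  · subst hea'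
    exact Or.inl ⟨z₁, la1.2.1, z₃, lb3.2.1, e', la1.1, b, lb1.1, d13, hba.symm, la1.act hx,
      lb1.act hx, le3.act hx, lb3.act hx⟩
  rcases comp_or (H := H) (Z := Z) z₂ z₃ with d23 | d23
  · have : e' = e := by
      have m1 := la1.mem hb hx
      have m2 := lb1.mem hb hx
      have m3 := le2.mem hb hx
      have m4 := le3.mem hb hx
      rcases m1 with m1 | m1 | m1 <;> rcases m2 with m2 | m2 | m2 <;>
        rcases m3 with m3 | m3 | m3 <;> rcases m4 with m4 | m4 | m4 <;>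
        first
          | exact m4.trans m3.symm
          | exact absurd (m2.trans m1.symm) hba
          | exact absurd (m3.trans m1.symm) hea
          | exact absurd (m3.trans m2.symm) heb
          | exact absurd (m4.trans m2.symm) heb'
          | exact absurd (m4.trans m1.symm) hea'
    subst this
    exact Or.inr ⟨z₁, la1.2.1, z₂, la2.2.1, z₃, lb3.2.1, a, la1.1, b, lb1.1, e', le2.1, d12, d13,
      d23, hba.symm, Ne.symm hea, Ne.symm heb, la1.act hx, lb1.act hx, la2.act hx, le2.act hx,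
      lb3.act hx, le3.act hx⟩
  · exact Or.inl ⟨z₁, la1.2.1, z₂, la2.2.1, a, la1.1, b, lb1.1, d12, hba.symm, la1.act hx,
      lb1.act hx, la2.act hx, d23 ▸ lb3.act hx⟩

end Pool.Agent.MP_e6539c_co.C5
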