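import Mathlib.GroupTheory.GroupAction.Ring
import Pool.Agent.MP_e6539c_co.C5.Basic

/-! A cross in the terminal graph gives a Petersen minor; the end of the game. -/

set_option autoImplicit false

namespace Pool.Agent.MP_e6539c_co.C5

open Finset
open Pool.Agent.MP_7be75d_co (R Conn comp)
open Pool.Agent.MP_7be75d_co
open Pool.Agent.MP_e6539c_co.TW (MG)
open scoped Classical

namespace Xpet

variable {V : Type} {G Γ : SimpleGraph V} {C : Finset V} {c : Fin 4 → V} {A : Fin 4 → List V}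
  {t : Fin 4 → V}

theorem ends {p q : V} {l : List V} (hl : l ≠ []) (h : (p :: (l ++ [q])).IsChain Γ.Adj) :
    l.IsChain Γ.Adj ∧ (∃ a ∈ l, Γ.Adj p a) ∧ ∃ a ∈ l, Γ.Adj a q := by
  have h1 : (l ++ [q]).IsChain Γ.Adj := h.of_cons
  refine ⟨h1.left_of_append, ?_, ?_⟩
  · obtain ⟨a, l, rfl⟩ := List.exists_cons_of_ne_nil hl
    exact ⟨a, by simp, (List.isChain_cons_cons.1 h).1⟩
  · obtain ⟨l, a, rfl⟩ := (List.eq_nil_or_concat' l).resolve_left hl
    rw [List.append_assoc] at h1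
    exact ⟨a, by simp, (List.isChain_cons_cons.1 h1.right_of_append).1⟩

/-- A connected set of the terminal graph that joins two opposite terminals. -/
theorem arc (ho : ∀ i, t i ∉ C) (hi : Function.Injective t) {X : Finset V} {i j : Fin 4}
    (hij : i ≠ j ∧ ¬ (j = i + 1 ∨ i = j + 1)) (hX : Conn (HK G C A t) X)
    (h : ∀ z, (z ∈ X ∧ z ∈ [t 0, t 1, t 2, t 3]) ↔ (z = t i ∨ z = t j)) :
    ∃ U ⊆ X, U ⊆ C ∧ Conn G U ∧ (∃ a ∈ A i, Act G U a) ∧ ∃ a ∈ A j, Act G U a := by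
  obtain ⟨U, h1, h2, ⟨w, hw, h3⟩, w', hw', h4⟩ := (conn_open hX ((h _).2 (.inl rfl)).1
    ((h _).2 (.inr rfl)).1 fun e => hij.1 (hi e)).resolve_left
    fun a => hij.2 ((hk_adj_tt ho hi i j).1 a)
  have hC : U ⊆ C := fun u hu => by
    obtain ⟨y, hy⟩ : ∃ y, (HK G C A t).Adj u y := by
      by_cases e : u = w
      · exact ⟨_, e ▸ h3.symm⟩
      · obtain ⟨y, -, hy⟩ := h2.exists_adj hu hw e
        exact ⟨y, hy⟩
    refine (hk_mem hy).resolve_right ?_
    rintro ⟨k, rfl⟩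
    have := mem_sdiff.1 (h1 hu)
    exact this.2 (by simpa using (h _).1 ⟨this.1, by fin_cases k <;> simp⟩)
  obtain ⟨a, a1, a2⟩ := (hk_adj_Ct ho hi (hC hw) i).1 h3.symm
  obtain ⟨b, b1, b2⟩ := (hk_adj_Ct ho hi (hC hw') j).1 h4.symm
  exact ⟨U, h1.trans sdiff_subset, hC,
    h2.mono' fun x y a hx hy => (hk_adj_CC ho (hC hx) (hC hy)).1 a,
    ⟨a, a1, w, hw, a2.symm⟩, b, b1, w', hw', b2.symm⟩

/-- The labels of the branch sets. -/
def lab : ℕ → Fin 4 ⊕ Fin 4 ⊕ Bool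
  | 0 => .inl 0
  | 1 => .inr (.inl 0)
  | 2 => .inl 1
  | 3 => .inr (.inl 1)
  | 4 => .inl 2
  | 5 => .inr (.inl 3)
  | 6 => .inr (.inr true)
  | 7 => .inl 3
  | 8 => .inr (.inr false)
  | _ => .inr (.inl 2)

theorem lab_inj : ∀ i < 10, ∀ j < 10, i ≠ j → lab i ≠ lab j := by decide

end Xpet

open Xpet

theorem xcore : XcoreStmt := by
  intro V _ G Γ C U₁ U' c A hC ag inj disj cA outc outA ch chord a2 b2 d a3 b3
    ⟨x0, n0, w0, m0, e0⟩ ⟨x2, n2, w2, m2, e2⟩ ⟨x1, n1, w1, m1, e1⟩ ⟨x3, n3, w3, m3, e3⟩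
  have ne : ∀ i, A i ≠ [] := fun i => by
    fin_cases i
    exacts [List.ne_nil_of_mem n0, List.ne_nil_of_mem n1, List.ne_nil_of_mem n2,
      List.ne_nil_of_mem n3]
  have hU₁ : U₁ ⊆ C \ U' := fun z hz => mem_sdiff.2 ⟨a2 hz, disjoint_left.1 d hz⟩
  set U := comp G (C \ U') w0
  have k1 : U₁ ⊆ U := a3.subset_comp hU₁ m0 (self_mem_comp (hU₁ m0))
  have k2 : ∀ z ∈ U, z ∈ C ∧ z ∉ U' := fun z hz => mem_sdiff.1 (comp_subset hz)
  obtain ⟨p, q, p1, q1, -, q2, pq⟩ := hC.exit (T := U) (a2 m0) (k1 m0) (b2 m1)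
    fun k => (k2 _ k).2 m1
  have q3 : q ∈ U' := by
    by_contra k
    exact q1 (comp_closed p1 (mem_sdiff.2 ⟨q2, k⟩) pq)
  let W : Bool → Finset V := fun b => cond b U U'
  have hW : ∀ b, W b ⊆ C := fun b => by
    cases b
    exacts [b2, fun z hz => (k2 z hz).1]
  let F : Fin 4 ⊕ Fin 4 ⊕ Bool → Finset V :=
    Sum.elim (fun i => {c i}) (Sum.elim (fun i => (A i).toFinset) W)
  have hA := fun i => ends (ne i) (ch i)
  have f1 : ∀ i, ∃ u ∈ F (.inl i), ∃ v ∈ F (.inr (.inl i)), Γ.Adj u v := fun i =>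
    let ⟨a, ha, k⟩ := (hA i).2.1; ⟨_, mem_singleton_self _, a, List.mem_toFinset.2 ha, k⟩
  have f2 : ∀ i, ∃ u ∈ F (.inr (.inl i)), ∃ v ∈ F (.inl (i + 1)), Γ.Adj u v := fun i =>
    let ⟨a, ha, k⟩ := (hA i).2.2; ⟨a, List.mem_toFinset.2 ha, _, mem_singleton_self _, k⟩
  have f3 : ∀ i, ∃ u ∈ F (.inl i), ∃ v ∈ F (.inl (i + 2)), Γ.Adj u v := fun i =>
    ⟨_, mem_singleton_self _, _, mem_singleton_self _, chord i⟩
  have f4 : ∀ i b, ∀ w ∈ W b, ∀ a ∈ A i, G.Adj a w →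
      ∃ u ∈ F (.inr (.inl i)), ∃ v ∈ F (.inr (.inr b)), Γ.Adj u v := fun i b w hw a ha k =>
    ⟨a, List.mem_toFinset.2 ha, w, hw, (ag w (hW b hw) a k.symm).symm⟩
  have sw : ∀ {S T : Finset V}, (∃ u ∈ S, ∃ v ∈ T, Γ.Adj u v) → ∃ u ∈ T, ∃ v ∈ S, Γ.Adj u v :=
    fun ⟨u, a, v, b, k⟩ => ⟨v, b, u, a, k.symm⟩
  have hconn : ∀ l, Conn Γ (F l) := by
    rintro (i | i | b)
    · exact Conn.singleton _
    · exact conn_of_chain (ne i) (hA i).1
    · refine Conn.mono' (G := G) ?_ fun x y a hx _ => ag x (hW b hx) y a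
      cases b
      exacts [b3, comp_conn (hU₁ m0)]
  have hdis : ∀ l l', l ≠ l' → ∀ z ∈ F l, z ∉ F l' := by
    rintro (i | i | b) (j | j | b') hne z h1 h2
    · exact hne (congrArg _ (inj ((mem_singleton.1 h1).symm.trans (mem_singleton.1 h2))))
    · exact cA i j (mem_singleton.1 h1 ▸ List.mem_toFinset.1 h2)
    · exact outc i (mem_singleton.1 h1 ▸ hW _ h2)
    · exact cA j i (mem_singleton.1 h2 ▸ List.mem_toFinset.1 h1)
    · exact disj i j (fun e => hne (by rw [e])) z (List.mem_toFinset.1 h1) (List.mem_toFinset.1 h2)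
    · exact outA i z (List.mem_toFinset.1 h1) (hW _ h2)
    · exact outc j (mem_singleton.1 h2 ▸ hW _ h1)
    · exact outA j z (List.mem_toFinset.1 h2) (hW _ h1)
    · cases b <;> cases b'
      exacts [hne rfl, (k2 z h2).2 h1, (k2 z h1).2 h2, hne rfl]
  refine ⟨fun i => F (lab i), fun i _ => hconn _, fun i a j b k =>
    disjoint_left.2 (hdis _ _ (lab_inj i a j b k)), ?_⟩
  simp only [MG.petE, List.forall_mem_cons, List.not_mem_nil, IsEmpty.forall_iff, implies_true,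
    and_true]
  exact ⟨f1 0, f2 0, f1 1, f2 1, f3 0, sw (f2 3), f4 0 true w0 (k1 m0) x0 n0 e0, f3 1,
    f4 1 false w1 m1 x1 n1 e1, f1 2, sw (f1 3), sw (f2 2), sw (f4 2 true w2 (k1 m2) x2 n2 e2),
    ⟨p, p1, q, q3, ag p (k2 p p1).1 q pq⟩, f4 3 false w3 m3 x3 n3 e3⟩

theorem xpet : XpetStmt := by
  intro V _ G Γ C c A t h ht hX
  have ho := h.t_out ht
  have hi := h.t_inj ht
  obtain ⟨x, u, y, v, X₁, X₂, s, c₁, c₂, d, h₁, h₂⟩ := hX.norm
  have e := s.eq_of_length rfl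
  simp only [List.cons.injEq, and_true] at e
  obtain ⟨rfl, rfl, rfl, rfl⟩ := e
  obtain ⟨U, a1, a2, a3, e0, e2⟩ := arc ho hi (by decide) c₁ h₁
  obtain ⟨U', b1, b2, b3, e1, e3⟩ := arc ho hi (by decide) c₂ h₂
  exact h.ctx.np (xcore V G Γ C U U' c A h.ctx.conn (fun w hw x => (h.ctx.agree w hw x).2) h.inj
    h.disj h.cA h.outc h.outA h.ch h.chord a2 b2 (d.mono a1 b1) a3 b3 e0 e2 e1 e3)

theorem kfin (hT : TPStmt) (hX : XpetStmt) (hZ : ZredStmt) (hF : FcaStmt) (hI : IneqStmt)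
    (hP : PruneStmt) : KfinStmt := by
  intro V _ G Γ C c A hN h hact
  choose t ht _ using id hact
  have ho := h.t_out ht
  have hi := h.t_inj ht
  have fr : Frame (HK G C A t) [t 0, t 1, t 2, t 3] := by
    refine ⟨by simp [hi.eq_iff], by simp, fun x y f => ?_⟩
    obtain ⟨i, rfl, rfl⟩ := fr_four f
    exact (hk_adj_tt ho hi _ _).2 (.inl rfl)
  have fc : FC (HK G C A t) [t 0, t 1, t 2, t 3] := by
    intro Z y₁ y₂ y₃ hz hb x hx hs
    have hm : ∀ u ∈ Z, ∀ v, (HK G C A t).Adj u v → u ∈ C := fun u hu v a =>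
      (hk_mem a).resolve_right fun ⟨i, e⟩ => hz u hu (by rw [e]; fin_cases i <;> simp)
    have hb' : Bd3 (HK G C A t) (Z ∩ C) y₁ y₂ y₃ := fun z m w a =>
      (hb z (mem_inter.1 m).1 w a).imp_left fun k => mem_inter.2 ⟨k, hm w k z a.symm⟩
    by_cases k : Cyc G (Z ∩ C)
    · obtain ⟨Γ', C', A', k1, k2⟩ := hZ V G Γ C c A t h ht hact _ inter_subset_right k _ _ _ hb'
      exact absurd k2 ((hN Γ' C' k1).2.2 c A')
    · exact hF V G Γ C c A t h ht _ inter_subset_right k _ _ _ hb' x hx fun u v e =>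
        (hs u v e).imp (fun a => mem_inter.2 ⟨a, hm u a v (hx.1 u v e)⟩)
          fun a => mem_inter.2 ⟨a, hm v a u (hx.1 u v e).symm⟩
  obtain ⟨F, hB⟩ := hT V _ _ fr (hX V G Γ C c A t h ht) fc
  refine hP V G C (univ.image c) (kk G A) h.ctx.gi h.ctx.cyc (disjoint_left.2 fun x hx k => ?_)
    (card_image_le.trans (by simp)) (fun v hv => ?_) (hI V G Γ C c A t h ht F hB)
  · obtain ⟨i, -, rfl⟩ := mem_image.1 hx
    exact h.outc i k
  · let N := univ.filter fun a => G.Adj v a ∧ ∃ i, a ∈ A i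
    have h1 : N.card ≤ kk G A v := by
      have hc : ∀ a : V, ∃ i : Fin 4, (∃ j, a ∈ A j) → a ∈ A i := fun a => by
        by_cases e : ∃ j, a ∈ A j
        · exact e.imp fun j a _ => a
        · exact ⟨0, fun k => absurd k e⟩
      choose f hf using hc
      refine card_le_card_of_injOn f (fun a ha => ?_) fun a ha b hb e => ?_
      · have := (mem_filter.1 ha).2
        exact mem_filter.2 ⟨mem_univ _, a, hf a this.2, this.1⟩
      · have ha := (mem_filter.1 ha).2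
        have hb := (mem_filter.1 hb).2
        by_contra k
        have := h.arc_far (hf a ha.2) (e ▸ hf b hb.2) ha.1.symm hb.1.symm
          (fun e => k (congrArg Prod.fst e)) (Wk.refl (r := 0) hv)
        omega
    have h2 : univ.filter (G.Adj v) ⊆ (C.filter (G.Adj v) ∪ N) ∪ (univ.image c).filter (G.Adj v) := by
      intro w hw
      have a := (mem_filter.1 hw).2
      by_cases k : w ∈ C
      · exact mem_union_left _ (mem_union_left _ (mem_filter.2 ⟨k, a⟩))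
      obtain ⟨i, rfl | e⟩ := h.cov v hv w k a.symm
      · exact mem_union_right _ (mem_filter.2 ⟨mem_image_of_mem _ (mem_univ _), a⟩)
      · exact mem_union_left _ (mem_union_right _ (mem_filter.2 ⟨mem_univ _, a, i, e⟩))
    exact (h.ctx.deg v hv).trans ((card_le_card h2).trans ((card_union_le _ _).trans
      (Nat.add_le_add_right ((card_union_le _ _).trans (Nat.add_le_add_left h1 _)) _)))

end Pool.Agent.MP_e6539c_co.C5
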